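import Pool.Agent.TH101.RG.Cls

set_option autoImplicit false

/-! # The class sums of the repelling weights for arbitrary residues, seen by a tuple

Variants of `classA_of`, `classB_of` of `Pool.Agent.H312R2.RG` (helper312's team): arbitrary residues `res p k`
modulo the sieving primes. -/

open Finset Filter

namespace Pool.Agent.TH101.RG

open Pool.Agent.H312R2.RG
open Pool.Agent.H378R2
open Pool.Agent.H378R2.LSBV (QQ mem_QQ TT)
open Pool.Agent.H256R2.SC (Col emb colr Lv emb_mem emb_surj colr_eq qq wt_nonneg)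

/-- shifting the argument of the colouring -/
theorem colr_shift' {U : Finset ℕ} {PP : Finset ℕ} (res : ℕ → ↥U → ℤ)
    (hinj : ∀ p ∈ PP, ∀ k l, k ≠ l → ¬ ((p : ℤ) ∣ res p k - res p l)) (a s : ℤ) :
    colr PP res (a - s) = colr PP (fun p k => res p k + s) a := by
  have hi2 : ∀ p ∈ PP, ∀ k l : ↥U, k ≠ l → ¬ ((p : ℤ) ∣ (fun p k => res p k + s) p k - (fun p k => res p k + s) p l) := by
    intro p hp k l hkl
    have h := hinj p hp k l hkl
    have e : (fun p k => res p k + s) p k - (fun p k => res p k + s) p l = res p k - res p l := by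
      show res p k + s - (res p l + s) = _
      ring
    rw [e]
    exact h
  funext i
  have hk : ∀ k : ↥U, colr PP res (a - s) i = some k ↔ colr PP (fun p k => res p k + s) a i = some k := by
    intro k
    rw [colr_eq hinj, colr_eq hi2]
    have h1 : a - s - res (emb PP i) k = a - (fun p k => res p k + s) (emb PP i) k := by
      show _ = a - (res (emb PP i) k + s)
      ring
    rw [h1]
  cases h1 : colr PP res (a - s) i with
  | none =>
    cases h2 : colr PP (fun p k => res p k + s) a i with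
    | none => rfl
    | some k =>
      have := (hk k).2 h2
      rw [h1] at this
      exact absurd this (by simp)
  | some k => exact ((hk k).1 h1).symm

/-- class sums with the weight `Phi` -/
theorem classA_t {K : ℕ} (X : ℝ) (hX : 4 ≤ X) (t : Fin K → ℕ) (U : Finset ℕ) (ps : ℕ) (S : Finset ℕ) (y : ℝ)
    (PP : Finset ℕ) (hPP : MedP ps y PP) (hyy : (yy X : ℝ) ≤ y) (res : ℕ → ↥U → ℤ)
    (hinj : ∀ p ∈ PP, ∀ k l, k ≠ l → ¬ ((p : ℤ) ∣ res p k - res p l))
    (htr : ∀ p ∈ PP, ∀ k j, ¬ ((p : ℤ) ∣ (t j : ℤ) + res p k)) (G : Col PP.card ↥U → ℝ) (Q₁ B₁ : ℝ) (hQ₁ : 0 ≤ Q₁)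
    (hG : Lv (pP PP) Q₁ B₁ G) (hsize : (WW X S ps : ℝ) * X ^ (1 / 100 : ℝ) * Q₁ ≤ X) :
    ClassA X (WW X S ps) ps t (fun a => G (colr PP res a)) (Pool.Agent.H256R2.SC.EE (gP PP) G)
      (fun q => MPhi X * (1 / (WW X S ps : ℝ)) * (1 / (q : ℝ)) *
        |Pool.Agent.H256R2.SC.EE (gP PP) (fun x => G (cut (mq PP (WW X S ps * q)) x)) -
          Pool.Agent.H256R2.SC.EE (gP PP) G| + 5 * B₁) := by
  intro q b hq hb
  rw [mem_QQ] at hq
  obtain ⟨⟨hq1, hqR⟩, hsq, hcop⟩ := hq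
  set W := WW X S ps with hW
  have hWpos : 0 < W := WW_pos X S ps
  have hWr : (0 : ℝ) < W := by exact_mod_cast hWpos
  have hqr : (0 : ℝ) < q := by exact_mod_cast hq1
  have hN₀ : 0 < W * q := Nat.mul_pos hWpos hq1
  have hqX : (q : ℝ) ≤ X ^ (1 / 100 : ℝ) := by
    rw [← exp_two_LL X (by linarith)]
    exact (Nat.le_floor_iff (Real.exp_pos _).le).1 hqR
  have h1 := class_phi X hX PP (fun p hp => (hPP p hp).1) res hinj (W * q) b hN₀ (mq PP (W * q))
    (fun i => by unfold mq; rw [mem_filter]; exact ⟨fun h => h.2, fun h => ⟨mem_univ _, h⟩⟩)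
    (by
      intro i hi k hd
      unfold mq at hi
      rw [mem_filter] at hi
      obtain ⟨hp, hyp, _⟩ := hPP _ (emb_mem PP i)
      rcases (Nat.Prime.dvd_mul hp).1 hi.2 with h | h
      · have h2 := (mem_PW.1 ((prime_dvd_WW hp).1 h)).1
        have h3 : ((emb PP i : ℕ) : ℝ) ≤ yy X := by exact_mod_cast h2
        linarith
      · obtain ⟨j, hj⟩ := hb _ hp h
        have h2 : ((emb PP i : ℕ) : ℤ) ∣ (t j : ℤ) + res (emb PP i) k := by
          have h3 := dvd_sub hj hd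
          have h4 : (b : ℤ) + t j - ((b : ℤ) - res (emb PP i) k) = (t j : ℤ) + res (emb PP i) k := by ring
          rwa [h4] at h3
        exact htr _ (emb_mem PP i) k j h2)
    G Q₁ B₁ hG (by
      push_cast
      calc (W : ℝ) * q * Q₁ ≤ W * X ^ (1 / 100 : ℝ) * Q₁ := by gcongr
        _ ≤ X := hsize)
  set Ec := Pool.Agent.H256R2.SC.EE (gP PP) (fun x => G (cut (mq PP (W * q)) x)) with hEc
  set E0 := Pool.Agent.H256R2.SC.EE (gP PP) G with hE0
  have hMnn : 0 ≤ MPhi X := by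
    unfold MPhi
    exact Finset.sum_nonneg fun n _ => Phi_nonneg _
  have h2 : ((W * q : ℕ) : ℝ) = (W : ℝ) * q := by push_cast; ring
  rw [h2] at h1
  have h3 : MPhi X * (1 / ((W : ℝ) * q)) = MPhi X * (1 / (W : ℝ)) * (1 / (q : ℝ)) := by
    field_simp
  rw [h3] at h1
  set P := MPhi X * (1 / (W : ℝ)) * (1 / (q : ℝ)) with hP
  have hPnn : 0 ≤ P := by rw [hP]; positivity
  have h4 : E0 * (MPhi X * (1 / (W : ℝ))) * (1 / (q : ℝ)) = P * E0 := by rw [hP]; ring
  have h5 : ∑ n ∈ (Icc 1 ⌊3 * X⌋₊).filter (fun n => n ≡ b [MOD W * q]), Phi (n / X) *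
      (fun a => G (colr PP res a)) (n : ℤ) =
      ∑ n ∈ (Icc 1 ⌊3 * X⌋₊).filter (fun n => n ≡ b [MOD W * q]), Phi (n / X) *
        G (colr PP res (n : ℤ)) := rfl
  rw [h5]
  have h6 : ∑ n ∈ (Icc 1 ⌊3 * X⌋₊).filter (fun n => n ≡ b [MOD W * q]), Phi (n / X) *
        G (colr PP res (n : ℤ)) - E0 * (MPhi X * (1 / (W : ℝ))) * (1 / (q : ℝ)) =
      (∑ n ∈ (Icc 1 ⌊3 * X⌋₊).filter (fun n => n ≡ b [MOD W * q]), Phi (n / X) *
        G (colr PP res (n : ℤ)) - P * Ec) + P * (Ec - E0) := by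
    rw [h4]; ring
  rw [h6]
  refine (abs_add_le _ _).trans ?_
  rw [abs_mul, abs_of_nonneg hPnn]
  linarith

/-- class sums with the weight `Phi * Lambda` -/
theorem classB_t {K : ℕ} (X : ℝ) (hX : 4 ≤ X) (t : Fin K → ℕ) (U : Finset ℕ) (ps : ℕ) (S : Finset ℕ) (y : ℝ)
    (PP : Finset ℕ) (hPP : MedP ps y PP) (hyy : (yy X : ℝ) ≤ y) (res : ℕ → ↥U → ℤ)
    (hinj : ∀ p ∈ PP, ∀ k l, k ≠ l → ¬ ((p : ℤ) ∣ res p k - res p l))
    (htr : ∀ p ∈ PP, ∀ k j, ¬ ((p : ℤ) ∣ (t j : ℤ) + res p k))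
    (hPu : ∀ i, (Fintype.card ↥U : ℝ) * gQ PP i < 1)
    (Bc : ℕ → ℕ) (hBc : ∀ q, 1 ≤ q → ∀ b' : ℕ, b'.Coprime (WW X S ps * q) →
      |EPhi X (WW X S ps * q) b'| ≤ |EPhi X (WW X S ps * q) (Bc q)|)
    (G : Col PP.card ↥U → ℝ) (Q₁ B₁ : ℝ) (hQ₁ : 0 ≤ Q₁)
    (hG : Lv (pP PP) Q₁ B₁ G) (hsize : (WW X S ps : ℝ) * X ^ (1 / 100 : ℝ) * Q₁ ≤ X) (i : Fin K) :
    ClassB X (WW X S ps) ps t i (fun a => G (colr PP res a)) (Pool.Agent.H256R2.SC.EE (gQ PP) G)
      (Pool.Agent.H312R2.RG.errB X (WW X S ps) PP G Q₁ B₁ Bc) := by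
  classical
  intro q b hq hbc hb
  rw [mem_QQ] at hq
  obtain ⟨⟨hq1, hqR⟩, hsq, hcop⟩ := hq
  set W := WW X S ps with hW
  have hWpos : 0 < W := WW_pos X S ps
  have hWr : (0 : ℝ) < W := by exact_mod_cast hWpos
  have hqr : (0 : ℝ) < q := by exact_mod_cast hq1
  have hN₀ : 0 < W * q := Nat.mul_pos hWpos hq1
  have hcWq : Nat.Coprime W q := (Nat.Coprime.coprime_mul_right_right hcop).symm
  have hqX : (q : ℝ) ≤ X ^ (1 / 100 : ℝ) := by
    rw [← exp_two_LL X (by linarith)]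
    exact (Nat.le_floor_iff (Real.exp_pos _).le).1 hqR
  have hmqi : ∀ j, j ∈ mq PP (W * q) ↔ (emb PP j : ℕ) ∣ W * q := by
    intro j
    unfold mq
    rw [mem_filter]
    exact ⟨fun h => h.2, fun h => ⟨mem_univ _, h⟩⟩
  have h1 := class_lam X hX PP (fun p hp => (hPP p hp).1) (fun p k => res p k + (t i : ℤ))
    (fun p hp k l hkl => by
      have e : (fun p k => res p k + (t i : ℤ)) p k - (fun p k => res p k + (t i : ℤ)) p l = res p k - res p l := by
        show res p k + (t i : ℤ) - (res p l + t i) = _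
        ring
      rw [e]
      exact hinj p hp k l hkl) (W * q) b hN₀ hbc hPu (mq PP (W * q)) hmqi
    (by
      intro i' hi k hd
      rw [hmqi] at hi
      obtain ⟨hp, hyp, _⟩ := hPP _ (emb_mem PP i')
      rcases (Nat.Prime.dvd_mul hp).1 hi with h | h
      · have h2 := (mem_PW.1 ((prime_dvd_WW hp).1 h)).1
        have h3 : ((emb PP i' : ℕ) : ℝ) ≤ yy X := by exact_mod_cast h2
        linarith
      · obtain ⟨j, hji, hj⟩ := hb _ hp h
        have h2 : ((emb PP i' : ℕ) : ℤ) ∣ (t j : ℤ) + res (emb PP i') k := by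
          have h3 := dvd_sub hj hd
          have h4 : (b : ℤ) + t j - t i - ((b : ℤ) - (res (emb PP i') k + (t i : ℤ))) =
              (t j : ℤ) + res (emb PP i') k := by ring
          rwa [h4] at h3
        exact htr _ (emb_mem PP i') k j h2)
    (by
      intro i' _ k hd
      apply htr _ (emb_mem PP i') k i
      have h3 : ((emb PP i' : ℕ) : ℤ) ∣ res (emb PP i') k + (t i : ℤ) := hd
      rwa [add_comm] at h3)
    G Q₁ B₁ hG (by
      push_cast
      calc (W : ℝ) * q * Q₁ ≤ W * X ^ (1 / 100 : ℝ) * Q₁ := by gcongr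
        _ ≤ X := hsize)
  have hshift : ∀ n : ℕ, colr PP res ((n : ℤ) - t i) = colr PP (fun p k => res p k + (t i : ℤ)) (n : ℤ) :=
    fun n => colr_shift' res hinj (n : ℤ) (t i : ℤ)
  have h5 : ∑ n ∈ (Icc 1 ⌊3 * X⌋₊).filter (fun n => n ≡ b [MOD W * q]),
      Phi (n / X) * ArithmeticFunction.vonMangoldt n *
        (fun a => G (colr PP res a)) ((n : ℤ) - t i) =
      ∑ n ∈ (Icc 1 ⌊3 * X⌋₊).filter (fun n => n ≡ b [MOD W * q]),
      Phi (n / X) * ArithmeticFunction.vonMangoldt n * G (colr PP (fun p k => res p k + (t i : ℤ)) (n : ℤ)) := by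
    apply Finset.sum_congr rfl
    intro n _
    simp only [hshift n]
  rw [h5]
  set Ec := Pool.Agent.H256R2.SC.EE (gQ PP) (fun x => G (cut (mq PP (W * q)) x)) with hEc
  set E0 := Pool.Agent.H256R2.SC.EE (gQ PP) G with hE0
  set A1 := ∑ n ∈ (Icc 1 ⌊3 * X⌋₊).filter (fun n => n ≡ b [MOD W * q]),
      Phi (n / X) * ArithmeticFunction.vonMangoldt n * G (colr PP (fun p k => res p k + (t i : ℤ)) (n : ℤ)) with hA1
  set A2 := ∑ n ∈ (Icc 1 ⌊3 * X⌋₊).filter (fun n => n ≡ b [MOD W * q]),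
      Phi (n / X) * ArithmeticFunction.vonMangoldt n with hA2
  have hEP : EPhi X (W * q) b = A2 - LPhi X * (1 / ((W * q).totient : ℝ)) := EPhi_eq X (W * q) b
  have htot : ((W * q).totient : ℝ) = (W.totient : ℝ) * q.totient := by
    rw [Nat.totient_mul hcWq]; push_cast; ring
  have hLnn : 0 ≤ LPhi X := by
    unfold LPhi
    exact Finset.sum_nonneg fun n _ => mul_nonneg (Phi_nonneg _) ArithmeticFunction.vonMangoldt_nonneg
  have h6 : A1 - E0 * (LPhi X * (1 / (W.totient : ℝ))) * (1 / (q.totient : ℝ)) =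
      (A1 - A2 * Ec) + EPhi X (W * q) b * Ec +
        LPhi X * (1 / (W.totient : ℝ)) * (1 / (q.totient : ℝ)) * (Ec - E0) := by
    rw [hEP, htot]
    have : 1 / ((W.totient : ℝ) * q.totient) = (1 / (W.totient : ℝ)) * (1 / (q.totient : ℝ)) := by
      rw [one_div_mul_one_div]
    rw [this]
    ring
  rw [h6]
  have hb1 := hBc q hq1 b hbc
  refine (abs_add_le _ _).trans ?_
  have h7 : |A1 - A2 * Ec + EPhi X (W * q) b * Ec| ≤ |A1 - A2 * Ec| + |EPhi X (W * q) (Bc q)| * |Ec| := by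
    refine (abs_add_le _ _).trans ?_
    rw [abs_mul]
    have := mul_le_mul_of_nonneg_right hb1 (abs_nonneg Ec)
    linarith
  have h8 : |LPhi X * (1 / (W.totient : ℝ)) * (1 / (q.totient : ℝ)) * (Ec - E0)| =
      LPhi X * (1 / (W.totient : ℝ)) * (1 / (q.totient : ℝ)) * |Ec - E0| := by
    rw [abs_mul, abs_of_nonneg (by positivity)]
  rw [h8]
  unfold Pool.Agent.H312R2.RG.errB
  linarith

end Pool.Agent.TH101.RG
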