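import Pool.Agent.TH101.RG.CovZ
import Pool.Agent.Helper602.MK.J3

set_option autoImplicit false
set_option maxHeartbeats 4000000

/-! # Integers of a short progression without medium prime factors -/

namespace Pool.Agent.TH101.RG

open Finset Filter
open Pool.Agent.H378R2
open Pool.Agent.H378R2.PS (V1 smooth8)

open scoped Classical

/-- no prime factor in the medium range -/
def MedFree (y m : ℕ) : Prop := ∀ p : ℕ, p.Prime → V1 y < Real.log p → p ≤ y → ¬ p ∣ m

theorem ap_prime_count : ∃ C : ℝ, 0 < C ∧ ∀ (s n M : ℕ) (t σ : ℤ), 1 ≤ s → 1 ≤ n → (σ = 1 ∨ σ = -1) →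
    n.Coprime s → 2 * (n * s) ≤ M → ∀ F : Finset ℕ,
    (∀ v ∈ F, ∃ l : ℕ, l.Prime ∧ (s : ℤ) * v + t = σ * ((n * l : ℕ) : ℤ) ∧ n * l ≤ M) →
    (F.card : ℝ) ≤ C * ((s : ℝ) / (s.totient : ℝ)) * ((M : ℝ) / (n * s)) / Real.log ((M : ℝ) / (n * s)) := by
  obtain ⟨C, hC, hBT⟩ := Pool.Agent.Helper602.MK.BTLib.brun_titchmarsh
  refine ⟨2 * C, by linarith, ?_⟩
  intro s n M t σ hs hn hσ hcop hM F hF
  have hn0 : (0 : ℝ) < n := by exact_mod_cast hn
  have hs0 : (0 : ℝ) < s := by exact_mod_cast hs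
  have hφ0 : (0 : ℝ) < s.totient := by exact_mod_cast Nat.totient_pos.2 hs
  have hq2 : (2 : ℝ) ≤ (M : ℝ) / (n * s) := by
    rw [le_div_iff₀ (by positivity)]
    exact_mod_cast hM
  have hlog0 : 0 < Real.log ((M : ℝ) / (n * s)) := Real.log_pos (by linarith)
  rcases F.eq_empty_or_nonempty with hE | ⟨v₀, hv₀⟩
  · rw [hE, card_empty]
    push_cast
    positivity
  obtain ⟨l₀, hl₀p, hl₀, hl₀M⟩ := hF v₀ hv₀
  choose! l hlp hl hlM using hF
  set K : ℕ := M / (n * s) + 1 with hK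
  have hns : 0 < n * s := Nat.mul_pos hn hs
  have hK2 : 2 ≤ K := by
    have : 2 ≤ M / (n * s) := by
      rw [Nat.le_div_iff_mul_le hns]
      exact hM
    omega
  have hσ2 : σ * σ = 1 := by
    rcases hσ with h | h <;> rw [h] <;> norm_num
  have hmod : ∀ v ∈ F, l v % s = l₀ % s := by
    intro v hv
    have h1 : (s : ℤ) ∣ (n : ℤ) * ((l v : ℤ) - l₀) := by
      have h2 := hl v hv
      have h3 : (s : ℤ) * ((v : ℤ) - v₀) = σ * (n * ((l v : ℤ) - l₀)) := by
        push_cast at h2 hl₀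
        linear_combination h2 - hl₀
      have h4 : (n : ℤ) * ((l v : ℤ) - l₀) = s * (σ * ((v : ℤ) - v₀)) := by
        linear_combination (-σ) * h3 - (n : ℤ) * ((l v : ℤ) - l₀) * hσ2
      rw [h4]
      exact dvd_mul_right _ _
    have h5 : (s : ℤ) ∣ (l v : ℤ) - l₀ :=
      (Nat.isCoprime_iff_coprime.2 (Nat.coprime_comm.1 hcop)).dvd_of_dvd_mul_left h1
    have h6 : l₀ ≡ l v [MOD s] := Nat.modEq_iff_dvd.2 h5
    exact h6.symm
  have hcard : F.card ≤ ((range K).filter (fun k => (l₀ % s + k * s).Prime)).card := by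
    apply card_le_card_of_injOn (fun v => l v / s)
    · intro v hv
      have hv' : v ∈ F := hv
      have h1 : l₀ % s + l v / s * s = l v := by
        rw [← hmod v hv', mul_comm]
        exact Nat.mod_add_div (l v) s
      rw [Finset.coe_filter]
      refine ⟨?_, ?_⟩
      · rw [mem_range, hK, Nat.lt_succ_iff]
        rw [Nat.div_le_iff_le_mul_add_pred (by omega)]
        have h2 : n * l v ≤ M := hlM v hv'
        have h3 : l v ≤ M / n := by
          rw [Nat.le_div_iff_mul_le (by omega)]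
          rw [mul_comm]; exact h2
        have h4 : M / (n * s) = M / n / s := (Nat.div_div_eq_div_mul M n s).symm
        rw [h4]
        have h5 := Nat.div_add_mod (M / n) s
        have h6 := Nat.mod_lt (M / n) (by omega : 0 < s)
        omega
      · show (l₀ % s + l v / s * s).Prime
        rw [h1]
        exact hlp v hv'
    · intro v hv w hw hvw
      have hv' : v ∈ F := hv
      have hw' : w ∈ F := hw
      simp only at hvw
      have h1 : l v = l w := by
        have h2 := Nat.mod_add_div (l v) s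
        have h3 := Nat.mod_add_div (l w) s
        rw [hmod v hv', hvw] at h2
        rw [hmod w hw'] at h3
        omega
      have h2 := hl v hv'
      have h3 := hl w hw'
      rw [h1] at h2
      have h4 : (s : ℤ) * v = s * w := by linarith
      have h5 : (s : ℤ) ≠ 0 := by exact_mod_cast (by omega : s ≠ 0)
      exact_mod_cast mul_left_cancel₀ h5 h4
  have hmain := hBT (l₀ % s) s K hs hK2
  have hcard' : (F.card : ℝ) ≤ (((range K).filter (fun k => (l₀ % s + k * s).Prime)).card : ℝ) := by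
    exact_mod_cast hcard
  refine hcard'.trans (hmain.trans ?_)
  have hKle : (K : ℝ) ≤ 2 * ((M : ℝ) / (n * s)) := by
    have h1 : ((M / (n * s) : ℕ) : ℝ) ≤ (M : ℝ) / ((n * s : ℕ) : ℝ) := Nat.cast_div_le
    push_cast at h1
    rw [hK]
    push_cast
    linarith
  have hKge : (M : ℝ) / (n * s) ≤ K := by
    rw [div_le_iff₀ (by positivity)]
    have h1 : M < K * (n * s) := by
      rw [hK]
      have := Nat.lt_succ_iff.2 (le_refl (M / (n * s)))
      exact (Nat.div_lt_iff_lt_mul hns).1 this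
    exact_mod_cast h1.le
  have hlogK : Real.log ((M : ℝ) / (n * s)) ≤ Real.log K := Real.log_le_log (by linarith) hKge
  have hE0 : 0 ≤ C * ((s : ℝ) / (s.totient : ℝ)) := by positivity
  calc C * ((s : ℝ) / (s.totient : ℝ)) * K / Real.log K ≤
      C * ((s : ℝ) / (s.totient : ℝ)) * (2 * ((M : ℝ) / (n * s))) / Real.log ((M : ℝ) / (n * s)) := by
        gcongr
    _ = _ := by ring

theorem ratio_mono {a b : ℕ} (hab : a ∣ b) (hb : b ≠ 0) :
    (a : ℝ) / (a.totient : ℝ) ≤ (b : ℝ) / (b.totient : ℝ) := by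
  have ha : a ≠ 0 := fun h => hb (Nat.eq_zero_of_zero_dvd (h ▸ hab))
  rw [← prod_inv_primeFactors a ha, ← prod_inv_primeFactors b hb]
  exact prod_mono_real (Nat.primeFactors_mono hab hb) _ fun p hp => inv_ge_one (Nat.prime_of_mem_primeFactors hp)

theorem card_fiber (s W m : ℕ) (t : ℤ) (hs : 1 ≤ s) :
    ((range (W + 1)).filter (fun v : ℕ => ((s : ℤ) * v + t).natAbs = m)).card ≤ 2 := by
  have hs0 : (s : ℤ) ≠ 0 := by exact_mod_cast (by omega : s ≠ 0)
  have h : (range (W + 1)).filter (fun v : ℕ => ((s : ℤ) * v + t).natAbs = m) ⊆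
      (range (W + 1)).filter (fun v : ℕ => (s : ℤ) * v + t = m) ∪
        (range (W + 1)).filter (fun v : ℕ => (s : ℤ) * v + t = -m) := by
    intro v hv
    rw [mem_filter] at hv
    rw [mem_union, mem_filter, mem_filter]
    rcases Int.natAbs_eq ((s : ℤ) * v + t) with h1 | h1
    · left; refine ⟨hv.1, ?_⟩; rw [h1, hv.2]
    · right; refine ⟨hv.1, ?_⟩; rw [h1, hv.2]
  have h1 : ∀ c : ℤ, ((range (W + 1)).filter (fun v : ℕ => (s : ℤ) * v + t = c)).card ≤ 1 := by
    intro c
    rw [card_le_one]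
    intro a ha b hb
    rw [mem_filter] at ha hb
    have h2 : (s : ℤ) * a = s * b := by linarith [ha.2, hb.2]
    exact_mod_cast mul_left_cancel₀ hs0 h2
  have h2 := card_le_card h
  have h3 := card_union_le ((range (W + 1)).filter (fun v : ℕ => (s : ℤ) * v + t = m))
        ((range (W + 1)).filter (fun v : ℕ => (s : ℤ) * v + t = -m))
  have h4 := h1 m
  have h5 := h1 (-m)
  omega

theorem ev_small_pow : ∃ y₀ : ℝ, ∀ y : ℝ, y₀ ≤ y → 2 * (Real.log y) ^ 6 ≤ Real.sqrt y ∧ 4 ≤ y ∧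
    1 ≤ Real.log (Real.log y) ∧ 1 ≤ Real.log y := by
  have h1 := (isLittleO_log_rpow_rpow_atTop (s := 1 / 2) 6 (by norm_num)).def (show (0 : ℝ) < 1 / 2 by norm_num)
  have t1 := Real.tendsto_log_atTop
  have t2 : Tendsto (fun y : ℝ => Real.log (Real.log y)) atTop atTop := t1.comp t1
  obtain ⟨y₀, hy₀⟩ := eventually_atTop.1 (((h1.and (eventually_ge_atTop 4)).and
    (t2.eventually_ge_atTop 1)).and (t1.eventually_ge_atTop 1))
  refine ⟨y₀, fun y hy => ?_⟩
  obtain ⟨⟨⟨e1, e2⟩, e3⟩, e4⟩ := hy₀ y hy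
  refine ⟨?_, e2, e3, e4⟩
  rw [Real.norm_eq_abs, Real.norm_eq_abs, abs_of_nonneg (Real.rpow_nonneg (by linarith) _),
    abs_of_nonneg (Real.rpow_nonneg (by linarith) _)] at e1
  have e5 : (Real.log y) ^ (6 : ℝ) = (Real.log y) ^ 6 := by
    rw [← Real.rpow_natCast]; norm_num
  rw [e5, ← Real.sqrt_eq_rpow] at e1
  linarith

theorem roughAP₁ (A : ℕ) : ∃ C : ℝ, 0 < C ∧ ∃ y₀ : ℝ, ∀ y : ℕ, y₀ ≤ (y : ℝ) → ∀ W : ℕ, y ≤ W →
    ∀ (s : ℕ) (t : ℤ), 1 ≤ s → (s : ℝ) ≤ (Real.log y) ^ 6 → t.natAbs ≤ W →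
    (s : ℝ) * W ≤ y * (Real.log y) ^ A → s.Coprime t.natAbs →
    (((range (W + 1)).filter (fun v : ℕ => MedFree y ((s : ℤ) * v + t).natAbs)).card : ℝ) ≤
      C * ((s : ℝ) / (s.totient : ℝ)) * W * (Real.log (Real.log y) / Real.log y) := by
  obtain ⟨C₁, hC₁, hAP⟩ := ap_prime_count
  obtain ⟨y₁, hsm⟩ := smooth8
  obtain ⟨y₂, hev⟩ := ev_small_pow
  refine ⟨6 + 8 * C₁ * (2 + A), by positivity, max y₁ y₂, ?_⟩
  intro y hy W hyW s t hs hs6 htW hsW hcop
  have hy1 := (le_max_left _ _).trans hy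
  obtain ⟨g1, g2, g3, g4⟩ := hev y ((le_max_right _ _).trans hy)
  have hy0 : (0 : ℝ) < y := by linarith
  have hyW' : (y : ℝ) ≤ W := by exact_mod_cast hyW
  have hW0 : (0 : ℝ) < W := by linarith
  have hs1 : (1 : ℝ) ≤ s := by exact_mod_cast hs
  have hl0 : 0 < Real.log y := by linarith
  set M : ℕ := s * W + t.natAbs with hM
  have hMle : (M : ℝ) ≤ 2 * (s * W) := by
    have h1 : (t.natAbs : ℝ) ≤ W := by exact_mod_cast htW
    have h2 : (W : ℝ) ≤ s * W := le_mul_of_one_le_left hW0.le hs1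
    rw [hM]
    push_cast
    linarith
  have hyM : y ≤ M := by
    have : W ≤ s * W := Nat.le_mul_of_pos_left W hs
    omega
  have hyMr : (y : ℝ) ≤ M := by exact_mod_cast hyM
  have hypos : 0 < y := by exact_mod_cast hy0
  set N : ℕ := M / y with hN
  set S1 : Finset ℕ := (Icc 1 M).filter (fun m : ℕ => ∀ p : ℕ, p.Prime → p ∣ m → Real.log p ≤ V1 y) with hS1
  set Fi : ℕ → Finset ℕ := fun m => (range (W + 1)).filter (fun v : ℕ => ((s : ℤ) * v + t).natAbs = m) with hFi
  set F : ℤ → ℕ → Finset ℕ := fun σ n => (range (W + 1)).filter (fun v : ℕ => ∃ l : ℕ, l.Prime ∧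
    (s : ℤ) * v + t = σ * ((n * l : ℕ) : ℤ) ∧ n * l ≤ M) with hF
  have hsub : (range (W + 1)).filter (fun v : ℕ => MedFree y ((s : ℤ) * v + t).natAbs) ⊆
      (S1.biUnion Fi ∪ Fi 0) ∪ ((Icc 1 N).biUnion (F 1) ∪ (Icc 1 N).biUnion (F (-1))) := by
    intro v hv
    rw [mem_filter] at hv
    obtain ⟨hvW, hv⟩ := hv
    obtain ⟨m, hm⟩ : ∃ m : ℕ, m = ((s : ℤ) * v + t).natAbs := ⟨_, rfl⟩
    rw [← hm] at hv
    have hmM : m ≤ M := by
      rw [hm, hM]
      rw [mem_range] at hvW
      have h1 := Int.natAbs_add_le ((s : ℤ) * v) t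
      have h2 : ((s : ℤ) * v).natAbs = s * v := by
        rw [← Nat.cast_mul, Int.natAbs_natCast]
      rw [h2] at h1
      have h3 : s * v ≤ s * W := Nat.mul_le_mul_left s (by omega)
      omega
    rw [mem_union, mem_union]
    by_cases hm0 : m = 0
    · left; right
      rw [hFi, mem_filter]
      exact ⟨hvW, by rw [← hm, hm0]⟩
    by_cases hall : ∀ p : ℕ, p.Prime → p ∣ m → Real.log p ≤ V1 y
    · left; left
      rw [mem_biUnion]
      refine ⟨m, ?_, ?_⟩
      · rw [hS1, mem_filter, mem_Icc]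
        exact ⟨⟨by omega, hmM⟩, hall⟩
      · rw [hFi, mem_filter]
        exact ⟨hvW, hm.symm⟩
    · right
      push Not at hall
      obtain ⟨l, hl, hlm, hll⟩ := hall
      have hly : y < l := by
        by_contra hcon
        push Not at hcon
        exact hv l hl hll hcon hlm
      obtain ⟨n, hn⟩ := hlm
      have hn1 : 1 ≤ n := by
        rcases Nat.eq_zero_or_pos n with h | h
        · rw [h, mul_zero] at hn
          exact absurd hn hm0
        · exact h
      have hnN : n ≤ N := by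
        rw [hN, Nat.le_div_iff_mul_le hypos]
        calc n * y ≤ n * l := Nat.mul_le_mul_left n hly.le
          _ = m := by rw [hn, mul_comm]
          _ ≤ M := hmM
      have hnl : n * l = m := by rw [hn, mul_comm]
      rw [mem_union, mem_biUnion, mem_biUnion]
      rcases Int.natAbs_eq ((s : ℤ) * v + t) with h1 | h1
      · left
        refine ⟨n, mem_Icc.2 ⟨hn1, hnN⟩, ?_⟩
        rw [hF, mem_filter]
        refine ⟨hvW, l, hl, ?_, by rw [hnl]; exact hmM⟩
        rw [hnl, one_mul, hm]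
        exact h1
      · right
        refine ⟨n, mem_Icc.2 ⟨hn1, hnN⟩, ?_⟩
        rw [hF, mem_filter]
        refine ⟨hvW, l, hl, ?_, by rw [hnl]; exact hmM⟩
        rw [hnl, hm, neg_one_mul]
        exact h1
  -- the cofactors
  have hFn : ∀ σ : ℤ, (σ = 1 ∨ σ = -1) → ∀ n ∈ Icc 1 N, ((F σ n).card : ℝ) ≤
      4 * C₁ * ((s : ℝ) / (s.totient : ℝ)) * W / Real.log y * ((n : ℝ))⁻¹ := by
    intro σ hσ n hn
    rw [mem_Icc] at hn
    have hn0 : (0 : ℝ) < n := by exact_mod_cast hn.1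
    have hφ0 : (0 : ℝ) < s.totient := by exact_mod_cast Nat.totient_pos.2 hs
    rcases (F σ n).eq_empty_or_nonempty with hE | ⟨v₀, hv₀⟩
    · rw [hE, card_empty]
      push_cast
      positivity
    have hnM : n * y ≤ M := by
      have := hn.2
      rw [hN, Nat.le_div_iff_mul_le hypos] at this
      exact this
    have hsq : Real.sqrt y * Real.sqrt y = y := Real.mul_self_sqrt hy0.le
    have hsq0 : 0 < Real.sqrt y := Real.sqrt_pos.2 hy0
    have hs2 : 2 * (s : ℝ) ≤ Real.sqrt y := by linarith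
    have hsq2 : 2 ≤ Real.sqrt y := by linarith
    have hMr : Real.sqrt y ≤ (M : ℝ) / (n * s) := by
      rw [le_div_iff₀ (by positivity)]
      have h1 : (n : ℝ) * y ≤ M := by exact_mod_cast hnM
      have h2 : Real.sqrt y * (n * s) ≤ n * y := by
        have h3 : Real.sqrt y * s ≤ y := by nlinarith
        nlinarith
      linarith
    have h2ns : 2 * (n * s) ≤ M := by
      have h1 : 2 ≤ (M : ℝ) / (n * s) := hsq2.trans hMr
      rw [le_div_iff₀ (by positivity)] at h1
      exact_mod_cast h1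
    have hcopn : n.Coprime s := by
      rw [hF, mem_filter] at hv₀
      obtain ⟨_, l, _, hl, _⟩ := hv₀
      by_contra hcon
      obtain ⟨r, hr, hrn, hrs⟩ := Nat.Prime.not_coprime_iff_dvd.1 hcon
      have h1 : (r : ℤ) ∣ t := by
        have h2 : (r : ℤ) ∣ (s : ℤ) * v₀ := (Int.natCast_dvd_natCast.2 hrs).mul_right _
        have h3 : (r : ℤ) ∣ σ * ((n * l : ℕ) : ℤ) :=
          (Int.natCast_dvd_natCast.2 (hrn.mul_right l)).mul_left _
        have h4 : t = σ * ((n * l : ℕ) : ℤ) - (s : ℤ) * v₀ := by rw [← hl]; ring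
        rw [h4]
        exact dvd_sub h3 h2
      have h2 : r ∣ t.natAbs := Int.natCast_dvd.1 h1
      exact hr.one_lt.ne' (Nat.dvd_one.1 (hcop ▸ Nat.dvd_gcd hrs h2))
    have h1 := hAP s n M t σ hs hn.1 hσ hcopn h2ns (F σ n) (fun v hv => by
      rw [hF, mem_filter] at hv
      exact hv.2)
    refine h1.trans ?_
    have hlogM : Real.log y / 2 ≤ Real.log ((M : ℝ) / (n * s)) := by
      rw [← Real.log_sqrt hy0.le]
      exact Real.log_le_log hsq0 hMr
    have hE0 : 0 ≤ C₁ * ((s : ℝ) / (s.totient : ℝ)) := by positivity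
    calc C₁ * ((s : ℝ) / (s.totient : ℝ)) * ((M : ℝ) / (n * s)) / Real.log ((M : ℝ) / (n * s)) ≤
        C₁ * ((s : ℝ) / (s.totient : ℝ)) * ((2 * (s * W)) / (n * s)) / (Real.log y / 2) := by gcongr
      _ = _ := by field_simp; ring
  have hsum : ∀ σ : ℤ, (σ = 1 ∨ σ = -1) → (((Icc 1 N).biUnion (F σ)).card : ℝ) ≤
      4 * C₁ * ((s : ℝ) / (s.totient : ℝ)) * W / Real.log y * (1 + Real.log N) := by
    intro σ hσ
    have h1 : (((Icc 1 N).biUnion (F σ)).card : ℝ) ≤ ∑ n ∈ Icc 1 N, ((F σ n).card : ℝ) := by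
      exact_mod_cast card_biUnion_le
    refine h1.trans ((sum_le_sum (hFn σ hσ)).trans ?_)
    rw [← mul_sum]
    apply mul_le_mul_of_nonneg_left _ (by positivity)
    have h1 := harmonic_le_one_add_log N
    rw [harmonic_eq_sum_Icc] at h1
    push_cast at h1
    exact h1
  have hlogN : 1 + Real.log N ≤ (2 + A) * Real.log (Real.log y) := by
    have hN1 : 1 ≤ N := by
      rw [hN, Nat.le_div_iff_mul_le hypos, one_mul]
      exact hyM
    have hNle : (N : ℝ) ≤ 2 * (Real.log y) ^ A := by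
      have h1 : (N : ℝ) ≤ (M : ℝ) / y := by rw [hN]; exact Nat.cast_div_le
      refine h1.trans ?_
      rw [div_le_iff₀ hy0]
      nlinarith
    have h1 : Real.log N ≤ Real.log 2 + A * Real.log (Real.log y) := by
      have h2 := Real.log_le_log (by exact_mod_cast hN1) hNle
      rw [Real.log_mul (by norm_num) (by positivity), Real.log_pow] at h2
      exact h2
    have h2 : Real.log 2 ≤ 1 := by
      have := Real.log_two_lt_d9
      linarith
    nlinarith
  have hs1' : (1 : ℝ) ≤ (s : ℝ) / (s.totient : ℝ) := by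
    have hφ0 : (0 : ℝ) < s.totient := by exact_mod_cast Nat.totient_pos.2 hs
    rw [le_div_iff₀ hφ0, one_mul]
    exact_mod_cast Nat.totient_le s
  set ρ : ℝ := (s : ℝ) / (s.totient : ℝ) with hρ
  set ε : ℝ := Real.log (Real.log y) / Real.log y with hε
  have hε0 : 0 < ε := by rw [hε]; exact div_pos (by linarith) hl0
  have hinv : 1 / Real.log y ≤ ε := by
    rw [hε]
    exact div_le_div_of_nonneg_right g3 hl0.le
  have h1W : 1 ≤ (W : ℝ) * ε := by
    have h1 : Real.log y ≤ y := (Real.log_le_sub_one_of_pos hy0).trans (by linarith)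
    have h2 : 1 ≤ (y : ℝ) * (1 / Real.log y) := by
      rw [mul_one_div, le_div_iff₀ hl0, one_mul]
      exact h1
    calc (1 : ℝ) ≤ y * (1 / Real.log y) := h2
      _ ≤ W * ε := by gcongr
  have hS1c : ((S1.biUnion Fi).card : ℝ) ≤ 4 * (W * ε) := by
    have h1 : ((S1.biUnion Fi).card : ℝ) ≤ ∑ m ∈ S1, ((Fi m).card : ℝ) := by exact_mod_cast card_biUnion_le
    have h2 : ∑ m ∈ S1, ((Fi m).card : ℝ) ≤ ∑ m ∈ S1, (2 : ℝ) := by
      apply sum_le_sum
      intro m _
      exact_mod_cast card_fiber s W m t hs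
    rw [sum_const, nsmul_eq_mul] at h2
    have h3 : (S1.card : ℝ) ≤ M / (Real.log y) ^ 8 := hsm y hy1 M hyMr
    have h4 : (M : ℝ) / (Real.log y) ^ 8 ≤ 2 * (W * ε) := by
      calc (M : ℝ) / (Real.log y) ^ 8 ≤ (2 * ((Real.log y) ^ 6 * W)) / (Real.log y) ^ 8 := by
            apply div_le_div_of_nonneg_right _ (by positivity)
            refine hMle.trans ?_
            gcongr
        _ = 2 * (W * (1 / Real.log y * (1 / Real.log y))) := by field_simp
        _ ≤ 2 * (W * (1 / Real.log y)) := by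
            have h5 : 1 / Real.log y ≤ 1 := by rw [div_le_one hl0]; exact g4
            have h6 : 0 ≤ 1 / Real.log y := by positivity
            have h7 : 1 / Real.log y * (1 / Real.log y) ≤ 1 / Real.log y := mul_le_of_le_one_left h6 h5
            have h8 := mul_le_mul_of_nonneg_left h7 hW0.le
            linarith
        _ ≤ 2 * (W * ε) := by
            have h5 := mul_le_mul_of_nonneg_left hinv hW0.le
            linarith
    linarith
  have hF0 : ((Fi 0).card : ℝ) ≤ 2 * (W * ε) := by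
    have h1 : ((Fi 0).card : ℝ) ≤ 2 := by exact_mod_cast card_fiber s W 0 t hs
    linarith
  have hc0 := card_le_card hsub
  have hc1 := card_union_le (S1.biUnion Fi ∪ Fi 0) ((Icc 1 N).biUnion (F 1) ∪ (Icc 1 N).biUnion (F (-1)))
  have hc2 := card_union_le (S1.biUnion Fi) (Fi 0)
  have hc3 := card_union_le ((Icc 1 N).biUnion (F 1)) ((Icc 1 N).biUnion (F (-1)))
  have hc5 : ((range (W + 1)).filter (fun v : ℕ => MedFree y ((s : ℤ) * v + t).natAbs)).card ≤
      (S1.biUnion Fi).card + (Fi 0).card + ((Icc 1 N).biUnion (F 1)).card +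
        ((Icc 1 N).biUnion (F (-1))).card := by omega
  have hc4 : (((range (W + 1)).filter (fun v : ℕ => MedFree y ((s : ℤ) * v + t).natAbs)).card : ℝ) ≤
      ((S1.biUnion Fi).card : ℝ) + ((Fi 0).card : ℝ) + (((Icc 1 N).biUnion (F 1)).card : ℝ) +
        (((Icc 1 N).biUnion (F (-1))).card : ℝ) := by
    have h1 := (Nat.cast_le (α := ℝ)).2 hc5
    simpa only [Nat.cast_add] using h1
  have hb : ∀ σ : ℤ, (σ = 1 ∨ σ = -1) → (((Icc 1 N).biUnion (F σ)).card : ℝ) ≤
      4 * C₁ * (2 + A) * (ρ * (W * ε)) := by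
    intro σ hσ
    refine (hsum σ hσ).trans ?_
    calc 4 * C₁ * ρ * W / Real.log y * (1 + Real.log N) ≤
        4 * C₁ * ρ * W / Real.log y * ((2 + A) * Real.log (Real.log y)) :=
          mul_le_mul_of_nonneg_left hlogN (by positivity)
      _ = _ := by rw [hε]; ring
  have hb1 := hb 1 (Or.inl rfl)
  have hb2 := hb (-1) (Or.inr rfl)
  have h6 : 6 * (W * ε) ≤ 6 * (ρ * (W * ε)) := by
    have h7 : 0 ≤ W * ε := by positivity
    have h8 : (W * ε : ℝ) ≤ ρ * (W * ε) := le_mul_of_one_le_left h7 hs1'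
    linarith
  have e : (6 + 8 * C₁ * (2 + A)) * ρ * W * ε = 6 * (ρ * (W * ε)) + 2 * (4 * C₁ * (2 + A) * (ρ * (W * ε))) := by
    ring
  rw [e]
  linarith

theorem roughAP (A : ℕ) : ∃ C : ℝ, 0 < C ∧ ∃ y₀ : ℝ, ∀ y : ℕ, y₀ ≤ (y : ℝ) → ∀ W : ℕ, y ≤ W →
    ∀ (s t : ℤ), s ≠ 0 → (s.natAbs : ℝ) ≤ (Real.log y) ^ 6 → t.natAbs ≤ W →
    (s.natAbs : ℝ) * W ≤ y * (Real.log y) ^ A →
    (((range (W + 1)).filter (fun v : ℕ => MedFree y (s * v + t).natAbs)).card : ℝ) ≤
      C * ((s.natAbs : ℝ) / (s.natAbs.totient : ℝ)) * W * (Real.log (Real.log y) / Real.log y) := by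
  obtain ⟨C, hC, y₀, h⟩ := roughAP₁ A
  obtain ⟨y₂, hev⟩ := ev_small_pow
  refine ⟨C, hC, max y₀ y₂, ?_⟩
  intro y hy W hyW s t hs0 hs6 htW hsW
  obtain ⟨g1, g2, g3, g4⟩ := hev y ((le_max_right _ _).trans hy)
  have hl0 : 0 < Real.log y := by linarith
  -- the positive case
  have key : ∀ (s : ℕ) (t : ℤ), 1 ≤ s → (s : ℝ) ≤ (Real.log y) ^ 6 → t.natAbs ≤ W →
      (s : ℝ) * W ≤ y * (Real.log y) ^ A →
      (((range (W + 1)).filter (fun v : ℕ => MedFree y ((s : ℤ) * v + t).natAbs)).card : ℝ) ≤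
      C * ((s : ℝ) / (s.totient : ℝ)) * W * (Real.log (Real.log y) / Real.log y) := by
    intro s t hs hs6 htW hsW
    set g : ℕ := s.gcd t.natAbs with hg
    have hg0 : 0 < g := Nat.gcd_pos_of_pos_left _ hs
    obtain ⟨s', hs'⟩ : g ∣ s := Nat.gcd_dvd_left _ _
    obtain ⟨t', ht'⟩ : (g : ℤ) ∣ t := by
      rw [Int.natCast_dvd]
      exact Nat.gcd_dvd_right _ _
    have hs'1 : 1 ≤ s' := by
      rcases Nat.eq_zero_or_pos s' with h1 | h1
      · rw [h1, mul_zero] at hs'; omega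
      · exact h1
    have hs'le : s' ≤ s := by
      rw [hs']
      exact Nat.le_mul_of_pos_left _ hg0
    have ht'a : t.natAbs = g * t'.natAbs := by
      rw [ht', Int.natAbs_mul, Int.natAbs_natCast]
    have ht'le : t'.natAbs ≤ t.natAbs := by
      rw [ht'a]
      exact Nat.le_mul_of_pos_left _ hg0
    have hcop : s'.Coprime t'.natAbs := by
      have h1 : g = g * s'.gcd t'.natAbs := by
        conv_lhs => rw [hg, hs', ht'a, Nat.gcd_mul_left]
      have h2 : g * 1 = g * s'.gcd t'.natAbs := by rw [mul_one]; exact h1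
      exact (Nat.eq_of_mul_eq_mul_left hg0 h2).symm
    have hs'r : (s' : ℝ) ≤ s := by exact_mod_cast hs'le
    have h1 := h y ((le_max_left _ _).trans hy) W hyW s' t' hs'1 (hs'r.trans hs6) (ht'le.trans htW)
      ((mul_le_mul_of_nonneg_right hs'r (Nat.cast_nonneg W)).trans hsW) hcop
    have h2 : (((range (W + 1)).filter (fun v : ℕ => MedFree y ((s : ℤ) * v + t).natAbs)).card : ℝ) ≤
        (((range (W + 1)).filter (fun v : ℕ => MedFree y ((s' : ℤ) * v + t').natAbs)).card : ℝ) := by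
      have h3 : (range (W + 1)).filter (fun v : ℕ => MedFree y ((s : ℤ) * v + t).natAbs) ⊆
          (range (W + 1)).filter (fun v : ℕ => MedFree y ((s' : ℤ) * v + t').natAbs) := by
        intro v hv
        rw [mem_filter] at hv ⊢
        refine ⟨hv.1, ?_⟩
        intro p hp h1 h2 h3
        apply hv.2 p hp h1 h2
        refine h3.trans ?_
        rw [Int.natAbs_dvd_natAbs]
        refine ⟨g, ?_⟩
        rw [ht', hs']
        push_cast
        ring
      exact_mod_cast card_le_card h3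
    refine h2.trans (h1.trans ?_)
    have h3 := ratio_mono (⟨g, by rw [hs']; ring⟩ : s' ∣ s) (by omega)
    have h4 : 0 ≤ Real.log (Real.log y) / Real.log y := div_nonneg (by linarith) hl0.le
    gcongr
  rcases Int.natAbs_eq s with h1 | h1
  · have h2 := key s.natAbs t (Int.natAbs_pos.2 hs0) hs6 htW hsW
    rw [← h1] at h2
    exact h2
  · have h2 := key s.natAbs (-t) (Int.natAbs_pos.2 hs0) hs6 (by rwa [Int.natAbs_neg]) hsW
    have h3 : ∀ v : ℕ, ((s.natAbs : ℤ) * v + -t).natAbs = (s * v + t).natAbs := by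
      intro v
      have h4 : (s.natAbs : ℤ) = -s := by omega
      rw [h4, ← Int.natAbs_neg]
      congr 1
      ring
    simp_rw [h3] at h2
    exact h2

end Pool.Agent.TH101.RG
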