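import Pool.Agent.TH101.RG.CovZ2
import Pool.Agent.TH101.RG.RoughAP

set_option autoImplicit false
set_option maxHeartbeats 4000000

/-! # The covering of an arbitrary set of pairs (s, t), standing for the forms s x + t -/

namespace Pool.Agent.TH101.RG

open Finset Filter Pool.Agent.H398R2.RK
open Pool.Agent.H378R2
open Pool.Agent.H378R2.PS (V1)
open Pool.Agent.H318R2.Cr (cz_bounds Pz one_sub_inv_pos)
open Pool.Agent.H312R2.RG (cov_ev ev_ff)
open Pool.Agent.H256R2.SC (ff)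

open scoped Classical

theorem v1facts6 : ∀ᶠ y : ℝ in atTop, 100 ≤ Real.log y ∧ (Real.log y) ^ 6 ≤ Real.exp (V1 y) ∧
    V1 y ≤ Real.log y := by
  have t1 := Real.tendsto_log_atTop
  have t2 : Tendsto (fun y : ℝ => Real.log (Real.log y)) atTop atTop := t1.comp t1
  have t3 : Tendsto (fun y : ℝ => Real.log (Real.log (Real.log y))) atTop atTop := t1.comp t2
  obtain ⟨t₀, hev⟩ := ev_surv
  filter_upwards [t2.eventually_ge_atTop t₀, t3.eventually_ge_atTop 6, v1facts] with y h2 h3 h1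
  obtain ⟨g1, g2, g3, g4, g5, g6⟩ := hev _ h2
  obtain ⟨k1, k2, k3⟩ := h1
  set τ := Real.log (Real.log y) with hτ
  have hly : 0 < Real.log y := by linarith
  have hLe : Real.log y = Real.exp τ := by rw [hτ, Real.exp_log hly]
  have hτ0 : 0 < τ := by linarith
  refine ⟨k1, ?_, k3⟩
  have h4 : 6 * τ ≤ V1 y := by
    unfold V1
    rw [← hτ, le_div_iff₀ (by positivity), hLe]
    have : 20 * τ ^ 2 * Real.log τ ≤ Real.exp τ * Real.log τ := by gcongr
    nlinarith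
  calc (Real.log y) ^ 6 = Real.exp (6 * τ) := by
        rw [hLe, ← Real.exp_nat_mul]; norm_num
    _ ≤ _ := Real.exp_le_exp.2 h4

/-- the number of `v ≤ W` with `p ∣ s v + t` -/
theorem card_dvdP (W p : ℕ) (hp : p.Prime) (hpW : p ≤ W) (s t : ℤ) (hs : ¬ (p : ℤ) ∣ s) :
    (((range (W + 1)).filter (fun v : ℕ => (p : ℤ) ∣ s * v + t)).card : ℝ) ≤ 2 * W * (1 / (p : ℝ)) := by
  have hp0 : (0 : ℝ) < p := by exact_mod_cast hp.pos
  rcases ((range (W + 1)).filter (fun v : ℕ => (p : ℤ) ∣ s * v + t)).eq_empty_or_nonempty with hE | ⟨v₀, hv₀⟩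
  · rw [hE, card_empty]
    push_cast
    positivity
  rw [mem_filter] at hv₀
  have hsub : (range (W + 1)).filter (fun v : ℕ => (p : ℤ) ∣ s * v + t) ⊆
      (range (W + 1)).filter (fun k => k % p = v₀ % p) := by
    intro v hv
    rw [mem_filter] at hv ⊢
    refine ⟨hv.1, ?_⟩
    have h1 : (p : ℤ) ∣ s * ((v : ℤ) - v₀) := by
      have h2 := dvd_sub hv.2 hv₀.2
      have h3 : s * (v : ℤ) + t - (s * v₀ + t) = s * ((v : ℤ) - v₀) := by ring
      rwa [h3] at h2
    have h2 : (p : ℤ) ∣ (v : ℤ) - v₀ := ((Nat.prime_iff_prime_int.1 hp).dvd_mul.1 h1).resolve_left hs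
    have h3 : v₀ ≡ v [MOD p] := Nat.modEq_iff_dvd.2 h2
    exact h3.symm
  have h1 := (card_le_card hsub).trans (class_count p v₀ W hp.pos)
  have h2 : (((range (W + 1)).filter (fun v : ℕ => (p : ℤ) ∣ s * v + t)).card : ℝ) ≤ (W / p : ℕ) + 1 := by
    exact_mod_cast h1
  have h3 : ((W / p : ℕ) : ℝ) ≤ (W : ℝ) / p := Nat.cast_div_le
  have h4 : 1 ≤ (W : ℝ) / p := by
    rw [le_div_iff₀ hp0, one_mul]
    exact_mod_cast hpW
  calc _ ≤ ((W / p : ℕ) : ℝ) + 1 := h2
    _ ≤ (W : ℝ) / p + W / p := by linarith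
    _ = _ := by ring

/-- the choice of the shift, for pairs -/
theorem shiftP (A : ℕ) (C₁ : ℝ) (hC₁ : 0 ≤ C₁) : ∃ C : ℝ, 0 < C ∧ ∃ y₀ : ℝ, ∀ y : ℕ, y₀ ≤ (y : ℝ) →
    1 ≤ Real.log (Real.log y) → 1 ≤ Real.log y → ∀ W : ℕ, y ≤ W →
    ∀ F : Finset ℕ, (∀ q ∈ F, q.Prime) →
    ∑ q ∈ F.filter (fun q : ℕ => V1 y < Real.log q), (1 : ℝ) / q ≤ C₁ / Real.log y →
    ∀ Z : Finset (ℤ × ℤ), (∀ z ∈ Z, z.1 ≠ 0 ∧ z.2 ≠ 0 ∧ (z.1.natAbs : ℝ) ≤ (Real.log y) ^ 6 ∧
      z.2.natAbs ≤ W ∧ (z.1.natAbs : ℝ) * W ≤ y * (Real.log y) ^ A) →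
    (∀ z ∈ Z, ∀ p : ℕ, p.Prime → V1 y < Real.log p → ¬ (p : ℤ) ∣ z.1) →
    (∀ z ∈ Z, ∑ q ∈ z.2.natAbs.primeFactors.filter (fun q : ℕ => V1 y < Real.log q),
      (1 : ℝ) / q ≤ C₁ / Real.log y) →
    ∀ w : ℤ × ℤ → ℝ, (∀ z, 0 ≤ w z) →
    ∃ v : ℕ, v ≤ W ∧ ∑ z ∈ Z.filter (fun z => ∀ p : ℕ, p.Prime → V1 y < Real.log p → p ≤ y → p ∉ F →
      ¬ p ∣ v → ¬ (p : ℤ) ∣ z.1 * v + z.2), w z ≤
      C * (Real.log (Real.log y) / Real.log y) *
        ∑ z ∈ Z, ((z.1.natAbs : ℝ) / (z.1.natAbs.totient : ℝ)) * w z := by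
  obtain ⟨Cr, hCr, y₀, hr⟩ := roughAP A
  refine ⟨Cr + 4 * C₁, by positivity, y₀, ?_⟩
  intro y hy hll hly W hyW F hF hFt Z hZ hZs hZt w hw
  set ε : ℝ := Real.log (Real.log y) / Real.log y with hε
  have hl0 : 0 < Real.log y := by linarith
  have hε0 : 0 < ε := by rw [hε]; positivity
  have hinv : 1 / Real.log y ≤ ε := by
    rw [hε]
    exact div_le_div_of_nonneg_right hll hl0.le
  have hy0 : (0 : ℝ) < y := by
    rcases (Nat.cast_nonneg y : (0 : ℝ) ≤ y).eq_or_lt with h | h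
    · rw [← h, Real.log_zero] at hly
      linarith
    · exact h
  have hWr : (y : ℝ) ≤ W := by exact_mod_cast hyW
  have hW0 : (0 : ℝ) < W := by linarith
  -- the number of bad shifts
  have hcount : ∀ z ∈ Z, (((range (W + 1)).filter (fun v : ℕ => ∀ p : ℕ, p.Prime → V1 y < Real.log p →
      p ≤ y → p ∉ F → ¬ p ∣ v → ¬ (p : ℤ) ∣ z.1 * v + z.2)).card : ℝ) ≤
      (Cr + 4 * C₁) * ε * (W + 1) * ((z.1.natAbs : ℝ) / (z.1.natAbs.totient : ℝ)) := by
    intro z hz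
    obtain ⟨hz1, hz2, hz3, hz4, hz5⟩ := hZ z hz
    set ρ : ℝ := (z.1.natAbs : ℝ) / (z.1.natAbs.totient : ℝ) with hρ
    have hρ1 : 1 ≤ ρ := by
      have hφ0 : (0 : ℝ) < z.1.natAbs.totient := by
        exact_mod_cast Nat.totient_pos.2 (Int.natAbs_pos.2 hz1)
      rw [hρ, le_div_iff₀ hφ0, one_mul]
      exact_mod_cast Nat.totient_le _
    set F' : Finset ℕ := (F.filter (fun q : ℕ => V1 y < Real.log q)).filter (fun q => q ≤ y) with hF'
    set G : Finset ℕ :=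
      (z.2.natAbs.primeFactors.filter (fun q : ℕ => V1 y < Real.log q)).filter (fun q => q ≤ y) with hG
    set D₁ : ℕ → Finset ℕ := fun p => (range (W + 1)).filter (fun v : ℕ => (p : ℤ) ∣ z.1 * v + z.2) with hD₁
    set D₂ : ℕ → Finset ℕ := fun p => (range (W + 1)).filter (fun v : ℕ => (p : ℤ) ∣ 1 * v + 0) with hD₂
    have hsub : (range (W + 1)).filter (fun v : ℕ => ∀ p : ℕ, p.Prime → V1 y < Real.log p →
        p ≤ y → p ∉ F → ¬ p ∣ v → ¬ (p : ℤ) ∣ z.1 * v + z.2) ⊆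
        ((range (W + 1)).filter (fun v : ℕ => MedFree y (z.1 * v + z.2).natAbs) ∪ F'.biUnion D₁) ∪
          G.biUnion D₂ := by
      intro v hv
      rw [mem_filter] at hv
      obtain ⟨hvW, hv⟩ := hv
      rw [mem_union, mem_union, mem_filter]
      by_cases hR : MedFree y (z.1 * v + z.2).natAbs
      · exact Or.inl (Or.inl ⟨hvW, hR⟩)
      · unfold MedFree at hR
        push Not at hR
        obtain ⟨p, hp, hp1, hp2, hp3⟩ := hR
        have hp3' : (p : ℤ) ∣ z.1 * v + z.2 := Int.natCast_dvd.2 hp3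
        by_cases hpF : p ∈ F
        · left; right
          rw [mem_biUnion]
          refine ⟨p, ?_, ?_⟩
          · rw [hF', mem_filter, mem_filter]
            exact ⟨⟨hpF, hp1⟩, hp2⟩
          · rw [hD₁, mem_filter]
            exact ⟨hvW, hp3'⟩
        · right
          have h1 : p ∣ v := by
            by_contra hcon
            exact hv p hp hp1 hp2 hpF hcon hp3'
          have h1' : (p : ℤ) ∣ v := Int.natCast_dvd_natCast.2 h1
          rw [mem_biUnion]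
          refine ⟨p, ?_, ?_⟩
          · rw [hG, mem_filter, mem_filter, Nat.mem_primeFactors]
            have h2 : (p : ℤ) ∣ z.2 := by
              have h3 := dvd_sub hp3' (h1'.mul_left z.1)
              rwa [add_sub_cancel_left] at h3
            exact ⟨⟨⟨hp, Int.natCast_dvd.1 h2, Int.natAbs_ne_zero.2 hz2⟩, hp1⟩, hp2⟩
          · rw [hD₂, mem_filter]
            exact ⟨hvW, by rw [one_mul, add_zero]; exact h1'⟩
    have hsumD : ∀ (D : ℕ → Finset ℕ) (Q : Finset ℕ), (∀ q ∈ Q.filter (fun q => q ≤ y),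
        ((D q).card : ℝ) ≤ 2 * W * (1 / (q : ℝ))) → ∑ q ∈ Q, (1 : ℝ) / q ≤ C₁ / Real.log y →
        (((Q.filter (fun q => q ≤ y)).biUnion D).card : ℝ) ≤ 2 * C₁ * ε * W := by
      intro D Q hDQ hQs
      have h1 : (((Q.filter (fun q => q ≤ y)).biUnion D).card : ℝ) ≤
          ∑ q ∈ Q.filter (fun q => q ≤ y), ((D q).card : ℝ) := by
        exact_mod_cast card_biUnion_le
      have h2 : ∑ q ∈ Q.filter (fun q => q ≤ y), ((D q).card : ℝ) ≤
          ∑ q ∈ Q.filter (fun q => q ≤ y), 2 * W * (1 / (q : ℝ)) := sum_le_sum hDQ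
      have h3 : ∑ q ∈ Q.filter (fun q => q ≤ y), (1 / (q : ℝ)) ≤ ∑ q ∈ Q, (1 : ℝ) / q :=
        sum_le_sum_of_subset_of_nonneg (filter_subset _ _) (fun i _ _ => by positivity)
      rw [← mul_sum] at h2
      have h4 : C₁ / Real.log y ≤ C₁ * ε := by
        rw [div_eq_mul_one_div]
        exact mul_le_mul_of_nonneg_left hinv hC₁
      calc _ ≤ 2 * (W : ℝ) * ∑ q ∈ Q.filter (fun q => q ≤ y), (1 / (q : ℝ)) := h1.trans h2
        _ ≤ 2 * W * (C₁ * ε) := by
            apply mul_le_mul_of_nonneg_left _ (by positivity)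
            linarith
        _ = _ := by ring
    have hc1 := card_le_card hsub
    have hc2 := card_union_le ((range (W + 1)).filter (fun v : ℕ => MedFree y (z.1 * v + z.2).natAbs) ∪
      F'.biUnion D₁) (G.biUnion D₂)
    have hc3 := card_union_le ((range (W + 1)).filter (fun v : ℕ => MedFree y (z.1 * v + z.2).natAbs))
      (F'.biUnion D₁)
    have hc4 := hr y hy W hyW z.1 z.2 hz1 hz3 hz4 hz5
    rw [← hρ, ← hε] at hc4
    have hc5 : ((F'.biUnion D₁).card : ℝ) ≤ 2 * C₁ * ε * W := by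
      apply hsumD D₁ _ _ hFt
      intro q hq
      rw [mem_filter, mem_filter] at hq
      exact card_dvdP W q (hF q hq.1.1) (hq.2.trans hyW) z.1 z.2 (hZs z hz q (hF q hq.1.1) hq.1.2)
    have hc6 : ((G.biUnion D₂).card : ℝ) ≤ 2 * C₁ * ε * W := by
      apply hsumD D₂ _ _ (hZt z hz)
      intro q hq
      rw [mem_filter, mem_filter] at hq
      have hqp := Nat.prime_of_mem_primeFactors hq.1.1
      apply card_dvdP W q hqp (hq.2.trans hyW) 1 0
      intro h1
      have h2 : q ∣ 1 := by exact_mod_cast h1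
      exact hqp.one_lt.ne' (Nat.dvd_one.1 h2)
    have hc7 : ((range (W + 1)).filter (fun v : ℕ => ∀ p : ℕ, p.Prime → V1 y < Real.log p →
        p ≤ y → p ∉ F → ¬ p ∣ v → ¬ (p : ℤ) ∣ z.1 * v + z.2)).card ≤
        ((range (W + 1)).filter (fun v : ℕ => MedFree y (z.1 * v + z.2).natAbs)).card +
        (F'.biUnion D₁).card + (G.biUnion D₂).card := by omega
    have hc8 := (Nat.cast_le (α := ℝ)).2 hc7
    simp only [Nat.cast_add] at hc8
    have h9 : (Cr + 4 * C₁) * ε * (W + 1) * ρ ≥ Cr * ρ * W * ε + 4 * C₁ * ε * W := by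
      have h10 : 0 ≤ C₁ * ε * W := by positivity
      have h11 : C₁ * ε * W ≤ C₁ * ε * W * ρ := le_mul_of_one_le_right h10 hρ1
      have h12 : 0 ≤ (Cr + 4 * C₁) * ε * ρ := by positivity
      nlinarith
    linarith
  by_contra hcon
  push Not at hcon
  have h1 : ∑ v ∈ range (W + 1), ∑ z ∈ Z.filter (fun z => ∀ p : ℕ, p.Prime → V1 y < Real.log p → p ≤ y →
      p ∉ F → ¬ p ∣ v → ¬ (p : ℤ) ∣ z.1 * (v : ℕ) + z.2), w z =
      ∑ z ∈ Z, (((range (W + 1)).filter (fun v : ℕ => ∀ p : ℕ, p.Prime → V1 y < Real.log p →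
        p ≤ y → p ∉ F → ¬ p ∣ v → ¬ (p : ℤ) ∣ z.1 * v + z.2)).card : ℝ) * w z := by
    simp_rw [sum_filter]
    rw [sum_comm]
    apply sum_congr rfl
    intro z _
    rw [← sum_filter, sum_const, nsmul_eq_mul]
  have h2 : ∑ z ∈ Z, (((range (W + 1)).filter (fun v : ℕ => ∀ p : ℕ, p.Prime → V1 y < Real.log p →
        p ≤ y → p ∉ F → ¬ p ∣ v → ¬ (p : ℤ) ∣ z.1 * v + z.2)).card : ℝ) * w z ≤
      ∑ z ∈ Z, (Cr + 4 * C₁) * ε * (W + 1) * (((z.1.natAbs : ℝ) / (z.1.natAbs.totient : ℝ)) * w z) := by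
    apply sum_le_sum
    intro z hz
    calc _ ≤ (Cr + 4 * C₁) * ε * (W + 1) * ((z.1.natAbs : ℝ) / (z.1.natAbs.totient : ℝ)) * w z :=
          mul_le_mul_of_nonneg_right (hcount z hz) (hw z)
      _ = _ := by ring
  have h3 : ∑ v ∈ range (W + 1), (Cr + 4 * C₁) * ε *
      ∑ z ∈ Z, ((z.1.natAbs : ℝ) / (z.1.natAbs.totient : ℝ)) * w z <
      ∑ v ∈ range (W + 1), ∑ z ∈ Z.filter (fun z => ∀ p : ℕ, p.Prime → V1 y < Real.log p → p ≤ y →
      p ∉ F → ¬ p ∣ v → ¬ (p : ℤ) ∣ z.1 * (v : ℕ) + z.2), w z := by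
    apply sum_lt_sum_of_nonempty ⟨0, by simp⟩
    intro v hv
    exact hcon v (by rw [mem_range] at hv; omega)
  rw [sum_const, card_range, nsmul_eq_mul, h1] at h3
  rw [← mul_sum] at h2
  have h4 := h3.trans_le h2
  push_cast at h4
  have h5 : ((W : ℝ) + 1) * ((Cr + 4 * C₁) * ε *
      ∑ z ∈ Z, ((z.1.natAbs : ℝ) / (z.1.natAbs.totient : ℝ)) * w z) =
      (Cr + 4 * C₁) * ε * (W + 1) * ∑ z ∈ Z, ((z.1.natAbs : ℝ) / (z.1.natAbs.totient : ℝ)) * w z := by ring
  rw [h5] at h4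
  exact lt_irrefl _ h4

/-- the greedy choice of nonzero classes, for pairs -/
theorem greedyP (P : Finset ℕ) (hP : ∀ p ∈ P, p.Prime) : ∀ Z : Finset (ℤ × ℤ), ∃ β : ℕ → ℤ,
    (∀ p ∈ P, ¬ (p : ℤ) ∣ β p) ∧
    ((Z.filter (fun z => ∀ p ∈ P, ¬ (p : ℤ) ∣ z.1 * β p + z.2)).card : ℝ) ≤
      ∑ z ∈ Z, ∏ p ∈ P, (if ∀ j : Fin 1, ¬ (p : ℤ) ∣ z.1 * z.2 - (fun _ => (0 : ℤ)) j then
        1 - 1 / (p : ℝ) else 1) := by
  induction P using Finset.induction_on with
  | empty => exact fun Z => ⟨fun _ => 0, by simp, by simp⟩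
  | insert q P hq ih =>
    intro Z
    have hih := ih (fun p hp => hP p (mem_insert_of_mem hp))
    have hqp := hP q (mem_insert_self _ _)
    have hq0 : (0 : ℝ) < q := by exact_mod_cast hqp.pos
    set Φ : ℤ × ℤ → ℝ := fun z => ∏ p ∈ P, (if ∀ j : Fin 1, ¬ (p : ℤ) ∣ z.1 * z.2 - (fun _ => (0 : ℤ)) j then
        1 - 1 / (p : ℝ) else 1) with hΦ
    have hΦ0 : ∀ z, 0 ≤ Φ z := by
      intro z
      rw [hΦ]
      apply prod_nonneg
      intro p hp
      have hp1 : (1 : ℝ) ≤ p := by exact_mod_cast (hP p (mem_insert_of_mem hp)).one_le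
      split_ifs
      · rw [sub_nonneg, div_le_one (by linarith)]
        exact hp1
      · norm_num
    set G : Finset (ℤ × ℤ) := Z.filter (fun z => ∀ j : Fin 1, ¬ (q : ℤ) ∣ z.1 * z.2 - (fun _ => (0 : ℤ)) j)
      with hG
    have hGm : ∀ z ∈ G, ¬ (q : ℤ) ∣ z.1 ∧ ¬ (q : ℤ) ∣ z.2 := by
      intro z hz
      rw [hG, mem_filter] at hz
      have h1 := hz.2 0
      simp only [sub_zero] at h1
      exact ⟨fun h => h1 (h.mul_right _), fun h => h1 (h.mul_left _)⟩
    have hex : ∀ z : ℤ × ℤ, ∃ r : ℕ, z ∈ G → (r < q ∧ (q : ℤ) ∣ z.1 * r + z.2) := by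
      intro z
      by_cases hz : z ∈ G
      · obtain ⟨ρ, hρ⟩ := solve q hqp z.1 z.2 (hGm z hz).1
        refine ⟨ρ % q, fun _ => ⟨Nat.mod_lt _ hqp.pos, ?_⟩⟩
        have h1 : (q : ℤ) ∣ (ρ : ℤ) - ((ρ % q : ℕ) : ℤ) := by
          rw [← Nat.modEq_iff_dvd]
          exact Nat.mod_modEq _ _
        have h2 : z.1 * ((ρ % q : ℕ) : ℤ) + z.2 = (z.1 * ρ + z.2) - z.1 * ((ρ : ℤ) - ((ρ % q : ℕ) : ℤ)) := by
          ring
        rw [h2]
        exact dvd_sub hρ (h1.mul_left _)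
      · exact ⟨0, fun h => absurd h hz⟩
    choose f hf using hex
    obtain ⟨c, hc1, hc2⟩ : ∃ c : ℤ, (¬ (q : ℤ) ∣ c) ∧
        1 / (q : ℝ) * ∑ z ∈ G, Φ z ≤ ∑ z ∈ Z.filter (fun z => (q : ℤ) ∣ z.1 * c + z.2), Φ z := by
      obtain ⟨r, hr, hr2⟩ := Finset.exists_le_sum_fiber_of_maps_to_of_nsmul_le_sum
        (s := G) (t := range q) (f := f) (w := Φ)
        (b := 1 / (q : ℝ) * ∑ z ∈ G, Φ z)
        (by
          intro z hz
          rw [mem_range]
          exact (hf z hz).1)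
        ⟨0, mem_range.2 hqp.pos⟩
        (by
          rw [card_range, nsmul_eq_mul, ← mul_assoc, mul_one_div, div_self hq0.ne', one_mul])
      by_cases hne : (G.filter (fun z : ℤ × ℤ => f z = r)).Nonempty
      · obtain ⟨z₀, hz₀⟩ := hne
        rw [mem_filter] at hz₀
        refine ⟨r, ?_, hr2.trans ?_⟩
        · intro hqr
          have h1 := (hf z₀ hz₀.1).2
          rw [hz₀.2] at h1
          have h2 := dvd_sub h1 (hqr.mul_left z₀.1)
          rw [add_sub_cancel_left] at h2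
          exact (hGm z₀ hz₀.1).2 h2
        · apply sum_le_sum_of_subset_of_nonneg
          · intro z hz
            rw [mem_filter] at hz ⊢
            refine ⟨(mem_filter.1 hz.1).1, ?_⟩
            have h1 := (hf z hz.1).2
            rwa [hz.2] at h1
          · intro i _ _
            exact hΦ0 i
      · rw [not_nonempty_iff_eq_empty] at hne
        rw [hne, sum_empty] at hr2
        refine ⟨1, ?_, hr2.trans (sum_nonneg fun i _ => hΦ0 i)⟩
        intro h1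
        have h2 : q ∣ 1 := by exact_mod_cast h1
        exact hqp.one_lt.ne' (Nat.dvd_one.1 h2)
    obtain ⟨β, hβ1, hβ2⟩ := hih (Z.filter (fun z => ¬ (q : ℤ) ∣ z.1 * c + z.2))
    refine ⟨fun p => if p = q then c else β p, ?_, ?_⟩
    · intro p hp
      by_cases hpq : p = q
      · simp only [hpq, if_true]
        exact hc1
      · simp only [hpq, if_false]
        exact hβ1 p ((mem_insert.1 hp).resolve_left hpq)
    · have h1 : (Z.filter (fun z => ∀ p ∈ insert q P, ¬ (p : ℤ) ∣ z.1 * (if p = q then c else β p) + z.2)).card ≤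
          ((Z.filter (fun z => ¬ (q : ℤ) ∣ z.1 * c + z.2)).filter
            (fun z => ∀ p ∈ P, ¬ (p : ℤ) ∣ z.1 * β p + z.2)).card := by
        apply card_le_card
        intro z hz
        rw [mem_filter] at hz
        rw [mem_filter, mem_filter]
        refine ⟨⟨hz.1, ?_⟩, ?_⟩
        · have := hz.2 q (mem_insert_self _ _)
          rwa [if_pos rfl] at this
        · intro p hp
          have h2 := hz.2 p (mem_insert_of_mem hp)
          rwa [if_neg (fun h : p = q => hq (h ▸ hp))] at h2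
      have h2 : ((Z.filter (fun z => ∀ p ∈ insert q P,
          ¬ (p : ℤ) ∣ z.1 * (if p = q then c else β p) + z.2)).card : ℝ) ≤
          ∑ z ∈ Z.filter (fun z => ¬ (q : ℤ) ∣ z.1 * c + z.2), Φ z := le_trans (by exact_mod_cast h1) hβ2
      refine h2.trans ?_
      have h3 : ∑ z ∈ Z.filter (fun z => (q : ℤ) ∣ z.1 * c + z.2), Φ z +
          ∑ z ∈ Z.filter (fun z => ¬ (q : ℤ) ∣ z.1 * c + z.2), Φ z =
          ∑ z ∈ Z, Φ z := sum_filter_add_sum_filter_not _ _ _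
      have h4 : ∑ z ∈ Z, ∏ p ∈ insert q P, (if ∀ j : Fin 1, ¬ (p : ℤ) ∣ z.1 * z.2 - (fun _ => (0 : ℤ)) j then
          1 - 1 / (p : ℝ) else 1) =
          ∑ z ∈ Z, Φ z - 1 / (q : ℝ) * ∑ z ∈ G, Φ z := by
        rw [hG, mul_sum, sum_filter, ← sum_sub_distrib]
        apply sum_congr rfl
        intro z _
        rw [prod_insert hq]
        split_ifs
        · ring
        · ring
      rw [h4]
      linarith

/-- the weight of a pair -/
noncomputable def wP (z : ℤ × ℤ) : ℝ :=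
  ((z.1.natAbs : ℝ) / (z.1.natAbs.totient : ℝ)) ^ 2 * ((z.2.natAbs : ℝ) / (z.2.natAbs.totient : ℝ))

theorem wP_nonneg (z : ℤ × ℤ) : 0 ≤ wP z := by unfold wP; positivity

theorem ratio_mul_le' (a b : ℕ) (ha : a ≠ 0) (hb : b ≠ 0) :
    ((a * b : ℕ) : ℝ) / ((a * b).totient : ℝ) ≤ ((a : ℝ) / (a.totient : ℝ)) * ((b : ℝ) / (b.totient : ℝ)) := by
  have h1 : (a.totient * b.totient : ℕ) ≤ (a * b).totient := Nat.totient_super_multiplicative a b
  have h2 : (0 : ℝ) < a.totient := by exact_mod_cast Nat.totient_pos.2 (Nat.pos_of_ne_zero ha)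
  have h3 : (0 : ℝ) < b.totient := by exact_mod_cast Nat.totient_pos.2 (Nat.pos_of_ne_zero hb)
  rw [div_mul_div_comm]
  push_cast
  apply div_le_div_of_nonneg_left (by positivity) (by positivity)
  exact_mod_cast h1


/-- the covering -/
theorem covP (A D : ℕ) (A0 : ℝ) (c₃ : ℝ) (hc₃ : 0 < c₃) : ∃ c : ℝ, 0 < c ∧
    ∀ᶠ X : ℝ in atTop, ∀ (ps : ℕ) (S : Finset ℕ), GoodS X S → ∀ (g : ℕ), g ≠ 0 →
    ∑ p ∈ g.primeFactors, (1 : ℝ) / p ≤ A0 → (g : ℝ) ≤ (Real.log X) ^ D →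
    ∀ Z : Finset (ℤ × ℤ), (∀ z ∈ Z, z.1 ≠ 0 ∧ z.2 ≠ 0 ∧ |(z.1 : ℝ)| ≤ (Real.log (Real.log X)) ^ 5 ∧
      |(z.2 : ℝ)| ≤ Real.log X * (Real.log (Real.log X)) ^ A) →
    ∑ z ∈ Z, wP z ≤ c * ff X →
    ∃ (β : ℕ → ℤ) (U0 : Finset (ℤ × ℤ)), U0 ⊆ Z ∧ (U0.card : ℝ) ≤ c₃ * Real.log X ∧
      (∀ p ∈ PW X S ps, ¬ (p : ℤ) ∣ β p) ∧
      ∀ z ∈ Z, z ∉ U0 → ∃ p ∈ PW X S ps, ¬ p ∣ g ∧ (p : ℤ) ∣ z.1 * β p + z.2 := by
  obtain ⟨Cs, hCs, y₀, hsh⟩ := shiftP (A + 8) 8 (by norm_num)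
  obtain ⟨c₁, c₂, hc₁, hc₁₂, hV⟩ := cz_bounds
  have hc₂ : 0 < c₂ := hc₁.trans_le hc₁₂
  obtain ⟨A₀, hev⟩ := cov_ev (1 / 10) (by norm_num)
  obtain ⟨y₃, hv⟩ := eventually_atTop.1 v1facts6
  set Q : ℝ := Cs * (2 * c₂) * Real.exp (2 * (A0 + 2)) * 160 with hQ
  have hQ0 : 0 < Q := by positivity
  refine ⟨c₃ / Q, by positivity, ?_⟩
  have t1 := Real.tendsto_log_atTop
  have t2 : Tendsto (fun y : ℝ => Real.log (Real.log y)) atTop atTop := t1.comp t1
  filter_upwards [t2.eventually_ge_atTop A₀, t1.eventually_ge_atTop (2000 * (|y₀| + 2)),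
    t1.eventually_ge_atTop (2000 * (|y₃| + 2)),
    t2.eventually_ge_atTop (8 * (D + 2) + 8 * 100), t2.eventually_ge_atTop (8000 * 2 ^ A),
    ev_ff 1 one_pos, eventually_gt_atTop 0,
    t2.eventually (Pool.Agent.H378R2.ev_pow_exp A 1 2 one_pos)] with X e1 e2 e4 e5 e5' e6 hX0 e7
  intro ps S hS g hg0 hgS hgD Z hZX hZw
  set T := Real.log X with hT
  have hT0 : 0 < T := by
    have : (0 : ℝ) ≤ |y₀| := abs_nonneg _
    linarith
  set A' := Real.log T with hA
  obtain ⟨a1, a2, a3, a4, a5, a6, a7, a8, a9⟩ := hev A' e1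
  have hTe : T = Real.exp A' := by rw [hA, Real.exp_log hT0]
  set B := Real.log A' with hB
  set D' := Real.log B with hD
  have hff : ff X = T * A' ^ 2 * D' / B ^ 2 := by
    unfold Pool.Agent.H256R2.SC.ff
    rfl
  have hA0' : 0 < A' := by linarith
  have hB0 : 0 < B := by linarith
  have hD0 : 0 < D' := by linarith
  -- y
  set y := yy X with hy
  have hyT : (y : ℝ) ≤ T / 1000 := Nat.floor_le (by positivity)
  have hyT2 : T / 2000 ≤ y := by
    have h1 : T / 1000 < (y : ℝ) + 1 := Nat.lt_floor_add_one _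
    have h2 : 1 ≤ T / 2000 := by
      rw [le_div_iff₀ (by norm_num), hTe]; linarith
    linarith [show T / 1000 = T / 2000 + T / 2000 by ring]
  have hyy0 : y₀ ≤ y := by
    have := le_abs_self y₀
    linarith
  have hyy3 : y₃ ≤ y := by
    have := le_abs_self y₃
    linarith
  obtain ⟨hv1, hv2, hv3⟩ := hv y hyy3
  have hy0 : (0 : ℝ) < y := by
    have : (0 : ℝ) ≤ |y₀| := abs_nonneg _
    linarith
  have hly1 : Real.log y ≤ A' := by
    rw [hA]; apply Real.log_le_log hy0; linarith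
  have hly2 : A' / 2 ≤ Real.log y := by
    have h1 : Real.log (T / 2000) ≤ Real.log y := Real.log_le_log (by positivity) hyT2
    rw [Real.log_div hT0.ne' (by norm_num)] at h1
    linarith
  have hly0 : 0 < Real.log y := by linarith
  have hl2y1 : Real.log (Real.log y) ≤ B := Real.log_le_log hly0 hly1
  have hl2y2 : B / 2 ≤ Real.log (Real.log y) := by
    have h1 : Real.log (A' / 2) ≤ Real.log (Real.log y) := Real.log_le_log (by positivity) hly2
    rw [Real.log_div hA0'.ne' (by norm_num)] at h1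
    linarith
  have hl2y0 : 0 < Real.log (Real.log y) := by linarith
  have hl3y2 : D' / 2 ≤ Real.log (Real.log (Real.log y)) := by
    have h1 : Real.log (B / 2) ≤ Real.log (Real.log (Real.log y)) := Real.log_le_log (by positivity) hl2y2
    rw [Real.log_div hB0.ne' (by norm_num)] at h1
    linarith
  have hl3y0 : 0 < Real.log (Real.log (Real.log y)) := by linarith
  have hl2one : 1 ≤ Real.log (Real.log y) := by
    have h1 := Real.log_le_sub_one_of_pos hl2y0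
    by_contra hcon
    push Not at hcon
    linarith
  -- the range of the shifts
  set W : ℕ := ⌊(y : ℝ) * (Real.log y) ^ (A + 2) / 2⌋₊ with hW
  have hWle : 2 * (W : ℝ) ≤ y * (Real.log y) ^ (A + 2) := by
    have h1 : (W : ℝ) ≤ (y : ℝ) * (Real.log y) ^ (A + 2) / 2 := Nat.floor_le (by positivity)
    linarith
  have hlyA : 4000 * 2 ^ A ≤ Real.log y := by linarith
  have hly1' : 1 ≤ Real.log y := by linarith
  have hbig : T * A' ^ A ≤ (y : ℝ) * (Real.log y) ^ (A + 2) / 2 := by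
    have h1 : A' ^ A ≤ (2 * Real.log y) ^ A := pow_le_pow_left₀ hA0'.le (by linarith) A
    have h2 : T ≤ 2000 * y := by linarith
    calc T * A' ^ A ≤ (2000 * y) * (2 * Real.log y) ^ A := by gcongr
      _ = (4000 * 2 ^ A) * (y * (Real.log y) ^ A) / 2 := by rw [mul_pow]; ring
      _ ≤ (Real.log y * Real.log y) * (y * (Real.log y) ^ A) / 2 := by
          apply div_le_div_of_nonneg_right _ (by norm_num)
          apply mul_le_mul_of_nonneg_right _ (by positivity)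
          exact hlyA.trans (le_mul_of_one_le_left hly0.le hly1')
      _ = _ := by ring
  have hyW : y ≤ W := by
    apply Nat.le_floor
    have h1 : (2 : ℝ) ≤ (Real.log y) ^ (A + 2) := by
      calc (2 : ℝ) ≤ Real.log y := by linarith
        _ = (Real.log y) ^ 1 := (pow_one _).symm
        _ ≤ _ := pow_le_pow_right₀ hly1' (by omega)
    have h2 := mul_le_mul_of_nonneg_left h1 hy0.le
    linarith
  have hZW : ∀ z ∈ Z, z.1 ≠ 0 ∧ z.2 ≠ 0 ∧ (z.1.natAbs : ℝ) ≤ (Real.log y) ^ 6 ∧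
      z.2.natAbs ≤ W ∧ (z.1.natAbs : ℝ) * W ≤ y * (Real.log y) ^ (A + 8) := by
    intro z hz
    obtain ⟨k1, k2, k3, k4⟩ := hZX z hz
    have h1 : ((z.1.natAbs : ℕ) : ℝ) = |(z.1 : ℝ)| := by rw [Nat.cast_natAbs, Int.cast_abs]
    have h2 : ((z.2.natAbs : ℕ) : ℝ) = |(z.2 : ℝ)| := by rw [Nat.cast_natAbs, Int.cast_abs]
    have h3 : (z.1.natAbs : ℝ) ≤ (Real.log y) ^ 6 := by
      rw [h1]
      calc |(z.1 : ℝ)| ≤ A' ^ 5 := k3
        _ ≤ (2 * Real.log y) ^ 5 := pow_le_pow_left₀ hA0'.le (by linarith) 5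
        _ = 32 * (Real.log y) ^ 5 := by ring
        _ ≤ Real.log y * (Real.log y) ^ 5 := by
            apply mul_le_mul_of_nonneg_right _ (by positivity)
            linarith
        _ = _ := by ring
    refine ⟨k1, k2, h3, ?_, ?_⟩
    · apply Nat.le_floor
      rw [h2]
      exact k4.trans hbig
    · calc (z.1.natAbs : ℝ) * W ≤ (Real.log y) ^ 6 * (y * (Real.log y) ^ (A + 2)) := by
            apply mul_le_mul h3 _ (Nat.cast_nonneg W) (by positivity)
            linarith [(Nat.cast_nonneg W : (0 : ℝ) ≤ W)]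
        _ = _ := by ring
  -- the set F
  set F : Finset ℕ := (Icc 1 y).filter (fun p : ℕ => p.Prime ∧ (p ∈ S ∨ p = ps ∨ p ∣ g)) with hF
  have hFmem : ∀ p : ℕ, p ∈ F ↔ (p ≤ y ∧ p.Prime ∧ (p ∈ S ∨ p = ps ∨ p ∣ g)) := by
    intro p
    rw [hF, mem_filter, mem_Icc]
    constructor
    · rintro ⟨⟨_, h1⟩, h2⟩; exact ⟨h1, h2⟩
    · rintro ⟨h1, h2⟩; exact ⟨⟨h2.1.pos, h1⟩, h2⟩
  have hFp : ∀ q ∈ F, q.Prime := fun q hq => ((hFmem q).1 hq).2.1
  have hpos : ∀ i : ℕ, 0 ≤ (1 : ℝ) / (i : ℝ) := fun i => by positivity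
  set Ps : Finset ℕ := if ps.Prime then {ps} else ∅ with hPs
  have hPs2 : ∀ q ∈ Ps, q = ps ∧ ps.Prime := by
    intro q hq
    rw [hPs] at hq
    split_ifs at hq with h
    · exact ⟨mem_singleton.1 hq, h⟩
    · simp at hq
  have hFsub : F ⊆ (S ∪ Ps) ∪ g.primeFactors := by
    intro p hp
    rw [hFmem] at hp
    obtain ⟨h1, h2, h3⟩ := hp
    rw [mem_union, mem_union]
    rcases h3 with h | h | h
    · exact Or.inl (Or.inl h)
    · left; right
      rw [hPs, ← h, if_pos h2]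
      simp
    · right
      rw [Nat.mem_primeFactors]
      exact ⟨h2, h, hg0⟩
  have hSsum : ∑ q ∈ S, (1 : ℝ) / q ≤ 6 / A' ^ 2 := hS.2
  have hA100 : 100 ≤ A' := by linarith
  have hFsum : ∑ q ∈ F, (1 : ℝ) / q ≤ A0 + 2 := by
    have h1 : ∑ q ∈ F, (1 : ℝ) / q ≤ (∑ q ∈ S, (1 : ℝ) / q + ∑ q ∈ Ps, (1 : ℝ) / q) +
        ∑ q ∈ g.primeFactors, (1 : ℝ) / q := by
      refine (sum_le_sum_of_subset_of_nonneg hFsub (fun i _ _ => hpos i)).trans ?_
      refine (sum_union_le' _ hpos).trans ?_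
      apply add_le_add_left
      exact sum_union_le' _ hpos
    have h2 : ∑ q ∈ Ps, (1 : ℝ) / q ≤ 1 := by
      rw [hPs]
      split_ifs with h
      · rw [sum_singleton, div_le_one (by exact_mod_cast h.pos)]
        exact_mod_cast h.one_lt.le
      · simp
    have h3 : ∑ q ∈ S, (1 : ℝ) / q ≤ 1 := by
      refine hSsum.trans ?_
      rw [div_le_one (by positivity)]
      nlinarith only [hA100]
    linarith
  have hl4 : 1 / (Real.log y) ^ 4 ≤ 1 / Real.log y := by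
    apply one_div_le_one_div_of_le hly0
    calc Real.log y = (Real.log y) ^ 1 := (pow_one _).symm
      _ ≤ (Real.log y) ^ 4 := pow_le_pow_right₀ (by linarith) (by norm_num)
  have hv2' : (Real.log y) ^ 4 ≤ Real.exp (V1 y) :=
    (pow_le_pow_right₀ (by linarith) (by norm_num)).trans hv2
  have hbigq : ∀ q : ℕ, 0 < q → V1 y < Real.log q → (1 : ℝ) / q ≤ 1 / (Real.log y) ^ 4 := by
    intro q hq0 hq
    have hq0' : (0 : ℝ) < q := by exact_mod_cast hq0
    have hV0' : Real.exp (-(V1 y)) ≤ 1 / (Real.log y) ^ 4 := by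
      rw [Real.exp_neg, ← one_div]
      exact one_div_le_one_div_of_le (by positivity) hv2'
    refine le_trans ?_ hV0'
    rw [Real.exp_neg, ← one_div]
    exact one_div_le_one_div_of_le (Real.exp_pos _) ((Real.lt_log_iff_exp_lt hq0').1 hq).le
  -- few large prime factors
  have hfew : ∀ n : ℕ, 1 ≤ n → (n : ℝ) ≤ T ^ (D + 2) →
      ∑ q ∈ n.primeFactors.filter (fun q : ℕ => V1 y < Real.log q), (1 : ℝ) / q ≤ 1 / Real.log y := by
    intro n hn1 hnT
    have h4 : ∑ q ∈ n.primeFactors.filter (fun q : ℕ => V1 y < Real.log q), (1 : ℝ) / q ≤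
        (n.primeFactors.filter (fun q : ℕ => V1 y < Real.log q)).card • (1 / (Real.log y) ^ 4) := by
      apply sum_le_card_nsmul
      intro q hq
      rw [mem_filter] at hq
      exact hbigq q (Nat.prime_of_mem_primeFactors hq.1).pos hq.2
    rw [nsmul_eq_mul] at h4
    have h5 : ((n.primeFactors.filter (fun q : ℕ => V1 y < Real.log q)).card : ℝ) ≤ 2 * ((D + 2) * A') := by
      have h6 : ((n.primeFactors.filter (fun q : ℕ => V1 y < Real.log q)).card : ℝ) ≤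
        (n.primeFactors.card : ℝ) := by exact_mod_cast card_le_card (filter_subset _ _)
      have h7 := card_primeFactors_le n hn1
      have h8 : Real.log (n : ℝ) ≤ (D + 2) * A' := by
        have : Real.log (n : ℝ) ≤ Real.log (T ^ (D + 2)) :=
          Real.log_le_log (by exact_mod_cast hn1) hnT
        rw [Real.log_pow] at this
        push_cast at this
        exact this
      linarith
    have h6 : (0 : ℝ) ≤ 1 / (Real.log y) ^ 4 := by positivity
    refine h4.trans ((mul_le_mul_of_nonneg_right h5 h6).trans ?_)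
    have h7 : A' ≤ 2 * Real.log y := by linarith
    have hD4 : 4 * ((D : ℝ) + 2) ≤ Real.log y := by linarith
    have hD0 : (0 : ℝ) ≤ D := Nat.cast_nonneg D
    rw [mul_one_div, div_le_div_iff₀ (by positivity) hly0, one_mul]
    calc 2 * (((D : ℝ) + 2) * A') * Real.log y ≤ 2 * ((D + 2) * (2 * Real.log y)) * Real.log y := by gcongr
      _ = 4 * (D + 2) * (Real.log y) ^ 2 := by ring
      _ ≤ Real.log y * (Real.log y) ^ 2 := by gcongr
      _ = (Real.log y) ^ 3 := by ring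
      _ ≤ (Real.log y) ^ 4 := pow_le_pow_right₀ (by linarith) (by norm_num)
  have hT1 : 1 ≤ T := by linarith
  have hFtail : ∑ q ∈ F.filter (fun q : ℕ => V1 y < Real.log q), (1 : ℝ) / q ≤ 8 / Real.log y := by
    have h1 : ∑ q ∈ F.filter (fun q : ℕ => V1 y < Real.log q), (1 : ℝ) / q ≤
        (∑ q ∈ S, (1 : ℝ) / q + ∑ q ∈ Ps.filter (fun q : ℕ => V1 y < Real.log q), (1 : ℝ) / q) +
        ∑ q ∈ g.primeFactors.filter (fun q : ℕ => V1 y < Real.log q), (1 : ℝ) / q := by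
      have hsub : F.filter (fun q : ℕ => V1 y < Real.log q) ⊆
          (S ∪ Ps.filter (fun q : ℕ => V1 y < Real.log q)) ∪
            g.primeFactors.filter (fun q : ℕ => V1 y < Real.log q) := by
        intro p hp
        rw [mem_filter] at hp
        have h2 := hFsub hp.1
        rw [mem_union, mem_union] at h2
        rw [mem_union, mem_union, mem_filter, mem_filter]
        rcases h2 with (h | h) | h
        · exact Or.inl (Or.inl h)
        · exact Or.inl (Or.inr ⟨h, hp.2⟩)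
        · exact Or.inr ⟨h, hp.2⟩
      refine (sum_le_sum_of_subset_of_nonneg hsub (fun i _ _ => hpos i)).trans ?_
      refine (sum_union_le' _ hpos).trans ?_
      apply add_le_add_left
      exact sum_union_le' _ hpos
    have h2 : ∑ q ∈ Ps.filter (fun q : ℕ => V1 y < Real.log q), (1 : ℝ) / q ≤ 1 / Real.log y := by
      refine le_trans ?_ hl4
      have h3 : (Ps.filter (fun q : ℕ => V1 y < Real.log q)).card ≤ 1 := by
        refine (card_le_card (filter_subset _ _)).trans ?_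
        rw [hPs]
        split_ifs <;> simp
      have h4 : ∑ q ∈ Ps.filter (fun q : ℕ => V1 y < Real.log q), (1 : ℝ) / q ≤
          (Ps.filter (fun q : ℕ => V1 y < Real.log q)).card • (1 / (Real.log y) ^ 4) := by
        apply sum_le_card_nsmul
        intro q hq
        rw [mem_filter] at hq
        obtain ⟨h5, h6⟩ := hPs2 q hq.1
        exact hbigq q (by rw [h5]; exact h6.pos) hq.2
      rw [nsmul_eq_mul] at h4
      have h5 : ((Ps.filter (fun q : ℕ => V1 y < Real.log q)).card : ℝ) ≤ 1 := by exact_mod_cast h3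
      have h6 : 0 ≤ 1 / (Real.log y) ^ 4 := by positivity
      exact h4.trans (mul_le_of_le_one_left h6 h5)
    have h3 := hfew g (Nat.pos_of_ne_zero hg0) (hgD.trans (pow_le_pow_right₀ hT1 (by omega)))
    have h4 : ∑ q ∈ S, (1 : ℝ) / q ≤ 6 / Real.log y := by
      refine hSsum.trans ?_
      apply div_le_div_of_nonneg_left (by norm_num) hly0
      exact hly1.trans (by rw [sq]; exact le_mul_of_one_le_left hA0'.le a1)
    have h6 : 8 / Real.log y = 6 / Real.log y + 1 / Real.log y + 1 / Real.log y := by ring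
    linarith
  have hZt : ∀ z ∈ Z, ∑ q ∈ z.2.natAbs.primeFactors.filter (fun q : ℕ => V1 y < Real.log q),
      (1 : ℝ) / q ≤ 8 / Real.log y := by
    intro z hz
    obtain ⟨k1, k2, k3, k4⟩ := hZX z hz
    refine (hfew _ (Int.natAbs_pos.2 k2) ?_).trans ?_
    · have h1 : ((z.2.natAbs : ℕ) : ℝ) = |(z.2 : ℝ)| := by rw [Nat.cast_natAbs, Int.cast_abs]
      rw [h1]
      have h4 : T * A' ^ A ≤ T ^ 2 / 2 := by
        rw [one_mul, ← hTe] at e7
        have h5 := mul_le_mul_of_nonneg_left e7 hT0.le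
        linarith only [h5]
      have h6 : T ^ 2 ≤ T ^ (D + 2) := pow_le_pow_right₀ hT1 (by omega)
      have h7 : 0 ≤ T ^ 2 := by positivity
      linarith
    · apply div_le_div_of_nonneg_right (by norm_num) hly0.le
  have hZs : ∀ z ∈ Z, ∀ p : ℕ, p.Prime → V1 y < Real.log p → ¬ (p : ℤ) ∣ z.1 := by
    intro z hz p hp hpV hd
    obtain ⟨k1, k2, k3, k4, k5⟩ := hZW z hz
    have h1 : p ≤ z.1.natAbs := Nat.le_of_dvd (Int.natAbs_pos.2 k1) (Int.natCast_dvd.1 hd)
    have h2 : (p : ℝ) ≤ z.1.natAbs := by exact_mod_cast h1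
    have h3 : Real.exp (V1 y) < p := (Real.lt_log_iff_exp_lt (by exact_mod_cast hp.pos)).1 hpV
    linarith
  obtain ⟨s, hsW, hs⟩ := hsh y hyy0 hl2one hly1' W hyW F hFp hFtail Z hZW hZs hZt
    (fun z => ((z.1.natAbs : ℝ) / (z.1.natAbs.totient : ℝ)) * ((z.2.natAbs : ℝ) / (z.2.natAbs.totient : ℝ)))
    (fun z => by positivity)
  set Z₁ : Finset (ℤ × ℤ) := Z.filter (fun z => ∀ p : ℕ, p.Prime → V1 y < Real.log p → p ≤ y → p ∉ F →
      ¬ p ∣ s → ¬ (p : ℤ) ∣ z.1 * s + z.2) with hZ₁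
  -- the small primes
  set N : ℕ := ⌊Real.exp (V1 y)⌋₊ with hN
  set P : Finset ℕ := (Icc 1 y).filter (fun p : ℕ => p.Prime ∧ Real.log p ≤ V1 y ∧ p ∉ F) with hP
  have hPmem : ∀ p ∈ P, p ≤ y ∧ p.Prime ∧ Real.log p ≤ V1 y ∧ p ∉ F := by
    intro p hp
    rw [hP, mem_filter, mem_Icc] at hp
    exact ⟨hp.1.2, hp.2⟩
  have hng : ∀ p, p ≤ y → p.Prime → p ∉ F → ¬ p ∣ g := fun p h1 h2 h3 h4 =>
    h3 ((hFmem p).2 ⟨h1, h2, Or.inr (Or.inr h4)⟩)
  obtain ⟨βg, hβ1, hβ2⟩ := greedyP P (fun p hp => (hPmem p hp).2.1) Z₁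
  have hPz : ∀ p ∈ Pz N, p.Prime := by
    intro p hp
    unfold Pool.Agent.H318R2.Cr.Pz at hp
    exact (mem_filter.1 hp).2
  have hPS : P ⊆ Pz N := by
    intro p hp
    obtain ⟨h1, h2, h3, h4⟩ := hPmem p hp
    unfold Pool.Agent.H318R2.Cr.Pz
    rw [mem_filter, mem_Ioc]
    refine ⟨⟨h2.pos, ?_⟩, h2⟩
    apply Nat.le_floor
    rw [← Real.log_le_iff_le_exp (by exact_mod_cast h2.pos)]
    exact h3
  have hdiff : ∑ p ∈ Pz N \ P, (1 : ℝ) / p ≤ A0 + 2 := by
    refine (sum_le_sum_of_subset_of_nonneg ?_ (fun i _ _ => hpos i)).trans hFsum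
    intro p hp
    obtain ⟨h1, h2⟩ := Finset.mem_sdiff.1 hp
    have hpp := hPz p h1
    unfold Pool.Agent.H318R2.Cr.Pz at h1
    rw [mem_filter, mem_Ioc] at h1
    have hp0 : (0 : ℝ) < p := by exact_mod_cast hpp.pos
    have h3 : (p : ℝ) ≤ Real.exp (V1 y) := (Nat.le_floor_iff (Real.exp_pos _).le).1 h1.1.2
    have h4 : Real.log p ≤ V1 y := (Real.log_le_iff_le_exp hp0).2 h3
    have h5 : p ≤ y := by
      have h6 : (p : ℝ) ≤ y := by
        rw [← Real.exp_log hp0, ← Real.exp_log hy0]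
        exact Real.exp_le_exp.2 (h4.trans hv3)
      exact_mod_cast h6
    by_contra hcon
    apply h2
    rw [hP, mem_filter, mem_Icc]
    exact ⟨⟨hpp.pos, h5⟩, hpp, h4, hcon⟩
  have hV1pos : 0 < V1 y := by
    unfold Pool.Agent.H378R2.PS.V1
    positivity
  have hexp2 : 4 ≤ Real.exp (V1 y) := by
    refine le_trans ?_ hv2'
    have : (100 : ℝ) ^ 4 ≤ (Real.log y) ^ 4 := pow_le_pow_left₀ (by norm_num) hv1 4
    linarith [show (4 : ℝ) ≤ 100 ^ 4 by norm_num]
  have hN2 : 2 ≤ N := by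
    apply Nat.le_floor
    push_cast
    linarith
  have hlogN : V1 y / 2 ≤ Real.log N := by
    have h7 : Real.exp (V1 y) < N + 1 := Nat.lt_floor_add_one _
    have h8 : (2 : ℝ) ≤ N := by exact_mod_cast hN2
    have h9 : Real.exp (V1 y) ≤ (N : ℝ) ^ 2 := by nlinarith only [h7, h8]
    have h10 := Real.log_le_log (Real.exp_pos _) h9
    rw [Real.log_exp, Real.log_pow] at h10
    push_cast at h10; linarith
  have hprod : ∏ p ∈ Pz N, (1 - 1 / (p : ℝ)) ≤ 2 * c₂ / V1 y := by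
    have h1 := (hV N hN2).2
    unfold Pool.Agent.H318R2.Cr.V at h1
    have h2 : 0 < Real.log N := by linarith
    rw [← le_div_iff₀ h2] at h1
    refine h1.trans ?_
    rw [div_le_div_iff₀ h2 hV1pos]
    have h3 := mul_le_mul_of_nonneg_left hlogN hc₂.le
    linarith only [h3]
  set U0 : Finset (ℤ × ℤ) := Z₁.filter (fun z => ∀ p ∈ P, ¬ (p : ℤ) ∣ z.1 * βg p + z.2) with hU0
  have hUc : (U0.card : ℝ) ≤ c₃ * T := by
    have h1 : (U0.card : ℝ) ≤ ∑ z ∈ Z₁, (2 * c₂ / V1 y) * Real.exp (2 * (A0 + 2)) *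
        (((z.1.natAbs : ℝ) / (z.1.natAbs.totient : ℝ)) * ((z.2.natAbs : ℝ) / (z.2.natAbs.totient : ℝ))) := by
      refine hβ2.trans (sum_le_sum fun z hz => ?_)
      obtain ⟨k1, k2, k3, k4⟩ := hZX z (mem_filter.1 hz).1
      refine (prodZ 1 (fun _ => (0 : ℤ)) P (Pz N) hPS hPz (A0 + 2) hdiff (z.1 * z.2)
        (fun _ => mul_ne_zero k1 k2)).trans ?_
      have h3 : ∏ j : Fin 1, (((z.1 * z.2 - (fun _ => (0 : ℤ)) j).natAbs : ℝ) /
          ((z.1 * z.2 - (fun _ => (0 : ℤ)) j).natAbs.totient : ℝ)) ≤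
          ((z.1.natAbs : ℝ) / (z.1.natAbs.totient : ℝ)) * ((z.2.natAbs : ℝ) / (z.2.natAbs.totient : ℝ)) := by
        rw [Fin.prod_univ_one, sub_zero, Int.natAbs_mul]
        exact ratio_mul_le' _ _ (Int.natAbs_ne_zero.2 k1) (Int.natAbs_ne_zero.2 k2)
      apply mul_le_mul (mul_le_mul_of_nonneg_right hprod (Real.exp_pos _).le) h3 _ (by positivity)
      exact prod_nonneg fun j _ => by positivity
    rw [← mul_sum] at h1
    have h2 : ∑ z ∈ Z₁, (((z.1.natAbs : ℝ) / (z.1.natAbs.totient : ℝ)) *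
        ((z.2.natAbs : ℝ) / (z.2.natAbs.totient : ℝ))) ≤
        Cs * (Real.log (Real.log y) / Real.log y) * (c₃ / Q * ff X) := by
      refine hs.trans (mul_le_mul_of_nonneg_left ?_ (by positivity))
      refine le_trans (le_of_eq (sum_congr rfl fun z _ => ?_)) hZw
      unfold wP
      ring
    have hffn : 0 ≤ ff X := by rw [hff]; positivity
    calc (U0.card : ℝ) ≤ (2 * c₂ / V1 y) * Real.exp (2 * (A0 + 2)) *
          (Cs * (Real.log (Real.log y) / Real.log y) * (c₃ / Q * ff X)) :=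
          h1.trans (mul_le_mul_of_nonneg_left h2 (by positivity))
      _ = (Cs * (2 * c₂) * Real.exp (2 * (A0 + 2)) * 20) * ((Real.log (Real.log y)) ^ 2 /
          ((Real.log y) ^ 2 * Real.log (Real.log (Real.log y)))) * (c₃ / Q * ff X) := by
          unfold Pool.Agent.H378R2.PS.V1
          field_simp
      _ ≤ (Cs * (2 * c₂) * Real.exp (2 * (A0 + 2)) * 20) * (B ^ 2 / ((A' / 2) ^ 2 * (D' / 2))) *
          (c₃ / Q * ff X) := by gcongr
      _ = c₃ * T := by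
          rw [hff, hQ]
          field_simp
          norm_num
  refine ⟨fun p => if V1 y < Real.log p then (if ¬ p ∣ s then s else 1)
      else (if p ∈ P then βg p else 1), U0, (filter_subset _ _).trans (filter_subset _ _), hUc, ?_, ?_⟩
  · intro p hp
    have hpp := (mem_PW.1 hp).2.1
    have h1p : ¬ (p : ℤ) ∣ 1 := by
      intro h1
      have h2 : p ∣ 1 := by exact_mod_cast h1
      exact hpp.one_lt.ne' (Nat.dvd_one.1 h2)
    show ¬ (p : ℤ) ∣ (if V1 y < Real.log p then (if ¬ p ∣ s then (s : ℤ) else 1)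
      else (if p ∈ P then βg p else 1))
    split_ifs with h1 h2 h3
    · exact h1p
    · exact fun h => h2 (Int.natCast_dvd_natCast.1 h)
    · exact hβ1 p h3
    · exact h1p
  · intro z hz hzU
    by_cases hz1 : z ∈ Z₁
    · have h1 : ∃ p ∈ P, (p : ℤ) ∣ z.1 * βg p + z.2 := by
        by_contra hcon
        push Not at hcon
        exact hzU (mem_filter.2 ⟨hz1, hcon⟩)
      obtain ⟨p, hp, hpd⟩ := h1
      obtain ⟨g1, g2, g3, g4⟩ := hPmem p hp
      refine ⟨p, mem_PW.2 ⟨g1, g2, fun h => g4 ((hFmem p).2 ⟨g1, g2, Or.inl h⟩),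
        fun h => g4 ((hFmem p).2 ⟨g1, g2, Or.inr (Or.inl h)⟩)⟩, hng p g1 g2 g4, ?_⟩
      show (p : ℤ) ∣ z.1 * (if V1 y < Real.log p then (if ¬ p ∣ s then (s : ℤ) else 1)
        else (if p ∈ P then βg p else 1)) + z.2
      rw [if_neg (not_lt.2 g3), if_pos hp]
      exact hpd
    · have h1 : ∃ p : ℕ, p.Prime ∧ V1 y < Real.log p ∧ p ≤ y ∧ p ∉ F ∧ ¬ p ∣ s ∧
          (p : ℤ) ∣ z.1 * s + z.2 := by
        by_contra hcon
        push Not at hcon
        exact hz1 (mem_filter.2 ⟨hz, hcon⟩)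
      obtain ⟨p, g2, g3, g1, g4, g5, g6⟩ := h1
      refine ⟨p, mem_PW.2 ⟨g1, g2, fun h => g4 ((hFmem p).2 ⟨g1, g2, Or.inl h⟩),
        fun h => g4 ((hFmem p).2 ⟨g1, g2, Or.inr (Or.inl h)⟩)⟩, hng p g1 g2 g4, ?_⟩
      show (p : ℤ) ∣ z.1 * (if V1 y < Real.log p then (if ¬ p ∣ s then (s : ℤ) else 1)
        else (if p ∈ P then βg p else 1)) + z.2
      rw [if_pos g3, if_pos g5]
      exact g6

end Pool.Agent.TH101.RG
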