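import Pool.Agent.TH101.RG.Cov
import Pool.Agent.H674R2.PT.T1

set_option autoImplicit false
set_option maxHeartbeats 4000000

/-! # A weighted covering of an arbitrary set by residue classes avoiding prescribed classes -/

namespace Pool.Agent.TH101.RG

open Finset Filter Pool.Agent.H398R2.RK
open Pool.Agent.H378R2
open Pool.Agent.H378R2.PS (V1)
open Pool.Agent.H378R2.PT (rough_count)
open Pool.Agent.H318R2.Cr (cz_bounds Pz one_sub_inv_pos)

open scoped Classical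

/-- the number of shifts `s ≤ W` with `R |z - s|` -/
theorem card_shiftZ (R : ℕ → Prop) (W : ℕ) (z : ℤ) (hz : z.natAbs ≤ W) :
    ((range (W + 1)).filter (fun s : ℕ => R (z - s).natAbs)).card ≤
      1 + 2 * ((Icc 1 (2 * W)).filter R).card := by
  have h : (range (W + 1)).filter (fun s : ℕ => R (z - s).natAbs) ⊆
      {z.toNat} ∪ (((Icc 1 (2 * W)).filter R).image (fun m : ℕ => (z - m).toNat) ∪
        ((Icc 1 (2 * W)).filter R).image (fun m : ℕ => (z + m).toNat)) := by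
    intro s hs
    rw [mem_filter, mem_range] at hs
    rw [mem_union, mem_union, mem_singleton, mem_image, mem_image]
    obtain ⟨h1, h2⟩ := hs
    rcases lt_trichotomy (s : ℤ) z with h3 | h3 | h3
    · right; left
      refine ⟨(z - s).natAbs, ?_, by omega⟩
      rw [mem_filter, mem_Icc]
      exact ⟨⟨by omega, by omega⟩, h2⟩
    · left; omega
    · right; right
      refine ⟨(z - s).natAbs, ?_, by omega⟩
      rw [mem_filter, mem_Icc]
      exact ⟨⟨by omega, by omega⟩, h2⟩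
  have h1 := card_le_card h
  have h2 := card_union_le {z.toNat} (((Icc 1 (2 * W)).filter R).image (fun m : ℕ => (z - m).toNat) ∪
        ((Icc 1 (2 * W)).filter R).image (fun m : ℕ => (z + m).toNat))
  have h3 := card_union_le (((Icc 1 (2 * W)).filter R).image (fun m : ℕ => (z - m).toNat))
        (((Icc 1 (2 * W)).filter R).image (fun m : ℕ => (z + m).toNat))
  have h4 : (((Icc 1 (2 * W)).filter R).image (fun m : ℕ => (z - m).toNat)).card ≤
    ((Icc 1 (2 * W)).filter R).card := card_image_le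
  have h5 : (((Icc 1 (2 * W)).filter R).image (fun m : ℕ => (z + m).toNat)).card ≤
    ((Icc 1 (2 * W)).filter R).card := card_image_le
  rw [card_singleton] at h2
  omega

/-- the number of shifts `s ≤ W` with `p ∣ z - s` -/
theorem card_dvdZ (W p : ℕ) (hp : 0 < p) (hpW : p ≤ W) (z : ℤ) :
    (((range (W + 1)).filter (fun s : ℕ => (p : ℤ) ∣ z - s)).card : ℝ) ≤ 2 * W * (1 / (p : ℝ)) := by
  have hsub : (range (W + 1)).filter (fun s : ℕ => (p : ℤ) ∣ z - s) ⊆
      (range (W + 1)).filter (fun k => k % p = (z % p).toNat % p) := by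
    intro s hs
    rw [mem_filter] at hs ⊢
    exact ⟨hs.1, dvd_sub_mod p hp z s hs.2⟩
  have h1 := (card_le_card hsub).trans (class_count p ((z % p).toNat) W hp)
  have hp0 : (0 : ℝ) < p := by exact_mod_cast hp
  have h2 : (((range (W + 1)).filter (fun s : ℕ => (p : ℤ) ∣ z - s)).card : ℝ) ≤ (W / p : ℕ) + 1 := by
    exact_mod_cast h1
  have h3 : ((W / p : ℕ) : ℝ) ≤ (W : ℝ) / p := Nat.cast_div_le
  have h4 : 1 ≤ (W : ℝ) / p := by
    rw [le_div_iff₀ hp0, one_mul]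
    exact_mod_cast hpW
  calc _ ≤ ((W / p : ℕ) : ℝ) + 1 := h2
    _ ≤ (W : ℝ) / p + W / p := by linarith
    _ = _ := by ring

/-- the choice of the shift, weighted -/
theorem shiftZ (K A : ℕ) (C₁ : ℝ) (hC₁ : 0 ≤ C₁) : ∃ C : ℝ, 0 < C ∧ ∃ y₀ : ℝ, ∀ y : ℕ, y₀ ≤ (y : ℝ) →
    1 ≤ Real.log (Real.log y) → 1 ≤ Real.log y → ∀ W : ℕ, y ≤ W → 2 * (W : ℝ) ≤ y * (Real.log y) ^ A →
    ∀ F : Finset ℕ, (∀ q ∈ F, q.Prime) →
    ∑ q ∈ F.filter (fun q : ℕ => V1 y < Real.log q), (1 : ℝ) / q ≤ C₁ / Real.log y →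
    ∀ τ : Fin K → ℤ, ∀ Z : Finset ℤ, (∀ z ∈ Z, z.natAbs ≤ W) → (∀ z ∈ Z, ∀ j, z ≠ τ j) →
    (∀ z ∈ Z, ∀ j, ∑ q ∈ (z - τ j).natAbs.primeFactors.filter (fun q : ℕ => V1 y < Real.log q),
      (1 : ℝ) / q ≤ C₁ / Real.log y) →
    ∀ w : ℤ → ℝ, (∀ z, 0 ≤ w z) →
    ∃ s : ℕ, s ≤ W ∧ ∑ z ∈ Z.filter (fun z => ∀ p : ℕ, p.Prime → V1 y < Real.log p → p ≤ y → p ∉ F →
      (∀ j, ¬ (p : ℤ) ∣ s - τ j) → ¬ (p : ℤ) ∣ z - s), w z ≤
      C * (Real.log (Real.log y) / Real.log y) * ∑ z ∈ Z, w z := by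
  obtain ⟨Cr, hCr, y₀, hr⟩ := rough_count A
  refine ⟨1 + 4 * Cr + 2 * C₁ + 2 * K * C₁, by positivity, y₀, ?_⟩
  intro y hy hll hly W hyW hWy F hF hFt τ Z hZW hZτ hZt w hw
  set R : ℕ → Prop := fun m => ∀ p : ℕ, p.Prime → V1 y < Real.log p → (p : ℝ) ≤ y → ¬ p ∣ m with hR
  set ε : ℝ := Real.log (Real.log y) / Real.log y with hε
  have hl0 : 0 < Real.log y := by linarith
  have hε0 : 0 < ε := by rw [hε]; positivity
  have hinv : 1 / Real.log y ≤ ε := by
    rw [hε]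
    exact div_le_div_of_nonneg_right hll hl0.le
  have hy0 : (0 : ℝ) < y := by
    rcases (Nat.cast_nonneg y : (0 : ℝ) ≤ y).eq_or_lt with h | h
    · rw [← h, Real.log_zero] at hly
      linarith
    · exact h
  have hWr : (y : ℝ) ≤ W := by exact_mod_cast hyW
  have hW0 : (0 : ℝ) < W := by linarith
  have hrough : (((Icc 1 (2 * W)).filter R).card : ℝ) ≤ Cr * (2 * W) * ε := by
    have h1 := hr y hy (2 * W) (by push_cast; linarith) (by push_cast; exact hWy)
    have h2 : Cr * ((2 * W : ℕ) : ℝ) * Real.log (Real.log y) / Real.log y = Cr * (2 * W) * ε := by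
      push_cast
      rw [hε]
      ring
    rw [h2] at h1
    exact h1
  have h1W : 1 ≤ (W : ℝ) * ε := by
    have h1 : Real.log y ≤ y := (Real.log_le_sub_one_of_pos hy0).trans (by linarith)
    have h2 : 1 ≤ (y : ℝ) * (1 / Real.log y) := by
      rw [mul_one_div, le_div_iff₀ hl0, one_mul]
      exact h1
    calc (1 : ℝ) ≤ y * (1 / Real.log y) := h2
      _ ≤ W * ε := by gcongr
  -- the number of bad shifts
  have hcount : ∀ z ∈ Z, (((range (W + 1)).filter (fun s : ℕ => ∀ p : ℕ, p.Prime → V1 y < Real.log p →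
      p ≤ y → p ∉ F → (∀ j, ¬ (p : ℤ) ∣ s - τ j) → ¬ (p : ℤ) ∣ z - s)).card : ℝ) ≤
      (1 + 4 * Cr + 2 * C₁ + 2 * K * C₁) * ε * (W + 1) := by
    intro z hz
    set F' : Finset ℕ := (F.filter (fun q : ℕ => V1 y < Real.log q)).filter (fun q => q ≤ y) with hF'
    set G : Fin K → Finset ℕ := fun j =>
      ((z - τ j).natAbs.primeFactors.filter (fun q : ℕ => V1 y < Real.log q)).filter (fun q => q ≤ y) with hG
    set D : ℕ → Finset ℕ := fun p => (range (W + 1)).filter (fun s : ℕ => (p : ℤ) ∣ z - s) with hD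
    have hsub : (range (W + 1)).filter (fun s : ℕ => ∀ p : ℕ, p.Prime → V1 y < Real.log p →
        p ≤ y → p ∉ F → (∀ j, ¬ (p : ℤ) ∣ s - τ j) → ¬ (p : ℤ) ∣ z - s) ⊆
        ((range (W + 1)).filter (fun s : ℕ => R (z - s).natAbs) ∪ F'.biUnion D) ∪
          (univ : Finset (Fin K)).biUnion (fun j => (G j).biUnion D) := by
      intro s hs
      rw [mem_filter] at hs
      obtain ⟨hsW, hs⟩ := hs
      rw [mem_union, mem_union, mem_filter]
      by_cases hRs : R (z - s).natAbs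
      · exact Or.inl (Or.inl ⟨hsW, hRs⟩)
      · rw [hR] at hRs
        push Not at hRs
        obtain ⟨p, hp, hp1, hp2, hp3⟩ := hRs
        have hp2' : p ≤ y := by exact_mod_cast hp2
        have hp3' : (p : ℤ) ∣ z - s := Int.natCast_dvd.2 hp3
        have hsD : s ∈ D p := by
          rw [hD, mem_filter]
          exact ⟨hsW, hp3'⟩
        by_cases hpF : p ∈ F
        · left; right
          rw [mem_biUnion]
          refine ⟨p, ?_, hsD⟩
          rw [hF', mem_filter, mem_filter]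
          exact ⟨⟨hpF, hp1⟩, hp2'⟩
        · right
          have h1 : ∃ j, (p : ℤ) ∣ s - τ j := by
            by_contra hcon
            push Not at hcon
            exact hs p hp hp1 hp2' hpF hcon hp3'
          obtain ⟨j, hj⟩ := h1
          rw [mem_biUnion]
          refine ⟨j, mem_univ _, ?_⟩
          rw [mem_biUnion]
          refine ⟨p, ?_, hsD⟩
          rw [hG, mem_filter, mem_filter, Nat.mem_primeFactors]
          have h2 : (p : ℤ) ∣ z - τ j := by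
            have e : z - τ j = (z - s) + (s - τ j) := by ring
            rw [e]
            exact dvd_add hp3' hj
          exact ⟨⟨⟨hp, Int.natCast_dvd.1 h2, Int.natAbs_ne_zero.2 (sub_ne_zero.2 (hZτ z hz j))⟩, hp1⟩, hp2'⟩
    have hDc : ∀ p : ℕ, 0 < p → p ≤ y → ((D p).card : ℝ) ≤ 2 * W * (1 / (p : ℝ)) := fun p hp hpy =>
      card_dvdZ W p hp (hpy.trans hyW) z
    have hsumD : ∀ (Q : Finset ℕ), (∀ q ∈ Q, 0 < q) → ∑ q ∈ Q, (1 : ℝ) / q ≤ C₁ / Real.log y →
        (((Q.filter (fun q => q ≤ y)).biUnion D).card : ℝ) ≤ 2 * C₁ * ε * W := by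
      intro Q hQ hQs
      have h1 : (((Q.filter (fun q => q ≤ y)).biUnion D).card : ℝ) ≤
          ∑ q ∈ Q.filter (fun q => q ≤ y), ((D q).card : ℝ) := by
        exact_mod_cast card_biUnion_le
      have h2 : ∑ q ∈ Q.filter (fun q => q ≤ y), ((D q).card : ℝ) ≤
          ∑ q ∈ Q.filter (fun q => q ≤ y), 2 * W * (1 / (q : ℝ)) := by
        apply sum_le_sum
        intro q hq
        rw [mem_filter] at hq
        exact hDc q (hQ q hq.1) hq.2
      have h3 : ∑ q ∈ Q.filter (fun q => q ≤ y), (1 / (q : ℝ)) ≤ ∑ q ∈ Q, (1 : ℝ) / q :=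
        sum_le_sum_of_subset_of_nonneg (filter_subset _ _) (fun i _ _ => by positivity)
      rw [← mul_sum] at h2
      have h4 : C₁ / Real.log y ≤ C₁ * ε := by
        rw [div_eq_mul_one_div]
        exact mul_le_mul_of_nonneg_left hinv hC₁
      calc _ ≤ 2 * (W : ℝ) * ∑ q ∈ Q.filter (fun q => q ≤ y), (1 / (q : ℝ)) := h1.trans h2
        _ ≤ 2 * W * (C₁ * ε) := by
            apply mul_le_mul_of_nonneg_left _ (by positivity)
            linarith
        _ = _ := by ring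
    have hc1 := card_le_card hsub
    have hc2 := card_union_le ((range (W + 1)).filter (fun s : ℕ => R (z - s).natAbs) ∪ F'.biUnion D)
      ((univ : Finset (Fin K)).biUnion (fun j => (G j).biUnion D))
    have hc3 := card_union_le ((range (W + 1)).filter (fun s : ℕ => R (z - s).natAbs)) (F'.biUnion D)
    have hc4 := card_shiftZ R W z (hZW z hz)
    have hc5 : (((univ : Finset (Fin K)).biUnion (fun j => (G j).biUnion D)).card : ℝ) ≤
        K * (2 * C₁ * ε * W) := by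
      have h1 : (((univ : Finset (Fin K)).biUnion (fun j => (G j).biUnion D)).card : ℝ) ≤
          ∑ j : Fin K, (((G j).biUnion D).card : ℝ) := by exact_mod_cast card_biUnion_le
      refine h1.trans ?_
      refine (sum_le_card_nsmul _ _ _ (fun j _ => ?_)).trans (le_of_eq (by
        rw [card_univ, Fintype.card_fin, nsmul_eq_mul]))
      exact hsumD _ (fun q hq => (Nat.prime_of_mem_primeFactors (mem_filter.1 hq).1).pos) (hZt z hz j)
    have hc6 : ((F'.biUnion D).card : ℝ) ≤ 2 * C₁ * ε * W :=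
      hsumD _ (fun q hq => (hF q (mem_filter.1 hq).1).pos) hFt
    have hc7 : (((range (W + 1)).filter (fun s : ℕ => ∀ p : ℕ, p.Prime → V1 y < Real.log p →
        p ≤ y → p ∉ F → (∀ j, ¬ (p : ℤ) ∣ s - τ j) → ¬ (p : ℤ) ∣ z - s)).card : ℝ) ≤
        (1 + 2 * (((Icc 1 (2 * W)).filter R).card : ℝ)) + ((F'.biUnion D).card : ℝ) +
        (((univ : Finset (Fin K)).biUnion (fun j => (G j).biUnion D)).card : ℝ) := by
      exact_mod_cast (by omega : ((range (W + 1)).filter (fun s : ℕ => ∀ p : ℕ, p.Prime → V1 y < Real.log p →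
        p ≤ y → p ∉ F → (∀ j, ¬ (p : ℤ) ∣ s - τ j) → ¬ (p : ℤ) ∣ z - s)).card ≤
        (1 + 2 * ((Icc 1 (2 * W)).filter R).card) + (F'.biUnion D).card +
        ((univ : Finset (Fin K)).biUnion (fun j => (G j).biUnion D)).card)
    have hfin : (1 + 4 * Cr + 2 * C₁ + 2 * K * C₁) * ε * W ≤ (1 + 4 * Cr + 2 * C₁ + 2 * K * C₁) * ε * (W + 1) := by
      apply mul_le_mul_of_nonneg_left _ (by positivity)
      linarith
    refine le_trans ?_ hfin
    have e : (1 + 4 * Cr + 2 * C₁ + 2 * K * C₁) * ε * W = W * ε + 2 * (Cr * (2 * W) * ε) + 2 * C₁ * ε * W +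
      K * (2 * C₁ * ε * W) := by ring
    rw [e]
    linarith
  by_contra hcon
  push Not at hcon
  have h1 : ∑ s ∈ range (W + 1), ∑ z ∈ Z.filter (fun z => ∀ p : ℕ, p.Prime → V1 y < Real.log p → p ≤ y →
      p ∉ F → (∀ j, ¬ (p : ℤ) ∣ (s : ℕ) - τ j) → ¬ (p : ℤ) ∣ z - (s : ℕ)), w z =
      ∑ z ∈ Z, (((range (W + 1)).filter (fun s : ℕ => ∀ p : ℕ, p.Prime → V1 y < Real.log p →
        p ≤ y → p ∉ F → (∀ j, ¬ (p : ℤ) ∣ s - τ j) → ¬ (p : ℤ) ∣ z - s)).card : ℝ) * w z := by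
    simp_rw [sum_filter]
    rw [sum_comm]
    apply sum_congr rfl
    intro z _
    rw [← sum_filter, sum_const, nsmul_eq_mul]
  have h2 : ∑ z ∈ Z, (((range (W + 1)).filter (fun s : ℕ => ∀ p : ℕ, p.Prime → V1 y < Real.log p →
        p ≤ y → p ∉ F → (∀ j, ¬ (p : ℤ) ∣ s - τ j) → ¬ (p : ℤ) ∣ z - s)).card : ℝ) * w z ≤
      ∑ z ∈ Z, (1 + 4 * Cr + 2 * C₁ + 2 * K * C₁) * ε * (W + 1) * w z :=
    sum_le_sum fun z hz => mul_le_mul_of_nonneg_right (hcount z hz) (hw z)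
  have h3 : ∑ s ∈ range (W + 1), (1 + 4 * Cr + 2 * C₁ + 2 * K * C₁) * ε * ∑ z ∈ Z, w z <
      ∑ s ∈ range (W + 1), ∑ z ∈ Z.filter (fun z => ∀ p : ℕ, p.Prime → V1 y < Real.log p → p ≤ y →
      p ∉ F → (∀ j, ¬ (p : ℤ) ∣ (s : ℕ) - τ j) → ¬ (p : ℤ) ∣ z - (s : ℕ)), w z := by
    apply sum_lt_sum_of_nonempty ⟨0, by simp⟩
    intro s hs
    exact hcon s (by rw [mem_range] at hs; omega)
  rw [sum_const, card_range, nsmul_eq_mul, h1] at h3
  rw [← mul_sum] at h2
  have h4 := h3.trans_le h2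
  push_cast at h4
  have h5 : ((W : ℝ) + 1) * ((1 + 4 * Cr + 2 * C₁ + 2 * K * C₁) * ε * ∑ z ∈ Z, w z) =
      (1 + 4 * Cr + 2 * C₁ + 2 * K * C₁) * ε * (W + 1) * ∑ z ∈ Z, w z := by ring
  rw [h5] at h4
  exact lt_irrefl _ h4

/-- the greedy choice of classes avoiding prescribed classes -/
theorem greedyZ (K : ℕ) (τ : Fin K → ℤ) (v : ℕ → ℤ) (P : Finset ℕ) (hP : ∀ p ∈ P, p.Prime)
    (hv : ∀ p ∈ P, ∀ j, ¬ (p : ℤ) ∣ v p - τ j) : ∀ Z : Finset ℤ, ∃ β : ℕ → ℤ,
    (∀ p ∈ P, ∀ j, ¬ (p : ℤ) ∣ β p - τ j) ∧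
    ((Z.filter (fun z => ∀ p ∈ P, ¬ (p : ℤ) ∣ z - β p)).card : ℝ) ≤
      ∑ z ∈ Z, ∏ p ∈ P, (if ∀ j, ¬ (p : ℤ) ∣ z - τ j then 1 - 1 / (p : ℝ) else 1) := by
  induction P using Finset.induction_on with
  | empty => exact fun Z => ⟨fun _ => 0, by simp, by simp⟩
  | insert q P hq ih =>
    intro Z
    have hih := ih (fun p hp => hP p (mem_insert_of_mem hp)) (fun p hp => hv p (mem_insert_of_mem hp))
    have hqp := hP q (mem_insert_self _ _)
    have hq0 : (0 : ℝ) < q := by exact_mod_cast hqp.pos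
    set Φ : ℤ → ℝ := fun z => ∏ p ∈ P, (if ∀ j, ¬ (p : ℤ) ∣ z - τ j then 1 - 1 / (p : ℝ) else 1) with hΦ
    have hΦ0 : ∀ z, 0 ≤ Φ z := by
      intro z
      rw [hΦ]
      apply prod_nonneg
      intro p hp
      have hp1 : (1 : ℝ) ≤ p := by exact_mod_cast (hP p (mem_insert_of_mem hp)).one_le
      split_ifs
      · rw [sub_nonneg, div_le_one (by linarith)]
        exact hp1
      · norm_num
    set G : Finset ℤ := Z.filter (fun z => ∀ j, ¬ (q : ℤ) ∣ z - τ j) with hG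
    have hqz : (q : ℤ) ≠ 0 := by exact_mod_cast hqp.ne_zero
    have hmod : ∀ z : ℤ, 0 ≤ z % (q : ℤ) := fun z => Int.emod_nonneg _ hqz
    obtain ⟨c, hc1, hc2⟩ : ∃ c : ℤ, (∀ j, ¬ (q : ℤ) ∣ c - τ j) ∧
        1 / (q : ℝ) * ∑ z ∈ G, Φ z ≤ ∑ z ∈ Z.filter (fun z => (q : ℤ) ∣ z - c), Φ z := by
      obtain ⟨r, hr, hr2⟩ := Finset.exists_le_sum_fiber_of_maps_to_of_nsmul_le_sum
        (s := G) (t := range q) (f := fun z : ℤ => (z % (q : ℤ)).toNat) (w := Φ)
        (b := 1 / (q : ℝ) * ∑ z ∈ G, Φ z)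
        (by
          intro z _
          rw [mem_range]
          have h1 := Int.emod_lt_of_pos z (show (0 : ℤ) < q by exact_mod_cast hqp.pos)
          have h2 := hmod z
          omega)
        ⟨0, mem_range.2 hqp.pos⟩
        (by
          rw [card_range, nsmul_eq_mul, ← mul_assoc, mul_one_div, div_self hq0.ne', one_mul])
      by_cases hne : (G.filter (fun z : ℤ => (z % (q : ℤ)).toNat = r)).Nonempty
      · obtain ⟨z₀, hz₀⟩ := hne
        rw [mem_filter] at hz₀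
        refine ⟨z₀, ?_, hr2.trans ?_⟩
        · have := hz₀.1
          rw [hG, mem_filter] at this
          exact this.2
        · apply sum_le_sum_of_subset_of_nonneg
          · intro z hz
            rw [mem_filter] at hz ⊢
            refine ⟨(mem_filter.1 hz.1).1, ?_⟩
            have h1 : z % (q : ℤ) = z₀ % (q : ℤ) := by
              have h2 := hmod z
              have h3 := hmod z₀
              have h4 := hz.2
              have h5 := hz₀.2
              omega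
            exact Int.modEq_iff_dvd.1 (show z₀ ≡ z [ZMOD q] from h1.symm)
          · intro i _ _
            exact hΦ0 i
      · rw [not_nonempty_iff_eq_empty] at hne
        rw [hne, sum_empty] at hr2
        exact ⟨v q, hv q (mem_insert_self _ _), hr2.trans (sum_nonneg fun i _ => hΦ0 i)⟩
    obtain ⟨β, hβ1, hβ2⟩ := hih (Z.filter (fun z => ¬ (q : ℤ) ∣ z - c))
    refine ⟨fun p => if p = q then c else β p, ?_, ?_⟩
    · intro p hp j
      by_cases hpq : p = q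
      · simp only [hpq, if_true]
        exact hc1 j
      · simp only [hpq, if_false]
        exact hβ1 p ((mem_insert.1 hp).resolve_left hpq) j
    · have h1 : (Z.filter (fun z => ∀ p ∈ insert q P, ¬ (p : ℤ) ∣ z - (if p = q then c else β p))).card ≤
          ((Z.filter (fun z => ¬ (q : ℤ) ∣ z - c)).filter (fun z => ∀ p ∈ P, ¬ (p : ℤ) ∣ z - β p)).card := by
        apply card_le_card
        intro z hz
        rw [mem_filter] at hz
        rw [mem_filter, mem_filter]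
        refine ⟨⟨hz.1, ?_⟩, ?_⟩
        · have := hz.2 q (mem_insert_self _ _)
          rwa [if_pos rfl] at this
        · intro p hp
          have h2 := hz.2 p (mem_insert_of_mem hp)
          rwa [if_neg (fun h : p = q => hq (h ▸ hp))] at h2
      have h2 : ((Z.filter (fun z => ∀ p ∈ insert q P, ¬ (p : ℤ) ∣ z - (if p = q then c else β p))).card : ℝ) ≤
          ∑ z ∈ Z.filter (fun z => ¬ (q : ℤ) ∣ z - c), Φ z := le_trans (by exact_mod_cast h1) hβ2
      refine h2.trans ?_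
      have h3 : ∑ z ∈ Z.filter (fun z => (q : ℤ) ∣ z - c), Φ z + ∑ z ∈ Z.filter (fun z => ¬ (q : ℤ) ∣ z - c), Φ z =
          ∑ z ∈ Z, Φ z := sum_filter_add_sum_filter_not _ _ _
      have h4 : ∑ z ∈ Z, ∏ p ∈ insert q P, (if ∀ j, ¬ (p : ℤ) ∣ z - τ j then 1 - 1 / (p : ℝ) else 1) =
          ∑ z ∈ Z, Φ z - 1 / (q : ℝ) * ∑ z ∈ G, Φ z := by
        rw [hG, mul_sum, sum_filter, ← sum_sub_distrib]
        apply sum_congr rfl
        intro z _
        rw [prod_insert hq]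
        split_ifs
        · ring
        · ring
      rw [h4]
      linarith

theorem one_le_prod_real {ι : Type} (s : Finset ι) (f : ι → ℝ) (h : ∀ i ∈ s, 1 ≤ f i) : 1 ≤ ∏ i ∈ s, f i := by
  induction s using Finset.induction_on with
  | empty => simp
  | insert a s ha ih =>
    rw [prod_insert ha]
    have h1 := h a (mem_insert_self _ _)
    have h2 := ih fun i hi => h i (mem_insert_of_mem hi)
    nlinarith

theorem prod_mono_real {s t : Finset ℕ} (hst : s ⊆ t) (f : ℕ → ℝ) (h : ∀ i ∈ t, 1 ≤ f i) :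
    ∏ i ∈ s, f i ≤ ∏ i ∈ t, f i := by
  rw [← prod_sdiff hst]
  have h1 := one_le_prod_real (t \ s) f fun i hi => h i (mem_sdiff.1 hi).1
  have h2 := one_le_prod_real s f fun i hi => h i (hst hi)
  nlinarith

theorem prod_biUnion_le' {ι : Type} (s : Finset ι) (t : ι → Finset ℕ) (f : ℕ → ℝ)
    (h : ∀ j ∈ s, ∀ i ∈ t j, 1 ≤ f i) : ∏ i ∈ s.biUnion t, f i ≤ ∏ j ∈ s, ∏ i ∈ t j, f i := by
  induction s using Finset.induction_on with
  | empty => simp
  | insert a s ha ih =>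
    rw [biUnion_insert, prod_insert ha]
    have h1 := ih fun j hj => h j (mem_insert_of_mem hj)
    have hB : ∀ i ∈ s.biUnion t, 1 ≤ f i := by
      intro i hi
      rw [mem_biUnion] at hi
      obtain ⟨j, hj, hi⟩ := hi
      exact h j (mem_insert_of_mem hj) i hi
    have hA : ∀ i ∈ t a, 1 ≤ f i := fun i hi => h a (mem_insert_self _ _) i hi
    have h2 : ∏ i ∈ t a ∪ s.biUnion t, f i ≤ (∏ i ∈ t a, f i) * ∏ i ∈ s.biUnion t, f i := by
      rw [← prod_union_inter]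
      have h3 := one_le_prod_real (t a ∩ s.biUnion t) f fun i hi => hA i (mem_inter.1 hi).1
      have h4 := one_le_prod_real (t a ∪ s.biUnion t) f fun i hi => by
        rcases mem_union.1 hi with h5 | h5
        · exact hA i h5
        · exact hB i h5
      nlinarith
    refine h2.trans (mul_le_mul_of_nonneg_left h1 ?_)
    exact zero_le_one.trans (one_le_prod_real _ _ hA)

theorem inv_ge_one {p : ℕ} (hp : p.Prime) : (1 : ℝ) ≤ (1 - 1 / (p : ℝ))⁻¹ := by
  have h1 := one_sub_inv_pos hp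
  rw [one_le_inv₀ h1]
  have : 0 < 1 / (p : ℝ) := by
    have : (0 : ℝ) < p := by exact_mod_cast hp.pos
    positivity
  linarith

theorem prod_inv_primeFactors (n : ℕ) (hn : n ≠ 0) :
    ∏ p ∈ n.primeFactors, (1 - 1 / (p : ℝ))⁻¹ = (n : ℝ) / n.totient := by
  have h1 : ((n.totient : ℚ) : ℝ) = ((n * ∏ p ∈ n.primeFactors, (1 - (p : ℚ)⁻¹) : ℚ) : ℝ) := by
    rw [Nat.totient_eq_mul_prod_factors]
  push_cast at h1
  rw [h1, prod_inv_distrib]
  have hn0 : (n : ℝ) ≠ 0 := by exact_mod_cast hn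
  have h2 : ∏ p ∈ n.primeFactors, (1 - 1 / (p : ℝ)) = ∏ p ∈ n.primeFactors, (1 - ((p : ℝ))⁻¹) := by
    apply prod_congr rfl
    intro p _
    rw [one_div]
  rw [h2, div_mul_eq_div_div, div_self hn0, one_div]

/-- the product over the small primes -/
theorem prodZ (K : ℕ) (τ : Fin K → ℤ) (P Sm : Finset ℕ) (hPS : P ⊆ Sm) (hSm : ∀ p ∈ Sm, p.Prime) (C₀ : ℝ)
    (hC : ∑ p ∈ Sm \ P, (1 : ℝ) / p ≤ C₀) (z : ℤ) (hz : ∀ j, z ≠ τ j) :
    ∏ p ∈ P, (if ∀ j, ¬ (p : ℤ) ∣ z - τ j then 1 - 1 / (p : ℝ) else 1) ≤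
      (∏ p ∈ Sm, (1 - 1 / (p : ℝ))) * Real.exp (2 * C₀) *
        ∏ j, (((z - τ j).natAbs : ℝ) / ((z - τ j).natAbs.totient : ℝ)) := by
  have hpos : ∀ p ∈ Sm, 0 < 1 - 1 / (p : ℝ) := fun p hp => one_sub_inv_pos (hSm p hp)
  have h1 : ∏ p ∈ P, (if ∀ j, ¬ (p : ℤ) ∣ z - τ j then 1 - 1 / (p : ℝ) else 1) =
      (∏ p ∈ P, (1 - 1 / (p : ℝ))) *
        ∏ p ∈ P.filter (fun p : ℕ => ¬ ∀ j, ¬ (p : ℤ) ∣ z - τ j), (1 - 1 / (p : ℝ))⁻¹ := by
    rw [prod_filter, ← prod_mul_distrib]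
    apply prod_congr rfl
    intro p hp
    have h2 := (hpos p (hPS hp)).ne'
    by_cases h3 : ∀ j, ¬ (p : ℤ) ∣ z - τ j
    · rw [if_pos h3, if_neg (fun h => h h3), mul_one]
    · rw [if_neg h3, if_pos h3, mul_inv_cancel₀ h2]
  have h2 : ∏ p ∈ P, (1 - 1 / (p : ℝ)) ≤ (∏ p ∈ Sm, (1 - 1 / (p : ℝ))) * Real.exp (2 * C₀) := by
    have h3 := inv_prod_le (Sm \ P) (fun q hq => hSm q (mem_sdiff.1 hq).1) C₀ hC
    rw [← prod_sdiff hPS]
    have h4 : 0 < ∏ p ∈ Sm \ P, (1 - 1 / (p : ℝ)) := prod_pos fun p hp => hpos p (mem_sdiff.1 hp).1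
    have h5 : 0 < ∏ p ∈ P, (1 - 1 / (p : ℝ)) := prod_pos fun p hp => hpos p (hPS hp)
    rw [prod_inv_distrib] at h3
    have h6 : 1 ≤ (∏ p ∈ Sm \ P, (1 - 1 / (p : ℝ))) * Real.exp (2 * C₀) := by
      rw [inv_le_comm₀ h4 (Real.exp_pos _)] at h3
      rw [← div_le_iff₀ (Real.exp_pos _), one_div]
      exact h3
    calc ∏ p ∈ P, (1 - 1 / (p : ℝ)) = 1 * ∏ p ∈ P, (1 - 1 / (p : ℝ)) := (one_mul _).symm
      _ ≤ ((∏ p ∈ Sm \ P, (1 - 1 / (p : ℝ))) * Real.exp (2 * C₀)) * ∏ p ∈ P, (1 - 1 / (p : ℝ)) :=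
        mul_le_mul_of_nonneg_right h6 h5.le
      _ = _ := by ring
  have h3 : ∏ p ∈ P.filter (fun p : ℕ => ¬ ∀ j, ¬ (p : ℤ) ∣ z - τ j), (1 - 1 / (p : ℝ))⁻¹ ≤
      ∏ j, (((z - τ j).natAbs : ℝ) / ((z - τ j).natAbs.totient : ℝ)) := by
    have h4 : P.filter (fun p : ℕ => ¬ ∀ j, ¬ (p : ℤ) ∣ z - τ j) ⊆
        (univ : Finset (Fin K)).biUnion (fun j => (z - τ j).natAbs.primeFactors) := by
      intro p hp
      rw [mem_filter] at hp
      push Not at hp
      obtain ⟨hp1, j, hj⟩ := hp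
      rw [mem_biUnion]
      refine ⟨j, mem_univ _, ?_⟩
      rw [Nat.mem_primeFactors]
      exact ⟨hSm p (hPS hp1), Int.natCast_dvd.1 hj, Int.natAbs_ne_zero.2 (sub_ne_zero.2 (hz j))⟩
    refine (prod_mono_real h4 _ ?_).trans ?_
    · intro p hp
      rw [mem_biUnion] at hp
      obtain ⟨j, _, hp⟩ := hp
      exact inv_ge_one (Nat.prime_of_mem_primeFactors hp)
    · refine (prod_biUnion_le' _ _ _ ?_).trans (le_of_eq ?_)
      · intro j _ p hp
        exact inv_ge_one (Nat.prime_of_mem_primeFactors hp)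
      · apply prod_congr rfl
        intro j _
        exact prod_inv_primeFactors _ (Int.natAbs_ne_zero.2 (sub_ne_zero.2 (hz j)))
  rw [h1]
  apply mul_le_mul h2 h3
  · apply prod_nonneg
    intro p hp
    exact (inv_pos.2 (hpos p (hPS (mem_filter.1 hp).1))).le
  · have : 0 < ∏ p ∈ Sm, (1 - 1 / (p : ℝ)) := prod_pos hpos
    positivity

end Pool.Agent.TH101.RG
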