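import Pool.Agent.TH101.RG.CovZ

set_option autoImplicit false
set_option maxHeartbeats 4000000

/-! # The covering of an arbitrary set of bounded weight -/

namespace Pool.Agent.TH101.RG

open Finset Filter Pool.Agent.H398R2.RK
open Pool.Agent.H378R2
open Pool.Agent.H378R2.PS (V1)
open Pool.Agent.H318R2.Cr (cz_bounds Pz one_sub_inv_pos)
open Pool.Agent.H312R2.RG (cov_ev ev_ff)
open Pool.Agent.H256R2.SC (ff)

open scoped Classical

theorem v1facts : ∀ᶠ y : ℝ in atTop, 100 ≤ Real.log y ∧ (Real.log y) ^ 4 ≤ Real.exp (V1 y) ∧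
    V1 y ≤ Real.log y := by
  have t1 := Real.tendsto_log_atTop
  have t2 : Tendsto (fun y : ℝ => Real.log (Real.log y)) atTop atTop := t1.comp t1
  have t3 : Tendsto (fun y : ℝ => Real.log (Real.log (Real.log y))) atTop atTop := t1.comp t2
  obtain ⟨t₀, hev⟩ := ev_surv
  filter_upwards [t1.eventually_ge_atTop 100, t2.eventually_ge_atTop t₀, t3.eventually_ge_atTop 4] with y h1 h2 h3
  obtain ⟨g1, g2, g3, g4, g5, g6⟩ := hev _ h2
  set τ := Real.log (Real.log y) with hτ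
  have hly : 0 < Real.log y := by linarith
  have hLe : Real.log y = Real.exp τ := by rw [hτ, Real.exp_log hly]
  have hτ0 : 0 < τ := by linarith
  refine ⟨h1, ?_, ?_⟩
  · have h4 : 4 * τ ≤ V1 y := by
      unfold V1
      rw [← hτ, le_div_iff₀ (by positivity), hLe]
      have : 20 * τ ^ 2 * Real.log τ ≤ Real.exp τ * Real.log τ := by gcongr
      nlinarith
    calc (Real.log y) ^ 4 = Real.exp (4 * τ) := by
          rw [hLe, ← Real.exp_nat_mul]; norm_num
      _ ≤ _ := Real.exp_le_exp.2 h4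
  · unfold V1
    rw [← hτ, div_le_iff₀ (by positivity)]
    have : Real.log y * Real.log τ ≤ Real.log y * (20 * τ) := by
      apply mul_le_mul_of_nonneg_left _ hly.le
      linarith
    linarith

/-- the weight of `z` with respect to the excluded points `τ j` -/
noncomputable def wZ {K : ℕ} (τ : Fin K → ℤ) (z : ℤ) : ℝ :=
  ∏ j, (((z - τ j).natAbs : ℝ) / ((z - τ j).natAbs.totient : ℝ))

theorem wZ_nonneg {K : ℕ} (τ : Fin K → ℤ) (z : ℤ) : 0 ≤ wZ τ z :=
  prod_nonneg fun j _ => by positivity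

/-- the covering -/
theorem covZ (K A D : ℕ) (A0 : ℝ) (c₃ : ℝ) (hc₃ : 0 < c₃) : ∃ c : ℝ, 0 < c ∧
    ∀ᶠ X : ℝ in atTop, ∀ (ps : ℕ) (S : Finset ℕ), GoodS X S → ∀ (g : ℕ), g ≠ 0 →
    ∑ p ∈ g.primeFactors, (1 : ℝ) / p ≤ A0 → (g : ℝ) ≤ (Real.log X) ^ D →
    ∀ (τ : Fin K → ℤ) (v : ℕ → ℤ), (∀ j, |(τ j : ℝ)| ≤ (Real.log X) ^ D) →
    (∀ p, p.Prime → p ≤ yy X → ¬ p ∣ g → ∀ j, ¬ (p : ℤ) ∣ v p - τ j) →
    ∀ Z : Finset ℤ, (∀ z ∈ Z, |(z : ℝ)| ≤ Real.log X * (Real.log (Real.log X)) ^ A) →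
    (∀ z ∈ Z, ∀ j, z ≠ τ j) → ∑ z ∈ Z, wZ τ z ≤ c * ff X →
    ∃ (β : ℕ → ℤ) (U0 : Finset ℤ), U0 ⊆ Z ∧ (U0.card : ℝ) ≤ c₃ * Real.log X ∧
      (∀ p ∈ PW X S ps, ¬ p ∣ g → ∀ j, ¬ (p : ℤ) ∣ β p - τ j) ∧
      ∀ z ∈ Z, z ∉ U0 → ∃ p ∈ PW X S ps, ¬ p ∣ g ∧ (p : ℤ) ∣ z - β p := by
  obtain ⟨Cs, hCs, y₀, hsh⟩ := shiftZ K (A + 2) 8 (by norm_num)
  obtain ⟨c₁, c₂, hc₁, hc₁₂, hV⟩ := cz_bounds
  have hc₂ : 0 < c₂ := hc₁.trans_le hc₁₂
  obtain ⟨A₀, hev⟩ := cov_ev (1 / 10) (by norm_num)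
  obtain ⟨y₃, hv⟩ := eventually_atTop.1 v1facts
  set Q : ℝ := Cs * (2 * c₂) * Real.exp (2 * (A0 + 2)) * 160 with hQ
  have hQ0 : 0 < Q := by positivity
  refine ⟨c₃ / Q, by positivity, ?_⟩
  have t1 := Real.tendsto_log_atTop
  have t2 : Tendsto (fun y : ℝ => Real.log (Real.log y)) atTop atTop := t1.comp t1
  filter_upwards [t2.eventually_ge_atTop A₀, t1.eventually_ge_atTop (2000 * (|y₀| + 2)),
    t1.eventually_ge_atTop (2000 * (|y₃| + 2)),
    t2.eventually_ge_atTop (8 * (D + 2) + 8 * K), t2.eventually_ge_atTop (8000 * 2 ^ A),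
    ev_ff 1 one_pos, eventually_gt_atTop 0,
    t2.eventually (Pool.Agent.H378R2.ev_pow_exp A 1 2 one_pos)] with X e1 e2 e4 e5 e5' e6 hX0 e7
  intro ps S hS g hg0 hgS hgD τ v hτD hvτ Z hZX hZτ hZw
  set T := Real.log X with hT
  have hT0 : 0 < T := by
    have : (0 : ℝ) ≤ |y₀| := abs_nonneg _
    linarith
  set A' := Real.log T with hA
  obtain ⟨a1, a2, a3, a4, a5, a6, a7, a8, a9⟩ := hev A' e1
  have hTe : T = Real.exp A' := by rw [hA, Real.exp_log hT0]
  set B := Real.log A' with hB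
  set D' := Real.log B with hD
  have hff : ff X = T * A' ^ 2 * D' / B ^ 2 := by
    unfold Pool.Agent.H256R2.SC.ff
    rfl
  have hA0' : 0 < A' := by linarith
  have hB0 : 0 < B := by linarith
  have hD0 : 0 < D' := by linarith
  -- y
  set y := yy X with hy
  have hyT : (y : ℝ) ≤ T / 1000 := Nat.floor_le (by positivity)
  have hyT2 : T / 2000 ≤ y := by
    have h1 : T / 1000 < (y : ℝ) + 1 := Nat.lt_floor_add_one _
    have h2 : 1 ≤ T / 2000 := by
      rw [le_div_iff₀ (by norm_num), hTe]; linarith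
    linarith [show T / 1000 = T / 2000 + T / 2000 by ring]
  have hyy0 : y₀ ≤ y := by
    have := le_abs_self y₀
    linarith
  have hyy3 : y₃ ≤ y := by
    have := le_abs_self y₃
    linarith
  obtain ⟨hv1, hv2, hv3⟩ := hv y hyy3
  have hy0 : (0 : ℝ) < y := by
    have : (0 : ℝ) ≤ |y₀| := abs_nonneg _
    linarith
  have hly1 : Real.log y ≤ A' := by
    rw [hA]; apply Real.log_le_log hy0; linarith
  have hly2 : A' / 2 ≤ Real.log y := by
    have h1 : Real.log (T / 2000) ≤ Real.log y := Real.log_le_log (by positivity) hyT2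
    rw [Real.log_div hT0.ne' (by norm_num)] at h1
    linarith
  have hly0 : 0 < Real.log y := by linarith
  have hl2y1 : Real.log (Real.log y) ≤ B := Real.log_le_log hly0 hly1
  have hl2y2 : B / 2 ≤ Real.log (Real.log y) := by
    have h1 : Real.log (A' / 2) ≤ Real.log (Real.log y) := Real.log_le_log (by positivity) hly2
    rw [Real.log_div hA0'.ne' (by norm_num)] at h1
    linarith
  have hl2y0 : 0 < Real.log (Real.log y) := by linarith
  have hl3y2 : D' / 2 ≤ Real.log (Real.log (Real.log y)) := by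
    have h1 : Real.log (B / 2) ≤ Real.log (Real.log (Real.log y)) := Real.log_le_log (by positivity) hl2y2
    rw [Real.log_div hB0.ne' (by norm_num)] at h1
    linarith
  have hl3y0 : 0 < Real.log (Real.log (Real.log y)) := by linarith
  have hl2one : 1 ≤ Real.log (Real.log y) := by
    have h1 := Real.log_le_sub_one_of_pos hl2y0
    by_contra hcon
    push Not at hcon
    linarith
  -- the range of the shifts
  set W : ℕ := ⌊(y : ℝ) * (Real.log y) ^ (A + 2) / 2⌋₊ with hW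
  have hWle : 2 * (W : ℝ) ≤ y * (Real.log y) ^ (A + 2) := by
    have h1 : (W : ℝ) ≤ (y : ℝ) * (Real.log y) ^ (A + 2) / 2 := Nat.floor_le (by positivity)
    linarith
  have hlyA : 4000 * 2 ^ A ≤ Real.log y := by linarith
  have hly1' : 1 ≤ Real.log y := by linarith
  have hbig : T * A' ^ A ≤ (y : ℝ) * (Real.log y) ^ (A + 2) / 2 := by
    have h1 : A' ^ A ≤ (2 * Real.log y) ^ A := pow_le_pow_left₀ hA0'.le (by linarith) A
    have h2 : T ≤ 2000 * y := by linarith
    calc T * A' ^ A ≤ (2000 * y) * (2 * Real.log y) ^ A := by gcongr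
      _ = (4000 * 2 ^ A) * (y * (Real.log y) ^ A) / 2 := by rw [mul_pow]; ring
      _ ≤ (Real.log y * Real.log y) * (y * (Real.log y) ^ A) / 2 := by
          apply div_le_div_of_nonneg_right _ (by norm_num)
          apply mul_le_mul_of_nonneg_right _ (by positivity)
          exact hlyA.trans (le_mul_of_one_le_left hly0.le hly1')
      _ = _ := by ring
  have hyW : y ≤ W := by
    apply Nat.le_floor
    have h1 : (2 : ℝ) ≤ (Real.log y) ^ (A + 2) := by
      calc (2 : ℝ) ≤ Real.log y := by linarith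
        _ = (Real.log y) ^ 1 := (pow_one _).symm
        _ ≤ _ := pow_le_pow_right₀ hly1' (by omega)
    have h2 := mul_le_mul_of_nonneg_left h1 hy0.le
    linarith
  have hZW : ∀ z ∈ Z, z.natAbs ≤ W := by
    intro z hz
    apply Nat.le_floor
    have h1 : ((z.natAbs : ℕ) : ℝ) = |(z : ℝ)| := by rw [Nat.cast_natAbs, Int.cast_abs]
    rw [h1]
    exact (hZX z hz).trans hbig
  -- the set F
  set F : Finset ℕ := (Icc 1 y).filter (fun p : ℕ => p.Prime ∧ (p ∈ S ∨ p = ps ∨ p ∣ g)) with hF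
  have hFmem : ∀ p : ℕ, p ∈ F ↔ (p ≤ y ∧ p.Prime ∧ (p ∈ S ∨ p = ps ∨ p ∣ g)) := by
    intro p
    rw [hF, mem_filter, mem_Icc]
    constructor
    · rintro ⟨⟨_, h1⟩, h2⟩; exact ⟨h1, h2⟩
    · rintro ⟨h1, h2⟩; exact ⟨⟨h2.1.pos, h1⟩, h2⟩
  have hFp : ∀ q ∈ F, q.Prime := fun q hq => ((hFmem q).1 hq).2.1
  have hpos : ∀ i : ℕ, 0 ≤ (1 : ℝ) / (i : ℝ) := fun i => by positivity
  set Ps : Finset ℕ := if ps.Prime then {ps} else ∅ with hPs
  have hPs2 : ∀ q ∈ Ps, q = ps ∧ ps.Prime := by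
    intro q hq
    rw [hPs] at hq
    split_ifs at hq with h
    · exact ⟨mem_singleton.1 hq, h⟩
    · simp at hq
  have hFsub : F ⊆ (S ∪ Ps) ∪ g.primeFactors := by
    intro p hp
    rw [hFmem] at hp
    obtain ⟨h1, h2, h3⟩ := hp
    rw [mem_union, mem_union]
    rcases h3 with h | h | h
    · exact Or.inl (Or.inl h)
    · left; right
      rw [hPs, ← h, if_pos h2]
      simp
    · right
      rw [Nat.mem_primeFactors]
      exact ⟨h2, h, hg0⟩
  have hSsum : ∑ q ∈ S, (1 : ℝ) / q ≤ 6 / A' ^ 2 := hS.2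
  have hA100 : 100 ≤ A' := by linarith
  have hFsum : ∑ q ∈ F, (1 : ℝ) / q ≤ A0 + 2 := by
    have h1 : ∑ q ∈ F, (1 : ℝ) / q ≤ (∑ q ∈ S, (1 : ℝ) / q + ∑ q ∈ Ps, (1 : ℝ) / q) +
        ∑ q ∈ g.primeFactors, (1 : ℝ) / q := by
      refine (sum_le_sum_of_subset_of_nonneg hFsub (fun i _ _ => hpos i)).trans ?_
      refine (sum_union_le' _ hpos).trans ?_
      apply add_le_add_left
      exact sum_union_le' _ hpos
    have h2 : ∑ q ∈ Ps, (1 : ℝ) / q ≤ 1 := by
      rw [hPs]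
      split_ifs with h
      · rw [sum_singleton, div_le_one (by exact_mod_cast h.pos)]
        exact_mod_cast h.one_lt.le
      · simp
    have h3 : ∑ q ∈ S, (1 : ℝ) / q ≤ 1 := by
      refine hSsum.trans ?_
      rw [div_le_one (by positivity)]
      nlinarith only [hA100]
    linarith
  have hl4 : 1 / (Real.log y) ^ 4 ≤ 1 / Real.log y := by
    apply one_div_le_one_div_of_le hly0
    calc Real.log y = (Real.log y) ^ 1 := (pow_one _).symm
      _ ≤ (Real.log y) ^ 4 := pow_le_pow_right₀ (by linarith) (by norm_num)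
  have hbigq : ∀ q : ℕ, 0 < q → V1 y < Real.log q → (1 : ℝ) / q ≤ 1 / (Real.log y) ^ 4 := by
    intro q hq0 hq
    have hq0' : (0 : ℝ) < q := by exact_mod_cast hq0
    have hV0' : Real.exp (-(V1 y)) ≤ 1 / (Real.log y) ^ 4 := by
      rw [Real.exp_neg, ← one_div]
      exact one_div_le_one_div_of_le (by positivity) hv2
    refine le_trans ?_ hV0'
    rw [Real.exp_neg, ← one_div]
    exact one_div_le_one_div_of_le (Real.exp_pos _) ((Real.lt_log_iff_exp_lt hq0').1 hq).le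
  -- few large prime factors
  have hfew : ∀ n : ℕ, 1 ≤ n → (n : ℝ) ≤ T ^ (D + 2) →
      ∑ q ∈ n.primeFactors.filter (fun q : ℕ => V1 y < Real.log q), (1 : ℝ) / q ≤ 1 / Real.log y := by
    intro n hn1 hnT
    have h4 : ∑ q ∈ n.primeFactors.filter (fun q : ℕ => V1 y < Real.log q), (1 : ℝ) / q ≤
        (n.primeFactors.filter (fun q : ℕ => V1 y < Real.log q)).card • (1 / (Real.log y) ^ 4) := by
      apply sum_le_card_nsmul
      intro q hq
      rw [mem_filter] at hq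
      exact hbigq q (Nat.prime_of_mem_primeFactors hq.1).pos hq.2
    rw [nsmul_eq_mul] at h4
    have h5 : ((n.primeFactors.filter (fun q : ℕ => V1 y < Real.log q)).card : ℝ) ≤ 2 * ((D + 2) * A') := by
      have h6 : ((n.primeFactors.filter (fun q : ℕ => V1 y < Real.log q)).card : ℝ) ≤
        (n.primeFactors.card : ℝ) := by exact_mod_cast card_le_card (filter_subset _ _)
      have h7 := card_primeFactors_le n hn1
      have h8 : Real.log (n : ℝ) ≤ (D + 2) * A' := by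
        have : Real.log (n : ℝ) ≤ Real.log (T ^ (D + 2)) :=
          Real.log_le_log (by exact_mod_cast hn1) hnT
        rw [Real.log_pow] at this
        push_cast at this
        exact this
      linarith
    have h6 : (0 : ℝ) ≤ 1 / (Real.log y) ^ 4 := by positivity
    refine h4.trans ((mul_le_mul_of_nonneg_right h5 h6).trans ?_)
    have h7 : A' ≤ 2 * Real.log y := by linarith
    have hK0 : (0 : ℝ) ≤ K := Nat.cast_nonneg K
    have hD4 : 4 * ((D : ℝ) + 2) ≤ Real.log y := by linarith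
    have hD0 : (0 : ℝ) ≤ D := Nat.cast_nonneg D
    rw [mul_one_div, div_le_div_iff₀ (by positivity) hly0, one_mul]
    calc 2 * (((D : ℝ) + 2) * A') * Real.log y ≤ 2 * ((D + 2) * (2 * Real.log y)) * Real.log y := by gcongr
      _ = 4 * (D + 2) * (Real.log y) ^ 2 := by ring
      _ ≤ Real.log y * (Real.log y) ^ 2 := by gcongr
      _ = (Real.log y) ^ 3 := by ring
      _ ≤ (Real.log y) ^ 4 := pow_le_pow_right₀ (by linarith) (by norm_num)
  have hT1 : 1 ≤ T := by linarith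
  have hFtail : ∑ q ∈ F.filter (fun q : ℕ => V1 y < Real.log q), (1 : ℝ) / q ≤ 8 / Real.log y := by
    have h1 : ∑ q ∈ F.filter (fun q : ℕ => V1 y < Real.log q), (1 : ℝ) / q ≤
        (∑ q ∈ S, (1 : ℝ) / q + ∑ q ∈ Ps.filter (fun q : ℕ => V1 y < Real.log q), (1 : ℝ) / q) +
        ∑ q ∈ g.primeFactors.filter (fun q : ℕ => V1 y < Real.log q), (1 : ℝ) / q := by
      have hsub : F.filter (fun q : ℕ => V1 y < Real.log q) ⊆
          (S ∪ Ps.filter (fun q : ℕ => V1 y < Real.log q)) ∪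
            g.primeFactors.filter (fun q : ℕ => V1 y < Real.log q) := by
        intro p hp
        rw [mem_filter] at hp
        have h2 := hFsub hp.1
        rw [mem_union, mem_union] at h2
        rw [mem_union, mem_union, mem_filter, mem_filter]
        rcases h2 with (h | h) | h
        · exact Or.inl (Or.inl h)
        · exact Or.inl (Or.inr ⟨h, hp.2⟩)
        · exact Or.inr ⟨h, hp.2⟩
      refine (sum_le_sum_of_subset_of_nonneg hsub (fun i _ _ => hpos i)).trans ?_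
      refine (sum_union_le' _ hpos).trans ?_
      apply add_le_add_left
      exact sum_union_le' _ hpos
    have h2 : ∑ q ∈ Ps.filter (fun q : ℕ => V1 y < Real.log q), (1 : ℝ) / q ≤ 1 / Real.log y := by
      refine le_trans ?_ hl4
      have h3 : (Ps.filter (fun q : ℕ => V1 y < Real.log q)).card ≤ 1 := by
        refine (card_le_card (filter_subset _ _)).trans ?_
        rw [hPs]
        split_ifs <;> simp
      have h4 : ∑ q ∈ Ps.filter (fun q : ℕ => V1 y < Real.log q), (1 : ℝ) / q ≤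
          (Ps.filter (fun q : ℕ => V1 y < Real.log q)).card • (1 / (Real.log y) ^ 4) := by
        apply sum_le_card_nsmul
        intro q hq
        rw [mem_filter] at hq
        obtain ⟨h5, h6⟩ := hPs2 q hq.1
        exact hbigq q (by rw [h5]; exact h6.pos) hq.2
      rw [nsmul_eq_mul] at h4
      have h5 : ((Ps.filter (fun q : ℕ => V1 y < Real.log q)).card : ℝ) ≤ 1 := by exact_mod_cast h3
      have h6 : 0 ≤ 1 / (Real.log y) ^ 4 := by positivity
      exact h4.trans (mul_le_of_le_one_left h6 h5)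
    have h3 := hfew g (Nat.pos_of_ne_zero hg0) (hgD.trans (pow_le_pow_right₀ hT1 (by omega)))
    have h4 : ∑ q ∈ S, (1 : ℝ) / q ≤ 6 / Real.log y := by
      refine hSsum.trans ?_
      apply div_le_div_of_nonneg_left (by norm_num) hly0
      exact hly1.trans (by rw [sq]; exact le_mul_of_one_le_left hA0'.le a1)
    have h6 : 8 / Real.log y = 6 / Real.log y + 1 / Real.log y + 1 / Real.log y := by ring
    linarith
  have hZt : ∀ z ∈ Z, ∀ j, ∑ q ∈ (z - τ j).natAbs.primeFactors.filter (fun q : ℕ => V1 y < Real.log q),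
      (1 : ℝ) / q ≤ 8 / Real.log y := by
    intro z hz j
    have hne : (z - τ j).natAbs ≠ 0 := Int.natAbs_ne_zero.2 (sub_ne_zero.2 (hZτ z hz j))
    refine (hfew _ (Nat.pos_of_ne_zero hne) ?_).trans ?_
    · have h1 : (((z - τ j).natAbs : ℕ) : ℝ) = |((z - τ j : ℤ) : ℝ)| := by rw [Nat.cast_natAbs, Int.cast_abs]
      rw [h1]
      push_cast
      refine (abs_sub _ _).trans ?_
      have h2 := hZX z hz
      have h3 := hτD j
      have h4 : T * A' ^ A ≤ T ^ 2 / 2 := by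
        rw [one_mul, ← hTe] at e7
        have h5 := mul_le_mul_of_nonneg_left e7 hT0.le
        linarith only [h5]
      have h5 : T ^ D ≤ T ^ (D + 2) / 2 := by
        rw [pow_add]
        have : 0 < T ^ D := by positivity
        have h6 : 2 ≤ T ^ 2 := by
          rw [sq]
          exact (by linarith : (2 : ℝ) ≤ T).trans (le_mul_of_one_le_left hT0.le hT1)
        have h7 := mul_le_mul_of_nonneg_left h6 this.le
        linarith only [h7]
      have h6 : T ^ 2 ≤ T ^ (D + 2) := pow_le_pow_right₀ hT1 (by omega)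
      linarith
    · apply div_le_div_of_nonneg_right (by norm_num) hly0.le
  obtain ⟨s, hsW, hs⟩ := hsh y hyy0 hl2one hly1' W hyW hWle F hFp hFtail τ Z hZW hZτ hZt (wZ τ) (wZ_nonneg τ)
  set Z₁ : Finset ℤ := Z.filter (fun z => ∀ p : ℕ, p.Prime → V1 y < Real.log p → p ≤ y → p ∉ F →
      (∀ j, ¬ (p : ℤ) ∣ s - τ j) → ¬ (p : ℤ) ∣ z - s) with hZ₁
  -- the small primes
  set N : ℕ := ⌊Real.exp (V1 y)⌋₊ with hN
  set P : Finset ℕ := (Icc 1 y).filter (fun p : ℕ => p.Prime ∧ Real.log p ≤ V1 y ∧ p ∉ F) with hP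
  have hPmem : ∀ p ∈ P, p ≤ y ∧ p.Prime ∧ Real.log p ≤ V1 y ∧ p ∉ F := by
    intro p hp
    rw [hP, mem_filter, mem_Icc] at hp
    exact ⟨hp.1.2, hp.2⟩
  have hng : ∀ p, p ≤ y → p.Prime → p ∉ F → ¬ p ∣ g := fun p h1 h2 h3 h4 =>
    h3 ((hFmem p).2 ⟨h1, h2, Or.inr (Or.inr h4)⟩)
  obtain ⟨βg, hβ1, hβ2⟩ := greedyZ K τ v P (fun p hp => (hPmem p hp).2.1)
    (fun p hp j => hvτ p (hPmem p hp).2.1 (hPmem p hp).1 (hng p (hPmem p hp).1 (hPmem p hp).2.1 (hPmem p hp).2.2.2) j)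
    Z₁
  have hPz : ∀ p ∈ Pz N, p.Prime := by
    intro p hp
    unfold Pool.Agent.H318R2.Cr.Pz at hp
    exact (mem_filter.1 hp).2
  have hPS : P ⊆ Pz N := by
    intro p hp
    obtain ⟨h1, h2, h3, h4⟩ := hPmem p hp
    unfold Pool.Agent.H318R2.Cr.Pz
    rw [mem_filter, mem_Ioc]
    refine ⟨⟨h2.pos, ?_⟩, h2⟩
    apply Nat.le_floor
    rw [← Real.log_le_iff_le_exp (by exact_mod_cast h2.pos)]
    exact h3
  have hdiff : ∑ p ∈ Pz N \ P, (1 : ℝ) / p ≤ A0 + 2 := by
    refine (sum_le_sum_of_subset_of_nonneg ?_ (fun i _ _ => hpos i)).trans hFsum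
    intro p hp
    obtain ⟨h1, h2⟩ := Finset.mem_sdiff.1 hp
    have hpp := hPz p h1
    unfold Pool.Agent.H318R2.Cr.Pz at h1
    rw [mem_filter, mem_Ioc] at h1
    have hp0 : (0 : ℝ) < p := by exact_mod_cast hpp.pos
    have h3 : (p : ℝ) ≤ Real.exp (V1 y) := (Nat.le_floor_iff (Real.exp_pos _).le).1 h1.1.2
    have h4 : Real.log p ≤ V1 y := (Real.log_le_iff_le_exp hp0).2 h3
    have h5 : p ≤ y := by
      have h6 : (p : ℝ) ≤ y := by
        rw [← Real.exp_log hp0, ← Real.exp_log hy0]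
        exact Real.exp_le_exp.2 (h4.trans hv3)
      exact_mod_cast h6
    by_contra hcon
    apply h2
    rw [hP, mem_filter, mem_Icc]
    exact ⟨⟨hpp.pos, h5⟩, hpp, h4, hcon⟩
  have hV1pos : 0 < V1 y := by
    unfold Pool.Agent.H378R2.PS.V1
    positivity
  have hexp2 : 4 ≤ Real.exp (V1 y) := by
    refine le_trans ?_ hv2
    have : (100 : ℝ) ^ 4 ≤ (Real.log y) ^ 4 := pow_le_pow_left₀ (by norm_num) hv1 4
    linarith [show (4 : ℝ) ≤ 100 ^ 4 by norm_num]
  have hN2 : 2 ≤ N := by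
    apply Nat.le_floor
    push_cast
    linarith
  have hlogN : V1 y / 2 ≤ Real.log N := by
    have h7 : Real.exp (V1 y) < N + 1 := Nat.lt_floor_add_one _
    have h8 : (2 : ℝ) ≤ N := by exact_mod_cast hN2
    have h9 : Real.exp (V1 y) ≤ (N : ℝ) ^ 2 := by nlinarith only [h7, h8]
    have h10 := Real.log_le_log (Real.exp_pos _) h9
    rw [Real.log_exp, Real.log_pow] at h10
    push_cast at h10; linarith
  have hprod : ∏ p ∈ Pz N, (1 - 1 / (p : ℝ)) ≤ 2 * c₂ / V1 y := by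
    have h1 := (hV N hN2).2
    unfold Pool.Agent.H318R2.Cr.V at h1
    have h2 : 0 < Real.log N := by linarith
    rw [← le_div_iff₀ h2] at h1
    refine h1.trans ?_
    rw [div_le_div_iff₀ h2 hV1pos]
    have h3 := mul_le_mul_of_nonneg_left hlogN hc₂.le
    linarith only [h3]
  set U0 : Finset ℤ := Z₁.filter (fun z => ∀ p ∈ P, ¬ (p : ℤ) ∣ z - βg p) with hU0
  have hUc : (U0.card : ℝ) ≤ c₃ * T := by
    have h1 : (U0.card : ℝ) ≤ ∑ z ∈ Z₁, (2 * c₂ / V1 y) * Real.exp (2 * (A0 + 2)) * wZ τ z := by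
      refine hβ2.trans (sum_le_sum fun z hz => ?_)
      refine (prodZ K τ P (Pz N) hPS hPz (A0 + 2) hdiff z (hZτ z (mem_filter.1 hz).1)).trans ?_
      apply mul_le_mul_of_nonneg_right _ (wZ_nonneg τ z)
      exact mul_le_mul_of_nonneg_right hprod (Real.exp_pos _).le
    rw [← mul_sum] at h1
    have h2 : ∑ z ∈ Z₁, wZ τ z ≤ Cs * (Real.log (Real.log y) / Real.log y) * (c₃ / Q * ff X) :=
      hs.trans (mul_le_mul_of_nonneg_left hZw (by positivity))
    have hffn : 0 ≤ ff X := by rw [hff]; positivity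
    calc (U0.card : ℝ) ≤ (2 * c₂ / V1 y) * Real.exp (2 * (A0 + 2)) *
          (Cs * (Real.log (Real.log y) / Real.log y) * (c₃ / Q * ff X)) :=
          h1.trans (mul_le_mul_of_nonneg_left h2 (by positivity))
      _ = (Cs * (2 * c₂) * Real.exp (2 * (A0 + 2)) * 20) * ((Real.log (Real.log y)) ^ 2 /
          ((Real.log y) ^ 2 * Real.log (Real.log (Real.log y)))) * (c₃ / Q * ff X) := by
          unfold Pool.Agent.H378R2.PS.V1
          field_simp
      _ ≤ (Cs * (2 * c₂) * Real.exp (2 * (A0 + 2)) * 20) * (B ^ 2 / ((A' / 2) ^ 2 * (D' / 2))) *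
          (c₃ / Q * ff X) := by gcongr
      _ = c₃ * T := by
          rw [hff, hQ]
          field_simp
          norm_num
  refine ⟨fun p => if V1 y < Real.log p then (if ∀ j, ¬ (p : ℤ) ∣ s - τ j then s else v p)
      else (if p ∈ P then βg p else v p), U0, (filter_subset _ _).trans (filter_subset _ _), hUc, ?_, ?_⟩
  · intro p hp hpg j
    have hpy := (mem_PW.1 hp).1
    have hpp := (mem_PW.1 hp).2.1
    show ¬ (p : ℤ) ∣ (if V1 y < Real.log p then (if ∀ j, ¬ (p : ℤ) ∣ s - τ j then (s : ℤ) else v p)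
      else (if p ∈ P then βg p else v p)) - τ j
    split_ifs with h1 h2 h3
    · exact h2 j
    · exact hvτ p hpp hpy hpg j
    · exact hβ1 p h3 j
    · exact hvτ p hpp hpy hpg j
  · intro z hz hzU
    by_cases hz1 : z ∈ Z₁
    · have h1 : ∃ p ∈ P, (p : ℤ) ∣ z - βg p := by
        by_contra hcon
        push Not at hcon
        exact hzU (mem_filter.2 ⟨hz1, hcon⟩)
      obtain ⟨p, hp, hpd⟩ := h1
      obtain ⟨g1, g2, g3, g4⟩ := hPmem p hp
      refine ⟨p, mem_PW.2 ⟨g1, g2, fun h => g4 ((hFmem p).2 ⟨g1, g2, Or.inl h⟩),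
        fun h => g4 ((hFmem p).2 ⟨g1, g2, Or.inr (Or.inl h)⟩)⟩, hng p g1 g2 g4, ?_⟩
      show (p : ℤ) ∣ z - (if V1 y < Real.log p then (if ∀ j, ¬ (p : ℤ) ∣ s - τ j then (s : ℤ) else v p)
        else (if p ∈ P then βg p else v p))
      rw [if_neg (not_lt.2 g3), if_pos hp]
      exact hpd
    · have h1 : ∃ p : ℕ, p.Prime ∧ V1 y < Real.log p ∧ p ≤ y ∧ p ∉ F ∧ (∀ j, ¬ (p : ℤ) ∣ s - τ j) ∧
          (p : ℤ) ∣ z - s := by
        by_contra hcon
        push Not at hcon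
        exact hz1 (mem_filter.2 ⟨hz, hcon⟩)
      obtain ⟨p, g2, g3, g1, g4, g5, g6⟩ := h1
      refine ⟨p, mem_PW.2 ⟨g1, g2, fun h => g4 ((hFmem p).2 ⟨g1, g2, Or.inl h⟩),
        fun h => g4 ((hFmem p).2 ⟨g1, g2, Or.inr (Or.inl h)⟩)⟩, hng p g1 g2 g4, ?_⟩
      show (p : ℤ) ∣ z - (if V1 y < Real.log p then (if ∀ j, ¬ (p : ℤ) ∣ s - τ j then (s : ℤ) else v p)
        else (if p ∈ P then βg p else v p))
      rw [if_pos g3, if_pos g5]
      exact g6

end Pool.Agent.TH101.RG
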