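import Pool.Agent.H362R2.RQ.Main
import Pool.Agent.H362R2.RQ.Fin

set_option autoImplicit false
set_option maxHeartbeats 4000000

/-! # The coloured Maynard-Tao theorem with general repelling weights

Adapted from `rq_of` of `Pool.Agent.H362R2.RQ.Main` (helper362): the tuple and the class of `n` are arbitrary. -/

open Finset Filter
open scoped ContDiff

namespace Pool.Agent.TH101.RG

open Pool.Agent.H378R2
open Pool.Agent.H312R2.RG
open Pool.Agent.H362R2.RQ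
open Pool.Agent.H398R2.PG (Et EE_sub_Et Et_res)
open Pool.Agent.H256R2.SC (ff)

/-- the engine: a coloured Maynard-Tao theorem with repelling weights `V`, `T` -/
theorem engine : ∃ η : ℝ, 0 < η ∧ ∀ m : ℕ, 1 ≤ m → ∃ K : ℕ, m ≤ K ∧ ∀ Z : ℕ, 4 ≤ Z → ∀ᶠ X : ℝ in atTop,
    ∀ (ps : ℕ) (S : Finset ℕ), GoodP Z ps → GoodS X S →
    ∀ t : Fin K → ℕ, Function.Injective t → (∀ j, (t j : ℝ) ≤ (Real.log X) ^ 2) →
    ∀ a0 : ℕ, (∀ j, (a0 + t j).Coprime (WW X S ps)) →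
    ∀ (V T : ℤ → ℝ) (Z₁ M M' M₂ : ℝ) (e₁ e₂ e₃ : ℕ → ℝ),
    (∀ a, 0 ≤ V a ∧ V a ≤ X ^ (1 / 100 : ℝ)) → (∀ a, 0 ≤ T a) →
    1 ≤ Z₁ → 3 / 4 * Z₁ ≤ M → M ≤ Z₁ → 3 / 4 * M ≤ M' → 0 ≤ M₂ → M₂ ≤ Z₁ / (Real.log X) ^ (K + 4) →
    (∀ q, 0 ≤ e₁ q ∧ 0 ≤ e₂ q ∧ 0 ≤ e₃ q) →
    ClassA X (WW X S ps) ps t V M e₁ → ClassA X (WW X S ps) ps t (fun a => V a * T a) M₂ e₂ →
    (∀ i, ClassB X (WW X S ps) ps t i V M' e₃) →
    tot K X (WW X S ps) ps e₁ ≤ Z₁ * (X / ((WW X S ps : ℝ) * (Real.log X) ^ (K + 4))) →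
    tot K X (WW X S ps) ps e₂ ≤ Z₁ * (X / ((WW X S ps : ℝ) * (Real.log X) ^ (K + 4))) →
    tot K X (WW X S ps) ps e₃ ≤ Z₁ * (X / ((WW X S ps : ℝ) * (Real.log X) ^ (K + 4))) →
    ∀ col : Fin K → Fin m, (∀ d, K ≤ 2 * m * fib col d) →
    ∀ bad : Finset ℕ, (bad.card : ℝ) ≤ X ^ (9 / 10 : ℝ) →
    ∃ n : ℕ, X < n ∧ (n : ℝ) ≤ 3 * X ∧ n ∉ bad ∧ n ≡ a0 [MOD WW X S ps] ∧ T n < 1 ∧
      ∃ D : Finset (Fin m), η * m ≤ D.card ∧ ∀ d ∈ D, ∃ j, col j = d ∧ (n + t j).Prime := by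
  classical
  have h5 := Pool.Agent.H378R2.sieveAsymp_holds
  have hg := gam_pos
  have hη := etaQ_pos gam hg
  have hkap := kap_pos
  refine ⟨etaQ gam, hη, ?_⟩
  intro m hm
  obtain ⟨K0, f, c, A, rho, s, hK0, hsm, hcs, hf0, hc, hA, hf1, hf00, hrho, hsr, hDD, hs0, hsle, hIpos, hIle, hJ⟩ :=
    familyQ m hm
  have hA1 : ∀ a ∈ A, ∑ j, c (a j) ≤ 1 := fun a ha => (hA a ha).trans (by norm_num)
  have hmr : (1 : ℝ) ≤ m := by exact_mod_cast hm
  have hmr0 : (0 : ℝ) < m := by linarith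
  have hKpos : (0 : ℝ) < ((K0 + 1 : ℕ) : ℝ) := by positivity
  obtain ⟨w, hwdef⟩ : ∃ w : ℝ, w = kap / (64 * gam ^ 2) := ⟨_, rfl⟩
  have hwpos : 0 < w := by rw [hwdef]; positivity
  obtain ⟨A0, hA0⟩ : ∃ A0 : ℝ, A0 = w * s / (m : ℝ) ^ 2 := ⟨_, rfl⟩
  have hA0pos : 0 < A0 := by rw [hA0]; positivity
  obtain ⟨ε1, hε1⟩ : ∃ ε1 : ℝ, ε1 = min (min (s ^ (K0 + 1)) (s ^ K0 * (m : ℝ) ^ 2 / 3))
    (s ^ (K0 + 1) * (4 * gam * (m : ℝ) ^ 2 / s) ^ 2) := ⟨_, rfl⟩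
  have hε1pos : 0 < ε1 := by
    rw [hε1]
    refine lt_min (lt_min ?_ ?_) ?_ <;> positivity
  have hε1a : ε1 ≤ s ^ (K0 + 1) := by rw [hε1]; exact (min_le_left _ _).trans (min_le_left _ _)
  have hε1b : ε1 ≤ s ^ K0 * (m : ℝ) ^ 2 / 3 := by rw [hε1]; exact (min_le_left _ _).trans (min_le_right _ _)
  have hε1c : ε1 ≤ s ^ (K0 + 1) * (4 * gam * (m : ℝ) ^ 2 / s) ^ 2 := by rw [hε1]; exact min_le_right _ _
  have hmK : m ≤ K0 + 1 := by
    rw [hK0]; exact (Nat.lt_two_pow_self).le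
  refine ⟨K0 + 1, hmK, ?_⟩
  obtain ⟨e0, he0⟩ : ∃ e0 : ℝ, e0 = etaQ gam * s ^ (K0 + 1) / 40 := ⟨_, rfl⟩
  have he0pos : 0 < e0 := by rw [he0]; positivity
  obtain ⟨C, hC⟩ : ∃ C : ℝ, C = m * A0 + m * A0 ^ 2 + etaQ gam * m + ((K0 + 1 : ℕ) : ℝ) := ⟨_, rfl⟩
  have hCpos : 0 < C := by rw [hC]; positivity
  have hη1 : 0 < e0 / (m * A0 + 1) := by positivity
  intro Z hZ4
  filter_upwards [S1_boundV h5 f c A hsm hcs hf0 hc hA1 hf1 ε1 hε1pos,
    S2_boundV h5 f c A hsm hcs hf0 hc hA1 hf1 ε1 hε1pos,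
    pair_boundV h5 f c rho s A hsm hcs hf0 hc hA hf1 hf00 hrho hsr hs0 hDD ε1 hε1pos,
    LPhi_ge, errRG (K0 + 1) A.card (e0 / (m * A0 + 1)) (Nat.cast_nonneg _) hη1,
    LL_tendsto.eventually_ge_atTop 1, eventually_ge_atTop 40,
    Et2_sub (K := K0 + 1), BE_Et2_ge (K0 + 1),
    ev_mainQ K0 (3 * C * (A.card : ℝ) ^ 2 / e0) (((K0 + 1 : ℕ) : ℝ) / etaQ gam),
    ev_ff 1 one_pos, Pool.Agent.H378R2.ev_pow_exp 2 (1 : ℝ) 1 one_pos |> Real.tendsto_log_atTop.eventually]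
    with X hS1 hS2 hPS hLP herr hL1 hX40 hEtsub hBEt hmain hff hlogX
  intro ps S hps hS t htinj htl a0 hcop V T Z₁ M M' M₂ e₁ e₂ e₃ hV hTnn hZ1 hM1 hMZ hM' hM₂0 hM₂le he hcA hcA2 hcB
    ht1 ht2 ht3 col hcol bad hbad
  have hWpos : 0 < WW X S ps := WW_pos X S ps
  have hWr : (0 : ℝ) < (WW X S ps : ℝ) := by exact_mod_cast hWpos
  have hXpos : 0 < X := by linarith
  have hlX : 1 ≤ Real.log X := hmain.2.2
  have htX : ∀ j, (t j : ℝ) ≤ X := by
    intro j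
    have h1 := htl j
    rw [one_mul, one_mul, Real.exp_log hXpos] at hlogX
    linarith
  -- the fibres
  have hfibp : ∀ d, 0 < fib col d := by
    intro d
    have h1 := hcol d
    by_contra h2
    have h3 : fib col d = 0 := by omega
    rw [h3] at h1
    omega
  have hfibA : ∀ d, A0 ≤ fib col d := by
    intro d
    have h1 : ((K0 + 1 : ℕ) : ℝ) ≤ 2 * m * (fib col d : ℝ) := by exact_mod_cast hcol d
    have h2 : A0 * (2 * m) ≤ ((K0 + 1 : ℕ) : ℝ) := by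
      rw [hK0]
      push_cast
      have h3 : A0 ≤ kap / (4 * gam * m) * 2 ^ m := by
        rw [hA0, hwdef]
        calc kap / (64 * gam ^ 2) * s / (m : ℝ) ^ 2 ≤ kap / (64 * gam ^ 2) * (16 * 2 ^ m * m * gam) / (m : ℝ) ^ 2 := by
              gcongr
          _ = _ := by field_simp; ring
      have hg1 := gam_ge
      calc A0 * (2 * m) ≤ kap / (4 * gam * m) * 2 ^ m * (2 * m) := by gcongr
        _ = (kap / (2 * gam)) * 2 ^ m := by field_simp; ring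
        _ ≤ 1 * 2 ^ m := by
            apply mul_le_mul_of_nonneg_right _ (by positivity)
            rw [div_le_one (by positivity)]
            have : kap ≤ 1 := by unfold kap; norm_num
            linarith
        _ = 2 ^ m := one_mul _
    have h3 : A0 * (2 * m) ≤ fib col d * (2 * m) := by linarith
    exact le_of_mul_le_mul_right h3 (by positivity)
  set E := Et X S ps t with hE
  have hEE : EE X S ps ⊆ E := EE_sub_Et X S ps t
  have hEsup : E ⊆ Esup X ps := hEtsub ps S t htl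
  have hres := Et_res (X := X) (S := S) (ps := ps) htinj
  have hMM : MPhi X / 400 ≤ LPhi X := by
    have := MPhi_le X (by linarith)
    linarith
  have hM0 : 0 ≤ M := by linarith
  have hM'0 : 0 ≤ M' := by linarith
  have hM₂s : ((K0 + 1 : ℕ) : ℝ) * M₂ ≤ etaQ gam * Z₁ := by
    have h1 : ((K0 + 1 : ℕ) : ℝ) * M₂ ≤ ((K0 + 1 : ℕ) : ℝ) * (Z₁ / (Real.log X) ^ (K0 + 5)) :=
      mul_le_mul_of_nonneg_left hM₂le hKpos.le
    refine h1.trans ?_
    have hlp : 0 < (Real.log X) ^ (K0 + 5) := by positivity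
    rw [mul_div_assoc', div_le_iff₀ hlp]
    have h2 := hmain.2.1
    rw [div_le_iff₀ hη] at h2
    have h3 := mul_le_mul_of_nonneg_right h2 (show (0 : ℝ) ≤ Z₁ by linarith)
    linarith
  have htotnn : ∀ e : ℕ → ℝ, (∀ q, 0 ≤ e q) → 0 ≤ tot (K0 + 1) X (WW X S ps) ps e := by
    intro e he'
    unfold tot
    exact Finset.sum_nonneg fun q _ => mul_nonneg (by positivity) (he' q)
  have herr1 := herr _ hWr (WW_le X (by linarith) S ps)
  have hmA : 0 < m * A0 + 1 := by positivity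
  have hpos := pos_atRQ K0 m m f c A s hf0 hA1 hf1 hIpos hIle hs0 hm hJ ε1 X hε1pos hε1a hε1b hε1c
    col hm hfibp w A0 hwdef hA0 ps a0 S t hX40 hL1 hMM
    E hEsup (hBEt Z ps S t hZ4 hps hS htl) V T Z₁ M M' M₂ _ _ _ hV hZ1 hM1 hMZ hM' hM₂0
    hM₂s (htotnn e₁ fun q => (he q).1) (htotnn e₂ fun q => (he q).2.1) (htotnn e₃ fun q => (he q).2.2)
    (hS1 Z ps S a0 t hps hS E hEE hEsup hres V M e₁ hM0 (fun q => (he q).1) hcA)
    (fun i => hS2 Z ps S a0 t hps hS E hEE hEsup hres htl hcop V M' (X ^ (1 / 100 : ℝ)) e₃ hM'0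
      (by positivity) (fun a => by rw [abs_of_nonneg (hV a).1]; exact (hV a).2) (fun q => (he q).2.2) i (hcB i))
    (fun i j hij => hPS i j hij Z ps S a0 t hps hS E hEE hEsup hres htX V M e₁ (fun a => (hV a).1) hM0
      (fun q => (he q).1) hcA)
    (hS1 Z ps S a0 t hps hS E hEE hEsup hres (fun a => V a * T a) M₂ e₂ hM₂0 (fun q => (he q).2.1) hcA2)
    (by
      rw [← hC, ← he0]
      exact tot_errQ K0 C _ e0 X (WW X S ps) Z₁ _ _ _ hCpos.le (sq_nonneg _) he0pos hXpos hWr hZ1 hlX hmain.1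
        ht1 ht2 ht3)
    (by
      rw [← he0]
      have h1 := mul_le_mul_of_nonneg_left herr1 hmA.le
      refine h1.trans (le_of_eq ?_)
      field_simp) bad hbad
  obtain ⟨n, hn, hnpos⟩ : ∃ n ∈ Icc 1 ⌊3 * X⌋₊, 0 < (nu X (WW X S ps) a0 n *
      sqw E X f A (fun j => (n : ℤ) + t j) ^ 2 * V n) *
      (QQn A0 col (fun i => thn X (n + t i)) - etaQ gam * m - ((K0 + 1 : ℕ) : ℝ) * T n -
      ((K0 + 1 : ℕ) : ℝ) * (if n ∈ bad then 1 else 0)) := by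
    by_contra hcon
    push Not at hcon
    exact absurd hpos (not_lt.2 (Finset.sum_nonpos hcon))
  have hWnn : 0 ≤ nu X (WW X S ps) a0 n * sqw E X f A (fun j => (n : ℤ) + t j) ^ 2 * V n :=
    mul_nonneg (mul_nonneg (nu_nonneg _ _ _ _) (sq_nonneg _)) (hV n).1
  have hWpos' : 0 < nu X (WW X S ps) a0 n * sqw E X f A (fun j => (n : ℤ) + t j) ^ 2 * V n := by
    rcases hWnn.eq_or_lt with h | h
    · rw [← h, zero_mul] at hnpos; exact absurd hnpos (lt_irrefl _)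
    · exact h
  have hBrpos := (mul_pos_iff_of_pos_left hWpos').1 hnpos
  have hnu : nu X (WW X S ps) a0 n ≠ 0 := by
    intro h
    rw [h, zero_mul, zero_mul] at hWpos'
    exact lt_irrefl _ hWpos'
  have hXn : X < n := by
    by_contra hle
    push Not at hle
    apply hnu
    unfold nu
    rw [Phi_eq_zero_of_le (by positivity) (by rw [div_le_one hXpos]; exact hle), ite_self]
  have hcl : n ≡ a0 [MOD WW X S ps] := by
    by_contra h
    apply hnu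
    unfold nu
    rw [if_neg h]
  have hn3 : (n : ℝ) ≤ 3 * X := by
    rw [Finset.mem_Icc] at hn
    exact (Nat.cast_le.2 hn.2).trans (Nat.floor_le (by linarith))
  have hyX : (yy X : ℝ) < X := by
    have h1 : (yy X : ℝ) ≤ Real.log X / 1000 := Nat.floor_le (by positivity)
    have h2 := Real.log_le_sub_one_of_pos hXpos
    linarith
  have hTn := hTnn n
  have hKT : 0 ≤ ((K0 + 1 : ℕ) : ℝ) * T n := by positivity
  have hKb : (0 : ℝ) ≤ ((K0 + 1 : ℕ) : ℝ) * (if n ∈ bad then 1 else 0) := by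
    split_ifs
    · rw [mul_one]; exact hKpos.le
    · rw [mul_zero]
  have hem : 0 < etaQ gam * m := by positivity
  have h0 : ∀ i, 0 ≤ thn X (n + t i) := fun i => thn_nonneg X (by linarith) _
  have h4X : ∀ i, ((n + t i : ℕ) : ℝ) ≤ 4 * X := by
    intro i
    push_cast
    have := htX i
    linarith
  have hQsum := QQn_le_sum A0 hA0pos.le col hfibA (fun i => thn X (n + t i)) h0
  have hsumle : ∑ i, thn X (n + t i) ≤ ((K0 + 1 : ℕ) : ℝ) := by
    refine (Finset.sum_le_sum fun i _ => thn_le_one X (by linarith) _ (h4X i)).trans ?_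
    rw [Finset.sum_const, Finset.card_univ, Fintype.card_fin, nsmul_eq_mul, mul_one]
  refine ⟨n, hXn, hn3, ?_, hcl, ?_, univ.filter (fun d => ∃ j, col j = d ∧ (n + t j).Prime), ?_, ?_⟩
  · intro hb
    rw [if_pos hb, mul_one] at hBrpos
    linarith
  · by_contra hT1
    push Not at hT1
    have h3 : ((K0 + 1 : ℕ) : ℝ) * 1 ≤ ((K0 + 1 : ℕ) : ℝ) * T n := mul_le_mul_of_nonneg_left hT1 hKpos.le
    linarith
  · have h1 := QQn_le A0 hA0pos.le col hfibA (fun i => thn X (n + t i)) h0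
      (fun i => thn_le_one X (by linarith) _ (h4X i)) (fun d => ∃ j, col j = d ∧ (n + t j).Prime) (by
        intro i hi
        refine ⟨i, rfl, ?_⟩
        by_contra hnp
        exact hi (thn_eq_zero X _ hnp))
    linarith
  · intro d hd
    exact (Finset.mem_filter.1 hd).2

end Pool.Agent.TH101.RG
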