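import Pool.Agent.TH101.RG.Main

set_option autoImplicit false
set_option maxHeartbeats 4000000

/-! # Record gaps around the rational multiples of linear images of primes -/

namespace Pool.Agent.TH101.RG

open Finset Filter
open Pool.Agent.H378R2
open Pool.Agent.H312R2.RG (ev_ff)
open Pool.Agent.H256R2.SC (ff)

open scoped Classical

theorem sum_inv_le_of_totient (n : ℕ) (hn : n ≠ 0) (A₀ : ℝ) (h : (n : ℝ) ≤ A₀ * (n.totient : ℝ)) :
    ∑ p ∈ n.primeFactors, (1 : ℝ) / p ≤ A₀ := by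
  have h1 : (n.totient : ℝ) = n * ∏ p ∈ n.primeFactors, (1 - (1 : ℝ) / p) := by
    have := Nat.totient_eq_mul_prod_factors n
    have h2 : ((n.totient : ℚ) : ℝ) = ((n * ∏ p ∈ n.primeFactors, (1 - (p : ℚ)⁻¹) : ℚ) : ℝ) := by rw [this]
    push_cast at h2
    rw [h2]
    simp only [one_div]
  have hn0 : (0 : ℝ) < n := by exact_mod_cast Nat.pos_of_ne_zero hn
  set P := ∏ p ∈ n.primeFactors, (1 - (1 : ℝ) / p) with hP
  set s := ∑ p ∈ n.primeFactors, (1 : ℝ) / p with hs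
  have hs0 : 0 ≤ s := sum_nonneg fun _ _ => by positivity
  have h2 : 1 ≤ A₀ * P := by
    rw [h1] at h
    have h3 : (n : ℝ) * 1 ≤ n * (A₀ * P) := by linarith
    exact le_of_mul_le_mul_left h3 hn0
  have hP0 : 0 ≤ P := by
    rw [hP]
    apply prod_nonneg
    intro p hp
    have : (2 : ℝ) ≤ p := by exact_mod_cast (Nat.prime_of_mem_primeFactors hp).two_le
    have : (1 : ℝ) / p ≤ 1 := by
      rw [div_le_one (by linarith)]
      linarith
    linarith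
  have hPe : P ≤ Real.exp (-s) := by
    rw [hP, hs, ← sum_neg_distrib, Real.exp_sum]
    apply Finset.prod_le_prod
    · intro p hp
      have : (2 : ℝ) ≤ p := by exact_mod_cast (Nat.prime_of_mem_primeFactors hp).two_le
      have : (1 : ℝ) / p ≤ 1 := by
        rw [div_le_one (by linarith)]
        linarith
      linarith
    · intro p _
      have := Real.add_one_le_exp (-((1 : ℝ) / p))
      linarith
  have hse : s ≤ Real.exp s := by
    have := Real.add_one_le_exp s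
    linarith
  have hsP : s * P ≤ 1 := by
    calc s * P ≤ Real.exp s * Real.exp (-s) := mul_le_mul hse hPe hP0 (Real.exp_pos _).le
      _ = 1 := by rw [← Real.exp_add]; simp
  have hA : 0 ≤ A₀ := by
    by_contra hneg
    push Not at hneg
    have : A₀ * P ≤ 0 := mul_nonpos_of_nonpos_of_nonneg hneg.le hP0
    linarith
  calc s = s * 1 := (mul_one s).symm
    _ ≤ s * (A₀ * P) := mul_le_mul_of_nonneg_left h2 hs0
    _ = A₀ * (s * P) := by ring
    _ ≤ A₀ * 1 := mul_le_mul_of_nonneg_left hsP hA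
    _ = A₀ := mul_one _

theorem sum_inv_le_self (n : ℕ) : ∑ p ∈ n.primeFactors, (1 : ℝ) / p ≤ n := by
  have h1 : ∀ p ∈ n.primeFactors, (1 : ℝ) / p ≤ 1 := by
    intro p hp
    have : (2 : ℝ) ≤ p := by exact_mod_cast (Nat.prime_of_mem_primeFactors hp).two_le
    rw [div_le_one (by linarith)]
    linarith
  refine (sum_le_card_nsmul _ _ _ h1).trans ?_
  rw [nsmul_eq_mul, mul_one]
  have h2 : n.primeFactors ⊆ Icc 1 n := by
    intro p hp
    rw [mem_Icc]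
    exact ⟨(Nat.prime_of_mem_primeFactors hp).pos, Nat.le_of_mem_primeFactors hp⟩
  have h3 := card_le_card h2
  rw [Nat.card_Icc, Nat.add_sub_cancel] at h3
  exact_mod_cast h3

theorem sum_inv_mul (m n : ℕ) (hm : m ≠ 0) (hn : n ≠ 0) :
    ∑ p ∈ (m * n).primeFactors, (1 : ℝ) / p ≤ ∑ p ∈ m.primeFactors, (1 : ℝ) / p + ∑ p ∈ n.primeFactors, (1 : ℝ) / p := by
  rw [Nat.primeFactors_mul hm hn]
  exact sum_union_le' _ fun i => by positivity

/-- few `n` with `a n + b` small -/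
theorem few_small (a b : ℤ) (ha : a ≠ 0) (N : ℕ) (Y : ℝ) (hY : 0 ≤ Y) :
    (((Icc 1 N).filter (fun n : ℕ => |((a * n + b : ℤ) : ℝ)| ≤ Y)).card : ℝ) ≤ 2 * Y + 1 := by
  have h1 : ((Icc 1 N).filter (fun n : ℕ => |((a * n + b : ℤ) : ℝ)| ≤ Y)).card ≤
      (Icc (-(⌊Y⌋₊ : ℤ)) ⌊Y⌋₊).card := by
    apply card_le_card_of_injOn (fun n : ℕ => a * n + b)
    · intro n hn
      rw [mem_coe, mem_filter] at hn
      rw [mem_coe, mem_Icc, ← abs_le]
      have h2 : ((|a * n + b| : ℤ) : ℝ) ≤ Y := by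
        rw [Int.cast_abs]
        exact hn.2
      have h3 : ((a * n + b).natAbs : ℝ) ≤ Y := by
        rw [Nat.cast_natAbs]
        exact h2
      have h4 : (a * n + b).natAbs ≤ ⌊Y⌋₊ := Nat.le_floor h3
      rw [Int.abs_eq_natAbs]
      exact_mod_cast h4
    · intro n _ m _ hnm
      simp only at hnm
      have h2 : a * (n : ℤ) = a * m := by linarith
      have := mul_left_cancel₀ ha h2
      exact_mod_cast this
  have h2 : ((Icc (-(⌊Y⌋₊ : ℤ)) ⌊Y⌋₊).card : ℝ) ≤ 2 * Y + 1 := by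
    rw [Int.card_Icc]
    have h3 : (((⌊Y⌋₊ : ℤ) + 1 - -(⌊Y⌋₊ : ℤ)).toNat : ℝ) = 2 * (⌊Y⌋₊ : ℝ) + 1 := by
      have h4 : ((⌊Y⌋₊ : ℤ) + 1 - -(⌊Y⌋₊ : ℤ)).toNat = 2 * ⌊Y⌋₊ + 1 := by omega
      rw [h4]
      push_cast
      ring
    rw [h3]
    have := Nat.floor_le hY
    linarith
  exact le_trans (by exact_mod_cast h1) h2

/-- record gaps around the rational multiples of height at most `J` of `a p + b` -/
theorem multiples (J D : ℕ) (A₀ : ℝ) (d : ℕ) (hd : Squarefree d) : ∃ c : ℝ, 0 < c ∧ ∀ᶠ X : ℝ in atTop,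
    ∀ a b : ℤ, a ≠ 0 → |(a : ℝ)| ≤ (Real.log X) ^ D → |(a : ℝ)| ≤ A₀ * (a.natAbs.totient : ℝ) →
    |(b : ℝ)| ≤ X ^ D → ∀ h : ℕ, h.Coprime d → ∀ bad : Finset ℕ, (bad.card : ℝ) ≤ X ^ (7 / 8 : ℝ) →
    ∃ p : ℕ, p.Prime ∧ X < p ∧ (p : ℝ) ≤ 3 * X ∧ p ∉ bad ∧ p ≡ h [MOD d] ∧
      ∀ i j : ℤ, 1 ≤ |i| → |i| ≤ J → 1 ≤ |j| → |j| ≤ J → ∀ q : ℕ, q.Prime →
        |((j * q - i * (a * p + b) : ℤ) : ℝ)| ≤ c * ff X → q = p := by
  obtain ⟨ℓ, hℓ⟩ : ∃ ℓ : ℕ, ℓ = J.factorial := ⟨_, rfl⟩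
  have hℓ0 : 0 < ℓ := by rw [hℓ]; exact Nat.factorial_pos J
  have hℓr : (1 : ℝ) ≤ ℓ := by exact_mod_cast hℓ0
  have hd0 : d ≠ 0 := hd.ne_zero
  obtain ⟨c₁, hc₁, hone⟩ := one_form (ℓ + |A₀| + d) (by positivity) (D + 1)
  refine ⟨c₁ / ℓ, by positivity, ?_⟩
  filter_upwards [hone d hd, ev_ff c₁ hc₁, Real.tendsto_log_atTop.eventually_ge_atTop ((ℓ : ℝ) * d),
    Real.tendsto_log_atTop.eventually_ge_atTop ((J : ℝ) + 2), eventually_ge_atTop (ℓ : ℝ), eventually_ge_atTop 4,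
    Real.tendsto_log_atTop.eventually (Pool.Agent.H378R2.ev_pow_exp (D + 3) (1 / 40) 1 (by norm_num))]
    with X hX hff hLd hLJ hXℓ hX4 hE
  intro a b ha haD haφ hb h hh bad hbad
  set L := Real.log X with hL
  have hX0 : 0 < X := by linarith
  have hJ0 : (0 : ℝ) ≤ J := Nat.cast_nonneg J
  have hL1 : 1 ≤ L := by linarith
  have hL0 : 0 < L := by linarith
  set E := Real.exp (1 / 40 * L) with hEd
  rw [one_mul] at hE
  have hE0 : 0 < E := Real.exp_pos _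
  have hELJ : (J : ℝ) + 2 ≤ E := by
    have h1 : L ^ 1 ≤ L ^ (D + 3) := pow_le_pow_right₀ hL1 (by omega)
    rw [pow_one] at h1
    linarith
  have hpowE : ∀ k : ℕ, X ^ ((k : ℝ) / 40) = E ^ k := by
    intro k
    rw [hEd, ← Real.exp_nat_mul, Real.rpow_def_of_pos hX0, ← hL]
    congr 1
    ring
  have e10 : X ^ (1 / 10 : ℝ) = E ^ 4 := by rw [← hpowE 4]; norm_num
  have e78 : X ^ (7 / 8 : ℝ) = E ^ 35 := by rw [← hpowE 35]; norm_num
  have e910 : X ^ (9 / 10 : ℝ) = E ^ 36 := by rw [← hpowE 36]; norm_num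
  have hE1 : 1 ≤ E := by linarith
  have e1000 : X ^ (1 / 1000 : ℝ) ≤ E := by
    have h1 := hpowE 1
    rw [pow_one] at h1
    rw [← h1]
    exact Real.rpow_le_rpow_of_exponent_le (by linarith) (by norm_num)
  -- the data
  set ga : ℕ := ℓ * (a.natAbs * d) with hga
  have hana : a.natAbs ≠ 0 := Int.natAbs_ne_zero.2 ha
  have hga0 : ga ≠ 0 := by
    rw [hga]
    exact mul_ne_zero hℓ0.ne' (mul_ne_zero hana hd0)
  have hacast : ((a.natAbs : ℕ) : ℝ) = |(a : ℝ)| := by rw [Nat.cast_natAbs, Int.cast_abs]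
  have hgsum : ∑ p ∈ ga.primeFactors, (1 : ℝ) / p ≤ ℓ + |A₀| + d := by
    have h1 := sum_inv_mul ℓ (a.natAbs * d) hℓ0.ne' (mul_ne_zero hana hd0)
    have h2 := sum_inv_mul a.natAbs d hana hd0
    have h3 := sum_inv_le_self ℓ
    have h4 := sum_inv_le_self d
    have h5 := sum_inv_le_of_totient a.natAbs hana A₀ (by rw [hacast]; exact haφ)
    have h6 := le_abs_self A₀
    rw [← hga] at h1
    linarith
  have hgle : (ga : ℝ) ≤ L ^ (D + 1) := by
    rw [hga]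
    push_cast
    rw [hacast]
    calc (ℓ : ℝ) * (|(a : ℝ)| * d) = |(a : ℝ)| * (ℓ * d) := by ring
      _ ≤ L ^ D * L := mul_le_mul haD hLd (by positivity) (by positivity)
      _ = L ^ (D + 1) := (pow_succ _ _).symm
  set bad' : Finset ℕ := bad ∪ (Icc 1 ⌊3 * X⌋₊).filter (fun n : ℕ => |((a * n + b : ℤ) : ℝ)| ≤ X ^ (1 / 10 : ℝ))
    with hbad'
  have hbadc : (bad'.card : ℝ) ≤ X ^ (9 / 10 : ℝ) := by
    have h1 : (bad'.card : ℝ) ≤ bad.card +
        (((Icc 1 ⌊3 * X⌋₊).filter (fun n : ℕ => |((a * n + b : ℤ) : ℝ)| ≤ X ^ (1 / 10 : ℝ))).card : ℝ) := by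
      rw [hbad', ← Nat.cast_add]
      exact Nat.cast_le.2 (card_union_le _ _)
    have h2 := few_small a b ha ⌊3 * X⌋₊ (X ^ (1 / 10 : ℝ)) (by positivity)
    rw [e10] at h2 h1
    rw [e78] at hbad
    rw [e910]
    have h3 : E ^ 4 ≤ E ^ 35 := pow_le_pow_right₀ hE1 (by norm_num)
    have h4 : 1 ≤ E ^ 35 := one_le_pow₀ hE1
    have h5 : E ^ 36 = E * E ^ 35 := by ring
    have h6 : 4 ≤ E := by
      have h7 : L ^ 3 ≤ L ^ (D + 3) := pow_le_pow_right₀ hL1 (by omega)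
      have h8 : (2 : ℝ) ≤ L := by linarith
      have h9 : (4 : ℝ) ≤ L ^ 3 := by nlinarith [sq_nonneg L]
      linarith
    have h7 : 4 * E ^ 35 ≤ E * E ^ 35 := mul_le_mul_of_nonneg_right h6 (by positivity)
    rw [h5]
    linarith
  obtain ⟨p, hp, hXp, hp3, hpb, hpd, hmain⟩ := hX (ℓ * a) ga hga0
    (by
      rw [hga]
      push_cast
      have h1 : (a : ℤ) ∣ |a| := (dvd_abs a a).2 (dvd_refl a)
      exact mul_dvd_mul (dvd_refl _) (h1.mul_right _))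
    (by
      rw [hga]
      exact Dvd.dvd.mul_left (Dvd.dvd.mul_left (dvd_refl d) _) _) hgsum hgle (ℓ * b)
    (by
      push_cast
      rw [abs_mul, abs_of_nonneg (by positivity : (0 : ℝ) ≤ ℓ), pow_succ, mul_comm]
      exact mul_le_mul hb hXℓ (by positivity) (by positivity)) h hh bad' hbadc
  rw [hbad', mem_union, not_or] at hpb
  have hpbig : E ^ 4 < |((a * p + b : ℤ) : ℝ)| := by
    by_contra hcon
    push Not at hcon
    apply hpb.2
    rw [mem_filter, mem_Icc, e10]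
    exact ⟨⟨hp.pos, Nat.le_floor hp3⟩, hcon⟩
  refine ⟨p, hp, hXp, hp3, hpb.1, hpd, ?_⟩
  intro i j hi1 hiJ hj1 hjJ q hq hqd
  set k : ℤ := j * q - i * (a * p + b) with hk
  have hffX : 0 ≤ ff X := hff.2.1
  have hcff : c₁ / ℓ * ff X ≤ E := by
    have h1 : c₁ / ℓ * ff X ≤ c₁ * ff X := by
      apply mul_le_mul_of_nonneg_right _ hffX
      exact div_le_self hc₁.le hℓr
    have h2 : L ^ 2 ≤ L ^ (D + 3) := pow_le_pow_right₀ hL1 (by omega)
    linarith [hff.1]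
  -- a small `q` is impossible
  have hsmall : ¬ ((q : ℝ) ≤ E) := by
    intro hqE
    have h1 : |(i : ℝ)| * |((a * p + b : ℤ) : ℝ)| ≤ (J : ℝ) * E + E := by
      have h2 : (i : ℝ) * ((a * p + b : ℤ) : ℝ) = j * q - ((k : ℤ) : ℝ) := by
        rw [hk]
        push_cast
        ring
      rw [← abs_mul, h2]
      refine (abs_sub _ _).trans ?_
      rw [abs_mul, abs_of_nonneg (Nat.cast_nonneg q : (0 : ℝ) ≤ q)]
      have h3 : |(j : ℝ)| ≤ J := by exact_mod_cast hjJ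
      have h4 : |(j : ℝ)| * q ≤ J * E := mul_le_mul h3 hqE (Nat.cast_nonneg q) hJ0
      linarith
    have h2 : (1 : ℝ) ≤ |(i : ℝ)| := by exact_mod_cast hi1
    have h3 : |((a * p + b : ℤ) : ℝ)| ≤ |(i : ℝ)| * |((a * p + b : ℤ) : ℝ)| :=
      le_mul_of_one_le_left (abs_nonneg _) h2
    have h4 : (J : ℝ) * E + E ≤ E ^ 4 := by
      calc (J : ℝ) * E + E = (J + 1) * E := by ring
        _ ≤ E * E := mul_le_mul_of_nonneg_right (by linarith) hE0.le
        _ = E ^ 2 := by ring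
        _ ≤ E ^ 4 := pow_le_pow_right₀ hE1 (by norm_num)
    linarith
  have hdivℓ : ∀ x : ℤ, 1 ≤ |x| → |x| ≤ J → x ∣ (ℓ : ℤ) := by
    intro x h1 h2
    rw [Int.abs_eq_natAbs] at h1 h2
    rw [← Int.natAbs_dvd_natAbs, Int.natAbs_natCast, hℓ]
    apply Nat.dvd_factorial
    · exact_mod_cast h1
    · exact_mod_cast h2
  obtain ⟨i₁, hi₁⟩ := hdivℓ i hi1 hiJ
  have hi₁ℓ : i₁ ∣ (ℓ : ℤ) := ⟨i, by rw [hi₁]; ring⟩
  have hi₁le : |(i₁ : ℝ)| ≤ ℓ := by
    have h1 : |i₁| ≤ (ℓ : ℤ) := by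
      rw [Int.abs_eq_natAbs]
      have := Nat.le_of_dvd hℓ0 (Int.natCast_dvd_natCast.1 ((Int.natAbs_dvd).2 hi₁ℓ))
      exact_mod_cast this
    exact_mod_cast h1
  have hid : (ℓ : ℤ) * a * p + ℓ * b + i₁ * k = i₁ * j * q := by
    rw [hk, hi₁]
    ring
  by_cases hz : (ℓ : ℤ) * b + i₁ * k = 0
  · have h1 : (ℓ : ℤ) * a * p = i₁ * j * q := by rw [← hid]; linarith
    have h2 : (q : ℤ) ∣ (ℓ : ℤ) * a * p := by rw [h1]; exact dvd_mul_left _ _
    rcases (Nat.prime_iff_prime_int.1 hq).dvd_mul.1 h2 with h3 | h3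
    · exfalso
      apply hsmall
      have h4 : q ∣ ga := by
        have h5 : (q : ℤ) ∣ (ga : ℤ) := by
          rw [hga]
          push_cast
          have h6 : (ℓ : ℤ) * a ∣ (ℓ : ℤ) * (|a| * d) := by
            have h1 : (a : ℤ) ∣ |a| := (dvd_abs a a).2 (dvd_refl a)
            exact mul_dvd_mul (dvd_refl _) (h1.mul_right _)
          exact h3.trans h6
        exact_mod_cast h5
      have h5 : (q : ℝ) ≤ ga := by exact_mod_cast Nat.le_of_dvd (Nat.pos_of_ne_zero hga0) h4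
      have h6 : L ^ (D + 1) ≤ L ^ (D + 3) := pow_le_pow_right₀ hL1 (by omega)
      linarith
    · exact (Nat.prime_dvd_prime_iff_eq hq hp).1 (by exact_mod_cast h3)
  · exfalso
    obtain ⟨q', hq', hq'X, hq'g, hq'd⟩ := hmain (i₁ * k) (by
      push_cast
      rw [abs_mul]
      have h1 : |(k : ℝ)| ≤ c₁ / ℓ * ff X := hqd
      calc |(i₁ : ℝ)| * |(k : ℝ)| ≤ ℓ * (c₁ / ℓ * ff X) := mul_le_mul hi₁le h1 (abs_nonneg _) (by positivity)
        _ = c₁ * ff X := by field_simp) hz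
    rw [hid] at hq'd
    have hq'ℓ : ¬ (q' : ℤ) ∣ (ℓ : ℤ) := by
      intro h1
      apply hq'g
      rw [hga]
      exact (Int.natCast_dvd_natCast.1 h1).mul_right _
    have hqq : q' = q := by
      rcases (Nat.prime_iff_prime_int.1 hq').dvd_mul.1 hq'd with h1 | h1
      · rcases (Nat.prime_iff_prime_int.1 hq').dvd_mul.1 h1 with h2 | h2
        · exact absurd (h2.trans hi₁ℓ) hq'ℓ
        · exact absurd (h2.trans (hdivℓ j hj1 hjJ)) hq'ℓ
      · exact (Nat.prime_dvd_prime_iff_eq hq' hq).1 (by exact_mod_cast h1)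
    apply hsmall
    rw [← hqq]
    exact hq'X.trans e1000

end Pool.Agent.TH101.RG
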