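import Pool.Agent.TH101.RG.Main

set_option autoImplicit false
set_option maxHeartbeats 4000000

/-! # A prime at which few linear forms are simultaneously composite -/

namespace Pool.Agent.TH101.RG

open Finset Filter
open Pool.Agent.H378R2
open Pool.Agent.H312R2.RG (not_dvd_diff BVat)

open scoped Classical

theorem card_pf_le {X : ℝ} (hX : 1 ≤ X) (D : ℕ) (a : ℤ) (ha : |(a : ℝ)| ≤ X ^ D) :
    (a.natAbs.primeFactors.card : ℝ) ≤ 2 * (D * Real.log X) := by
  rcases eq_or_ne a 0 with h | h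
  · rw [h]
    simp only [Int.natAbs_zero, Nat.primeFactors_zero, card_empty, Nat.cast_zero]
    have := Real.log_nonneg hX
    positivity
  · refine (Pool.Agent.H398R2.RK.card_primeFactors_le _ (Int.natAbs_pos.2 h)).trans ?_
    apply mul_le_mul_of_nonneg_left _ (by norm_num)
    have h1 : ((a.natAbs : ℕ) : ℝ) = |(a : ℝ)| := by rw [Nat.cast_natAbs, Int.cast_abs]
    rw [h1, ← Real.log_pow]
    apply Real.log_le_log _ ha
    rw [abs_pos]
    exact_mod_cast h

/-- the number of primes dividing one of the coefficients or determinants -/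
theorem card_Bx (D : ℕ) (X : ℝ) (hX : 4 ≤ X) (hL : 4 * (3 + 10 * (D : ℝ)) ≤ Real.log X) (ps g : ℕ)
    (hg : (g : ℝ) ≤ X ^ D) (U : Finset ℕ) (hU : (U.card : ℝ) ≤ Real.log X) (α β : ℕ → ℤ)
    (h : ∀ k ∈ U, |(α k : ℝ)| ≤ X ^ D ∧ |(β k : ℝ)| ≤ X ^ D) :
    2 * ((insert ps ((g.primeFactors ∪
      U.biUnion (fun k => (α k).natAbs.primeFactors ∪ (β k).natAbs.primeFactors)) ∪
      U.biUnion (fun k => U.biUnion (fun l => (α k * β l - α l * β k).natAbs.primeFactors)))).card : ℝ) ≤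
      (Real.log X) ^ 4 := by
  set L := Real.log X with hLd
  have hD0 : (0 : ℝ) ≤ D := Nat.cast_nonneg D
  have hL1 : 1 ≤ L := by linarith
  have hX1 : 1 ≤ X := by linarith
  have h1 : (g.primeFactors.card : ℝ) ≤ 2 * (D * L) := by
    have := card_pf_le hX1 D (g : ℤ) (by
      rw [Int.cast_natCast, abs_of_nonneg (Nat.cast_nonneg g)]
      exact hg)
    simpa using this
  have h2 : ((U.biUnion (fun k => (α k).natAbs.primeFactors ∪ (β k).natAbs.primeFactors)).card : ℝ) ≤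
      L * (4 * (D * L)) := by
    have e1 : ((U.biUnion (fun k => (α k).natAbs.primeFactors ∪ (β k).natAbs.primeFactors)).card : ℝ) ≤
        ∑ k ∈ U, (((α k).natAbs.primeFactors ∪ (β k).natAbs.primeFactors).card : ℝ) := by
      exact_mod_cast card_biUnion_le
    refine e1.trans ((sum_le_card_nsmul _ _ _ (fun k hk => ?_)).trans (?_ : _ • (4 * (D * L)) ≤ _))
    · have e2 : (((α k).natAbs.primeFactors ∪ (β k).natAbs.primeFactors).card : ℝ) ≤
          (α k).natAbs.primeFactors.card + (β k).natAbs.primeFactors.card := by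
        exact_mod_cast card_union_le _ _
      have e3 := card_pf_le hX1 D (α k) (h k hk).1
      have e4 := card_pf_le hX1 D (β k) (h k hk).2
      linarith
    · rw [nsmul_eq_mul]
      exact mul_le_mul_of_nonneg_right hU (by positivity)
  have h3 : ((U.biUnion (fun k => U.biUnion (fun l => (α k * β l - α l * β k).natAbs.primeFactors))).card : ℝ) ≤
      L * (L * (2 * (((2 * D + 1 : ℕ) : ℝ) * L))) := by
    have e1 : ((U.biUnion (fun k => U.biUnion (fun l => (α k * β l - α l * β k).natAbs.primeFactors))).card : ℝ) ≤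
        ∑ k ∈ U, ((U.biUnion (fun l => (α k * β l - α l * β k).natAbs.primeFactors)).card : ℝ) := by
      exact_mod_cast card_biUnion_le
    refine e1.trans ((sum_le_card_nsmul _ _ _ (fun k hk => ?_)).trans
      (?_ : _ • (L * (2 * (((2 * D + 1 : ℕ) : ℝ) * L))) ≤ _))
    · have e2 : ((U.biUnion (fun l => (α k * β l - α l * β k).natAbs.primeFactors)).card : ℝ) ≤
          ∑ l ∈ U, ((α k * β l - α l * β k).natAbs.primeFactors.card : ℝ) := by
        exact_mod_cast card_biUnion_le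
      refine e2.trans ((sum_le_card_nsmul _ _ _ (fun l hl => ?_)).trans
        (?_ : _ • (2 * (((2 * D + 1 : ℕ) : ℝ) * L)) ≤ _))
      · refine card_pf_le hX1 (2 * D + 1) _ ?_
        push_cast
        refine (abs_sub _ _).trans ?_
        rw [abs_mul, abs_mul]
        have e3 : |(α k : ℝ)| * |(β l : ℝ)| ≤ X ^ D * X ^ D :=
          mul_le_mul (h k hk).1 (h l hl).2 (abs_nonneg _) (by positivity)
        have e4 : |(α l : ℝ)| * |(β k : ℝ)| ≤ X ^ D * X ^ D :=
          mul_le_mul (h l hl).1 (h k hk).2 (abs_nonneg _) (by positivity)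
        have e5 : X ^ (2 * D + 1) = (X ^ D * X ^ D) * X := by ring
        rw [e5]
        have e6 : 0 ≤ X ^ D * X ^ D := by positivity
        nlinarith
      · rw [nsmul_eq_mul]
        exact mul_le_mul_of_nonneg_right hU (by positivity)
    · rw [nsmul_eq_mul]
      exact mul_le_mul_of_nonneg_right hU (by positivity)
  have h4 := card_insert_le ps ((g.primeFactors ∪
      U.biUnion (fun k => (α k).natAbs.primeFactors ∪ (β k).natAbs.primeFactors)) ∪
      U.biUnion (fun k => U.biUnion (fun l => (α k * β l - α l * β k).natAbs.primeFactors)))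
  have h5 := card_union_le (g.primeFactors ∪
      U.biUnion (fun k => (α k).natAbs.primeFactors ∪ (β k).natAbs.primeFactors))
      (U.biUnion (fun k => U.biUnion (fun l => (α k * β l - α l * β k).natAbs.primeFactors)))
  have h6 := card_union_le g.primeFactors
      (U.biUnion (fun k => (α k).natAbs.primeFactors ∪ (β k).natAbs.primeFactors))
  have h7 : ((insert ps ((g.primeFactors ∪
      U.biUnion (fun k => (α k).natAbs.primeFactors ∪ (β k).natAbs.primeFactors)) ∪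
      U.biUnion (fun k => U.biUnion (fun l => (α k * β l - α l * β k).natAbs.primeFactors)))).card : ℝ) ≤
      (g.primeFactors.card : ℝ) +
      ((U.biUnion (fun k => (α k).natAbs.primeFactors ∪ (β k).natAbs.primeFactors)).card : ℝ) +
      ((U.biUnion (fun k => U.biUnion (fun l => (α k * β l - α l * β k).natAbs.primeFactors))).card : ℝ) + 1 := by
    exact_mod_cast (by omega)
  have h8 : 2 * ((2 * (D * L)) + L * (4 * (D * L)) + L * (L * (2 * (((2 * D + 1 : ℕ) : ℝ) * L))) + 1) ≤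
      L ^ 4 := by
    push_cast
    have e1 : L ≤ L ^ 3 := by
      calc L = L ^ 1 := (pow_one _).symm
        _ ≤ L ^ 3 := pow_le_pow_right₀ hL1 (by norm_num)
    have e2 : L ^ 2 ≤ L ^ 3 := pow_le_pow_right₀ hL1 (by norm_num)
    have e3 : 1 ≤ L ^ 3 := one_le_pow₀ hL1
    have e4 : 2 * ((2 * (D * L)) + L * (4 * (D * L)) + L * (L * (2 * ((2 * (D : ℝ) + 1) * L))) + 1) ≤
        (4 * (3 + 10 * (D : ℝ))) * L ^ 3 := by
      have f1 : (D : ℝ) * L ≤ D * L ^ 3 := mul_le_mul_of_nonneg_left e1 hD0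
      have f2 : (D : ℝ) * L ^ 2 ≤ D * L ^ 3 := mul_le_mul_of_nonneg_left e2 hD0
      have f3 : 0 ≤ (D : ℝ) * L ^ 3 := by positivity
      nlinarith
    refine e4.trans ?_
    calc (4 * (3 + 10 * (D : ℝ))) * L ^ 3 ≤ L * L ^ 3 := mul_le_mul_of_nonneg_right hL (by positivity)
      _ = L ^ 4 := by ring
  linarith

/-- the template for one prime -/
theorem templ1 (D : ℕ) : ∃ (A : ℕ) (c₄ : ℝ), 0 < c₄ ∧ ∀ Z : ℕ, ∀ᶠ X : ℝ in atTop,
    ∀ (ps : ℕ) (S : Finset ℕ), GoodP Z ps → BVat A X (WW X S ps) ps →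
    ∀ (U : Finset ℕ), U.Nonempty → (U.card : ℝ) ≤ c₄ * Real.log X → ∀ (α β : ℕ → ℤ),
    (∀ k ∈ U, α k ≠ 0 ∧ β k ≠ 0) → (∀ k ∈ U, |(α k : ℝ)| ≤ X ^ D ∧ |(β k : ℝ)| ≤ X ^ D) →
    (∀ k ∈ U, ∀ l ∈ U, k ≠ l → α k * β l ≠ α l * β k) → ∀ g : ℕ, g ≠ 0 → (g : ℝ) ≤ X ^ D →
    ∀ r : ℕ, r.Coprime (WW X S ps) → ∀ bad : Finset ℕ, (bad.card : ℝ) ≤ X ^ (9 / 10 : ℝ) →
    ∃ p : ℕ, p.Prime ∧ X < p ∧ (p : ℝ) ≤ 3 * X ∧ p ∉ bad ∧ p ≡ r [MOD WW X S ps] ∧
      ∀ k ∈ U, ∃ q : ℕ, q.Prime ∧ (q : ℝ) ≤ X ^ (1 / 1000 : ℝ) ∧ ¬ q ∣ g ∧ (q : ℤ) ∣ α k * p + β k := by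
  obtain ⟨A, c₃, hA4, hc₃, hw⟩ := weightsG 3
  refine ⟨A, min c₃ 1, lt_min hc₃ one_pos, fun Z => ?_⟩
  filter_upwards [hw Z, exists_good, eventually_ge_atTop 4,
    Real.tendsto_log_atTop.eventually_ge_atTop (4 * (3 + 10 * (D : ℝ)))] with X hwX hgX hX4 hL
  intro ps S hps hBV U hUne hUc α β hne hle hdet g hg0 hgD r hr bad hbad
  have hX0 : 0 < X := by linarith
  have hD0 : (0 : ℝ) ≤ D := Nat.cast_nonneg D
  have hL0 : 0 < Real.log X := by linarith
  have hUc3 : (U.card : ℝ) ≤ c₃ * Real.log X :=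
    hUc.trans (mul_le_mul_of_nonneg_right (min_le_left _ _) hL0.le)
  have hUc1 : (U.card : ℝ) ≤ Real.log X := by
    have := hUc.trans (mul_le_mul_of_nonneg_right (min_le_right c₃ 1) hL0.le)
    linarith
  set Bx : Finset ℕ := insert ps ((g.primeFactors ∪
      U.biUnion (fun k => (α k).natAbs.primeFactors ∪ (β k).natAbs.primeFactors)) ∪
      U.biUnion (fun k => U.biUnion (fun l => (α k * β l - α l * β k).natAbs.primeFactors))) with hBx
  obtain ⟨PP, hPP, hres⟩ := hwX ps S hps hBV Bx U (by rw [hBx]; exact mem_insert_self _ _)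
    (card_Bx D X hX4 hL ps g hgD U hUc1 α β hle) hUne hUc3
  have hPg : ∀ q ∈ PP, ¬ q ∣ g := by
    intro q hq hd
    apply (hPP q hq).2.2.2
    rw [hBx, mem_insert, mem_union, mem_union]
    right; left; left
    rw [Nat.mem_primeFactors]
    exact ⟨(hPP q hq).1, hd, hg0⟩
  have hPα : ∀ q ∈ PP, ∀ k ∈ U, ¬ (q : ℤ) ∣ α k := by
    intro q hq k hk hd
    apply (hPP q hq).2.2.2
    rw [hBx, mem_insert, mem_union, mem_union]
    right; left; right
    rw [mem_biUnion]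
    refine ⟨k, hk, ?_⟩
    rw [mem_union, Nat.mem_primeFactors]
    exact Or.inl ⟨(hPP q hq).1, Int.natCast_dvd.1 hd, Int.natAbs_ne_zero.2 (hne k hk).1⟩
  have hPβ : ∀ q ∈ PP, ∀ k ∈ U, ¬ (q : ℤ) ∣ β k := by
    intro q hq k hk hd
    apply (hPP q hq).2.2.2
    rw [hBx, mem_insert, mem_union, mem_union]
    right; left; right
    rw [mem_biUnion]
    refine ⟨k, hk, ?_⟩
    rw [mem_union, Nat.mem_primeFactors, Nat.mem_primeFactors]
    exact Or.inr ⟨(hPP q hq).1, Int.natCast_dvd.1 hd, Int.natAbs_ne_zero.2 (hne k hk).2⟩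
  have hPd : ∀ q ∈ PP, ∀ k ∈ U, ∀ l ∈ U, k ≠ l → ¬ (q : ℤ) ∣ α k * β l - α l * β k := by
    intro q hq k hk l hl hkl hd
    apply (hPP q hq).2.2.2
    rw [hBx, mem_insert, mem_union]
    right; right
    rw [mem_biUnion]
    refine ⟨k, hk, ?_⟩
    rw [mem_biUnion]
    refine ⟨l, hl, ?_⟩
    rw [Nat.mem_primeFactors]
    exact ⟨(hPP q hq).1, Int.natCast_dvd.1 hd, Int.natAbs_ne_zero.2 (sub_ne_zero.2 (hdet k hk l hl hkl))⟩
  -- the residues
  have hex : ∀ (q : ℕ) (k : ↥U), ∃ ρ : ℤ, q ∈ PP → (q : ℤ) ∣ α k * ρ + β k := by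
    intro q k
    by_cases hq : q ∈ PP
    · obtain ⟨ρ, hρ⟩ := solve q (hPP q hq).1 (α k) (β k) (hPα q hq k k.2)
      exact ⟨ρ, fun _ => hρ⟩
    · exact ⟨0, fun h => absurd h hq⟩
  choose res hresd using hex
  obtain ⟨V, T, Z₁, M, M', M₂, w1, w2, w3, w4, w5, w6, w7, w8, w9, w10, w11⟩ := hres res
    (by
      intro q hq k l hkl hd
      have h1 := hresd q k hq
      have h2 := hresd q l hq
      apply hPd q hq k k.2 l l.2 (fun h => hkl (Subtype.ext h))
      have h3 : α k * β l - α l * β k = α k * (α l * res q l + β l) - α l * (α k * res q k + β k) +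
          α k * α l * (res q k - res q l) := by ring
      rw [h3]
      exact dvd_add (dvd_sub (h2.mul_left _) (h1.mul_left _)) (hd.mul_left _))
    (by
      intro q hq k hd
      have h1 := hresd q k hq
      apply hPβ q hq k k.2
      have h2 := dvd_sub h1 (hd.mul_left (α k))
      rwa [add_sub_cancel_left] at h2) r hr
  obtain ⟨n, hnp, hXn, hn3, hnb, hnr, hTn⟩ := hgX (WW X S ps) r (WW_pos X S ps) (WW_le X (by linarith) S ps)
    V T Z₁ M M' M₂ w1 w2 w4 w5 w7 w8 w9 w10 w11 bad hbad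
  refine ⟨n, hnp, hXn, hn3, hnb, hnr, fun k hk => ?_⟩
  obtain ⟨q, hq, hqd⟩ := w3 n hTn ⟨k, hk⟩
  refine ⟨q, (hPP q hq).1, (hPP q hq).2.2.1, hPg q hq, ?_⟩
  have h1 := hresd q ⟨k, hk⟩ hq
  have h2 : α k * (n : ℤ) + β k = α k * ((n : ℤ) - res q ⟨k, hk⟩) + (α k * res q ⟨k, hk⟩ + β k) := by ring
  rw [h2]
  exact dvd_add (hqd.mul_left _) h1

/-- the template for one prime, the forms indexed by a set -/
theorem templ2 (D : ℕ) : ∃ (A : ℕ) (c₄ : ℝ), 0 < c₄ ∧ ∀ Z : ℕ, ∀ᶠ X : ℝ in atTop,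
    ∀ (ps : ℕ) (S : Finset ℕ), GoodP Z ps → BVat A X (WW X S ps) ps →
    ∀ (U : Finset ℤ), (U.card : ℝ) ≤ c₄ * Real.log X → ∀ (α β : ℤ → ℤ),
    (∀ k ∈ U, α k ≠ 0 ∧ β k ≠ 0) → (∀ k ∈ U, |(α k : ℝ)| ≤ X ^ D ∧ |(β k : ℝ)| ≤ X ^ D) →
    (∀ k ∈ U, ∀ l ∈ U, k ≠ l → α k * β l ≠ α l * β k) → ∀ g : ℕ, g ≠ 0 → (g : ℝ) ≤ X ^ D →
    ∀ r : ℕ, r.Coprime (WW X S ps) → ∀ bad : Finset ℕ, (bad.card : ℝ) ≤ X ^ (9 / 10 : ℝ) →
    ∃ p : ℕ, p.Prime ∧ X < p ∧ (p : ℝ) ≤ 3 * X ∧ p ∉ bad ∧ p ≡ r [MOD WW X S ps] ∧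
      ∀ k ∈ U, ∃ q : ℕ, q.Prime ∧ (q : ℝ) ≤ X ^ (1 / 1000 : ℝ) ∧ ¬ q ∣ g ∧ (q : ℤ) ∣ α k * p + β k := by
  obtain ⟨A, c₄, hc₄, h⟩ := templ1 D
  refine ⟨A, c₄, hc₄, fun Z => ?_⟩
  filter_upwards [h Z, Real.tendsto_log_atTop.eventually_ge_atTop (1 / c₄), eventually_ge_atTop 1] with X hX hL hX1
  intro ps S hps hBV U hUc α β hne hle hdet g hg0 hgD r hr bad hbad
  set n := U.card with hn
  set e := U.equivFin with he
  set α' : ℕ → ℤ := fun k => if hk : k < n then α (e.symm ⟨k, hk⟩ : ↥U) else 1 with hα'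
  set β' : ℕ → ℤ := fun k => if hk : k < n then β (e.symm ⟨k, hk⟩ : ↥U) else 1 with hβ'
  have hmax : ∀ k ∈ range (max n 1), n ≠ 0 → k < n := by
    intro k hk hn0
    rw [mem_range] at hk
    omega
  have hXD : 1 ≤ X ^ D := one_le_pow₀ hX1
  obtain ⟨p, hp, hXp, hp3, hpb, hpr, hall⟩ := hX ps S hps hBV (range (max n 1)) ⟨0, by simp⟩
    (by
      rw [card_range]
      rw [div_le_iff₀ hc₄, mul_comm] at hL
      rcases le_or_gt n 1 with h1 | h1
      · rw [max_eq_right h1]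
        push_cast
        exact hL
      · rw [max_eq_left h1.le]
        exact hUc) α' β'
    (by
      intro k hk
      simp only [hα', hβ']
      split_ifs with h1
      · exact hne _ (e.symm ⟨k, h1⟩).2
      · exact ⟨one_ne_zero, one_ne_zero⟩)
    (by
      intro k hk
      simp only [hα', hβ']
      split_ifs with h1
      · exact hle _ (e.symm ⟨k, h1⟩).2
      · simpa using hXD)
    (by
      intro k hk l hl hkl
      rcases Nat.eq_zero_or_pos n with h0 | h0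
      · rw [h0] at hk hl
        simp only [Nat.zero_le, sup_of_le_right, range_one, mem_singleton] at hk hl
        exact absurd (hk.trans hl.symm) hkl
      · have hk' := hmax k hk (by omega)
        have hl' := hmax l hl (by omega)
        simp only [hα', hβ', dif_pos hk', dif_pos hl']
        apply hdet _ (e.symm ⟨k, hk'⟩).2 _ (e.symm ⟨l, hl'⟩).2
        intro h1
        have h2 := e.symm.injective (Subtype.ext h1)
        exact hkl (by simpa using h2))
    g hg0 hgD r hr bad hbad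
  refine ⟨p, hp, hXp, hp3, hpb, hpr, fun k hk => ?_⟩
  have hlt : ((e ⟨k, hk⟩ : Fin n) : ℕ) < n := (e ⟨k, hk⟩).2
  have hk2 := hall (e ⟨k, hk⟩ : Fin n) (by rw [mem_range]; omega)
  simp only [hα', hβ', dif_pos hlt] at hk2
  simpa using hk2

end Pool.Agent.TH101.RG
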