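import Pool.Agent.TH101.RG.TemplT
import Pool.Agent.TH101.RG.CovZ2
import Pool.Agent.TH101.RG.OneZ
import Pool.Agent.TH101.RG.Mult

set_option autoImplicit false
set_option maxHeartbeats 4000000

/-! # Clusters of primes inside arbitrary prime-free patterns of record weight -/

namespace Pool.Agent.TH101.RG

open Finset Filter
open Pool.Agent.H378R2
open Pool.Agent.H312R2.RG (BVat ev_ff)
open Pool.Agent.H256R2.SC (ff)
open Pool.Agent.H362R2.RQ (fib)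

open scoped Classical

theorem eq_of_multiple' {ℓ : ℕ} {J : ℕ} (hℓ : ℓ = J.factorial) {j : ℤ} (hj1 : 1 ≤ |j|) (hjJ : |j| ≤ J) {q q' g : ℕ}
    (hq : q.Prime) (hq' : q'.Prime) (hℓg : ℓ ∣ g) (hq'g : ¬ q' ∣ g) (hd : (q' : ℤ) ∣ j * q) : q' = q := by
  have h1 : ¬ (q' : ℤ) ∣ j := by
    intro h2
    apply hq'g
    have h3 : q' ∣ j.natAbs := Int.natCast_dvd.1 h2
    have h4 : j.natAbs ∣ ℓ := by
      rw [hℓ]
      rw [Int.abs_eq_natAbs] at hj1 hjJ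
      apply Nat.dvd_factorial
      · exact_mod_cast hj1
      · exact_mod_cast hjJ
    exact (h3.trans h4).trans hℓg
  rcases (Nat.prime_iff_prime_int.1 hq').dvd_mul.1 hd with h2 | h2
  · exact absurd h2 h1
  · exact (Nat.prime_dvd_prime_iff_eq hq' hq).1 (by exact_mod_cast h2)

theorem tupZ : ∃ η : ℝ, 0 < η ∧ ∀ m : ℕ, 1 ≤ m → ∃ K : ℕ, m ≤ K ∧ ∀ (A D : ℕ) (A0 : ℝ),
    ∃ c : ℝ, 0 < c ∧ ∀ d z₀ : ℕ, Squarefree d → ∀ᶠ X : ℝ in atTop,
    ∀ (a : ℤ) (g : ℕ), g ≠ 0 → a ∣ g → d ∣ g → ∑ p ∈ g.primeFactors, (1 : ℝ) / p ≤ A0 →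
    (g : ℝ) ≤ (Real.log X) ^ D →
    ∀ t : Fin K → ℕ, Function.Injective t → (∀ j, (t j : ℝ) ≤ (Real.log X) ^ 2) →
    (∀ p : ℕ, p.Prime → ∃ v : ℕ, ∀ j, ¬ p ∣ v + t j) →
    ∀ h : ℕ, (∀ j, (h + t j).Coprime d) →
    ∀ col : Fin K → Fin m, (∀ e, K ≤ 2 * m * fib col e) →
    ∀ bad : Finset ℕ, (bad.card : ℝ) ≤ X ^ (9 / 10 : ℝ) →
    ∀ Z : Finset ℤ, (∀ z ∈ Z, |(z : ℝ)| ≤ Real.log X * (Real.log (Real.log X)) ^ A ∧ ∀ j, z ≠ a * t j) →
    ∑ z ∈ Z, wZ (fun j => a * t j) z ≤ c * ff X →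
    ∃ n : ℕ, X < n ∧ (n : ℝ) ≤ 3 * X ∧ n ∉ bad ∧ n ≡ h [MOD d] ∧
      (∀ j, ∀ p : ℕ, p.Prime → p ≤ z₀ → ¬ p ∣ n + t j) ∧
      (∃ E : Finset (Fin m), η * m ≤ E.card ∧ ∀ e ∈ E, ∃ j, col j = e ∧ (n + t j).Prime) ∧
      ∀ z ∈ Z, ∃ q : ℕ, q.Prime ∧ (q : ℝ) ≤ X ^ (1 / 1000 : ℝ) ∧ ¬ q ∣ g ∧ (q : ℤ) ∣ a * n + z := by
  obtain ⟨η, hη, h0⟩ := templT
  refine ⟨η, hη, fun m hm => ?_⟩
  obtain ⟨K, hmK, h1⟩ := h0 m hm
  refine ⟨K, hmK, fun A D A0 => ?_⟩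
  obtain ⟨Abv, c₄, hc₄, ht⟩ := h1 (D + A + 2)
  obtain ⟨c, hc, hcov⟩ := covZ K A (D + 2) A0 c₄ hc₄
  refine ⟨c, hc, fun d z₀ hd => ?_⟩
  obtain ⟨Z₀, hZ₀⟩ : ∃ Z : ℕ, Z = max 4 (max d z₀) := ⟨_, rfl⟩
  have hZ4 : 4 ≤ Z₀ := by rw [hZ₀]; exact le_max_left _ _
  have hZd : d ≤ Z₀ := by rw [hZ₀]; exact (le_max_left _ _).trans (le_max_right _ _)
  have hZz : z₀ ≤ Z₀ := by rw [hZ₀]; exact (le_max_right _ _).trans (le_max_right _ _)
  obtain ⟨X1, hbv⟩ := bvrel_holds Abv Z₀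
  have t1 := Real.tendsto_log_atTop
  have t2 : Tendsto (fun y : ℝ => Real.log (Real.log y)) atTop atTop := t1.comp t1
  filter_upwards [ht Z₀ hZ4, hcov, eventually_ge_atTop X1, eventually_ge_atTop 4,
    t1.eventually_ge_atTop 1, t1.eventually_ge_atTop (1000 * Z₀),
    t2.eventually_ge_atTop (Z₀ + 1)] with X htX hcovX hX1 hX4 hL1 hLd hL2d
  intro a g hg0 hag hdg hgS hgD t htinj htl hadm h hhd col hcol bad hbad Z hZ hw
  obtain ⟨ps, S, hps, hS, hBV⟩ := hbv X hX1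
  have hX0 : 0 < X := by linarith
  have hL0 : 0 < Real.log X := by linarith
  have hLX : Real.log X ≤ X := (Real.log_le_sub_one_of_pos hX0).trans (by linarith)
  have ha : a ≠ 0 := by
    rintro rfl
    rw [zero_dvd_iff] at hag
    exact hg0 (by exact_mod_cast hag)
  have haD : |(a : ℝ)| ≤ (Real.log X) ^ D := by
    refine le_trans ?_ hgD
    have h1 := Int.le_of_dvd (by exact_mod_cast Nat.pos_of_ne_zero hg0) ((abs_dvd a (g : ℤ)).2 hag)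
    have h2 : ((|a| : ℤ) : ℝ) ≤ ((g : ℤ) : ℝ) := by exact_mod_cast h1
    rw [Int.cast_abs] at h2
    exact_mod_cast h2
  choose! v hv using hadm
  set u : ℕ → ℕ := fun p => if p ∣ d then h else v p with hu
  have hup : ∀ p, p.Prime → ∀ j, ¬ p ∣ u p + t j := by
    intro p hp j
    simp only [hu]
    split_ifs with hpd
    · intro hph
      exact hp.one_lt.ne' (Nat.dvd_one.1 ((hhd j) ▸ Nat.dvd_gcd hph hpd))
    · exact hv p hp j
  have hpa : ∀ p : ℕ, ¬ p ∣ g → ¬ (p : ℤ) ∣ a := fun p hpg hd => hpg (by exact_mod_cast hd.trans hag)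
  obtain ⟨cl, U0, hU0, hU0c, hcl, hcov'⟩ := hcovX ps S hS g hg0 hgS
    (hgD.trans (pow_le_pow_right₀ hL1 (by omega))) (fun j => a * t j) (fun p => -(a * u p))
    (fun j => by
      push_cast
      rw [abs_mul, abs_of_nonneg (Nat.cast_nonneg (t j) : (0 : ℝ) ≤ t j), pow_add]
      exact mul_le_mul haD (htl j) (Nat.cast_nonneg _) (by positivity))
    (fun p hp _ hpg j hd => by
      have h1 : -(a * (u p : ℤ)) - a * t j = -(a * ((u p + t j : ℕ) : ℤ)) := by push_cast; ring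
      rw [h1, dvd_neg] at hd
      rcases (Nat.prime_iff_prime_int.1 hp).dvd_mul.1 hd with h2 | h2
      · exact hpa p hpg h2
      · exact hup p hp j (by exact_mod_cast h2))
    Z (fun z hz => (hZ z hz).1) (fun z hz => (hZ z hz).2) hw
  have hex : ∀ p : ℕ, ∃ ρ : ℕ, p ∈ PW X S ps → ((∀ j, ¬ p ∣ ρ + t j) ∧ (p ∣ g → ρ = u p) ∧
      (¬ p ∣ g → (p : ℤ) ∣ a * ρ + cl p)) := by
    intro p
    by_cases hp : p ∈ PW X S ps
    · have hpp := (mem_PW.1 hp).2.1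
      by_cases hpg : p ∣ g
      · exact ⟨u p, fun _ => ⟨hup p hpp, fun _ => rfl, fun h => absurd hpg h⟩⟩
      · obtain ⟨ρ, hρ⟩ := solve p hpp a (cl p) (hpa p hpg)
        refine ⟨ρ, fun _ => ⟨?_, fun h => absurd h hpg, fun _ => hρ⟩⟩
        intro j hj
        apply hcl p hp hpg j
        have h1 : (p : ℤ) ∣ ((ρ + t j : ℕ) : ℤ) := Int.natCast_dvd_natCast.2 hj
        have h2 := dvd_sub hρ (h1.mul_left a)
        have h3 : a * (ρ : ℤ) + cl p - a * ((ρ + t j : ℕ) : ℤ) = cl p - a * t j := by push_cast; ring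
        rwa [h3] at h2
    · exact ⟨0, fun h => absurd h hp⟩
  choose ρ hρ using hex
  obtain ⟨r, hr⟩ := Nat.chineseRemainderOfFinset ρ (fun p => p) (PW X S ps)
    (fun p hp => (mem_PW.1 hp).2.1.ne_zero)
    (fun p hp q hq hpq => (Nat.coprime_primes (mem_PW.1 (by simpa using hp)).2.1
      (mem_PW.1 (by simpa using hq)).2.1).2 hpq)
  have hrc : ∀ j, (r + t j).Coprime (WW X S ps) := by
    intro j
    unfold WW
    rw [Nat.coprime_prod_right_iff]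
    intro p hp
    have hpp := (mem_PW.1 hp).2.1
    rw [Nat.coprime_comm, Nat.Prime.coprime_iff_not_dvd hpp]
    intro hd
    apply (hρ p hp).1 j
    exact (Nat.modEq_zero_iff_dvd).1 (((hr p hp).add_right (t j)).symm.trans ((Nat.modEq_zero_iff_dvd).2 hd))
  have hXD : (Real.log X) ^ D ≤ X ^ (D + A + 2) :=
    (pow_le_pow_left₀ hL0.le hLX D).trans (pow_le_pow_right₀ (by linarith) (by omega))
  obtain ⟨n, hXn, hn3, hnb, hnr, hE, hU⟩ := htX ps S hps hS hBV t htinj htl U0 hU0c (fun _ => a) (fun z => z)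
    (fun z hz => ⟨ha, (hZ z (hU0 hz)).2⟩)
    (fun z hz => ⟨haD.trans hXD, by
      refine (hZ z (hU0 hz)).1.trans ?_
      have hLL : Real.log (Real.log X) ≤ X := (Real.log_le_sub_one_of_pos hL0).trans (by linarith)
      have hLL0 : 0 ≤ Real.log (Real.log X) := Real.log_nonneg hL1
      calc Real.log X * (Real.log (Real.log X)) ^ A ≤ X * X ^ A :=
            mul_le_mul hLX (pow_le_pow_left₀ hLL0 hLL A) (by positivity) hX0.le
        _ = X ^ (A + 1) := by ring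
        _ ≤ X ^ (D + A + 2) := pow_le_pow_right₀ (by linarith) (by omega)⟩)
    (fun k _ l _ hkl h1 => hkl (mul_left_cancel₀ ha h1).symm) g hg0
    (hgD.trans hXD) r hrc col hcol bad hbad
  have hsmall : ∀ p : ℕ, p.Prime → p ≤ Z₀ → p ∈ PW X S ps := fun p hp hpZ =>
    small_mem_PW hLd hL2d hps le_rfl hS hp hpZ
  refine ⟨n, hXn, hn3, hnb, ?_, ?_, hE, fun z hz => ?_⟩
  · apply modEq_of_primes hd
    intro p hp
    have hpp := Nat.prime_of_mem_primeFactors hp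
    have hpd := Nat.dvd_of_mem_primeFactors hp
    have hd0 : 0 < d := Nat.pos_of_ne_zero hd.ne_zero
    have hpled : p ≤ d := Nat.le_of_dvd hd0 hpd
    have hpPW := hsmall p hpp (hpled.trans hZd)
    have h1 := hr p hpPW
    have h2 : ρ p = u p := (hρ p hpPW).2.1 (hpd.trans hdg)
    have h3 : u p = h := by simp only [hu]; rw [if_pos hpd]
    rw [h2, h3] at h1
    exact (hnr.of_dvd ((prime_dvd_WW hpp).2 hpPW)).trans h1
  · intro j p hpp hpz hpd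
    have hpPW := hsmall p hpp (hpz.trans hZz)
    have hpW := (prime_dvd_WW (X := X) (S := S) (ps := ps) hpp).2 hpPW
    have h1 : n + t j ≡ r + t j [MOD p] := (hnr.of_dvd hpW).add_right _
    have h2 : p ∣ r + t j := (Nat.modEq_zero_iff_dvd).1 (h1.symm.trans ((Nat.modEq_zero_iff_dvd).2 hpd))
    exact hpp.one_lt.ne' (Nat.dvd_one.1 ((hrc j) ▸ Nat.dvd_gcd h2 hpW))
  · by_cases hzU : z ∈ U0
    · exact hU z hzU
    · obtain ⟨p, hp, hpg, hpz⟩ := hcov' z hz hzU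
      have hpp := (mem_PW.1 hp).2.1
      refine ⟨p, hpp, le_rpow_of_le_yy hX0 (by linarith) (mem_PW.1 hp).1, hpg, ?_⟩
      have h1 := (hρ p hp).2.2 hpg
      have h2 : (p : ℤ) ∣ (n : ℤ) - ρ p :=
        Nat.modEq_iff_dvd.1 (((hnr.of_dvd ((prime_dvd_WW hpp).2 hp)).trans (hr p hp)).symm)
      have h3 : a * (n : ℤ) + z = a * (n - ρ p) + (a * ρ p + cl p) + (z - cl p) := by ring
      rw [h3]
      exact dvd_add (dvd_add (h2.mul_left _) h1) hpz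

/-- clusters of primes from an arbitrary admissible tuple inside an arbitrary prime-free pattern -/
theorem tuple_patterns : ∃ η : ℝ, 0 < η ∧ ∀ m : ℕ, 1 ≤ m → ∃ K : ℕ, m ≤ K ∧
    ∀ (A D J : ℕ) (A₀ : ℝ) (d : ℕ), Squarefree d →
    ∃ c : ℝ, 0 < c ∧ ∀ᶠ X : ℝ in atTop,
    ∀ a : ℤ, a ≠ 0 → |(a : ℝ)| ≤ (Real.log X) ^ D → |(a : ℝ)| ≤ A₀ * (a.natAbs.totient : ℝ) →
    ∀ t : Fin K → ℕ, Function.Injective t → (∀ j, (t j : ℝ) ≤ (Real.log X) ^ 2) →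
    (∀ p : ℕ, p.Prime → ∃ v : ℕ, ∀ j, ¬ p ∣ v + t j) →
    ∀ h : ℕ, (∀ j, (h + t j).Coprime d) →
    ∀ col : Fin K → Fin m, (∀ e, K ≤ 2 * m * fib col e) →
    ∀ Z : Finset ℤ, (∀ z ∈ Z, |(z : ℝ)| ≤ Real.log X * (Real.log (Real.log X)) ^ A ∧ ∀ j, z ≠ a * t j) →
    ∑ z ∈ Z, wZ (fun j => a * t j) z ≤ c * ff X →
    ∀ bad : Finset ℕ, (bad.card : ℝ) ≤ X ^ (9 / 10 : ℝ) →
    ∃ n : ℕ, X < n ∧ (n : ℝ) ≤ 3 * X ∧ n ∉ bad ∧ n ≡ h [MOD d] ∧
      (∃ E : Finset (Fin m), η * m ≤ E.card ∧ ∀ e ∈ E, ∃ j, col j = e ∧ (n + t j).Prime) ∧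
      ∀ z ∈ Z, ∀ j : ℤ, 1 ≤ |j| → |j| ≤ J → ∀ q : ℕ, q.Prime → j * q ≠ a * n + z := by
  obtain ⟨η, hη, h0⟩ := tupZ
  refine ⟨η, hη, fun m hm => ?_⟩
  obtain ⟨K, hmK, h1⟩ := h0 m hm
  refine ⟨K, hmK, fun A D J A₀ d hd => ?_⟩
  obtain ⟨ℓ, hℓ⟩ : ∃ ℓ : ℕ, ℓ = J.factorial := ⟨_, rfl⟩
  have hℓ0 : 0 < ℓ := by rw [hℓ]; exact Nat.factorial_pos J
  have hd0 : d ≠ 0 := hd.ne_zero
  obtain ⟨c, hc, hone⟩ := h1 A (D + 1) (ℓ + |A₀| + d)
  refine ⟨c, hc, ?_⟩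
  have t1 := Real.tendsto_log_atTop
  have t2 : Tendsto (fun y : ℝ => Real.log (Real.log y)) atTop atTop := t1.comp t1
  filter_upwards [hone d 1 hd, t1.eventually_ge_atTop ((ℓ : ℝ) * d), t1.eventually_ge_atTop ((J : ℝ) + 2),
    t2.eventually_ge_atTop 1, eventually_ge_atTop 4,
    t1.eventually (Pool.Agent.H378R2.ev_pow_exp (A + 6) (1 / 40) 1 (by norm_num))]
    with X hX hLd hLJ hLℓ hX4 hE
  intro a ha haD haφ t htinj htl hadm h hh col hcol Z hZ hZw bad hbad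
  set L := Real.log X with hL
  have hX0 : 0 < X := by linarith
  have hJ0 : (0 : ℝ) ≤ J := Nat.cast_nonneg J
  have hL1 : 1 ≤ L := by linarith
  have hL0 : 0 < L := by linarith
  have hLL : Real.log L ≤ L := (Real.log_le_sub_one_of_pos hL0).trans (by linarith)
  have hLL0 : 0 < Real.log L := by linarith
  set E := Real.exp (1 / 40 * L) with hEd
  rw [one_mul] at hE
  have hE0 : 0 < E := Real.exp_pos _
  have hELJ : (J : ℝ) + 2 ≤ E := by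
    have h1 : L ^ 1 ≤ L ^ (A + 6) := pow_le_pow_right₀ hL1 (by omega)
    rw [pow_one] at h1
    linarith
  have hE1 : 1 ≤ E := by linarith
  have hpowE : ∀ k : ℕ, X ^ ((k : ℝ) / 40) = E ^ k := by
    intro k
    rw [hEd, ← Real.exp_nat_mul, Real.rpow_def_of_pos hX0, ← hL]
    congr 1
    ring
  have e1000 : X ^ (1 / 1000 : ℝ) ≤ E := by
    have h1 := hpowE 1
    rw [pow_one] at h1
    rw [← h1]
    exact Real.rpow_le_rpow_of_exponent_le (by linarith) (by norm_num)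
  have eX : X = E ^ 40 := by
    have h1 := hpowE 40
    rw [← h1]
    norm_num
  have hb2 : L * (Real.log L) ^ A ≤ E := by
    calc L * (Real.log L) ^ A ≤ L * L ^ A := by gcongr
      _ = L ^ (A + 1) := by ring
      _ ≤ L ^ (A + 6) := pow_le_pow_right₀ hL1 (by omega)
      _ ≤ E := hE
  -- the data
  set g : ℕ := ℓ * (a.natAbs * d) with hg
  have hana : a.natAbs ≠ 0 := Int.natAbs_ne_zero.2 ha
  have hg0 : g ≠ 0 := by
    rw [hg]
    exact mul_ne_zero hℓ0.ne' (mul_ne_zero hana hd0)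
  have hacast : ((a.natAbs : ℕ) : ℝ) = |(a : ℝ)| := by rw [Nat.cast_natAbs, Int.cast_abs]
  have hsum : ∑ p ∈ g.primeFactors, (1 : ℝ) / p ≤ ℓ + |A₀| + d := by
    have h1 := sum_inv_mul ℓ (a.natAbs * d) hℓ0.ne' (mul_ne_zero hana hd0)
    have h2 := sum_inv_mul a.natAbs d hana hd0
    have h3 := sum_inv_le_self ℓ
    have h4 := sum_inv_le_self d
    have h5 := sum_inv_le_of_totient a.natAbs hana A₀ (by rw [hacast]; exact haφ)
    have h6 := le_abs_self A₀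
    rw [← hg] at h1
    linarith
  have hgle : (g : ℝ) ≤ L ^ (D + 1) := by
    rw [hg]
    push_cast
    rw [hacast]
    calc (ℓ : ℝ) * (|(a : ℝ)| * d) = |(a : ℝ)| * (ℓ * d) := by ring
      _ ≤ L ^ D * L := mul_le_mul haD hLd (by positivity) (by positivity)
      _ = L ^ (D + 1) := (pow_succ _ _).symm
  have hag : a ∣ (g : ℤ) := by
    rw [hg]
    push_cast
    exact ((dvd_abs a a).2 dvd_rfl).mul_right _ |>.mul_left _
  obtain ⟨n, hXn, hn3, hnb, hnd, -, hEE, hmain⟩ := hX a g hg0 hag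
    (by
      rw [hg]
      exact Dvd.dvd.mul_left (dvd_mul_left _ _) _) hsum hgle t htinj htl hadm h hh col hcol bad hbad Z hZ hZw
  refine ⟨n, hXn, hn3, hnb, hnd, hEE, ?_⟩
  intro z hz j hj1 hjJ q hq hjq
  obtain ⟨q', hq', hq'X, hq'g, hq'd⟩ := hmain z hz
  rw [← hjq] at hq'd
  have hqq := eq_of_multiple' hℓ hj1 hjJ hq hq' (dvd_mul_right ℓ (a.natAbs * d)) hq'g hq'd
  have hqE : (q : ℝ) ≤ E := by
    rw [← hqq]
    exact hq'X.trans e1000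
  have h2 : |(a : ℝ)| * n ≤ (J : ℝ) * E + E := by
    have h2 : (a : ℝ) * n = j * q - z := by
      have h3 : ((j * q : ℤ) : ℝ) = ((a * n + z : ℤ) : ℝ) := by rw [hjq]
      push_cast at h3
      linarith
    have h3 : |(a : ℝ)| * n = |(a : ℝ) * n| := by
      rw [abs_mul, abs_of_nonneg (Nat.cast_nonneg n : (0 : ℝ) ≤ n)]
    rw [h3, h2]
    refine (abs_sub _ _).trans ?_
    rw [abs_mul, abs_of_nonneg (Nat.cast_nonneg q : (0 : ℝ) ≤ q)]
    have h4 : |(j : ℝ)| ≤ J := by exact_mod_cast hjJ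
    have h5 : |(j : ℝ)| * q ≤ J * E := mul_le_mul h4 hqE (Nat.cast_nonneg q) hJ0
    have h6 := (hZ z hz).1.trans hb2
    linarith
  have h3 : (1 : ℝ) ≤ |(a : ℝ)| := by
    have : 1 ≤ |a| := Int.one_le_abs ha
    exact_mod_cast this
  have h4 : X ≤ |(a : ℝ)| * n := by
    calc X ≤ n := hXn.le
      _ ≤ |(a : ℝ)| * n := le_mul_of_one_le_left (Nat.cast_nonneg n) h3
  have h5 : (J : ℝ) * E + E < E ^ 40 := by
    calc (J : ℝ) * E + E = (J + 1) * E := by ring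
      _ < E * E := mul_lt_mul_of_pos_right (by linarith) hE0
      _ = E ^ 2 := by ring
      _ ≤ E ^ 40 := pow_le_pow_right₀ hE1 (by norm_num)
  rw [eX] at h4
  linarith

end Pool.Agent.TH101.RG
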