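import Pool.Agent.TH101.RG.FamU
import Pool.Agent.TH101.RG.TupZ

set_option autoImplicit false
set_option maxHeartbeats 4000000

/-! # Arbitrary families of linear forms, simultaneously composite at clusters of primes -/

namespace Pool.Agent.TH101.RG

open Finset Filter Pool.Agent.H398R2.RK
open Pool.Agent.H378R2
open Pool.Agent.H318R2.Cr (cz_bounds Pz one_sub_inv_pos)
open Pool.Agent.H312R2.RG (BVat)
open Pool.Agent.H362R2.RQ (fib)

open scoped Classical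

/-- the product of the leading coefficient and of the values `b - a t_j` -/
def NT {K : ℕ} (t : Fin K → ℕ) (z : ℤ × ℤ) : ℤ := z.1 * ∏ j, (z.2 - z.1 * t j)

/-- the weight of the form `a n + b` -/
noncomputable def wT {K : ℕ} (t : Fin K → ℕ) (z : ℤ × ℤ) : ℝ :=
  ((NT t z).natAbs : ℝ) / ((NT t z).natAbs.totient : ℝ)

theorem wT_nonneg {K : ℕ} (t : Fin K → ℕ) (z : ℤ × ℤ) : 0 ≤ wT t z := by unfold wT; positivity

theorem wT_ge_one {K : ℕ} (t : Fin K → ℕ) (z : ℤ × ℤ) (h : NT t z ≠ 0) : 1 ≤ wT t z := by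
  unfold wT
  have h3 : 0 < (NT t z).natAbs := Int.natAbs_pos.2 h
  have h4 : 0 < (NT t z).natAbs.totient := Nat.totient_pos.2 h3
  rw [le_div_iff₀ (by exact_mod_cast h4), one_mul]
  exact_mod_cast Nat.totient_le _

theorem NT_ne_zero {K : ℕ} (t : Fin K → ℕ) (z : ℤ × ℤ) (h1 : z.1 ≠ 0) (h2 : ∀ j, z.2 ≠ z.1 * t j) :
    NT t z ≠ 0 :=
  mul_ne_zero h1 (prod_ne_zero_iff.2 fun j _ => sub_ne_zero.2 (h2 j))

theorem greedyT {K : ℕ} (t : Fin K → ℕ) (v : ℕ → ℕ) (P : Finset ℕ) (hP : ∀ p ∈ P, p.Prime)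
    (hv : ∀ p ∈ P, ∀ j, ¬ p ∣ v p + t j) : ∀ Z : Finset (ℤ × ℤ), ∃ β : ℕ → ℤ,
    (∀ p ∈ P, ∀ j, ¬ (p : ℤ) ∣ β p + t j) ∧
    ((Z.filter (fun z => ∀ p ∈ P, ¬ (p : ℤ) ∣ z.1 * β p + z.2)).card : ℝ) ≤
      ∑ z ∈ Z, ∏ p ∈ P, (if ∀ j : Fin 1, ¬ (p : ℤ) ∣ NT t z - (fun _ => (0 : ℤ)) j then
        1 - 1 / (p : ℝ) else 1) := by
  induction P using Finset.induction_on with
  | empty => exact fun Z => ⟨fun _ => 0, by simp, by simp⟩
  | insert q P hq ih =>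
    intro Z
    have hih := ih (fun p hp => hP p (mem_insert_of_mem hp)) (fun p hp => hv p (mem_insert_of_mem hp))
    have hqp := hP q (mem_insert_self _ _)
    have hq0 : (0 : ℝ) < q := by exact_mod_cast hqp.pos
    set Φ : ℤ × ℤ → ℝ := fun z => ∏ p ∈ P, (if ∀ j : Fin 1, ¬ (p : ℤ) ∣ NT t z - (fun _ => (0 : ℤ)) j then
        1 - 1 / (p : ℝ) else 1) with hΦ
    have hΦ0 : ∀ z, 0 ≤ Φ z := by
      intro z
      rw [hΦ]
      apply prod_nonneg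
      intro p hp
      have hp1 : (1 : ℝ) ≤ p := by exact_mod_cast (hP p (mem_insert_of_mem hp)).one_le
      split_ifs
      · rw [sub_nonneg, div_le_one (by linarith)]
        exact hp1
      · norm_num
    set G : Finset (ℤ × ℤ) := Z.filter (fun z => ∀ j : Fin 1, ¬ (q : ℤ) ∣ NT t z - (fun _ => (0 : ℤ)) j)
      with hG
    have hGm : ∀ z ∈ G, ¬ (q : ℤ) ∣ z.1 ∧ ∀ j, ¬ (q : ℤ) ∣ z.2 - z.1 * t j := by
      intro z hz
      rw [hG, mem_filter] at hz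
      have h1 := hz.2 0
      simp only [sub_zero] at h1
      unfold NT at h1
      exact ⟨fun h => h1 (h.mul_right _), fun j h =>
        h1 ((h.trans (dvd_prod_of_mem (fun j => z.2 - z.1 * (t j : ℤ)) (mem_univ j))).mul_left _)⟩
    have hex : ∀ z : ℤ × ℤ, ∃ r : ℕ, z ∈ G → (r < q ∧ (q : ℤ) ∣ z.1 * r + z.2) := by
      intro z
      by_cases hz : z ∈ G
      · obtain ⟨ρ, hρ⟩ := solve q hqp z.1 z.2 (hGm z hz).1
        refine ⟨ρ % q, fun _ => ⟨Nat.mod_lt _ hqp.pos, ?_⟩⟩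
        have h1 : (q : ℤ) ∣ (ρ : ℤ) - ((ρ % q : ℕ) : ℤ) := by
          rw [← Nat.modEq_iff_dvd]
          exact Nat.mod_modEq _ _
        have h2 : z.1 * ((ρ % q : ℕ) : ℤ) + z.2 = (z.1 * ρ + z.2) - z.1 * ((ρ : ℤ) - ((ρ % q : ℕ) : ℤ)) := by
          ring
        rw [h2]
        exact dvd_sub hρ (h1.mul_left _)
      · exact ⟨0, fun h => absurd h hz⟩
    choose f hf using hex
    obtain ⟨c, hc1, hc2⟩ : ∃ c : ℤ, (∀ j, ¬ (q : ℤ) ∣ c + t j) ∧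
        1 / (q : ℝ) * ∑ z ∈ G, Φ z ≤ ∑ z ∈ Z.filter (fun z => (q : ℤ) ∣ z.1 * c + z.2), Φ z := by
      obtain ⟨r, hr, hr2⟩ := Finset.exists_le_sum_fiber_of_maps_to_of_nsmul_le_sum
        (s := G) (t := range q) (f := f) (w := Φ)
        (b := 1 / (q : ℝ) * ∑ z ∈ G, Φ z)
        (by
          intro z hz
          rw [mem_range]
          exact (hf z hz).1)
        ⟨0, mem_range.2 hqp.pos⟩
        (by
          rw [card_range, nsmul_eq_mul, ← mul_assoc, mul_one_div, div_self hq0.ne', one_mul])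
      by_cases hne : (G.filter (fun z : ℤ × ℤ => f z = r)).Nonempty
      · obtain ⟨z₀, hz₀⟩ := hne
        rw [mem_filter] at hz₀
        refine ⟨r, ?_, hr2.trans ?_⟩
        · intro j hqr
          have h1 := (hf z₀ hz₀.1).2
          rw [hz₀.2] at h1
          have h2 := dvd_sub h1 (hqr.mul_left z₀.1)
          have h3 : z₀.1 * (r : ℤ) + z₀.2 - z₀.1 * ((r : ℤ) + t j) = z₀.2 - z₀.1 * t j := by ring
          rw [h3] at h2
          exact (hGm z₀ hz₀.1).2 j h2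
        · apply sum_le_sum_of_subset_of_nonneg
          · intro z hz
            rw [mem_filter] at hz ⊢
            refine ⟨(mem_filter.1 hz.1).1, ?_⟩
            have h1 := (hf z hz.1).2
            rwa [hz.2] at h1
          · intro i _ _
            exact hΦ0 i
      · rw [not_nonempty_iff_eq_empty] at hne
        rw [hne, sum_empty] at hr2
        refine ⟨v q, fun j h1 => ?_, hr2.trans (sum_nonneg fun i _ => hΦ0 i)⟩
        exact hv q (mem_insert_self _ _) j (by exact_mod_cast h1)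
    obtain ⟨β, hβ1, hβ2⟩ := hih (Z.filter (fun z => ¬ (q : ℤ) ∣ z.1 * c + z.2))
    refine ⟨fun p => if p = q then c else β p, ?_, ?_⟩
    · intro p hp j
      by_cases hpq : p = q
      · simp only [hpq, if_true]
        exact hc1 j
      · simp only [hpq, if_false]
        exact hβ1 p ((mem_insert.1 hp).resolve_left hpq) j
    · have h1 : (Z.filter (fun z => ∀ p ∈ insert q P, ¬ (p : ℤ) ∣ z.1 * (if p = q then c else β p) + z.2)).card ≤
          ((Z.filter (fun z => ¬ (q : ℤ) ∣ z.1 * c + z.2)).filter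
            (fun z => ∀ p ∈ P, ¬ (p : ℤ) ∣ z.1 * β p + z.2)).card := by
        apply card_le_card
        intro z hz
        rw [mem_filter] at hz
        rw [mem_filter, mem_filter]
        refine ⟨⟨hz.1, ?_⟩, ?_⟩
        · have := hz.2 q (mem_insert_self _ _)
          rwa [if_pos rfl] at this
        · intro p hp
          have h2 := hz.2 p (mem_insert_of_mem hp)
          rwa [if_neg (fun h : p = q => hq (h ▸ hp))] at h2
      have h2 : ((Z.filter (fun z => ∀ p ∈ insert q P,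
          ¬ (p : ℤ) ∣ z.1 * (if p = q then c else β p) + z.2)).card : ℝ) ≤
          ∑ z ∈ Z.filter (fun z => ¬ (q : ℤ) ∣ z.1 * c + z.2), Φ z := le_trans (by exact_mod_cast h1) hβ2
      refine h2.trans ?_
      have h3 : ∑ z ∈ Z.filter (fun z => (q : ℤ) ∣ z.1 * c + z.2), Φ z +
          ∑ z ∈ Z.filter (fun z => ¬ (q : ℤ) ∣ z.1 * c + z.2), Φ z =
          ∑ z ∈ Z, Φ z := sum_filter_add_sum_filter_not _ _ _
      have h4 : ∑ z ∈ Z, ∏ p ∈ insert q P, (if ∀ j : Fin 1, ¬ (p : ℤ) ∣ NT t z - (fun _ => (0 : ℤ)) j then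
          1 - 1 / (p : ℝ) else 1) =
          ∑ z ∈ Z, Φ z - 1 / (q : ℝ) * ∑ z ∈ G, Φ z := by
        rw [hG, mul_sum, sum_filter, ← sum_sub_distrib]
        apply sum_congr rfl
        intro z _
        rw [prod_insert hq]
        split_ifs
        · ring
        · ring
      rw [h4]
      linarith


/-- the covering -/
theorem covUT (K : ℕ) (A0 : ℝ) (c₃ : ℝ) (hc₃ : 0 < c₃) : ∃ c : ℝ, 0 < c ∧
    ∀ᶠ X : ℝ in atTop, ∀ (ps : ℕ) (S : Finset ℕ), GoodS X S → ∀ (g : ℕ), g ≠ 0 →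
    ∑ p ∈ g.primeFactors, (1 : ℝ) / p ≤ A0 →
    ∀ (t : Fin K → ℕ) (v : ℕ → ℕ), (∀ p : ℕ, p.Prime → ∀ j, ¬ p ∣ v p + t j) →
    ∀ Z : Finset (ℤ × ℤ), (∀ z ∈ Z, NT t z ≠ 0) →
    ∑ z ∈ Z, wT t z ≤ c * (Real.log X * Real.log (Real.log X)) →
    ∃ (β : ℕ → ℤ) (U0 : Finset (ℤ × ℤ)), U0 ⊆ Z ∧ (U0.card : ℝ) ≤ c₃ * Real.log X ∧
      (∀ p ∈ PW X S ps, ∀ j, ¬ (p : ℤ) ∣ β p + t j) ∧
      ∀ z ∈ Z, z ∉ U0 → ∃ p ∈ PW X S ps, ¬ p ∣ g ∧ (p : ℤ) ∣ z.1 * β p + z.2 := by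
  obtain ⟨c₁, c₂, hc₁, hc₁₂, hV⟩ := cz_bounds
  have hc₂ : 0 < c₂ := hc₁.trans_le hc₁₂
  refine ⟨c₃ / (2 * c₂ * Real.exp (2 * (A0 + 2))), by positivity, ?_⟩
  have t1 := Real.tendsto_log_atTop
  have t2 : Tendsto (fun y : ℝ => Real.log (Real.log y)) atTop atTop := t1.comp t1
  filter_upwards [t2.eventually_ge_atTop 1000, t1.eventually_gt_atTop 0] with X e1 hT0
  intro ps S hS g hg0 hgS t v hv Z hZ hZw
  set T := Real.log X with hT
  set A' := Real.log T with hA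
  have hA0 : 0 < A' := by linarith
  have hTe : T = Real.exp A' := by rw [hA, Real.exp_log hT0]
  have hTA : 2 * A' ≤ T := by
    have h1 := Real.add_one_le_exp (A' / 2)
    have h2 : Real.exp A' = Real.exp (A' / 2) * Real.exp (A' / 2) := by
      rw [← Real.exp_add]; congr 1; ring
    rw [hTe, h2]
    nlinarith [Real.exp_pos (A' / 2)]
  have hT4000 : 4000 ≤ T := by
    have h1 := Real.add_one_le_exp (A' / 2)
    have h2 : Real.exp A' = Real.exp (A' / 2) * Real.exp (A' / 2) := by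
      rw [← Real.exp_add]; congr 1; ring
    rw [hTe, h2]
    nlinarith [Real.exp_pos (A' / 2)]
  set y := yy X with hy
  have hyT : (y : ℝ) ≤ T / 1000 := Nat.floor_le (by positivity)
  have hyT2 : T / 2000 ≤ y := by
    have h1 : T / 1000 < (y : ℝ) + 1 := Nat.lt_floor_add_one _
    linarith [show T / 1000 = T / 2000 + T / 2000 by ring]
  have hy2r : (2 : ℝ) ≤ y := by linarith
  have hy2 : 2 ≤ y := by exact_mod_cast hy2r
  have hy0 : (0 : ℝ) < y := by linarith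
  have hly2 : A' / 2 ≤ Real.log y := by
    have h1 : Real.log (T / 2000) ≤ Real.log y := Real.log_le_log (by positivity) hyT2
    rw [Real.log_div hT0.ne' (by norm_num)] at h1
    have h2 : Real.log 2000 ≤ 500 := by
      have := Real.log_le_sub_one_of_pos (show (0 : ℝ) < 2000 / Real.exp 7.5 by positivity)
      have h3 : Real.log (2000 / Real.exp 7.5) = Real.log 2000 - 7.5 := by
        rw [Real.log_div (by norm_num) (Real.exp_pos _).ne', Real.log_exp]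
      have h4 : 2000 / Real.exp 7.5 ≤ 2000 / 8.5 := by
        apply div_le_div_of_nonneg_left (by norm_num) (by norm_num)
        have := Real.add_one_le_exp (7.5 : ℝ)
        linarith
      norm_num at h4 ⊢
      linarith
    linarith
  have hly0 : 0 < Real.log y := by linarith
  -- the primes that can be used
  set P : Finset ℕ := (PW X S ps).filter (fun p => ¬ p ∣ g) with hP
  have hPmem : ∀ p ∈ P, p ≤ y ∧ p.Prime ∧ p ∈ PW X S ps ∧ ¬ p ∣ g := by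
    intro p hp
    rw [hP, mem_filter] at hp
    exact ⟨(mem_PW.1 hp.1).1, (mem_PW.1 hp.1).2.1, hp.1, hp.2⟩
  have hPz : ∀ p ∈ Pz y, p.Prime := by
    intro p hp
    unfold Pool.Agent.H318R2.Cr.Pz at hp
    exact (mem_filter.1 hp).2
  have hPS : P ⊆ Pz y := by
    intro p hp
    obtain ⟨h1, h2, h3, h4⟩ := hPmem p hp
    unfold Pool.Agent.H318R2.Cr.Pz
    rw [mem_filter, mem_Ioc]
    exact ⟨⟨h2.pos, h1⟩, h2⟩
  have hpos : ∀ i : ℕ, 0 ≤ (1 : ℝ) / (i : ℝ) := fun i => by positivity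
  set Ps : Finset ℕ := if ps.Prime then {ps} else ∅ with hPs
  have hdiff : ∑ p ∈ Pz y \ P, (1 : ℝ) / p ≤ A0 + 2 := by
    have hsub : Pz y \ P ⊆ (S ∪ Ps) ∪ g.primeFactors := by
      intro p hp
      obtain ⟨h1, h2⟩ := Finset.mem_sdiff.1 hp
      have hpp := hPz p h1
      unfold Pool.Agent.H318R2.Cr.Pz at h1
      rw [mem_filter, mem_Ioc] at h1
      rw [mem_union, mem_union]
      by_contra hcon
      push Not at hcon
      obtain ⟨⟨k1, k2⟩, k3⟩ := hcon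
      apply h2
      rw [hP, mem_filter]
      refine ⟨mem_PW.2 ⟨h1.1.2, hpp, k1, ?_⟩, ?_⟩
      · intro h
        apply k2
        rw [hPs, ← h, if_pos hpp]
        simp
      · intro h
        apply k3
        rw [Nat.mem_primeFactors]
        exact ⟨hpp, h, hg0⟩
    have h1 : ∑ q ∈ Pz y \ P, (1 : ℝ) / q ≤ (∑ q ∈ S, (1 : ℝ) / q + ∑ q ∈ Ps, (1 : ℝ) / q) +
        ∑ q ∈ g.primeFactors, (1 : ℝ) / q := by
      refine (sum_le_sum_of_subset_of_nonneg hsub (fun i _ _ => hpos i)).trans ?_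
      refine (sum_union_le' _ hpos).trans ?_
      apply add_le_add_left
      exact sum_union_le' _ hpos
    have h2 : ∑ q ∈ Ps, (1 : ℝ) / q ≤ 1 := by
      rw [hPs]
      split_ifs with h
      · rw [sum_singleton, div_le_one (by exact_mod_cast h.pos)]
        exact_mod_cast h.one_lt.le
      · simp
    have h3 : ∑ q ∈ S, (1 : ℝ) / q ≤ 1 := by
      refine hS.2.trans ?_
      rw [div_le_one (by positivity)]
      nlinarith only [e1]
    linarith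
  have hprod : ∏ p ∈ Pz y, (1 - 1 / (p : ℝ)) ≤ 2 * c₂ / A' := by
    have h1 := (hV y hy2).2
    unfold Pool.Agent.H318R2.Cr.V at h1
    rw [← le_div_iff₀ hly0] at h1
    refine h1.trans ?_
    rw [div_le_div_iff₀ hly0 hA0]
    have h3 := mul_le_mul_of_nonneg_left hly2 hc₂.le
    linarith only [h3]
  obtain ⟨βg, hβ1, hβ2⟩ := greedyT t v P (fun p hp => (hPmem p hp).2.1) (fun p hp => hv p (hPmem p hp).2.1) Z
  set U0 : Finset (ℤ × ℤ) := Z.filter (fun z => ∀ p ∈ P, ¬ (p : ℤ) ∣ z.1 * βg p + z.2) with hU0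
  have hUc : (U0.card : ℝ) ≤ c₃ * T := by
    have h1 : (U0.card : ℝ) ≤ ∑ z ∈ Z, (2 * c₂ / A') * Real.exp (2 * (A0 + 2)) * wT t z := by
      refine hβ2.trans (sum_le_sum fun z hz => ?_)
      refine (prodZ 1 (fun _ => (0 : ℤ)) P (Pz y) hPS hPz (A0 + 2) hdiff (NT t z)
        (fun _ => hZ z hz)).trans ?_
      rw [Fin.prod_univ_one, sub_zero]
      apply mul_le_mul_of_nonneg_right _ (wT_nonneg t z)
      exact mul_le_mul_of_nonneg_right hprod (Real.exp_pos _).le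
    rw [← mul_sum] at h1
    calc (U0.card : ℝ) ≤ (2 * c₂ / A') * Real.exp (2 * (A0 + 2)) *
          (c₃ / (2 * c₂ * Real.exp (2 * (A0 + 2))) * (T * A')) :=
          h1.trans (mul_le_mul_of_nonneg_left hZw (by positivity))
      _ = c₃ * T := by
          field_simp
  refine ⟨fun p => if p ∈ P then βg p else v p, U0, filter_subset _ _, hUc, ?_, ?_⟩
  · intro p hp j
    have hpp := (mem_PW.1 hp).2.1
    show ¬ (p : ℤ) ∣ (if p ∈ P then βg p else v p) + t j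
    split_ifs with h1
    · exact hβ1 p h1 j
    · intro h1
      exact hv p hpp j (by exact_mod_cast h1)
  · intro z hz hzU
    have h1 : ∃ p ∈ P, (p : ℤ) ∣ z.1 * βg p + z.2 := by
      by_contra hcon
      push Not at hcon
      exact hzU (mem_filter.2 ⟨hz, hcon⟩)
    obtain ⟨p, hp, hpd⟩ := h1
    obtain ⟨g1, g2, g3, g4⟩ := hPmem p hp
    refine ⟨p, g3, g4, ?_⟩
    show (p : ℤ) ∣ z.1 * (if p ∈ P then βg p else v p) + z.2
    rw [if_pos hp]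
    exact hpd


/-- the forms at a cluster -/
theorem tupU : ∃ η : ℝ, 0 < η ∧ ∀ m : ℕ, 1 ≤ m → ∃ K : ℕ, m ≤ K ∧ ∀ (D : ℕ) (A0 : ℝ),
    ∃ c : ℝ, 0 < c ∧ ∀ d : ℕ, Squarefree d → ∀ᶠ X : ℝ in atTop,
    ∀ (g : ℕ), g ≠ 0 → d ∣ g → ∑ p ∈ g.primeFactors, (1 : ℝ) / p ≤ A0 →
    (g : ℝ) ≤ X ^ D →
    ∀ t : Fin K → ℕ, Function.Injective t → (∀ j, (t j : ℝ) ≤ (Real.log X) ^ 2) →
    (∀ p : ℕ, p.Prime → ∃ v : ℕ, ∀ j, ¬ p ∣ v + t j) →
    ∀ h : ℕ, (∀ j, (h + t j).Coprime d) →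
    ∀ col : Fin K → Fin m, (∀ e, K ≤ 2 * m * fib col e) →
    ∀ bad : Finset ℕ, (bad.card : ℝ) ≤ X ^ (9 / 10 : ℝ) →
    ∀ Z : Finset (ℤ × ℤ), (∀ z ∈ Z, z.1 ≠ 0 ∧ ∀ j, z.2 ≠ z.1 * t j) →
    (∀ z ∈ Z, |(z.1 : ℝ)| ≤ X ^ D ∧ |(z.2 : ℝ)| ≤ X ^ D) →
    (∀ k ∈ Z, ∀ l ∈ Z, k ≠ l → k.1 * l.2 ≠ l.1 * k.2) →
    ∑ z ∈ Z, wT t z ≤ c * (Real.log X * Real.log (Real.log X)) →
    ∃ n : ℕ, X < n ∧ (n : ℝ) ≤ 3 * X ∧ n ∉ bad ∧ n ≡ h [MOD d] ∧
      (∃ E : Finset (Fin m), η * m ≤ E.card ∧ ∀ e ∈ E, ∃ j, col j = e ∧ (n + t j).Prime) ∧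
      ∀ z ∈ Z, ∃ q : ℕ, q.Prime ∧ (q : ℝ) ≤ X ^ (1 / 1000 : ℝ) ∧ ¬ q ∣ g ∧ (q : ℤ) ∣ z.1 * n + z.2 := by
  obtain ⟨η, hη, h0⟩ := templT
  refine ⟨η, hη, fun m hm => ?_⟩
  obtain ⟨K, hmK, h1⟩ := h0 m hm
  refine ⟨K, hmK, fun D A0 => ?_⟩
  obtain ⟨Abv, c₄, hc₄, ht⟩ := h1 D
  obtain ⟨c, hc, hcov⟩ := covUT K A0 c₄ hc₄
  refine ⟨c, hc, fun d hd => ?_⟩
  obtain ⟨Z₀, hZ₀⟩ : ∃ Z : ℕ, Z = max 4 d := ⟨_, rfl⟩
  have hZ4 : 4 ≤ Z₀ := by rw [hZ₀]; exact le_max_left _ _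
  have hZd : d ≤ Z₀ := by rw [hZ₀]; exact le_max_right _ _
  obtain ⟨X1, hbv⟩ := bvrel_holds Abv Z₀
  have t1 := Real.tendsto_log_atTop
  have t2 : Tendsto (fun y : ℝ => Real.log (Real.log y)) atTop atTop := t1.comp t1
  filter_upwards [ht Z₀ hZ4, hcov, eventually_ge_atTop X1, eventually_ge_atTop 4,
    t1.eventually_ge_atTop 1, t1.eventually_ge_atTop (1000 * Z₀),
    t2.eventually_ge_atTop (Z₀ + 1)] with X htX hcovX hX1 hX4 hL1 hLd hL2d
  intro g hg0 hdg hgS hgD t htinj htl hadm h hhd col hcol bad hbad Z hZ hZle hdet hw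
  obtain ⟨ps, S, hps, hS, hBV⟩ := hbv X hX1
  have hX0 : 0 < X := by linarith
  have hL0 : 0 < Real.log X := by linarith
  have hLX : Real.log X ≤ X := (Real.log_le_sub_one_of_pos hX0).trans (by linarith)
  choose! v hv using hadm
  set u : ℕ → ℕ := fun p => if p ∣ d then h else v p with hu
  have hup : ∀ p, p.Prime → ∀ j, ¬ p ∣ u p + t j := by
    intro p hp j
    simp only [hu]
    split_ifs with hpd
    · intro hph
      exact hp.one_lt.ne' (Nat.dvd_one.1 ((hhd j) ▸ Nat.dvd_gcd hph hpd))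
    · exact hv p hp j
  obtain ⟨cl, U0, hU0, hU0c, hcl, hcov'⟩ := hcovX ps S hS g hg0 hgS t u hup Z
    (fun z hz => NT_ne_zero t z (hZ z hz).1 (hZ z hz).2) hw
  have hex : ∀ p : ℕ, ∃ ρ : ℕ, p ∈ PW X S ps → ((∀ j, ¬ p ∣ ρ + t j) ∧ (p ∣ g → ρ = u p) ∧
      (¬ p ∣ g → (p : ℤ) ∣ (ρ : ℤ) - cl p)) := by
    intro p
    by_cases hp : p ∈ PW X S ps
    · have hpp := (mem_PW.1 hp).2.1
      by_cases hpg : p ∣ g
      · exact ⟨u p, fun _ => ⟨hup p hpp, fun _ => rfl, fun h => absurd hpg h⟩⟩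
      · refine ⟨(cl p % p).toNat, fun _ => ?_⟩
        have h0 : 0 ≤ cl p % p := Int.emod_nonneg _ (by exact_mod_cast hpp.ne_zero)
        have h1 : (p : ℤ) ∣ (((cl p % p).toNat : ℕ) : ℤ) - cl p := by
          rw [Int.toNat_of_nonneg h0]
          have h2 := Int.emod_add_mul_ediv (cl p) p
          exact ⟨-(cl p / p), by linarith⟩
        refine ⟨?_, fun h => absurd h hpg, fun _ => h1⟩
        intro j h2
        apply hcl p hp j
        have h3 : (p : ℤ) ∣ ((((cl p % p).toNat + t j : ℕ)) : ℤ) := Int.natCast_dvd_natCast.2 h2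
        have h4 := dvd_sub h3 h1
        have h5 : ((((cl p % p).toNat + t j : ℕ)) : ℤ) - ((((cl p % p).toNat : ℕ) : ℤ) - cl p) = cl p + t j := by
          push_cast; ring
        rwa [h5] at h4
    · exact ⟨0, fun h => absurd h hp⟩
  choose ρ hρ using hex
  obtain ⟨r, hr⟩ := Nat.chineseRemainderOfFinset ρ (fun p => p) (PW X S ps)
    (fun p hp => (mem_PW.1 hp).2.1.ne_zero)
    (fun p hp q hq hpq => (Nat.coprime_primes (mem_PW.1 (by simpa using hp)).2.1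
      (mem_PW.1 (by simpa using hq)).2.1).2 hpq)
  have hrc : ∀ j, (r + t j).Coprime (WW X S ps) := by
    intro j
    unfold WW
    rw [Nat.coprime_prod_right_iff]
    intro p hp
    have hpp := (mem_PW.1 hp).2.1
    rw [Nat.coprime_comm, Nat.Prime.coprime_iff_not_dvd hpp]
    intro hd
    apply (hρ p hp).1 j
    exact (Nat.modEq_zero_iff_dvd).1 (((hr p hp).add_right (t j)).symm.trans ((Nat.modEq_zero_iff_dvd).2 hd))
  obtain ⟨n, hXn, hn3, hnb, hnr, hE, hU⟩ := htX ps S hps hS hBV t htinj htl U0 hU0c (fun z => z.1) (fun z => z.2)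
    (fun z hz => hZ z (hU0 hz)) (fun z hz => hZle z (hU0 hz))
    (fun k hk l hl => hdet k (hU0 hk) l (hU0 hl)) g hg0
    hgD r hrc col hcol bad hbad
  have hsmall : ∀ p : ℕ, p.Prime → p ≤ Z₀ → p ∈ PW X S ps := fun p hp hpZ =>
    small_mem_PW hLd hL2d hps le_rfl hS hp hpZ
  refine ⟨n, hXn, hn3, hnb, ?_, hE, fun z hz => ?_⟩
  · apply modEq_of_primes hd
    intro p hp
    have hpp := Nat.prime_of_mem_primeFactors hp
    have hpd := Nat.dvd_of_mem_primeFactors hp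
    have hd0 : 0 < d := Nat.pos_of_ne_zero hd.ne_zero
    have hpled : p ≤ d := Nat.le_of_dvd hd0 hpd
    have hpPW := hsmall p hpp (hpled.trans hZd)
    have h1 := hr p hpPW
    have h2 : ρ p = u p := (hρ p hpPW).2.1 (hpd.trans hdg)
    have h3 : u p = h := by simp only [hu]; rw [if_pos hpd]
    rw [h2, h3] at h1
    exact (hnr.of_dvd ((prime_dvd_WW hpp).2 hpPW)).trans h1
  · by_cases hzU : z ∈ U0
    · exact hU z hzU
    · obtain ⟨p, hp, hpg, hpz⟩ := hcov' z hz hzU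
      have hpp := (mem_PW.1 hp).2.1
      refine ⟨p, hpp, le_rpow_of_le_yy hX0 (by linarith) (mem_PW.1 hp).1, hpg, ?_⟩
      have h1 := (hρ p hp).2.2 hpg
      have h2 : (p : ℤ) ∣ (n : ℤ) - ρ p :=
        Nat.modEq_iff_dvd.1 (((hnr.of_dvd ((prime_dvd_WW hpp).2 hp)).trans (hr p hp)).symm)
      have h3 : z.1 * (n : ℤ) + z.2 = z.1 * (n - ρ p) + z.1 * (ρ p - cl p) + (z.1 * cl p + z.2) := by ring
      rw [h3]
      exact dvd_add (dvd_add (h2.mul_left _) (h1.mul_left _)) hpz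


theorem prim_exists' {K : ℕ} (t : Fin K → ℕ) (z : ℤ × ℤ) (h1 : z.1 ≠ 0) (h2 : ∀ j, z.2 ≠ z.1 * t j) :
    ∃ (w : ℤ × ℤ) (e : ℤ), e ≠ 0 ∧
    z.1 = e * w.1 ∧ z.2 = e * w.2 ∧ 0 < w.1 ∧ (∀ j, w.2 ≠ w.1 * t j) ∧ IsCoprime w.1 w.2 := by
  have hg : Int.gcd z.1 z.2 ≠ 0 := by
    intro h
    exact h1 (Int.gcd_eq_zero_iff.1 h).1
  obtain ⟨a, ha⟩ : (Int.gcd z.1 z.2 : ℤ) ∣ z.1 := Int.gcd_dvd_left _ _
  obtain ⟨b, hb⟩ : (Int.gcd z.1 z.2 : ℤ) ∣ z.2 := Int.gcd_dvd_right _ _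
  set g : ℤ := (Int.gcd z.1 z.2 : ℤ) with hgd
  have hg0 : g ≠ 0 := by rw [hgd]; exact_mod_cast hg
  have ha0 : a ≠ 0 := by
    rintro rfl
    rw [mul_zero] at ha
    exact h1 ha
  have hcop : IsCoprime a b := by
    rw [Int.isCoprime_iff_gcd_eq_one]
    have h3 : Int.gcd z.1 z.2 = Int.gcd z.1 z.2 * Int.gcd a b := by
      have h4 : Int.gcd (g * a) (g * b) = g.natAbs * Int.gcd a b := Int.gcd_mul_left _ _ _
      rw [← ha, ← hb, hgd, Int.natAbs_natCast] at h4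
      exact h4
    have h5 : Int.gcd z.1 z.2 * 1 = Int.gcd z.1 z.2 * Int.gcd a b := by rw [mul_one]; exact h3
    exact (Nat.eq_of_mul_eq_mul_left (Nat.pos_of_ne_zero hg) h5).symm
  have hne : ∀ j, b ≠ a * t j := by
    intro j h
    apply h2 j
    rw [hb, ha, h]
    ring
  rcases lt_or_gt_of_ne ha0 with h | h
  · refine ⟨(-a, -b), -g, neg_ne_zero.2 hg0, ?_, ?_, ?_, ?_, ?_⟩
    · show z.1 = -g * -a
      rw [ha]; ring
    · show z.2 = -g * -b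
      rw [hb]; ring
    · show 0 < -a
      omega
    · intro j h3
      apply hne j
      have h4 : -b = -a * (t j : ℤ) := h3
      linarith
    · exact hcop.neg_neg
  · exact ⟨(a, b), g, hg0, ha, hb, h, hne, hcop⟩

theorem prim_familyT {K : ℕ} (t : Fin K → ℕ) (Z : Finset (ℤ × ℤ))
    (hZ : ∀ z ∈ Z, z.1 ≠ 0 ∧ ∀ j, z.2 ≠ z.1 * t j) : ∃ Z' : Finset (ℤ × ℤ),
    (∀ w ∈ Z', 0 < w.1 ∧ (∀ j, w.2 ≠ w.1 * t j) ∧ ∃ z ∈ Z, |(w.1 : ℝ)| ≤ |(z.1 : ℝ)| ∧ |(w.2 : ℝ)| ≤ |(z.2 : ℝ)|) ∧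
    (∀ k ∈ Z', ∀ l ∈ Z', k ≠ l → k.1 * l.2 ≠ l.1 * k.2) ∧
    ∑ z ∈ Z', wT t z ≤ ∑ z ∈ Z, wT t z ∧
    ∀ z ∈ Z, ∃ w ∈ Z', ∃ e : ℤ, e ≠ 0 ∧ z.1 = e * w.1 ∧ z.2 = e * w.2 := by
  have hex : ∀ z : ℤ × ℤ, ∃ (w : ℤ × ℤ) (e : ℤ), z ∈ Z → (e ≠ 0 ∧
    z.1 = e * w.1 ∧ z.2 = e * w.2 ∧ 0 < w.1 ∧ (∀ j, w.2 ≠ w.1 * t j) ∧ IsCoprime w.1 w.2) := by
    intro z
    by_cases hz : z ∈ Z
    · obtain ⟨w, e, h⟩ := prim_exists' t z (hZ z hz).1 (hZ z hz).2
      exact ⟨w, e, fun _ => h⟩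
    · exact ⟨0, 0, fun h => absurd h hz⟩
  choose f e hf using hex
  refine ⟨Z.image f, ?_, ?_, ?_, ?_⟩
  · intro w hw
    rw [mem_image] at hw
    obtain ⟨z, hz, rfl⟩ := hw
    obtain ⟨k1, k2, k3, k4, k5, k6⟩ := hf z hz
    exact ⟨k4, k5, z, hz, abs_le_of_mul k2 k1, abs_le_of_mul k3 k1⟩
  · intro k hk l hl hkl heq
    rw [mem_image] at hk hl
    obtain ⟨z, hz, rfl⟩ := hk
    obtain ⟨z', hz', rfl⟩ := hl
    obtain ⟨_, _, _, k4, k5, k6⟩ := hf z hz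
    obtain ⟨_, _, _, l4, l5, l6⟩ := hf z' hz'
    have h1 : (f z).1 ∣ (f z').1 := by
      have h2 : (f z).1 ∣ (f z').1 * (f z).2 := ⟨(f z').2, heq.symm⟩
      exact k6.dvd_of_dvd_mul_right h2
    have h2 : (f z').1 ∣ (f z).1 := by
      have h2 : (f z').1 ∣ (f z).1 * (f z').2 := ⟨(f z).2, heq⟩
      exact l6.dvd_of_dvd_mul_right h2
    have h3 : (f z).1 = (f z').1 := Int.dvd_antisymm k4.le l4.le h1 h2
    apply hkl
    apply Prod.ext h3
    rw [h3] at heq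
    exact (mul_left_cancel₀ l4.ne' heq).symm
  · refine (sum_image_le'' Z f (wT t) (wT_nonneg t)).trans (sum_le_sum fun z hz => ?_)
    obtain ⟨k1, k2, k3, k4, k5, k6⟩ := hf z hz
    have h1 : (NT t (f z)).natAbs ∣ (NT t z).natAbs := by
      rw [Int.natAbs_dvd_natAbs]
      unfold NT
      apply mul_dvd_mul ⟨e z, by rw [k2]; ring⟩
      apply prod_dvd_prod_of_dvd
      intro j _
      exact ⟨e z, by rw [k2, k3]; ring⟩
    exact ratio_mono h1 (Int.natAbs_ne_zero.2 (NT_ne_zero t z (hZ z hz).1 (hZ z hz).2))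
  · intro z hz
    obtain ⟨k1, k2, k3, k4, k5, k6⟩ := hf z hz
    exact ⟨f z, mem_image.2 ⟨z, hz, rfl⟩, e z, k1, k2, k3⟩

/-- arbitrary families of linear forms at clusters of primes -/
theorem tuple_forms : ∃ η : ℝ, 0 < η ∧ ∀ m : ℕ, 1 ≤ m → ∃ K : ℕ, m ≤ K ∧
    ∀ (D J d : ℕ), Squarefree d → ∃ c : ℝ, 0 < c ∧ ∀ᶠ X : ℝ in atTop,
    ∀ t : Fin K → ℕ, Function.Injective t → (∀ j, (t j : ℝ) ≤ (Real.log X) ^ 2) →
    (∀ p : ℕ, p.Prime → ∃ v : ℕ, ∀ j, ¬ p ∣ v + t j) →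
    ∀ h : ℕ, (∀ j, (h + t j).Coprime d) →
    ∀ col : Fin K → Fin m, (∀ e, K ≤ 2 * m * fib col e) →
    ∀ Z : Finset (ℤ × ℤ),
    (∀ z ∈ Z, z.1 ≠ 0 ∧ (∀ j, z.2 ≠ z.1 * t j) ∧ |(z.1 : ℝ)| ≤ X ^ D ∧ |(z.2 : ℝ)| ≤ X ^ D) →
    ∑ z ∈ Z, wT t z ≤ c * (Real.log X * Real.log (Real.log X)) →
    ∀ bad : Finset ℕ, (bad.card : ℝ) ≤ X ^ (7 / 8 : ℝ) →
    ∃ n : ℕ, X < n ∧ (n : ℝ) ≤ 3 * X ∧ n ∉ bad ∧ n ≡ h [MOD d] ∧
      (∃ E : Finset (Fin m), η * m ≤ E.card ∧ ∀ e ∈ E, ∃ j, col j = e ∧ (n + t j).Prime) ∧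
      ∀ z ∈ Z, ∀ j : ℤ, 1 ≤ |j| → |j| ≤ J → ∀ q : ℕ, q.Prime → j * q ≠ z.1 * n + z.2 := by
  obtain ⟨η, hη, h0⟩ := tupU
  refine ⟨η, hη, fun m hm => ?_⟩
  obtain ⟨K, hmK, h1⟩ := h0 m hm
  refine ⟨K, hmK, fun D J d hd => ?_⟩
  obtain ⟨ℓ, hℓ⟩ : ∃ ℓ : ℕ, ℓ = J.factorial := ⟨_, rfl⟩
  have hℓ0 : 0 < ℓ := by rw [hℓ]; exact Nat.factorial_pos J
  have hd0 : d ≠ 0 := hd.ne_zero
  obtain ⟨c, hc, hone⟩ := h1 (D + 1) (ℓ + d)
  refine ⟨min c 1, lt_min hc one_pos, ?_⟩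
  have t1 := Real.tendsto_log_atTop
  have t2 : Tendsto (fun y : ℝ => Real.log (Real.log y)) atTop atTop := t1.comp t1
  filter_upwards [hone d hd, eventually_ge_atTop ((ℓ : ℝ) * d), t1.eventually_ge_atTop ((J : ℝ) + 10),
    t2.eventually_ge_atTop 1, eventually_ge_atTop 4,
    t1.eventually (Pool.Agent.H378R2.ev_pow_exp 2 (1 / 40) 1 (by norm_num))]
    with X hX hLd hLJ hLℓ hX4 hE
  intro t htinj htl hadm h hh col hcol Z hZ hZw bad hbad
  set L := Real.log X with hL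
  have hX0 : 0 < X := by linarith
  have hJ0 : (0 : ℝ) ≤ J := Nat.cast_nonneg J
  have hL1 : 1 ≤ L := by linarith
  have hL0 : 0 < L := by linarith
  have hLL : Real.log L ≤ L := (Real.log_le_sub_one_of_pos hL0).trans (by linarith)
  have hLL0 : 0 < Real.log L := by linarith
  set E := Real.exp (1 / 40 * L) with hEd
  rw [one_mul] at hE
  have hE0 : 0 < E := Real.exp_pos _
  have hELJ : (J : ℝ) + 10 ≤ E := by
    have h1 : L ^ 1 ≤ L ^ 2 := pow_le_pow_right₀ hL1 (by norm_num)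
    rw [pow_one] at h1
    linarith
  have hE1 : 1 ≤ E := by linarith
  have hpowE : ∀ k : ℕ, X ^ ((k : ℝ) / 40) = E ^ k := by
    intro k
    rw [hEd, ← Real.exp_nat_mul, Real.rpow_def_of_pos hX0, ← hL]
    congr 1
    ring
  have e1000 : X ^ (1 / 1000 : ℝ) ≤ E := by
    have h1 := hpowE 1
    rw [pow_one] at h1
    rw [← h1]
    exact Real.rpow_le_rpow_of_exponent_le (by linarith) (by norm_num)
  have e78 : X ^ (7 / 8 : ℝ) = E ^ 35 := by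
    have h1 := hpowE 35
    rw [← h1]
    norm_num
  have e910 : X ^ (9 / 10 : ℝ) = E ^ 36 := by
    have h1 := hpowE 36
    rw [← h1]
    norm_num
  have hX1 : 1 ≤ X := by linarith
  obtain ⟨Z', hZ'1, hZ'2, hZ'3, hZ'4⟩ := prim_familyT t Z (fun z hz => ⟨(hZ z hz).1, (hZ z hz).2.1⟩)
  -- the number of pairs
  have hZc : (Z.card : ℝ) ≤ E := by
    have h1 : (Z.card : ℝ) ≤ ∑ z ∈ Z, wT t z := by
      rw [card_eq_sum_ones, Nat.cast_sum]
      apply sum_le_sum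
      intro z hz
      rw [Nat.cast_one]
      exact wT_ge_one t z (NT_ne_zero t z (hZ z hz).1 (hZ z hz).2.1)
    have h2 : min c 1 * (L * Real.log L) ≤ 1 * (L * L) := by
      apply mul_le_mul (min_le_right _ _) (mul_le_mul_of_nonneg_left hLL hL0.le) (by positivity) zero_le_one
    calc (Z.card : ℝ) ≤ 1 * (L * L) := h1.trans (hZw.trans h2)
      _ = L ^ 2 := by ring
      _ ≤ E := hE
  -- the exceptional primes
  set bad' : Finset ℕ := bad ∪ Z.biUnion (fun z => (Icc 1 ⌊3 * X⌋₊).filter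
    (fun n : ℕ => |((z.1 * n + z.2 : ℤ) : ℝ)| ≤ J * E)) with hbad'
  have hbadc : (bad'.card : ℝ) ≤ X ^ (9 / 10 : ℝ) := by
    have h1 := card_union_le bad (Z.biUnion (fun z => (Icc 1 ⌊3 * X⌋₊).filter
      (fun n : ℕ => |((z.1 * n + z.2 : ℤ) : ℝ)| ≤ J * E)))
    have h2 : ((Z.biUnion (fun z => (Icc 1 ⌊3 * X⌋₊).filter
      (fun n : ℕ => |((z.1 * n + z.2 : ℤ) : ℝ)| ≤ J * E))).card : ℝ) ≤ ∑ z ∈ Z, (2 * (J * E) + 1) := by
      have h0 := card_biUnion_le (s := Z) (t := fun z : ℤ × ℤ => (Icc 1 ⌊3 * X⌋₊).filter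
        (fun n : ℕ => |((z.1 * n + z.2 : ℤ) : ℝ)| ≤ J * E))
      have h0' := (Nat.cast_le (α := ℝ)).2 h0
      rw [Nat.cast_sum] at h0'
      refine h0'.trans (sum_le_sum fun z hz => ?_)
      exact few_small z.1 z.2 (hZ z hz).1 ⌊3 * X⌋₊ (J * E) (by positivity)
    rw [sum_const, nsmul_eq_mul] at h2
    have h3 : (bad'.card : ℝ) ≤ (bad.card : ℝ) + ((Z.biUnion (fun z => (Icc 1 ⌊3 * X⌋₊).filter
      (fun n : ℕ => |((z.1 * n + z.2 : ℤ) : ℝ)| ≤ J * E))).card : ℝ) := by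
      rw [hbad', ← Nat.cast_add]
      exact Nat.cast_le.2 h1
    have h4 : (Z.card : ℝ) * (2 * (J * E) + 1) ≤ E ^ 30 := by
      calc (Z.card : ℝ) * (2 * (J * E) + 1) ≤ E * (2 * (E * E) + E * E) := by
            apply mul_le_mul hZc _ (by positivity) (by positivity)
            have h5 : (J : ℝ) * E ≤ E * E := mul_le_mul_of_nonneg_right (by linarith) hE0.le
            have h6 : (1 : ℝ) ≤ E * E := one_le_mul_of_one_le_of_one_le hE1 hE1
            linarith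
        _ = 3 * E ^ 3 := by ring
        _ ≤ E * E ^ 3 := by
            apply mul_le_mul_of_nonneg_right _ (by positivity)
            linarith
        _ = E ^ 4 := by ring
        _ ≤ E ^ 30 := pow_le_pow_right₀ hE1 (by norm_num)
    rw [e78] at hbad
    rw [e910]
    calc (bad'.card : ℝ) ≤ E ^ 35 + E ^ 30 := by linarith
      _ ≤ E ^ 35 + E ^ 35 := by
          have := pow_le_pow_right₀ hE1 (show 30 ≤ 35 by norm_num)
          linarith
      _ = 2 * E ^ 35 := by ring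
      _ ≤ E * E ^ 35 := mul_le_mul_of_nonneg_right (by linarith) (by positivity)
      _ = E ^ 36 := by ring
  have hsum : ∑ p ∈ (ℓ * d).primeFactors, (1 : ℝ) / p ≤ ℓ + d := by
    have h1 := sum_inv_mul ℓ d hℓ0.ne' hd0
    have h3 := sum_inv_le_self ℓ
    have h4 := sum_inv_le_self d
    linarith
  have hXD : X ^ D ≤ X ^ (D + 1) := pow_le_pow_right₀ hX1 (by omega)
  obtain ⟨p, hXp, hp3, hpb, hpd, hEE, hmain⟩ := hX (ℓ * d)
    (mul_ne_zero hℓ0.ne' hd0) (dvd_mul_left _ _) hsum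
    (by
      push_cast
      calc (ℓ : ℝ) * d ≤ X := hLd
        _ = X ^ 1 := (pow_one _).symm
        _ ≤ X ^ (D + 1) := pow_le_pow_right₀ hX1 (by omega)) t htinj htl hadm h hh col hcol bad' hbadc Z'
    (fun z hz => ⟨(hZ'1 z hz).1.ne', (hZ'1 z hz).2.1⟩)
    (fun z hz => by
      obtain ⟨_, _, z', hz', h3, h4⟩ := hZ'1 z hz
      obtain ⟨k1, k2, k3, k4⟩ := hZ z' hz'
      exact ⟨(h3.trans k3).trans hXD, (h4.trans k4).trans hXD⟩)
    hZ'2 (hZ'3.trans (hZw.trans (mul_le_mul_of_nonneg_right (min_le_left _ _) (by positivity))))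
  rw [hbad', mem_union, not_or] at hpb
  refine ⟨p, hXp, hp3, hpb.1, hpd, hEE, ?_⟩
  intro z hz j hj1 hjJ q hq hjq
  obtain ⟨w, hw, e, he, hw1, hw2⟩ := hZ'4 z hz
  obtain ⟨q', hq', hq'X, hq'g, hq'd⟩ := hmain w hw
  have h1 : (q' : ℤ) ∣ j * q := by
    rw [hjq, hw1, hw2]
    have h2 : e * w.1 * (p : ℤ) + e * w.2 = e * (w.1 * p + w.2) := by ring
    rw [h2]
    exact hq'd.mul_left _
  have hqq := eq_of_multiple hℓ hj1 hjJ hq hq' (dvd_mul_right ℓ d) hq'g h1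
  have hqE : (q : ℝ) ≤ E := by
    rw [← hqq]
    exact hq'X.trans e1000
  apply hpb.2
  rw [mem_biUnion]
  refine ⟨z, hz, ?_⟩
  rw [mem_filter, mem_Icc]
  refine ⟨⟨?_, Nat.le_floor hp3⟩, ?_⟩
  · have : (0 : ℝ) < p := hX0.trans hXp
    have h7 : 0 < p := by exact_mod_cast this
    omega
  rw [← hjq]
  push_cast
  rw [abs_mul, abs_of_nonneg (Nat.cast_nonneg q : (0 : ℝ) ≤ q)]
  have h4 : |(j : ℝ)| ≤ J := by exact_mod_cast hjJ
  exact mul_le_mul h4 hqE (Nat.cast_nonneg q) hJ0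


end Pool.Agent.TH101.RG
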