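import Pool.Agent.TH101.RG.PairZ

set_option autoImplicit false
set_option maxHeartbeats 4000000

/-! # Arbitrary families of linear forms, simultaneously composite at a prime -/

namespace Pool.Agent.TH101.RG

open Finset Filter Pool.Agent.H398R2.RK
open Pool.Agent.H378R2
open Pool.Agent.H318R2.Cr (cz_bounds Pz one_sub_inv_pos)
open Pool.Agent.H312R2.RG (BVat)

open scoped Classical

/-- the weight of the form `a n + b` -/
noncomputable def wU (z : ℤ × ℤ) : ℝ := ((z.1 * z.2).natAbs : ℝ) / ((z.1 * z.2).natAbs.totient : ℝ)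

theorem wU_nonneg (z : ℤ × ℤ) : 0 ≤ wU z := by unfold wU; positivity

theorem wU_ge_one (z : ℤ × ℤ) (h1 : z.1 ≠ 0) (h2 : z.2 ≠ 0) : 1 ≤ wU z := by
  unfold wU
  have h3 : 0 < (z.1 * z.2).natAbs := Int.natAbs_pos.2 (mul_ne_zero h1 h2)
  have h4 : 0 < (z.1 * z.2).natAbs.totient := Nat.totient_pos.2 h3
  rw [le_div_iff₀ (by exact_mod_cast h4), one_mul]
  exact_mod_cast Nat.totient_le _

/-- the covering -/
theorem covU (A0 : ℝ) (c₃ : ℝ) (hc₃ : 0 < c₃) : ∃ c : ℝ, 0 < c ∧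
    ∀ᶠ X : ℝ in atTop, ∀ (ps : ℕ) (S : Finset ℕ), GoodS X S → ∀ (g : ℕ), g ≠ 0 →
    ∑ p ∈ g.primeFactors, (1 : ℝ) / p ≤ A0 →
    ∀ Z : Finset (ℤ × ℤ), (∀ z ∈ Z, z.1 ≠ 0 ∧ z.2 ≠ 0) →
    ∑ z ∈ Z, wU z ≤ c * (Real.log X * Real.log (Real.log X)) →
    ∃ (β : ℕ → ℤ) (U0 : Finset (ℤ × ℤ)), U0 ⊆ Z ∧ (U0.card : ℝ) ≤ c₃ * Real.log X ∧
      (∀ p ∈ PW X S ps, ¬ (p : ℤ) ∣ β p) ∧
      ∀ z ∈ Z, z ∉ U0 → ∃ p ∈ PW X S ps, ¬ p ∣ g ∧ (p : ℤ) ∣ z.1 * β p + z.2 := by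
  obtain ⟨c₁, c₂, hc₁, hc₁₂, hV⟩ := cz_bounds
  have hc₂ : 0 < c₂ := hc₁.trans_le hc₁₂
  refine ⟨c₃ / (2 * c₂ * Real.exp (2 * (A0 + 2))), by positivity, ?_⟩
  have t1 := Real.tendsto_log_atTop
  have t2 : Tendsto (fun y : ℝ => Real.log (Real.log y)) atTop atTop := t1.comp t1
  filter_upwards [t2.eventually_ge_atTop 1000, t1.eventually_gt_atTop 0] with X e1 hT0
  intro ps S hS g hg0 hgS Z hZ hZw
  set T := Real.log X with hT
  set A' := Real.log T with hA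
  have hA0 : 0 < A' := by linarith
  have hTe : T = Real.exp A' := by rw [hA, Real.exp_log hT0]
  have hTA : 2 * A' ≤ T := by
    have h1 := Real.add_one_le_exp (A' / 2)
    have h2 : Real.exp A' = Real.exp (A' / 2) * Real.exp (A' / 2) := by
      rw [← Real.exp_add]; congr 1; ring
    rw [hTe, h2]
    nlinarith [Real.exp_pos (A' / 2)]
  have hT4000 : 4000 ≤ T := by
    have h1 := Real.add_one_le_exp (A' / 2)
    have h2 : Real.exp A' = Real.exp (A' / 2) * Real.exp (A' / 2) := by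
      rw [← Real.exp_add]; congr 1; ring
    rw [hTe, h2]
    nlinarith [Real.exp_pos (A' / 2)]
  set y := yy X with hy
  have hyT : (y : ℝ) ≤ T / 1000 := Nat.floor_le (by positivity)
  have hyT2 : T / 2000 ≤ y := by
    have h1 : T / 1000 < (y : ℝ) + 1 := Nat.lt_floor_add_one _
    linarith [show T / 1000 = T / 2000 + T / 2000 by ring]
  have hy2r : (2 : ℝ) ≤ y := by linarith
  have hy2 : 2 ≤ y := by exact_mod_cast hy2r
  have hy0 : (0 : ℝ) < y := by linarith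
  have hly2 : A' / 2 ≤ Real.log y := by
    have h1 : Real.log (T / 2000) ≤ Real.log y := Real.log_le_log (by positivity) hyT2
    rw [Real.log_div hT0.ne' (by norm_num)] at h1
    have h2 : Real.log 2000 ≤ 500 := by
      have := Real.log_le_sub_one_of_pos (show (0 : ℝ) < 2000 / Real.exp 7.5 by positivity)
      have h3 : Real.log (2000 / Real.exp 7.5) = Real.log 2000 - 7.5 := by
        rw [Real.log_div (by norm_num) (Real.exp_pos _).ne', Real.log_exp]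
      have h4 : 2000 / Real.exp 7.5 ≤ 2000 / 8.5 := by
        apply div_le_div_of_nonneg_left (by norm_num) (by norm_num)
        have := Real.add_one_le_exp (7.5 : ℝ)
        linarith
      norm_num at h4 ⊢
      linarith
    linarith
  have hly0 : 0 < Real.log y := by linarith
  -- the primes that can be used
  set P : Finset ℕ := (PW X S ps).filter (fun p => ¬ p ∣ g) with hP
  have hPmem : ∀ p ∈ P, p ≤ y ∧ p.Prime ∧ p ∈ PW X S ps ∧ ¬ p ∣ g := by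
    intro p hp
    rw [hP, mem_filter] at hp
    exact ⟨(mem_PW.1 hp.1).1, (mem_PW.1 hp.1).2.1, hp.1, hp.2⟩
  have hPz : ∀ p ∈ Pz y, p.Prime := by
    intro p hp
    unfold Pool.Agent.H318R2.Cr.Pz at hp
    exact (mem_filter.1 hp).2
  have hPS : P ⊆ Pz y := by
    intro p hp
    obtain ⟨h1, h2, h3, h4⟩ := hPmem p hp
    unfold Pool.Agent.H318R2.Cr.Pz
    rw [mem_filter, mem_Ioc]
    exact ⟨⟨h2.pos, h1⟩, h2⟩
  have hpos : ∀ i : ℕ, 0 ≤ (1 : ℝ) / (i : ℝ) := fun i => by positivity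
  set Ps : Finset ℕ := if ps.Prime then {ps} else ∅ with hPs
  have hdiff : ∑ p ∈ Pz y \ P, (1 : ℝ) / p ≤ A0 + 2 := by
    have hsub : Pz y \ P ⊆ (S ∪ Ps) ∪ g.primeFactors := by
      intro p hp
      obtain ⟨h1, h2⟩ := Finset.mem_sdiff.1 hp
      have hpp := hPz p h1
      unfold Pool.Agent.H318R2.Cr.Pz at h1
      rw [mem_filter, mem_Ioc] at h1
      rw [mem_union, mem_union]
      by_contra hcon
      push Not at hcon
      obtain ⟨⟨k1, k2⟩, k3⟩ := hcon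
      apply h2
      rw [hP, mem_filter]
      refine ⟨mem_PW.2 ⟨h1.1.2, hpp, k1, ?_⟩, ?_⟩
      · intro h
        apply k2
        rw [hPs, ← h, if_pos hpp]
        simp
      · intro h
        apply k3
        rw [Nat.mem_primeFactors]
        exact ⟨hpp, h, hg0⟩
    have h1 : ∑ q ∈ Pz y \ P, (1 : ℝ) / q ≤ (∑ q ∈ S, (1 : ℝ) / q + ∑ q ∈ Ps, (1 : ℝ) / q) +
        ∑ q ∈ g.primeFactors, (1 : ℝ) / q := by
      refine (sum_le_sum_of_subset_of_nonneg hsub (fun i _ _ => hpos i)).trans ?_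
      refine (sum_union_le' _ hpos).trans ?_
      apply add_le_add_left
      exact sum_union_le' _ hpos
    have h2 : ∑ q ∈ Ps, (1 : ℝ) / q ≤ 1 := by
      rw [hPs]
      split_ifs with h
      · rw [sum_singleton, div_le_one (by exact_mod_cast h.pos)]
        exact_mod_cast h.one_lt.le
      · simp
    have h3 : ∑ q ∈ S, (1 : ℝ) / q ≤ 1 := by
      refine hS.2.trans ?_
      rw [div_le_one (by positivity)]
      nlinarith only [e1]
    linarith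
  have hprod : ∏ p ∈ Pz y, (1 - 1 / (p : ℝ)) ≤ 2 * c₂ / A' := by
    have h1 := (hV y hy2).2
    unfold Pool.Agent.H318R2.Cr.V at h1
    rw [← le_div_iff₀ hly0] at h1
    refine h1.trans ?_
    rw [div_le_div_iff₀ hly0 hA0]
    have h3 := mul_le_mul_of_nonneg_left hly2 hc₂.le
    linarith only [h3]
  obtain ⟨βg, hβ1, hβ2⟩ := greedyP P (fun p hp => (hPmem p hp).2.1) Z
  set U0 : Finset (ℤ × ℤ) := Z.filter (fun z => ∀ p ∈ P, ¬ (p : ℤ) ∣ z.1 * βg p + z.2) with hU0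
  have hUc : (U0.card : ℝ) ≤ c₃ * T := by
    have h1 : (U0.card : ℝ) ≤ ∑ z ∈ Z, (2 * c₂ / A') * Real.exp (2 * (A0 + 2)) * wU z := by
      refine hβ2.trans (sum_le_sum fun z hz => ?_)
      obtain ⟨k1, k2⟩ := hZ z hz
      refine (prodZ 1 (fun _ => (0 : ℤ)) P (Pz y) hPS hPz (A0 + 2) hdiff (z.1 * z.2)
        (fun _ => mul_ne_zero k1 k2)).trans ?_
      rw [Fin.prod_univ_one, sub_zero]
      apply mul_le_mul_of_nonneg_right _ (wU_nonneg z)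
      exact mul_le_mul_of_nonneg_right hprod (Real.exp_pos _).le
    rw [← mul_sum] at h1
    calc (U0.card : ℝ) ≤ (2 * c₂ / A') * Real.exp (2 * (A0 + 2)) *
          (c₃ / (2 * c₂ * Real.exp (2 * (A0 + 2))) * (T * A')) :=
          h1.trans (mul_le_mul_of_nonneg_left hZw (by positivity))
      _ = c₃ * T := by
          field_simp
  refine ⟨fun p => if p ∈ P then βg p else 1, U0, filter_subset _ _, hUc, ?_, ?_⟩
  · intro p hp
    have hpp := (mem_PW.1 hp).2.1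
    show ¬ (p : ℤ) ∣ (if p ∈ P then βg p else 1)
    split_ifs with h1
    · exact hβ1 p h1
    · intro h1
      have h2 : p ∣ 1 := by exact_mod_cast h1
      exact hpp.one_lt.ne' (Nat.dvd_one.1 h2)
  · intro z hz hzU
    have h1 : ∃ p ∈ P, (p : ℤ) ∣ z.1 * βg p + z.2 := by
      by_contra hcon
      push Not at hcon
      exact hzU (mem_filter.2 ⟨hz, hcon⟩)
    obtain ⟨p, hp, hpd⟩ := h1
    obtain ⟨g1, g2, g3, g4⟩ := hPmem p hp
    refine ⟨p, g3, g4, ?_⟩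
    show (p : ℤ) ∣ z.1 * (if p ∈ P then βg p else 1) + z.2
    rw [if_pos hp]
    exact hpd

/-- the form at one prime -/
theorem oneU (D : ℕ) (A0 : ℝ) : ∃ c : ℝ, 0 < c ∧ ∀ d : ℕ, Squarefree d → ∀ᶠ X : ℝ in atTop,
    ∀ (g : ℕ), g ≠ 0 → d ∣ g → ∑ p ∈ g.primeFactors, (1 : ℝ) / p ≤ A0 → (g : ℝ) ≤ X ^ D →
    ∀ h : ℕ, h.Coprime d → ∀ bad : Finset ℕ, (bad.card : ℝ) ≤ X ^ (9 / 10 : ℝ) →
    ∀ Z : Finset (ℤ × ℤ), (∀ z ∈ Z, z.1 ≠ 0 ∧ z.2 ≠ 0) →
    (∀ z ∈ Z, |(z.1 : ℝ)| ≤ X ^ D ∧ |(z.2 : ℝ)| ≤ X ^ D) →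
    (∀ k ∈ Z, ∀ l ∈ Z, k ≠ l → k.1 * l.2 ≠ l.1 * k.2) →
    ∑ z ∈ Z, wU z ≤ c * (Real.log X * Real.log (Real.log X)) →
    ∃ p : ℕ, p.Prime ∧ X < p ∧ (p : ℝ) ≤ 3 * X ∧ p ∉ bad ∧ p ≡ h [MOD d] ∧
      ∀ z ∈ Z, ∃ q : ℕ, q.Prime ∧ (q : ℝ) ≤ X ^ (1 / 1000 : ℝ) ∧ ¬ q ∣ g ∧ (q : ℤ) ∣ z.1 * p + z.2 := by
  obtain ⟨Abv, c₄, hc₄, ht⟩ := templ3 D
  obtain ⟨c, hc, hcov⟩ := covU A0 c₄ hc₄
  refine ⟨c, hc, fun d hd => ?_⟩
  obtain ⟨X1, hbv⟩ := bvrel_holds Abv (max 2 d)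
  have t1 := Real.tendsto_log_atTop
  have t2 : Tendsto (fun y : ℝ => Real.log (Real.log y)) atTop atTop := t1.comp t1
  filter_upwards [ht (max 2 d), hcov, eventually_ge_atTop X1, eventually_ge_atTop 4,
    t1.eventually_ge_atTop 1, t1.eventually_ge_atTop (1000 * (max 2 d : ℕ)),
    t2.eventually_ge_atTop ((max 2 d : ℕ) + 1)] with X htX hcovX hX1 hX4 hL1 hLd hL2d
  intro g hg0 hdg hgS hgD h hhd bad hbad Z hne hle hdet hw
  obtain ⟨ps, S, hps, hS, hBV⟩ := hbv X hX1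
  have hX0 : 0 < X := by linarith
  set u : ℕ → ℕ := fun p => if p ∣ d then h else 1 with hu
  have hup : ∀ p, p.Prime → ¬ p ∣ u p := by
    intro p hp
    simp only [hu]
    split_ifs with hpd
    · intro hph
      exact hp.one_lt.ne' (Nat.dvd_one.1 (hhd ▸ Nat.dvd_gcd hph hpd))
    · intro h1
      exact hp.one_lt.ne' (Nat.dvd_one.1 h1)
  obtain ⟨cl, U0, hU0, hU0c, hcl, hcov'⟩ := hcovX ps S hS g hg0 hgS Z hne hw
  have hex : ∀ p : ℕ, ∃ ρ : ℕ, p ∈ PW X S ps → (¬ p ∣ ρ ∧ (p ∣ g → ρ = u p) ∧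
      (¬ p ∣ g → (p : ℤ) ∣ (ρ : ℤ) - cl p)) := by
    intro p
    by_cases hp : p ∈ PW X S ps
    · have hpp := (mem_PW.1 hp).2.1
      by_cases hpg : p ∣ g
      · exact ⟨u p, fun _ => ⟨hup p hpp, fun _ => rfl, fun h => absurd hpg h⟩⟩
      · refine ⟨(cl p % p).toNat, fun _ => ?_⟩
        have h0 : 0 ≤ cl p % p := Int.emod_nonneg _ (by exact_mod_cast hpp.ne_zero)
        have h1 : (p : ℤ) ∣ (((cl p % p).toNat : ℕ) : ℤ) - cl p := by
          rw [Int.toNat_of_nonneg h0]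
          have h2 := Int.emod_add_mul_ediv (cl p) p
          exact ⟨-(cl p / p), by linarith⟩
        refine ⟨?_, fun h => absurd h hpg, fun _ => h1⟩
        intro h2
        apply hcl p hp
        have h3 : (p : ℤ) ∣ (((cl p % p).toNat : ℕ) : ℤ) := Int.natCast_dvd_natCast.2 h2
        have h4 := dvd_sub h3 h1
        rwa [sub_sub_cancel] at h4
    · exact ⟨0, fun h => absurd h hp⟩
  choose ρ hρ using hex
  obtain ⟨r, hr⟩ := Nat.chineseRemainderOfFinset ρ (fun p => p) (PW X S ps)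
    (fun p hp => (mem_PW.1 hp).2.1.ne_zero)
    (fun p hp q hq hpq => (Nat.coprime_primes (mem_PW.1 (by simpa using hp)).2.1
      (mem_PW.1 (by simpa using hq)).2.1).2 hpq)
  have hrc : r.Coprime (WW X S ps) := by
    unfold WW
    rw [Nat.coprime_prod_right_iff]
    intro p hp
    have hpp := (mem_PW.1 hp).2.1
    rw [Nat.coprime_comm, Nat.Prime.coprime_iff_not_dvd hpp]
    intro hd
    apply (hρ p hp).1
    exact (Nat.modEq_zero_iff_dvd).1 ((hr p hp).symm.trans ((Nat.modEq_zero_iff_dvd).2 hd))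
  obtain ⟨n, hnp, hXn, hn3, hnb, hnr, hU⟩ := htX ps S hps hBV U0 hU0c (fun z => z.1) (fun z => z.2)
    (fun z hz => hne z (hU0 hz))
    (fun z hz => hle z (hU0 hz)) (fun k hk l hl => hdet k (hU0 hk) l (hU0 hl)) g hg0
    hgD r hrc bad hbad
  refine ⟨n, hnp, hXn, hn3, hnb, ?_, fun z hz => ?_⟩
  · apply modEq_of_primes hd
    intro p hp
    have hpp := Nat.prime_of_mem_primeFactors hp
    have hpd := Nat.dvd_of_mem_primeFactors hp
    have hd0 : 0 < d := Nat.pos_of_ne_zero hd.ne_zero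
    have hpled : p ≤ d := Nat.le_of_dvd hd0 hpd
    have hpPW := small_mem_PW hLd hL2d hps le_rfl hS hpp (hpled.trans (le_max_right 2 d))
    have h1 := hr p hpPW
    have h2 : ρ p = u p := (hρ p hpPW).2.1 (hpd.trans hdg)
    have h3 : u p = h := by simp only [hu]; rw [if_pos hpd]
    rw [h2, h3] at h1
    exact (hnr.of_dvd ((prime_dvd_WW hpp).2 hpPW)).trans h1
  · by_cases hzU : z ∈ U0
    · exact hU z hzU
    · obtain ⟨p, hp, hpg, hpz⟩ := hcov' z hz hzU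
      have hpp := (mem_PW.1 hp).2.1
      refine ⟨p, hpp, le_rpow_of_le_yy hX0 (by linarith) (mem_PW.1 hp).1, hpg, ?_⟩
      have h1 := (hρ p hp).2.2 hpg
      have h2 : (p : ℤ) ∣ (n : ℤ) - ρ p :=
        Nat.modEq_iff_dvd.1 (((hnr.of_dvd ((prime_dvd_WW hpp).2 hp)).trans (hr p hp)).symm)
      have h3 : z.1 * (n : ℤ) + z.2 = z.1 * (n - ρ p) + z.1 * (ρ p - cl p) + (z.1 * cl p + z.2) := by ring
      rw [h3]
      exact dvd_add (dvd_add (h2.mul_left _) (h1.mul_left _)) hpz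

theorem prim_familyU (Z : Finset (ℤ × ℤ)) (hZ : ∀ z ∈ Z, z.1 ≠ 0 ∧ z.2 ≠ 0) : ∃ Z' : Finset (ℤ × ℤ),
    (∀ w ∈ Z', 0 < w.1 ∧ w.2 ≠ 0 ∧ ∃ z ∈ Z, |(w.1 : ℝ)| ≤ |(z.1 : ℝ)| ∧ |(w.2 : ℝ)| ≤ |(z.2 : ℝ)|) ∧
    (∀ k ∈ Z', ∀ l ∈ Z', k ≠ l → k.1 * l.2 ≠ l.1 * k.2) ∧
    ∑ z ∈ Z', wU z ≤ ∑ z ∈ Z, wU z ∧
    ∀ z ∈ Z, ∃ w ∈ Z', ∃ e : ℤ, e ≠ 0 ∧ z.1 = e * w.1 ∧ z.2 = e * w.2 := by
  have hex : ∀ z : ℤ × ℤ, ∃ (w : ℤ × ℤ) (e : ℤ), z ∈ Z → (e ≠ 0 ∧
    z.1 = e * w.1 ∧ z.2 = e * w.2 ∧ 0 < w.1 ∧ w.2 ≠ 0 ∧ IsCoprime w.1 w.2) := by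
    intro z
    by_cases hz : z ∈ Z
    · obtain ⟨w, e, h⟩ := prim_exists z (hZ z hz).1 (hZ z hz).2
      exact ⟨w, e, fun _ => h⟩
    · exact ⟨0, 0, fun h => absurd h hz⟩
  choose f e hf using hex
  refine ⟨Z.image f, ?_, ?_, ?_, ?_⟩
  · intro w hw
    rw [mem_image] at hw
    obtain ⟨z, hz, rfl⟩ := hw
    obtain ⟨k1, k2, k3, k4, k5, k6⟩ := hf z hz
    exact ⟨k4, k5, z, hz, abs_le_of_mul k2 k1, abs_le_of_mul k3 k1⟩
  · intro k hk l hl hkl heq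
    rw [mem_image] at hk hl
    obtain ⟨z, hz, rfl⟩ := hk
    obtain ⟨z', hz', rfl⟩ := hl
    obtain ⟨_, _, _, k4, k5, k6⟩ := hf z hz
    obtain ⟨_, _, _, l4, l5, l6⟩ := hf z' hz'
    have h1 : (f z).1 ∣ (f z').1 := by
      have h2 : (f z).1 ∣ (f z').1 * (f z).2 := ⟨(f z').2, heq.symm⟩
      exact k6.dvd_of_dvd_mul_right h2
    have h2 : (f z').1 ∣ (f z).1 := by
      have h2 : (f z').1 ∣ (f z).1 * (f z').2 := ⟨(f z).2, heq⟩
      exact l6.dvd_of_dvd_mul_right h2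
    have h3 : (f z).1 = (f z').1 := Int.dvd_antisymm k4.le l4.le h1 h2
    apply hkl
    apply Prod.ext h3
    rw [h3] at heq
    exact (mul_left_cancel₀ l4.ne' heq).symm
  · refine (sum_image_le'' Z f wU wU_nonneg).trans (sum_le_sum fun z hz => ?_)
    obtain ⟨k1, k2, k3, k4, k5, k6⟩ := hf z hz
    have h1 : ((f z).1 * (f z).2).natAbs ∣ (z.1 * z.2).natAbs := by
      rw [Int.natAbs_dvd_natAbs]
      refine ⟨e z * e z, ?_⟩
      calc z.1 * z.2 = (e z * (f z).1) * (e z * (f z).2) := by rw [← k2, ← k3]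
        _ = _ := by ring
    exact ratio_mono h1 (Int.natAbs_ne_zero.2 (mul_ne_zero (hZ z hz).1 (hZ z hz).2))
  · intro z hz
    obtain ⟨k1, k2, k3, k4, k5, k6⟩ := hf z hz
    exact ⟨f z, mem_image.2 ⟨z, hz, rfl⟩, e z, k1, k2, k3⟩

/-- arbitrary families of linear forms at primes -/
theorem family_forms (D J : ℕ) (d : ℕ) (hd : Squarefree d) : ∃ c : ℝ, 0 < c ∧ ∀ᶠ X : ℝ in atTop,
    ∀ h : ℕ, h.Coprime d → ∀ Z : Finset (ℤ × ℤ),
    (∀ z ∈ Z, z.1 ≠ 0 ∧ z.2 ≠ 0 ∧ |(z.1 : ℝ)| ≤ X ^ D ∧ |(z.2 : ℝ)| ≤ X ^ D) →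
    ∑ z ∈ Z, wU z ≤ c * (Real.log X * Real.log (Real.log X)) →
    ∀ bad : Finset ℕ, (bad.card : ℝ) ≤ X ^ (7 / 8 : ℝ) →
    ∃ p : ℕ, p.Prime ∧ X < p ∧ (p : ℝ) ≤ 3 * X ∧ p ∉ bad ∧ p ≡ h [MOD d] ∧
      ∀ z ∈ Z, ∀ j : ℤ, 1 ≤ |j| → |j| ≤ J → ∀ q : ℕ, q.Prime → j * q ≠ z.1 * p + z.2 := by
  obtain ⟨ℓ, hℓ⟩ : ∃ ℓ : ℕ, ℓ = J.factorial := ⟨_, rfl⟩
  have hℓ0 : 0 < ℓ := by rw [hℓ]; exact Nat.factorial_pos J
  have hd0 : d ≠ 0 := hd.ne_zero
  obtain ⟨c, hc, hone⟩ := oneU (D + 1) (ℓ + d)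
  refine ⟨min c 1, lt_min hc one_pos, ?_⟩
  have t1 := Real.tendsto_log_atTop
  have t2 : Tendsto (fun y : ℝ => Real.log (Real.log y)) atTop atTop := t1.comp t1
  filter_upwards [hone d hd, eventually_ge_atTop ((ℓ : ℝ) * d), t1.eventually_ge_atTop ((J : ℝ) + 10),
    t2.eventually_ge_atTop 1, eventually_ge_atTop 4,
    t1.eventually (Pool.Agent.H378R2.ev_pow_exp 2 (1 / 40) 1 (by norm_num))]
    with X hX hLd hLJ hLℓ hX4 hE
  intro h hh Z hZ hZw bad hbad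
  set L := Real.log X with hL
  have hX0 : 0 < X := by linarith
  have hJ0 : (0 : ℝ) ≤ J := Nat.cast_nonneg J
  have hL1 : 1 ≤ L := by linarith
  have hL0 : 0 < L := by linarith
  have hLL : Real.log L ≤ L := (Real.log_le_sub_one_of_pos hL0).trans (by linarith)
  have hLL0 : 0 < Real.log L := by linarith
  set E := Real.exp (1 / 40 * L) with hEd
  rw [one_mul] at hE
  have hE0 : 0 < E := Real.exp_pos _
  have hELJ : (J : ℝ) + 10 ≤ E := by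
    have h1 : L ^ 1 ≤ L ^ 2 := pow_le_pow_right₀ hL1 (by norm_num)
    rw [pow_one] at h1
    linarith
  have hE1 : 1 ≤ E := by linarith
  have hpowE : ∀ k : ℕ, X ^ ((k : ℝ) / 40) = E ^ k := by
    intro k
    rw [hEd, ← Real.exp_nat_mul, Real.rpow_def_of_pos hX0, ← hL]
    congr 1
    ring
  have e1000 : X ^ (1 / 1000 : ℝ) ≤ E := by
    have h1 := hpowE 1
    rw [pow_one] at h1
    rw [← h1]
    exact Real.rpow_le_rpow_of_exponent_le (by linarith) (by norm_num)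
  have e78 : X ^ (7 / 8 : ℝ) = E ^ 35 := by
    have h1 := hpowE 35
    rw [← h1]
    norm_num
  have e910 : X ^ (9 / 10 : ℝ) = E ^ 36 := by
    have h1 := hpowE 36
    rw [← h1]
    norm_num
  have hX1 : 1 ≤ X := by linarith
  obtain ⟨Z', hZ'1, hZ'2, hZ'3, hZ'4⟩ := prim_familyU Z (fun z hz => ⟨(hZ z hz).1, (hZ z hz).2.1⟩)
  -- the number of pairs
  have hZc : (Z.card : ℝ) ≤ E := by
    have h1 : (Z.card : ℝ) ≤ ∑ z ∈ Z, wU z := by
      rw [card_eq_sum_ones, Nat.cast_sum]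
      apply sum_le_sum
      intro z hz
      rw [Nat.cast_one]
      exact wU_ge_one z (hZ z hz).1 (hZ z hz).2.1
    have h2 : min c 1 * (L * Real.log L) ≤ 1 * (L * L) := by
      apply mul_le_mul (min_le_right _ _) (mul_le_mul_of_nonneg_left hLL hL0.le) (by positivity) zero_le_one
    calc (Z.card : ℝ) ≤ 1 * (L * L) := h1.trans (hZw.trans h2)
      _ = L ^ 2 := by ring
      _ ≤ E := hE
  -- the exceptional primes
  set bad' : Finset ℕ := bad ∪ Z.biUnion (fun z => (Icc 1 ⌊3 * X⌋₊).filter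
    (fun n : ℕ => |((z.1 * n + z.2 : ℤ) : ℝ)| ≤ J * E)) with hbad'
  have hbadc : (bad'.card : ℝ) ≤ X ^ (9 / 10 : ℝ) := by
    have h1 := card_union_le bad (Z.biUnion (fun z => (Icc 1 ⌊3 * X⌋₊).filter
      (fun n : ℕ => |((z.1 * n + z.2 : ℤ) : ℝ)| ≤ J * E)))
    have h2 : ((Z.biUnion (fun z => (Icc 1 ⌊3 * X⌋₊).filter
      (fun n : ℕ => |((z.1 * n + z.2 : ℤ) : ℝ)| ≤ J * E))).card : ℝ) ≤ ∑ z ∈ Z, (2 * (J * E) + 1) := by
      have h0 := card_biUnion_le (s := Z) (t := fun z : ℤ × ℤ => (Icc 1 ⌊3 * X⌋₊).filter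
        (fun n : ℕ => |((z.1 * n + z.2 : ℤ) : ℝ)| ≤ J * E))
      have h0' := (Nat.cast_le (α := ℝ)).2 h0
      rw [Nat.cast_sum] at h0'
      refine h0'.trans (sum_le_sum fun z hz => ?_)
      exact few_small z.1 z.2 (hZ z hz).1 ⌊3 * X⌋₊ (J * E) (by positivity)
    rw [sum_const, nsmul_eq_mul] at h2
    have h3 : (bad'.card : ℝ) ≤ (bad.card : ℝ) + ((Z.biUnion (fun z => (Icc 1 ⌊3 * X⌋₊).filter
      (fun n : ℕ => |((z.1 * n + z.2 : ℤ) : ℝ)| ≤ J * E))).card : ℝ) := by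
      rw [hbad', ← Nat.cast_add]
      exact Nat.cast_le.2 h1
    have h4 : (Z.card : ℝ) * (2 * (J * E) + 1) ≤ E ^ 30 := by
      calc (Z.card : ℝ) * (2 * (J * E) + 1) ≤ E * (2 * (E * E) + E * E) := by
            apply mul_le_mul hZc _ (by positivity) (by positivity)
            have h5 : (J : ℝ) * E ≤ E * E := mul_le_mul_of_nonneg_right (by linarith) hE0.le
            have h6 : (1 : ℝ) ≤ E * E := one_le_mul_of_one_le_of_one_le hE1 hE1
            linarith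
        _ = 3 * E ^ 3 := by ring
        _ ≤ E * E ^ 3 := by
            apply mul_le_mul_of_nonneg_right _ (by positivity)
            linarith
        _ = E ^ 4 := by ring
        _ ≤ E ^ 30 := pow_le_pow_right₀ hE1 (by norm_num)
    rw [e78] at hbad
    rw [e910]
    calc (bad'.card : ℝ) ≤ E ^ 35 + E ^ 30 := by linarith
      _ ≤ E ^ 35 + E ^ 35 := by
          have := pow_le_pow_right₀ hE1 (show 30 ≤ 35 by norm_num)
          linarith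
      _ = 2 * E ^ 35 := by ring
      _ ≤ E * E ^ 35 := mul_le_mul_of_nonneg_right (by linarith) (by positivity)
      _ = E ^ 36 := by ring
  have hsum : ∑ p ∈ (ℓ * d).primeFactors, (1 : ℝ) / p ≤ ℓ + d := by
    have h1 := sum_inv_mul ℓ d hℓ0.ne' hd0
    have h3 := sum_inv_le_self ℓ
    have h4 := sum_inv_le_self d
    linarith
  have hXD : X ^ D ≤ X ^ (D + 1) := pow_le_pow_right₀ hX1 (by omega)
  obtain ⟨p, hp, hXp, hp3, hpb, hpd, hmain⟩ := hX (ℓ * d)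
    (mul_ne_zero hℓ0.ne' hd0) (dvd_mul_left _ _) hsum
    (by
      push_cast
      calc (ℓ : ℝ) * d ≤ X := hLd
        _ = X ^ 1 := (pow_one _).symm
        _ ≤ X ^ (D + 1) := pow_le_pow_right₀ hX1 (by omega)) h hh bad' hbadc Z'
    (fun z hz => ⟨(hZ'1 z hz).1.ne', (hZ'1 z hz).2.1⟩)
    (fun z hz => by
      obtain ⟨_, _, z', hz', h3, h4⟩ := hZ'1 z hz
      obtain ⟨k1, k2, k3, k4⟩ := hZ z' hz'
      exact ⟨(h3.trans k3).trans hXD, (h4.trans k4).trans hXD⟩)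
    hZ'2 (hZ'3.trans (hZw.trans (mul_le_mul_of_nonneg_right (min_le_left _ _) (by positivity))))
  rw [hbad', mem_union, not_or] at hpb
  refine ⟨p, hp, hXp, hp3, hpb.1, hpd, ?_⟩
  intro z hz j hj1 hjJ q hq hjq
  obtain ⟨w, hw, e, he, hw1, hw2⟩ := hZ'4 z hz
  obtain ⟨q', hq', hq'X, hq'g, hq'd⟩ := hmain w hw
  have h1 : (q' : ℤ) ∣ j * q := by
    rw [hjq, hw1, hw2]
    have h2 : e * w.1 * (p : ℤ) + e * w.2 = e * (w.1 * p + w.2) := by ring
    rw [h2]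
    exact hq'd.mul_left _
  have hqq := eq_of_multiple hℓ hj1 hjJ hq hq' (dvd_mul_right ℓ d) hq'g h1
  have hqE : (q : ℝ) ≤ E := by
    rw [← hqq]
    exact hq'X.trans e1000
  apply hpb.2
  rw [mem_biUnion]
  refine ⟨z, hz, ?_⟩
  rw [mem_filter, mem_Icc]
  refine ⟨⟨hp.pos, Nat.le_floor hp3⟩, ?_⟩
  rw [← hjq]
  push_cast
  rw [abs_mul, abs_of_nonneg (Nat.cast_nonneg q : (0 : ℝ) ≤ q)]
  have h4 : |(j : ℝ)| ≤ J := by exact_mod_cast hjJ
  exact mul_le_mul h4 hqE (Nat.cast_nonneg q) hJ0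

end Pool.Agent.TH101.RG
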