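import Pool.Agent.TH101.RG.PrAvg
import Pool.Agent.TH101.RG.TupZ

set_option autoImplicit false
set_option maxHeartbeats 4000000

/-! # Even numbers near clusters of primes with a large least prime summand -/

namespace Pool.Agent.TH101.RG

open Finset Filter
open Pool.Agent.H362R2.RQ (fib)
open Pool.Agent.H256R2.SC (ff)

open scoped Classical

theorem log_sq_le' {t : ℝ} (ht : 1 ≤ t) : (Real.log t) ^ 2 ≤ 4 * t := by
  have h0 : 0 < t := by linarith
  have h1 : Real.log t = 2 * Real.log (√t) := by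
    rw [Real.log_sqrt h0.le]
    ring
  have h2 : Real.log (√t) ≤ √t - 1 := Real.log_le_sub_one_of_pos (Real.sqrt_pos.2 h0)
  have h3 : 0 ≤ Real.log (√t) := Real.log_nonneg (by rw [Real.one_le_sqrt]; exact ht)
  have h4 : (√t) ^ 2 = t := Real.sq_sqrt h0.le
  have h5 : 0 ≤ √t := Real.sqrt_nonneg t
  rw [h1]
  nlinarith

theorem goldbach_clusters : ∃ η : ℝ, 0 < η ∧ ∀ m : ℕ, 1 ≤ m → ∃ K : ℕ, m ≤ K ∧
    ∀ (A D J : ℕ) (A₀ : ℝ) (d : ℕ), Squarefree d →
    ∃ c : ℝ, 0 < c ∧ ∀ᶠ X : ℝ in atTop,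
    ∀ a : ℤ, a ≠ 0 → |(a : ℝ)| ≤ (Real.log X) ^ D → |(a : ℝ)| ≤ A₀ * (a.natAbs.totient : ℝ) →
    ∀ t : Fin K → ℕ, Function.Injective t → (∀ j, (t j : ℝ) ≤ (Real.log X) ^ 2) →
    (∀ p : ℕ, p.Prime → ∃ v : ℕ, ∀ j, ¬ p ∣ v + t j) →
    ∀ h : ℕ, (∀ j, (h + t j).Coprime d) →
    ∀ col : Fin K → Fin m, (∀ e, K ≤ 2 * m * fib col e) →
    ∀ B : Finset ℤ, (∀ b ∈ B, |(b : ℝ)| ≤ Real.log X * (Real.log (Real.log X)) ^ A) →
    (B.card : ℝ) ^ 2 ≤ Real.log X →
    ∀ bad : Finset ℕ, (bad.card : ℝ) ≤ X ^ (9 / 10 : ℝ) →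
    ∃ n : ℕ, X < n ∧ (n : ℝ) ≤ 3 * X ∧ n ∉ bad ∧ n ≡ h [MOD d] ∧
      (∃ E : Finset (Fin m), η * m ≤ E.card ∧ ∀ e ∈ E, ∃ j, col j = e ∧ (n + t j).Prime) ∧
      ∀ b ∈ B, ∀ p : ℕ, p.Prime → B.card * (p : ℝ) ≤ c * (ff X * Real.log (Real.log X)) →
        ∀ σ : ℤ, (σ = 1 ∨ σ = -1) → (∀ j, b + σ * p ≠ a * t j) →
        ∀ i : ℤ, 1 ≤ |i| → |i| ≤ J → ∀ q : ℕ, q.Prime → i * q ≠ a * n + (b + σ * p) := by
  obtain ⟨η, hη, h0⟩ := tuple_patterns
  refine ⟨η, hη, fun m hm => ?_⟩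
  obtain ⟨K, hmK, h1⟩ := h0 m hm
  refine ⟨K, hmK, fun A D J A₀ d hd => ?_⟩
  obtain ⟨c₀, hc₀, h2⟩ := h1 (A + 5) D J A₀ d hd
  obtain ⟨C, hC, Y₀, hav⟩ := sum_prod_ratio_primes K (by omega) (4 * ((D : ℝ) + 3)) (by positivity)
  set c : ℝ := min 1 (c₀ / (8 * C)) with hc
  have hc0 : 0 < c := lt_min one_pos (by positivity)
  have hc1 : c ≤ 1 := min_le_left _ _
  have hc2 : c * (8 * C) ≤ c₀ := by
    rw [← le_div_iff₀ (by positivity)]
    exact min_le_right _ _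
  refine ⟨c, hc0, ?_⟩
  have t1 := Real.tendsto_log_atTop
  have t2 : Tendsto (fun y : ℝ => Real.log (Real.log y)) atTop atTop := t1.comp t1
  have t3 : Tendsto (fun y : ℝ => Real.log (Real.log (Real.log y))) atTop atTop := t1.comp t2
  have t4 : Tendsto (fun y : ℝ => Real.log (Real.log (Real.log (Real.log y)))) atTop atTop := t1.comp t3
  filter_upwards [h2, t2.eventually_ge_atTop (4 + 1 / c), t3.eventually_ge_atTop 1,
    t4.eventually_ge_atTop 1, t1.eventually_ge_atTop (max 256 ((Y₀ : ℝ) ^ 4)),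
    t2.eventually (Pool.Agent.H378R2.ev_pow_exp A 1 1 one_pos)] with X hX m2 m3 m4 m1 mA
  intro a ha haD haφ t htinj htl hadm h hh col hcol B hB hBc bad hbad
  set l1 := Real.log X with hl1
  set l2 := Real.log l1 with hl2
  set l3 := Real.log l2 with hl3
  set l4 := Real.log l3 with hl4
  have n1 : 256 ≤ l1 := (le_max_left _ _).trans m1
  have nY : (Y₀ : ℝ) ^ 4 ≤ l1 := (le_max_right _ _).trans m1
  have hic : 0 < 1 / c := by positivity
  have p1 : 0 < l1 := by linarith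
  have p2 : 0 < l2 := by linarith
  have p3 : 0 < l3 := by linarith
  have p4 : 0 < l4 := by linarith
  have hfd : ff X = l1 * l2 ^ 2 * l4 / l3 ^ 2 := rfl
  have q1 : l3 ^ 2 ≤ 4 * l2 := log_sq_le' (by linarith)
  have q3 : l4 ≤ l3 := by
    have := Real.log_le_sub_one_of_pos p3
    linarith
  have hff0 : 0 < ff X := by rw [hfd]; positivity
  set F := ff X * l2 with hF
  have hF0 : 0 < F := by positivity
  have hFup : F ≤ l1 * l2 ^ 4 := by
    rw [hF, hfd]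
    have e1 : l4 / l3 ^ 2 ≤ 1 := by
      rw [div_le_one (by positivity)]
      nlinarith
    have e2 : l2 ^ 3 ≤ l2 ^ 4 := pow_le_pow_right₀ (by linarith) (by norm_num)
    calc l1 * l2 ^ 2 * l4 / l3 ^ 2 * l2 = l1 * l2 ^ 3 * (l4 / l3 ^ 2) := by ring
      _ ≤ l1 * l2 ^ 3 * 1 := by gcongr
      _ ≤ l1 * l2 ^ 4 := by rw [mul_one]; gcongr
  have hFlow : l1 ≤ c * F := by
    rw [hF, hfd]
    have e1 : l1 * l2 ^ 3 * l4 / (4 * l2) ≤ l1 * l2 ^ 3 * l4 / l3 ^ 2 :=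
      div_le_div_of_nonneg_left (by positivity) (by positivity) q1
    have e2 : l1 * l2 ^ 3 * l4 / (4 * l2) = l1 * l2 ^ 2 * l4 / 4 := by
      field_simp
    have e3 : 1 ≤ c * l2 := by
      have h3 : 1 / c ≤ l2 := by linarith
      rw [div_le_iff₀ hc0] at h3
      linarith
    have e4 : 1 ≤ l2 / 4 := by linarith
    calc l1 = l1 * (1 * 1 * 1) := by ring
      _ ≤ l1 * ((c * l2) * (l2 / 4) * l4) := by gcongr
      _ = c * (l1 * l2 ^ 2 * l4 / 4) := by ring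
      _ ≤ c * (l1 * l2 ^ 3 * l4 / l3 ^ 2) := by rw [← e2]; gcongr
      _ = c * (l1 * l2 ^ 2 * l4 / l3 ^ 2 * l2) := by ring
  -- the size of `B`
  set β : ℕ := max B.card 1 with hβ
  have hβ1 : (1 : ℝ) ≤ β := by exact_mod_cast le_max_right _ _
  have hβ2 : (β : ℝ) ^ 2 ≤ l1 := by
    rcases le_total B.card 1 with h3 | h3
    · rw [hβ, max_eq_right h3]
      norm_num
      linarith
    · rw [hβ, max_eq_left h3]
      exact hBc
  have hβ0 : (0 : ℝ) < β := by linarith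
  set Y := ⌊c * F / β⌋₊ with hY
  have hY1 : (Y : ℝ) ≤ c * F / β := Nat.floor_le (by positivity)
  have hYlt : c * F / β < Y + 1 := Nat.lt_floor_add_one _
  -- `Y ≥ l1 ^ (1/4)`
  set r := Real.sqrt (Real.sqrt l1) with hr
  have hr4 : r ^ 4 = l1 := by
    rw [hr, show (4 : ℕ) = 2 * 2 by norm_num, pow_mul, Real.sq_sqrt (Real.sqrt_nonneg _),
      Real.sq_sqrt p1.le]
  have hr0 : 0 ≤ r := Real.sqrt_nonneg _
  have hr16 : 4 ≤ r := by
    by_contra hcon
    push Not at hcon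
    have h3 : r ^ 4 < 4 ^ 4 := pow_lt_pow_left₀ hcon hr0 (by norm_num)
    rw [hr4] at h3
    norm_num at h3
    linarith
  have hYr : r ≤ Y := by
    have h3 : β ≤ r ^ 2 := by
      have h4 : (β : ℝ) ^ 2 ≤ (r ^ 2) ^ 2 := by
        rw [← pow_mul, hr4]
        exact hβ2
      have h5 := abs_le_of_sq_le_sq h4 (by positivity)
      exact (le_abs_self _).trans h5
    have h4 : r ^ 2 ≤ c * F / β := by
      rw [le_div_iff₀ hβ0]
      calc r ^ 2 * β ≤ r ^ 2 * r ^ 2 := by gcongr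
        _ = l1 := by rw [← hr4]; ring
        _ ≤ c * F := hFlow
    nlinarith
  have hYY0 : Y₀ ≤ Y := by
    have h3 : (Y₀ : ℝ) ≤ r := by
      by_contra hcon
      push Not at hcon
      have h4 : r ^ 4 < (Y₀ : ℝ) ^ 4 := pow_lt_pow_left₀ hcon hr0 (by norm_num)
      rw [hr4] at h4
      linarith
    exact_mod_cast h3.trans hYr
  have hY0 : (0 : ℝ) < Y := by linarith
  have hlogY : l2 / 4 ≤ Real.log Y := by
    have h3 : l2 = 4 * Real.log r := by
      rw [hl2, ← hr4, Real.log_pow]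
      norm_num
    have h4 : Real.log r ≤ Real.log Y := Real.log_le_log (by linarith) hYr
    linarith
  have hl1Y : l1 ≤ (Y : ℝ) ^ 4 := by
    rw [← hr4]
    exact pow_le_pow_left₀ hr0 hYr 4
  -- the set of the places
  set Q : Finset ℕ := (Icc 1 Y).filter Nat.Prime with hQ
  set I : Finset (ℤ × ℤ × ℕ) := (B ×ˢ ({1, -1} : Finset ℤ) ×ˢ Q).filter
    (fun x => ∀ j, x.1 + x.2.1 * x.2.2 ≠ a * t j) with hI
  set Z : Finset ℤ := I.image (fun x => x.1 + x.2.1 * x.2.2) with hZ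
  have hmI : ∀ x, x ∈ I ↔ (x.1 ∈ B ∧ (x.2.1 = 1 ∨ x.2.1 = -1) ∧ x.2.2.Prime ∧ x.2.2 ≤ Y) ∧
      ∀ j, x.1 + x.2.1 * x.2.2 ≠ a * t j := by
    intro x
    rw [hI, mem_filter, mem_product, mem_product, hQ, mem_filter, mem_Icc, mem_insert, mem_singleton]
    constructor
    · rintro ⟨⟨e1, e2, ⟨_, e3⟩, e4⟩, e5⟩
      exact ⟨⟨e1, e2, e4, e3⟩, e5⟩
    · rintro ⟨⟨e1, e2, e4, e3⟩, e5⟩
      exact ⟨⟨e1, e2, ⟨e4.one_le, e3⟩, e4⟩, e5⟩
  have hZle : ∀ z ∈ Z, |(z : ℝ)| ≤ l1 * l2 ^ (A + 5) ∧ ∀ j, z ≠ a * t j := by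
    intro z hz
    rw [hZ, mem_image] at hz
    obtain ⟨x, hx, rfl⟩ := hz
    obtain ⟨⟨e1, e2, e3, e4⟩, e5⟩ := (hmI x).1 hx
    refine ⟨?_, e5⟩
    push_cast
    have h3 := hB x.1 e1
    have h4 : |(x.2.1 : ℝ) * (x.2.2 : ℝ)| ≤ l1 * l2 ^ 4 := by
      have h5 : |(x.2.1 : ℝ)| = 1 := by
        rcases e2 with h | h <;> rw [h] <;> norm_num
      rw [abs_mul, h5, one_mul, abs_of_nonneg (Nat.cast_nonneg _)]
      have h6 : (x.2.2 : ℝ) ≤ Y := by exact_mod_cast e4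
      calc (x.2.2 : ℝ) ≤ c * F / β := h6.trans hY1
        _ ≤ c * F / 1 := by gcongr
        _ ≤ 1 * F := by rw [div_one]; gcongr
        _ ≤ l1 * l2 ^ 4 := by rw [one_mul]; exact hFup
    have h7 : (1 : ℝ) ≤ l2 := by linarith
    have h8 : l2 ^ A ≤ l2 ^ (A + 4) := pow_le_pow_right₀ h7 (by omega)
    have h9 : l2 ^ 4 ≤ l2 ^ (A + 4) := pow_le_pow_right₀ h7 (by omega)
    have h10 : l2 ^ (A + 5) = l2 ^ (A + 4) * l2 := by rw [← pow_succ]
    calc |(x.1 : ℝ) + x.2.1 * x.2.2| ≤ |(x.1 : ℝ)| + |(x.2.1 : ℝ) * x.2.2| := abs_add_le _ _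
      _ ≤ l1 * l2 ^ (A + 4) + l1 * l2 ^ (A + 4) := by
          apply add_le_add (h3.trans _) (h4.trans _)
          · gcongr
          · gcongr
      _ = l1 * (l2 ^ (A + 4) * 2) := by ring
      _ ≤ l1 * l2 ^ (A + 5) := by
          rw [h10]
          have : (2 : ℝ) ≤ l2 := by linarith
          gcongr
  -- the weight
  have hl2A : l2 ^ A ≤ l1 := by
    rw [one_mul, one_mul, hl2, Real.exp_log p1] at mA
    exact mA
  have hinner : ∀ b ∈ B, ∀ σ : ℤ, (σ = 1 ∨ σ = -1) →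
      ∑ q ∈ Q, (if ∀ j, b + σ * q ≠ a * t j then wZ (fun j => a * t j) (b + σ * q) else 0) ≤
      C * ((Y : ℝ) / Real.log Y) := by
    intro b hb σ hσ
    have hσ2 : σ * σ = 1 := by rcases hσ with h | h <;> rw [h] <;> norm_num
    have hσa : |(σ : ℝ)| = 1 := by rcases hσ with h | h <;> rw [h] <;> norm_num
    have hσn : σ.natAbs = 1 := by rcases hσ with h | h <;> rw [h] <;> norm_num
    have h3 := hav Y hYY0 (fun j => σ * (a * t j - b)) (by
      intro j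
      push_cast
      rw [abs_mul, hσa, one_mul]
      have e1 : |(a : ℝ) * t j - b| ≤ |(a : ℝ)| * t j + |(b : ℝ)| := by
        refine (abs_sub _ _).trans ?_
        rw [abs_mul, abs_of_nonneg (Nat.cast_nonneg (t j) : (0 : ℝ) ≤ t j)]
      have e2 : |(a : ℝ)| * t j ≤ l1 ^ D * l1 ^ 2 :=
        mul_le_mul haD (htl j) (Nat.cast_nonneg _) (by positivity)
      have e3 : |(b : ℝ)| ≤ l1 * l1 := (hB b hb).trans (by gcongr)
      have e4 : l1 * l1 ≤ l1 ^ D * l1 ^ 2 := by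
        have : 1 ≤ l1 ^ D := one_le_pow₀ (by linarith)
        nlinarith
      have e5 : l1 ^ D * l1 ^ 2 * 2 ≤ l1 ^ (D + 3) := by
        have : l1 ^ (D + 3) = l1 ^ D * l1 ^ 2 * l1 := by ring
        rw [this]
        have : 0 < l1 ^ D * l1 ^ 2 := by positivity
        nlinarith
      have e6 : l1 ^ (D + 3) ≤ (Y : ℝ) ^ (4 * ((D : ℝ) + 3)) := by
        calc l1 ^ (D + 3) ≤ ((Y : ℝ) ^ 4) ^ (D + 3) := pow_le_pow_left₀ p1.le hl1Y _
          _ = (Y : ℝ) ^ (4 * ((D : ℝ) + 3)) := by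
              rw [← pow_mul, ← Real.rpow_natCast]
              congr 1
              push_cast
              ring
      linarith)
    refine le_trans (le_of_eq ?_) h3
    rw [← sum_filter]
    have h4 : ∀ q : ℕ, ∀ j, (b + σ * q ≠ a * t j ↔ (q : ℤ) ≠ σ * (a * t j - b)) := by
      intro q j
      rw [not_iff_not]
      constructor
      · intro h
        have : σ * (a * t j - b) = σ * σ * q := by rw [← h]; ring
        rw [this, hσ2, one_mul]
      · intro h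
        rw [h, ← mul_assoc, hσ2]
        ring
    have h5 : Q.filter (fun q : ℕ => ∀ j, b + σ * q ≠ a * t j) =
        Q.filter (fun q : ℕ => ∀ j, (q : ℤ) ≠ σ * (a * t j - b)) := by
      apply filter_congr
      intro q _
      exact forall_congr' (h4 q)
    rw [h5]
    apply sum_congr rfl
    intro q _
    unfold wZ
    apply prod_congr rfl
    intro j _
    have h6 : (b + σ * q - a * t j).natAbs = ((q : ℤ) - σ * (a * t j - b)).natAbs := by
      have : b + σ * q - a * t j = σ * ((q : ℤ) - σ * (a * t j - b)) := by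
        rw [mul_sub, ← mul_assoc, hσ2]
        ring
      rw [this, Int.natAbs_mul, hσn, one_mul]
    rw [h6]
  have hZw : ∑ z ∈ Z, wZ (fun j => a * t j) z ≤ c₀ * ff X := by
    refine (sum_image_le'' I _ (wZ (fun j => a * t j)) (wZ_nonneg _)).trans ?_
    rw [hI, sum_filter, sum_product]
    have h3 : ∀ b ∈ B, ∑ y ∈ ({1, -1} : Finset ℤ) ×ˢ Q,
        (if ∀ j, b + y.1 * y.2 ≠ a * t j then wZ (fun j => a * t j) (b + y.1 * y.2) else 0) ≤
        2 * (C * ((Y : ℝ) / Real.log Y)) := by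
      intro b hb
      rw [sum_product, sum_pair (by norm_num)]
      have h4 := hinner b hb 1 (Or.inl rfl)
      have h5 := hinner b hb (-1) (Or.inr rfl)
      simp only
      linarith
    have hlY0 : 0 < Real.log Y := by linarith
    calc ∑ b ∈ B, ∑ y ∈ ({1, -1} : Finset ℤ) ×ˢ Q,
        (if ∀ j, b + y.1 * y.2 ≠ a * t j then wZ (fun j => a * t j) (b + y.1 * y.2) else 0)
        ≤ ∑ _b ∈ B, 2 * (C * ((Y : ℝ) / Real.log Y)) := sum_le_sum h3
      _ = B.card * (2 * (C * ((Y : ℝ) / Real.log Y))) := by rw [sum_const, nsmul_eq_mul]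
      _ ≤ β * (2 * (C * ((Y : ℝ) / Real.log Y))) := by
          have : (B.card : ℝ) ≤ β := by exact_mod_cast le_max_left _ _
          gcongr
      _ = 2 * C * (β * Y) / Real.log Y := by ring
      _ ≤ 2 * C * (c * F) / (l2 / 4) := by
          have h6 : (β : ℝ) * Y ≤ c * F := by
            rw [le_div_iff₀ hβ0] at hY1
            linarith
          gcongr
      _ = c * (8 * C) * ff X := by
          rw [hF]
          field_simp
          ring
      _ ≤ c₀ * ff X := by gcongr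
  obtain ⟨n, hn1, hn2, hn3, hn4, hn5, hn6⟩ := hX a ha haD haφ t htinj htl hadm h hh col hcol Z hZle hZw
    bad hbad
  refine ⟨n, hn1, hn2, hn3, hn4, hn5, fun b hb p hp hpc σ hσ hne i hi1 hiJ q hq => ?_⟩
  apply hn6 (b + σ * p) _ i hi1 hiJ q hq
  rw [hZ, mem_image]
  refine ⟨(b, σ, p), (hmI _).2 ⟨⟨hb, hσ, hp, ?_⟩, hne⟩, rfl⟩
  apply Nat.le_floor
  rw [le_div_iff₀ hβ0]
  have h3 : β = B.card := by
    rw [hβ]
    apply max_eq_left
    exact Finset.card_pos.2 ⟨b, hb⟩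
  rw [h3, mul_comm]
  exact hpc

end Pool.Agent.TH101.RG
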