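import Pool.Agent.H312R2.RG.VW

set_option autoImplicit false
set_option maxHeartbeats 4000000

/-! # A prime at which the repelling function is small -/

namespace Pool.Agent.TH101.RG

open Finset Filter
open Pool.Agent.H378R2
open Pool.Agent.H312R2.RG (LPhi_nonneg' MPhi_nonneg')

/-- growth -/
theorem ev_good : ∀ᶠ X : ℝ in atTop, 1000 ≤ Real.log X ∧
    ∀ W : ℝ, 0 ≤ W → W ≤ Real.exp (Real.log X / 700) →
      W * (20000 * Real.log X) * X ^ (91 / 100 : ℝ) ≤ X := by
  have h := isLittleO_pow_exp_pos_mul_atTop (k := 1) (show (0 : ℝ) < 1 / 20 by norm_num)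
  have h1 : ∀ᶠ L : ℝ in atTop, 20000 * L ≤ Real.exp (1 / 20 * L) := by
    filter_upwards [h.def (show (0 : ℝ) < 1 / 20000 by norm_num), eventually_ge_atTop 1] with L hL hL1
    rw [pow_one, Real.norm_of_nonneg (by linarith), Real.norm_of_nonneg (Real.exp_pos _).le] at hL
    linarith
  filter_upwards [Real.tendsto_log_atTop.eventually h1, Real.tendsto_log_atTop.eventually_ge_atTop 1000,
    eventually_gt_atTop 0] with X h2 h3 h4
  refine ⟨h3, fun W hW0 hW => ?_⟩
  have h5 : X ^ (91 / 100 : ℝ) = Real.exp (91 / 100 * Real.log X) := by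
    rw [Real.rpow_def_of_pos h4]; congr 1; ring
  rw [h5]
  calc W * (20000 * Real.log X) * Real.exp (91 / 100 * Real.log X) ≤
      Real.exp (Real.log X / 700) * Real.exp (1 / 20 * Real.log X) * Real.exp (91 / 100 * Real.log X) := by
        gcongr
    _ = Real.exp (Real.log X / 700 + 1 / 20 * Real.log X + 91 / 100 * Real.log X) := by
        rw [Real.exp_add, Real.exp_add]
    _ ≤ Real.exp (Real.log X) := Real.exp_le_exp.2 (by linarith)
    _ = X := Real.exp_log h4

theorem exists_good : ∀ᶠ X : ℝ in atTop, ∀ (W r : ℕ), 0 < W → (W : ℝ) ≤ Real.exp (Real.log X / 700) →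
    ∀ (V T : ℤ → ℝ) (Z₁ M M' M₂ : ℝ), (∀ a, 0 ≤ V a ∧ V a ≤ X ^ (1 / 100 : ℝ)) → (∀ a, 0 ≤ T a) →
    1 ≤ Z₁ → 3 / 4 * Z₁ ≤ M → 3 / 4 * M ≤ M' → 0 ≤ M₂ → M₂ ≤ Z₁ / (Real.log X) ^ 3 →
    |∑ n ∈ (Icc 1 ⌊3 * X⌋₊).filter (fun n => n ≡ r [MOD W]), Phi (n / X) * (V (n : ℤ) * T (n : ℤ)) -
      M₂ * (MPhi X * (1 / (W : ℝ)))| ≤ Z₁ * (X / ((W : ℝ) * (Real.log X) ^ 3)) →
    |∑ n ∈ (Icc 1 ⌊3 * X⌋₊).filter (fun n => n ≡ r [MOD W]),
        Phi (n / X) * ArithmeticFunction.vonMangoldt n * V (n : ℤ) -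
      M' * (LPhi X * (1 / (W.totient : ℝ)))| ≤ Z₁ * (X / ((W : ℝ) * (Real.log X) ^ 3)) →
    ∀ bad : Finset ℕ, (bad.card : ℝ) ≤ X ^ (9 / 10 : ℝ) →
    ∃ n : ℕ, n.Prime ∧ X < n ∧ (n : ℝ) ≤ 3 * X ∧ n ∉ bad ∧ n ≡ r [MOD W] ∧ T (n : ℤ) < 1 := by
  classical
  filter_upwards [ev_good, LPhi_ge, eventually_ge_atTop 4] with X hg hLP hX4
  obtain ⟨hL, hgW⟩ := hg
  intro W r hW hWle V T Z₁ M M' M₂ hV hT hZ hM hM' hM20 hM2 h1 h2 bad hbad
  by_contra hcon
  push Not at hcon
  have hX0 : 0 < X := by linarith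
  set L := Real.log X with hLdef
  have hL0 : 0 < L := by linarith
  have hWr : (0 : ℝ) < W := by exact_mod_cast hW
  have hφ : (0 : ℝ) < W.totient := by exact_mod_cast Nat.totient_pos.2 hW
  have hφW : (W.totient : ℝ) ≤ W := by exact_mod_cast Nat.totient_le W
  have hlog3 : Real.log (3 * X) ≤ 2 * L := by
    rw [Real.log_mul (by norm_num) hX0.ne']
    have : Real.log 3 ≤ Real.log X := Real.log_le_log (by norm_num) (by linarith)
    linarith
  have hlog30 : 0 ≤ Real.log (3 * X) := Real.log_nonneg (by linarith)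
  set I := (Icc 1 ⌊3 * X⌋₊).filter (fun n => n ≡ r [MOD W]) with hI
  set x1 := X ^ (1 / 100 : ℝ) with hx1
  have hx10 : 0 < x1 := by positivity
  -- pointwise
  have hpt : ∀ n ∈ I, Phi (n / X) * ArithmeticFunction.vonMangoldt n * V (n : ℤ) ≤
      2 * L * (Phi (n / X) * (V (n : ℤ) * T (n : ℤ))) + (if n ∈ bad then 2 * L * x1 else 0) +
        x1 * (if n.Prime then 0 else ArithmeticFunction.vonMangoldt n) := by
    intro n hn
    rw [hI, mem_filter, mem_Icc] at hn
    obtain ⟨⟨hn1, hn3⟩, hnr⟩ := hn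
    have hn3' : (n : ℝ) ≤ 3 * X := (Nat.le_floor_iff (by linarith)).1 hn3
    have hn1' : (1 : ℝ) ≤ n := by exact_mod_cast hn1
    have hP0 := Phi_nonneg ((n : ℝ) / X)
    have hP1 : Phi ((n : ℝ) / X) ≤ 1 := (Phi_le_half _).trans (by norm_num)
    obtain ⟨hV0, hV1⟩ := hV (n : ℤ)
    have hT0 := hT (n : ℤ)
    have hΛ0 : (0 : ℝ) ≤ ArithmeticFunction.vonMangoldt n := ArithmeticFunction.vonMangoldt_nonneg
    have hΛ1 : (ArithmeticFunction.vonMangoldt n : ℝ) ≤ 2 * L :=
      (ArithmeticFunction.vonMangoldt_le_log).trans ((Real.log_le_log (by linarith) hn3').trans hlog3)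
    have hA : 0 ≤ 2 * L * (Phi (n / X) * (V (n : ℤ) * T (n : ℤ))) := by positivity
    have hB : (0 : ℝ) ≤ (if n ∈ bad then 2 * L * x1 else 0) := by split_ifs <;> positivity
    by_cases hp : n.Prime
    · rw [if_pos hp, mul_zero, add_zero]
      by_cases hXn : X < n
      · by_cases hb : n ∈ bad
        · rw [if_pos hb]
          have : Phi (n / X) * ArithmeticFunction.vonMangoldt n * V (n : ℤ) ≤ 2 * L * x1 := by
            calc Phi (n / X) * ArithmeticFunction.vonMangoldt n * V (n : ℤ) ≤ 1 * (2 * L) * x1 := by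
                  gcongr
              _ = _ := by ring
          linarith
        · rw [if_neg hb, add_zero]
          have hT1 := hcon n hp hXn hn3' hb hnr
          calc Phi (n / X) * ArithmeticFunction.vonMangoldt n * V (n : ℤ)
              ≤ Phi (n / X) * (2 * L) * (V (n : ℤ) * T (n : ℤ)) := by
                have h3 : V (n : ℤ) ≤ V (n : ℤ) * T (n : ℤ) := le_mul_of_one_le_right hV0 hT1
                have h4 : Phi (n / X) * ArithmeticFunction.vonMangoldt n ≤ Phi (n / X) * (2 * L) :=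
                  mul_le_mul_of_nonneg_left hΛ1 hP0
                exact mul_le_mul h4 h3 hV0 (by positivity)
            _ = _ := by ring
      · have h0 : Phi (n / X) = 0 := Phi_eq_zero_of_le (by positivity) (by
          rw [div_le_one hX0]
          exact not_lt.1 hXn)
        rw [h0]
        simp only [zero_mul]
        rw [mul_zero, zero_add]
        exact hB
    · rw [if_neg hp]
      have : Phi (n / X) * ArithmeticFunction.vonMangoldt n * V (n : ℤ) ≤
          x1 * ArithmeticFunction.vonMangoldt n := by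
        calc Phi (n / X) * ArithmeticFunction.vonMangoldt n * V (n : ℤ) ≤
            1 * ArithmeticFunction.vonMangoldt n * x1 := by gcongr
          _ = _ := by ring
      linarith
  have hsum := Finset.sum_le_sum hpt
  rw [Finset.sum_add_distrib, Finset.sum_add_distrib, ← Finset.mul_sum, ← Finset.mul_sum] at hsum
  -- bad
  have hb1 : ∑ n ∈ I, (if n ∈ bad then 2 * L * x1 else 0) ≤ 2 * L * X ^ (91 / 100 : ℝ) := by
    rw [← Finset.sum_filter, Finset.sum_const, nsmul_eq_mul]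
    have h3 : ((I.filter (fun n => n ∈ bad)).card : ℝ) ≤ bad.card := by
      apply Nat.cast_le.2
      apply Finset.card_le_card
      intro n hn
      exact (mem_filter.1 hn).2
    calc ((I.filter (fun n => n ∈ bad)).card : ℝ) * (2 * L * x1) ≤ X ^ (9 / 10 : ℝ) * (2 * L * x1) := by
          apply mul_le_mul_of_nonneg_right (h3.trans hbad) (by positivity)
      _ = 2 * L * (X ^ (9 / 10 : ℝ) * X ^ (1 / 100 : ℝ)) := by rw [hx1]; ring
      _ = 2 * L * X ^ (91 / 100 : ℝ) := by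
          rw [← Real.rpow_add hX0]
          norm_num
  -- prime powers
  have hpp : ∑ n ∈ I, (if n.Prime then 0 else ArithmeticFunction.vonMangoldt n) ≤ 8 * L * X ^ (1 / 2 : ℝ) := by
    have h3 : ∑ n ∈ I, (if n.Prime then (0 : ℝ) else ArithmeticFunction.vonMangoldt n) ≤
        ∑ n ∈ Ioc 0 ⌊3 * X⌋₊ with ¬ n.Prime, (ArithmeticFunction.vonMangoldt n : ℝ) := by
      have e : ∑ n ∈ Ioc 0 ⌊3 * X⌋₊ with ¬ n.Prime, (ArithmeticFunction.vonMangoldt n : ℝ) =
          ∑ n ∈ Ioc 0 ⌊3 * X⌋₊, (if ¬ n.Prime then (ArithmeticFunction.vonMangoldt n : ℝ) else 0) :=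
        Finset.sum_filter (s := Ioc 0 ⌊3 * X⌋₊) _ _
      rw [e]
      refine le_trans (Finset.sum_le_sum_of_subset_of_nonneg (t := Ioc 0 ⌊3 * X⌋₊) ?_ ?_) (le_of_eq ?_)
      · intro n hn
        rw [hI, mem_filter, mem_Icc] at hn
        rw [mem_Ioc]
        omega
      · intro n _ _
        split_ifs
        · exact le_rfl
        · exact ArithmeticFunction.vonMangoldt_nonneg
      · apply Finset.sum_congr rfl
        intro n _
        by_cases hp : n.Prime <;> simp [hp]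
    rw [← Chebyshev.psi_sub_theta_eq_sum_not_prime] at h3
    refine h3.trans ((Chebyshev.psi_sub_theta_le (by linarith)).trans ?_)
    have h4 : Real.sqrt (3 * X) ≤ 2 * X ^ (1 / 2 : ℝ) := by
      rw [← Real.sqrt_eq_rpow, Real.sqrt_mul (by norm_num)]
      apply mul_le_mul_of_nonneg_right _ (Real.sqrt_nonneg _)
      rw [Real.sqrt_le_left (by norm_num)]
      norm_num
    calc 2 * Real.sqrt (3 * X) * Real.log (3 * X) ≤ 2 * (2 * X ^ (1 / 2 : ℝ)) * (2 * L) := by gcongr
      _ = _ := by ring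
  have hpp' : x1 * ∑ n ∈ I, (if n.Prime then 0 else ArithmeticFunction.vonMangoldt n) ≤
      8 * L * X ^ (91 / 100 : ℝ) := by
    calc x1 * ∑ n ∈ I, (if n.Prime then 0 else ArithmeticFunction.vonMangoldt n) ≤
        x1 * (8 * L * X ^ (1 / 2 : ℝ)) := mul_le_mul_of_nonneg_left hpp hx10.le
      _ = 8 * L * (X ^ (1 / 100 : ℝ) * X ^ (1 / 2 : ℝ)) := by rw [hx1]; ring
      _ = 8 * L * X ^ (51 / 100 : ℝ) := by
          rw [← Real.rpow_add hX0]
          norm_num
      _ ≤ 8 * L * X ^ (91 / 100 : ℝ) := by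
          apply mul_le_mul_of_nonneg_left _ (by positivity)
          exact Real.rpow_le_rpow_of_exponent_le (by linarith) (by norm_num)
  -- main terms
  have h3 := (abs_le.1 h1).2
  have h4 := (abs_le.1 h2).1
  set P := X / (W : ℝ) with hP
  have hP0 : 0 < P := by rw [hP]; positivity
  have hP3 : X / ((W : ℝ) * L ^ 3) = P / L ^ 3 := by rw [hP, div_div]
  rw [hP3] at h3 h4
  have hsmall : 10 * L * X ^ (91 / 100 : ℝ) ≤ P / 2000 := by
    rw [hP, div_div, le_div_iff₀ (by positivity)]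
    have h5 := hgW W hWr.le hWle
    calc 10 * L * X ^ (91 / 100 : ℝ) * (W * 2000) = W * (20000 * L) * X ^ (91 / 100 : ℝ) := by ring
      _ ≤ X := h5
  have hMP : M₂ * (MPhi X * (1 / (W : ℝ))) ≤ Z₁ / L ^ 3 * (2 * P) := by
    have h5 := MPhi_le X hX4
    have h6 : MPhi X * (1 / (W : ℝ)) ≤ 2 * P := by
      rw [hP]
      calc MPhi X * (1 / (W : ℝ)) ≤ 2 * X * (1 / (W : ℝ)) := by gcongr
        _ = _ := by ring
    have h7 := MPhi_nonneg' X
    exact mul_le_mul hM2 h6 (by positivity) (by positivity)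
  have hMain : 9 / 16 * Z₁ * (P / 200) ≤ M' * (LPhi X * (1 / (W.totient : ℝ))) := by
    have h5 : 9 / 16 * Z₁ ≤ M' := by linarith
    have h6 : P / 200 ≤ LPhi X * (1 / (W.totient : ℝ)) := by
      rw [hP]
      calc X / (W : ℝ) / 200 = (X / 200) * (1 / (W : ℝ)) := by ring
        _ ≤ LPhi X * (1 / (W.totient : ℝ)) := by
            apply mul_le_mul hLP _ (by positivity) (LPhi_nonneg' X)
            exact one_div_le_one_div_of_le hφ hφW
    exact mul_le_mul h5 h6 (by positivity) (by linarith)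
  have hL3 : P / L ^ 3 ≤ P / L * (1 / 1000000) := by
    rw [div_mul_div_comm, mul_one, div_le_div_iff₀ (by positivity) (by positivity)]
    have : L * 1000000 ≤ L ^ 3 := by nlinarith [sq_nonneg L]
    nlinarith
  have h5 : ∑ n ∈ I, Phi (n / X) * (V (n : ℤ) * T (n : ℤ)) ≤ 3 * Z₁ * (P / L ^ 3) := by
    have h6 : Z₁ / L ^ 3 * (2 * P) = 2 * Z₁ * (P / L ^ 3) := by ring
    rw [h6] at hMP
    linarith
  have h6 : 2 * L * ∑ n ∈ I, Phi (n / X) * (V (n : ℤ) * T (n : ℤ)) ≤ Z₁ * P / 1000 := by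
    calc 2 * L * ∑ n ∈ I, Phi (n / X) * (V (n : ℤ) * T (n : ℤ)) ≤ 2 * L * (3 * Z₁ * (P / L ^ 3)) := by gcongr
      _ ≤ 2 * L * (3 * Z₁ * (P / L * (1 / 1000000))) := by gcongr
      _ = Z₁ * P * (6 / 1000000) := by field_simp; norm_num
      _ ≤ _ := by
          have : 0 ≤ Z₁ * P := by positivity
          linarith
  have h7 : Z₁ * (P / L ^ 3) ≤ Z₁ * P / 10000 := by
    have h8 : P / L ^ 3 ≤ P / 10000 := by
      apply div_le_div_of_nonneg_left hP0.le (by norm_num)
      nlinarith [sq_nonneg L, mul_pos hL0 hL0]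
    calc Z₁ * (P / L ^ 3) ≤ Z₁ * (P / 10000) := mul_le_mul_of_nonneg_left h8 (by linarith)
      _ = _ := by ring
  have h8 : P / 2000 ≤ Z₁ * P / 2000 := by
    have : P ≤ Z₁ * P := le_mul_of_one_le_left hP0.le hZ
    linarith
  have h9 : 0 < Z₁ * P := by positivity
  have h10 : 9 / 16 * Z₁ * (P / 200) = Z₁ * P * (9 / 3200) := by ring
  rw [h10] at hMain
  linarith

end Pool.Agent.TH101.RG
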