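import Pool.Agent.TH101.RG.Orb
import Pool.Agent.Helper602.MK.J3

set_option autoImplicit false
set_option maxHeartbeats 4000000

/-! # Averages of powers of `n / φ(n)` over shifted primes -/

namespace Pool.Agent.TH101.RG

open Finset Filter
open Pool.Agent.H318R2.Cr (cz_bounds Pz mem_Pz one_sub_inv_pos V V_pos sum_inv_sq)

open scoped Classical

theorem inv_pow_le (K : ℕ) (x : ℝ) (h0 : 0 ≤ x) (h1 : x ≤ 1 / 2) :
    ((1 - x)⁻¹) ^ K ≤ 1 + ((3 : ℝ) ^ K - 1) * x := by
  have h2 : (1 - x)⁻¹ ≤ 1 + 2 * x := by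
    rw [inv_le_iff_one_le_mul₀ (by linarith)]
    nlinarith
  have h3 : 0 ≤ (1 - x)⁻¹ := inv_nonneg.2 (by linarith)
  induction K with
  | zero => simp
  | succ K ih =>
    have h4 : (1 : ℝ) ≤ 3 ^ K := one_le_pow₀ (by norm_num)
    rw [pow_succ]
    calc ((1 - x)⁻¹) ^ K * (1 - x)⁻¹ ≤ (1 + ((3 : ℝ) ^ K - 1) * x) * (1 + 2 * x) := by
          apply mul_le_mul ih h2 h3
          have : 0 ≤ ((3 : ℝ) ^ K - 1) * x := mul_nonneg (by linarith) h0
          linarith
      _ ≤ 1 + ((3 : ℝ) ^ (K + 1) - 1) * x := by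
          rw [pow_succ]
          have : 0 ≤ ((3 : ℝ) ^ K - 1) * x * (1 / 2 - x) :=
            mul_nonneg (mul_nonneg (by linarith) h0) (by linarith)
          nlinarith

/-- the powers of `n / φ(n)` in terms of the small primes -/
theorem ratio_pow_le (K : ℕ) (A : ℝ) (n : ℕ) (hn : n ≠ 0) (y : ℕ) (hy : 0 < y) (hA : Real.log n ≤ A * y) :
    ((n : ℝ) / (n.totient : ℝ)) ^ K ≤ Real.exp (4 * A * K) *
      ∏ p ∈ n.primeFactors.filter (fun p => p ≤ y), (1 + ((3 : ℝ) ^ K - 1) / p) := by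
  have hy0 : (0 : ℝ) < y := by exact_mod_cast hy
  rw [← prod_inv_primeFactors n hn]
  have h1 : ∏ p ∈ n.primeFactors, (1 - 1 / (p : ℝ))⁻¹ =
      (∏ p ∈ n.primeFactors.filter (fun p => p ≤ y), (1 - 1 / (p : ℝ))⁻¹) *
      ∏ p ∈ n.primeFactors.filter (fun p => ¬ p ≤ y), (1 - 1 / (p : ℝ))⁻¹ :=
    (prod_filter_mul_prod_filter_not _ _ _).symm
  have h2 : ∑ p ∈ n.primeFactors.filter (fun p => ¬ p ≤ y), (1 : ℝ) / p ≤ 2 * A := by
    have h3 : ∑ p ∈ n.primeFactors.filter (fun p => ¬ p ≤ y), (1 : ℝ) / p ≤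
        ∑ p ∈ n.primeFactors.filter (fun p => ¬ p ≤ y), 1 / (y : ℝ) := by
      apply sum_le_sum
      intro p hp
      rw [mem_filter, not_le] at hp
      apply one_div_le_one_div_of_le hy0
      exact_mod_cast hp.2.le
    refine h3.trans ?_
    rw [sum_const, nsmul_eq_mul, mul_one_div, div_le_iff₀ hy0]
    have h4 : ((n.primeFactors.filter (fun p => ¬ p ≤ y)).card : ℝ) ≤ 2 * Real.log n := by
      refine le_trans ?_ (Pool.Agent.H398R2.RK.card_primeFactors_le n (Nat.pos_of_ne_zero hn))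
      exact_mod_cast card_filter_le _ _
    linarith
  have h3 := inv_prod_le (n.primeFactors.filter (fun p => ¬ p ≤ y))
    (fun q hq => Nat.prime_of_mem_primeFactors (mem_filter.1 hq).1) _ h2
  have hpos : ∀ (s : Finset ℕ), (∀ p ∈ s, p.Prime) → 0 ≤ ∏ p ∈ s, (1 - 1 / (p : ℝ))⁻¹ := by
    intro s hs
    apply prod_nonneg
    intro p hp
    exact inv_nonneg.2 (one_sub_inv_pos (hs p hp)).le
  have hpA := hpos (n.primeFactors.filter (fun p => p ≤ y))
    (fun q hq => Nat.prime_of_mem_primeFactors (mem_filter.1 hq).1)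
  have hpB := hpos (n.primeFactors.filter (fun p => ¬ p ≤ y))
    (fun q hq => Nat.prime_of_mem_primeFactors (mem_filter.1 hq).1)
  rw [h1, mul_pow, mul_comm]
  have h5 : (∏ p ∈ n.primeFactors.filter (fun p => ¬ p ≤ y), (1 - 1 / (p : ℝ))⁻¹) ^ K ≤
      Real.exp (4 * A * K) := by
    calc (∏ p ∈ n.primeFactors.filter (fun p => ¬ p ≤ y), (1 - 1 / (p : ℝ))⁻¹) ^ K
        ≤ (Real.exp (2 * (2 * A))) ^ K := pow_le_pow_left₀ hpB h3 K
      _ = Real.exp (4 * A * K) := by
          rw [← Real.exp_nat_mul]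
          congr 1
          ring
  have h6 : (∏ p ∈ n.primeFactors.filter (fun p => p ≤ y), (1 - 1 / (p : ℝ))⁻¹) ^ K ≤
      ∏ p ∈ n.primeFactors.filter (fun p => p ≤ y), (1 + ((3 : ℝ) ^ K - 1) / p) := by
    rw [← prod_pow]
    apply Finset.prod_le_prod
    · intro p hp
      have := (one_sub_inv_pos (Nat.prime_of_mem_primeFactors (mem_filter.1 hp).1)).le
      positivity
    · intro p hp
      have hp2 : (2 : ℝ) ≤ p := by
        exact_mod_cast (Nat.prime_of_mem_primeFactors (mem_filter.1 hp).1).two_le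
      have h7 := inv_pow_le K (1 / (p : ℝ)) (by positivity)
        (one_div_le_one_div_of_le (by norm_num) hp2)
      rw [mul_one_div] at h7
      exact h7
  exact mul_le_mul h5 h6 (pow_nonneg hpA K) (Real.exp_pos _).le

/-- `D / φ(D) / D` for a product of distinct primes -/
theorem prod_totient_le (T : Finset ℕ) (hT : ∀ p ∈ T, p.Prime) :
    ((∏ p ∈ T, p : ℕ) : ℝ) / (((∏ p ∈ T, p : ℕ).totient : ℕ) : ℝ) * (1 / ((∏ p ∈ T, p : ℕ) : ℝ)) ≤
      ∏ p ∈ T, (2 / (p : ℝ)) := by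
  have h0 : (∏ p ∈ T, p) ≠ 0 := prod_ne_zero_iff.2 fun p hp => (hT p hp).ne_zero
  have h1 := prod_inv_primeFactors (∏ p ∈ T, p) h0
  rw [Nat.primeFactors_prod hT] at h1
  rw [← h1]
  push_cast
  rw [one_div, ← prod_inv_distrib, ← prod_mul_distrib]
  apply Finset.prod_le_prod
  · intro p hp
    have := (one_sub_inv_pos (hT p hp)).le
    positivity
  · intro p hp
    have hp2 : (2 : ℝ) ≤ p := by exact_mod_cast (hT p hp).two_le
    have h2 : (1 - 1 / (p : ℝ))⁻¹ ≤ 2 := by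
      rw [inv_le_comm₀ (one_sub_inv_pos (hT p hp)) (by norm_num)]
      have : 1 / (p : ℝ) ≤ 1 / 2 := one_div_le_one_div_of_le (by norm_num) hp2
      norm_num at this ⊢
      linarith
    rw [div_eq_mul_inv]
    exact mul_le_mul_of_nonneg_right h2 (by positivity)

/-- Brun-Titchmarsh for the moduli built from the primes `≤ y`, `16^y ≤ Y` -/
theorem bt_smooth : ∃ C : ℝ, 1 ≤ C ∧ ∀ (Y y : ℕ), 2 ≤ Y → 16 ^ y ≤ Y → ∀ T : Finset ℕ,
    (∀ p ∈ T, p.Prime ∧ p ≤ y) → ∀ s : ℤ,
    ((((Icc 1 Y).filter Nat.Prime).filter (fun q : ℕ => ∀ p ∈ T, (p : ℤ) ∣ q - s)).card : ℝ) ≤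
      C * ((Y : ℝ) / Real.log Y) * ∏ p ∈ T, (2 / (p : ℝ)) := by
  obtain ⟨C, hC1, hC⟩ := Pool.Agent.Helper602.MK.BTLib.brun_titchmarsh
  refine ⟨4 * C, by linarith, fun Y y hY2 hyY T hT s => ?_⟩
  obtain ⟨D, hD⟩ : ∃ D, D = ∏ p ∈ T, p := ⟨_, rfl⟩
  have hTp : ∀ p ∈ T, p.Prime := fun p hp => (hT p hp).1
  have hD0 : 0 < D := by
    rw [hD]
    exact Nat.pos_of_ne_zero (prod_ne_zero_iff.2 fun p hp => (hTp p hp).ne_zero)
  have hDy : D ≤ 4 ^ y := by
    have h1 : D ∣ primorial y := by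
      rw [hD]
      unfold primorial
      apply prod_dvd_prod_of_subset
      intro p hp
      rw [mem_filter, mem_range]
      exact ⟨by have := (hT p hp).2; omega, hTp p hp⟩
    exact (Nat.le_of_dvd (primorial_pos y) h1).trans (primorial_le_four_pow y)
  have hD2 : D * D ≤ Y := by
    calc D * D ≤ 4 ^ y * 4 ^ y := Nat.mul_le_mul hDy hDy
      _ = 16 ^ y := by rw [← mul_pow]; norm_num
      _ ≤ Y := hyY
  have hDR : (0 : ℝ) < D := by exact_mod_cast hD0
  have hYR : (2 : ℝ) ≤ Y := by exact_mod_cast hY2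
  have hlogY : 0 < Real.log Y := Real.log_pos (by linarith)
  obtain ⟨a, ha⟩ : ∃ a : ℕ, (a : ℤ) = s % D := ⟨(s % D).toNat, Int.toNat_of_nonneg
    (Int.emod_nonneg _ (by exact_mod_cast hD0.ne'))⟩
  have haD : a < D := by
    have := Int.emod_lt_of_pos s (by exact_mod_cast hD0 : (0 : ℤ) < D)
    rw [← ha] at this
    exact_mod_cast this
  set N := Y / D + 1 with hN
  have hDY : D ≤ Y := (Nat.le_mul_self D).trans hD2
  have hN2 : 2 ≤ N := by
    have : 1 ≤ Y / D := (Nat.one_le_div_iff hD0).2 hDY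
    omega
  have hcard : (((Icc 1 Y).filter Nat.Prime).filter (fun q : ℕ => ∀ p ∈ T, (p : ℤ) ∣ q - s)).card ≤
      ((range N).filter (fun k => (a + k * D).Prime)).card := by
    have key : ∀ q : ℕ, (∀ p ∈ T, (p : ℤ) ∣ q - s) → q % D = a := by
      intro q hq
      have h1 : (D : ℤ) ∣ q - s := by
        rw [hD, Nat.cast_prod]
        apply Finset.prod_dvd_of_coprime
        · intro i hi j hj hij
          have := (Nat.coprime_primes (hTp i hi) (hTp j hj)).2 hij
          exact_mod_cast Nat.isCoprime_iff_coprime.2 this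
        · intro p hp
          exact hq p hp
      have h2 : (q : ℤ) % D = s % D :=
        Int.emod_eq_emod_iff_emod_sub_eq_zero.2 (Int.emod_eq_zero_of_dvd h1)
      rw [← ha] at h2
      exact_mod_cast h2
    apply card_le_card_of_injOn (fun q => q / D)
    · intro q hq
      rw [mem_coe, mem_filter, mem_filter, mem_Icc] at hq
      rw [mem_coe, mem_filter, mem_range]
      have h1 := key q hq.2
      refine ⟨Nat.lt_succ_of_le (Nat.div_le_div_right hq.1.1.2), ?_⟩
      have h2 : a + q / D * D = q := by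
        rw [← h1, mul_comm]
        exact Nat.mod_add_div q D
      simp only
      rw [h2]
      exact hq.1.2
    · intro q hq q' hq' h
      rw [mem_coe, mem_filter] at hq hq'
      have h1 := key q hq.2
      have h2 := key q' hq'.2
      simp only at h
      rw [← Nat.mod_add_div q D, ← Nat.mod_add_div q' D, h1, h2, h]
  have h1 : ((((Icc 1 Y).filter Nat.Prime).filter (fun q : ℕ => ∀ p ∈ T, (p : ℤ) ∣ q - s)).card : ℝ) ≤
      C * ((D : ℝ) / (Nat.totient D : ℝ)) * N / Real.log N :=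
    le_trans (by exact_mod_cast hcard) (hC a D N hD0 hN2)
  refine h1.trans ?_
  have hNle : (N : ℝ) ≤ 2 * (Y * (1 / D)) := by
    rw [hN]
    push_cast
    have h2 := @Nat.cast_div_le ℝ _ _ _ Y D
    have h3 : (1 : ℝ) ≤ Y / D := by
      rw [le_div_iff₀ hDR, one_mul]
      exact_mod_cast hDY
    rw [mul_one_div]
    linarith
  have hlogN : Real.log Y / 2 ≤ Real.log N := by
    have h2 : (Y : ℝ) / D ≤ N := by
      rw [hN]
      push_cast
      rw [div_le_iff₀ hDR]
      have h3 := Nat.lt_div_mul_add (a := Y) hD0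
      have h4 : (Y : ℝ) ≤ (Y / D : ℕ) * D + D := by exact_mod_cast h3.le
      push_cast at h4
      linarith
    have h3 : Real.log ((Y : ℝ) / D) ≤ Real.log N := Real.log_le_log (by positivity) h2
    rw [Real.log_div (by positivity) (by positivity)] at h3
    have h4 : Real.log D * 2 ≤ Real.log Y := by
      rw [mul_comm, ← Real.log_rpow hDR]
      apply Real.log_le_log (by positivity)
      have : ((D * D : ℕ) : ℝ) ≤ Y := by exact_mod_cast hD2
      push_cast at this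
      norm_num
      nlinarith
    linarith
  have hNN : (0 : ℝ) < N := by positivity
  have hphi : (0 : ℝ) < Nat.totient D := by exact_mod_cast Nat.totient_pos.2 hD0
  have h5 := prod_totient_le T hTp
  rw [← hD] at h5
  have hlN : 0 < Real.log N := by linarith
  calc C * ((D : ℝ) / (Nat.totient D : ℝ)) * N / Real.log N
      ≤ C * ((D : ℝ) / (Nat.totient D : ℝ)) * (2 * (Y * (1 / D))) / (Real.log Y / 2) := by
        gcongr
    _ = 4 * C * ((Y : ℝ) / Real.log Y) * ((D : ℝ) / (Nat.totient D : ℝ) * (1 / (D : ℝ))) := by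
        field_simp
        ring
    _ ≤ 4 * C * ((Y : ℝ) / Real.log Y) * ∏ p ∈ T, (2 / (p : ℝ)) := by
        gcongr

/-- the mean value of `(N / φ(N))^K`, `N = |q - s|`, over the primes `q ≤ Y` -/
theorem sum_ratio_primes (K : ℕ) (A : ℝ) (hA : 0 ≤ A) : ∃ C : ℝ, 0 < C ∧ ∃ Y₀ : ℕ, ∀ Y : ℕ, Y₀ ≤ Y →
    ∀ s : ℤ, |(s : ℝ)| ≤ (Y : ℝ) ^ A →
    ∑ q ∈ ((Icc 1 Y).filter Nat.Prime).filter (fun q : ℕ => (q : ℤ) ≠ s),
      (((q - s : ℤ).natAbs : ℝ) / ((q - s : ℤ).natAbs.totient : ℝ)) ^ K ≤ C * ((Y : ℝ) / Real.log Y) := by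
  obtain ⟨C₁, hC₁, hbt⟩ := bt_smooth
  set c : ℝ := (3 : ℝ) ^ K - 1 with hc
  have hc0 : 0 ≤ c := by
    rw [hc]
    have : (1 : ℝ) ≤ 3 ^ K := one_le_pow₀ (by norm_num)
    linarith
  refine ⟨Real.exp (4 * (5 * (A + 2)) * K) * (C₁ * Real.exp (4 * c)), by positivity,
    ⌈Real.exp 100⌉₊, fun Y hY s hs => ?_⟩
  have hYe : Real.exp 100 ≤ Y := (Nat.le_ceil _).trans (by exact_mod_cast hY)
  have hY0 : (0 : ℝ) < Y := (Real.exp_pos _).trans_le hYe
  have hlY : 100 ≤ Real.log Y := by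
    rw [Real.le_log_iff_exp_le hY0]
    exact hYe
  have hY2 : 2 ≤ Y := by
    have h1 := Real.add_one_le_exp (100 : ℝ)
    have : (2 : ℝ) ≤ Y := by linarith
    exact_mod_cast this
  have hY1 : (1 : ℝ) ≤ Y := by exact_mod_cast (by omega : 1 ≤ Y)
  set y := ⌊Real.log Y / 4⌋₊ with hy
  have hy4 : (y : ℝ) ≤ Real.log Y / 4 := Nat.floor_le (by positivity)
  have hy5 : Real.log Y / 5 ≤ y := by
    have := Nat.lt_floor_add_one (Real.log Y / 4)
    rw [← hy] at this
    linarith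
  have hy0 : 0 < y := by
    have : (0 : ℝ) < y := by linarith
    exact_mod_cast this
  have h16 : 16 ^ y ≤ Y := by
    have h1 : Real.log 16 ≤ 4 := by
      have h2 : Real.log 16 = 4 * Real.log 2 := by
        rw [show (16 : ℝ) = 2 ^ 4 by norm_num, Real.log_pow]
        norm_num
      have := Real.log_two_lt_d9
      rw [h2]
      linarith
    have h3 : ((16 ^ y : ℕ) : ℝ) ≤ Y := by
      push_cast
      rw [← Real.log_le_log_iff (by positivity) hY0, Real.log_pow]
      nlinarith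
    exact_mod_cast h3
  set P : Finset ℕ := (Icc 1 y).filter Nat.Prime with hP
  have hPp : ∀ p ∈ P, p.Prime ∧ p ≤ y := by
    intro p hp
    rw [hP, mem_filter, mem_Icc] at hp
    exact ⟨hp.2, hp.1.2⟩
  set Q : Finset ℕ := (Icc 1 Y).filter Nat.Prime with hQ
  have hpt : ∀ q ∈ Q.filter (fun q : ℕ => (q : ℤ) ≠ s),
      (((q - s : ℤ).natAbs : ℝ) / ((q - s : ℤ).natAbs.totient : ℝ)) ^ K ≤
      Real.exp (4 * (5 * (A + 2)) * K) *
        ∑ T ∈ P.powerset, (if ∀ p ∈ T, (p : ℤ) ∣ q - s then ∏ p ∈ T, (c / (p : ℝ)) else 0) := by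
    intro q hq
    rw [mem_filter, hQ, mem_filter, mem_Icc] at hq
    obtain ⟨⟨⟨-, hqY⟩, hqp⟩, hqs⟩ := hq
    set n := (q - s : ℤ).natAbs with hn
    have hn0 : n ≠ 0 := Int.natAbs_ne_zero.2 (sub_ne_zero.2 hqs)
    have hlog : Real.log n ≤ 5 * (A + 2) * y := by
      have h1 : (n : ℝ) ≤ (Y : ℝ) ^ (A + 2) := by
        have h2 : (n : ℝ) = |((q : ℝ) - s)| := by
          rw [hn, Nat.cast_natAbs]
          push_cast
          rfl
        have h3 : |((q : ℝ) - s)| ≤ Y + (Y : ℝ) ^ A := by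
          refine (abs_sub _ _).trans (add_le_add ?_ hs)
          rw [abs_of_nonneg (Nat.cast_nonneg q)]
          exact_mod_cast hqY
        rw [h2]
        refine h3.trans ?_
        have h4 : (1 : ℝ) ≤ (Y : ℝ) ^ A := Real.one_le_rpow hY1 hA
        have h5 : (Y : ℝ) ^ (A + 2) = (Y : ℝ) ^ A * Y * Y := by
          rw [Real.rpow_add hY0]
          norm_num
          ring
        rw [h5]
        have h6 : (2 : ℝ) ≤ Y := by exact_mod_cast hY2
        have h7 : (Y : ℝ) ≤ (Y : ℝ) ^ A * Y := by nlinarith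
        have h8 : (Y : ℝ) ^ A ≤ (Y : ℝ) ^ A * Y := by nlinarith
        nlinarith
      have h2 : Real.log n ≤ (A + 2) * Real.log Y := by
        rw [← Real.log_rpow hY0]
        exact Real.log_le_log (by exact_mod_cast Nat.pos_of_ne_zero hn0) h1
      nlinarith
    refine (ratio_pow_le K (5 * (A + 2)) n hn0 y hy0 hlog).trans ?_
    apply mul_le_mul_of_nonneg_left _ (Real.exp_pos _).le
    rw [Finset.prod_one_add, ← sum_filter]
    apply le_of_eq
    apply sum_congr _ fun _ _ => rfl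
    ext T
    rw [mem_powerset, mem_filter, mem_powerset]
    constructor
    · intro h
      refine ⟨fun p hp => ?_, fun p hp => ?_⟩
      · have h1 := mem_filter.1 (h hp)
        rw [hP, mem_filter, mem_Icc]
        have h2 := Nat.prime_of_mem_primeFactors h1.1
        exact ⟨⟨h2.one_le, h1.2⟩, h2⟩
      · have h1 := mem_filter.1 (h hp)
        exact Int.natCast_dvd.2 (Nat.dvd_of_mem_primeFactors h1.1)
    · rintro ⟨h1, h2⟩ p hp
      rw [mem_filter, Nat.mem_primeFactors]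
      exact ⟨⟨(hPp p (h1 hp)).1, Int.natCast_dvd.1 (h2 p hp), hn0⟩, (hPp p (h1 hp)).2⟩
  have hYl : 0 ≤ (Y : ℝ) / Real.log Y := by positivity
  calc ∑ q ∈ Q.filter (fun q : ℕ => (q : ℤ) ≠ s),
        (((q - s : ℤ).natAbs : ℝ) / ((q - s : ℤ).natAbs.totient : ℝ)) ^ K
      ≤ ∑ q ∈ Q.filter (fun q : ℕ => (q : ℤ) ≠ s), Real.exp (4 * (5 * (A + 2)) * K) *
        ∑ T ∈ P.powerset, (if ∀ p ∈ T, (p : ℤ) ∣ q - s then ∏ p ∈ T, (c / (p : ℝ)) else 0) :=
        sum_le_sum hpt
    _ ≤ ∑ q ∈ Q, Real.exp (4 * (5 * (A + 2)) * K) *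
        ∑ T ∈ P.powerset, (if ∀ p ∈ T, (p : ℤ) ∣ q - s then ∏ p ∈ T, (c / (p : ℝ)) else 0) := by
        apply sum_le_sum_of_subset_of_nonneg (filter_subset _ _)
        intro q _ _
        apply mul_nonneg (Real.exp_pos _).le
        apply sum_nonneg
        intro T _
        split_ifs
        · exact prod_nonneg fun p _ => by positivity
        · exact le_rfl
    _ = Real.exp (4 * (5 * (A + 2)) * K) * ∑ T ∈ P.powerset, (∏ p ∈ T, (c / (p : ℝ))) *
        ((Q.filter (fun q : ℕ => ∀ p ∈ T, (p : ℤ) ∣ q - s)).card : ℝ) := by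
        rw [← mul_sum, sum_comm]
        congr 1
        apply sum_congr rfl
        intro T _
        rw [← sum_filter, sum_const, nsmul_eq_mul, mul_comm]
    _ ≤ Real.exp (4 * (5 * (A + 2)) * K) * ∑ T ∈ P.powerset, (∏ p ∈ T, (c / (p : ℝ))) *
        (C₁ * ((Y : ℝ) / Real.log Y) * ∏ p ∈ T, (2 / (p : ℝ))) := by
        apply mul_le_mul_of_nonneg_left _ (Real.exp_pos _).le
        apply sum_le_sum
        intro T hT
        rw [mem_powerset] at hT
        apply mul_le_mul_of_nonneg_left _ (prod_nonneg fun p _ => by positivity)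
        exact hbt Y y hY2 h16 T (fun p hp => hPp p (hT hp)) s
    _ = Real.exp (4 * (5 * (A + 2)) * K) * (C₁ * ((Y : ℝ) / Real.log Y) *
        ∑ T ∈ P.powerset, ∏ p ∈ T, (2 * c * (1 / (p : ℝ) ^ 2))) := by
        congr 1
        rw [mul_sum]
        apply sum_congr rfl
        intro T _
        have h1 : ∏ p ∈ T, (2 * c * (1 / (p : ℝ) ^ 2)) =
            (∏ p ∈ T, (c / (p : ℝ))) * ∏ p ∈ T, (2 / (p : ℝ)) := by
          rw [← prod_mul_distrib]
          apply prod_congr rfl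
          intro p _
          field_simp
        rw [h1]
        ring
    _ ≤ Real.exp (4 * (5 * (A + 2)) * K) * (C₁ * ((Y : ℝ) / Real.log Y) * Real.exp (4 * c)) := by
        apply mul_le_mul_of_nonneg_left _ (Real.exp_pos _).le
        apply mul_le_mul_of_nonneg_left _ (by positivity)
        rw [← Finset.prod_one_add]
        calc ∏ p ∈ P, (1 + 2 * c * (1 / (p : ℝ) ^ 2)) ≤ ∏ p ∈ P, Real.exp (2 * c * (1 / (p : ℝ) ^ 2)) := by
              apply Finset.prod_le_prod
              · intro p _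
                positivity
              · intro p _
                have := Real.add_one_le_exp (2 * c * (1 / (p : ℝ) ^ 2))
                linarith
          _ = Real.exp (∑ p ∈ P, 2 * c * (1 / (p : ℝ) ^ 2)) := by rw [Real.exp_sum]
          _ ≤ Real.exp (4 * c) := by
              apply Real.exp_le_exp.2
              rw [← mul_sum]
              have := sum_inv_sq P
              nlinarith
    _ = Real.exp (4 * (5 * (A + 2)) * K) * (C₁ * Real.exp (4 * c)) * ((Y : ℝ) / Real.log Y) := by ring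

/-- the mean value of the weights of a tuple over shifted primes -/
theorem sum_prod_ratio_primes (K : ℕ) (hK : 1 ≤ K) (A : ℝ) (hA : 0 ≤ A) : ∃ C : ℝ, 0 < C ∧ ∃ Y₀ : ℕ,
    ∀ Y : ℕ, Y₀ ≤ Y → ∀ s : Fin K → ℤ, (∀ j, |(s j : ℝ)| ≤ (Y : ℝ) ^ A) →
    ∑ q ∈ ((Icc 1 Y).filter Nat.Prime).filter (fun q : ℕ => ∀ j, (q : ℤ) ≠ s j),
      ∏ j, (((q - s j : ℤ).natAbs : ℝ) / ((q - s j : ℤ).natAbs.totient : ℝ)) ≤
      C * ((Y : ℝ) / Real.log Y) := by
  obtain ⟨C, hC, Y₀, h⟩ := sum_ratio_primes K A hA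
  have hK0 : (0 : ℝ) < K := by exact_mod_cast hK
  refine ⟨K * C, by positivity, Y₀, fun Y hY s hs => ?_⟩
  have hne : Nonempty (Fin K) := ⟨⟨0, hK⟩⟩
  calc ∑ q ∈ ((Icc 1 Y).filter Nat.Prime).filter (fun q : ℕ => ∀ j, (q : ℤ) ≠ s j),
        ∏ j, (((q - s j : ℤ).natAbs : ℝ) / ((q - s j : ℤ).natAbs.totient : ℝ))
      ≤ ∑ q ∈ ((Icc 1 Y).filter Nat.Prime).filter (fun q : ℕ => ∀ j, (q : ℤ) ≠ s j),
        ∑ j, (((q - s j : ℤ).natAbs : ℝ) / ((q - s j : ℤ).natAbs.totient : ℝ)) ^ K := by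
        apply sum_le_sum
        intro q _
        obtain ⟨j₀, -, hj₀⟩ := exists_max_image (univ : Finset (Fin K))
          (fun j => (((q - s j : ℤ).natAbs : ℝ) / ((q - s j : ℤ).natAbs.totient : ℝ))) univ_nonempty
        calc ∏ j, (((q - s j : ℤ).natAbs : ℝ) / ((q - s j : ℤ).natAbs.totient : ℝ))
            ≤ ∏ _j : Fin K, (((q - s j₀ : ℤ).natAbs : ℝ) / ((q - s j₀ : ℤ).natAbs.totient : ℝ)) := by
              apply Finset.prod_le_prod
              · intro j _
                positivity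
              · intro j _
                exact hj₀ j (mem_univ j)
          _ = (((q - s j₀ : ℤ).natAbs : ℝ) / ((q - s j₀ : ℤ).natAbs.totient : ℝ)) ^ K := by
              rw [prod_const, card_univ, Fintype.card_fin]
          _ ≤ ∑ j, (((q - s j : ℤ).natAbs : ℝ) / ((q - s j : ℤ).natAbs.totient : ℝ)) ^ K :=
              single_le_sum (f := fun j => (((q - s j : ℤ).natAbs : ℝ) /
                ((q - s j : ℤ).natAbs.totient : ℝ)) ^ K) (fun j _ => by positivity) (mem_univ j₀)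
    _ = ∑ j, ∑ q ∈ ((Icc 1 Y).filter Nat.Prime).filter (fun q : ℕ => ∀ j, (q : ℤ) ≠ s j),
        (((q - s j : ℤ).natAbs : ℝ) / ((q - s j : ℤ).natAbs.totient : ℝ)) ^ K := sum_comm
    _ ≤ ∑ _j : Fin K, C * ((Y : ℝ) / Real.log Y) := by
        apply sum_le_sum
        intro j _
        refine le_trans ?_ (h Y hY (s j) (hs j))
        apply sum_le_sum_of_subset_of_nonneg
        · intro q hq
          rw [mem_filter] at hq ⊢
          exact ⟨hq.1, hq.2 j⟩
        · intro i _ _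
          positivity
    _ = K * C * ((Y : ℝ) / Real.log Y) := by
        rw [sum_const, card_univ, Fintype.card_fin, nsmul_eq_mul]
        ring

end Pool.Agent.TH101.RG
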