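import Pool.Agent.TH101.RG.CovP
import Pool.Agent.TH101.RG.PrAvg

set_option autoImplicit false
set_option maxHeartbeats 4000000

/-! # Multipliers in residue classes which survive the medium primes -/

namespace Pool.Agent.TH101.RG

open Finset Filter Pool.Agent.H398R2.RK
open Pool.Agent.H378R2
open Pool.Agent.H378R2.PS (V1)
open Pool.Agent.H318R2.Cr (cz_bounds Pz mem_Pz one_sub_inv_pos V V_pos)

open scoped Classical

/-- `s k + b` has no medium prime factor outside `F` -/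
def Sv (y : ℕ) (F : Finset ℕ) (s b : ℤ) (k : ℕ) : Prop :=
  ∀ p : ℕ, p.Prime → V1 y < Real.log p → p ≤ y → p ∉ F → ¬ (p : ℤ) ∣ s * k + b

/-- `n / φ(n)` -/
noncomputable def Ra (n : ℕ) : ℝ := (n : ℝ) / (n.totient : ℝ)

theorem Ra_nonneg (n : ℕ) : 0 ≤ Ra n := by unfold Ra; positivity

theorem Ra_ge_one {n : ℕ} (h : n ≠ 0) : 1 ≤ Ra n := by
  unfold Ra
  have h3 : 0 < n := Nat.pos_of_ne_zero h
  have h4 : 0 < n.totient := Nat.totient_pos.2 h3
  rw [le_div_iff₀ (by exact_mod_cast h4), one_mul]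
  exact_mod_cast Nat.totient_le _

theorem roughClass (A : ℕ) : ∃ C : ℝ, 0 < C ∧ ∃ y₀ : ℝ, ∀ y : ℕ, y₀ ≤ (y : ℝ) → ∀ H : ℕ,
    (y : ℝ) + 1 ≤ 2 * H / Real.log y → ∀ F : Finset ℕ, (∀ q ∈ F, q.Prime) →
    ∑ q ∈ F.filter (fun q : ℕ => V1 y < Real.log q), (1 : ℝ) / q ≤ 8 / Real.log y →
    ∀ s : ℤ, s ≠ 0 → (s.natAbs : ℝ) ≤ (Real.log y) ^ 5 → (s.natAbs : ℝ) * H ≤ y * (Real.log y) ^ A →
    ∀ b : ℤ, (Real.log y) ^ 6 + (b.natAbs : ℝ) + 1 ≤ 2 * H / Real.log y →
    ∀ e : ℕ, 1 ≤ e → 2 * (e : ℝ) ≤ Real.log y → ∀ r : ℕ, r < e →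
    (((range (H + 1)).filter (fun k => k % e = r ∧ Sv y F s b k)).card : ℝ) ≤
      C * Ra e * Ra s.natAbs * (Real.log (Real.log y) / Real.log y) * (H / e) := by
  obtain ⟨Cr, hCr, y₀, hr⟩ := roughAP A
  obtain ⟨y₃, hv⟩ := eventually_atTop.1 v1facts6
  refine ⟨Cr + 16, by positivity, max y₀ y₃, ?_⟩
  intro y hy H hH F hF hFt s hs hs5 hsH b hb e he he2 r hre
  obtain ⟨hv1, hv2, hv3⟩ := hv y ((le_max_right _ _).trans hy)
  have hl0 : 0 < Real.log y := by linarith
  set L := Real.log y with hL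
  have hll : 1 ≤ Real.log L := by
    rw [Real.le_log_iff_exp_le hl0]
    have := Real.exp_one_lt_d9
    linarith
  set ε := Real.log L / L with hε
  have hε0 : 0 < ε := by positivity
  have hinv : 1 / L ≤ ε := div_le_div_of_nonneg_right hll hl0.le
  have he0 : (0 : ℝ) < e := by exact_mod_cast he
  set W := H / e with hW
  have hWle : (W : ℝ) ≤ H / e := Nat.cast_div_le
  have hWge : 2 * (H : ℝ) / L ≤ W + 1 := by
    have h1 : (H : ℝ) / e ≤ W + 1 := by
      rw [hW, div_le_iff₀ he0]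
      have h3 := Nat.lt_div_mul_add (a := H) (b := e) (by omega)
      have h4 : (H : ℝ) ≤ (H / e : ℕ) * e + e := by exact_mod_cast h3.le
      push_cast at h4
      linarith
    refine le_trans ?_ h1
    rw [div_le_div_iff₀ hl0 he0]
    have : (0 : ℝ) ≤ H := Nat.cast_nonneg H
    nlinarith
  have hyW : y ≤ W := by
    have : (y : ℝ) ≤ W := by linarith
    exact_mod_cast this
  have hyWr : (y : ℝ) ≤ W := by exact_mod_cast hyW
  have hs1 : (1 : ℝ) ≤ s.natAbs := by exact_mod_cast Int.natAbs_pos.2 hs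
  -- the data for `roughAP`
  have hse : s * e ≠ 0 := mul_ne_zero hs (by exact_mod_cast (by omega : e ≠ 0))
  have hsen : (s * e).natAbs = s.natAbs * e := by rw [Int.natAbs_mul, Int.natAbs_natCast]
  have hse6 : ((s * e).natAbs : ℝ) ≤ L ^ 6 / 2 := by
    rw [hsen]
    push_cast
    have : (e : ℝ) ≤ L / 2 := by linarith
    calc (s.natAbs : ℝ) * e ≤ L ^ 5 * (L / 2) := by gcongr
      _ = L ^ 6 / 2 := by ring
  have hL6 : 0 ≤ L ^ 6 := by positivity
  have ht : (s * r + b).natAbs ≤ W := by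
    have h1 : ((s * r + b).natAbs : ℝ) ≤ s.natAbs * r + b.natAbs := by
      have h2 : (s * r + b).natAbs ≤ s.natAbs * r + b.natAbs := by
        refine (Int.natAbs_add_le _ _).trans ?_
        rw [Int.natAbs_mul, Int.natAbs_natCast]
      exact_mod_cast h2
    have h2 : (s.natAbs : ℝ) * r ≤ L ^ 6 := by
      have h3 : (r : ℝ) ≤ e := by exact_mod_cast hre.le
      calc (s.natAbs : ℝ) * r ≤ s.natAbs * e := by gcongr
        _ = ((s * e).natAbs : ℝ) := by rw [hsen]; push_cast; ring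
        _ ≤ L ^ 6 := by linarith
    have h3 : ((s * r + b).natAbs : ℝ) ≤ W := by linarith
    exact_mod_cast h3
  have hsW : ((s * e).natAbs : ℝ) * W ≤ y * L ^ A := by
    refine le_trans ?_ hsH
    rw [hsen]
    push_cast
    calc (s.natAbs : ℝ) * e * W ≤ s.natAbs * e * (H / e) := by gcongr
      _ = s.natAbs * H := by field_simp
  have hc4 := hr y ((le_max_left _ _).trans hy) W hyW (s * e) (s * r + b) hse (by linarith) ht hsW
  rw [← hL, ← hε] at hc4
  -- the medium primes of `F`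
  set F' : Finset ℕ := (F.filter (fun q : ℕ => V1 y < Real.log q)).filter (fun q => q ≤ y) with hF'
  set D₁ : ℕ → Finset ℕ := fun p => (range (W + 1)).filter (fun v : ℕ => (p : ℤ) ∣ (s * e) * v + (s * r + b))
    with hD₁
  have hcard : ((range (H + 1)).filter (fun k => k % e = r ∧ Sv y F s b k)).card ≤
      ((range (W + 1)).filter (fun v : ℕ => MedFree y ((s * e) * v + (s * r + b)).natAbs) ∪
        F'.biUnion D₁).card := by
    apply card_le_card_of_injOn (fun k => k / e)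
    · intro k hk
      rw [mem_coe, mem_filter, mem_range] at hk
      obtain ⟨hkH, hkr, hkS⟩ := hk
      rw [mem_coe]
      have h1 : k / e ∈ range (W + 1) := by
        rw [mem_range]
        exact Nat.lt_succ_of_le (Nat.div_le_div_right (by omega))
      have h2 : (s * e) * ((k / e : ℕ) : ℤ) + (s * r + b) = s * k + b := by
        have h3 : (k : ℤ) = r + e * ((k / e : ℕ) : ℤ) := by
          have := Nat.mod_add_div k e
          rw [hkr] at this
          exact_mod_cast this.symm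
        calc (s * e) * ((k / e : ℕ) : ℤ) + (s * r + b) = s * (r + e * ((k / e : ℕ) : ℤ)) + b := by ring
          _ = s * k + b := by rw [← h3]
      rw [mem_union, mem_filter]
      by_cases hR : MedFree y (s * k + b).natAbs
      · left
        refine ⟨h1, ?_⟩
        simp only
        rw [h2]
        exact hR
      · right
        unfold MedFree at hR
        push Not at hR
        obtain ⟨p, hp, hp1, hp2, hp3⟩ := hR
        have hp3' : (p : ℤ) ∣ s * k + b := Int.natCast_dvd.2 hp3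
        have hpF : p ∈ F := by
          by_contra hcon
          exact hkS p hp hp1 hp2 hcon hp3'
        rw [mem_biUnion]
        refine ⟨p, ?_, ?_⟩
        · rw [hF', mem_filter, mem_filter]
          exact ⟨⟨hpF, hp1⟩, hp2⟩
        · rw [hD₁]
          simp only
          rw [mem_filter]
          refine ⟨h1, ?_⟩
          rw [h2]
          exact hp3'
    · intro k hk k' hk' h
      rw [mem_coe, mem_filter] at hk hk'
      simp only at h
      rw [← Nat.mod_add_div k e, ← Nat.mod_add_div k' e, hk.2.1, hk'.2.1, h]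
  have hbU : ((F'.biUnion D₁).card : ℝ) ≤ 16 * ε * W := by
    have h1 : ((F'.biUnion D₁).card : ℝ) ≤ ∑ q ∈ F', ((D₁ q).card : ℝ) := by
      exact_mod_cast card_biUnion_le
    have h2 : ∑ q ∈ F', ((D₁ q).card : ℝ) ≤ ∑ q ∈ F', 2 * W * (1 / (q : ℝ)) := by
      apply sum_le_sum
      intro q hq
      rw [hF', mem_filter, mem_filter] at hq
      apply card_dvdP W q (hF q hq.1.1) (hq.2.trans hyW)
      intro hd
      have h3 : q ≤ (s * e).natAbs := Nat.le_of_dvd (Int.natAbs_pos.2 hse) (Int.natCast_dvd.1 hd)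
      have h4 : (q : ℝ) ≤ ((s * e).natAbs : ℝ) := by exact_mod_cast h3
      have h5 : Real.exp (V1 y) < q :=
        (Real.lt_log_iff_exp_lt (by exact_mod_cast (hF q hq.1.1).pos)).1 hq.1.2
      linarith
    have h3 : ∑ q ∈ F', (1 / (q : ℝ)) ≤ 8 / L :=
      (sum_le_sum_of_subset_of_nonneg (filter_subset _ _) (fun i _ _ => by positivity)).trans hFt
    rw [← mul_sum] at h2
    have h4 : 8 / L ≤ 8 * ε := by
      rw [div_eq_mul_one_div]
      exact mul_le_mul_of_nonneg_left hinv (by norm_num)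
    calc _ ≤ 2 * (W : ℝ) * ∑ q ∈ F', (1 / (q : ℝ)) := h1.trans h2
      _ ≤ 2 * W * (8 * ε) := by
          apply mul_le_mul_of_nonneg_left _ (by positivity)
          linarith
      _ = _ := by ring
  have hRse : Ra (s * e).natAbs ≤ Ra e * Ra s.natAbs := by
    rw [hsen, mul_comm (Ra e)]
    unfold Ra
    exact ratio_mul_le' _ _ (Int.natAbs_ne_zero.2 hs) (by omega)
  have hR1 : 1 ≤ Ra e * Ra s.natAbs := by
    have h1 := Ra_ge_one (show e ≠ 0 by omega)
    have h2 := Ra_ge_one (Int.natAbs_ne_zero.2 hs)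
    nlinarith
  have h6 : (((range (H + 1)).filter (fun k => k % e = r ∧ Sv y F s b k)).card : ℝ) ≤
      Cr * Ra (s * e).natAbs * W * ε + 16 * ε * W := by
    have h7 := hcard.trans (card_union_le _ _)
    have h8 : (((range (H + 1)).filter (fun k => k % e = r ∧ Sv y F s b k)).card : ℝ) ≤
        (((range (W + 1)).filter (fun v : ℕ => MedFree y ((s * e) * v + (s * r + b)).natAbs)).card : ℝ) +
        ((F'.biUnion D₁).card : ℝ) := by exact_mod_cast h7
    unfold Ra
    linarith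
  refine h6.trans ?_
  have hW0 : (0 : ℝ) ≤ W := Nat.cast_nonneg W
  calc Cr * Ra (s * e).natAbs * W * ε + 16 * ε * W
      ≤ Cr * (Ra e * Ra s.natAbs) * W * ε + 16 * (Ra e * Ra s.natAbs) * ε * W := by
        have h9 : 16 * ε * W ≤ 16 * (Ra e * Ra s.natAbs) * ε * W := by
          have : 0 ≤ ε * W := by positivity
          nlinarith
        gcongr
    _ = (Cr + 16) * Ra e * Ra s.natAbs * ε * W := by ring
    _ ≤ (Cr + 16) * Ra e * Ra s.natAbs * ε * (H / e) := by
        have h10 := Ra_nonneg e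
        have h11 := Ra_nonneg s.natAbs
        gcongr

/-- the survivors with prescribed prime factors of a linear form -/
theorem classT (A : ℕ) : ∃ C : ℝ, 0 < C ∧ ∃ y₀ : ℝ, ∀ y : ℕ, y₀ ≤ (y : ℝ) → ∀ H : ℕ,
    (y : ℝ) + 1 ≤ 2 * H / Real.log y → ∀ F : Finset ℕ, (∀ q ∈ F, q.Prime) →
    ∑ q ∈ F.filter (fun q : ℕ => V1 y < Real.log q), (1 : ℝ) / q ≤ 8 / Real.log y →
    ∀ s : ℤ, s ≠ 0 → (s.natAbs : ℝ) ≤ (Real.log y) ^ 5 → (s.natAbs : ℝ) * H ≤ y * (Real.log y) ^ A →
    ∀ b : ℤ, (Real.log y) ^ 6 + (b.natAbs : ℝ) + 1 ≤ 2 * H / Real.log y →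
    ∀ T : Finset ℕ, (∀ p ∈ T, p.Prime) → 2 * ((∏ p ∈ T, p : ℕ) : ℝ) ≤ Real.log y →
    ∀ Δ β : ℤ, (∀ p ∈ T, ¬ ((p : ℤ) ∣ Δ ∧ (p : ℤ) ∣ β)) →
    (((range (H + 1)).filter (fun k : ℕ => Sv y F s b k ∧ ∀ p ∈ T, (p : ℤ) ∣ Δ * k + β)).card : ℝ) ≤
      C * Ra s.natAbs * (Real.log (Real.log y) / Real.log y) * H * ∏ p ∈ T, (2 / (p : ℝ)) := by
  obtain ⟨C, hC, y₀, h⟩ := roughClass A
  refine ⟨C, hC, max y₀ 3, ?_⟩
  intro y hy H hH F hF hFt s hs hs5 hsH b hb T hT hT2 Δ β hΔ
  have hy3 : (3 : ℝ) ≤ y := (le_max_right _ _).trans hy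
  have hl0 : 0 < Real.log y := Real.log_pos (by linarith)
  have hll0 : 0 ≤ Real.log (Real.log y) := by
    apply Real.log_nonneg
    rw [Real.le_log_iff_exp_le (by linarith)]
    have := Real.exp_one_lt_d9
    linarith
  obtain ⟨e, he⟩ : ∃ e, e = ∏ p ∈ T, p := ⟨_, rfl⟩
  have he0 : e ≠ 0 := by
    rw [he]
    exact prod_ne_zero_iff.2 fun p hp => (hT p hp).ne_zero
  have hRs := Ra_nonneg s.natAbs
  rcases ((range (H + 1)).filter (fun k : ℕ => Sv y F s b k ∧ ∀ p ∈ T, (p : ℤ) ∣ Δ * k + β)).eq_empty_or_nonempty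
    with hE | ⟨k₀, hk₀⟩
  · rw [hE, card_empty]
    push_cast
    positivity
  rw [mem_filter] at hk₀
  have hsub : (range (H + 1)).filter (fun k : ℕ => Sv y F s b k ∧ ∀ p ∈ T, (p : ℤ) ∣ Δ * k + β) ⊆
      (range (H + 1)).filter (fun k => k % e = k₀ % e ∧ Sv y F s b k) := by
    intro k hk
    rw [mem_filter] at hk ⊢
    refine ⟨hk.1, ?_, hk.2.1⟩
    have h1 : (e : ℤ) ∣ (k : ℤ) - k₀ := by
      rw [he, Nat.cast_prod]
      apply Finset.prod_dvd_of_coprime
      · intro i hi j hj hij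
        have := (Nat.coprime_primes (hT i hi) (hT j hj)).2 hij
        exact_mod_cast Nat.isCoprime_iff_coprime.2 this
      · intro p hp
        have h2 := hk.2.2 p hp
        have h3 := hk₀.2.2 p hp
        have h4 := dvd_sub h2 h3
        have h5 : Δ * (k : ℤ) + β - (Δ * k₀ + β) = Δ * (k - k₀) := by ring
        rw [h5] at h4
        have hpp : Prime (p : ℤ) := Nat.prime_iff_prime_int.1 (hT p hp)
        apply (hpp.dvd_or_dvd h4).resolve_left
        intro h6
        apply hΔ p hp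
        refine ⟨h6, ?_⟩
        have h7 := dvd_sub h2 (h6.mul_right (k : ℤ))
        rwa [add_sub_cancel_left] at h7
    have h2 : (k : ℤ) % e = k₀ % e :=
      Int.emod_eq_emod_iff_emod_sub_eq_zero.2 (Int.emod_eq_zero_of_dvd h1)
    exact_mod_cast h2
  have h1 : (((range (H + 1)).filter (fun k : ℕ => Sv y F s b k ∧ ∀ p ∈ T, (p : ℤ) ∣ Δ * k + β)).card : ℝ) ≤
      (((range (H + 1)).filter (fun k => k % e = k₀ % e ∧ Sv y F s b k)).card : ℝ) := by
    exact_mod_cast card_le_card hsub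
  have h2 := h y ((le_max_left _ _).trans hy) H hH F hF hFt s hs hs5 hsH b hb e (Nat.pos_of_ne_zero he0)
    (by rw [he]; exact hT2) (k₀ % e) (Nat.mod_lt _ (Nat.pos_of_ne_zero he0))
  have h3 := prod_totient_le T hT
  rw [← he] at h3
  have h4 : Ra e * (1 / (e : ℝ)) ≤ ∏ p ∈ T, (2 / (p : ℝ)) := by
    unfold Ra
    exact h3
  refine h1.trans (h2.trans ?_)
  have hH0 : (0 : ℝ) ≤ H := Nat.cast_nonneg H
  calc C * Ra e * Ra s.natAbs * (Real.log (Real.log y) / Real.log y) * (H / e)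
      = C * Ra s.natAbs * (Real.log (Real.log y) / Real.log y) * H * (Ra e * (1 / (e : ℝ))) := by ring
    _ ≤ C * Ra s.natAbs * (Real.log (Real.log y) / Real.log y) * H * ∏ p ∈ T, (2 / (p : ℝ)) := by
        gcongr

end Pool.Agent.TH101.RG
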