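import Pool.Agent.TH101.RG.LPA

set_option autoImplicit false
set_option maxHeartbeats 4000000

/-! # The total weight of the surviving multipliers -/

namespace Pool.Agent.TH101.RG

open Finset Filter Pool.Agent.H398R2.RK
open Pool.Agent.H378R2
open Pool.Agent.H378R2.PS (V1)
open Pool.Agent.H318R2.Cr (cz_bounds Pz mem_Pz one_sub_inv_pos V V_pos sum_inv_sq)

open scoped Classical

theorem sum_inv_sq_tail (a b : ℕ) (ha : 0 < a) (P : Finset ℕ) (hP : ∀ p ∈ P, a < p ∧ p ≤ b) :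
    ∑ p ∈ P, (1 / (p : ℝ) ^ 2) ≤ 1 / (a : ℝ) := by
  rcases le_or_gt a b with hab | hab
  · have h1 : ∑ p ∈ P, (1 / (p : ℝ) ^ 2) ≤ ∑ p ∈ Ioc a b, ((p : ℝ) ^ 2)⁻¹ := by
      simp only [one_div]
      apply sum_le_sum_of_subset_of_nonneg
      · intro p hp
        rw [mem_Ioc]
        exact hP p hp
      · intro i _ _
        positivity
    have h2 := sum_Ioc_inv_sq_le_sub (α := ℝ) ha.ne' hab
    have h3 : (0 : ℝ) ≤ (b : ℝ)⁻¹ := by positivity
    rw [one_div]
    linarith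
  · have hE : P = ∅ := by
      rw [eq_empty_iff_forall_notMem]
      intro p hp
      have := hP p hp
      omega
    rw [hE, sum_empty]
    positivity

theorem weightSum (K : ℕ) (hKpos : 1 ≤ K) (A : ℕ) (A2 : ℝ) (hA2 : 0 ≤ A2) : ∃ C : ℝ, 0 < C ∧ ∃ y₀ : ℝ, ∀ y : ℕ,
    y₀ ≤ (y : ℝ) → ∀ H : ℕ,
    (y : ℝ) + 1 ≤ 2 * H / Real.log y → ∀ F : Finset ℕ, (∀ q ∈ F, q.Prime) →
    ∑ q ∈ F.filter (fun q : ℕ => V1 y < Real.log q), (1 : ℝ) / q ≤ 8 / Real.log y →
    ∀ s : ℤ, s ≠ 0 → (s.natAbs : ℝ) ≤ (Real.log y) ^ 5 → (s.natAbs : ℝ) * H ≤ y * (Real.log y) ^ A →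
    ∀ b' : ℤ, (Real.log y) ^ 6 + (b'.natAbs : ℝ) + 1 ≤ 2 * H / Real.log y →
    ∀ b : ℕ, b ≠ 0 → ∀ Δ β : Fin K → ℤ,
    (∀ i, ∀ p : ℕ, p.Prime → ¬ p ∣ b → ¬ ((p : ℤ) ∣ Δ i ∧ (p : ℤ) ∣ β i)) →
    ∀ 𝒮 : Finset ℕ, (∀ k ∈ 𝒮, k ≤ H ∧ Sv y F s b' k) → ∀ N : ℕ → ℕ,
    (∀ k ∈ 𝒮, N k ≠ 0 ∧ Real.log (N k) ≤ A2 * Real.log y ∧
      ∀ p : ℕ, p.Prime → p ∣ N k → ¬ p ∣ b → ∃ i, (p : ℤ) ∣ Δ i * k + β i) →
    ∑ k ∈ 𝒮, Ra (N k) ≤ C * Ra b * Ra s.natAbs * (Real.log (Real.log y) / Real.log y) * H := by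
  obtain ⟨C₂, hC₂, y₀, hcl⟩ := classT A
  obtain ⟨c₁, c₂, hc₁, -, hcz⟩ := cz_bounds
  set cK : ℝ := (3 : ℝ) ^ K - 1 with hcK
  have hcK0 : 0 ≤ cK := by
    rw [hcK]
    have : (1 : ℝ) ≤ 3 ^ K := one_le_pow₀ (by norm_num)
    linarith
  set E₁ : ℝ := Real.exp (2 + 16 * A2) with hE₁
  set C₃ : ℝ := E₁ * (K * (C₂ * Real.exp (4 * cK))) with hC₃
  set C₄ : ℝ := 1 / c₁ * Real.exp (8 * A2) * (K * (2 * C₂)) * 6 with hC₄
  refine ⟨C₃ + C₄ + 1, by positivity, max y₀ (Real.exp (Real.exp 100)), ?_⟩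
  intro y hy H hH F hF hFt s hs hs5 hsH b' hb' b hb0 Δ β hΔ 𝒮 h𝒮 N hN
  have hyy := (le_max_left _ _).trans hy
  have hye : Real.exp (Real.exp 100) ≤ y := (le_max_right _ _).trans hy
  have hy0 : (0 : ℝ) < y := (Real.exp_pos _).trans_le hye
  set L := Real.log y with hL
  have hLe : Real.exp 100 ≤ L := by
    rw [hL, Real.le_log_iff_exp_le hy0]
    exact hye
  have hL0 : 0 < L := (Real.exp_pos _).trans_le hLe
  set τ := Real.log L with hτ
  have hτ100 : 100 ≤ τ := by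
    rw [hτ, Real.le_log_iff_exp_le hL0]
    exact hLe
  have hτ0 : 0 < τ := by linarith
  have hLeτ : L = Real.exp τ := by rw [hτ, Real.exp_log hL0]
  have hL100 : 100 ≤ L := by
    have := Real.add_one_le_exp τ
    linarith
  set ε := τ / L with hε
  have hε0 : 0 < ε := by positivity
  -- the cut-offs
  set y₁ := ⌊τ / 3⌋₊ with hy₁
  have hy₁3 : (y₁ : ℝ) ≤ τ / 3 := Nat.floor_le (by positivity)
  have hy₁6 : τ / 6 ≤ y₁ := by
    have := Nat.lt_floor_add_one (τ / 3)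
    rw [← hy₁] at this
    linarith
  have hy₁0 : 0 < y₁ := by
    have : (0 : ℝ) < y₁ := by linarith
    exact_mod_cast this
  set y₂ := ⌊L / 2⌋₊ with hy₂
  have hy₂2 : (y₂ : ℝ) ≤ L / 2 := Nat.floor_le (by positivity)
  have hy₂4 : L / 4 ≤ y₂ := by
    have := Nat.lt_floor_add_one (L / 2)
    rw [← hy₂] at this
    linarith
  have hy₂0 : (0 : ℝ) < y₂ := by linarith
  have h4y : 2 * (4 : ℝ) ^ y₁ ≤ L := by
    have h1 : Real.log 4 ≤ 1.4 := by
      have h2 : Real.log 4 = 2 * Real.log 2 := by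
        rw [show (4 : ℝ) = 2 ^ 2 by norm_num, Real.log_pow]
        norm_num
      have := Real.log_two_lt_d9
      rw [h2]
      linarith
    have h2 : (4 : ℝ) ^ y₁ ≤ Real.exp (τ / 2) := by
      rw [← Real.log_le_iff_le_exp (by positivity), Real.log_pow]
      have : Real.log 4 ≤ 1.4 := h1
      have h3 : (0 : ℝ) ≤ Real.log 4 := Real.log_nonneg (by norm_num)
      nlinarith
    have h3 : (2 : ℝ) ≤ Real.exp (τ / 2) := by
      have := Real.add_one_le_exp (τ / 2)
      linarith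
    calc 2 * (4 : ℝ) ^ y₁ ≤ Real.exp (τ / 2) * Real.exp (τ / 2) := by gcongr
      _ = L := by rw [← Real.exp_add, hLeτ]; congr 1; ring
  have hRs := Ra_nonneg s.natAbs
  have hRs1 := Ra_ge_one (Int.natAbs_ne_zero.2 hs)
  have hRb1 := Ra_ge_one hb0
  have hH0 : (0 : ℝ) ≤ H := Nat.cast_nonneg H
  -- the basic counting bound
  have hcnt : ∀ T : Finset ℕ, (∀ p ∈ T, p.Prime ∧ ¬ p ∣ b) → 2 * ((∏ p ∈ T, p : ℕ) : ℝ) ≤ L → ∀ i : Fin K,
      ((𝒮.filter (fun k : ℕ => ∀ p ∈ T, (p : ℤ) ∣ Δ i * k + β i)).card : ℝ) ≤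
      C₂ * Ra s.natAbs * ε * H * ∏ p ∈ T, (2 / (p : ℝ)) := by
    intro T hT hT2 i
    have h1 := hcl y hyy H hH F hF hFt s hs hs5 hsH b' hb' T (fun p hp => (hT p hp).1) hT2 (Δ i) (β i)
      (fun p hp => hΔ i p (hT p hp).1 (hT p hp).2)
    refine le_trans ?_ h1
    have h2 : 𝒮.filter (fun k : ℕ => ∀ p ∈ T, (p : ℤ) ∣ Δ i * k + β i) ⊆
        (range (H + 1)).filter (fun k : ℕ => Sv y F s b' k ∧ ∀ p ∈ T, (p : ℤ) ∣ Δ i * k + β i) := by
      intro k hk
      rw [mem_filter] at hk ⊢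
      obtain ⟨h3, h4⟩ := h𝒮 k hk.1
      exact ⟨mem_range.2 (by omega), h4, hk.2⟩
    exact_mod_cast card_le_card h2
  -- the three parts
  set Y : ℕ → ℝ := fun k => ∑ p ∈ (N k).primeFactors.filter (fun p => ¬ p ∣ b ∧ y₁ < p ∧ p ≤ y₂), 1 / (p : ℝ)
    with hY
  have hY0 : ∀ k, 0 ≤ Y k := fun k => sum_nonneg fun p _ => by positivity
  have hωN : ∀ k ∈ 𝒮, ((N k).primeFactors.card : ℝ) ≤ 2 * (A2 * L) := by
    intro k hk
    obtain ⟨h1, h2, -⟩ := hN k hk
    have h3 := Pool.Agent.H398R2.RK.card_primeFactors_le (N k) (Nat.pos_of_ne_zero h1)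
    linarith
  have hT : ∀ k ∈ 𝒮, ∑ p ∈ (N k).primeFactors.filter (fun p => ¬ p ∣ b ∧ y₂ < p), 1 / (p : ℝ) ≤ 8 * A2 := by
    intro k hk
    have h3 : ∑ p ∈ (N k).primeFactors.filter (fun p => ¬ p ∣ b ∧ y₂ < p), 1 / (p : ℝ) ≤
        ∑ p ∈ (N k).primeFactors.filter (fun p => ¬ p ∣ b ∧ y₂ < p), 1 / (y₂ : ℝ) := by
      apply sum_le_sum
      intro p hp
      rw [mem_filter] at hp
      apply one_div_le_one_div_of_le hy₂0
      exact_mod_cast hp.2.2.le
    refine h3.trans ?_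
    rw [sum_const, nsmul_eq_mul, mul_one_div, div_le_iff₀ hy₂0]
    have h4 : (((N k).primeFactors.filter (fun p => ¬ p ∣ b ∧ y₂ < p)).card : ℝ) ≤ 2 * (A2 * L) := by
      refine le_trans ?_ (hωN k hk)
      exact_mod_cast card_filter_le _ _
    nlinarith
  -- splitting the ratio
  have hsplit : ∀ k ∈ 𝒮, Ra (N k) ≤ Ra b *
      ∏ p ∈ (N k).primeFactors.filter (fun p => ¬ p ∣ b), (1 - 1 / (p : ℝ))⁻¹ := by
    intro k hk
    obtain ⟨h1, -, -⟩ := hN k hk
    unfold Ra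
    rw [← prod_inv_primeFactors (N k) h1, ← prod_inv_primeFactors b hb0]
    rw [← prod_filter_mul_prod_filter_not (N k).primeFactors (fun p => p ∣ b)]
    apply mul_le_mul_of_nonneg_right
    · apply prod_mono_real
      · intro p hp
        rw [mem_filter] at hp
        rw [Nat.mem_primeFactors]
        exact ⟨Nat.prime_of_mem_primeFactors hp.1, hp.2, hb0⟩
      · intro p hp
        exact inv_ge_one (Nat.prime_of_mem_primeFactors hp)
    · apply prod_nonneg
      intro p hp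
      exact inv_nonneg.2 (one_sub_inv_pos (Nat.prime_of_mem_primeFactors (mem_filter.1 hp).1)).le
  -- the good multipliers
  set Pr : Finset ℕ := (Icc 1 y₁).filter (fun p => p.Prime ∧ ¬ p ∣ b) with hPr
  have hPrm : ∀ p ∈ Pr, p.Prime ∧ ¬ p ∣ b ∧ p ≤ y₁ := by
    intro p hp
    rw [hPr, mem_filter, mem_Icc] at hp
    exact ⟨hp.2.1, hp.2.2, hp.1.2⟩
  have hgood : ∀ k ∈ 𝒮, Y k ≤ 1 → Ra (N k) ≤ Ra b * (E₁ * ∑ i : Fin K, ∑ T ∈ Pr.powerset,
      (if ∀ p ∈ T, (p : ℤ) ∣ Δ i * k + β i then ∏ p ∈ T, (cK / (p : ℝ)) else 0)) := by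
    intro k hk hYk
    obtain ⟨hN0, hNl, hNd⟩ := hN k hk
    refine (hsplit k hk).trans (mul_le_mul_of_nonneg_left ?_ (Ra_nonneg b))
    have h1 : ∏ p ∈ (N k).primeFactors.filter (fun p => ¬ p ∣ b), (1 - 1 / (p : ℝ))⁻¹ =
        (∏ p ∈ ((N k).primeFactors.filter (fun p => ¬ p ∣ b)).filter (fun p => p ≤ y₁), (1 - 1 / (p : ℝ))⁻¹) *
        ∏ p ∈ ((N k).primeFactors.filter (fun p => ¬ p ∣ b)).filter (fun p => ¬ p ≤ y₁), (1 - 1 / (p : ℝ))⁻¹ :=
      (prod_filter_mul_prod_filter_not _ _ _).symm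
    rw [h1, mul_comm]
    have h2 : ∑ p ∈ ((N k).primeFactors.filter (fun p => ¬ p ∣ b)).filter (fun p => ¬ p ≤ y₁), (1 : ℝ) / p ≤
        1 + 8 * A2 := by
      have hsub : ((N k).primeFactors.filter (fun p => ¬ p ∣ b)).filter (fun p => ¬ p ≤ y₁) ⊆
          (N k).primeFactors.filter (fun p => ¬ p ∣ b ∧ y₁ < p ∧ p ≤ y₂) ∪
          (N k).primeFactors.filter (fun p => ¬ p ∣ b ∧ y₂ < p) := by
        intro p hp
        rw [mem_filter, mem_filter, not_le] at hp
        rw [mem_union, mem_filter, mem_filter]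
        by_cases h : p ≤ y₂
        · exact Or.inl ⟨hp.1.1, hp.1.2, hp.2, h⟩
        · exact Or.inr ⟨hp.1.1, hp.1.2, not_le.1 h⟩
      have hui := sum_union_inter
        (s₁ := (N k).primeFactors.filter (fun p => ¬ p ∣ b ∧ y₁ < p ∧ p ≤ y₂))
        (s₂ := (N k).primeFactors.filter (fun p => ¬ p ∣ b ∧ y₂ < p)) (f := fun p : ℕ => 1 / (p : ℝ))
      have hui0 : 0 ≤ ∑ p ∈ (N k).primeFactors.filter (fun p => ¬ p ∣ b ∧ y₁ < p ∧ p ≤ y₂) ∩
        (N k).primeFactors.filter (fun p => ¬ p ∣ b ∧ y₂ < p), 1 / (p : ℝ) :=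
          sum_nonneg fun i _ => by positivity
      have h3 := sum_le_sum_of_subset_of_nonneg hsub (f := fun p : ℕ => 1 / (p : ℝ))
        (fun i _ _ => by positivity)
      have h4 := hT k hk
      have h5 : ∑ p ∈ (N k).primeFactors.filter (fun p => ¬ p ∣ b ∧ y₁ < p ∧ p ≤ y₂), 1 / (p : ℝ) ≤ 1 := hYk
      linarith
    have h3 := inv_prod_le (((N k).primeFactors.filter (fun p => ¬ p ∣ b)).filter (fun p => ¬ p ≤ y₁))
      (fun q hq => Nat.prime_of_mem_primeFactors (mem_filter.1 (mem_filter.1 hq).1).1) _ h2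
    have h3' : ∏ p ∈ ((N k).primeFactors.filter (fun p => ¬ p ∣ b)).filter (fun p => ¬ p ≤ y₁),
        (1 - 1 / (p : ℝ))⁻¹ ≤ E₁ := by
      refine h3.trans (le_of_eq ?_)
      rw [hE₁]
      congr 1
      ring
    have h4 : ∏ p ∈ ((N k).primeFactors.filter (fun p => ¬ p ∣ b)).filter (fun p => p ≤ y₁),
        (1 - 1 / (p : ℝ))⁻¹ ≤ ∑ i : Fin K, ∑ T ∈ Pr.powerset,
        (if ∀ p ∈ T, (p : ℤ) ∣ Δ i * k + β i then ∏ p ∈ T, (cK / (p : ℝ)) else 0) := by
      have hS : ((N k).primeFactors.filter (fun p => ¬ p ∣ b)).filter (fun p => p ≤ y₁) ⊆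
          (univ : Finset (Fin K)).biUnion (fun i => Pr.filter (fun p : ℕ => (p : ℤ) ∣ Δ i * k + β i)) := by
        intro p hp
        rw [mem_filter, mem_filter] at hp
        have hpp := Nat.prime_of_mem_primeFactors hp.1.1
        obtain ⟨i, hi⟩ := hNd p hpp (Nat.dvd_of_mem_primeFactors hp.1.1) hp.1.2
        rw [mem_biUnion]
        refine ⟨i, mem_univ i, ?_⟩
        rw [mem_filter, hPr, mem_filter, mem_Icc]
        exact ⟨⟨⟨hpp.one_le, hp.2⟩, hpp, hp.1.2⟩, hi⟩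
      have h5 : ∏ p ∈ ((N k).primeFactors.filter (fun p => ¬ p ∣ b)).filter (fun p => p ≤ y₁),
          (1 - 1 / (p : ℝ))⁻¹ ≤ ∏ i : Fin K, ∏ p ∈ Pr.filter (fun p : ℕ => (p : ℤ) ∣ Δ i * k + β i),
            (1 - 1 / (p : ℝ))⁻¹ := by
        refine (prod_mono_real hS _ ?_).trans (prod_biUnion_le' _ _ _ ?_)
        · intro p hp
          rw [mem_biUnion] at hp
          obtain ⟨i, -, hi⟩ := hp
          exact inv_ge_one (hPrm p (mem_filter.1 hi).1).1
        · intro i _ p hp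
          exact inv_ge_one (hPrm p (mem_filter.1 hp).1).1
      have hne : Nonempty (Fin K) := ⟨⟨0, hKpos⟩⟩
      set R : Fin K → ℝ := fun i => ∏ p ∈ Pr.filter (fun p : ℕ => (p : ℤ) ∣ Δ i * k + β i),
          (1 - 1 / (p : ℝ))⁻¹ with hR
      have hR0 : ∀ i, 0 ≤ R i := by
        intro i
        apply prod_nonneg
        intro p hp
        exact inv_nonneg.2 (one_sub_inv_pos (hPrm p (mem_filter.1 hp).1).1).le
      obtain ⟨j₀, -, hj₀⟩ := exists_max_image (univ : Finset (Fin K)) R univ_nonempty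
      have h6 : ∏ i : Fin K, R i ≤ ∑ i : Fin K, R i ^ K := by
        calc ∏ i : Fin K, R i ≤ ∏ _i : Fin K, R j₀ :=
              Finset.prod_le_prod (fun i _ => hR0 i) (fun i _ => hj₀ i (mem_univ i))
          _ = R j₀ ^ K := by rw [prod_const, card_univ, Fintype.card_fin]
          _ ≤ ∑ i : Fin K, R i ^ K :=
              single_le_sum (f := fun i => R i ^ K) (fun i _ => pow_nonneg (hR0 i) K) (mem_univ j₀)
      refine h5.trans (h6.trans (sum_le_sum fun i _ => ?_))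
      have h7 : R i ^ K ≤ ∏ p ∈ Pr.filter (fun p : ℕ => (p : ℤ) ∣ Δ i * k + β i), (1 + cK / (p : ℝ)) := by
        simp only [hR]
        rw [← prod_pow]
        apply Finset.prod_le_prod
        · intro p hp
          have := (one_sub_inv_pos (hPrm p (mem_filter.1 hp).1).1).le
          positivity
        · intro p hp
          have hp2 : (2 : ℝ) ≤ p := by exact_mod_cast (hPrm p (mem_filter.1 hp).1).1.two_le
          have h7 := inv_pow_le K (1 / (p : ℝ)) (by positivity)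
            (one_div_le_one_div_of_le (by norm_num) hp2)
          rw [mul_one_div] at h7
          exact h7
      refine h7.trans (le_of_eq ?_)
      rw [Finset.prod_one_add, ← sum_filter]
      apply sum_congr _ fun _ _ => rfl
      ext T
      rw [mem_powerset, mem_filter, mem_powerset]
      constructor
      · intro h
        exact ⟨fun p hp => (mem_filter.1 (h hp)).1, fun p hp => (mem_filter.1 (h hp)).2⟩
      · rintro ⟨e1, e2⟩ p hp
        rw [mem_filter]
        exact ⟨e1 hp, e2 p hp⟩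
    apply mul_le_mul h3' h4 _ (Real.exp_pos _).le
    apply prod_nonneg
    intro p hp
    exact inv_nonneg.2 (one_sub_inv_pos (Nat.prime_of_mem_primeFactors
      (mem_filter.1 (mem_filter.1 hp).1).1)).le
  -- a pointwise bound
  have hpt : ∀ k ∈ 𝒮, Ra (N k) ≤ τ / c₁ * Real.exp (8 * A2) := by
    intro k hk
    obtain ⟨hN0, hNl, -⟩ := hN k hk
    have hfl : 2 ≤ ⌊L⌋₊ := Nat.le_floor (by push_cast; linarith)
    have hfL : (⌊L⌋₊ : ℝ) ≤ L := Nat.floor_le hL0.le
    have hfL2 : L / 2 ≤ ⌊L⌋₊ := by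
      have := Nat.lt_floor_add_one L
      linarith
    have hfl0 : (0 : ℝ) < ⌊L⌋₊ := by linarith
    unfold Ra
    refine (ratio_le_exp (N k) hN0 ⌊L⌋₊).trans ?_
    have h1 := (hcz ⌊L⌋₊ hfl).1
    have h2 : (V ⌊L⌋₊)⁻¹ ≤ τ / c₁ := by
      have h3 : Real.log (⌊L⌋₊ : ℝ) ≤ τ := Real.log_le_log hfl0 hfL
      have h4 := V_pos ⌊L⌋₊
      rw [inv_le_comm₀ h4 (by positivity), inv_div, div_le_iff₀ hτ0]
      nlinarith
    have h3 : ∑ p ∈ (N k).primeFactors.filter (fun p => ⌊L⌋₊ < p), 1 / (p : ℝ) ≤ 4 * A2 := by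
      have h3 : ∑ p ∈ (N k).primeFactors.filter (fun p => ⌊L⌋₊ < p), 1 / (p : ℝ) ≤
          ∑ p ∈ (N k).primeFactors.filter (fun p => ⌊L⌋₊ < p), 1 / (⌊L⌋₊ : ℝ) := by
        apply sum_le_sum
        intro p hp
        rw [mem_filter] at hp
        apply one_div_le_one_div_of_le hfl0
        exact_mod_cast hp.2.le
      refine h3.trans ?_
      rw [sum_const, nsmul_eq_mul, mul_one_div, div_le_iff₀ hfl0]
      have h4 : (((N k).primeFactors.filter (fun p => ⌊L⌋₊ < p)).card : ℝ) ≤ 2 * (A2 * L) := by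
        refine le_trans ?_ (hωN k hk)
        exact_mod_cast card_filter_le _ _
      nlinarith
    apply mul_le_mul h2 _ (Real.exp_pos _).le (by positivity)
    apply Real.exp_le_exp.2
    linarith
  -- Markov
  have hMk : ((𝒮.filter (fun k => ¬ Y k ≤ 1)).card : ℝ) ≤
      K * (C₂ * Ra s.natAbs * ε * H * 2) * (1 / y₁) := by
    set Pm : Finset ℕ := (Ioc y₁ y₂).filter (fun p => p.Prime ∧ ¬ p ∣ b) with hPm
    have h1 : ((𝒮.filter (fun k => ¬ Y k ≤ 1)).card : ℝ) ≤ ∑ k ∈ 𝒮, Y k := by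
      calc ((𝒮.filter (fun k => ¬ Y k ≤ 1)).card : ℝ)
          = ∑ k ∈ 𝒮.filter (fun k => ¬ Y k ≤ 1), (1 : ℝ) := by simp
        _ ≤ ∑ k ∈ 𝒮.filter (fun k => ¬ Y k ≤ 1), Y k := by
            apply sum_le_sum
            intro k hk
            rw [mem_filter] at hk
            linarith [not_le.1 hk.2]
        _ ≤ ∑ k ∈ 𝒮, Y k :=
            sum_le_sum_of_subset_of_nonneg (filter_subset _ _) fun i _ _ => hY0 i
    refine h1.trans ?_
    have h2 : ∀ k ∈ 𝒮, Y k ≤ ∑ p ∈ Pm, ∑ i : Fin K,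
        (if (p : ℤ) ∣ Δ i * k + β i then 1 / (p : ℝ) else 0) := by
      intro k hk
      obtain ⟨hN0, hNl, hNd⟩ := hN k hk
      rw [hY]
      simp only
      calc ∑ p ∈ (N k).primeFactors.filter (fun p => ¬ p ∣ b ∧ y₁ < p ∧ p ≤ y₂), 1 / (p : ℝ)
          ≤ ∑ p ∈ (N k).primeFactors.filter (fun p => ¬ p ∣ b ∧ y₁ < p ∧ p ≤ y₂), ∑ i : Fin K,
            (if (p : ℤ) ∣ Δ i * k + β i then 1 / (p : ℝ) else 0) := by
            apply sum_le_sum
            intro p hp
            rw [mem_filter] at hp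
            obtain ⟨i, hi⟩ := hNd p (Nat.prime_of_mem_primeFactors hp.1)
              (Nat.dvd_of_mem_primeFactors hp.1) hp.2.1
            have h3 := single_le_sum (f := fun i : Fin K =>
              (if (p : ℤ) ∣ Δ i * k + β i then 1 / (p : ℝ) else 0)) (fun j _ => by
                split_ifs
                · positivity
                · exact le_rfl) (mem_univ i)
            rw [if_pos hi] at h3
            exact h3
        _ ≤ ∑ p ∈ Pm, ∑ i : Fin K, (if (p : ℤ) ∣ Δ i * k + β i then 1 / (p : ℝ) else 0) := by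
            apply sum_le_sum_of_subset_of_nonneg
            · intro p hp
              rw [mem_filter] at hp
              rw [hPm, mem_filter, mem_Ioc]
              exact ⟨hp.2.2, Nat.prime_of_mem_primeFactors hp.1, hp.2.1⟩
            · intro p _ _
              apply sum_nonneg
              intro i _
              split_ifs
              · positivity
              · exact le_rfl
    refine (sum_le_sum h2).trans ?_
    rw [sum_comm]
    have h3 : ∀ p ∈ Pm, ∑ k ∈ 𝒮, ∑ i : Fin K, (if (p : ℤ) ∣ Δ i * k + β i then 1 / (p : ℝ) else 0) ≤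
        K * (C₂ * Ra s.natAbs * ε * H * 2) * (1 / (p : ℝ) ^ 2) := by
      intro p hp
      rw [hPm, mem_filter, mem_Ioc] at hp
      rw [sum_comm]
      have hp0 : (0 : ℝ) < p := by exact_mod_cast hp.2.1.pos
      calc ∑ i : Fin K, ∑ k ∈ 𝒮, (if (p : ℤ) ∣ Δ i * k + β i then 1 / (p : ℝ) else 0)
          ≤ ∑ _i : Fin K, (C₂ * Ra s.natAbs * ε * H * 2) * (1 / (p : ℝ) ^ 2) := by
            apply sum_le_sum
            intro i _
            rw [← sum_filter, sum_const, nsmul_eq_mul]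
            have h4 := hcnt {p} (fun q hq => by rw [mem_singleton] at hq; rw [hq]; exact hp.2) (by
              rw [prod_singleton]
              have : (p : ℝ) ≤ y₂ := by exact_mod_cast hp.1.2
              linarith) i
            rw [prod_singleton] at h4
            simp only [mem_singleton, forall_eq] at h4
            calc ((𝒮.filter (fun k : ℕ => (p : ℤ) ∣ Δ i * k + β i)).card : ℝ) * (1 / (p : ℝ))
                ≤ (C₂ * Ra s.natAbs * ε * H * (2 / (p : ℝ))) * (1 / (p : ℝ)) := by gcongr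
              _ = (C₂ * Ra s.natAbs * ε * H * 2) * (1 / (p : ℝ) ^ 2) := by
                  field_simp
        _ = K * (C₂ * Ra s.natAbs * ε * H * 2) * (1 / (p : ℝ) ^ 2) := by
            rw [sum_const, card_univ, Fintype.card_fin, nsmul_eq_mul]
            ring
    refine (sum_le_sum h3).trans ?_
    rw [← mul_sum]
    apply mul_le_mul_of_nonneg_left _ (by positivity)
    apply sum_inv_sq_tail y₁ y₂ hy₁0
    intro p hp
    rw [hPm, mem_filter, mem_Ioc] at hp
    exact hp.1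
  -- the two sums
  have hA : ∑ k ∈ 𝒮.filter (fun k => Y k ≤ 1), Ra (N k) ≤ C₃ * Ra b * Ra s.natAbs * ε * H := by
    have h1 : ∑ k ∈ 𝒮.filter (fun k => Y k ≤ 1), Ra (N k) ≤
        ∑ k ∈ 𝒮, Ra b * (E₁ * ∑ i : Fin K, ∑ T ∈ Pr.powerset,
          (if ∀ p ∈ T, (p : ℤ) ∣ Δ i * k + β i then ∏ p ∈ T, (cK / (p : ℝ)) else 0)) := by
      refine (sum_le_sum fun k hk => hgood k (mem_filter.1 hk).1 (mem_filter.1 hk).2).trans ?_
      apply sum_le_sum_of_subset_of_nonneg (filter_subset _ _)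
      intro k _ _
      apply mul_nonneg (Ra_nonneg b)
      apply mul_nonneg (Real.exp_pos _).le
      apply sum_nonneg
      intro i _
      apply sum_nonneg
      intro T _
      split_ifs
      · exact prod_nonneg fun p _ => by positivity
      · exact le_rfl
    refine h1.trans ?_
    rw [← mul_sum, ← mul_sum, sum_comm]
    have h2 : ∀ i : Fin K, ∑ k ∈ 𝒮, ∑ T ∈ Pr.powerset,
        (if ∀ p ∈ T, (p : ℤ) ∣ Δ i * k + β i then ∏ p ∈ T, (cK / (p : ℝ)) else 0) ≤
        C₂ * Ra s.natAbs * ε * H * Real.exp (4 * cK) := by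
      intro i
      rw [sum_comm]
      calc ∑ T ∈ Pr.powerset, ∑ k ∈ 𝒮,
            (if ∀ p ∈ T, (p : ℤ) ∣ Δ i * k + β i then ∏ p ∈ T, (cK / (p : ℝ)) else 0)
          ≤ ∑ T ∈ Pr.powerset, C₂ * Ra s.natAbs * ε * H * ∏ p ∈ T, (2 * cK * (1 / (p : ℝ) ^ 2)) := by
            apply sum_le_sum
            intro T hT'
            rw [mem_powerset] at hT'
            rw [← sum_filter, sum_const, nsmul_eq_mul]
            have h4 := hcnt T (fun p hp => ⟨(hPrm p (hT' hp)).1, (hPrm p (hT' hp)).2.1⟩) (by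
              have h5 : (∏ p ∈ T, p) ≤ 4 ^ y₁ := by
                have h1 : (∏ p ∈ T, p) ∣ primorial y₁ := by
                  unfold primorial
                  apply prod_dvd_prod_of_subset
                  intro p hp
                  rw [mem_filter, mem_range]
                  have := hPrm p (hT' hp)
                  exact ⟨by omega, this.1⟩
                exact (Nat.le_of_dvd (primorial_pos y₁) h1).trans (primorial_le_four_pow y₁)
              have h6 : ((∏ p ∈ T, p : ℕ) : ℝ) ≤ 4 ^ y₁ := by exact_mod_cast h5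
              linarith) i
            have h5 : ∏ p ∈ T, (2 * cK * (1 / (p : ℝ) ^ 2)) =
                (∏ p ∈ T, (2 / (p : ℝ))) * ∏ p ∈ T, (cK / (p : ℝ)) := by
              rw [← prod_mul_distrib]
              apply prod_congr rfl
              intro p _
              field_simp
            rw [h5, ← mul_assoc]
            exact mul_le_mul_of_nonneg_right h4 (prod_nonneg fun p _ => by positivity)
        _ = C₂ * Ra s.natAbs * ε * H * ∏ p ∈ Pr, (1 + 2 * cK * (1 / (p : ℝ) ^ 2)) := by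
            rw [← mul_sum, Finset.prod_one_add]
        _ ≤ C₂ * Ra s.natAbs * ε * H * Real.exp (4 * cK) := by
            apply mul_le_mul_of_nonneg_left _ (by positivity)
            calc ∏ p ∈ Pr, (1 + 2 * cK * (1 / (p : ℝ) ^ 2)) ≤
                  ∏ p ∈ Pr, Real.exp (2 * cK * (1 / (p : ℝ) ^ 2)) := by
                  apply Finset.prod_le_prod
                  · intro p _
                    positivity
                  · intro p _
                    have := Real.add_one_le_exp (2 * cK * (1 / (p : ℝ) ^ 2))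
                    linarith
              _ = Real.exp (∑ p ∈ Pr, 2 * cK * (1 / (p : ℝ) ^ 2)) := by rw [Real.exp_sum]
              _ ≤ Real.exp (4 * cK) := by
                  apply Real.exp_le_exp.2
                  rw [← mul_sum]
                  have := sum_inv_sq Pr
                  nlinarith
    calc Ra b * (E₁ * ∑ i : Fin K, ∑ k ∈ 𝒮, ∑ T ∈ Pr.powerset,
          (if ∀ p ∈ T, (p : ℤ) ∣ Δ i * k + β i then ∏ p ∈ T, (cK / (p : ℝ)) else 0))
        ≤ Ra b * (E₁ * ∑ _i : Fin K, C₂ * Ra s.natAbs * ε * H * Real.exp (4 * cK)) := by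
          apply mul_le_mul_of_nonneg_left _ (Ra_nonneg b)
          apply mul_le_mul_of_nonneg_left _ (Real.exp_pos _).le
          exact sum_le_sum fun i _ => h2 i
      _ = C₃ * Ra b * Ra s.natAbs * ε * H := by
          rw [sum_const, card_univ, Fintype.card_fin, nsmul_eq_mul, hC₃]
          ring
  have hB : ∑ k ∈ 𝒮.filter (fun k => ¬ Y k ≤ 1), Ra (N k) ≤ C₄ * Ra b * Ra s.natAbs * ε * H := by
    have hcc : 0 ≤ τ / c₁ * Real.exp (8 * A2) := by positivity
    calc ∑ k ∈ 𝒮.filter (fun k => ¬ Y k ≤ 1), Ra (N k)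
        ≤ ∑ _k ∈ 𝒮.filter (fun k => ¬ Y k ≤ 1), (τ / c₁ * Real.exp (8 * A2)) :=
          sum_le_sum fun k hk => hpt k (mem_filter.1 hk).1
      _ = ((𝒮.filter (fun k => ¬ Y k ≤ 1)).card : ℝ) * (τ / c₁ * Real.exp (8 * A2)) := by
          rw [sum_const, nsmul_eq_mul]
      _ ≤ (K * (C₂ * Ra s.natAbs * ε * H * 2) * (1 / y₁)) * (τ / c₁ * Real.exp (8 * A2)) :=
          mul_le_mul_of_nonneg_right hMk hcc
      _ = (1 / c₁ * Real.exp (8 * A2) * (K * (2 * C₂)) * (τ / y₁)) * Ra s.natAbs * ε * H := by ring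
      _ ≤ (1 / c₁ * Real.exp (8 * A2) * (K * (2 * C₂)) * 6) * Ra s.natAbs * ε * H := by
          have h1 : τ / y₁ ≤ 6 := by
            rw [div_le_iff₀ (by exact_mod_cast hy₁0)]
            linarith
          gcongr
      _ = C₄ * 1 * Ra s.natAbs * ε * H := by rw [hC₄]; ring
      _ ≤ C₄ * Ra b * Ra s.natAbs * ε * H := by
          have : 0 ≤ C₄ := by positivity
          gcongr
  rw [← sum_filter_add_sum_filter_not 𝒮 (fun k => Y k ≤ 1)]
  have hlast : 0 ≤ 1 * Ra b * Ra s.natAbs * ε * H := by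
    have := Ra_nonneg b
    positivity
  have hfin : (C₃ + C₄ + 1) * Ra b * Ra s.natAbs * ε * H =
      C₃ * Ra b * Ra s.natAbs * ε * H + C₄ * Ra b * Ra s.natAbs * ε * H +
      1 * Ra b * Ra s.natAbs * ε * H := by ring
  rw [hfin]
  linarith

end Pool.Agent.TH101.RG
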