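import Pool.Agent.Helper112.Arith

set_option autoImplicit false
set_option maxHeartbeats 4000000

/-! # The mean value of `n / φ(n)` -/

namespace Pool.Agent.TH101.RG

open Finset

theorem sum_ratio_lin : ∃ C : ℝ, 0 < C ∧ ∀ Y : ℕ,
    ∑ r ∈ Icc 1 Y, ((r : ℝ) / (Nat.totient r : ℝ)) ≤ C * Y := by
  obtain ⟨C, hC0, hC⟩ := Pool.Agent.Helper112.divisor_bound (1/6) (by norm_num)
  have hsum : Summable (fun e : ℕ => C ^ 3 * (1 / (e:ℝ) ^ (3/2 : ℝ))) :=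
    (Real.summable_one_div_nat_rpow.mpr (by norm_num)).mul_left _
  set D := ∑' e : ℕ, C ^ 3 * (1 / (e:ℝ) ^ (3/2 : ℝ)) with hD
  have hDnn : 0 ≤ D := tsum_nonneg (fun e => by positivity)
  refine ⟨D + 1, by linarith, fun Y => ?_⟩
  have h1 : ∀ r ∈ Icc 1 Y, ((r : ℝ) / (Nat.totient r : ℝ)) ≤
      ∑ e ∈ Icc 1 Y, (if e ∣ r then ((e.divisors.card : ℝ) ^ 3 / e) else 0) := by
    intro r hr
    rw [mem_Icc] at hr
    have hr0 : r ≠ 0 := by omega
    have h2 := Pool.Agent.Helper112.ratio_sq_le r hr0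
    have h3 : ∑ e ∈ Icc 1 Y, (if e ∣ r then ((e.divisors.card : ℝ) ^ 3 / e) else 0)
        = ∑ e ∈ r.divisors, ((e.divisors.card : ℝ) ^ 3 / e) := by
      rw [← Finset.sum_filter]
      apply Finset.sum_congr _ (fun _ _ => rfl)
      ext e
      rw [mem_filter, mem_Icc, Nat.mem_divisors]
      constructor
      · rintro ⟨_, h⟩; exact ⟨h, hr0⟩
      · rintro ⟨h, _⟩
        have := Nat.le_of_dvd (by omega) h
        have := Nat.pos_of_dvd_of_pos h (by omega)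
        exact ⟨⟨by omega, by omega⟩, h⟩
    rw [h3]
    refine le_trans ?_ h2
    have h4 : (1 : ℝ) ≤ (r : ℝ) / (Nat.totient r : ℝ) := by
      have h5 : (0 : ℝ) < Nat.totient r := by exact_mod_cast Nat.totient_pos.2 hr.1
      rw [le_div_iff₀ h5, one_mul]
      exact_mod_cast Nat.totient_le r
    nlinarith
  refine (Finset.sum_le_sum h1).trans ?_
  rw [Finset.sum_comm]
  have h2 : ∀ e ∈ Icc 1 Y, ∑ r ∈ Icc 1 Y, (if e ∣ r then ((e.divisors.card : ℝ) ^ 3 / e) else 0)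
      ≤ (C ^ 3 * (1 / (e:ℝ) ^ (3/2 : ℝ))) * Y := by
    intro e he
    rw [mem_Icc] at he
    have he0 : (0:ℝ) < e := by exact_mod_cast (by omega : 0 < e)
    rw [← Finset.sum_filter, sum_const, nsmul_eq_mul]
    have h3 : (((Icc 1 Y).filter (fun r => e ∣ r)).card : ℝ) ≤ (Y : ℝ) / e := by
      have h4 : (Icc 1 Y).filter (fun r => e ∣ r) = (Ioc 0 Y).filter (fun r => e ∣ r) := by
        ext r
        simp only [mem_filter, mem_Icc, mem_Ioc]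
        constructor <;> (rintro ⟨⟨_, _⟩, h⟩; exact ⟨⟨by omega, by omega⟩, h⟩)
      rw [h4, Nat.Ioc_filter_dvd_card_eq_div]
      exact Nat.cast_div_le
    have h5 : (e.divisors.card : ℝ) ^ 3 ≤ C ^ 3 * (e:ℝ) ^ (1/2 : ℝ) := by
      have h6 := pow_le_pow_left₀ (by positivity) (hC e he.1) 3
      rw [mul_pow, ← Real.rpow_natCast ((e:ℝ) ^ (1/6:ℝ)) 3, ← Real.rpow_mul he0.le] at h6
      norm_num at h6 ⊢
      exact h6
    have h6 : (e.divisors.card : ℝ) ^ 3 / (e * e) ≤ C ^ 3 * (1 / (e:ℝ) ^ (3/2 : ℝ)) := by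
      have h7 : (e:ℝ) * e = (e:ℝ) ^ (1/2:ℝ) * (e:ℝ) ^ (3/2:ℝ) := by
        rw [← Real.rpow_add he0, ← pow_two, ← Real.rpow_natCast]; norm_num
      rw [h7, div_le_iff₀ (by positivity)]
      have h8 : C ^ 3 * (1 / (e:ℝ) ^ (3/2 : ℝ)) * ((e:ℝ) ^ (1/2:ℝ) * (e:ℝ) ^ (3/2:ℝ)) = C ^ 3 * (e:ℝ) ^ (1/2:ℝ) := by
        field_simp
      rw [h8]; exact h5
    calc (((Icc 1 Y).filter (fun r => e ∣ r)).card : ℝ) * ((e.divisors.card : ℝ) ^ 3 / e) ≤
          ((Y : ℝ) / e) * ((e.divisors.card : ℝ) ^ 3 / e) := mul_le_mul_of_nonneg_right h3 (by positivity)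
      _ = ((e.divisors.card : ℝ) ^ 3 / (e * e)) * Y := by field_simp
      _ ≤ _ := mul_le_mul_of_nonneg_right h6 (Nat.cast_nonneg Y)
  refine (Finset.sum_le_sum h2).trans ?_
  rw [← Finset.sum_mul]
  have h3 : ∑ e ∈ Icc 1 Y, C ^ 3 * (1 / (e:ℝ) ^ (3/2 : ℝ)) ≤ D :=
    hsum.sum_le_tsum _ (fun e _ => by positivity)
  apply mul_le_mul_of_nonneg_right _ (Nat.cast_nonneg Y)
  linarith

end Pool.Agent.TH101.RG
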