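import Pool.Agent.TH101.RG.LPB
import Pool.Agent.TH101.RG.FamT
import Pool.Agent.TH101.RG.Ratio

set_option autoImplicit false
set_option maxHeartbeats 4000000

/-! # The covering of the forms `σ k (n + t_j) + b` -/

namespace Pool.Agent.TH101.RG

open Finset Filter Pool.Agent.H398R2.RK
open Pool.Agent.H378R2
open Pool.Agent.H378R2.PS (V1)
open Pool.Agent.H318R2.Cr (cz_bounds Pz one_sub_inv_pos)
open Pool.Agent.H312R2.RG (cov_ev ev_ff)
open Pool.Agent.H256R2.SC (ff)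

open scoped Classical

/-- the forms `σ k (n + t_j) + b` -/
noncomputable def fam {K : ℕ} (t : Fin K → ℕ) (B : Finset ℤ) (H : ℕ) : Finset (ℤ × ℤ) :=
  (((univ : Finset (Fin K)) ×ˢ (B ×ˢ (({1, -1} : Finset ℤ) ×ˢ Icc 1 H))).image
    (fun q : Fin K × ℤ × ℤ × ℕ => (q.2.2.1 * (q.2.2.2 : ℤ), q.2.2.1 * (q.2.2.2 : ℤ) * t q.1 + q.2.1))).filter
    (fun z => ∀ i, z.2 ≠ z.1 * t i)

theorem mem_fam {K : ℕ} {t : Fin K → ℕ} {B : Finset ℤ} {H : ℕ} {z : ℤ × ℤ} : z ∈ fam t B H ↔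
    (∃ (j : Fin K) (b : ℤ) (σ : ℤ) (k : ℕ), b ∈ B ∧ (σ = 1 ∨ σ = -1) ∧ 1 ≤ k ∧ k ≤ H ∧
      z = (σ * (k : ℤ), σ * (k : ℤ) * t j + b)) ∧ ∀ i, z.2 ≠ z.1 * t i := by
  unfold fam
  rw [mem_filter, mem_image]
  constructor
  · rintro ⟨⟨⟨j, b, σ, k⟩, h1, h2⟩, h3⟩
    rw [mem_product, mem_product, mem_product, mem_Icc] at h1
    obtain ⟨-, hb, hσ, hk1, hk2⟩ := h1
    refine ⟨⟨j, b, σ, k, hb, ?_, hk1, hk2, h2.symm⟩, h3⟩
    simpa using hσ
  · rintro ⟨⟨j, b, σ, k, hb, hσ, hk1, hk2, h2⟩, h3⟩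
    refine ⟨⟨(j, b, σ, k), ?_, h2.symm⟩, h3⟩
    rw [mem_product, mem_product, mem_product, mem_Icc]
    refine ⟨mem_univ _, hb, ?_, hk1, hk2⟩
    simpa using hσ

/-- the difference of the slopes -/
def Δf {K : ℕ} (t : Fin K → ℕ) (j i : Fin K) : ℤ := if i = j then 1 else (t j : ℤ) - t i

/-- the constant terms -/
def βf {K : ℕ} (j : Fin K) (c : ℤ) (i : Fin K) : ℤ := if i = j then 0 else c

theorem NT_fam {K : ℕ} (t : Fin K → ℕ) (j : Fin K) (b σ : ℤ) (hσ : σ = 1 ∨ σ = -1) (k : ℕ) (p : ℕ)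
    (hp : p.Prime) (hd : p ∣ (NT t (σ * (k : ℤ), σ * (k : ℤ) * t j + b)).natAbs) (hb : ¬ p ∣ b.natAbs) :
    ∃ i, (p : ℤ) ∣ Δf t j i * k + βf j (σ * b) i := by
  have hpi : Prime (p : ℤ) := Nat.prime_iff_prime_int.1 hp
  have hσσ : σ * σ = 1 := by rcases hσ with h | h <;> rw [h] <;> norm_num
  have h1 := Int.natCast_dvd.2 hd
  unfold NT at h1
  rcases hpi.dvd_or_dvd h1 with h2 | h2
  · refine ⟨j, ?_⟩
    unfold Δf βf
    rw [if_pos rfl, if_pos rfl, one_mul, add_zero]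
    have h3 : (k : ℤ) = σ * (σ * k) := by rw [← mul_assoc, hσσ, one_mul]
    rw [h3]
    exact h2.mul_left _
  · obtain ⟨i, -, hi⟩ := (hpi.dvd_finsetProd_iff _).1 h2
    have h4 : σ * (k : ℤ) * t j + b - σ * (k : ℤ) * t i = σ * (((t j : ℤ) - t i) * k + σ * b) +
        (1 - σ * σ) * b := by ring
    have h5 : (p : ℤ) ∣ σ * (((t j : ℤ) - t i) * k + σ * b) := by
      have h6 : (p : ℤ) ∣ σ * (k : ℤ) * t j + b - σ * (k : ℤ) * t i := hi
      rw [h4, hσσ, sub_self, zero_mul, add_zero] at h6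
      exact h6
    have h6 : (p : ℤ) ∣ ((t j : ℤ) - t i) * k + σ * b := by
      have h7 : ((t j : ℤ) - t i) * k + σ * b = σ * (σ * (((t j : ℤ) - t i) * k + σ * b)) := by
        rw [← mul_assoc, hσσ, one_mul]
      rw [h7]
      exact h5.mul_left _
    by_cases hij : i = j
    · exfalso
      apply hb
      rw [hij, sub_self, zero_mul, zero_add] at h6
      have h8 : (p : ℤ) ∣ b := by
        have h9 : b = σ * (σ * b) := by rw [← mul_assoc, hσσ, one_mul]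
        rw [h9]
        exact h6.mul_left _
      exact Int.natCast_dvd.1 h8
    · refine ⟨i, ?_⟩
      unfold Δf βf
      rw [if_neg hij, if_neg hij]
      exact h6

theorem Δβ_coprime {K : ℕ} (t : Fin K → ℕ) (j : Fin K) (b σ : ℤ) (hσ : σ = 1 ∨ σ = -1) (i : Fin K) (p : ℕ)
    (hp : p.Prime) (hb : ¬ p ∣ b.natAbs) : ¬ ((p : ℤ) ∣ Δf t j i ∧ (p : ℤ) ∣ βf j (σ * b) i) := by
  rintro ⟨h1, h2⟩
  unfold Δf at h1
  unfold βf at h2
  have hσσ : σ * σ = 1 := by rcases hσ with h | h <;> rw [h] <;> norm_num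
  split_ifs at h1 h2
  · have h3 : p ∣ 1 := by exact_mod_cast h1
    exact hp.one_lt.ne' (Nat.dvd_one.1 h3)
  · apply hb
    have h8 : (p : ℤ) ∣ b := by
      have h9 : b = σ * (σ * b) := by rw [← mul_assoc, hσσ, one_mul]
      rw [h9]
      exact h2.mul_left _
    exact Int.natCast_dvd.1 h8

/-- summing over the family -/
theorem sum_fam_le {K : ℕ} (t : Fin K → ℕ) (B : Finset ℤ) (H : ℕ) (Q : ℤ × ℤ → Prop) (w : ℤ × ℤ → ℝ)
    (hw : ∀ z, 0 ≤ w z) : ∑ z ∈ (fam t B H).filter Q, w z ≤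
    ∑ j : Fin K, ∑ b ∈ B, ∑ σ ∈ ({1, -1} : Finset ℤ), ∑ k ∈ (Icc 1 H).filter (fun k : ℕ =>
      (∀ i, (σ * (k : ℤ), σ * (k : ℤ) * t j + b).2 ≠ (σ * (k : ℤ), σ * (k : ℤ) * t j + b).1 * t i) ∧
      Q (σ * (k : ℤ), σ * (k : ℤ) * t j + b)), w (σ * (k : ℤ), σ * (k : ℤ) * t j + b) := by
  unfold fam
  rw [filter_filter, Finset.filter_image]
  refine (sum_image_le'' _ _ w hw).trans (le_of_eq ?_)
  rw [sum_filter, sum_product]
  apply sum_congr rfl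
  intro j _
  rw [sum_product]
  apply sum_congr rfl
  intro b _
  rw [sum_product]
  apply sum_congr rfl
  intro σ _
  rw [sum_filter]

/-- a good choice of the residue -/
theorem good_shift : ∃ C : ℝ, 0 < C ∧ ∀ (K : ℕ) (R : ℝ), 2 ≤ R → ∀ t : Fin K → ℕ, (∀ j, (t j : ℝ) ≤ R) →
    ∃ v : ℕ, 1 ≤ v ∧ (v : ℝ) ≤ R ∧ ∑ j, Ra (v + t j) ≤ 4 * K * C := by
  obtain ⟨C, hC, h⟩ := sum_ratio_lin
  refine ⟨C, hC, fun K R hR t ht => ?_⟩
  set V := ⌊R⌋₊ with hV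
  have hVle : (V : ℝ) ≤ R := Nat.floor_le (by linarith)
  have hVge : R / 2 ≤ V := by
    have := Nat.lt_floor_add_one R
    rw [← hV] at this
    linarith
  have hV1 : 1 ≤ V := by
    have : (1 : ℝ) ≤ V := by linarith
    exact_mod_cast this
  have h1 : ∑ v ∈ Icc 1 V, ∑ j, Ra (v + t j) ≤ ∑ v ∈ Icc 1 V, (4 * K * C : ℝ) := by
    rw [sum_comm]
    have h2 : ∀ j : Fin K, ∑ v ∈ Icc 1 V, Ra (v + t j) ≤ C * (2 * R) := by
      intro j
      have h3 : ∑ v ∈ Icc 1 V, Ra (v + t j) = ∑ r ∈ (Icc 1 V).image (fun v => v + t j), Ra r := by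
        rw [sum_image]
        intro a _ b _ hab
        simpa using hab
      rw [h3]
      have h4 : ∑ r ∈ (Icc 1 V).image (fun v => v + t j), Ra r ≤ ∑ r ∈ Icc 1 (V + t j), Ra r := by
        apply sum_le_sum_of_subset_of_nonneg
        · intro r hr
          rw [mem_image] at hr
          obtain ⟨v, hv, hvr⟩ := hr
          rw [mem_Icc] at hv ⊢
          omega
        · intro i _ _
          exact Ra_nonneg i
      have h5 := h (V + t j)
      have h6 : ∑ r ∈ Icc 1 (V + t j), Ra r ≤ C * ((V + t j : ℕ) : ℝ) := h5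
      refine h4.trans (h6.trans ?_)
      apply mul_le_mul_of_nonneg_left _ hC.le
      push_cast
      linarith [ht j]
    refine (sum_le_sum fun j _ => h2 j).trans ?_
    rw [sum_const, sum_const, Nat.card_Icc, card_univ, Fintype.card_fin, nsmul_eq_mul, nsmul_eq_mul]
    have h7 : ((V + 1 - 1 : ℕ) : ℝ) = V := by rw [Nat.add_sub_cancel]
    rw [h7]
    have h8 : (0 : ℝ) ≤ K := Nat.cast_nonneg K
    have h9 : C * (2 * R) ≤ C * (4 * V) := mul_le_mul_of_nonneg_left (by linarith) hC.le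
    calc (K : ℝ) * (C * (2 * R)) ≤ K * (C * (4 * V)) := mul_le_mul_of_nonneg_left h9 h8
      _ = V * (4 * K * C) := by ring
  obtain ⟨v, hv, hv2⟩ := exists_le_of_sum_le ⟨1, mem_Icc.2 ⟨le_rfl, hV1⟩⟩ h1
  rw [mem_Icc] at hv
  refine ⟨v, hv.1, ?_, hv2⟩
  have : (v : ℝ) ≤ V := by exact_mod_cast hv.2
  linarith

end Pool.Agent.TH101.RG
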