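import Pool.Agent.TH101.RG.LPC

set_option autoImplicit false
set_option maxHeartbeats 4000000

/-! # The covering of the forms `σ k (n + t_j) + b` -/

namespace Pool.Agent.TH101.RG

open Finset Filter Pool.Agent.H398R2.RK
open Pool.Agent.H378R2
open Pool.Agent.H378R2.PS (V1)
open Pool.Agent.H318R2.Cr (cz_bounds Pz one_sub_inv_pos)
open Pool.Agent.H312R2.RG (cov_ev ev_ff)
open Pool.Agent.H256R2.SC (ff)

open scoped Classical

/-- the covering -/
theorem covLP (K : ℕ) (hK : 1 ≤ K) (D : ℕ) (A0 : ℝ) (c₃ : ℝ) (hc₃ : 0 < c₃) : ∃ c : ℝ, 0 < c ∧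
    ∀ᶠ X : ℝ in atTop, ∀ (ps : ℕ) (S : Finset ℕ), GoodS X S → ∀ (g : ℕ), g ≠ 0 →
    ∑ p ∈ g.primeFactors, (1 : ℝ) / p ≤ A0 → (g : ℝ) ≤ (Real.log X) ^ D →
    ∀ (t : Fin K → ℕ), (∀ j, (t j : ℝ) ≤ (Real.log (Real.log X)) ^ 4) →
    ∀ (v : ℕ → ℕ), (∀ p : ℕ, p.Prime → ∀ j, ¬ p ∣ v p + t j) →
    ∀ B : Finset ℤ, (∀ b ∈ B, b ≠ 0 ∧ |(b : ℝ)| ≤ Real.log X) →
    ∀ H : ℕ, Real.log X * Real.log (Real.log X) ≤ H →
    (H : ℝ) * ∑ b ∈ B, Ra b.natAbs ≤ c * ff X →
    ∃ (β : ℕ → ℤ) (U0 : Finset (ℤ × ℤ)), U0 ⊆ fam t B H ∧ (U0.card : ℝ) ≤ c₃ * Real.log X ∧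
      (∀ p ∈ PW X S ps, ∀ j, ¬ (p : ℤ) ∣ β p + t j) ∧
      ∀ z ∈ fam t B H, z ∉ U0 → ∃ p ∈ PW X S ps, ¬ p ∣ g ∧ (p : ℤ) ∣ z.1 * β p + z.2 := by
  obtain ⟨Cs, hCs, y₀, hws⟩ := weightSum K hK 12 (4 * K + 4) (by positivity)
  obtain ⟨c₁, c₂, hc₁, hc₁₂, hV⟩ := cz_bounds
  have hc₂ : 0 < c₂ := hc₁.trans_le hc₁₂
  obtain ⟨A₀, hev⟩ := cov_ev (1 / 10) (by norm_num)
  obtain ⟨y₃, hv⟩ := eventually_atTop.1 v1facts6
  obtain ⟨Cr, hCr, hgs⟩ := good_shift
  have hK0 : (0 : ℝ) < K := by exact_mod_cast hK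
  set Q : ℝ := (8 * K * Cr * Cs) * (2 * c₂) * Real.exp (2 * (A0 + 2)) * 160 with hQ
  have hQ0 : 0 < Q := by positivity
  refine ⟨min (c₃ / Q) 1, by positivity, ?_⟩
  have t1 := Real.tendsto_log_atTop
  have t2 : Tendsto (fun y : ℝ => Real.log (Real.log y)) atTop atTop := t1.comp t1
  filter_upwards [t2.eventually_ge_atTop A₀, t1.eventually_ge_atTop (2000 * (|y₀| + 2)),
    t1.eventually_ge_atTop (2000 * (|y₃| + 2)),
    t2.eventually_ge_atTop (8 * (D + 2) + 8 * 100),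
    ev_ff 1 one_pos, eventually_gt_atTop 0,
    t2.eventually (Pool.Agent.H378R2.ev_pow_exp 7 1 2 one_pos)] with X e1 e2 e4 e5 e6 hX0 e7
  intro ps S hS g hg0 hgS hgD t htl v hvp Bf hBf H hHl hHw
  set T := Real.log X with hT
  have hT0 : 0 < T := by
    have : (0 : ℝ) ≤ |y₀| := abs_nonneg _
    linarith
  set A' := Real.log T with hA
  obtain ⟨a1, a2, a3, a4, a5, a6, a7, a8, a9⟩ := hev A' e1
  have hTe : T = Real.exp A' := by rw [hA, Real.exp_log hT0]
  set B := Real.log A' with hB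
  set D' := Real.log B with hD
  have hff : ff X = T * A' ^ 2 * D' / B ^ 2 := by
    unfold Pool.Agent.H256R2.SC.ff
    rfl
  have hA0' : 0 < A' := by linarith
  have hB0 : 0 < B := by linarith
  have hD0 : 0 < D' := by linarith
  have hT7 : 2 * A' ^ 7 ≤ T := by
    rw [one_mul, ← hTe] at e7
    exact e7
  -- y
  set y := yy X with hy
  have hyT : (y : ℝ) ≤ T / 1000 := Nat.floor_le (by positivity)
  have hyT2 : T / 2000 ≤ y := by
    have h1 : T / 1000 < (y : ℝ) + 1 := Nat.lt_floor_add_one _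
    have h2 : 1 ≤ T / 2000 := by
      rw [le_div_iff₀ (by norm_num), hTe]; linarith
    linarith [show T / 1000 = T / 2000 + T / 2000 by ring]
  have hyy0 : y₀ ≤ y := by
    have := le_abs_self y₀
    linarith
  have hyy3 : y₃ ≤ y := by
    have := le_abs_self y₃
    linarith
  obtain ⟨hv1, hv2, hv3⟩ := hv y hyy3
  have hy0 : (0 : ℝ) < y := by
    have : (0 : ℝ) ≤ |y₀| := abs_nonneg _
    linarith
  have hly1 : Real.log y ≤ A' := by
    rw [hA]; apply Real.log_le_log hy0; linarith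
  have hly2 : A' / 2 ≤ Real.log y := by
    have h1 : Real.log (T / 2000) ≤ Real.log y := Real.log_le_log (by positivity) hyT2
    rw [Real.log_div hT0.ne' (by norm_num)] at h1
    linarith
  have hly0 : 0 < Real.log y := by linarith
  have hl2y1 : Real.log (Real.log y) ≤ B := Real.log_le_log hly0 hly1
  have hl2y2 : B / 2 ≤ Real.log (Real.log y) := by
    have h1 : Real.log (A' / 2) ≤ Real.log (Real.log y) := Real.log_le_log (by positivity) hly2
    rw [Real.log_div hA0'.ne' (by norm_num)] at h1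
    linarith
  have hl2y0 : 0 < Real.log (Real.log y) := by linarith
  have hl3y2 : D' / 2 ≤ Real.log (Real.log (Real.log y)) := by
    have h1 : Real.log (B / 2) ≤ Real.log (Real.log (Real.log y)) := Real.log_le_log (by positivity) hl2y2
    rw [Real.log_div hB0.ne' (by norm_num)] at h1
    linarith
  have hl3y0 : 0 < Real.log (Real.log (Real.log y)) := by linarith
  have hly1' : 1 ≤ Real.log y := by linarith
  have hA100 : 100 ≤ A' := by linarith
  -- the set F
  set F : Finset ℕ := (Icc 1 y).filter (fun p : ℕ => p.Prime ∧ (p ∈ S ∨ p = ps ∨ p ∣ g)) with hF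
  have hFmem : ∀ p : ℕ, p ∈ F ↔ (p ≤ y ∧ p.Prime ∧ (p ∈ S ∨ p = ps ∨ p ∣ g)) := by
    intro p
    rw [hF, mem_filter, mem_Icc]
    constructor
    · rintro ⟨⟨_, h1⟩, h2⟩; exact ⟨h1, h2⟩
    · rintro ⟨h1, h2⟩; exact ⟨⟨h2.1.pos, h1⟩, h2⟩
  have hFp : ∀ q ∈ F, q.Prime := fun q hq => ((hFmem q).1 hq).2.1
  have hpos : ∀ i : ℕ, 0 ≤ (1 : ℝ) / (i : ℝ) := fun i => by positivity
  set Ps : Finset ℕ := if ps.Prime then {ps} else ∅ with hPs
  have hPs2 : ∀ q ∈ Ps, q = ps ∧ ps.Prime := by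
    intro q hq
    rw [hPs] at hq
    split_ifs at hq with h
    · exact ⟨mem_singleton.1 hq, h⟩
    · simp at hq
  have hFsub : F ⊆ (S ∪ Ps) ∪ g.primeFactors := by
    intro p hp
    rw [hFmem] at hp
    obtain ⟨h1, h2, h3⟩ := hp
    rw [mem_union, mem_union]
    rcases h3 with h | h | h
    · exact Or.inl (Or.inl h)
    · left; right
      rw [hPs, ← h, if_pos h2]
      simp
    · right
      rw [Nat.mem_primeFactors]
      exact ⟨h2, h, hg0⟩
  have hSsum : ∑ q ∈ S, (1 : ℝ) / q ≤ 6 / A' ^ 2 := hS.2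
  have hFsum : ∑ q ∈ F, (1 : ℝ) / q ≤ A0 + 2 := by
    have h1 : ∑ q ∈ F, (1 : ℝ) / q ≤ (∑ q ∈ S, (1 : ℝ) / q + ∑ q ∈ Ps, (1 : ℝ) / q) +
        ∑ q ∈ g.primeFactors, (1 : ℝ) / q := by
      refine (sum_le_sum_of_subset_of_nonneg hFsub (fun i _ _ => hpos i)).trans ?_
      refine (sum_union_le' _ hpos).trans ?_
      apply add_le_add_left
      exact sum_union_le' _ hpos
    have h2 : ∑ q ∈ Ps, (1 : ℝ) / q ≤ 1 := by
      rw [hPs]
      split_ifs with h
      · rw [sum_singleton, div_le_one (by exact_mod_cast h.pos)]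
        exact_mod_cast h.one_lt.le
      · simp
    have h3 : ∑ q ∈ S, (1 : ℝ) / q ≤ 1 := by
      refine hSsum.trans ?_
      rw [div_le_one (by positivity)]
      nlinarith only [hA100]
    linarith
  have hl4 : 1 / (Real.log y) ^ 4 ≤ 1 / Real.log y := by
    apply one_div_le_one_div_of_le hly0
    calc Real.log y = (Real.log y) ^ 1 := (pow_one _).symm
      _ ≤ (Real.log y) ^ 4 := pow_le_pow_right₀ (by linarith) (by norm_num)
  have hv2' : (Real.log y) ^ 4 ≤ Real.exp (V1 y) :=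
    (pow_le_pow_right₀ (by linarith) (by norm_num)).trans hv2
  have hbigq : ∀ q : ℕ, 0 < q → V1 y < Real.log q → (1 : ℝ) / q ≤ 1 / (Real.log y) ^ 4 := by
    intro q hq0 hq
    have hq0' : (0 : ℝ) < q := by exact_mod_cast hq0
    have hV0' : Real.exp (-(V1 y)) ≤ 1 / (Real.log y) ^ 4 := by
      rw [Real.exp_neg, ← one_div]
      exact one_div_le_one_div_of_le (by positivity) hv2'
    refine le_trans ?_ hV0'
    rw [Real.exp_neg, ← one_div]
    exact one_div_le_one_div_of_le (Real.exp_pos _) ((Real.lt_log_iff_exp_lt hq0').1 hq).le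
  -- few large prime factors
  have hfew : ∀ n : ℕ, 1 ≤ n → (n : ℝ) ≤ T ^ (D + 2) →
      ∑ q ∈ n.primeFactors.filter (fun q : ℕ => V1 y < Real.log q), (1 : ℝ) / q ≤ 1 / Real.log y := by
    intro n hn1 hnT
    have h4 : ∑ q ∈ n.primeFactors.filter (fun q : ℕ => V1 y < Real.log q), (1 : ℝ) / q ≤
        (n.primeFactors.filter (fun q : ℕ => V1 y < Real.log q)).card • (1 / (Real.log y) ^ 4) := by
      apply sum_le_card_nsmul
      intro q hq
      rw [mem_filter] at hq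
      exact hbigq q (Nat.prime_of_mem_primeFactors hq.1).pos hq.2
    rw [nsmul_eq_mul] at h4
    have h5 : ((n.primeFactors.filter (fun q : ℕ => V1 y < Real.log q)).card : ℝ) ≤ 2 * ((D + 2) * A') := by
      have h6 : ((n.primeFactors.filter (fun q : ℕ => V1 y < Real.log q)).card : ℝ) ≤
        (n.primeFactors.card : ℝ) := by exact_mod_cast card_le_card (filter_subset _ _)
      have h7 := card_primeFactors_le n hn1
      have h8 : Real.log (n : ℝ) ≤ (D + 2) * A' := by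
        have : Real.log (n : ℝ) ≤ Real.log (T ^ (D + 2)) :=
          Real.log_le_log (by exact_mod_cast hn1) hnT
        rw [Real.log_pow] at this
        push_cast at this
        exact this
      linarith
    have h6 : (0 : ℝ) ≤ 1 / (Real.log y) ^ 4 := by positivity
    refine h4.trans ((mul_le_mul_of_nonneg_right h5 h6).trans ?_)
    have h7 : A' ≤ 2 * Real.log y := by linarith
    have hD4 : 4 * ((D : ℝ) + 2) ≤ Real.log y := by linarith
    have hD0 : (0 : ℝ) ≤ D := Nat.cast_nonneg D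
    rw [mul_one_div, div_le_div_iff₀ (by positivity) hly0, one_mul]
    calc 2 * (((D : ℝ) + 2) * A') * Real.log y ≤ 2 * ((D + 2) * (2 * Real.log y)) * Real.log y := by gcongr
      _ = 4 * (D + 2) * (Real.log y) ^ 2 := by ring
      _ ≤ Real.log y * (Real.log y) ^ 2 := by gcongr
      _ = (Real.log y) ^ 3 := by ring
      _ ≤ (Real.log y) ^ 4 := pow_le_pow_right₀ (by linarith) (by norm_num)
  have hT1 : 1 ≤ T := by linarith
  have hFtail : ∑ q ∈ F.filter (fun q : ℕ => V1 y < Real.log q), (1 : ℝ) / q ≤ 8 / Real.log y := by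
    have h1 : ∑ q ∈ F.filter (fun q : ℕ => V1 y < Real.log q), (1 : ℝ) / q ≤
        (∑ q ∈ S, (1 : ℝ) / q + ∑ q ∈ Ps.filter (fun q : ℕ => V1 y < Real.log q), (1 : ℝ) / q) +
        ∑ q ∈ g.primeFactors.filter (fun q : ℕ => V1 y < Real.log q), (1 : ℝ) / q := by
      have hsub : F.filter (fun q : ℕ => V1 y < Real.log q) ⊆
          (S ∪ Ps.filter (fun q : ℕ => V1 y < Real.log q)) ∪
            g.primeFactors.filter (fun q : ℕ => V1 y < Real.log q) := by
        intro p hp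
        rw [mem_filter] at hp
        have h2 := hFsub hp.1
        rw [mem_union, mem_union] at h2
        rw [mem_union, mem_union, mem_filter, mem_filter]
        rcases h2 with (h | h) | h
        · exact Or.inl (Or.inl h)
        · exact Or.inl (Or.inr ⟨h, hp.2⟩)
        · exact Or.inr ⟨h, hp.2⟩
      refine (sum_le_sum_of_subset_of_nonneg hsub (fun i _ _ => hpos i)).trans ?_
      refine (sum_union_le' _ hpos).trans ?_
      apply add_le_add_left
      exact sum_union_le' _ hpos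
    have h2 : ∑ q ∈ Ps.filter (fun q : ℕ => V1 y < Real.log q), (1 : ℝ) / q ≤ 1 / Real.log y := by
      refine le_trans ?_ hl4
      have h3 : (Ps.filter (fun q : ℕ => V1 y < Real.log q)).card ≤ 1 := by
        refine (card_le_card (filter_subset _ _)).trans ?_
        rw [hPs]
        split_ifs <;> simp
      have h4 : ∑ q ∈ Ps.filter (fun q : ℕ => V1 y < Real.log q), (1 : ℝ) / q ≤
          (Ps.filter (fun q : ℕ => V1 y < Real.log q)).card • (1 / (Real.log y) ^ 4) := by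
        apply sum_le_card_nsmul
        intro q hq
        rw [mem_filter] at hq
        obtain ⟨h5, h6⟩ := hPs2 q hq.1
        exact hbigq q (by rw [h5]; exact h6.pos) hq.2
      rw [nsmul_eq_mul] at h4
      have h5 : ((Ps.filter (fun q : ℕ => V1 y < Real.log q)).card : ℝ) ≤ 1 := by exact_mod_cast h3
      have h6 : 0 ≤ 1 / (Real.log y) ^ 4 := by positivity
      exact h4.trans (mul_le_of_le_one_left h6 h5)
    have h3 := hfew g (Nat.pos_of_ne_zero hg0) (hgD.trans (pow_le_pow_right₀ hT1 (by omega)))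
    have h4 : ∑ q ∈ S, (1 : ℝ) / q ≤ 6 / Real.log y := by
      refine hSsum.trans ?_
      apply div_le_div_of_nonneg_left (by norm_num) hly0
      exact hly1.trans (by rw [sq]; exact le_mul_of_one_le_left hA0'.le a1)
    have h6 : 8 / Real.log y = 6 / Real.log y + 1 / Real.log y + 1 / Real.log y := by ring
    linarith
  -- the common residue
  have hR2 : 2 ≤ A' ^ 4 := by
    have : (100 : ℝ) ^ 4 ≤ A' ^ 4 := pow_le_pow_left₀ (by norm_num) hA100 4
    linarith [show (2 : ℝ) ≤ 100 ^ 4 by norm_num]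
  obtain ⟨v₀, hv₀1, hv₀2, hv₀3⟩ := hgs K (A' ^ 4) hR2 t htl
  have hsj : ∀ j, ((v₀ + t j : ℕ) : ℝ) ≤ 32 * (Real.log y) ^ 4 := by
    intro j
    push_cast
    have h1 : A' ^ 4 ≤ (2 * Real.log y) ^ 4 := pow_le_pow_left₀ hA0'.le (by linarith) 4
    have h2 : (2 * Real.log y) ^ 4 = 16 * (Real.log y) ^ 4 := by ring
    linarith [htl j]
  have hsj5 : ∀ j, ((v₀ + t j : ℕ) : ℝ) ≤ (Real.log y) ^ 5 := by
    intro j
    refine (hsj j).trans ?_
    calc 32 * (Real.log y) ^ 4 ≤ Real.log y * (Real.log y) ^ 4 := by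
          apply mul_le_mul_of_nonneg_right _ (by positivity)
          linarith
      _ = _ := by ring
  -- the surviving forms
  set Z₁ : Finset (ℤ × ℤ) := (fam t Bf H).filter (fun z => ∀ p : ℕ, p.Prime → V1 y < Real.log p → p ≤ y →
      p ∉ F → ¬ (p : ℤ) ∣ z.1 * v₀ + z.2) with hZ₁
  have hNTne : ∀ z ∈ fam t Bf H, NT t z ≠ 0 := by
    intro z hz
    obtain ⟨⟨j, b, σ, k, hb, hσ, hk1, hkH, rfl⟩, hne⟩ := mem_fam.1 hz
    refine NT_ne_zero t _ ?_ hne
    have h1 : (k : ℤ) ≠ 0 := by exact_mod_cast (by omega : k ≠ 0)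
    have h2 : σ ≠ 0 := by rcases hσ with h | h <;> rw [h] <;> norm_num
    exact mul_ne_zero h2 h1
  have hffn : 0 ≤ ff X := by rw [hff]; positivity
  -- the weights of the surviving forms
  have hZw : ∑ z ∈ Z₁, wT t z ≤ (8 * K * Cr * Cs) * (Real.log (Real.log y) / Real.log y) * (c₃ / Q * ff X) := by
    rcases Bf.eq_empty_or_nonempty with hBe | hBne
    · have h1 : Z₁ = ∅ := by
        rw [eq_empty_iff_forall_notMem]
        intro z hz
        obtain ⟨⟨j, b, σ, k, hb, -⟩, -⟩ := mem_fam.1 (mem_filter.1 hz).1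
        rw [hBe] at hb
        simp at hb
      rw [h1, sum_empty]
      positivity
    have hsB1 : 1 ≤ ∑ b ∈ Bf, Ra b.natAbs := by
      obtain ⟨b, hb⟩ := hBne
      refine (Ra_ge_one (Int.natAbs_ne_zero.2 (hBf b hb).1)).trans ?_
      exact single_le_sum (f := fun b : ℤ => Ra b.natAbs) (fun i _ => Ra_nonneg _) hb
    have hHn : (0 : ℝ) ≤ H := Nat.cast_nonneg H
    have hHff : (H : ℝ) ≤ ff X := by
      have h1 : (H : ℝ) ≤ H * ∑ b ∈ Bf, Ra b.natAbs := le_mul_of_one_le_right hHn hsB1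
      have h2 : min (c₃ / Q) 1 * ff X ≤ 1 * ff X := mul_le_mul_of_nonneg_right (min_le_right _ _) hffn
      linarith
    have hB1 : 1 ≤ B := by linarith
    have hHT : (H : ℝ) ≤ T * A' ^ 3 := by
      refine hHff.trans ?_
      rw [hff, div_le_iff₀ (by positivity)]
      have h1 : D' ≤ B := a6
      have h2 : B ≤ A' := by
        have := Real.log_le_sub_one_of_pos hA0'
        linarith
      have h3 : 1 ≤ B ^ 2 := one_le_pow₀ hB1
      calc T * A' ^ 2 * D' ≤ T * A' ^ 2 * A' := by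
            apply mul_le_mul_of_nonneg_left (h1.trans h2) (by positivity)
        _ = T * A' ^ 3 * 1 := by ring
        _ ≤ T * A' ^ 3 * B ^ 2 := mul_le_mul_of_nonneg_left h3 (by positivity)
    have hH1 : (y : ℝ) + 1 ≤ 2 * H / Real.log y := by
      rw [le_div_iff₀ hly0]
      have h1 : ((y : ℝ) + 1) * Real.log y ≤ (2 * T) * A' := by
        apply mul_le_mul _ hly1 hly0.le (by positivity)
        linarith
      linarith
    have hH2 : 2 * T ≤ 2 * H / Real.log y := by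
      rw [le_div_iff₀ hly0]
      have h1 : (2 * T) * Real.log y ≤ (2 * T) * A' := mul_le_mul_of_nonneg_left hly1 (by positivity)
      linarith
    have hsH : ∀ j, ((v₀ + t j : ℕ) : ℝ) * H ≤ y * (Real.log y) ^ 12 := by
      intro j
      have h1 : A' ^ 3 ≤ (2 * Real.log y) ^ 3 := pow_le_pow_left₀ hA0'.le (by linarith) 3
      have h2 : T ≤ 2000 * y := by linarith
      have h3 : (512000 : ℝ) ≤ (Real.log y) ^ 5 := by
        have : (100 : ℝ) ^ 5 ≤ (Real.log y) ^ 5 := pow_le_pow_left₀ (by norm_num) hv1 5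
        linarith [show (512000 : ℝ) ≤ 100 ^ 5 by norm_num]
      calc ((v₀ + t j : ℕ) : ℝ) * H ≤ (32 * (Real.log y) ^ 4) * (T * A' ^ 3) :=
            mul_le_mul (hsj j) hHT hHn (by positivity)
        _ ≤ (32 * (Real.log y) ^ 4) * ((2000 * y) * (2 * Real.log y) ^ 3) := by gcongr
        _ = 512000 * (y * (Real.log y) ^ 7) := by ring
        _ ≤ (Real.log y) ^ 5 * (y * (Real.log y) ^ 7) := by
            apply mul_le_mul_of_nonneg_right h3 (by positivity)
        _ = _ := by ring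
    have hlog6 : (Real.log y) ^ 6 + 1 ≤ T := by
      have h1 : (Real.log y) ^ 6 ≤ A' ^ 6 := pow_le_pow_left₀ hly0.le hly1 6
      have h2 : A' ^ 6 ≤ A' ^ 7 := pow_le_pow_right₀ a1 (by norm_num)
      have h3 : 1 ≤ A' ^ 7 := one_le_pow₀ a1
      linarith
    have hszT : ∀ k : ℕ, k ≤ H → ∀ (i j : Fin K) (b : ℤ), b ∈ Bf → ∀ σ : ℤ, (σ = 1 ∨ σ = -1) →
        |((σ * (k : ℤ) * t j + b - σ * (k : ℤ) * t i : ℤ) : ℝ)| ≤ T ^ 2 := by
      intro k hk i j b hb σ hσ
      push_cast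
      have h1 : (σ : ℝ) * k * t j + b - σ * k * t i = σ * (k * ((t j : ℝ) - t i)) + b := by ring
      rw [h1]
      have h2 : |(σ : ℝ)| = 1 := by
        rcases hσ with h | h <;> rw [h] <;> norm_num
      have h3 : |(t j : ℝ) - t i| ≤ A' ^ 4 := by
        rw [abs_le]
        have h4 : (0 : ℝ) ≤ t j := Nat.cast_nonneg _
        have h5 : (0 : ℝ) ≤ t i := Nat.cast_nonneg _
        constructor <;> linarith [htl j, htl i]
      have hkH : (k : ℝ) ≤ T * A' ^ 3 := by
        have : (k : ℝ) ≤ H := by exact_mod_cast hk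
        linarith
      have hk0 : (0 : ℝ) ≤ k := Nat.cast_nonneg k
      have h4 : |(k : ℝ) * ((t j : ℝ) - t i)| ≤ (T * A' ^ 3) * A' ^ 4 := by
        rw [abs_mul, abs_of_nonneg hk0]
        exact mul_le_mul hkH h3 (abs_nonneg _) (by positivity)
      have h5 : |(σ : ℝ) * (k * ((t j : ℝ) - t i)) + b| ≤ (T * A' ^ 3) * A' ^ 4 + T := by
        refine (abs_add_le _ _).trans ?_
        rw [abs_mul, h2, one_mul]
        exact add_le_add h4 (hBf b hb).2
      refine h5.trans ?_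
      have h6 : A' ^ 7 + 1 ≤ T := by
        have h3 : 1 ≤ A' ^ 7 := one_le_pow₀ a1
        linarith
      calc (T * A' ^ 3) * A' ^ 4 + T = T * (A' ^ 7 + 1) := by ring
        _ ≤ T * T := mul_le_mul_of_nonneg_left h6 hT0.le
        _ = T ^ 2 := by ring
    have hkT : ∀ k : ℕ, k ≤ H → (k : ℝ) ≤ T ^ 2 := by
      intro k hk
      have h1 : (k : ℝ) ≤ H := by exact_mod_cast hk
      have h2 : A' ^ 3 ≤ T := by
        have h1 : A' ^ 3 ≤ A' ^ 7 := pow_le_pow_right₀ a1 (by norm_num)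
        have h3 : 0 ≤ A' ^ 7 := by positivity
        linarith
      calc (k : ℝ) ≤ T * A' ^ 3 := h1.trans hHT
        _ ≤ T * T := mul_le_mul_of_nonneg_left h2 hT0.le
        _ = T ^ 2 := by ring
    have hNlog : ∀ k : ℕ, k ≤ H → ∀ (j : Fin K) (b : ℤ), b ∈ Bf → ∀ σ : ℤ, (σ = 1 ∨ σ = -1) →
        NT t (σ * (k : ℤ), σ * (k : ℤ) * t j + b) ≠ 0 →
        Real.log ((NT t (σ * (k : ℤ), σ * (k : ℤ) * t j + b)).natAbs : ℝ) ≤ (4 * K + 4) * Real.log y := by
      intro k hk j b hb σ hσ hne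
      have h2 : |(σ : ℝ)| = 1 := by
        rcases hσ with h | h <;> rw [h] <;> norm_num
      have h1 : (((NT t (σ * (k : ℤ), σ * (k : ℤ) * t j + b)).natAbs : ℕ) : ℝ) =
          |(NT t (σ * (k : ℤ), σ * (k : ℤ) * t j + b) : ℝ)| := by
        rw [Nat.cast_natAbs, Int.cast_abs]
      have h3 : |(NT t (σ * (k : ℤ), σ * (k : ℤ) * t j + b) : ℝ)| ≤ (T ^ 2) ^ (K + 1) := by
        unfold NT
        rw [Int.cast_mul, Int.cast_prod, abs_mul, Finset.abs_prod, pow_succ, mul_comm]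
        apply mul_le_mul
        · refine (Finset.prod_le_prod (fun i _ => abs_nonneg _)
            (fun i _ => hszT k hk i j b hb σ hσ)).trans (le_of_eq ?_)
          rw [prod_const, card_univ, Fintype.card_fin]
        · show |((σ * (k : ℤ) : ℤ) : ℝ)| ≤ T ^ 2
          push_cast
          rw [abs_mul, h2, one_mul, abs_of_nonneg (Nat.cast_nonneg k)]
          exact hkT k hk
        · exact abs_nonneg _
        · positivity
      have h4 : (0 : ℝ) < ((NT t (σ * (k : ℤ), σ * (k : ℤ) * t j + b)).natAbs : ℝ) := by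
        exact_mod_cast Int.natAbs_pos.2 hne
      rw [← h1] at h3
      have h5 := Real.log_le_log h4 h3
      rw [Real.log_pow, Real.log_pow] at h5
      push_cast at h5
      refine h5.trans ?_
      have h6 : A' ≤ 2 * Real.log y := by linarith
      have h7 : ((K : ℝ) + 1) * (2 * A') ≤ (K + 1) * (2 * (2 * Real.log y)) := by
        apply mul_le_mul_of_nonneg_left _ (by positivity)
        linarith
      calc ((K : ℝ) + 1) * (2 * Real.log T) ≤ (K + 1) * (2 * (2 * Real.log y)) := h7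
        _ = (4 * K + 4) * Real.log y := by ring
    -- one family
    have hone : ∀ (j : Fin K) (b : ℤ), b ∈ Bf → ∀ σ ∈ ({1, -1} : Finset ℤ),
        ∑ k ∈ (Icc 1 H).filter (fun k : ℕ =>
          (∀ i, (σ * (k : ℤ), σ * (k : ℤ) * t j + b).2 ≠ (σ * (k : ℤ), σ * (k : ℤ) * t j + b).1 * t i) ∧
          (∀ p : ℕ, p.Prime → V1 y < Real.log p → p ≤ y → p ∉ F →
            ¬ (p : ℤ) ∣ (σ * (k : ℤ), σ * (k : ℤ) * t j + b).1 * v₀ + (σ * (k : ℤ), σ * (k : ℤ) * t j + b).2)),
          wT t (σ * (k : ℤ), σ * (k : ℤ) * t j + b) ≤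
        Cs * Ra b.natAbs * Ra (v₀ + t j) * (Real.log (Real.log y) / Real.log y) * H := by
      intro j b hb σ hσ0
      have hσ : σ = 1 ∨ σ = -1 := by simpa using hσ0
      obtain ⟨hb0, hbT⟩ := hBf b hb
      have hσσ : σ * σ = 1 := by rcases hσ with h | h <;> rw [h] <;> norm_num
      have hσb : ((σ * b).natAbs : ℝ) ≤ T := by
        have h1 : (σ * b).natAbs = b.natAbs := by
          rcases hσ with h | h <;> rw [h] <;> simp
        rw [h1, Nat.cast_natAbs, Int.cast_abs]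
        exact hbT
      have h := hws y hyy0 H hH1 F hFp hFtail ((v₀ + t j : ℕ) : ℤ) (by exact_mod_cast (by omega : v₀ + t j ≠ 0))
        (by rw [Int.natAbs_natCast]; exact hsj5 j) (by rw [Int.natAbs_natCast]; exact hsH j) (σ * b)
        (by linarith) b.natAbs (Int.natAbs_ne_zero.2 hb0) (Δf t j) (βf j (σ * b))
        (fun i p hp hpb => Δβ_coprime t j b σ hσ i p hp hpb)
        ((Icc 1 H).filter (fun k : ℕ =>
          (∀ i, (σ * (k : ℤ), σ * (k : ℤ) * t j + b).2 ≠ (σ * (k : ℤ), σ * (k : ℤ) * t j + b).1 * t i) ∧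
          (∀ p : ℕ, p.Prime → V1 y < Real.log p → p ≤ y → p ∉ F →
            ¬ (p : ℤ) ∣ (σ * (k : ℤ), σ * (k : ℤ) * t j + b).1 * v₀ + (σ * (k : ℤ), σ * (k : ℤ) * t j + b).2)))
        (by
          intro k hk
          rw [mem_filter, mem_Icc] at hk
          refine ⟨hk.1.2, ?_⟩
          intro p hp h1 h2 h3 h4
          apply hk.2.2 p hp h1 h2 h3
          show (p : ℤ) ∣ σ * (k : ℤ) * v₀ + (σ * (k : ℤ) * t j + b)
          have h5 : σ * (k : ℤ) * v₀ + (σ * (k : ℤ) * t j + b) = σ * (((v₀ + t j : ℕ) : ℤ) * k + σ * b) +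
              (1 - σ * σ) * b := by push_cast; ring
          rw [h5, hσσ, sub_self, zero_mul, add_zero]
          exact h4.mul_left _)
        (fun k => (NT t (σ * (k : ℤ), σ * (k : ℤ) * t j + b)).natAbs)
        (by
          intro k hk
          rw [mem_filter, mem_Icc] at hk
          have h1 : NT t (σ * (k : ℤ), σ * (k : ℤ) * t j + b) ≠ 0 := by
            refine NT_ne_zero t _ ?_ hk.2.1
            have h1 : (k : ℤ) ≠ 0 := by exact_mod_cast (by omega : k ≠ 0)
            have h2 : σ ≠ 0 := by rcases hσ with h | h <;> rw [h] <;> norm_num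
            exact mul_ne_zero h2 h1
          refine ⟨Int.natAbs_ne_zero.2 h1, hNlog k hk.1.2 j b hb σ hσ h1, ?_⟩
          intro p hp hpd hpb
          exact NT_fam t j b σ hσ k p hp hpd hpb)
      rw [Int.natAbs_natCast] at h
      exact h
    have hsum : ∑ z ∈ Z₁, wT t z ≤ ∑ j : Fin K, ∑ b ∈ Bf, ∑ σ ∈ ({1, -1} : Finset ℤ),
        Cs * Ra b.natAbs * Ra (v₀ + t j) * (Real.log (Real.log y) / Real.log y) * H := by
      rw [hZ₁]
      refine (sum_fam_le t Bf H _ (wT t) (wT_nonneg t)).trans ?_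
      apply sum_le_sum
      intro j _
      apply sum_le_sum
      intro b hb
      apply sum_le_sum
      intro σ hσ
      exact hone j b hb σ hσ
    have h2 : ∑ j : Fin K, ∑ b ∈ Bf, ∑ σ ∈ ({1, -1} : Finset ℤ),
        Cs * Ra b.natAbs * Ra (v₀ + t j) * (Real.log (Real.log y) / Real.log y) * H =
        (2 * Cs * (Real.log (Real.log y) / Real.log y)) * (∑ j : Fin K, Ra (v₀ + t j)) *
          (H * ∑ b ∈ Bf, Ra b.natAbs) := by
      rw [mul_sum, sum_mul]
      apply sum_congr rfl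
      intro j _
      rw [mul_sum, mul_sum]
      apply sum_congr rfl
      intro b _
      rw [sum_const]
      have h3 : ({1, -1} : Finset ℤ).card = 2 := by decide
      rw [h3, nsmul_eq_mul]
      push_cast
      ring
    rw [h2] at hsum
    refine hsum.trans ?_
    have h3 : (H : ℝ) * ∑ b ∈ Bf, Ra b.natAbs ≤ c₃ / Q * ff X :=
      hHw.trans (mul_le_mul_of_nonneg_right (min_le_left _ _) hffn)
    have h4 : 0 ≤ (H : ℝ) * ∑ b ∈ Bf, Ra b.natAbs := mul_nonneg hHn (sum_nonneg fun i _ => Ra_nonneg _)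
    calc (2 * Cs * (Real.log (Real.log y) / Real.log y)) * (∑ j : Fin K, Ra (v₀ + t j)) *
          (H * ∑ b ∈ Bf, Ra b.natAbs) ≤
          (2 * Cs * (Real.log (Real.log y) / Real.log y)) * (4 * K * Cr) * (c₃ / Q * ff X) := by
          apply mul_le_mul _ h3 h4 (by positivity)
          exact mul_le_mul_of_nonneg_left hv₀3 (by positivity)
      _ = _ := by ring
  -- the small primes
  set N : ℕ := ⌊Real.exp (V1 y)⌋₊ with hN
  set P : Finset ℕ := (Icc 1 y).filter (fun p : ℕ => p.Prime ∧ Real.log p ≤ V1 y ∧ p ∉ F) with hP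
  have hPmem : ∀ p ∈ P, p ≤ y ∧ p.Prime ∧ Real.log p ≤ V1 y ∧ p ∉ F := by
    intro p hp
    rw [hP, mem_filter, mem_Icc] at hp
    exact ⟨hp.1.2, hp.2⟩
  have hng : ∀ p, p ≤ y → p.Prime → p ∉ F → ¬ p ∣ g := fun p h1 h2 h3 h4 =>
    h3 ((hFmem p).2 ⟨h1, h2, Or.inr (Or.inr h4)⟩)
  obtain ⟨βg, hβ1, hβ2⟩ := greedyT t v P (fun p hp => (hPmem p hp).2.1)
    (fun p hp => hvp p (hPmem p hp).2.1) Z₁
  have hPz : ∀ p ∈ Pz N, p.Prime := by
    intro p hp
    unfold Pool.Agent.H318R2.Cr.Pz at hp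
    exact (mem_filter.1 hp).2
  have hPS : P ⊆ Pz N := by
    intro p hp
    obtain ⟨h1, h2, h3, h4⟩ := hPmem p hp
    unfold Pool.Agent.H318R2.Cr.Pz
    rw [mem_filter, mem_Ioc]
    refine ⟨⟨h2.pos, ?_⟩, h2⟩
    apply Nat.le_floor
    rw [← Real.log_le_iff_le_exp (by exact_mod_cast h2.pos)]
    exact h3
  have hdiff : ∑ p ∈ Pz N \ P, (1 : ℝ) / p ≤ A0 + 2 := by
    refine (sum_le_sum_of_subset_of_nonneg ?_ (fun i _ _ => hpos i)).trans hFsum
    intro p hp
    obtain ⟨h1, h2⟩ := Finset.mem_sdiff.1 hp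
    have hpp := hPz p h1
    unfold Pool.Agent.H318R2.Cr.Pz at h1
    rw [mem_filter, mem_Ioc] at h1
    have hp0 : (0 : ℝ) < p := by exact_mod_cast hpp.pos
    have h3 : (p : ℝ) ≤ Real.exp (V1 y) := (Nat.le_floor_iff (Real.exp_pos _).le).1 h1.1.2
    have h4 : Real.log p ≤ V1 y := (Real.log_le_iff_le_exp hp0).2 h3
    have h5 : p ≤ y := by
      have h6 : (p : ℝ) ≤ y := by
        rw [← Real.exp_log hp0, ← Real.exp_log hy0]
        exact Real.exp_le_exp.2 (h4.trans hv3)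
      exact_mod_cast h6
    by_contra hcon
    apply h2
    rw [hP, mem_filter, mem_Icc]
    exact ⟨⟨hpp.pos, h5⟩, hpp, h4, hcon⟩
  have hV1pos : 0 < V1 y := by
    unfold Pool.Agent.H378R2.PS.V1
    positivity
  have hexp2 : 4 ≤ Real.exp (V1 y) := by
    refine le_trans ?_ hv2'
    have : (100 : ℝ) ^ 4 ≤ (Real.log y) ^ 4 := pow_le_pow_left₀ (by norm_num) hv1 4
    linarith [show (4 : ℝ) ≤ 100 ^ 4 by norm_num]
  have hN2 : 2 ≤ N := by
    apply Nat.le_floor
    push_cast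
    linarith
  have hlogN : V1 y / 2 ≤ Real.log N := by
    have h7 : Real.exp (V1 y) < N + 1 := Nat.lt_floor_add_one _
    have h8 : (2 : ℝ) ≤ N := by exact_mod_cast hN2
    have h9 : Real.exp (V1 y) ≤ (N : ℝ) ^ 2 := by nlinarith only [h7, h8]
    have h10 := Real.log_le_log (Real.exp_pos _) h9
    rw [Real.log_exp, Real.log_pow] at h10
    push_cast at h10; linarith
  have hprod : ∏ p ∈ Pz N, (1 - 1 / (p : ℝ)) ≤ 2 * c₂ / V1 y := by
    have h1 := (hV N hN2).2
    unfold Pool.Agent.H318R2.Cr.V at h1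
    have h2 : 0 < Real.log N := by linarith
    rw [← le_div_iff₀ h2] at h1
    refine h1.trans ?_
    rw [div_le_div_iff₀ h2 hV1pos]
    have h3 := mul_le_mul_of_nonneg_left hlogN hc₂.le
    linarith only [h3]
  set U0 : Finset (ℤ × ℤ) := Z₁.filter (fun z => ∀ p ∈ P, ¬ (p : ℤ) ∣ z.1 * βg p + z.2) with hU0
  have hUc : (U0.card : ℝ) ≤ c₃ * T := by
    have h1 : (U0.card : ℝ) ≤ ∑ z ∈ Z₁, (2 * c₂ / V1 y) * Real.exp (2 * (A0 + 2)) * wT t z := by
      refine hβ2.trans (sum_le_sum fun z hz => ?_)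
      refine (prodZ 1 (fun _ => (0 : ℤ)) P (Pz N) hPS hPz (A0 + 2) hdiff (NT t z)
        (fun _ => hNTne z (mem_filter.1 hz).1)).trans ?_
      rw [Fin.prod_univ_one, sub_zero]
      apply mul_le_mul_of_nonneg_right _ (wT_nonneg t z)
      exact mul_le_mul_of_nonneg_right hprod (Real.exp_pos _).le
    rw [← mul_sum] at h1
    calc (U0.card : ℝ) ≤ (2 * c₂ / V1 y) * Real.exp (2 * (A0 + 2)) *
          ((8 * K * Cr * Cs) * (Real.log (Real.log y) / Real.log y) * (c₃ / Q * ff X)) :=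
          h1.trans (mul_le_mul_of_nonneg_left hZw (by positivity))
      _ = ((8 * K * Cr * Cs) * (2 * c₂) * Real.exp (2 * (A0 + 2)) * 20) * ((Real.log (Real.log y)) ^ 2 /
          ((Real.log y) ^ 2 * Real.log (Real.log (Real.log y)))) * (c₃ / Q * ff X) := by
          unfold Pool.Agent.H378R2.PS.V1
          field_simp
      _ ≤ ((8 * K * Cr * Cs) * (2 * c₂) * Real.exp (2 * (A0 + 2)) * 20) * (B ^ 2 / ((A' / 2) ^ 2 * (D' / 2))) *
          (c₃ / Q * ff X) := by gcongr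
      _ = c₃ * T := by
          rw [hff, hQ]
          field_simp
          norm_num
  refine ⟨fun p => if V1 y < Real.log p then (if p ∉ F ∧ p ≤ y then (v₀ : ℤ) else v p)
      else (if p ∈ P then βg p else v p), U0, (filter_subset _ _).trans (filter_subset _ _), hUc, ?_, ?_⟩
  · intro p hp j
    have hpp := (mem_PW.1 hp).2.1
    have hvz : ¬ (p : ℤ) ∣ (v p : ℤ) + t j := by
      intro h
      exact hvp p hpp j (by exact_mod_cast h)
    show ¬ (p : ℤ) ∣ (if V1 y < Real.log p then (if p ∉ F ∧ p ≤ y then (v₀ : ℤ) else v p)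
      else (if p ∈ P then βg p else v p)) + t j
    split_ifs with h1 h2 h3
    · intro h
      have h4 : p ∣ v₀ + t j := by exact_mod_cast h
      have h5 : p ≤ v₀ + t j := Nat.le_of_dvd (by omega) h4
      have h6 : (p : ℝ) ≤ ((v₀ + t j : ℕ) : ℝ) := by exact_mod_cast h5
      have h7 : Real.exp (V1 y) < p := (Real.lt_log_iff_exp_lt (by exact_mod_cast hpp.pos)).1 h1
      have h8 := hsj5 j
      have h9 : (Real.log y) ^ 5 ≤ (Real.log y) ^ 6 := pow_le_pow_right₀ hly1' (by norm_num)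
      linarith
    · exact hvz
    · exact hβ1 p h3 j
    · exact hvz
  · intro z hz hzU
    by_cases hz1 : z ∈ Z₁
    · have h1 : ∃ p ∈ P, (p : ℤ) ∣ z.1 * βg p + z.2 := by
        by_contra hcon
        push Not at hcon
        exact hzU (mem_filter.2 ⟨hz1, hcon⟩)
      obtain ⟨p, hp, hpd⟩ := h1
      obtain ⟨g1, g2, g3, g4⟩ := hPmem p hp
      refine ⟨p, mem_PW.2 ⟨g1, g2, fun h => g4 ((hFmem p).2 ⟨g1, g2, Or.inl h⟩),
        fun h => g4 ((hFmem p).2 ⟨g1, g2, Or.inr (Or.inl h)⟩)⟩, hng p g1 g2 g4, ?_⟩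
      show (p : ℤ) ∣ z.1 * (if V1 y < Real.log p then (if p ∉ F ∧ p ≤ y then (v₀ : ℤ) else v p)
        else (if p ∈ P then βg p else v p)) + z.2
      rw [if_neg (not_lt.2 g3), if_pos hp]
      exact hpd
    · have h1 : ∃ p : ℕ, p.Prime ∧ V1 y < Real.log p ∧ p ≤ y ∧ p ∉ F ∧
          (p : ℤ) ∣ z.1 * v₀ + z.2 := by
        by_contra hcon
        push Not at hcon
        exact hz1 (mem_filter.2 ⟨hz, hcon⟩)
      obtain ⟨p, g2, g3, g1, g4, g6⟩ := h1
      refine ⟨p, mem_PW.2 ⟨g1, g2, fun h => g4 ((hFmem p).2 ⟨g1, g2, Or.inl h⟩),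
        fun h => g4 ((hFmem p).2 ⟨g1, g2, Or.inr (Or.inl h)⟩)⟩, hng p g1 g2 g4, ?_⟩
      show (p : ℤ) ∣ z.1 * (if V1 y < Real.log p then (if p ∉ F ∧ p ≤ y then (v₀ : ℤ) else v p)
        else (if p ∈ P then βg p else v p)) + z.2
      rw [if_pos g3, if_pos ⟨g4, g1⟩]
      exact g6

end Pool.Agent.TH101.RG
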