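import Pool.Agent.TH101.RG.PatZ
import Pool.Agent.TH101.RG.Ratio

set_option autoImplicit false
set_option maxHeartbeats 4000000

/-! # Least primes in the classes of small numbers modulo a prime -/

namespace Pool.Agent.TH101.RG

open Finset Filter
open Pool.Agent.H378R2
open Pool.Agent.H312R2.RG (ev_ff cov_ev)
open Pool.Agent.H256R2.SC (ff)

open scoped Classical

/-- the integers `z ≠ 0`, `|z| ≤ H` -/
def ZH (H : ℕ) : Finset ℤ :=
  ((Icc 1 H) ×ˢ (univ : Finset Bool)).image (fun x => if x.2 then (x.1 : ℤ) else -(x.1 : ℤ))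

theorem mem_ZH {H : ℕ} {z : ℤ} : z ∈ ZH H ↔ z ≠ 0 ∧ z.natAbs ≤ H := by
  unfold ZH
  rw [mem_image]
  constructor
  · rintro ⟨⟨r, b⟩, hr, rfl⟩
    rw [mem_product, mem_Icc] at hr
    have h1 := hr.1.1
    have h2 := hr.1.2
    simp only at h1 h2
    cases b
    · simp
      omega
    · simp
      omega
  · rintro ⟨h1, h2⟩
    rcases lt_or_gt_of_ne h1 with h3 | h3
    · refine ⟨(z.natAbs, false), ?_, ?_⟩
      · rw [mem_product, mem_Icc]
        exact ⟨⟨by simp only; omega, h2⟩, mem_univ _⟩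
      · simp [abs_of_neg h3]
    · refine ⟨(z.natAbs, true), ?_, ?_⟩
      · rw [mem_product, mem_Icc]
        exact ⟨⟨by simp only; omega, h2⟩, mem_univ _⟩
      · simp
        omega

theorem sum_ZH (H : ℕ) (w : ℕ → ℝ) (hw : ∀ r, 0 ≤ w r) :
    ∑ z ∈ ZH H, w z.natAbs ≤ 2 * ∑ r ∈ Icc 1 H, w r := by
  unfold ZH
  refine (sum_image_le' _ _ (fun z : ℤ => w z.natAbs) (fun z => hw _)).trans ?_
  rw [sum_product, mul_sum]
  apply sum_le_sum
  intro r _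
  rw [Fintype.sum_bool]
  simp only [if_true, Bool.false_eq_true, if_false, Int.natAbs_natCast, Int.natAbs_neg]
  linarith

theorem least_primes (D J : ℕ) (A₀ : ℝ) (d : ℕ) (hd : Squarefree d) : ∃ c : ℝ, 0 < c ∧ ∀ᶠ X : ℝ in atTop,
    ∀ b : ℤ, b ≠ 0 → |(b : ℝ)| ≤ (Real.log X) ^ D → |(b : ℝ)| ≤ A₀ * (b.natAbs.totient : ℝ) →
    ∀ h : ℕ, h.Coprime d → ∀ bad : Finset ℕ, (bad.card : ℝ) ≤ X ^ (9 / 10 : ℝ) →
    ∃ p : ℕ, p.Prime ∧ X < p ∧ (p : ℝ) ≤ 3 * X ∧ p ∉ bad ∧ p ≡ h [MOD d] ∧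
      ∀ k i j : ℤ, k ≠ 0 → |(k : ℝ)| ≤ c * ff X → 1 ≤ |i| → |i| ≤ J → 1 ≤ |j| → |j| ≤ J →
        ∀ q : ℕ, q.Prime → j * q ≠ k * p + i * b := by
  obtain ⟨ℓ, hℓ⟩ : ∃ ℓ : ℕ, ℓ = J.factorial := ⟨_, rfl⟩
  have hℓ0 : 0 < ℓ := by rw [hℓ]; exact Nat.factorial_pos J
  have hℓr : (1 : ℝ) ≤ ℓ := by exact_mod_cast hℓ0
  have hd0 : d ≠ 0 := hd.ne_zero
  obtain ⟨Cr, hCr, hratio⟩ := sum_ratio_lin
  obtain ⟨c₁, hc₁, hone⟩ := oneZ 3 (D + 2) (ℓ + |A₀| + d)
  obtain ⟨A₁, hev⟩ := cov_ev (1 / 10) (by norm_num)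
  refine ⟨c₁ / (2 * Cr) / ℓ, by positivity, ?_⟩
  have t1 := Real.tendsto_log_atTop
  have t2 : Tendsto (fun y : ℝ => Real.log (Real.log y)) atTop atTop := t1.comp t1
  filter_upwards [hone d hd, ev_ff c₁ hc₁, t1.eventually_ge_atTop ((ℓ : ℝ) * d),
    t1.eventually_ge_atTop ((J : ℝ) + 2), t2.eventually_ge_atTop (ℓ + 1 : ℝ), eventually_ge_atTop 4,
    t1.eventually (Pool.Agent.H378R2.ev_pow_exp (D + 6) (1 / 40) 1 (by norm_num)),
    t2.eventually_ge_atTop A₁, t2.eventually_ge_atTop (c₁ / (2 * Cr))]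
    with X hX hff hLd hLJ hLℓ hX4 hE e1 e2
  intro b hb hbD hbφ h hh bad hbad
  set L := Real.log X with hL
  have hX0 : 0 < X := by linarith
  have hJ0 : (0 : ℝ) ≤ J := Nat.cast_nonneg J
  have hL1 : 1 ≤ L := by linarith
  have hL0 : 0 < L := by linarith
  have hLL : Real.log L ≤ L := (Real.log_le_sub_one_of_pos hL0).trans (by linarith)
  have hLL0 : 0 < Real.log L := by linarith
  obtain ⟨a1, a2, a3, a4, a5, a6, a7, a8, a9⟩ := hev _ e1
  have hffX : 0 ≤ ff X := hff.2.1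
  have hffle : ff X ≤ L * (Real.log L) ^ 2 := by
    have h1 : ff X = L * (Real.log L) ^ 2 * Real.log (Real.log (Real.log L)) / (Real.log (Real.log L)) ^ 2 := rfl
    rw [h1, div_le_iff₀ (by positivity)]
    apply mul_le_mul_of_nonneg_left _ (by positivity)
    have h2 : Real.log (Real.log L) ≤ (Real.log (Real.log L)) ^ 2 := by
      rw [sq]
      exact le_mul_of_one_le_left (by linarith) a2
    linarith
  set E := Real.exp (1 / 40 * L) with hEd
  rw [one_mul] at hE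
  have hE0 : 0 < E := Real.exp_pos _
  have hELJ : (J : ℝ) + 2 ≤ E := by
    have h1 : L ^ 1 ≤ L ^ (D + 6) := pow_le_pow_right₀ hL1 (by omega)
    rw [pow_one] at h1
    linarith
  have hE1 : 1 ≤ E := by linarith
  have hpowE : ∀ k : ℕ, X ^ ((k : ℝ) / 40) = E ^ k := by
    intro k
    rw [hEd, ← Real.exp_nat_mul, Real.rpow_def_of_pos hX0, ← hL]
    congr 1
    ring
  have e1000 : X ^ (1 / 1000 : ℝ) ≤ E := by
    have h1 := hpowE 1
    rw [pow_one] at h1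
    rw [← h1]
    exact Real.rpow_le_rpow_of_exponent_le (by linarith) (by norm_num)
  have eX : X = E ^ 40 := by
    have h1 := hpowE 40
    rw [← h1]
    norm_num
  -- the data
  set ga : ℕ := ℓ * (b.natAbs * d) with hga
  have hana : b.natAbs ≠ 0 := Int.natAbs_ne_zero.2 hb
  have hga0 : ga ≠ 0 := by
    rw [hga]
    exact mul_ne_zero hℓ0.ne' (mul_ne_zero hana hd0)
  have hacast : ((b.natAbs : ℕ) : ℝ) = |(b : ℝ)| := by rw [Nat.cast_natAbs, Int.cast_abs]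
  have hgsum : ∑ p ∈ ga.primeFactors, (1 : ℝ) / p ≤ ℓ + |A₀| + d := by
    have h1 := sum_inv_mul ℓ (b.natAbs * d) hℓ0.ne' (mul_ne_zero hana hd0)
    have h2 := sum_inv_mul b.natAbs d hana hd0
    have h3 := sum_inv_le_self ℓ
    have h4 := sum_inv_le_self d
    have h5 := sum_inv_le_of_totient b.natAbs hana A₀ (by rw [hacast]; exact hbφ)
    have h6 := le_abs_self A₀
    rw [← hga] at h1
    linarith
  have hgle : (ga : ℝ) ≤ L ^ (D + 1) := by
    rw [hga]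
    push_cast
    rw [hacast]
    calc (ℓ : ℝ) * (|(b : ℝ)| * d) = |(b : ℝ)| * (ℓ * d) := by ring
      _ ≤ L ^ D * L := mul_le_mul hbD hLd (by positivity) (by positivity)
      _ = L ^ (D + 1) := (pow_succ _ _).symm
  have hdivga : (ℓ : ℤ) * b ∣ (ga : ℤ) := by
    rw [hga]
    push_cast
    have h1 : (b : ℤ) ∣ |b| := (dvd_abs b b).2 (dvd_refl b)
    exact mul_dvd_mul (dvd_refl _) (h1.mul_right _)
  have hℓb : (ℓ : ℤ) * b ≠ 0 := mul_ne_zero (by exact_mod_cast hℓ0.ne') hb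
  -- the set of multipliers
  set H : ℕ := ⌊c₁ / (2 * Cr) * ff X⌋₊ with hH
  have hHle : (H : ℝ) ≤ c₁ / (2 * Cr) * ff X := Nat.floor_le (by positivity)
  have hHE : (H : ℝ) ≤ L * (Real.log L) ^ 3 := by
    calc (H : ℝ) ≤ Real.log L * (L * (Real.log L) ^ 2) := hHle.trans (mul_le_mul e2 hffle hffX hLL0.le)
      _ = _ := by ring
  have hLX : L ≤ X := (Real.log_le_sub_one_of_pos hX0).trans (by linarith)
  have hX1 : 1 ≤ X := by linarith
  have hLE : L * (Real.log L) ^ 3 ≤ E := by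
    calc L * (Real.log L) ^ 3 ≤ L * L ^ 3 := by gcongr
      _ = L ^ 4 := by ring
      _ ≤ L ^ (D + 6) := pow_le_pow_right₀ hL1 (by omega)
      _ ≤ E := hE
  have hLDE : L ^ D ≤ E := (pow_le_pow_right₀ hL1 (by omega)).trans hE
  have hEX : E ≤ X := by
    rw [eX]
    calc E = E ^ 1 := (pow_one _).symm
      _ ≤ E ^ 40 := pow_le_pow_right₀ hE1 (by norm_num)
  have habs : ∀ z : ℤ, ((z.natAbs : ℕ) : ℝ) = |(z : ℝ)| := fun z => by rw [Nat.cast_natAbs, Int.cast_abs]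
  have hZmem : ∀ z ∈ ZH H, z ≠ 0 ∧ |(z : ℝ)| ≤ L * (Real.log L) ^ 3 := by
    intro z hz
    rw [mem_ZH] at hz
    refine ⟨hz.1, ?_⟩
    rw [← habs]
    have : ((z.natAbs : ℕ) : ℝ) ≤ H := by exact_mod_cast hz.2
    linarith
  obtain ⟨p, hp, hXp, hp3, hpb, hpd, hmain⟩ := hX (fun z => z) (fun _ => ℓ * b) ga hga0
    (by
      rw [hga]
      exact Dvd.dvd.mul_left (Dvd.dvd.mul_left (dvd_refl d) _) _) hgsum
    (hgle.trans (pow_le_pow_right₀ hL1 (by omega)))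
    (by
      intro r hr hrg cc hcc
      have hrb : ¬ (r : ℤ) ∣ ℓ * b := fun h1 => hrg (by exact_mod_cast h1.trans hdivga)
      obtain ⟨ρ, hρ⟩ := solve r hr cc (ℓ * b) hcc
      refine ⟨ρ, ?_, ?_⟩
      · intro h1
        apply hrb
        have h2 : (r : ℤ) ∣ (ρ : ℤ) := Int.natCast_dvd_natCast.2 h1
        have h3 := dvd_sub hρ (h2.mul_left cc)
        rwa [add_sub_cancel_left] at h3
      · intro z n h1 h2
        have h3 : z * n + (ℓ : ℤ) * b = (z - cc) * n + cc * (n - ρ) + (cc * ρ + ℓ * b) := by ring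
        show (r : ℤ) ∣ z * n + (ℓ : ℤ) * b
        rw [h3]
        exact dvd_add (dvd_add (h1.mul_right _) (h2.mul_left _)) hρ) h hh bad hbad (ZH H) hZmem
    (fun z hz => ⟨(hZmem z hz).1, hℓb⟩)
    (by
      intro z hz
      constructor
      · calc |(z : ℝ)| ≤ L * (Real.log L) ^ 3 := (hZmem z hz).2
          _ ≤ E := hLE
          _ ≤ X := hEX
          _ = X ^ 1 := (pow_one _).symm
          _ ≤ X ^ (D + 2) := pow_le_pow_right₀ hX1 (by omega)
      · push_cast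
        rw [abs_mul, abs_of_nonneg (by positivity : (0 : ℝ) ≤ ℓ)]
        have h1 : (ℓ : ℝ) ≤ L := by linarith
        calc (ℓ : ℝ) * |(b : ℝ)| ≤ L * L ^ D := mul_le_mul h1 hbD (abs_nonneg _) hL0.le
          _ = L ^ (D + 1) := by ring
          _ ≤ X ^ (D + 1) := pow_le_pow_left₀ hL0.le hLX _
          _ ≤ X ^ (D + 2) := pow_le_pow_right₀ hX1 (by omega))
    (by
      intro k _ l _ hkl h1
      exact hkl (mul_right_cancel₀ hℓb h1))
    (by
      refine (sum_ZH H (fun r => (r : ℝ) / (r.totient : ℝ)) (fun r => by positivity)).trans ?_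
      have h1 := hratio H
      calc 2 * ∑ r ∈ Icc 1 H, ((r : ℝ) / (r.totient : ℝ)) ≤ 2 * (Cr * H) := by linarith
        _ ≤ 2 * (Cr * (c₁ / (2 * Cr) * ff X)) := by gcongr
        _ = c₁ * ff X := by field_simp)
  refine ⟨p, hp, hXp, hp3, hpb, hpd, ?_⟩
  intro k i j hk0 hkle hi1 hiJ hj1 hjJ q hq hjq
  have hdivℓ : ∀ x : ℤ, 1 ≤ |x| → |x| ≤ J → x ∣ (ℓ : ℤ) := by
    intro x h1 h2
    rw [Int.abs_eq_natAbs] at h1 h2
    rw [← Int.natAbs_dvd_natAbs, Int.natAbs_natCast, hℓ]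
    apply Nat.dvd_factorial
    · exact_mod_cast h1
    · exact_mod_cast h2
  obtain ⟨i₁, hi₁⟩ := hdivℓ i hi1 hiJ
  have hi₁ℓ : i₁ ∣ (ℓ : ℤ) := ⟨i, by rw [hi₁]; ring⟩
  have hi₁0 : i₁ ≠ 0 := by
    rintro rfl
    rw [mul_zero] at hi₁
    have : (0 : ℤ) < ℓ := by exact_mod_cast hℓ0
    omega
  have hi₁le : |(i₁ : ℝ)| ≤ ℓ := by
    have h1 : |i₁| ≤ (ℓ : ℤ) := by
      rw [Int.abs_eq_natAbs]
      have := Nat.le_of_dvd hℓ0 (Int.natCast_dvd_natCast.1 ((Int.natAbs_dvd).2 hi₁ℓ))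
      exact_mod_cast this
    exact_mod_cast h1
  have hid : (i₁ * k) * p + ℓ * b = i₁ * j * q := by
    rw [mul_assoc i₁ j, hjq, hi₁]
    ring
  obtain ⟨q', hq', hq'X, hq'g, hq'd⟩ := hmain (i₁ * k) (by
    rw [mem_ZH]
    refine ⟨mul_ne_zero hi₁0 hk0, ?_⟩
    apply Nat.le_floor
    rw [habs]
    push_cast
    rw [abs_mul]
    calc |(i₁ : ℝ)| * |(k : ℝ)| ≤ ℓ * (c₁ / (2 * Cr) / ℓ * ff X) :=
          mul_le_mul hi₁le hkle (abs_nonneg _) (by positivity)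
      _ = _ := by field_simp)
  have hq'd : (q' : ℤ) ∣ (i₁ * k) * p + ℓ * b := hq'd
  rw [hid] at hq'd
  have hq'ℓ : ¬ (q' : ℤ) ∣ (ℓ : ℤ) := by
    intro h1
    apply hq'g
    rw [hga]
    exact (Int.natCast_dvd_natCast.1 h1).mul_right _
  have hqq : q' = q := by
    rcases (Nat.prime_iff_prime_int.1 hq').dvd_mul.1 hq'd with h1 | h1
    · rcases (Nat.prime_iff_prime_int.1 hq').dvd_mul.1 h1 with h2 | h2
      · exact absurd (h2.trans hi₁ℓ) hq'ℓ
      · exact absurd (h2.trans (hdivℓ j hj1 hjJ)) hq'ℓ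
    · exact (Nat.prime_dvd_prime_iff_eq hq' hq).1 (by exact_mod_cast h1)
  have hqE : (q : ℝ) ≤ E := by
    rw [← hqq]
    exact hq'X.trans e1000
  -- contradiction
  have h1 : |(k : ℝ)| * p ≤ (J : ℝ) * E + J * E := by
    have h2 : (k : ℝ) * p = j * q - i * b := by
      have h3 : ((j * q : ℤ) : ℝ) = ((k * p + i * b : ℤ) : ℝ) := by rw [hjq]
      push_cast at h3
      linarith
    have h3 : |(k : ℝ)| * p = |(k : ℝ) * p| := by
      rw [abs_mul, abs_of_nonneg (Nat.cast_nonneg p : (0 : ℝ) ≤ p)]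
    rw [h3, h2]
    refine (abs_sub _ _).trans ?_
    rw [abs_mul, abs_mul, abs_of_nonneg (Nat.cast_nonneg q : (0 : ℝ) ≤ q)]
    have h4 : |(j : ℝ)| ≤ J := by exact_mod_cast hjJ
    have h4' : |(i : ℝ)| ≤ J := by exact_mod_cast hiJ
    have h5 : |(j : ℝ)| * q ≤ J * E := mul_le_mul h4 hqE (Nat.cast_nonneg q) hJ0
    have h6 : |(i : ℝ)| * |(b : ℝ)| ≤ J * E := mul_le_mul h4' (hbD.trans hLDE) (abs_nonneg _) hJ0
    linarith
  have h2 : (1 : ℝ) ≤ |(k : ℝ)| := by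
    have : 1 ≤ |k| := Int.one_le_abs hk0
    exact_mod_cast this
  have h4 : X ≤ |(k : ℝ)| * p := by
    calc X ≤ p := hXp.le
      _ ≤ |(k : ℝ)| * p := le_mul_of_one_le_left (Nat.cast_nonneg p) h2
  have h5 : (J : ℝ) * E + J * E < E ^ 40 := by
    have h6 : (2 : ℝ) ≤ E := by linarith
    calc (J : ℝ) * E + J * E = 2 * (J * E) := by ring
      _ ≤ E * (J * E) := mul_le_mul_of_nonneg_right h6 (by positivity)
      _ < E * (E * E) := by
          apply mul_lt_mul_of_pos_left _ hE0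
          exact mul_lt_mul_of_pos_right (by linarith) hE0
      _ = E ^ 3 := by ring
      _ ≤ E ^ 40 := pow_le_pow_right₀ hE1 (by norm_num)
  rw [eX] at h4
  linarith

end Pool.Agent.TH101.RG
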