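import Pool.Agent.TH101.RG.CovP
import Pool.Agent.TH101.RG.OneZ

set_option autoImplicit false
set_option maxHeartbeats 4000000

/-! # A prime at which every form of a family indexed by pairs is composite -/

namespace Pool.Agent.TH101.RG

open Finset Filter
open Pool.Agent.H378R2
open Pool.Agent.H312R2.RG (BVat)
open Pool.Agent.H256R2.SC (ff)

open scoped Classical

/-- the template for one prime, the forms indexed by a set -/
theorem templ3 (D : ℕ) : ∃ (A : ℕ) (c₄ : ℝ), 0 < c₄ ∧ ∀ Z : ℕ, ∀ᶠ X : ℝ in atTop,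
    ∀ (ps : ℕ) (S : Finset ℕ), GoodP Z ps → BVat A X (WW X S ps) ps →
    ∀ {ι : Type} (U : Finset ι), (U.card : ℝ) ≤ c₄ * Real.log X → ∀ (α β : ι → ℤ),
    (∀ k ∈ U, α k ≠ 0 ∧ β k ≠ 0) → (∀ k ∈ U, |(α k : ℝ)| ≤ X ^ D ∧ |(β k : ℝ)| ≤ X ^ D) →
    (∀ k ∈ U, ∀ l ∈ U, k ≠ l → α k * β l ≠ α l * β k) → ∀ g : ℕ, g ≠ 0 → (g : ℝ) ≤ X ^ D →
    ∀ r : ℕ, r.Coprime (WW X S ps) → ∀ bad : Finset ℕ, (bad.card : ℝ) ≤ X ^ (9 / 10 : ℝ) →
    ∃ p : ℕ, p.Prime ∧ X < p ∧ (p : ℝ) ≤ 3 * X ∧ p ∉ bad ∧ p ≡ r [MOD WW X S ps] ∧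
      ∀ k ∈ U, ∃ q : ℕ, q.Prime ∧ (q : ℝ) ≤ X ^ (1 / 1000 : ℝ) ∧ ¬ q ∣ g ∧ (q : ℤ) ∣ α k * p + β k := by
  obtain ⟨A, c₄, hc₄, h⟩ := templ1 D
  refine ⟨A, c₄, hc₄, fun Z => ?_⟩
  filter_upwards [h Z, Real.tendsto_log_atTop.eventually_ge_atTop (1 / c₄), eventually_ge_atTop 1] with X hX hL hX1
  intro ps S hps hBV ι U hUc α β hne hle hdet g hg0 hgD r hr bad hbad
  set n := U.card with hn
  set e := U.equivFin with he
  set α' : ℕ → ℤ := fun k => if hk : k < n then α (e.symm ⟨k, hk⟩ : ↥U) else 1 with hα'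
  set β' : ℕ → ℤ := fun k => if hk : k < n then β (e.symm ⟨k, hk⟩ : ↥U) else 1 with hβ'
  have hmax : ∀ k ∈ range (max n 1), n ≠ 0 → k < n := by
    intro k hk hn0
    rw [mem_range] at hk
    omega
  have hXD : 1 ≤ X ^ D := one_le_pow₀ hX1
  obtain ⟨p, hp, hXp, hp3, hpb, hpr, hall⟩ := hX ps S hps hBV (range (max n 1)) ⟨0, by simp⟩
    (by
      rw [card_range]
      rw [div_le_iff₀ hc₄, mul_comm] at hL
      rcases le_or_gt n 1 with h1 | h1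
      · rw [max_eq_right h1]
        push_cast
        exact hL
      · rw [max_eq_left h1.le]
        exact hUc) α' β'
    (by
      intro k hk
      simp only [hα', hβ']
      split_ifs with h1
      · exact hne _ (e.symm ⟨k, h1⟩).2
      · exact ⟨one_ne_zero, one_ne_zero⟩)
    (by
      intro k hk
      simp only [hα', hβ']
      split_ifs with h1
      · exact hle _ (e.symm ⟨k, h1⟩).2
      · simpa using hXD)
    (by
      intro k hk l hl hkl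
      rcases Nat.eq_zero_or_pos n with h0 | h0
      · rw [h0] at hk hl
        simp only [Nat.zero_le, sup_of_le_right, range_one, mem_singleton] at hk hl
        exact absurd (hk.trans hl.symm) hkl
      · have hk' := hmax k hk (by omega)
        have hl' := hmax l hl (by omega)
        simp only [hα', hβ', dif_pos hk', dif_pos hl']
        apply hdet _ (e.symm ⟨k, hk'⟩).2 _ (e.symm ⟨l, hl'⟩).2
        intro h1
        have h2 := e.symm.injective (Subtype.ext h1)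
        exact hkl (by simpa using h2))
    g hg0 hgD r hr bad hbad
  refine ⟨p, hp, hXp, hp3, hpb, hpr, fun k hk => ?_⟩
  have hlt : ((e ⟨k, hk⟩ : Fin n) : ℕ) < n := (e ⟨k, hk⟩).2
  have hk2 := hall (e ⟨k, hk⟩ : Fin n) (by rw [mem_range]; omega)
  simp only [hα', hβ', dif_pos hlt] at hk2
  simpa using hk2


theorem oneP (A D : ℕ) (A0 : ℝ) : ∃ c : ℝ, 0 < c ∧ ∀ d : ℕ, Squarefree d → ∀ᶠ X : ℝ in atTop,
    ∀ (α β : ℤ × ℤ → ℤ) (g : ℕ), g ≠ 0 → d ∣ g → ∑ p ∈ g.primeFactors, (1 : ℝ) / p ≤ A0 →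
    (g : ℝ) ≤ (Real.log X) ^ D →
    (∀ p : ℕ, p.Prime → (p : ℝ) ≤ Real.log X → ¬ p ∣ g → ∀ c : ℤ, ¬ (p : ℤ) ∣ c → ∃ ρ : ℕ, ¬ p ∣ ρ ∧
      ∀ (z : ℤ × ℤ) (n : ℤ), (p : ℤ) ∣ z.1 * c + z.2 → (p : ℤ) ∣ n - ρ → (p : ℤ) ∣ α z * n + β z) →
    ∀ h : ℕ, h.Coprime d → ∀ bad : Finset ℕ, (bad.card : ℝ) ≤ X ^ (9 / 10 : ℝ) →
    ∀ Z : Finset (ℤ × ℤ), (∀ z ∈ Z, z.1 ≠ 0 ∧ z.2 ≠ 0 ∧ |(z.1 : ℝ)| ≤ (Real.log (Real.log X)) ^ 5 ∧
      |(z.2 : ℝ)| ≤ Real.log X * (Real.log (Real.log X)) ^ A) →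
    (∀ z ∈ Z, α z ≠ 0 ∧ β z ≠ 0) → (∀ z ∈ Z, |(α z : ℝ)| ≤ X ^ D ∧ |(β z : ℝ)| ≤ X ^ D) →
    (∀ k ∈ Z, ∀ l ∈ Z, k ≠ l → α k * β l ≠ α l * β k) →
    ∑ z ∈ Z, wP z ≤ c * ff X →
    ∃ p : ℕ, p.Prime ∧ X < p ∧ (p : ℝ) ≤ 3 * X ∧ p ∉ bad ∧ p ≡ h [MOD d] ∧
      ∀ z ∈ Z, ∃ q : ℕ, q.Prime ∧ (q : ℝ) ≤ X ^ (1 / 1000 : ℝ) ∧ ¬ q ∣ g ∧ (q : ℤ) ∣ α z * p + β z := by
  obtain ⟨Abv, c₄, hc₄, ht⟩ := templ3 D
  obtain ⟨c, hc, hcov⟩ := covP A D A0 c₄ hc₄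
  refine ⟨c, hc, fun d hd => ?_⟩
  obtain ⟨X1, hbv⟩ := bvrel_holds Abv (max 2 d)
  have t1 := Real.tendsto_log_atTop
  have t2 : Tendsto (fun y : ℝ => Real.log (Real.log y)) atTop atTop := t1.comp t1
  filter_upwards [ht (max 2 d), hcov, eventually_ge_atTop X1, eventually_ge_atTop 4,
    t1.eventually_ge_atTop 1, t1.eventually_ge_atTop (1000 * (max 2 d : ℕ)),
    t2.eventually_ge_atTop ((max 2 d : ℕ) + 1)] with X htX hcovX hX1 hX4 hL1 hLd hL2d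
  intro α β g hg0 hdg hgS hgD hH h hhd bad hbad Z hZ hne hle hdet hw
  obtain ⟨ps, S, hps, hS, hBV⟩ := hbv X hX1
  have hX0 : 0 < X := by linarith
  have hLX : Real.log X ≤ X := (Real.log_le_sub_one_of_pos hX0).trans (by linarith)
  set u : ℕ → ℕ := fun p => if p ∣ d then h else 1 with hu
  have hup : ∀ p, p.Prime → ¬ p ∣ u p := by
    intro p hp
    simp only [hu]
    split_ifs with hpd
    · intro hph
      exact hp.one_lt.ne' (Nat.dvd_one.1 (hhd ▸ Nat.dvd_gcd hph hpd))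
    · intro h1
      exact hp.one_lt.ne' (Nat.dvd_one.1 h1)
  obtain ⟨cl, U0, hU0, hU0c, hcl, hcov'⟩ := hcovX ps S hS g hg0 hgS hgD Z hZ hw
  have hex : ∀ p : ℕ, ∃ ρ : ℕ, p ∈ PW X S ps → (¬ p ∣ ρ ∧ (p ∣ g → ρ = u p) ∧
      (¬ p ∣ g → ∀ (z : ℤ × ℤ) (n : ℤ), (p : ℤ) ∣ z.1 * cl p + z.2 → (p : ℤ) ∣ n - ρ →
        (p : ℤ) ∣ α z * n + β z)) := by
    intro p
    by_cases hp : p ∈ PW X S ps
    · have hpp := (mem_PW.1 hp).2.1
      by_cases hpg : p ∣ g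
      · exact ⟨u p, fun _ => ⟨hup p hpp, fun _ => rfl, fun h => absurd hpg h⟩⟩
      · have hpL : (p : ℝ) ≤ Real.log X := by
          have h1 : (p : ℝ) ≤ yy X := by exact_mod_cast (mem_PW.1 hp).1
          have h2 : (yy X : ℝ) ≤ Real.log X / 1000 := Nat.floor_le (by positivity)
          linarith
        obtain ⟨ρ, h1, h2⟩ := hH p hpp hpL hpg (cl p) (hcl p hp)
        exact ⟨ρ, fun _ => ⟨h1, fun h => absurd h hpg, fun _ => h2⟩⟩
    · exact ⟨0, fun h => absurd h hp⟩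
  choose ρ hρ using hex
  obtain ⟨r, hr⟩ := Nat.chineseRemainderOfFinset ρ (fun p => p) (PW X S ps)
    (fun p hp => (mem_PW.1 hp).2.1.ne_zero)
    (fun p hp q hq hpq => (Nat.coprime_primes (mem_PW.1 (by simpa using hp)).2.1
      (mem_PW.1 (by simpa using hq)).2.1).2 hpq)
  have hrc : r.Coprime (WW X S ps) := by
    unfold WW
    rw [Nat.coprime_prod_right_iff]
    intro p hp
    have hpp := (mem_PW.1 hp).2.1
    rw [Nat.coprime_comm, Nat.Prime.coprime_iff_not_dvd hpp]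
    intro hd
    apply (hρ p hp).1
    exact (Nat.modEq_zero_iff_dvd).1 ((hr p hp).symm.trans ((Nat.modEq_zero_iff_dvd).2 hd))
  obtain ⟨n, hnp, hXn, hn3, hnb, hnr, hU⟩ := htX ps S hps hBV U0 hU0c α β (fun z hz => hne z (hU0 hz))
    (fun z hz => hle z (hU0 hz)) (fun k hk l hl => hdet k (hU0 hk) l (hU0 hl)) g hg0
    (hgD.trans (pow_le_pow_left₀ (by linarith) hLX D)) r hrc bad hbad
  refine ⟨n, hnp, hXn, hn3, hnb, ?_, fun z hz => ?_⟩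
  · apply modEq_of_primes hd
    intro p hp
    have hpp := Nat.prime_of_mem_primeFactors hp
    have hpd := Nat.dvd_of_mem_primeFactors hp
    have hd0 : 0 < d := Nat.pos_of_ne_zero hd.ne_zero
    have hpled : p ≤ d := Nat.le_of_dvd hd0 hpd
    have hpPW := small_mem_PW hLd hL2d hps le_rfl hS hpp (hpled.trans (le_max_right 2 d))
    have h1 := hr p hpPW
    have h2 : ρ p = u p := (hρ p hpPW).2.1 (hpd.trans hdg)
    have h3 : u p = h := by simp only [hu]; rw [if_pos hpd]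
    rw [h2, h3] at h1
    exact (hnr.of_dvd ((prime_dvd_WW hpp).2 hpPW)).trans h1
  · by_cases hzU : z ∈ U0
    · exact hU z hzU
    · obtain ⟨p, hp, hpg, hpz⟩ := hcov' z hz hzU
      have hpp := (mem_PW.1 hp).2.1
      refine ⟨p, hpp, le_rpow_of_le_yy hX0 (by linarith) (mem_PW.1 hp).1, hpg, ?_⟩
      apply (hρ p hp).2.2 hpg z n hpz
      exact Nat.modEq_iff_dvd.1 (((hnr.of_dvd ((prime_dvd_WW hpp).2 hp)).trans (hr p hp)).symm)

end Pool.Agent.TH101.RG
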