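import Pool.Agent.TH101.RG.FamT
import Pool.Agent.TH101.RG.CovZ
import Pool.Agent.Helper923.HMertens

set_option autoImplicit false
set_option maxHeartbeats 4000000

/-! # Averages of `n / φ(n)` along exponential sequences (Romanoff) -/

namespace Pool.Agent.TH101.RG

open Finset Filter
open Pool.Agent.H318R2.Cr (cz_bounds Pz mem_Pz one_sub_inv_pos V V_pos)

open scoped Classical

/-- a prime `p ≥ 3` divides at most `L / log₂ p + 1` of the values `2^l u ± 1`, `1 ≤ l ≤ L` -/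
theorem card_pow_dvd (p : ℕ) (hp3 : 3 ≤ p) (u σ : ℤ) (hσ : σ = 1 ∨ σ = -1) (L : ℕ) :
    (((Icc 1 L).filter (fun l : ℕ => (p : ℤ) ∣ 2 ^ l * u + σ)).card : ℝ) ≤
      (L : ℝ) / (Nat.log 2 p : ℕ) + 1 := by
  set G := Nat.log 2 p with hG
  have hG1 : 1 ≤ G := by
    rw [hG]
    exact Nat.log_pos (by norm_num) (by omega)
  have hGp : 2 ^ G ≤ p := Nat.pow_log_le_self 2 (by omega)
  have hlt : ∀ l l' : ℕ, l < l' → (p : ℤ) ∣ 2 ^ l * u + σ → (p : ℤ) ∣ 2 ^ l' * u + σ → G < l' - l := by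
    intro l l' hll h1 h2
    obtain ⟨e, rfl⟩ := Nat.exists_eq_add_of_lt hll
    have h3 : (p : ℤ) ∣ (2 ^ (e + 1) * (2 ^ l * u + σ)) - (2 ^ (l + e + 1) * u + σ) :=
      dvd_sub (h1.mul_left _) h2
    have h4 : (2 : ℤ) ^ (e + 1) * (2 ^ l * u + σ) - (2 ^ (l + e + 1) * u + σ) = σ * (2 ^ (e + 1) - 1) := by
      ring
    rw [h4] at h3
    have h5 : (p : ℤ) ∣ 2 ^ (e + 1) - 1 := by
      rcases hσ with h | h
      · rwa [h, one_mul] at h3
      · rw [h, neg_one_mul, dvd_neg] at h3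
        exact h3
    have h6 : (0 : ℤ) < 2 ^ (e + 1) - 1 := by
      have : (1 : ℤ) < 2 ^ (e + 1) := one_lt_pow₀ (by norm_num) (by omega)
      linarith
    have h7 := Int.le_of_dvd h6 h5
    have h8 : p < 2 ^ (e + 1) := by
      have : (p : ℤ) < 2 ^ (e + 1) := by linarith
      exact_mod_cast this
    have h9 : 2 ^ G < 2 ^ (e + 1) := lt_of_le_of_lt hGp h8
    have h10 := (Nat.pow_lt_pow_iff_right (by norm_num : 1 < 2)).1 h9
    omega
  have hcard : ((Icc 1 L).filter (fun l : ℕ => (p : ℤ) ∣ 2 ^ l * u + σ)).card ≤ L / G + 1 := by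
    rw [← card_range (L / G + 1)]
    apply card_le_card_of_injOn (fun l => l / G)
    · intro l hl
      rw [mem_coe, mem_filter, mem_Icc] at hl
      rw [mem_coe, mem_range]
      exact Nat.lt_succ_of_le (Nat.div_le_div_right hl.1.2)
    · intro l hl l' hl' h
      rw [mem_coe, mem_filter, mem_Icc] at hl hl'
      simp only at h
      by_contra hne
      rcases Nat.lt_or_gt_of_ne hne with h1 | h1
      · have h2 := hlt l l' h1 hl.2 hl'.2
        have h3 := Nat.div_add_mod l G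
        have h4 := Nat.div_add_mod l' G
        have h5 := Nat.mod_lt l (show 0 < G by omega)
        have h6 := Nat.mod_lt l' (show 0 < G by omega)
        rw [h] at h3
        omega
      · have h2 := hlt l' l h1 hl'.2 hl.2
        have h3 := Nat.div_add_mod l G
        have h4 := Nat.div_add_mod l' G
        have h5 := Nat.mod_lt l (show 0 < G by omega)
        have h6 := Nat.mod_lt l' (show 0 < G by omega)
        rw [h] at h3
        omega
  have h1 : (((Icc 1 L).filter (fun l : ℕ => (p : ℤ) ∣ 2 ^ l * u + σ)).card : ℝ) ≤ ((L / G + 1 : ℕ) : ℝ) := by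
    exact_mod_cast hcard
  refine h1.trans ?_
  push_cast
  have := @Nat.cast_div_le ℝ _ _ _ L G
  linarith

/-- the sum of `1 / (p log₂ p)` over the primes `p > P₀` is small -/
theorem sum_inv_log (δ : ℝ) (hδ : 0 < δ) : ∃ P₀ : ℕ, 2 ≤ P₀ ∧ ∀ Z : ℕ,
    ∑ p ∈ (Ioc P₀ Z).filter Nat.Prime, 1 / (p : ℝ) / (Nat.log 2 p : ℕ) ≤ δ := by
  obtain ⟨C, hC, hM⟩ := Pool.Agent.Helper923.HMertens.mertens_ratio
  have hl2 : 0 < Real.log 2 := Real.log_pos (by norm_num)
  have hl21 : Real.log 2 ≤ 1 := by have := Real.log_two_lt_d9; linarith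
  set M := 1 + C / Real.log 2 with hMd
  have hM0 : 0 < M := by positivity
  have hblock : ∀ i : ℕ, ∑ p ∈ (Ioc (2 ^ 2 ^ i) (2 ^ 2 ^ (i + 1))).filter Nat.Prime,
      1 / (p : ℝ) / (Nat.log 2 p : ℕ) ≤ M / 2 ^ i := by
    intro i
    have h2i : 1 ≤ 2 ^ i := Nat.one_le_two_pow
    have ha : 2 ≤ 2 ^ 2 ^ i := by
      calc 2 = 2 ^ 1 := by norm_num
        _ ≤ 2 ^ 2 ^ i := Nat.pow_le_pow_right (by norm_num) h2i
    have hab : 2 ^ 2 ^ i ≤ 2 ^ 2 ^ (i + 1) :=
      Nat.pow_le_pow_right (by norm_num) (Nat.pow_le_pow_right (by norm_num) (by omega))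
    have h1 := (abs_le.1 (hM _ _ ha hab)).2
    have h3 : Real.log ((2 ^ 2 ^ i : ℕ) : ℝ) = 2 ^ i * Real.log 2 := by
      push_cast
      rw [Real.log_pow]
      push_cast
      ring
    have h3' : Real.log ((2 ^ 2 ^ (i + 1) : ℕ) : ℝ) = 2 ^ (i + 1) * Real.log 2 := by
      push_cast
      rw [Real.log_pow]
      push_cast
      ring
    rw [h3, h3'] at h1
    have h2i' : (1 : ℝ) ≤ 2 ^ i := by exact_mod_cast h2i
    have h4 : (2 : ℝ) ^ (i + 1) * Real.log 2 / (2 ^ i * Real.log 2) = 2 := by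
      rw [pow_succ]
      field_simp
    rw [h4] at h1
    have h5 : C / (2 ^ i * Real.log 2) ≤ C / Real.log 2 := by
      apply div_le_div_of_nonneg_left hC hl2
      nlinarith
    have h6 : ∑ p ∈ (Ioc (2 ^ 2 ^ i) (2 ^ 2 ^ (i + 1))).filter Nat.Prime, 1 / (p : ℝ) ≤ M := by
      rw [hMd]
      linarith
    calc ∑ p ∈ (Ioc (2 ^ 2 ^ i) (2 ^ 2 ^ (i + 1))).filter Nat.Prime, 1 / (p : ℝ) / (Nat.log 2 p : ℕ)
        ≤ ∑ p ∈ (Ioc (2 ^ 2 ^ i) (2 ^ 2 ^ (i + 1))).filter Nat.Prime, 1 / (p : ℝ) / 2 ^ i := by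
          apply sum_le_sum
          intro p hp
          rw [mem_filter, mem_Ioc] at hp
          have h7 : 2 ^ i ≤ Nat.log 2 p := by
            exact Nat.le_log_of_pow_le (by norm_num) hp.1.1.le
          apply div_le_div_of_nonneg_left (by positivity) (by positivity)
          exact_mod_cast h7
      _ = (∑ p ∈ (Ioc (2 ^ 2 ^ i) (2 ^ 2 ^ (i + 1))).filter Nat.Prime, 1 / (p : ℝ)) / 2 ^ i := by
          rw [sum_div]
      _ ≤ M / 2 ^ i := by gcongr
  obtain ⟨i₀, hi₀⟩ : ∃ i₀ : ℕ, 2 * M / δ < 2 ^ i₀ := pow_unbounded_of_one_lt _ (by norm_num)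
  have hind : ∀ n : ℕ, ∑ p ∈ (Ioc (2 ^ 2 ^ i₀) (2 ^ 2 ^ (i₀ + n))).filter Nat.Prime,
      1 / (p : ℝ) / (Nat.log 2 p : ℕ) ≤ M * (2 / 2 ^ i₀) * (1 - 1 / 2 ^ n) := by
    intro n
    induction n with
    | zero => simp
    | succ n ih =>
      have h1 : Ioc (2 ^ 2 ^ i₀) (2 ^ 2 ^ (i₀ + (n + 1))) =
          Ioc (2 ^ 2 ^ i₀) (2 ^ 2 ^ (i₀ + n)) ∪ Ioc (2 ^ 2 ^ (i₀ + n)) (2 ^ 2 ^ (i₀ + n + 1)) := by
        rw [Ioc_union_Ioc_eq_Ioc]
        · rfl
        · exact Nat.pow_le_pow_right (by norm_num) (Nat.pow_le_pow_right (by norm_num) (by omega))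
        · exact Nat.pow_le_pow_right (by norm_num) (Nat.pow_le_pow_right (by norm_num) (by omega))
      rw [h1, filter_union]
      have hui := sum_union_inter (s₁ := (Ioc (2 ^ 2 ^ i₀) (2 ^ 2 ^ (i₀ + n))).filter Nat.Prime)
        (s₂ := (Ioc (2 ^ 2 ^ (i₀ + n)) (2 ^ 2 ^ (i₀ + n + 1))).filter Nat.Prime)
        (f := fun p : ℕ => 1 / (p : ℝ) / (Nat.log 2 p : ℕ))
      have hui0 : 0 ≤ ∑ p ∈ (Ioc (2 ^ 2 ^ i₀) (2 ^ 2 ^ (i₀ + n))).filter Nat.Prime ∩
          (Ioc (2 ^ 2 ^ (i₀ + n)) (2 ^ 2 ^ (i₀ + n + 1))).filter Nat.Prime,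
          1 / (p : ℝ) / (Nat.log 2 p : ℕ) := sum_nonneg fun i _ => by positivity
      have h2 := hblock (i₀ + n)
      have h3 : M * (2 / 2 ^ i₀) * (1 - 1 / 2 ^ (n + 1)) =
          M * (2 / 2 ^ i₀) * (1 - 1 / 2 ^ n) + M / 2 ^ (i₀ + n) := by
        rw [pow_add, pow_succ]
        field_simp
        ring
      rw [h3]
      linarith
  refine ⟨2 ^ 2 ^ i₀, ?_, fun Z => ?_⟩
  · calc 2 = 2 ^ 1 := by norm_num
      _ ≤ 2 ^ 2 ^ i₀ := Nat.pow_le_pow_right (by norm_num) Nat.one_le_two_pow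
  · have hZ : Z ≤ 2 ^ 2 ^ (i₀ + Z) := by
      have h1 : Z < 2 ^ Z := Nat.lt_two_pow_self
      have h2 : i₀ + Z < 2 ^ (i₀ + Z) := Nat.lt_two_pow_self
      calc Z ≤ 2 ^ Z := h1.le
        _ ≤ 2 ^ 2 ^ (i₀ + Z) := Nat.pow_le_pow_right (by norm_num) (by omega)
    calc ∑ p ∈ (Ioc (2 ^ 2 ^ i₀) Z).filter Nat.Prime, 1 / (p : ℝ) / (Nat.log 2 p : ℕ)
        ≤ ∑ p ∈ (Ioc (2 ^ 2 ^ i₀) (2 ^ 2 ^ (i₀ + Z))).filter Nat.Prime, 1 / (p : ℝ) / (Nat.log 2 p : ℕ) := by
          apply sum_le_sum_of_subset_of_nonneg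
          · apply filter_subset_filter
            exact Ioc_subset_Ioc_right hZ
          · intro i _ _
            positivity
      _ ≤ M * (2 / 2 ^ i₀) * (1 - 1 / 2 ^ Z) := hind Z
      _ ≤ M * (2 / 2 ^ i₀) * 1 := by
          gcongr
          have : (0 : ℝ) ≤ 1 / 2 ^ Z := by positivity
          linarith
      _ ≤ δ := by
          rw [div_lt_iff₀ hδ] at hi₀
          rw [mul_one, ← mul_div_assoc, div_le_iff₀ (by positivity)]
          linarith

/-- `n / φ(n)` in terms of the primes beyond `P` -/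
theorem ratio_le_exp (n : ℕ) (hn : n ≠ 0) (P : ℕ) :
    (n : ℝ) / (n.totient : ℝ) ≤ (V P)⁻¹ *
      Real.exp (2 * ∑ p ∈ n.primeFactors.filter (fun p => P < p), 1 / (p : ℝ)) := by
  rw [← prod_inv_primeFactors n hn]
  have h1 : ∏ p ∈ n.primeFactors, (1 - 1 / (p : ℝ))⁻¹ =
      (∏ p ∈ n.primeFactors.filter (fun p => P < p), (1 - 1 / (p : ℝ))⁻¹) *
      ∏ p ∈ n.primeFactors.filter (fun p => ¬ P < p), (1 - 1 / (p : ℝ))⁻¹ :=
    (prod_filter_mul_prod_filter_not _ _ _).symm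
  rw [h1, mul_comm]
  have h2 : ∏ p ∈ n.primeFactors.filter (fun p => ¬ P < p), (1 - 1 / (p : ℝ))⁻¹ ≤ (V P)⁻¹ := by
    unfold V
    rw [← prod_inv_distrib]
    apply prod_mono_real
    · intro p hp
      rw [mem_filter] at hp
      rw [mem_Pz]
      exact ⟨Nat.prime_of_mem_primeFactors hp.1, by omega⟩
    · intro p hp
      exact inv_ge_one (mem_Pz.1 hp).1
  have h3 := inv_prod_le (n.primeFactors.filter (fun p => P < p))
    (fun q hq => Nat.prime_of_mem_primeFactors (mem_filter.1 hq).1) _ le_rfl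
  apply mul_le_mul h2 h3
  · apply prod_nonneg
    intro p hp
    exact inv_nonneg.2 (one_sub_inv_pos (Nat.prime_of_mem_primeFactors (mem_filter.1 hp).1)).le
  · exact inv_nonneg.2 (V_pos P).le

/-- Romanoff: `∑_{l ≤ L} a_l / φ(a_l) = o(log X loglog X)` for `L ≤ D log X` when every prime
`p ≥ 3` divides few of the `a_l` -/
theorem romanoff (K D : ℕ) (ε : ℝ) (hε : 0 < ε) : ∀ᶠ X : ℝ in atTop, ∀ L : ℕ,
    (L : ℝ) ≤ D * Real.log X → ∀ a : ℕ → ℕ,
    (∀ l ∈ Icc 1 L, a l ≠ 0 ∧ Real.log (a l) ≤ (Real.log X) ^ 2 / 2) →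
    (∀ p : ℕ, p.Prime → 3 ≤ p → (((Icc 1 L).filter (fun l => p ∣ a l)).card : ℝ) ≤
      K * ((L : ℝ) / (Nat.log 2 p : ℕ) + 1)) →
    ∑ l ∈ Icc 1 L, (a l : ℝ) / ((a l).totient : ℝ) ≤ ε * (Real.log X * Real.log (Real.log X)) := by
  obtain ⟨c₁, c₂, hc₁, -, hcz⟩ := cz_bounds
  set δ := ε * c₁ / (12 * Real.exp 4 * (K * D + 1)) with hδ
  have hδ0 : 0 < δ := by positivity
  obtain ⟨P₀, hP₀, hsum⟩ := sum_inv_log δ hδ0
  set C₀ := (V P₀)⁻¹ * Real.exp 6 with hC₀
  have hC₀0 : 0 < C₀ := mul_pos (inv_pos.2 (V_pos P₀)) (Real.exp_pos _)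
  have t1 := Real.tendsto_log_atTop
  have t2 : Tendsto (fun y : ℝ => Real.log (Real.log y)) atTop atTop := t1.comp t1
  filter_upwards [t2.eventually_ge_atTop (3 * C₀ * D / ε + 1), t1.eventually_ge_atTop 4,
    t1.eventually (Real.isLittleO_log_id_atTop.bound
      (show 0 < ε * c₁ / (3 * 2 * Real.exp 4 * (K + 1) * 3) by positivity))]
    with X hLL1 hL4 hlo
  intro L hLD a ha hcard
  set W := Real.log X with hW
  have hW0 : 0 < W := by linarith
  have hLL0 : 0 < Real.log W := by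
    have : 0 ≤ 3 * C₀ * D / ε := by positivity
    linarith
  have hLLge : 1 ≤ Real.log W := by
    have : 0 ≤ 3 * C₀ * D / ε := by positivity
    linarith
  set z := ⌊W ^ 2⌋₊ with hz
  have hzW : (z : ℝ) ≤ W ^ 2 := Nat.floor_le (by positivity)
  have hz16 : 16 ≤ z := Nat.le_floor (by push_cast; nlinarith)
  have hzR : (16 : ℝ) ≤ z := by exact_mod_cast hz16
  have hzlt : W ^ 2 < z + 1 := Nat.lt_floor_add_one _
  have hlogz : Real.log z ≤ 2 * Real.log W := by
    have h1 : Real.log z ≤ Real.log (W ^ 2) := Real.log_le_log (by linarith) hzW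
    rw [Real.log_pow] at h1
    exact_mod_cast h1
  have hlogz0 : 0 < Real.log z := Real.log_pos (by linarith)
  -- the tails
  have hT : ∀ l ∈ Icc 1 L, ∑ p ∈ (a l).primeFactors.filter (fun p => z < p), 1 / (p : ℝ) ≤ 1 := by
    intro l hl
    obtain ⟨h1, h2⟩ := ha l hl
    have h3 : ∑ p ∈ (a l).primeFactors.filter (fun p => z < p), 1 / (p : ℝ) ≤
        ∑ p ∈ (a l).primeFactors.filter (fun p => z < p), 1 / (W ^ 2) := by
      apply sum_le_sum
      intro p hp
      rw [mem_filter] at hp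
      apply one_div_le_one_div_of_le (by positivity)
      have : (z : ℝ) + 1 ≤ p := by exact_mod_cast hp.2
      linarith
    refine h3.trans ?_
    rw [sum_const, nsmul_eq_mul]
    have h4 : (((a l).primeFactors.filter (fun p => z < p)).card : ℝ) ≤ 2 * Real.log (a l) := by
      refine le_trans ?_ (Pool.Agent.H398R2.RK.card_primeFactors_le (a l) (Nat.pos_of_ne_zero h1))
      exact_mod_cast card_filter_le _ _
    rw [mul_one_div, div_le_one (by positivity)]
    linarith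
  set Y : ℕ → ℝ := fun l => ∑ p ∈ (a l).primeFactors.filter (fun p => P₀ < p ∧ p ≤ z), 1 / (p : ℝ) with hY
  have hY0 : ∀ l, 0 ≤ Y l := fun l => sum_nonneg fun p _ => by positivity
  -- the pointwise bounds
  have hgood : ∀ l ∈ Icc 1 L, Y l ≤ 1 → (a l : ℝ) / ((a l).totient : ℝ) ≤ C₀ := by
    intro l hl hYl
    refine (ratio_le_exp (a l) (ha l hl).1 P₀).trans ?_
    rw [hC₀]
    have h1 : ∑ p ∈ (a l).primeFactors.filter (fun p => P₀ < p), 1 / (p : ℝ) ≤
        Y l + ∑ p ∈ (a l).primeFactors.filter (fun p => z < p), 1 / (p : ℝ) := by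
      have hui := sum_union_inter (s₁ := (a l).primeFactors.filter (fun p => P₀ < p ∧ p ≤ z))
        (s₂ := (a l).primeFactors.filter (fun p => z < p)) (f := fun p : ℕ => 1 / (p : ℝ))
      have hui0 : 0 ≤ ∑ p ∈ (a l).primeFactors.filter (fun p => P₀ < p ∧ p ≤ z) ∩
        (a l).primeFactors.filter (fun p => z < p), 1 / (p : ℝ) := sum_nonneg fun i _ => by positivity
      have h2 : ∑ p ∈ (a l).primeFactors.filter (fun p => P₀ < p), 1 / (p : ℝ) ≤
          ∑ p ∈ (a l).primeFactors.filter (fun p => P₀ < p ∧ p ≤ z) ∪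
            (a l).primeFactors.filter (fun p => z < p), 1 / (p : ℝ) := by
        apply sum_le_sum_of_subset_of_nonneg
        · intro p hp
          rw [mem_filter] at hp
          rw [mem_union, mem_filter, mem_filter]
          by_cases h : p ≤ z
          · exact Or.inl ⟨hp.1, hp.2, h⟩
          · exact Or.inr ⟨hp.1, by omega⟩
        · intro i _ _
          positivity
      linarith
    have h2 := hT l hl
    apply mul_le_mul_of_nonneg_left _ (inv_nonneg.2 (V_pos P₀).le)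
    apply Real.exp_le_exp.2
    linarith
  have hbadp : ∀ l ∈ Icc 1 L, (a l : ℝ) / ((a l).totient : ℝ) ≤ 2 * Real.log W / c₁ * Real.exp 4 := by
    intro l hl
    refine (ratio_le_exp (a l) (ha l hl).1 z).trans ?_
    have h1 := (hcz z (by omega)).1
    have h2 : (V z)⁻¹ ≤ 2 * Real.log W / c₁ := by
      rw [inv_le_comm₀ (V_pos z) (by positivity), inv_div, div_le_iff₀ (by positivity)]
      have h3 := V_pos z
      nlinarith
    have h3 := hT l hl
    have h4 : Real.exp (2 * ∑ p ∈ (a l).primeFactors.filter (fun p => z < p), 1 / (p : ℝ)) ≤ Real.exp 4 :=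
      Real.exp_le_exp.2 (by linarith)
    exact mul_le_mul h2 h4 (Real.exp_pos _).le (by positivity)
  -- Markov
  have hMk : (((Icc 1 L).filter (fun l => ¬ Y l ≤ 1)).card : ℝ) ≤ K * (L * δ + (1 + Real.log z)) := by
    have h1 : (((Icc 1 L).filter (fun l => ¬ Y l ≤ 1)).card : ℝ) ≤ ∑ l ∈ Icc 1 L, Y l := by
      calc (((Icc 1 L).filter (fun l => ¬ Y l ≤ 1)).card : ℝ)
          = ∑ l ∈ (Icc 1 L).filter (fun l => ¬ Y l ≤ 1), (1 : ℝ) := by simp
        _ ≤ ∑ l ∈ (Icc 1 L).filter (fun l => ¬ Y l ≤ 1), Y l := by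
            apply sum_le_sum
            intro l hl
            rw [mem_filter] at hl
            linarith [not_le.1 hl.2]
        _ ≤ ∑ l ∈ Icc 1 L, Y l :=
            sum_le_sum_of_subset_of_nonneg (filter_subset _ _) fun i _ _ => hY0 i
    refine h1.trans ?_
    have h2 : ∑ l ∈ Icc 1 L, Y l = ∑ p ∈ (Ioc P₀ z).filter Nat.Prime,
        1 / (p : ℝ) * (((Icc 1 L).filter (fun l => p ∣ a l)).card : ℝ) := by
      have h3 : ∀ l ∈ Icc 1 L, Y l = ∑ p ∈ (Ioc P₀ z).filter Nat.Prime,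
          (if p ∣ a l then 1 / (p : ℝ) else 0) := by
        intro l hl
        rw [hY, ← sum_filter]
        simp only
        apply sum_congr _ fun _ _ => rfl
        ext p
        rw [mem_filter, mem_filter, mem_filter, mem_Ioc, Nat.mem_primeFactors]
        constructor
        · rintro ⟨⟨h4, h5, h6⟩, h7, h8⟩
          exact ⟨⟨⟨h7, h8⟩, h4⟩, h5⟩
        · rintro ⟨⟨⟨h7, h8⟩, h4⟩, h5⟩
          exact ⟨⟨h4, h5, (ha l hl).1⟩, h7, h8⟩
      rw [sum_congr rfl h3, sum_comm]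
      apply sum_congr rfl
      intro p _
      rw [← sum_filter, sum_const, nsmul_eq_mul, mul_comm]
    rw [h2]
    calc ∑ p ∈ (Ioc P₀ z).filter Nat.Prime, 1 / (p : ℝ) * (((Icc 1 L).filter (fun l => p ∣ a l)).card : ℝ)
        ≤ ∑ p ∈ (Ioc P₀ z).filter Nat.Prime, (K * (L * (1 / (p : ℝ) / (Nat.log 2 p : ℕ)) + 1 / (p : ℝ))) := by
          apply sum_le_sum
          intro p hp
          rw [mem_filter, mem_Ioc] at hp
          have h4 := hcard p hp.2 (by omega)
          have h5 : (0 : ℝ) ≤ 1 / (p : ℝ) := by positivity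
          calc 1 / (p : ℝ) * (((Icc 1 L).filter (fun l => p ∣ a l)).card : ℝ)
              ≤ 1 / (p : ℝ) * (K * ((L : ℝ) / (Nat.log 2 p : ℕ) + 1)) :=
                mul_le_mul_of_nonneg_left h4 h5
            _ = K * (L * (1 / (p : ℝ) / (Nat.log 2 p : ℕ)) + 1 / (p : ℝ)) := by ring
      _ = K * (L * ∑ p ∈ (Ioc P₀ z).filter Nat.Prime, 1 / (p : ℝ) / (Nat.log 2 p : ℕ) +
            ∑ p ∈ (Ioc P₀ z).filter Nat.Prime, 1 / (p : ℝ)) := by
          rw [← mul_sum, sum_add_distrib, ← mul_sum]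
      _ ≤ K * (L * δ + (1 + Real.log z)) := by
          gcongr
          · exact hsum z
          · calc ∑ p ∈ (Ioc P₀ z).filter Nat.Prime, 1 / (p : ℝ) ≤ ∑ p ∈ Icc 1 z, 1 / (p : ℝ) := by
                  apply sum_le_sum_of_subset_of_nonneg
                  · intro p hp
                    rw [mem_filter, mem_Ioc] at hp
                    rw [mem_Icc]
                    omega
                  · intro i _ _
                    positivity
              _ ≤ 1 + Real.log z := by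
                  have := harmonic_le_one_add_log z
                  rw [harmonic_eq_sum_Icc] at this
                  push_cast at this
                  simpa only [one_div] using this
  -- conclusion
  rw [← sum_filter_add_sum_filter_not (Icc 1 L) (fun l => Y l ≤ 1)]
  have hA : ∑ l ∈ (Icc 1 L).filter (fun l => Y l ≤ 1), (a l : ℝ) / ((a l).totient : ℝ) ≤
      C₀ * (D * W) := by
    calc ∑ l ∈ (Icc 1 L).filter (fun l => Y l ≤ 1), (a l : ℝ) / ((a l).totient : ℝ)
        ≤ ∑ l ∈ (Icc 1 L).filter (fun l => Y l ≤ 1), C₀ := by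
          apply sum_le_sum
          intro l hl
          rw [mem_filter] at hl
          exact hgood l hl.1 hl.2
      _ = (((Icc 1 L).filter (fun l => Y l ≤ 1)).card : ℝ) * C₀ := by rw [sum_const, nsmul_eq_mul]
      _ ≤ (L : ℝ) * C₀ := by
          gcongr
          calc ((Icc 1 L).filter (fun l => Y l ≤ 1)).card ≤ (Icc 1 L).card := card_filter_le _ _
            _ = L := by simp
      _ ≤ C₀ * (D * W) := by
          rw [mul_comm]
          gcongr
  have hB : ∑ l ∈ (Icc 1 L).filter (fun l => ¬ Y l ≤ 1), (a l : ℝ) / ((a l).totient : ℝ) ≤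
      K * (D * W * δ + 3 * Real.log W) * (2 * Real.log W / c₁ * Real.exp 4) := by
    calc ∑ l ∈ (Icc 1 L).filter (fun l => ¬ Y l ≤ 1), (a l : ℝ) / ((a l).totient : ℝ)
        ≤ ∑ l ∈ (Icc 1 L).filter (fun l => ¬ Y l ≤ 1), (2 * Real.log W / c₁ * Real.exp 4) := by
          apply sum_le_sum
          intro l hl
          rw [mem_filter] at hl
          exact hbadp l hl.1
      _ = (((Icc 1 L).filter (fun l => ¬ Y l ≤ 1)).card : ℝ) * (2 * Real.log W / c₁ * Real.exp 4) := by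
          rw [sum_const, nsmul_eq_mul]
      _ ≤ K * (D * W * δ + 3 * Real.log W) * (2 * Real.log W / c₁ * Real.exp 4) := by
          apply mul_le_mul_of_nonneg_right _ (by positivity)
          refine hMk.trans ?_
          gcongr
          linarith
  have h1 : C₀ * (D * W) ≤ ε / 3 * (W * Real.log W) := by
    have h2 : 3 * C₀ * D ≤ ε * Real.log W := by
      have h3 : 3 * C₀ * D / ε ≤ Real.log W := by linarith
      rw [div_le_iff₀ hε] at h3
      linarith
    nlinarith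
  have hK0 : (0 : ℝ) ≤ K := Nat.cast_nonneg K
  have hD0 : (0 : ℝ) ≤ D := Nat.cast_nonneg D
  have h2 : K * (D * W * δ) * (2 * Real.log W / c₁ * Real.exp 4) ≤ ε / 3 * (W * Real.log W) := by
    have h3 : K * (D * W * δ) * (2 * Real.log W / c₁ * Real.exp 4) =
        ε / 6 * ((K * D) / (K * D + 1)) * (W * Real.log W) := by
      rw [hδ]
      field_simp
      ring
    rw [h3]
    have h4 : ((K : ℝ) * D) / (K * D + 1) ≤ 1 := by
      rw [div_le_one (by positivity)]
      linarith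
    have h5 : 0 < W * Real.log W := by positivity
    have h6 : ε / 6 * (((K : ℝ) * D) / (K * D + 1)) ≤ ε / 3 := by nlinarith
    exact mul_le_mul_of_nonneg_right h6 h5.le
  have h3 : K * (3 * Real.log W) * (2 * Real.log W / c₁ * Real.exp 4) ≤ ε / 3 * (W * Real.log W) := by
    rw [Real.norm_eq_abs, id_eq, Real.norm_eq_abs, abs_of_pos hLL0, abs_of_pos hW0] at hlo
    have h4 : K * (3 * Real.log W) * (2 * Real.log W / c₁ * Real.exp 4) ≤
        K * (3 * (ε * c₁ / (3 * 2 * Real.exp 4 * (K + 1) * 3) * W)) * (2 * Real.log W / c₁ * Real.exp 4) := by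
      gcongr
    refine h4.trans ?_
    have h5 : K * (3 * (ε * c₁ / (3 * 2 * Real.exp 4 * (K + 1) * 3) * W)) * (2 * Real.log W / c₁ * Real.exp 4) =
        ε / 3 * ((K : ℝ) / (K + 1)) * (W * Real.log W) := by
      field_simp
    rw [h5]
    have h6 : (K : ℝ) / (K + 1) ≤ 1 := by
      rw [div_le_one (by positivity)]
      linarith
    have h7 : 0 < W * Real.log W := by positivity
    have h8 : ε / 3 * ((K : ℝ) / (K + 1)) ≤ ε / 3 := by nlinarith
    exact mul_le_mul_of_nonneg_right h8 h7.le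
  have h4 : K * (D * W * δ + 3 * Real.log W) * (2 * Real.log W / c₁ * Real.exp 4) =
      K * (D * W * δ) * (2 * Real.log W / c₁ * Real.exp 4) +
      K * (3 * Real.log W) * (2 * Real.log W / c₁ * Real.exp 4) := by ring
  rw [h4] at hB
  linarith

end Pool.Agent.TH101.RG
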