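import Pool.Agent.TH101.RG.Orb

set_option autoImplicit false
set_option maxHeartbeats 4000000

/-! # Cunningham orbits without primes at clusters of primes -/

namespace Pool.Agent.TH101.RG

open Finset Filter
open Pool.Agent.H362R2.RQ (fib)

open scoped Classical

/-- the form `2^l (n + t + s) - s` -/
def orb (t : ℕ) (s : ℤ) (l : ℕ) : ℤ × ℤ := (2 ^ l, 2 ^ l * (t + s) - s)

theorem orb_factor (l : ℕ) (hl : 1 ≤ l) (u s : ℤ) (hs : s = 1 ∨ s = -1) : (2 : ℤ) ^ l * u - s ≠ 0 := by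
  obtain ⟨e, rfl⟩ := Nat.exists_eq_add_of_le' hl
  intro h
  have h1 : (2 : ℤ) ^ (e + 1) * u = 2 * (2 ^ e * u) := by ring
  rw [h1] at h
  rcases hs with h2 | h2 <;> omega

theorem NT_orb {K : ℕ} (t : Fin K → ℕ) (j : Fin K) (s : ℤ) (l : ℕ) :
    NT t (orb (t j) s l) = 2 ^ l * ∏ i, (2 ^ l * ((t j : ℤ) - t i + s) - s) := by
  unfold NT orb
  simp only
  congr 1
  apply prod_congr rfl
  intro i _
  ring

/-- the weights of the orbit forms -/
theorem orb_weights (K D : ℕ) (ε : ℝ) (hε : 0 < ε) : ∀ᶠ X : ℝ in atTop, ∀ L : ℕ,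
    (L : ℝ) ≤ D * Real.log X → ∀ t : Fin K → ℕ, (∀ j, (t j : ℝ) ≤ (Real.log X) ^ 2) →
    ∀ s : ℤ, (s = 1 ∨ s = -1) → ∀ j : Fin K,
    ∑ l ∈ Icc 1 L, wT t (orb (t j) s l) ≤ ε * (Real.log X * Real.log (Real.log X)) := by
  have t1 := Real.tendsto_log_atTop
  filter_upwards [romanoff K D ε hε, t1.eventually_ge_atTop (2 * ((K + 1) * D + K) : ℝ),
    t1.eventually_ge_atTop 1, eventually_ge_atTop 4,
    t1.eventually (Pool.Agent.H378R2.ev_pow_exp 2 1 4 one_pos)] with X hR hLK hL1 hX4 hE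
  intro L hLD t ht s hs j
  have hX0 : 0 < X := by linarith
  set W := Real.log X with hW
  have hXW : 4 * W ^ 2 ≤ X := by
    rw [one_mul, hW, Real.exp_log hX0] at hE
    exact hE
  have hne : ∀ l ∈ Icc 1 L, NT t (orb (t j) s l) ≠ 0 := by
    intro l hl
    rw [NT_orb]
    exact mul_ne_zero (pow_ne_zero _ (by norm_num))
      (prod_ne_zero_iff.2 fun i _ => orb_factor l (mem_Icc.1 hl).1 _ s hs)
  have habs : |(s : ℝ)| = 1 := by
    rcases hs with h | h <;> rw [h] <;> norm_num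
  refine hR L hLD (fun l => (NT t (orb (t j) s l)).natAbs) ?_ ?_
  · intro l hl
    refine ⟨Int.natAbs_ne_zero.2 (hne l hl), ?_⟩
    have hlL : l ≤ L := (mem_Icc.1 hl).2
    have h2L : (2 : ℝ) ^ l ≤ X ^ (D : ℝ) := by
      have h1 : Real.log 2 ≤ 1 := by have := Real.log_two_lt_d9; linarith
      have h0 : 0 ≤ Real.log 2 := Real.log_nonneg (by norm_num)
      have h2 : (2 : ℝ) ^ l = Real.exp (Real.log 2 * l) := by
        rw [← Real.rpow_natCast, Real.rpow_def_of_pos (by norm_num)]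
      rw [h2, Real.rpow_def_of_pos hX0]
      apply Real.exp_le_exp.2
      have h3 : (l : ℝ) ≤ L := by exact_mod_cast hlL
      have h4 : (0 : ℝ) ≤ l := Nat.cast_nonneg l
      nlinarith
    have hfac : ∀ i, |((2 ^ l * ((t j : ℤ) - t i + s) - s : ℤ) : ℝ)| ≤ X ^ (D : ℝ) * X := by
      intro i
      push_cast
      have h1 : |(2 : ℝ) ^ l * ((t j : ℝ) - t i + s) - s| ≤ 2 ^ l * (W ^ 2 + 1) + 1 := by
        have h3 : |((t j : ℝ) - t i + s)| ≤ W ^ 2 + 1 := by
          have h4 := ht j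
          have h5 := ht i
          have h6 : (0 : ℝ) ≤ t j := Nat.cast_nonneg _
          have h7 : (0 : ℝ) ≤ t i := Nat.cast_nonneg _
          have h8 := abs_le.1 habs.le
          rw [abs_le]
          constructor <;> linarith [h8.1, h8.2]
        calc |(2 : ℝ) ^ l * ((t j : ℝ) - t i + s) - s|
            ≤ |(2 : ℝ) ^ l * ((t j : ℝ) - t i + s)| + |(s : ℝ)| := abs_sub _ _
          _ = 2 ^ l * |((t j : ℝ) - t i + s)| + 1 := by
              rw [abs_mul, habs, abs_of_pos (by positivity : (0 : ℝ) < 2 ^ l)]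
          _ ≤ 2 ^ l * (W ^ 2 + 1) + 1 := by gcongr
      refine h1.trans ?_
      have h9 : (1 : ℝ) ≤ 2 ^ l := one_le_pow₀ (by norm_num)
      have h10 : (1 : ℝ) ≤ W ^ 2 := by nlinarith
      calc (2 : ℝ) ^ l * (W ^ 2 + 1) + 1 ≤ 2 ^ l * (4 * W ^ 2) := by nlinarith
        _ ≤ X ^ (D : ℝ) * X := by gcongr
    have hlog : Real.log (((NT t (orb (t j) s l)).natAbs : ℕ) : ℝ) ≤ D * W + K * (D * W + W) := by
      have h1 : (((NT t (orb (t j) s l)).natAbs : ℕ) : ℝ) = |((NT t (orb (t j) s l) : ℤ) : ℝ)| := by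
        rw [Nat.cast_natAbs]
        push_cast
        rfl
      have h2 : |((NT t (orb (t j) s l) : ℤ) : ℝ)| ≤ X ^ (D : ℝ) * (X ^ (D : ℝ) * X) ^ K := by
        rw [NT_orb]
        push_cast
        rw [abs_mul, abs_prod, abs_of_pos (by positivity : (0 : ℝ) < 2 ^ l)]
        have h3 : ∏ i : Fin K, |(2 : ℝ) ^ l * ((t j : ℝ) - t i + s) - s| ≤ ∏ _i : Fin K, (X ^ (D : ℝ) * X) := by
          apply Finset.prod_le_prod
          · intro i _
            exact abs_nonneg _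
          · intro i _
            have := hfac i
            push_cast at this
            exact this
        rw [prod_const, card_univ, Fintype.card_fin] at h3
        exact mul_le_mul h2L h3 (prod_nonneg fun i _ => abs_nonneg _) (by positivity)
      rw [h1]
      have h4 : 0 < |((NT t (orb (t j) s l) : ℤ) : ℝ)| := abs_pos.2 (by exact_mod_cast hne l hl)
      refine (Real.log_le_log h4 h2).trans (le_of_eq ?_)
      rw [Real.log_mul (by positivity) (by positivity), Real.log_pow,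
        Real.log_mul (by positivity) (by positivity), Real.log_rpow hX0]
    refine hlog.trans ?_
    nlinarith
  · intro p hp hp3
    have h1 : (Icc 1 L).filter (fun l => p ∣ (NT t (orb (t j) s l)).natAbs) ⊆
        (univ : Finset (Fin K)).biUnion (fun i => (Icc 1 L).filter
          (fun l : ℕ => (p : ℤ) ∣ 2 ^ l * ((t j : ℤ) - t i + s) + (-s))) := by
      intro l hl
      rw [mem_filter] at hl
      have h2 : (p : ℤ) ∣ NT t (orb (t j) s l) := Int.natCast_dvd.2 hl.2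
      rw [NT_orb] at h2
      have hpp : Prime (p : ℤ) := Nat.prime_iff_prime_int.1 hp
      rcases hpp.dvd_or_dvd h2 with h3 | h3
      · exfalso
        have h4 : (p : ℤ) ∣ 2 := hpp.dvd_of_dvd_pow h3
        have h5 : p ∣ 2 := by exact_mod_cast h4
        have := Nat.le_of_dvd (by norm_num) h5
        omega
      · obtain ⟨i, -, hi⟩ := (Prime.dvd_finsetProd_iff hpp _).1 h3
        rw [mem_biUnion]
        exact ⟨i, mem_univ i, mem_filter.2 ⟨hl.1, by rwa [← sub_eq_add_neg]⟩⟩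
    have h2 : (((Icc 1 L).filter (fun l => p ∣ (NT t (orb (t j) s l)).natAbs)).card : ℝ) ≤
        ∑ i : Fin K, (((Icc 1 L).filter
          (fun l : ℕ => (p : ℤ) ∣ 2 ^ l * ((t j : ℤ) - t i + s) + (-s))).card : ℝ) := by
      have := (card_le_card h1).trans card_biUnion_le
      exact_mod_cast this
    refine h2.trans ?_
    calc ∑ i : Fin K, (((Icc 1 L).filter
          (fun l : ℕ => (p : ℤ) ∣ 2 ^ l * ((t j : ℤ) - t i + s) + (-s))).card : ℝ)
        ≤ ∑ _i : Fin K, ((L : ℝ) / (Nat.log 2 p : ℕ) + 1) := by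
          apply sum_le_sum
          intro i _
          apply card_pow_dvd p hp3
          rcases hs with h | h
          · right; rw [h]
          · left; rw [h]; norm_num
      _ = K * ((L : ℝ) / (Nat.log 2 p : ℕ) + 1) := by
          rw [sum_const, card_univ, Fintype.card_fin, nsmul_eq_mul]

theorem orbit_forms : ∃ η : ℝ, 0 < η ∧ ∀ m : ℕ, 1 ≤ m → ∃ K : ℕ, m ≤ K ∧
    ∀ (D J d : ℕ), Squarefree d → ∃ c : ℝ, 0 < c ∧ ∀ᶠ X : ℝ in atTop,
    ∀ t : Fin K → ℕ, Function.Injective t → (∀ j, (t j : ℝ) ≤ (Real.log X) ^ 2) →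
    (∀ p : ℕ, p.Prime → ∃ v : ℕ, ∀ j, ¬ p ∣ v + t j) →
    ∀ h : ℕ, (∀ j, (h + t j).Coprime d) →
    ∀ col : Fin K → Fin m, (∀ e, K ≤ 2 * m * fib col e) →
    ∀ Z : Finset (ℤ × ℤ),
    (∀ z ∈ Z, z.1 ≠ 0 ∧ (∀ j, z.2 ≠ z.1 * t j) ∧ |(z.1 : ℝ)| ≤ X ^ D ∧ |(z.2 : ℝ)| ≤ X ^ D) →
    ∑ z ∈ Z, wT t z ≤ c * (Real.log X * Real.log (Real.log X)) →
    ∀ bad : Finset ℕ, (bad.card : ℝ) ≤ X ^ (7 / 8 : ℝ) →
    ∃ n : ℕ, X < n ∧ (n : ℝ) ≤ 3 * X ∧ n ∉ bad ∧ n ≡ h [MOD d] ∧
      (∃ E : Finset (Fin m), η * m ≤ E.card ∧ ∀ e ∈ E, ∃ j, col j = e ∧ (n + t j).Prime) ∧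
      ∀ i : ℤ, 1 ≤ |i| → |i| ≤ J → ∀ q : ℕ, q.Prime →
        (∀ z ∈ Z, i * q ≠ z.1 * n + z.2) ∧
        ∀ j, ∀ l : ℕ, 1 ≤ l → (l : ℝ) ≤ D * Real.log X →
          i * q ≠ 2 ^ l * (n + t j + 1) - 1 ∧ i * q ≠ 2 ^ l * (n + t j - 1) + 1 := by
  obtain ⟨η, hη, h0⟩ := tuple_forms
  refine ⟨η, hη, fun m hm => ?_⟩
  obtain ⟨K, hmK, h1⟩ := h0 m hm
  refine ⟨K, hmK, fun D J d hd => ?_⟩
  obtain ⟨c, hc, h2⟩ := h1 (D + 1) J d hd
  have hK0 : (0 : ℝ) < K := by exact_mod_cast (by omega : 0 < K)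
  refine ⟨c / 2, by positivity, ?_⟩
  have t1 := Real.tendsto_log_atTop
  filter_upwards [h2, orb_weights K D (c / (4 * K)) (by positivity), t1.eventually_ge_atTop 1,
    eventually_ge_atTop 4, t1.eventually (Pool.Agent.H378R2.ev_pow_exp 2 1 4 one_pos)]
    with X hX hOW hL1 hX4 hE
  intro t htinj htl hadm h hh col hcol Z hZ hZw bad hbad
  have hX0 : 0 < X := by linarith
  set W := Real.log X with hW
  have hXW : 4 * W ^ 2 ≤ X := by
    rw [one_mul, hW, Real.exp_log hX0] at hE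
    exact hE
  set L := ⌊(D : ℝ) * W⌋₊ with hL
  have hLD : (L : ℝ) ≤ D * W := Nat.floor_le (by positivity)
  set I : Finset (Fin K × ℤ × ℕ) := univ ×ˢ ({1, -1} : Finset ℤ) ×ˢ Icc 1 L with hI
  set O : Finset (ℤ × ℤ) := I.image (fun x => orb (t x.1) x.2.1 x.2.2) with hO
  have hmemI : ∀ x ∈ I, (x.2.1 = 1 ∨ x.2.1 = -1) ∧ 1 ≤ x.2.2 ∧ x.2.2 ≤ L := by
    intro x hx
    rw [hI, mem_product, mem_product, mem_Icc] at hx
    exact ⟨by simpa using hx.2.1, hx.2.2⟩
  have hOw : ∑ z ∈ O, wT t z ≤ c / 2 * (W * Real.log W) := by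
    refine (sum_image_le'' I _ (wT t) (wT_nonneg t)).trans ?_
    rw [hI, sum_product]
    calc ∑ j : Fin K, ∑ y ∈ ({1, -1} : Finset ℤ) ×ˢ Icc 1 L, wT t (orb (t j) y.1 y.2)
        ≤ ∑ _j : Fin K, 2 * (c / (4 * K) * (W * Real.log W)) := by
          apply sum_le_sum
          intro j _
          rw [sum_product, sum_pair (by norm_num)]
          have h3 := hOW L hLD t htl 1 (Or.inl rfl) j
          have h4 := hOW L hLD t htl (-1) (Or.inr rfl) j
          simp only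
          linarith
      _ = c / 2 * (W * Real.log W) := by
          rw [sum_const, card_univ, Fintype.card_fin, nsmul_eq_mul]
          field_simp
          ring
  have hXD : X ^ D ≤ X ^ (D + 1) := pow_le_pow_right₀ (by linarith) (by omega)
  have hZ' : ∀ z ∈ Z ∪ O, z.1 ≠ 0 ∧ (∀ j, z.2 ≠ z.1 * t j) ∧
      |(z.1 : ℝ)| ≤ X ^ (D + 1) ∧ |(z.2 : ℝ)| ≤ X ^ (D + 1) := by
    intro z hz
    rcases mem_union.1 hz with hz | hz
    · obtain ⟨a1, a2, a3, a4⟩ := hZ z hz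
      exact ⟨a1, a2, a3.trans hXD, a4.trans hXD⟩
    · rw [hO, mem_image] at hz
      obtain ⟨x, hx, rfl⟩ := hz
      obtain ⟨hs, hl1, hlL⟩ := hmemI x hx
      have h2L : (2 : ℝ) ^ x.2.2 ≤ X ^ D := by
        have h1 : Real.log 2 ≤ 1 := by have := Real.log_two_lt_d9; linarith
        have h0 : 0 ≤ Real.log 2 := Real.log_nonneg (by norm_num)
        have h2 : (2 : ℝ) ^ x.2.2 = Real.exp (Real.log 2 * x.2.2) := by
          rw [← Real.rpow_natCast, Real.rpow_def_of_pos (by norm_num)]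
        rw [h2, ← Real.rpow_natCast, Real.rpow_def_of_pos hX0]
        apply Real.exp_le_exp.2
        have h3 : (x.2.2 : ℝ) ≤ L := by exact_mod_cast hlL
        have h4 : (0 : ℝ) ≤ x.2.2 := Nat.cast_nonneg _
        nlinarith
      have h9 : (1 : ℝ) ≤ 2 ^ x.2.2 := one_le_pow₀ (by norm_num)
      refine ⟨pow_ne_zero _ (by norm_num), fun i => ?_, ?_, ?_⟩
      · have h3 := orb_factor x.2.2 hl1 ((t x.1 : ℤ) - t i + x.2.1) x.2.1 hs
        intro h4
        apply h3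
        unfold orb at h4
        simp only at h4
        linear_combination h4
      · show |(((2 : ℤ) ^ x.2.2 : ℤ) : ℝ)| ≤ _
        push_cast
        rw [abs_of_pos (by positivity)]
        exact h2L.trans hXD
      · show |(((2 : ℤ) ^ x.2.2 * (t x.1 + x.2.1) - x.2.1 : ℤ) : ℝ)| ≤ _
        push_cast
        have habs : |(x.2.1 : ℝ)| = 1 := by
          rcases hs with h | h <;> rw [h] <;> norm_num
        have h3 : |((t x.1 : ℝ) + x.2.1)| ≤ W ^ 2 + 1 := by
          have h4 := htl x.1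
          have h6 : (0 : ℝ) ≤ t x.1 := Nat.cast_nonneg _
          have h8 := abs_le.1 habs.le
          rw [abs_le]
          constructor
          · nlinarith [h8.1, h8.2]
          · linarith [h8.1, h8.2]
        calc |(2 : ℝ) ^ x.2.2 * ((t x.1 : ℝ) + x.2.1) - x.2.1|
            ≤ |(2 : ℝ) ^ x.2.2 * ((t x.1 : ℝ) + x.2.1)| + |(x.2.1 : ℝ)| := abs_sub _ _
          _ = 2 ^ x.2.2 * |((t x.1 : ℝ) + x.2.1)| + 1 := by
              rw [abs_mul, habs, abs_of_pos (by positivity : (0 : ℝ) < 2 ^ x.2.2)]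
          _ ≤ 2 ^ x.2.2 * (W ^ 2 + 1) + 1 := by gcongr
          _ ≤ 2 ^ x.2.2 * (4 * W ^ 2) := by
              have h10 : (1 : ℝ) ≤ W ^ 2 := by nlinarith
              nlinarith
          _ ≤ X ^ D * X := by gcongr
          _ = X ^ (D + 1) := by rw [pow_succ]
  have hZw' : ∑ z ∈ Z ∪ O, wT t z ≤ c * (W * Real.log W) := by
    have hui := sum_union_inter (s₁ := Z) (s₂ := O) (f := wT t)
    have hui0 : 0 ≤ ∑ z ∈ Z ∩ O, wT t z := sum_nonneg fun i _ => wT_nonneg t i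
    linarith
  obtain ⟨n, hn1, hn2, hn3, hn4, hn5, hn6⟩ := hX t htinj htl hadm h hh col hcol (Z ∪ O) hZ' hZw' bad hbad
  refine ⟨n, hn1, hn2, hn3, hn4, hn5, fun i hi1 hiJ q hq => ⟨fun z hz => ?_, fun j l hl1 hlD => ?_⟩⟩
  · exact hn6 z (mem_union_left _ hz) i hi1 hiJ q hq
  · have hlL : l ≤ L := Nat.le_floor hlD
    have hO1 : ∀ s : ℤ, (s = 1 ∨ s = -1) → orb (t j) s l ∈ Z ∪ O := by
      intro s hs
      apply mem_union_right
      rw [hO, mem_image]
      refine ⟨(j, s, l), ?_, rfl⟩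
      rw [hI, mem_product, mem_product, mem_Icc]
      refine ⟨mem_univ _, ?_, hl1, hlL⟩
      rw [mem_insert, mem_singleton]
      exact hs
    constructor
    · intro h3
      apply hn6 _ (hO1 1 (Or.inl rfl)) i hi1 hiJ q hq
      rw [h3]
      unfold orb
      simp only
      ring
    · intro h3
      apply hn6 _ (hO1 (-1) (Or.inr rfl)) i hi1 hiJ q hq
      rw [h3]
      unfold orb
      simp only
      ring

end Pool.Agent.TH101.RG
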