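import Pool.Agent.TH101.RG.PTA

set_option autoImplicit false
set_option maxHeartbeats 4000000

/-! # Families of forms a n + z at clusters of primes, at the record scale -/

namespace Pool.Agent.TH101.RG

open Finset Filter Pool.Agent.H398R2.RK
open Pool.Agent.H378R2
open Pool.Agent.H312R2.RG (BVat ev_ff)
open Pool.Agent.H256R2.SC (ff)
open Pool.Agent.H362R2.RQ (fib)

open scoped Classical

/-- the forms at a cluster -/
theorem tupPT : ∃ η : ℝ, 0 < η ∧ ∀ m : ℕ, 1 ≤ m → ∃ K : ℕ, m ≤ K ∧ ∀ (A D : ℕ) (A0 : ℝ),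
    ∃ c : ℝ, 0 < c ∧ ∀ d : ℕ, Squarefree d → ∀ᶠ X : ℝ in atTop,
    ∀ (g : ℕ), g ≠ 0 → d ∣ g → ∑ p ∈ g.primeFactors, (1 : ℝ) / p ≤ A0 →
    (g : ℝ) ≤ (Real.log X) ^ D →
    ∀ t : Fin K → ℕ, Function.Injective t → (∀ j, (t j : ℝ) ≤ (Real.log X) ^ 2) →
    (∀ p : ℕ, p.Prime → ∃ v : ℕ, ∀ j, ¬ p ∣ v + t j) →
    ∀ h : ℕ, (∀ j, (h + t j).Coprime d) →
    ∀ col : Fin K → Fin m, (∀ e, K ≤ 2 * m * fib col e) →
    ∀ bad : Finset ℕ, (bad.card : ℝ) ≤ X ^ (9 / 10 : ℝ) →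
    ∀ Z : Finset (ℤ × ℤ), (∀ z ∈ Z, z.1 ≠ 0 ∧ (∀ j, z.2 ≠ z.1 * t j) ∧ |(z.1 : ℝ)| ≤ (Real.log (Real.log X)) ^ 5 ∧
      |(z.2 : ℝ)| ≤ Real.log X * (Real.log (Real.log X)) ^ A) →
    ∑ z ∈ Z, Ra z.1.natAbs * wT t z ≤ c * ff X →
    ∃ n : ℕ, X < n ∧ (n : ℝ) ≤ 3 * X ∧ n ∉ bad ∧ n ≡ h [MOD d] ∧
      (∃ E : Finset (Fin m), η * m ≤ E.card ∧ ∀ e ∈ E, ∃ j, col j = e ∧ (n + t j).Prime) ∧
      ∀ z ∈ Z, ∃ q : ℕ, q.Prime ∧ (q : ℝ) ≤ X ^ (1 / 1000 : ℝ) ∧ ¬ q ∣ g ∧ (q : ℤ) ∣ z.1 * n + z.2 := by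
  obtain ⟨η, hη, h0⟩ := templT
  refine ⟨η, hη, fun m hm => ?_⟩
  obtain ⟨K, hmK, h1⟩ := h0 m hm
  refine ⟨K, hmK, fun A D A0 => ?_⟩
  obtain ⟨Abv, c₄, hc₄, ht⟩ := h1 (D + 2)
  obtain ⟨c, hc, hcov⟩ := covPT K A D A0 c₄ hc₄
  refine ⟨c, hc, fun d hd => ?_⟩
  obtain ⟨Z₀, hZ₀⟩ : ∃ Z : ℕ, Z = max 4 d := ⟨_, rfl⟩
  have hZ4 : 4 ≤ Z₀ := by rw [hZ₀]; exact le_max_left _ _
  have hZd : d ≤ Z₀ := by rw [hZ₀]; exact le_max_right _ _
  obtain ⟨X1, hbv⟩ := bvrel_holds Abv Z₀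
  have t1 := Real.tendsto_log_atTop
  have t2 : Tendsto (fun y : ℝ => Real.log (Real.log y)) atTop atTop := t1.comp t1
  filter_upwards [ht Z₀ hZ4, hcov, eventually_ge_atTop X1, eventually_ge_atTop 4,
    t1.eventually_ge_atTop 1, t1.eventually_ge_atTop (1000 * Z₀),
    t2.eventually_ge_atTop (Z₀ + 1), t2.eventually (Pool.Agent.H378R2.ev_pow_exp A 1 1 one_pos),
    t2.eventually (Pool.Agent.H378R2.ev_pow_exp 5 1 1 one_pos),
    t1.eventually (Pool.Agent.H378R2.ev_pow_exp 2 1 1 one_pos)] with X htX hcovX hX1 hX4 hL1 hLd hL2d hpA hpe hp2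
  intro g hg0 hdg hgS hgD t htinj htl hadm h hhd col hcol bad hbad Z hZ hZw
  obtain ⟨ps, S, hps, hS, hBV⟩ := hbv X hX1
  have hX0 : 0 < X := by linarith
  have hL0 : 0 < Real.log X := by linarith
  have hLX : Real.log X ≤ X := (Real.log_le_sub_one_of_pos hX0).trans (by linarith)
  have hll5 : (Real.log (Real.log X)) ^ 5 ≤ Real.log X := by
    rw [one_mul, one_mul, Real.exp_log hL0] at hpe
    exact hpe
  have hllA : (Real.log (Real.log X)) ^ A ≤ Real.log X := by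
    rw [one_mul, one_mul, Real.exp_log hL0] at hpA
    exact hpA
  have hL2X : (Real.log X) ^ 2 ≤ X := by
    rw [one_mul, one_mul, Real.exp_log hX0] at hp2
    exact hp2
  have hX1' : 1 ≤ X := by linarith
  choose! v hv using hadm
  set u : ℕ → ℕ := fun p => if p ∣ d then h else v p with hu
  have hup : ∀ p, p.Prime → ∀ j, ¬ p ∣ u p + t j := by
    intro p hp j
    simp only [hu]
    split_ifs with hpd
    · intro hph
      exact hp.one_lt.ne' (Nat.dvd_one.1 ((hhd j) ▸ Nat.dvd_gcd hph hpd))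
    · exact hv p hp j
  obtain ⟨cl, U0, hU0, hU0c, hcl, hcov'⟩ := hcovX ps S hS g hg0 hgS hgD t htl u hup Z hZ hZw
  have hfz : ∀ z ∈ Z, z.1 ≠ 0 ∧ ∀ j, z.2 ≠ z.1 * t j := fun z hz => ⟨(hZ z hz).1, (hZ z hz).2.1⟩
  have hfle : ∀ z ∈ Z, |(z.1 : ℝ)| ≤ X ^ (D + 2) ∧ |(z.2 : ℝ)| ≤ X ^ (D + 2) := by
    intro z hz
    obtain ⟨-, -, k3, k4⟩ := hZ z hz
    have hXD : X ≤ X ^ (D + 2) := le_self_pow₀ hX1' (by omega)
    refine ⟨(k3.trans (hll5.trans hLX)).trans hXD, (k4.trans ?_).trans hXD⟩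
    refine le_trans ?_ hL2X
    rw [sq]
    exact mul_le_mul_of_nonneg_left hllA hL0.le
  have hex : ∀ p : ℕ, ∃ ρ : ℕ, p ∈ PW X S ps → ((∀ j, ¬ p ∣ ρ + t j) ∧ (p ∣ g → ρ = u p) ∧
      (¬ p ∣ g → (p : ℤ) ∣ (ρ : ℤ) - cl p)) := by
    intro p
    by_cases hp : p ∈ PW X S ps
    · have hpp := (mem_PW.1 hp).2.1
      by_cases hpg : p ∣ g
      · exact ⟨u p, fun _ => ⟨hup p hpp, fun _ => rfl, fun h => absurd hpg h⟩⟩
      · refine ⟨(cl p % p).toNat, fun _ => ?_⟩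
        have h0 : 0 ≤ cl p % p := Int.emod_nonneg _ (by exact_mod_cast hpp.ne_zero)
        have h1 : (p : ℤ) ∣ (((cl p % p).toNat : ℕ) : ℤ) - cl p := by
          rw [Int.toNat_of_nonneg h0]
          have h2 := Int.emod_add_mul_ediv (cl p) p
          exact ⟨-(cl p / p), by linarith⟩
        refine ⟨?_, fun h => absurd h hpg, fun _ => h1⟩
        intro j h2
        apply hcl p hp j
        have h3 : (p : ℤ) ∣ ((((cl p % p).toNat + t j : ℕ)) : ℤ) := Int.natCast_dvd_natCast.2 h2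
        have h4 := dvd_sub h3 h1
        have h5 : ((((cl p % p).toNat + t j : ℕ)) : ℤ) - ((((cl p % p).toNat : ℕ) : ℤ) - cl p) = cl p + t j := by
          push_cast; ring
        rwa [h5] at h4
    · exact ⟨0, fun h => absurd h hp⟩
  choose ρ hρ using hex
  obtain ⟨r, hr⟩ := Nat.chineseRemainderOfFinset ρ (fun p => p) (PW X S ps)
    (fun p hp => (mem_PW.1 hp).2.1.ne_zero)
    (fun p hp q hq hpq => (Nat.coprime_primes (mem_PW.1 (by simpa using hp)).2.1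
      (mem_PW.1 (by simpa using hq)).2.1).2 hpq)
  have hrc : ∀ j, (r + t j).Coprime (WW X S ps) := by
    intro j
    unfold WW
    rw [Nat.coprime_prod_right_iff]
    intro p hp
    have hpp := (mem_PW.1 hp).2.1
    rw [Nat.coprime_comm, Nat.Prime.coprime_iff_not_dvd hpp]
    intro hd
    apply (hρ p hp).1 j
    exact (Nat.modEq_zero_iff_dvd).1 (((hr p hp).add_right (t j)).symm.trans ((Nat.modEq_zero_iff_dvd).2 hd))
  have hgX : (g : ℝ) ≤ X ^ (D + 2) := by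
    refine hgD.trans ((pow_le_pow_left₀ hL0.le hLX D).trans ?_)
    exact pow_le_pow_right₀ hX1' (by omega)
  obtain ⟨U1, hU11, hU12, hU13, hU14⟩ := prim_familyC t U0 (fun z hz => hfz z (hU0 hz))
  have hU1c : (U1.card : ℝ) ≤ c₄ * Real.log X := le_trans (by exact_mod_cast hU13) hU0c
  obtain ⟨n, hXn, hn3, hnb, hnr, hE, hU⟩ := htX ps S hps hS hBV t htinj htl U1 hU1c (fun z => z.1) (fun z => z.2)
    (fun z hz => ⟨(hU11 z hz).1.ne', (hU11 z hz).2.1⟩)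
    (fun z hz => by
      obtain ⟨_, _, z', hz', h3, h4⟩ := hU11 z hz
      obtain ⟨k1, k2⟩ := hfle z' (hU0 hz')
      exact ⟨h3.trans k1, h4.trans k2⟩)
    hU12 g hg0
    hgX r hrc col hcol bad hbad
  have hsmall : ∀ p : ℕ, p.Prime → p ≤ Z₀ → p ∈ PW X S ps := fun p hp hpZ =>
    small_mem_PW hLd hL2d hps le_rfl hS hp hpZ
  refine ⟨n, hXn, hn3, hnb, ?_, hE, fun z hz => ?_⟩
  · apply modEq_of_primes hd
    intro p hp
    have hpp := Nat.prime_of_mem_primeFactors hp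
    have hpd := Nat.dvd_of_mem_primeFactors hp
    have hd0 : 0 < d := Nat.pos_of_ne_zero hd.ne_zero
    have hpled : p ≤ d := Nat.le_of_dvd hd0 hpd
    have hpPW := hsmall p hpp (hpled.trans hZd)
    have h1 := hr p hpPW
    have h2 : ρ p = u p := (hρ p hpPW).2.1 (hpd.trans hdg)
    have h3 : u p = h := by simp only [hu]; rw [if_pos hpd]
    rw [h2, h3] at h1
    exact (hnr.of_dvd ((prime_dvd_WW hpp).2 hpPW)).trans h1
  · by_cases hzU : z ∈ U0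
    · obtain ⟨w, hw, e, he, hw1, hw2⟩ := hU14 z hzU
      obtain ⟨q, hq, hqX, hqg, hqd⟩ := hU w hw
      refine ⟨q, hq, hqX, hqg, ?_⟩
      have h3 : z.1 * (n : ℤ) + z.2 = e * (w.1 * n + w.2) := by rw [hw1, hw2]; ring
      rw [h3]
      exact hqd.mul_left _
    · obtain ⟨p, hp, hpg, hpz⟩ := hcov' z hz hzU
      have hpp := (mem_PW.1 hp).2.1
      refine ⟨p, hpp, le_rpow_of_le_yy hX0 (by linarith) (mem_PW.1 hp).1, hpg, ?_⟩
      have h1 := (hρ p hp).2.2 hpg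
      have h2 : (p : ℤ) ∣ (n : ℤ) - ρ p :=
        Nat.modEq_iff_dvd.1 (((hnr.of_dvd ((prime_dvd_WW hpp).2 hp)).trans (hr p hp)).symm)
      have h3 : z.1 * (n : ℤ) + z.2 = z.1 * (n - ρ p) + z.1 * (ρ p - cl p) + (z.1 * cl p + z.2) := by ring
      rw [h3]
      exact dvd_add (dvd_add (h2.mul_left _) (h1.mul_left _)) hpz

/-- families of forms at clusters, at the record scale -/
theorem cluster_pairs : ∃ η : ℝ, 0 < η ∧ ∀ m : ℕ, 1 ≤ m → ∃ K : ℕ, m ≤ K ∧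
    ∀ (A J d : ℕ), Squarefree d → ∃ c : ℝ, 0 < c ∧ ∀ᶠ X : ℝ in atTop,
    ∀ t : Fin K → ℕ, Function.Injective t → (∀ j, (t j : ℝ) ≤ (Real.log X) ^ 2) →
    (∀ p : ℕ, p.Prime → ∃ v : ℕ, ∀ j, ¬ p ∣ v + t j) →
    ∀ h : ℕ, (∀ j, (h + t j).Coprime d) →
    ∀ col : Fin K → Fin m, (∀ e, K ≤ 2 * m * fib col e) →
    ∀ Z : Finset (ℤ × ℤ), (∀ z ∈ Z, z.1 ≠ 0 ∧ (∀ j, z.2 ≠ z.1 * t j) ∧ |(z.1 : ℝ)| ≤ (Real.log (Real.log X)) ^ 5 ∧
      |(z.2 : ℝ)| ≤ Real.log X * (Real.log (Real.log X)) ^ A) →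
    ∑ z ∈ Z, Ra z.1.natAbs * wT t z ≤ c * ff X →
    ∀ bad : Finset ℕ, (bad.card : ℝ) ≤ X ^ (9 / 10 : ℝ) →
    ∃ n : ℕ, X < n ∧ (n : ℝ) ≤ 3 * X ∧ n ∉ bad ∧ n ≡ h [MOD d] ∧
      (∃ E : Finset (Fin m), η * m ≤ E.card ∧ ∀ e ∈ E, ∃ j, col j = e ∧ (n + t j).Prime) ∧
      ∀ z ∈ Z, ∀ i : ℤ, 1 ≤ |i| → |i| ≤ J → ∀ q : ℕ, q.Prime → i * q ≠ z.1 * n + z.2 := by
  obtain ⟨η, hη, h0⟩ := tupPT
  refine ⟨η, hη, fun m hm => ?_⟩
  obtain ⟨K, hmK, h1⟩ := h0 m hm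
  refine ⟨K, hmK, fun A J d hd => ?_⟩
  obtain ⟨ℓ, hℓ⟩ : ∃ ℓ : ℕ, ℓ = J.factorial := ⟨_, rfl⟩
  have hℓ0 : 0 < ℓ := by rw [hℓ]; exact Nat.factorial_pos J
  have hd0 : d ≠ 0 := hd.ne_zero
  obtain ⟨c, hc, hone⟩ := h1 A 1 (ℓ + d)
  refine ⟨c, hc, ?_⟩
  have t1 := Real.tendsto_log_atTop
  have t2 : Tendsto (fun y : ℝ => Real.log (Real.log y)) atTop atTop := t1.comp t1
  filter_upwards [hone d hd, t1.eventually_ge_atTop ((ℓ : ℝ) * d), t1.eventually_ge_atTop ((J : ℝ) + 10),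
    eventually_ge_atTop 4,
    t1.eventually (Pool.Agent.H378R2.ev_pow_exp 2 (1 / 40) 1 (by norm_num)),
    t2.eventually (Pool.Agent.H378R2.ev_pow_exp A 1 1 one_pos)]
    with X hX hLd hLJ hX4 hE hpA
  intro t htinj htl hadm h hh col hcol Z hZ hZw bad hbad
  set L := Real.log X with hL
  have hX0 : 0 < X := by linarith
  have hJ0 : (0 : ℝ) ≤ J := Nat.cast_nonneg J
  have hL1 : 1 ≤ L := by linarith
  have hL0 : 0 < L := by linarith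
  set E := Real.exp (1 / 40 * L) with hEd
  rw [one_mul] at hE
  have hE0 : 0 < E := Real.exp_pos _
  have hLE : L ≤ E := by
    have h1 : L ^ 1 ≤ L ^ 2 := pow_le_pow_right₀ hL1 (by norm_num)
    rw [pow_one] at h1
    linarith
  have hELJ : (J : ℝ) + 10 ≤ E := by linarith
  have hE1 : 1 ≤ E := by linarith
  have hpowE : ∀ k : ℕ, X ^ ((k : ℝ) / 40) = E ^ k := by
    intro k
    rw [hEd, ← Real.exp_nat_mul, Real.rpow_def_of_pos hX0, ← hL]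
    congr 1
    ring
  have e1000 : X ^ (1 / 1000 : ℝ) ≤ E := by
    have h1 := hpowE 1
    rw [pow_one] at h1
    rw [← h1]
    exact Real.rpow_le_rpow_of_exponent_le (by linarith) (by norm_num)
  have eX : X = E ^ 40 := by
    have h1 := hpowE 40
    rw [← h1]
    norm_num
  have hsum : ∑ p ∈ (ℓ * d).primeFactors, (1 : ℝ) / p ≤ ℓ + d := by
    have h1 := sum_inv_mul ℓ d hℓ0.ne' hd0
    have h3 := sum_inv_le_self ℓ
    have h4 := sum_inv_le_self d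
    linarith
  obtain ⟨p, hXp, hp3, hpb, hpd, hEE, hmain⟩ := hX (ℓ * d)
    (mul_ne_zero hℓ0.ne' hd0) (dvd_mul_left _ _) hsum
    (by
      push_cast
      rw [pow_one]
      exact hLd) t htinj htl hadm h hh col hcol bad hbad Z hZ hZw
  refine ⟨p, hXp, hp3, hpb, hpd, hEE, ?_⟩
  intro z hz i hi1 hiJ q hq hiq
  obtain ⟨q', hq', hq'X, hq'g, hq'd⟩ := hmain z hz
  have h1 : (q' : ℤ) ∣ i * q := by
    rw [hiq]
    exact hq'd
  have hqq := eq_of_multiple hℓ hi1 hiJ hq hq' (dvd_mul_right ℓ d) hq'g h1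
  have hqE : (q : ℝ) ≤ E := by
    rw [← hqq]
    exact hq'X.trans e1000
  -- the size
  have h5 : |((i * q : ℤ) : ℝ)| ≤ J * E := by
    push_cast
    rw [abs_mul, abs_of_nonneg (Nat.cast_nonneg q : (0 : ℝ) ≤ q)]
    have h4 : |(i : ℝ)| ≤ J := by exact_mod_cast hiJ
    exact mul_le_mul h4 hqE (Nat.cast_nonneg q) hJ0
  have hllA : (Real.log L) ^ A ≤ L := by
    rw [one_mul, one_mul, Real.exp_log hL0] at hpA
    exact hpA
  have h6 : X - L ^ 2 ≤ |((z.1 * p + z.2 : ℤ) : ℝ)| := by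
    push_cast
    obtain ⟨k1, -, -, k4⟩ := hZ z hz
    have h7 : |(z.1 : ℝ) * p| - |(z.2 : ℝ)| ≤ |(z.1 : ℝ) * p + z.2| := by
      have h8 := abs_sub_abs_le_abs_sub ((z.1 : ℝ) * p) (-(z.2 : ℝ))
      rw [abs_neg, sub_neg_eq_add] at h8
      exact h8
    have h9 : X ≤ |(z.1 : ℝ) * p| := by
      have h10 : (1 : ℝ) ≤ |(z.1 : ℝ)| := by exact_mod_cast Int.one_le_abs k1
      rw [abs_mul, abs_of_nonneg (by linarith : (0 : ℝ) ≤ (p : ℝ))]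
      calc X ≤ 1 * (p : ℝ) := by linarith
        _ ≤ |(z.1 : ℝ)| * (p : ℝ) := mul_le_mul_of_nonneg_right h10 (by linarith)
    have h11 : |(z.2 : ℝ)| ≤ L ^ 2 := by
      refine k4.trans ?_
      rw [sq]
      exact mul_le_mul_of_nonneg_left hllA hL0.le
    linarith
  rw [← hiq] at h6
  have h7 : (J : ℝ) * E + L ^ 2 ≤ E * E + E := by
    have := mul_le_mul_of_nonneg_right (by linarith : (J : ℝ) ≤ E) hE0.le
    linarith
  have h8 : E * E + E < E ^ 40 := by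
    have h9 : E ^ 3 ≤ E ^ 40 := pow_le_pow_right₀ hE1 (by norm_num)
    have h10 : E * E + E < E ^ 3 := by
      have h11 : 10 ≤ E := by linarith
      nlinarith [mul_pos hE0 hE0, mul_pos (mul_pos hE0 hE0) hE0]
    linarith
  linarith

end Pool.Agent.TH101.RG
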