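import Pool.Agent.TH101.RG.OneP
import Pool.Agent.TH101.RG.Mult

set_option autoImplicit false
set_option maxHeartbeats 4000000

/-! # Families of forms indexed by arbitrary sets of pairs -/

namespace Pool.Agent.TH101.RG

open Finset Filter
open Pool.Agent.H378R2
open Pool.Agent.H312R2.RG (ev_ff)
open Pool.Agent.H256R2.SC (ff)

open scoped Classical

theorem prim_exists (z : ℤ × ℤ) (h1 : z.1 ≠ 0) (h2 : z.2 ≠ 0) : ∃ (w : ℤ × ℤ) (e : ℤ), e ≠ 0 ∧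
    z.1 = e * w.1 ∧ z.2 = e * w.2 ∧ 0 < w.1 ∧ w.2 ≠ 0 ∧ IsCoprime w.1 w.2 := by
  have hg : Int.gcd z.1 z.2 ≠ 0 := by
    intro h
    exact h1 (Int.gcd_eq_zero_iff.1 h).1
  obtain ⟨a, ha⟩ : (Int.gcd z.1 z.2 : ℤ) ∣ z.1 := Int.gcd_dvd_left _ _
  obtain ⟨b, hb⟩ : (Int.gcd z.1 z.2 : ℤ) ∣ z.2 := Int.gcd_dvd_right _ _
  set g : ℤ := (Int.gcd z.1 z.2 : ℤ) with hgd
  have hg0 : g ≠ 0 := by rw [hgd]; exact_mod_cast hg
  have ha0 : a ≠ 0 := by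
    rintro rfl
    rw [mul_zero] at ha
    exact h1 ha
  have hb0 : b ≠ 0 := by
    rintro rfl
    rw [mul_zero] at hb
    exact h2 hb
  have hcop : IsCoprime a b := by
    rw [Int.isCoprime_iff_gcd_eq_one]
    have h3 : Int.gcd z.1 z.2 = Int.gcd z.1 z.2 * Int.gcd a b := by
      have h4 : Int.gcd (g * a) (g * b) = g.natAbs * Int.gcd a b := Int.gcd_mul_left _ _ _
      rw [← ha, ← hb, hgd, Int.natAbs_natCast] at h4
      exact h4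
    have h5 : Int.gcd z.1 z.2 * 1 = Int.gcd z.1 z.2 * Int.gcd a b := by rw [mul_one]; exact h3
    exact (Nat.eq_of_mul_eq_mul_left (Nat.pos_of_ne_zero hg) h5).symm
  rcases lt_or_gt_of_ne ha0 with h | h
  · refine ⟨(-a, -b), -g, neg_ne_zero.2 hg0, ?_, ?_, ?_, ?_, ?_⟩
    · show z.1 = -g * -a
      rw [ha]; ring
    · show z.2 = -g * -b
      rw [hb]; ring
    · show 0 < -a
      omega
    · exact neg_ne_zero.2 hb0
    · exact hcop.neg_neg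
  · exact ⟨(a, b), g, hg0, ha, hb, h, hb0, hcop⟩

theorem sum_image_le'' {ι κ : Type} [DecidableEq ι] [DecidableEq κ] (s : Finset ι) (f : ι → κ) (w : κ → ℝ) (hw : ∀ z, 0 ≤ w z) :
    ∑ z ∈ s.image f, w z ≤ ∑ i ∈ s, w (f i) := by
  induction s using Finset.induction_on with
  | empty => simp
  | insert a s ha ih =>
    rw [image_insert, sum_insert ha]
    by_cases h : f a ∈ s.image f
    · rw [insert_eq_of_mem h]
      linarith [hw (f a)]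
    · rw [sum_insert h]
      linarith

theorem abs_le_of_mul {e a b : ℤ} (h : a = e * b) (he : e ≠ 0) : |(b : ℝ)| ≤ |(a : ℝ)| := by
  have h1 : |a| = |e| * |b| := by rw [h, abs_mul]
  have h2 : 1 ≤ |e| := Int.one_le_abs he
  have h3 : |b| ≤ |a| := by
    rw [h1]
    exact le_mul_of_one_le_left (abs_nonneg b) h2
  exact_mod_cast h3

theorem prim_family (Z : Finset (ℤ × ℤ)) (hZ : ∀ z ∈ Z, z.1 ≠ 0 ∧ z.2 ≠ 0) : ∃ Z' : Finset (ℤ × ℤ),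
    (∀ w ∈ Z', 0 < w.1 ∧ w.2 ≠ 0 ∧ ∃ z ∈ Z, |(w.1 : ℝ)| ≤ |(z.1 : ℝ)| ∧ |(w.2 : ℝ)| ≤ |(z.2 : ℝ)|) ∧
    (∀ k ∈ Z', ∀ l ∈ Z', k ≠ l → k.1 * l.2 ≠ l.1 * k.2) ∧
    ∑ z ∈ Z', wP z ≤ ∑ z ∈ Z, wP z ∧
    ∀ z ∈ Z, ∃ w ∈ Z', ∃ e : ℤ, e ≠ 0 ∧ z.1 = e * w.1 ∧ z.2 = e * w.2 := by
  have hex : ∀ z : ℤ × ℤ, ∃ (w : ℤ × ℤ) (e : ℤ), z ∈ Z → (e ≠ 0 ∧
    z.1 = e * w.1 ∧ z.2 = e * w.2 ∧ 0 < w.1 ∧ w.2 ≠ 0 ∧ IsCoprime w.1 w.2) := by
    intro z
    by_cases hz : z ∈ Z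
    · obtain ⟨w, e, h⟩ := prim_exists z (hZ z hz).1 (hZ z hz).2
      exact ⟨w, e, fun _ => h⟩
    · exact ⟨0, 0, fun h => absurd h hz⟩
  choose f e hf using hex
  refine ⟨Z.image f, ?_, ?_, ?_, ?_⟩
  · intro w hw
    rw [mem_image] at hw
    obtain ⟨z, hz, rfl⟩ := hw
    obtain ⟨k1, k2, k3, k4, k5, k6⟩ := hf z hz
    exact ⟨k4, k5, z, hz, abs_le_of_mul k2 k1, abs_le_of_mul k3 k1⟩
  · intro k hk l hl hkl heq
    rw [mem_image] at hk hl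
    obtain ⟨z, hz, rfl⟩ := hk
    obtain ⟨z', hz', rfl⟩ := hl
    obtain ⟨_, _, _, k4, k5, k6⟩ := hf z hz
    obtain ⟨_, _, _, l4, l5, l6⟩ := hf z' hz'
    have h1 : (f z).1 ∣ (f z').1 := by
      have h2 : (f z).1 ∣ (f z').1 * (f z).2 := ⟨(f z').2, heq.symm⟩
      exact k6.dvd_of_dvd_mul_right h2
    have h2 : (f z').1 ∣ (f z).1 := by
      have h2 : (f z').1 ∣ (f z).1 * (f z').2 := ⟨(f z).2, heq⟩
      exact l6.dvd_of_dvd_mul_right h2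
    have h3 : (f z).1 = (f z').1 := Int.dvd_antisymm k4.le l4.le h1 h2
    apply hkl
    apply Prod.ext h3
    rw [h3] at heq
    exact (mul_left_cancel₀ l4.ne' heq).symm
  · refine (sum_image_le'' Z f wP wP_nonneg).trans (sum_le_sum fun z hz => ?_)
    obtain ⟨k1, k2, k3, k4, k5, k6⟩ := hf z hz
    have h1 : (f z).1.natAbs ∣ z.1.natAbs := by
      rw [Int.natAbs_dvd_natAbs]
      exact ⟨e z, by rw [mul_comm]; exact k2⟩
    have h2 : (f z).2.natAbs ∣ z.2.natAbs := by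
      rw [Int.natAbs_dvd_natAbs]
      exact ⟨e z, by rw [mul_comm]; exact k3⟩
    have h3 := ratio_mono h1 (Int.natAbs_ne_zero.2 (hZ z hz).1)
    have h4 := ratio_mono h2 (Int.natAbs_ne_zero.2 (hZ z hz).2)
    unfold wP
    gcongr
  · intro z hz
    obtain ⟨k1, k2, k3, k4, k5, k6⟩ := hf z hz
    exact ⟨f z, mem_image.2 ⟨z, hz, rfl⟩, e z, k1, k2, k3⟩

/-- the last step: a multiple `j q` of a prime `q` which has a small prime factor prime to `j` -/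
theorem eq_of_multiple {ℓ : ℕ} {J : ℕ} (hℓ : ℓ = J.factorial) {j : ℤ} (hj1 : 1 ≤ |j|) (hjJ : |j| ≤ J) {q q' g : ℕ}
    (hq : q.Prime) (hq' : q'.Prime) (hℓg : ℓ ∣ g) (hq'g : ¬ q' ∣ g) (hd : (q' : ℤ) ∣ j * q) : q' = q := by
  have h1 : ¬ (q' : ℤ) ∣ j := by
    intro h2
    apply hq'g
    have h3 : q' ∣ j.natAbs := Int.natCast_dvd.1 h2
    have h4 : j.natAbs ∣ ℓ := by
      rw [hℓ]
      rw [Int.abs_eq_natAbs] at hj1 hjJ
      apply Nat.dvd_factorial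
      · exact_mod_cast hj1
      · exact_mod_cast hjJ
    exact (h3.trans h4).trans hℓg
  rcases (Nat.prime_iff_prime_int.1 hq').dvd_mul.1 hd with h2 | h2
  · exact absurd h2 h1
  · exact (Nat.prime_dvd_prime_iff_eq hq' hq).1 (by exact_mod_cast h2)

/-- many classes modulo one prime -/
theorem classes_pairs (A J : ℕ) (d : ℕ) (hd : Squarefree d) : ∃ c : ℝ, 0 < c ∧ ∀ᶠ X : ℝ in atTop,
    ∀ h : ℕ, h.Coprime d → ∀ Z : Finset (ℤ × ℤ),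
    (∀ z ∈ Z, z.1 ≠ 0 ∧ z.2 ≠ 0 ∧ |(z.1 : ℝ)| ≤ (Real.log (Real.log X)) ^ 5 ∧
      |(z.2 : ℝ)| ≤ Real.log X * (Real.log (Real.log X)) ^ A) →
    ∑ z ∈ Z, wP z ≤ c * ff X → ∀ bad : Finset ℕ, (bad.card : ℝ) ≤ X ^ (9 / 10 : ℝ) →
    ∃ p : ℕ, p.Prime ∧ X < p ∧ (p : ℝ) ≤ 3 * X ∧ p ∉ bad ∧ p ≡ h [MOD d] ∧
      ∀ z ∈ Z, ∀ j : ℤ, 1 ≤ |j| → |j| ≤ J → ∀ q : ℕ, q.Prime → j * q ≠ z.2 * p + z.1 := by
  obtain ⟨ℓ, hℓ⟩ : ∃ ℓ : ℕ, ℓ = J.factorial := ⟨_, rfl⟩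
  have hℓ0 : 0 < ℓ := by rw [hℓ]; exact Nat.factorial_pos J
  have hd0 : d ≠ 0 := hd.ne_zero
  obtain ⟨c, hc, hone⟩ := oneP A 2 (ℓ + d)
  refine ⟨c, hc, ?_⟩
  have t1 := Real.tendsto_log_atTop
  have t2 : Tendsto (fun y : ℝ => Real.log (Real.log y)) atTop atTop := t1.comp t1
  filter_upwards [hone d hd, t1.eventually_ge_atTop ((ℓ : ℝ) * d), t1.eventually_ge_atTop ((J : ℝ) + 2),
    t2.eventually_ge_atTop 1, eventually_ge_atTop 4,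
    t1.eventually (Pool.Agent.H378R2.ev_pow_exp (A + 6) (1 / 40) 1 (by norm_num))]
    with X hX hLd hLJ hLℓ hX4 hE
  intro h hh Z hZ hZw bad hbad
  set L := Real.log X with hL
  have hX0 : 0 < X := by linarith
  have hJ0 : (0 : ℝ) ≤ J := Nat.cast_nonneg J
  have hL1 : 1 ≤ L := by linarith
  have hL0 : 0 < L := by linarith
  have hLL : Real.log L ≤ L := (Real.log_le_sub_one_of_pos hL0).trans (by linarith)
  have hLL0 : 0 < Real.log L := by linarith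
  set E := Real.exp (1 / 40 * L) with hEd
  rw [one_mul] at hE
  have hE0 : 0 < E := Real.exp_pos _
  have hELJ : (J : ℝ) + 2 ≤ E := by
    have h1 : L ^ 1 ≤ L ^ (A + 6) := pow_le_pow_right₀ hL1 (by omega)
    rw [pow_one] at h1
    linarith
  have hE1 : 1 ≤ E := by linarith
  have hpowE : ∀ k : ℕ, X ^ ((k : ℝ) / 40) = E ^ k := by
    intro k
    rw [hEd, ← Real.exp_nat_mul, Real.rpow_def_of_pos hX0, ← hL]
    congr 1
    ring
  have e1000 : X ^ (1 / 1000 : ℝ) ≤ E := by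
    have h1 := hpowE 1
    rw [pow_one] at h1
    rw [← h1]
    exact Real.rpow_le_rpow_of_exponent_le (by linarith) (by norm_num)
  have eX : X = E ^ 40 := by
    have h1 := hpowE 40
    rw [← h1]
    norm_num
  have hEX : E ≤ X := by
    rw [eX]
    calc E = E ^ 1 := (pow_one _).symm
      _ ≤ E ^ 40 := pow_le_pow_right₀ hE1 (by norm_num)
  have hX1 : 1 ≤ X := by linarith
  have hXX2 : X ≤ X ^ 2 := by
    calc X = X ^ 1 := (pow_one _).symm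
      _ ≤ X ^ 2 := pow_le_pow_right₀ hX1 (by norm_num)
  have hb1 : (Real.log L) ^ 5 ≤ E := by
    calc (Real.log L) ^ 5 ≤ L ^ 5 := by gcongr
      _ ≤ L ^ (A + 6) := pow_le_pow_right₀ hL1 (by omega)
      _ ≤ E := hE
  have hb2 : L * (Real.log L) ^ A ≤ E := by
    calc L * (Real.log L) ^ A ≤ L * L ^ A := by gcongr
      _ = L ^ (A + 1) := by ring
      _ ≤ L ^ (A + 6) := pow_le_pow_right₀ hL1 (by omega)
      _ ≤ E := hE
  obtain ⟨Z', hZ'1, hZ'2, hZ'3, hZ'4⟩ := prim_family Z (fun z hz => ⟨(hZ z hz).1, (hZ z hz).2.1⟩)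
  have hZ'b : ∀ w ∈ Z', w.1 ≠ 0 ∧ w.2 ≠ 0 ∧ |(w.1 : ℝ)| ≤ (Real.log L) ^ 5 ∧
      |(w.2 : ℝ)| ≤ L * (Real.log L) ^ A := by
    intro w hw
    obtain ⟨h1, h2, z, hz, h3, h4⟩ := hZ'1 w hw
    obtain ⟨k1, k2, k3, k4⟩ := hZ z hz
    exact ⟨h1.ne', h2, h3.trans k3, h4.trans k4⟩
  have hsum : ∑ p ∈ (ℓ * d).primeFactors, (1 : ℝ) / p ≤ ℓ + d := by
    have h1 := sum_inv_mul ℓ d hℓ0.ne' hd0
    have h3 := sum_inv_le_self ℓ
    have h4 := sum_inv_le_self d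
    linarith
  obtain ⟨p, hp, hXp, hp3, hpb, hpd, hmain⟩ := hX (fun z => z.2) (fun z => z.1) (ℓ * d)
    (mul_ne_zero hℓ0.ne' hd0) (dvd_mul_left _ _) hsum
    (by
      push_cast
      calc (ℓ : ℝ) * d ≤ L := hLd
        _ = L ^ 1 := (pow_one _).symm
        _ ≤ L ^ 2 := pow_le_pow_right₀ hL1 (by norm_num))
    (by
      intro r hr _ _ cc hcc
      obtain ⟨ρ, hρ⟩ := solve r hr cc (-1) hcc
      refine ⟨ρ, ?_, ?_⟩
      · intro h1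
        have h2 : (r : ℤ) ∣ (ρ : ℤ) := Int.natCast_dvd_natCast.2 h1
        have h3 := dvd_sub (h2.mul_left cc) hρ
        have h4 : cc * (ρ : ℤ) - (cc * ρ + -1) = 1 := by ring
        rw [h4] at h3
        have h5 : r ∣ 1 := by exact_mod_cast h3
        exact hr.one_lt.ne' (Nat.dvd_one.1 h5)
      · intro z n h1 h2
        show (r : ℤ) ∣ z.2 * n + z.1
        have h3 : z.2 * n + z.1 = (z.1 * cc + z.2) * n - z.1 * (cc * (n - ρ)) - z.1 * (cc * ρ + -1) := by ring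
        rw [h3]
        exact dvd_sub (dvd_sub (h1.mul_right _) ((h2.mul_left _).mul_left _)) (hρ.mul_left _)) h hh bad hbad Z' hZ'b
    (fun z hz => ⟨(hZ'b z hz).2.1, (hZ'b z hz).1⟩)
    (fun z hz => ⟨(((hZ'b z hz).2.2.2.trans hb2).trans hEX).trans hXX2,
      (((hZ'b z hz).2.2.1.trans hb1).trans hEX).trans hXX2⟩)
    (fun k hk l hl hkl h1 => hZ'2 l hl k hk (Ne.symm hkl) (by
      have h1 : k.2 * l.1 = l.2 * k.1 := h1
      linarith)) (hZ'3.trans hZw)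
  refine ⟨p, hp, hXp, hp3, hpb, hpd, ?_⟩
  intro z hz j hj1 hjJ q hq hjq
  obtain ⟨w, hw, e, he, hw1, hw2⟩ := hZ'4 z hz
  obtain ⟨q', hq', hq'X, hq'g, hq'd⟩ := hmain w hw
  have hq'd : (q' : ℤ) ∣ w.2 * p + w.1 := hq'd
  have h1 : (q' : ℤ) ∣ j * q := by
    rw [hjq, hw1, hw2]
    have h2 : e * w.2 * (p : ℤ) + e * w.1 = e * (w.2 * p + w.1) := by ring
    rw [h2]
    exact hq'd.mul_left _
  have hqq := eq_of_multiple hℓ hj1 hjJ hq hq' (dvd_mul_right ℓ d) hq'g h1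
  have hqE : (q : ℝ) ≤ E := by
    rw [← hqq]
    exact hq'X.trans e1000
  obtain ⟨k1, k2, k3, k4⟩ := hZ z hz
  have h2 : |(z.2 : ℝ)| * p ≤ (J : ℝ) * E + E := by
    have h2 : (z.2 : ℝ) * p = j * q - z.1 := by
      have h3 : ((j * q : ℤ) : ℝ) = ((z.2 * p + z.1 : ℤ) : ℝ) := by rw [hjq]
      push_cast at h3
      linarith
    have h3 : |(z.2 : ℝ)| * p = |(z.2 : ℝ) * p| := by
      rw [abs_mul, abs_of_nonneg (Nat.cast_nonneg p : (0 : ℝ) ≤ p)]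
    rw [h3, h2]
    refine (abs_sub _ _).trans ?_
    rw [abs_mul, abs_of_nonneg (Nat.cast_nonneg q : (0 : ℝ) ≤ q)]
    have h4 : |(j : ℝ)| ≤ J := by exact_mod_cast hjJ
    have h5 : |(j : ℝ)| * q ≤ J * E := mul_le_mul h4 hqE (Nat.cast_nonneg q) hJ0
    have h6 := k3.trans hb1
    linarith
  have h3 : (1 : ℝ) ≤ |(z.2 : ℝ)| := by
    have : 1 ≤ |z.2| := Int.one_le_abs k2
    exact_mod_cast this
  have h4 : X ≤ |(z.2 : ℝ)| * p := by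
    calc X ≤ p := hXp.le
      _ ≤ |(z.2 : ℝ)| * p := le_mul_of_one_le_left (Nat.cast_nonneg p) h3
  have h5 : (J : ℝ) * E + E < E ^ 40 := by
    calc (J : ℝ) * E + E = (J + 1) * E := by ring
      _ < E * E := mul_lt_mul_of_pos_right (by linarith) hE0
      _ = E ^ 2 := by ring
      _ ≤ E ^ 40 := pow_le_pow_right₀ hE1 (by norm_num)
  rw [eX] at h4
  linarith

end Pool.Agent.TH101.RG
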