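import Pool.Agent.TH101.RG.Tup
import Pool.Agent.H312R2.PG.Comb

set_option autoImplicit false
set_option maxHeartbeats 4000000

/-! # Patterns in every progression of modulus up to the record scale -/

namespace Pool.Agent.TH101.RG

open Finset Filter
open Pool.Agent.H378R2
open Pool.Agent.H312R2.RG (ev_ff)
open Pool.Agent.H256R2.SC (ff)
open Pool.Agent.H362R2.RQ (fib)

open scoped Classical

theorem exists_col (K m : ℕ) (hm : 1 ≤ m) (hK : m ≤ K) : ∃ col : Fin K → Fin m, ∀ e, K ≤ 2 * m * fib col e := by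
  refine ⟨fun j => ⟨(j : ℕ) % m, Nat.mod_lt _ hm⟩, fun e => ?_⟩
  have h1 : K / m ≤ fib (fun j : Fin K => (⟨(j : ℕ) % m, Nat.mod_lt _ hm⟩ : Fin m)) e := by
    unfold Pool.Agent.H362R2.RQ.fib
    have h2 : (univ : Finset (Fin (K / m))).card ≤
        ((univ : Finset (Fin K)).filter (fun j : Fin K => (⟨(j : ℕ) % m, Nat.mod_lt _ hm⟩ : Fin m) = e)).card := by
      have hlt : ∀ i : Fin (K / m), (i : ℕ) * m + e < K := by
        intro i
        have h3 : (i : ℕ) + 1 ≤ K / m := i.2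
        have h4 : ((i : ℕ) + 1) * m ≤ K / m * m := Nat.mul_le_mul_right m h3
        have h5 : K / m * m ≤ K := Nat.div_mul_le_self K m
        have h6 := e.2
        nlinarith
      apply card_le_card_of_injOn (fun i : Fin (K / m) => (⟨(i : ℕ) * m + e, hlt i⟩ : Fin K))
      · intro i _
        rw [mem_coe, mem_filter]
        refine ⟨mem_univ _, ?_⟩
        apply Fin.ext
        show ((i : ℕ) * m + e) % m = e
        rw [add_comm, Nat.add_mul_mod_self_right]
        exact Nat.mod_eq_of_lt e.2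
      · intro i _ i' _ hii
        have h3 := congrArg Fin.val hii
        simp only at h3
        apply Fin.ext
        have h4 : (i : ℕ) * m = i' * m := by omega
        exact Nat.eq_of_mul_eq_mul_right hm h4
    rw [card_univ, Fintype.card_fin] at h2
    exact h2
  have h2 : 1 ≤ K / m := (Nat.one_le_div_iff hm).2 hK
  have h3 : K < m * (K / m + 1) := Nat.lt_mul_div_succ K hm
  calc K ≤ m * (K / m + 1) := h3.le
    _ ≤ m * (2 * (K / m)) := Nat.mul_le_mul_left m (by omega)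
    _ = 2 * m * (K / m) := by ring
    _ ≤ _ := Nat.mul_le_mul_left _ h1

theorem adm_of (K : ℕ) (t : Fin K → ℕ) (h : ∀ p : ℕ, p.Prime → p ≤ K → ∃ v : ℕ, ∀ j, ¬ p ∣ v + t j) :
    ∀ p : ℕ, p.Prime → ∃ v : ℕ, ∀ j, ¬ p ∣ v + t j := by
  intro p hp
  by_cases hpK : p ≤ K
  · exact h p hp hpK
  · push Not at hpK
    have h1 : ∃ v ∈ range p, v ∉ (univ : Finset (Fin K)).image (fun j => (p - t j % p) % p) := by
      by_contra hcon
      push Not at hcon
      have h2 := (card_le_card (fun v hv => hcon v hv)).trans card_image_le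
      rw [card_range, card_univ, Fintype.card_fin] at h2
      omega
    obtain ⟨v, hv, hv2⟩ := h1
    refine ⟨v, fun j hd => hv2 ?_⟩
    rw [mem_image]
    refine ⟨j, mem_univ _, ?_⟩
    have hp0 := hp.pos
    have h3 : t j % p < p := Nat.mod_lt _ hp0
    have h4 : (v + t j % p) % p = 0 := by
      rw [Nat.add_mod_mod]
      exact Nat.mod_eq_zero_of_dvd hd
    have h5 : v < p := mem_range.1 hv
    by_cases h6 : t j % p = 0
    · rw [h6, Nat.sub_zero, Nat.mod_self]
      rw [h6, add_zero, Nat.mod_eq_of_lt h5] at h4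
      exact h4.symm
    · have h7 : v + t j % p = p := by
        have h8 := Nat.dvd_of_mod_eq_zero h4
        obtain ⟨r, hr⟩ := h8
        have h9 : r < 2 := by
          by_contra hr2
          push Not at hr2
          have : p * 2 ≤ p * r := Nat.mul_le_mul_left p hr2
          omega
        have h10 : r ≠ 0 := by
          rintro rfl
          omega
        have h11 : r = 1 := by omega
        rw [hr, h11, mul_one]
      rw [Nat.mod_eq_of_lt (by omega)]
      omega

/-- all multiples of `K! H` in a set of size `K` -/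
theorem core (m : ℕ) : ∃ K : ℕ, ∃ c : ℝ, 0 < c ∧ ∀ᶠ X : ℝ in atTop, ∀ H : ℕ, 1 ≤ H →
    ∀ s : Finset ℕ, s.card = K → (∀ l ∈ s, ((K.factorial * H * l : ℕ) : ℝ) ≤ (Real.log X) ^ 2) →
    ∀ bad : Finset ℕ, (bad.card : ℝ) ≤ X ^ (9 / 10 : ℝ) →
    ∃ n : ℕ, X < n ∧ (n : ℝ) ≤ 3 * X ∧ n ∉ bad ∧ m ≤ (s.filter (fun l => (n + K.factorial * H * l).Prime)).card ∧
      ∀ z : ℤ, |(z : ℝ)| ≤ c * ff X → ((n : ℤ) + z).toNat.Prime → ∃ l ∈ s, z = (K.factorial * H * l : ℕ) := by
  obtain ⟨η, hη, htup⟩ := tup_form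
  obtain ⟨m', hm'⟩ : ∃ m' : ℕ, m' = ⌈(m : ℝ) / η⌉₊ + 1 := ⟨_, rfl⟩
  have hm1 : 1 ≤ m' := by omega
  have hηm : (m : ℝ) ≤ η * m' := by
    have h1 : (m : ℝ) / η ≤ ⌈(m : ℝ) / η⌉₊ := Nat.le_ceil _
    have h2 : (m : ℝ) / η ≤ m' := by rw [hm']; push_cast; linarith
    rw [div_le_iff₀ hη] at h2
    linarith
  obtain ⟨K, hmK, htupK⟩ := htup m' hm1
  obtain ⟨col, hcol⟩ := exists_col K m' hm1 hmK
  obtain ⟨c, hc, hX⟩ := htupK 0 le_rfl 1
  refine ⟨K, c, hc, ?_⟩
  filter_upwards [hX 1 0 squarefree_one, ev_ff c hc, Real.tendsto_log_atTop.eventually_ge_atTop 1,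
    eventually_ge_atTop 4, Real.tendsto_log_atTop.eventually (Pool.Agent.H378R2.ev_pow_exp 2 (1 / 2) 1 (by norm_num))]
    with X hXX hff hL1 hX4 hexp
  intro H hH s hs hsl bad hbad
  set e := s.orderEmbOfFin hs with he
  have hX0 : 0 < X := by linarith
  have hKf : 0 < K.factorial := Nat.factorial_pos K
  have hKH : 0 < K.factorial * H := Nat.mul_pos hKf hH
  obtain ⟨n, hXn, hn3, hnb, -, -, ⟨E, hE, hE2⟩, hmain⟩ := hXX 1 1 one_ne_zero (by simp) (by simp) (by simp) (by
      push_cast; rw [pow_one]; exact hL1) 0 (by rw [pow_one]; simpa using hX0.le)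
      (fun j => K.factorial * H * e j) (by
        intro i j hij
        simp only at hij
        exact e.injective (Nat.eq_of_mul_eq_mul_left hKH hij))
      (fun j => hsl _ (s.orderEmbOfFin_mem hs j))
      (adm_of K _ (fun p hp hpK => ⟨1, fun j hd => by
        have h1 : p ∣ K.factorial * H * e j :=
          Dvd.dvd.mul_right (Dvd.dvd.mul_right ((Nat.Prime.dvd_factorial hp).2 hpK) _) _
        exact hp.one_lt.ne' (Nat.dvd_one.1 ((Nat.dvd_add_left h1).1 hd))⟩)) 0 (fun j => Nat.coprime_one_right _)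
      col hcol bad hbad
  refine ⟨n, hXn, hn3, hnb, ?_, ?_⟩
  · have h1 : (m : ℝ) ≤ E.card := hηm.trans hE
    have h2 : m ≤ E.card := by exact_mod_cast h1
    refine h2.trans ?_
    have hex : ∀ x : Fin m', ∃ j : Fin K, x ∈ E → col j = x ∧ (n + K.factorial * H * e j).Prime := by
      intro x
      by_cases hx : x ∈ E
      · obtain ⟨j, hj⟩ := hE2 x hx
        exact ⟨j, fun _ => hj⟩
      · exact ⟨⟨0, by omega⟩, fun h => absurd h hx⟩
    choose g hg using hex
    apply card_le_card_of_injOn (fun x : Fin m' => e (g x))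
    · intro x hx
      rw [mem_coe, mem_filter]
      exact ⟨s.orderEmbOfFin_mem hs _, (hg x hx).2⟩
    · intro x hx y hy hxy
      have h3 : g x = g y := e.injective hxy
      rw [← (hg x hx).1, ← (hg y hy).1, h3]
  · intro z hz hzp
    by_contra hcon
    push Not at hcon
    obtain ⟨q, hq, hqX, -, hqd⟩ := hmain z hz (fun j => by
      rw [zero_add, one_mul]
      intro h1
      exact hcon (e j) (s.orderEmbOfFin_mem hs j) (by rw [h1]))
    rw [one_mul, add_zero] at hqd
    -- `n + z` is large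
    have hE' := hexp
    rw [one_mul] at hE'
    have hsq : Real.exp (1 / 2 * Real.log X) ≤ X / 2 := by
      have h1 : Real.exp (1 / 2 * Real.log X) * Real.exp (1 / 2 * Real.log X) = X := by
        rw [← Real.exp_add, ← add_mul]
        norm_num
        exact Real.exp_log hX0
      have h2 : 2 ≤ Real.exp (1 / 2 * Real.log X) := by
        have h3 : (2 : ℝ) ^ 2 ≤ Real.exp (1 / 2 * Real.log X) ^ 2 := by rw [pow_two, pow_two, h1]; linarith
        exact le_of_pow_le_pow_left₀ (by norm_num) (Real.exp_pos _).le h3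
      nlinarith [Real.exp_pos (1 / 2 * Real.log X)]
    have hzX : |(z : ℝ)| ≤ X / 2 := hz.trans (hff.1.trans (hE'.trans hsq))
    have hpos : X / 2 < (((n : ℤ) + z : ℤ) : ℝ) := by
      push_cast
      have := (abs_le.1 hzX).1
      linarith
    have hpos' : (0 : ℤ) < (n : ℤ) + z := by
      have h1 : (0 : ℝ) < (((n : ℤ) + z : ℤ) : ℝ) := by linarith
      exact_mod_cast h1
    have h1 : (((n : ℤ) + z).toNat : ℤ) = n + z := Int.toNat_of_nonneg hpos'.le
    have h2 : q ∣ ((n : ℤ) + z).toNat := by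
      rw [← h1] at hqd
      exact_mod_cast hqd
    have h3 := (Nat.prime_dvd_prime_iff_eq hq hzp).1 h2
    have h4 : (q : ℝ) = (((n : ℤ) + z : ℤ) : ℝ) := by
      rw [← h1, h3]
      push_cast
      rfl
    have h5 : X ^ (1 / 1000 : ℝ) ≤ X ^ (1 / 2 : ℝ) := Real.rpow_le_rpow_of_exponent_le (by linarith) (by norm_num)
    have h6 : X ^ (1 / 2 : ℝ) = Real.exp (1 / 2 * Real.log X) := by
      rw [Real.rpow_def_of_pos hX0, mul_comm]
    linarith

theorem core_le {m K : ℕ} {c : ℝ} (h : ∀ᶠ X : ℝ in atTop, ∀ H : ℕ, 1 ≤ H →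
    ∀ s : Finset ℕ, s.card = K → (∀ l ∈ s, ((K.factorial * H * l : ℕ) : ℝ) ≤ (Real.log X) ^ 2) →
    ∀ bad : Finset ℕ, (bad.card : ℝ) ≤ X ^ (9 / 10 : ℝ) →
    ∃ n : ℕ, X < n ∧ (n : ℝ) ≤ 3 * X ∧ n ∉ bad ∧ m ≤ (s.filter (fun l => (n + K.factorial * H * l).Prime)).card ∧
      ∀ z : ℤ, |(z : ℝ)| ≤ c * ff X → ((n : ℤ) + z).toNat.Prime → ∃ l ∈ s, z = (K.factorial * H * l : ℕ)) :
    m ≤ K := by
  obtain ⟨X, hX, hL, hX0⟩ := (h.and ((Real.tendsto_log_atTop.eventually_ge_atTop ((K.factorial * K : ℕ) : ℝ)).and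
    (eventually_ge_atTop (0 : ℝ)))).exists
  have h1 : ∀ l ∈ range K, ((K.factorial * 1 * l : ℕ) : ℝ) ≤ (Real.log X) ^ 2 := by
    intro l hl
    have h2 : K.factorial * 1 * l ≤ K.factorial * K := by
      rw [mul_one]
      exact Nat.mul_le_mul_left _ (mem_range.1 hl).le
    have h3 : ((K.factorial * 1 * l : ℕ) : ℝ) ≤ ((K.factorial * K : ℕ) : ℝ) := by exact_mod_cast h2
    have hK1 : 1 ≤ K := by
      have := mem_range.1 hl
      omega
    have h4 : (1 : ℝ) ≤ ((K.factorial * K : ℕ) : ℝ) := by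
      exact_mod_cast Nat.mul_pos (Nat.factorial_pos K) hK1
    nlinarith
  obtain ⟨n, -, -, -, hn, -⟩ := hX 1 le_rfl (range K) (card_range K) h1 ∅ (by
    rw [card_empty, Nat.cast_zero]
    positivity)
  refine hn.trans ((card_filter_le _ _).trans ?_)
  rw [card_range]

end Pool.Agent.TH101.RG
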