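import Pool.Agent.TH101.RG.Pat

set_option autoImplicit false
set_option maxHeartbeats 4000000

/-! # Patterns in every progression of modulus up to the record scale: counting -/

namespace Pool.Agent.TH101.RG

open Finset Filter
open Pool.Agent.H312R2.RG (ev_ff)
open Pool.Agent.H256R2.SC (ff)
open Pool.Agent.H312R2.PG (turan_avg choose_lower)

open scoped Classical

theorem initial_seg (S : Finset ℕ) (m : ℕ) (hm : m ≤ S.card) :
    ∃ σ ⊆ S, σ.card = m ∧ ∀ l ∈ S, ∀ l' ∈ σ, l ≤ l' → l ∈ σ := by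
  induction m with
  | zero => exact ⟨∅, empty_subset _, card_empty, fun _ _ l' h => absurd h (notMem_empty l')⟩
  | succ m ih =>
    obtain ⟨σ, h1, h2, h3⟩ := ih (by omega)
    have hne : (S \ σ).Nonempty := by
      rw [← card_pos, card_sdiff_of_subset h1]
      omega
    set μ := (S \ σ).min' hne with hμ
    have hμm : μ ∈ S ∧ μ ∉ σ := Finset.mem_sdiff.1 ((S \ σ).min'_mem hne)
    refine ⟨insert μ σ, insert_subset hμm.1 h1, ?_, ?_⟩
    · rw [card_insert_of_notMem hμm.2, h2]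
    · intro l hl l' hl' hle
      rw [mem_insert] at hl' ⊢
      rcases hl' with rfl | hl'
      · by_cases hlσ : l ∈ σ
        · exact Or.inr hlσ
        · left
          exact le_antisymm hle ((S \ σ).min'_le l (Finset.mem_sdiff.2 ⟨hl, hlσ⟩))
      · exact Or.inr (h3 l hl l' hl' hle)

/-- the smallest element -/
noncomputable def lo (σ : Finset ℕ) : ℕ := sInf (σ : Set ℕ)

theorem lo_mem {σ : Finset ℕ} (h : σ.Nonempty) : lo σ ∈ σ := by
  have := Nat.sInf_mem (s := (σ : Set ℕ)) (by exact_mod_cast h)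
  exact_mod_cast this

theorem lo_le {σ : Finset ℕ} {l : ℕ} (h : l ∈ σ) : lo σ ≤ l := Nat.sInf_le (by exact_mod_cast h)

/-- the pattern of a set of indices -/
noncomputable def pt (B : ℕ) (σ : Finset ℕ) : Finset ℕ := σ.image (fun l => B * (l - lo σ))

theorem pt_inj {B : ℕ} (hB : 0 < B) {σ σ' : Finset ℕ} (h : pt B σ = pt B σ') (hlo : lo σ = lo σ') : σ = σ' := by
  have key : ∀ σ : Finset ℕ, σ = (pt B σ).image (fun y => y / B + lo σ) := by
    intro σ
    ext l
    unfold pt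
    rw [mem_image]
    constructor
    · intro hl
      refine ⟨B * (l - lo σ), mem_image.2 ⟨l, hl, rfl⟩, ?_⟩
      rw [Nat.mul_div_cancel_left _ hB, Nat.sub_add_cancel (lo_le hl)]
    · rintro ⟨y, hy, rfl⟩
      obtain ⟨l, hl, rfl⟩ := mem_image.1 hy
      rw [Nat.mul_div_cancel_left _ hB, Nat.sub_add_cancel (lo_le hl)]
      exact hl
  rw [key σ, key σ', h, hlo]

theorem pt_card {B : ℕ} (hB : 0 < B) (σ : Finset ℕ) : (pt B σ).card = σ.card := by
  unfold pt
  apply card_image_of_injOn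
  intro l hl l' hl' h
  simp only at h
  have h1 := Nat.eq_of_mul_eq_mul_left hB h
  have h2 := lo_le (σ := σ) (by exact_mod_cast hl : l ∈ σ)
  have h3 := lo_le (σ := σ) (by exact_mod_cast hl' : l' ∈ σ)
  omega

theorem patterns (m : ℕ) (hm : 2 ≤ m) : ∃ (L : ℕ) (c : ℝ), 0 < c ∧ ∀ᶠ X : ℝ in atTop, ∀ H : ℕ, 1 ≤ H →
    ∀ T : ℝ, (L : ℝ) * H ≤ T → T ≤ c * ff X →
    ∃ F : Finset (Finset ℕ), c * (T / H) ^ (m - 1) ≤ F.card ∧
      ∀ P ∈ F, P.card = m ∧ 0 ∈ P ∧ (∀ y ∈ P, H ∣ y ∧ (y : ℝ) ≤ T) ∧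
        X ^ (7 / 8 : ℝ) ≤ ({n : ℕ | X < n ∧ (n : ℝ) ≤ 4 * X ∧
          (∀ y : ℤ, -(c * ff X) ≤ y → (∃ h ∈ P, y ≤ (h : ℕ)) →
            (((n : ℤ) + y).toNat.Prime ↔ ∃ h ∈ P, y = (h : ℕ))) ∧
          ∀ q : ℕ, q.Prime → |(q : ℝ) - n| ≤ c * ff X → q ≡ n [MOD H] ∧ (q : ℝ) ≤ n + T}.ncard : ℝ) := by
  obtain ⟨K, c₀, hc₀, hcore⟩ := core m
  have hmK := core_le hcore
  set P₀ : ℕ := K.factorial with hP₀
  have hP₀1 : 0 < P₀ := Nat.factorial_pos K
  set Cst : ℝ := (P₀ : ℝ) ^ (m - 1) * (2 ^ m * m.factorial * K.choose m) with hCst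
  have hCst0 : 0 < Cst := by
    have h1 : (0 : ℝ) < K.choose m := by exact_mod_cast Nat.choose_pos hmK
    have h2 : (0 : ℝ) < P₀ := by exact_mod_cast hP₀1
    positivity
  set c : ℝ := min (c₀ / 4) (1 / Cst) with hc
  have hc0 : 0 < c := lt_min (by positivity) (by positivity)
  have hc1 : c ≤ c₀ / 4 := min_le_left _ _
  have hc2 : c ≤ 1 / Cst := min_le_right _ _
  refine ⟨P₀ * (K + 2 * m + 2), c, hc0, ?_⟩
  have hev : ∀ᶠ X : ℝ in atTop, (K.choose m : ℝ) * X ^ (7 / 8 : ℝ) ≤ X ^ (9 / 10 : ℝ) := by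
    have h1 : Tendsto (fun X : ℝ => X ^ (1 / 40 : ℝ)) atTop atTop := tendsto_rpow_atTop (by norm_num)
    filter_upwards [h1.eventually_ge_atTop (K.choose m : ℝ), eventually_gt_atTop 0] with X h2 h3
    have h4 : X ^ (9 / 10 : ℝ) = X ^ (1 / 40 : ℝ) * X ^ (7 / 8 : ℝ) := by
      rw [← Real.rpow_add h3]
      norm_num
    rw [h4]
    exact mul_le_mul_of_nonneg_right h2 (by positivity)
  filter_upwards [hcore, hev, ev_ff c₀ hc₀, eventually_ge_atTop 4] with X hX hXc hff hX4
  intro H hH T hT1 hT2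
  have hX0 : 0 < X := by linarith
  have hffn : 0 ≤ ff X := hff.2.1
  have hHr : (1 : ℝ) ≤ H := by exact_mod_cast hH
  have hH0 : (0 : ℝ) < H := by linarith
  have hP₀r : (1 : ℝ) ≤ P₀ := by exact_mod_cast hP₀1
  have hT0 : 0 ≤ T := le_trans (by positivity) hT1
  have hcT : T ≤ c₀ / 4 * ff X := hT2.trans (mul_le_mul_of_nonneg_right hc1 hffn)
  set B : ℕ := P₀ * H with hB
  have hB0 : 0 < B := Nat.mul_pos hP₀1 hH
  have hBr : (0 : ℝ) < B := by exact_mod_cast hB0
  set N : ℕ := ⌊T / B⌋₊ with hN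
  have hNT : ∀ l : ℕ, l ≤ N → ((B * l : ℕ) : ℝ) ≤ T := by
    intro l hl
    have h1 : (l : ℝ) ≤ T / B := (Nat.le_floor_iff (by positivity)).1 hl
    rw [le_div_iff₀ hBr] at h1
    push_cast
    linarith
  have hNbig : K + 2 * m + 2 ≤ N := by
    apply Nat.le_floor
    rw [le_div_iff₀ hBr]
    rw [hB]
    push_cast at hT1 ⊢
    linarith
  set V : Finset ℕ := range (N + 1) with hV
  have hVc : V.card = N + 1 := card_range _
  set Q : ℕ → Finset ℕ → Prop := fun n σ => X < n ∧ (n : ℝ) ≤ 3 * X ∧ (∀ l ∈ σ, (n + B * l).Prime) ∧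
    ∀ z : ℤ, |(z : ℝ)| ≤ c₀ * ff X → ((n : ℤ) + z).toNat.Prime →
      ∃ l ∈ V, z = (B * l : ℕ) ∧ ((∃ l' ∈ σ, l ≤ l') → l ∈ σ) with hQ
  set R : Finset (Finset ℕ) := (powersetCard m V).filter (fun σ =>
    X ^ (7 / 8 : ℝ) ≤ (((Icc 1 ⌊3 * X⌋₊).filter (fun n => Q n σ)).card : ℝ)) with hR
  have hRV : R ⊆ powersetCard m V := filter_subset _ _
  -- every `K`-set contains a good set
  have hgood : ∀ A ∈ powersetCard K V, ∃ σ ∈ R, σ ⊆ A := by
    intro A hA
    obtain ⟨hAV, hAK⟩ := mem_powersetCard.1 hA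
    by_contra hcon
    push Not at hcon
    set bad : Finset ℕ := (powersetCard m A).biUnion (fun σ => (Icc 1 ⌊3 * X⌋₊).filter (fun n => Q n σ)) with hbad
    have hbadc : (bad.card : ℝ) ≤ X ^ (9 / 10 : ℝ) := by
      have h1 : bad.card ≤ ∑ σ ∈ powersetCard m A, ((Icc 1 ⌊3 * X⌋₊).filter (fun n => Q n σ)).card :=
        card_biUnion_le
      have h2 : (bad.card : ℝ) ≤ ∑ σ ∈ powersetCard m A, (((Icc 1 ⌊3 * X⌋₊).filter (fun n => Q n σ)).card : ℝ) := by
        exact_mod_cast h1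
      refine h2.trans ((sum_le_card_nsmul _ _ (X ^ (7 / 8 : ℝ)) ?_).trans ?_)
      · intro σ hσ
        obtain ⟨h3, h4⟩ := mem_powersetCard.1 hσ
        by_contra h5
        push Not at h5
        exact hcon σ (mem_filter.2 ⟨mem_powersetCard.2 ⟨h3.trans hAV, h4⟩, h5.le⟩) h3
      · rw [nsmul_eq_mul, card_powersetCard, hAK]
        exact hXc
    obtain ⟨n, hXn, hn3, hnb, hnm, hnz⟩ := hX H hH A hAK (by
      intro l hl
      have h1 : l ≤ N := by
        have := mem_range.1 (hAV hl)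
        omega
      refine (hNT l h1).trans ?_
      have h2 : c₀ / 4 * ff X ≤ c₀ * ff X := mul_le_mul_of_nonneg_right (by linarith) hffn
      exact (hcT.trans h2).trans hff.1) bad hbadc
    obtain ⟨σ, hσ1, hσ2, hσ3⟩ := initial_seg _ m hnm
    apply hnb
    rw [hbad, mem_biUnion]
    have hn0 : 0 < n := by
      have h1 : (0 : ℝ) < n := by linarith
      exact_mod_cast h1
    refine ⟨σ, mem_powersetCard.2 ⟨hσ1.trans (filter_subset _ _), hσ2⟩, ?_⟩
    rw [mem_filter, mem_Icc]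
    refine ⟨⟨hn0, Nat.le_floor hn3⟩, hXn, hn3, fun l hl => (mem_filter.1 (hσ1 hl)).2, ?_⟩
    intro z hz hzp
    obtain ⟨l, hl, hzl⟩ := hnz z hz hzp
    refine ⟨l, hAV hl, hzl, ?_⟩
    rintro ⟨l', hl', hll⟩
    apply hσ3 l _ l' hl' hll
    rw [mem_filter]
    refine ⟨hl, ?_⟩
    rw [hzl] at hzp
    have h1 : ((n : ℤ) + ((P₀ * H * l : ℕ) : ℤ)).toNat = n + P₀ * H * l := by
      rw [← Nat.cast_add, Int.toNat_natCast]
    rwa [h1] at hzp
  have hturan := turan_avg V K m hmK (by rw [hVc]; omega) R hRV hgood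
  rw [hVc] at hturan
  -- the patterns
  refine ⟨R.image (pt B), ?_, ?_⟩
  · have h1 : R.card ≤ (N + 1) * (R.image (pt B)).card := by
      apply card_le_mul_card_image
      intro P _
      have h2 : ((R.filter (fun σ => pt B σ = P)).image lo).card = (R.filter (fun σ => pt B σ = P)).card := by
        apply card_image_of_injOn
        intro σ hσ σ' hσ' hlo
        have h3 := (mem_filter.1 (mem_coe.1 hσ)).2
        have h4 := (mem_filter.1 (mem_coe.1 hσ')).2
        exact pt_inj hB0 (h3.trans h4.symm) hlo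
      rw [← h2]
      have h3 : (R.filter (fun σ => pt B σ = P)).image lo ⊆ range (N + 1) := by
        intro x hx
        obtain ⟨σ, hσ, rfl⟩ := mem_image.1 hx
        obtain ⟨h4, h5⟩ := mem_powersetCard.1 (hRV (mem_filter.1 hσ).1)
        exact h4 (lo_mem (card_pos.1 (by omega)))
      have := card_le_card h3
      rwa [card_range] at this
    have h2 := choose_lower (N + 1) m (by omega)
    have h3 : ((N + 1 : ℕ) : ℝ) ^ m ≤ (2 ^ m * m.factorial * K.choose m) * (((N + 1 : ℕ) : ℝ) *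
        ((R.image (pt B)).card : ℝ)) := by
      have h4 : (((N + 1).choose m : ℕ) : ℝ) ≤ (R.card : ℝ) * (K.choose m : ℝ) := by exact_mod_cast hturan
      have h5 : (R.card : ℝ) ≤ ((N + 1 : ℕ) : ℝ) * ((R.image (pt B)).card : ℝ) := by exact_mod_cast h1
      calc ((N + 1 : ℕ) : ℝ) ^ m ≤ 2 ^ m * m.factorial * (((N + 1).choose m : ℕ) : ℝ) := h2
        _ ≤ 2 ^ m * m.factorial * ((R.card : ℝ) * (K.choose m : ℝ)) := by gcongr
        _ ≤ 2 ^ m * m.factorial * ((((N + 1 : ℕ) : ℝ) * ((R.image (pt B)).card : ℝ)) * (K.choose m : ℝ)) := by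
            gcongr
        _ = _ := by ring
    have h4 : ((N + 1 : ℕ) : ℝ) ^ (m - 1) ≤ (2 ^ m * m.factorial * K.choose m) *
        ((R.image (pt B)).card : ℝ) := by
      have h5 : ((N + 1 : ℕ) : ℝ) ^ m = ((N + 1 : ℕ) : ℝ) ^ (m - 1) * ((N + 1 : ℕ) : ℝ) := by
        rw [← pow_succ]
        congr 1
        omega
      have h6 : (0 : ℝ) < ((N + 1 : ℕ) : ℝ) := by positivity
      rw [h5] at h3
      have h7 : ((N + 1 : ℕ) : ℝ) ^ (m - 1) * ((N + 1 : ℕ) : ℝ) ≤ ((2 ^ m * m.factorial * K.choose m) *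
        ((R.image (pt B)).card : ℝ)) * ((N + 1 : ℕ) : ℝ) := by linarith
      exact le_of_mul_le_mul_right h7 h6
    have h5 : T / H ≤ P₀ * ((N + 1 : ℕ) : ℝ) := by
      have h6 : T / B < ((N + 1 : ℕ) : ℝ) := by
        push_cast
        exact Nat.lt_floor_add_one _
      rw [div_lt_iff₀ hBr] at h6
      rw [div_le_iff₀ hH0]
      rw [hB] at h6
      push_cast at h6 ⊢
      linarith
    have h6 : (T / H) ^ (m - 1) ≤ Cst * ((R.image (pt B)).card : ℝ) := by
      calc (T / H) ^ (m - 1) ≤ (P₀ * ((N + 1 : ℕ) : ℝ)) ^ (m - 1) := by gcongr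
        _ = (P₀ : ℝ) ^ (m - 1) * ((N + 1 : ℕ) : ℝ) ^ (m - 1) := mul_pow _ _ _
        _ ≤ (P₀ : ℝ) ^ (m - 1) * ((2 ^ m * m.factorial * K.choose m) * ((R.image (pt B)).card : ℝ)) := by
            gcongr
        _ = _ := by rw [hCst]; ring
    have h7 : 0 ≤ (T / H) ^ (m - 1) := by positivity
    calc c * (T / H) ^ (m - 1) ≤ 1 / Cst * (Cst * ((R.image (pt B)).card : ℝ)) :=
          mul_le_mul hc2 h6 h7 (by positivity)
      _ = _ := by field_simp
  · intro P hP
    obtain ⟨σ, hσ, rfl⟩ := mem_image.1 hP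
    obtain ⟨hσ1, hσ2⟩ := mem_filter.1 hσ
    obtain ⟨hσV, hσm⟩ := mem_powersetCard.1 hσ1
    have hσne : σ.Nonempty := card_pos.1 (by omega)
    have hlo := lo_mem hσne
    have hle : ∀ l ∈ σ, l ≤ N := fun l hl => by
      have := mem_range.1 (hσV hl)
      omega
    refine ⟨by rw [pt_card hB0, hσm], mem_image.2 ⟨lo σ, hlo, by simp⟩, ?_, ?_⟩
    · intro y hy
      obtain ⟨l, hl, rfl⟩ := mem_image.1 hy
      refine ⟨Dvd.dvd.mul_right (Dvd.intro_left P₀ rfl) _, hNT _ ?_⟩
      have := hle l hl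
      omega
    · refine hσ2.trans ?_
      have hmap : ∀ n ∈ (((Icc 1 ⌊3 * X⌋₊).filter (fun n => Q n σ) : Finset ℕ) : Set ℕ),
          n + B * lo σ ∈ {n : ℕ | X < n ∧ (n : ℝ) ≤ 4 * X ∧
          (∀ y : ℤ, -(c * ff X) ≤ y → (∃ h ∈ pt B σ, y ≤ (h : ℕ)) →
            (((n : ℤ) + y).toNat.Prime ↔ ∃ h ∈ pt B σ, y = (h : ℕ))) ∧
          ∀ q : ℕ, q.Prime → |(q : ℝ) - n| ≤ c * ff X → q ≡ n [MOD H] ∧ (q : ℝ) ≤ n + T} := by
        intro n hn
        rw [mem_coe, mem_filter] at hn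
        obtain ⟨-, hXn, hn3, hnp, hnz⟩ := hn
        have hloT := hNT (lo σ) (hle _ hlo)
        have hcX : c * ff X ≤ c₀ / 4 * ff X := mul_le_mul_of_nonneg_right hc1 hffn
        have hffX : c₀ * ff X ≤ X / 2 := by linarith [hff.2.2]
        refine ⟨?_, ?_, ?_, ?_⟩
        · push_cast
          have : (0 : ℝ) ≤ (B : ℝ) * (lo σ : ℕ) := by positivity
          linarith
        · push_cast at hloT ⊢
          linarith
        · intro y hy1 hy2
          obtain ⟨h₀, hh₀, hyh₀⟩ := hy2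
          constructor
          · intro hyp
            have h1 : ((n : ℤ) + (y + (B * lo σ : ℕ))).toNat.Prime := by
              have h2 : (n : ℤ) + (y + (B * lo σ : ℕ)) = ((n + B * lo σ : ℕ) : ℤ) + y := by push_cast; ring
              rw [h2]
              exact hyp
            obtain ⟨l₀, hl₀, rfl⟩ := mem_image.1 hh₀
            have hl₀N := hle l₀ hl₀
            have hyT : (y : ℝ) ≤ T := by
              have h2 : (y : ℝ) ≤ ((B * (l₀ - lo σ) : ℕ) : ℝ) := by exact_mod_cast hyh₀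
              exact h2.trans (hNT _ (by omega))
            obtain ⟨l, hlV, hyl, hlσ⟩ := hnz (y + (B * lo σ : ℕ)) (by
              push_cast
              push_cast at hloT
              have h3 : (0 : ℝ) ≤ (B : ℝ) * (lo σ : ℕ) := by positivity
              rw [abs_le]
              constructor <;> linarith) h1
            have hll₀ : l ≤ l₀ := by
              have h2 : ((B * l : ℕ) : ℤ) ≤ ((B * l₀ : ℕ) : ℤ) := by
                rw [← hyl]
                have h3 : ((B * (l₀ - lo σ) : ℕ) : ℤ) + ((B * lo σ : ℕ) : ℤ) = ((B * l₀ : ℕ) : ℤ) := by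
                  rw [← Nat.cast_add, ← mul_add, Nat.sub_add_cancel (lo_le hl₀)]
                linarith
              have h4 : B * l ≤ B * l₀ := by exact_mod_cast h2
              exact Nat.le_of_mul_le_mul_left h4 hB0
            have hlσ' := hlσ ⟨l₀, hl₀, hll₀⟩
            refine ⟨B * (l - lo σ), mem_image.2 ⟨l, hlσ', rfl⟩, ?_⟩
            have h3 : ((B * (l - lo σ) : ℕ) : ℤ) + ((B * lo σ : ℕ) : ℤ) = ((B * l : ℕ) : ℤ) := by
              rw [← Nat.cast_add, ← mul_add, Nat.sub_add_cancel (lo_le hlσ')]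
            linarith
          · rintro ⟨h, hh, rfl⟩
            obtain ⟨l, hl, rfl⟩ := mem_image.1 hh
            have h1 : ((n + B * lo σ : ℕ) : ℤ) + ((B * (l - lo σ) : ℕ) : ℤ) = ((n + B * l : ℕ) : ℤ) := by
              rw [← Nat.cast_add, add_assoc, ← mul_add, Nat.add_sub_cancel' (lo_le hl)]
            rw [h1, Int.toNat_natCast]
            exact hnp l hl
        · intro q hq hqd
          have h1 : ((n : ℤ) + ((q : ℤ) - n)).toNat = q := by
            rw [add_sub_cancel, Int.toNat_natCast]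
          obtain ⟨l, hlV, hyl, -⟩ := hnz ((q : ℤ) - n) (by
              push_cast
              push_cast at hloT hqd
              have h3 : (0 : ℝ) ≤ (B : ℝ) * (lo σ : ℕ) := by positivity
              rw [abs_le] at hqd ⊢
              constructor <;> linarith [hqd.1, hqd.2]) (by rw [h1]; exact hq)
          have h2 : q = n + B * l := by
            have : (q : ℤ) = ((n + B * l : ℕ) : ℤ) := by push_cast at hyl ⊢; linarith
            exact_mod_cast this
          have hlN : l ≤ N := by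
            have := mem_range.1 hlV
            omega
          constructor
          · rw [h2]
            have hHB : H ∣ B := Dvd.intro_left P₀ rfl
            have e1 : n + B * l ≡ n [MOD H] := by
              have := (Nat.modEq_zero_iff_dvd.2 (hHB.mul_right l)).add_left n
              simpa using this
            have e2 : n + B * lo σ ≡ n [MOD H] := by
              have := (Nat.modEq_zero_iff_dvd.2 (hHB.mul_right (lo σ))).add_left n
              simpa using this
            exact e1.trans e2.symm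
          · rw [h2]
            have h4 := hNT l hlN
            push_cast at h4 ⊢
            have h3 : (0 : ℝ) ≤ (B : ℝ) * (lo σ : ℕ) := by positivity
            linarith
      have hfin : {n : ℕ | X < n ∧ (n : ℝ) ≤ 4 * X ∧
          (∀ y : ℤ, -(c * ff X) ≤ y → (∃ h ∈ pt B σ, y ≤ (h : ℕ)) →
            (((n : ℤ) + y).toNat.Prime ↔ ∃ h ∈ pt B σ, y = (h : ℕ))) ∧
          ∀ q : ℕ, q.Prime → |(q : ℝ) - n| ≤ c * ff X → q ≡ n [MOD H] ∧ (q : ℝ) ≤ n + T}.Finite := by
        apply (Set.finite_Iic ⌊4 * X⌋₊).subset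
        intro p hp
        exact Set.mem_Iic.2 (Nat.le_floor hp.2.1)
      have h1 := Set.ncard_le_ncard_of_injOn (fun n => n + B * lo σ) hmap (by
        intro a _ b _ hab
        simp only at hab
        omega) hfin
      rw [Set.ncard_coe_finset] at h1
      exact_mod_cast h1

end Pool.Agent.TH101.RG
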