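import Pool.Agent.TH101.RG.OneZ
import Pool.Agent.TH101.RG.Mult

set_option autoImplicit false
set_option maxHeartbeats 4000000

/-! # Prescribed sets of record size free of the differences `j q - i a p` -/

namespace Pool.Agent.TH101.RG

open Finset Filter
open Pool.Agent.H378R2
open Pool.Agent.H312R2.RG (ev_ff)
open Pool.Agent.H256R2.SC (ff)

open scoped Classical

/-- `|iz|/φ(|iz|) ≤ |i| |z|/φ(|z|)` -/
theorem ratio_mul_le (i z : ℤ) (hi : i ≠ 0) (hz : z ≠ 0) :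
    ((i * z).natAbs : ℝ) / ((i * z).natAbs.totient : ℝ) ≤
      |(i : ℝ)| * ((z.natAbs : ℝ) / (z.natAbs.totient : ℝ)) := by
  rw [Int.natAbs_mul]
  have hz0 : 0 < z.natAbs := Int.natAbs_pos.2 hz
  have hi0 : 0 < i.natAbs := Int.natAbs_pos.2 hi
  have h1 : z.natAbs.totient ≤ (i.natAbs * z.natAbs).totient :=
    Nat.le_of_dvd (Nat.totient_pos.2 (Nat.mul_pos hi0 hz0)) (Nat.totient_dvd_of_dvd (dvd_mul_left _ _))
  have h2 : (0 : ℝ) < z.natAbs.totient := by exact_mod_cast Nat.totient_pos.2 hz0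
  have h3 : (z.natAbs.totient : ℝ) ≤ ((i.natAbs * z.natAbs).totient : ℝ) := by exact_mod_cast h1
  have h4 : ((i.natAbs : ℕ) : ℝ) = |(i : ℝ)| := by rw [Nat.cast_natAbs, Int.cast_abs]
  rw [← h4, mul_div_assoc']
  push_cast
  exact div_le_div_of_nonneg_left (by positivity) h2 h3

theorem sum_image_le' {ι : Type} (s : Finset ι) (f : ι → ℤ) (w : ℤ → ℝ) (hw : ∀ z, 0 ≤ w z) :
    ∑ z ∈ s.image f, w z ≤ ∑ i ∈ s, w (f i) := by
  induction s using Finset.induction_on with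
  | empty => simp
  | insert a s ha ih =>
    rw [image_insert, sum_insert ha]
    by_cases h : f a ∈ s.image f
    · rw [insert_eq_of_mem h]
      linarith [hw (f a)]
    · rw [sum_insert h]
      linarith

theorem pattern_free (A D J : ℕ) (A₀ : ℝ) (d : ℕ) (hd : Squarefree d) : ∃ c : ℝ, 0 < c ∧ ∀ᶠ X : ℝ in atTop,
    ∀ a : ℤ, a ≠ 0 → |(a : ℝ)| ≤ (Real.log X) ^ D → |(a : ℝ)| ≤ A₀ * (a.natAbs.totient : ℝ) →
    ∀ h : ℕ, h.Coprime d → ∀ Z : Finset ℤ,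
    (∀ z ∈ Z, z ≠ 0 ∧ |(z : ℝ)| ≤ Real.log X * (Real.log (Real.log X)) ^ A) →
    ∑ z ∈ Z, ((z.natAbs : ℝ) / (z.natAbs.totient : ℝ)) ≤ c * ff X →
    ∀ bad : Finset ℕ, (bad.card : ℝ) ≤ X ^ (9 / 10 : ℝ) →
    ∃ p : ℕ, p.Prime ∧ X < p ∧ (p : ℝ) ≤ 3 * X ∧ p ∉ bad ∧ p ≡ h [MOD d] ∧
      ∀ i j : ℤ, 1 ≤ |i| → |i| ≤ J → 1 ≤ |j| → |j| ≤ J → ∀ q : ℕ, q.Prime → j * q - i * (a * p) ∉ Z := by
  obtain ⟨ℓ, hℓ⟩ : ∃ ℓ : ℕ, ℓ = J.factorial := ⟨_, rfl⟩
  have hℓ0 : 0 < ℓ := by rw [hℓ]; exact Nat.factorial_pos J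
  have hℓr : (1 : ℝ) ≤ ℓ := by exact_mod_cast hℓ0
  have hd0 : d ≠ 0 := hd.ne_zero
  obtain ⟨c₁, hc₁, hone⟩ := oneZ (A + 1) (D + 2) (ℓ + |A₀| + d)
  refine ⟨c₁ / (3 * ℓ * ℓ), by positivity, ?_⟩
  have t1 := Real.tendsto_log_atTop
  have t2 : Tendsto (fun y : ℝ => Real.log (Real.log y)) atTop atTop := t1.comp t1
  filter_upwards [hone d hd, ev_ff c₁ hc₁, t1.eventually_ge_atTop ((ℓ : ℝ) * d),
    t1.eventually_ge_atTop ((J : ℝ) + 2), t2.eventually_ge_atTop (ℓ + 1 : ℝ), eventually_ge_atTop 4,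
    t1.eventually (Pool.Agent.H378R2.ev_pow_exp (D + A + 3) (1 / 40) 1 (by norm_num))]
    with X hX hff hLd hLJ hLℓ hX4 hE
  intro a ha haD haφ h hh Z hZ hZw bad hbad
  set L := Real.log X with hL
  have hX0 : 0 < X := by linarith
  have hJ0 : (0 : ℝ) ≤ J := Nat.cast_nonneg J
  have hL1 : 1 ≤ L := by linarith
  have hL0 : 0 < L := by linarith
  have hLL : Real.log L ≤ L := (Real.log_le_sub_one_of_pos hL0).trans (by linarith)
  have hLL0 : 0 < Real.log L := by linarith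
  set E := Real.exp (1 / 40 * L) with hEd
  rw [one_mul] at hE
  have hE0 : 0 < E := Real.exp_pos _
  have hELJ : (J : ℝ) + 2 ≤ E := by
    have h1 : L ^ 1 ≤ L ^ (D + A + 3) := pow_le_pow_right₀ hL1 (by omega)
    rw [pow_one] at h1
    linarith
  have hE1 : 1 ≤ E := by linarith
  have hpowE : ∀ k : ℕ, X ^ ((k : ℝ) / 40) = E ^ k := by
    intro k
    rw [hEd, ← Real.exp_nat_mul, Real.rpow_def_of_pos hX0, ← hL]
    congr 1
    ring
  have e1000 : X ^ (1 / 1000 : ℝ) ≤ E := by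
    have h1 := hpowE 1
    rw [pow_one] at h1
    rw [← h1]
    exact Real.rpow_le_rpow_of_exponent_le (by linarith) (by norm_num)
  have eX : X = E ^ 40 := by
    have h1 := hpowE 40
    rw [← h1]
    norm_num
  -- the data
  set ga : ℕ := ℓ * (a.natAbs * d) with hga
  have hana : a.natAbs ≠ 0 := Int.natAbs_ne_zero.2 ha
  have hga0 : ga ≠ 0 := by
    rw [hga]
    exact mul_ne_zero hℓ0.ne' (mul_ne_zero hana hd0)
  have hacast : ((a.natAbs : ℕ) : ℝ) = |(a : ℝ)| := by rw [Nat.cast_natAbs, Int.cast_abs]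
  have hgsum : ∑ p ∈ ga.primeFactors, (1 : ℝ) / p ≤ ℓ + |A₀| + d := by
    have h1 := sum_inv_mul ℓ (a.natAbs * d) hℓ0.ne' (mul_ne_zero hana hd0)
    have h2 := sum_inv_mul a.natAbs d hana hd0
    have h3 := sum_inv_le_self ℓ
    have h4 := sum_inv_le_self d
    have h5 := sum_inv_le_of_totient a.natAbs hana A₀ (by rw [hacast]; exact haφ)
    have h6 := le_abs_self A₀
    rw [← hga] at h1
    linarith
  have hgle : (ga : ℝ) ≤ L ^ (D + 1) := by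
    rw [hga]
    push_cast
    rw [hacast]
    calc (ℓ : ℝ) * (|(a : ℝ)| * d) = |(a : ℝ)| * (ℓ * d) := by ring
      _ ≤ L ^ D * L := mul_le_mul haD hLd (by positivity) (by positivity)
      _ = L ^ (D + 1) := (pow_succ _ _).symm
  have hdivga : (ℓ : ℤ) * a ∣ (ga : ℤ) := by
    rw [hga]
    push_cast
    have h1 : (a : ℤ) ∣ |a| := (dvd_abs a a).2 (dvd_refl a)
    exact mul_dvd_mul (dvd_refl _) (h1.mul_right _)
  have hℓa : (ℓ : ℤ) * a ≠ 0 := mul_ne_zero (by exact_mod_cast hℓ0.ne') ha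
  -- the set of shifts
  set I : Finset ℤ := (Icc (-(ℓ : ℤ)) ℓ).filter (fun i => i ≠ 0) with hI
  have hImem : ∀ i : ℤ, i ∈ I ↔ (|i| ≤ ℓ ∧ i ≠ 0) := by
    intro i
    rw [hI, mem_filter, mem_Icc, abs_le]
  have hIcard : (I.card : ℝ) ≤ 3 * ℓ := by
    have h1 : I.card ≤ (Icc (-(ℓ : ℤ)) ℓ).card := card_le_card (filter_subset _ _)
    rw [Int.card_Icc] at h1
    have h2 : I.card ≤ 3 * ℓ := by omega
    exact_mod_cast h2
  set Z' : Finset ℤ := (I ×ˢ Z).image (fun x => x.1 * x.2) with hZ'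
  have hZ'mem : ∀ z ∈ Z', z ≠ 0 ∧ |(z : ℝ)| ≤ L * (Real.log L) ^ (A + 1) := by
    intro z hz
    rw [hZ', mem_image] at hz
    obtain ⟨⟨i, x⟩, hix, rfl⟩ := hz
    rw [mem_product, hImem] at hix
    obtain ⟨⟨hi1, hi2⟩, hx⟩ := hix
    obtain ⟨hx1, hx2⟩ := hZ x hx
    refine ⟨mul_ne_zero hi2 hx1, ?_⟩
    push_cast
    rw [abs_mul]
    have hi3 : |(i : ℝ)| ≤ ℓ := by exact_mod_cast hi1
    calc |(i : ℝ)| * |(x : ℝ)| ≤ Real.log L * (L * (Real.log L) ^ A) :=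
          mul_le_mul (by linarith) hx2 (abs_nonneg _) hLL0.le
      _ = _ := by ring
  have hZ'w : ∑ z ∈ Z', ((z.natAbs : ℝ) / (z.natAbs.totient : ℝ)) ≤ c₁ * ff X := by
    have h1 := sum_image_le' (I ×ˢ Z) (fun x => x.1 * x.2)
      (fun z : ℤ => ((z.natAbs : ℝ) / (z.natAbs.totient : ℝ))) (fun z => by positivity)
    rw [← hZ', sum_product] at h1
    refine h1.trans ?_
    have h2 : ∀ i ∈ I, ∑ z ∈ Z, (((i * z).natAbs : ℝ) / ((i * z).natAbs.totient : ℝ)) ≤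
        ℓ * (c₁ / (3 * ℓ * ℓ) * ff X) := by
      intro i hi
      rw [hImem] at hi
      have hi3 : |(i : ℝ)| ≤ ℓ := by exact_mod_cast hi.1
      calc ∑ z ∈ Z, (((i * z).natAbs : ℝ) / ((i * z).natAbs.totient : ℝ)) ≤
          ∑ z ∈ Z, ℓ * ((z.natAbs : ℝ) / (z.natAbs.totient : ℝ)) := by
            apply sum_le_sum
            intro z hz
            refine (ratio_mul_le i z hi.2 (hZ z hz).1).trans ?_
            exact mul_le_mul_of_nonneg_right hi3 (by positivity)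
        _ = ℓ * ∑ z ∈ Z, ((z.natAbs : ℝ) / (z.natAbs.totient : ℝ)) := (mul_sum _ _ _).symm
        _ ≤ _ := mul_le_mul_of_nonneg_left hZw (by positivity)
    refine (sum_le_card_nsmul _ _ _ h2).trans ?_
    rw [nsmul_eq_mul]
    have hffn : 0 ≤ ff X := hff.2.1
    calc (I.card : ℝ) * (ℓ * (c₁ / (3 * ℓ * ℓ) * ff X)) ≤ (3 * ℓ) * (ℓ * (c₁ / (3 * ℓ * ℓ) * ff X)) :=
          mul_le_mul_of_nonneg_right hIcard (by positivity)
      _ = c₁ * ff X := by field_simp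
  have hLX : L ≤ X := (Real.log_le_sub_one_of_pos hX0).trans (by linarith)
  have hX1 : 1 ≤ X := by linarith
  have hLA : ∀ B : ℕ, B ≤ A + 1 → L * (Real.log L) ^ B ≤ E := by
    intro B hB
    calc L * (Real.log L) ^ B ≤ L * L ^ B := by gcongr
      _ = L ^ (B + 1) := by ring
      _ ≤ L ^ (D + A + 3) := pow_le_pow_right₀ hL1 (by omega)
      _ ≤ E := hE
  have hEX : E ≤ X := by
    rw [eX]
    calc E = E ^ 1 := (pow_one _).symm
      _ ≤ E ^ 40 := pow_le_pow_right₀ hE1 (by norm_num)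
  obtain ⟨p, hp, hXp, hp3, hpb, hpd, hmain⟩ := hX (fun _ => ℓ * a) (fun z => z) ga hga0
    (by
      rw [hga]
      exact Dvd.dvd.mul_left (Dvd.dvd.mul_left (dvd_refl d) _) _) hgsum
    (hgle.trans (pow_le_pow_right₀ hL1 (by omega)))
    (by
      intro r hr hrg cc hcc
      have hra : ¬ (r : ℤ) ∣ ℓ * a := fun h1 => hrg (by exact_mod_cast h1.trans hdivga)
      obtain ⟨ρ, hρ⟩ := solve r hr (ℓ * a) cc hra
      refine ⟨ρ, ?_, ?_⟩
      · intro h1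
        apply hcc
        have h2 : (r : ℤ) ∣ (ρ : ℤ) := Int.natCast_dvd_natCast.2 h1
        have h3 := dvd_sub hρ (h2.mul_left (ℓ * a))
        rwa [add_sub_cancel_left] at h3
      · intro z n h1 h2
        have h3 : (ℓ : ℤ) * a * n + z = (ℓ * a) * (n - ρ) + (ℓ * a * ρ + cc) + (z - cc) := by ring
        show (r : ℤ) ∣ (ℓ : ℤ) * a * n + z
        rw [h3]
        exact dvd_add (dvd_add (h2.mul_left _) hρ) h1) h hh bad hbad Z' hZ'mem
    (fun z hz => ⟨hℓa, (hZ'mem z hz).1⟩)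
    (by
      intro z hz
      constructor
      · push_cast
        rw [abs_mul, abs_of_nonneg (by positivity : (0 : ℝ) ≤ ℓ)]
        have h1 : (ℓ : ℝ) ≤ L := by linarith
        calc (ℓ : ℝ) * |(a : ℝ)| ≤ L * L ^ D := mul_le_mul h1 haD (abs_nonneg _) hL0.le
          _ = L ^ (D + 1) := by ring
          _ ≤ X ^ (D + 1) := pow_le_pow_left₀ hL0.le hLX _
          _ ≤ X ^ (D + 2) := pow_le_pow_right₀ hX1 (by omega)
      · calc |(z : ℝ)| ≤ L * (Real.log L) ^ (A + 1) := (hZ'mem z hz).2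
          _ ≤ E := hLA _ le_rfl
          _ ≤ X := hEX
          _ = X ^ 1 := (pow_one _).symm
          _ ≤ X ^ (D + 2) := pow_le_pow_right₀ hX1 (by omega))
    (by
      intro k _ l _ hkl h1
      exact hkl (mul_left_cancel₀ hℓa h1).symm) hZ'w
  refine ⟨p, hp, hXp, hp3, hpb, hpd, ?_⟩
  intro i j hi1 hiJ hj1 hjJ q hq hmem
  set k : ℤ := j * q - i * (a * p) with hk
  obtain ⟨hk0, hkle⟩ := hZ k hmem
  have hdivℓ : ∀ x : ℤ, 1 ≤ |x| → |x| ≤ J → x ∣ (ℓ : ℤ) := by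
    intro x h1 h2
    rw [Int.abs_eq_natAbs] at h1 h2
    rw [← Int.natAbs_dvd_natAbs, Int.natAbs_natCast, hℓ]
    apply Nat.dvd_factorial
    · exact_mod_cast h1
    · exact_mod_cast h2
  obtain ⟨i₁, hi₁⟩ := hdivℓ i hi1 hiJ
  have hi₁ℓ : i₁ ∣ (ℓ : ℤ) := ⟨i, by rw [hi₁]; ring⟩
  have hi₁0 : i₁ ≠ 0 := by
    rintro rfl
    rw [mul_zero] at hi₁
    have : (0 : ℤ) < ℓ := by exact_mod_cast hℓ0
    omega
  have hi₁le : |i₁| ≤ (ℓ : ℤ) := by
    rw [Int.abs_eq_natAbs]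
    have := Nat.le_of_dvd hℓ0 (Int.natCast_dvd_natCast.1 ((Int.natAbs_dvd).2 hi₁ℓ))
    exact_mod_cast this
  have hid : (ℓ : ℤ) * a * p + i₁ * k = i₁ * j * q := by
    rw [hk, hi₁]
    ring
  obtain ⟨q', hq', hq'X, hq'g, hq'd⟩ := hmain (i₁ * k) (by
    rw [hZ', mem_image]
    exact ⟨(i₁, k), mem_product.2 ⟨(hImem i₁).2 ⟨hi₁le, hi₁0⟩, hmem⟩, rfl⟩)
  rw [hid] at hq'd
  have hq'ℓ : ¬ (q' : ℤ) ∣ (ℓ : ℤ) := by
    intro h1
    apply hq'g
    rw [hga]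
    exact (Int.natCast_dvd_natCast.1 h1).mul_right _
  have hqq : q' = q := by
    rcases (Nat.prime_iff_prime_int.1 hq').dvd_mul.1 hq'd with h1 | h1
    · rcases (Nat.prime_iff_prime_int.1 hq').dvd_mul.1 h1 with h2 | h2
      · exact absurd (h2.trans hi₁ℓ) hq'ℓ
      · exact absurd (h2.trans (hdivℓ j hj1 hjJ)) hq'ℓ
    · exact (Nat.prime_dvd_prime_iff_eq hq' hq).1 (by exact_mod_cast h1)
  have hqE : (q : ℝ) ≤ E := by
    rw [← hqq]
    exact hq'X.trans e1000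
  -- contradiction
  have h1 : |(i : ℝ)| * (|(a : ℝ)| * p) ≤ (J : ℝ) * E + E := by
    have h2 : (i : ℝ) * ((a : ℝ) * p) = j * q - (k : ℤ) := by
      rw [hk]
      push_cast
      ring
    have h3 : |(i : ℝ)| * (|(a : ℝ)| * p) = |(i : ℝ) * ((a : ℝ) * p)| := by
      rw [abs_mul, abs_mul, abs_of_nonneg (Nat.cast_nonneg p : (0 : ℝ) ≤ p)]
    rw [h3, h2]
    refine (abs_sub _ _).trans ?_
    rw [abs_mul, abs_of_nonneg (Nat.cast_nonneg q : (0 : ℝ) ≤ q)]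
    have h4 : |(j : ℝ)| ≤ J := by exact_mod_cast hjJ
    have h5 : |(j : ℝ)| * q ≤ J * E := mul_le_mul h4 hqE (Nat.cast_nonneg q) hJ0
    have h6 := hkle.trans (hLA A (by omega))
    linarith
  have h2 : (1 : ℝ) ≤ |(i : ℝ)| := by exact_mod_cast hi1
  have h3 : (1 : ℝ) ≤ |(a : ℝ)| := by
    have : 1 ≤ |a| := Int.one_le_abs ha
    exact_mod_cast this
  have h4 : X ≤ |(i : ℝ)| * (|(a : ℝ)| * p) := by
    calc X ≤ p := hXp.le
      _ ≤ |(a : ℝ)| * p := le_mul_of_one_le_left (Nat.cast_nonneg p) h3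
      _ ≤ _ := le_mul_of_one_le_left (by positivity) h2
  have h5 : (J : ℝ) * E + E < E ^ 40 := by
    calc (J : ℝ) * E + E = (J + 1) * E := by ring
      _ < E * E := mul_lt_mul_of_pos_right (by linarith) hE0
      _ = E ^ 2 := by ring
      _ ≤ E ^ 40 := pow_le_pow_right₀ hE1 (by norm_num)
  rw [eX] at h4
  linarith

end Pool.Agent.TH101.RG
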