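import Pool.Agent.TH101.RG.FamT
import Pool.Agent.TH101.RG.PrAvg
import Pool.Agent.TH101.RG.LPA

set_option autoImplicit false
set_option maxHeartbeats 4000000

/-! # Averages of powers of `n / φ(n)` over the values of a polynomial with at most two roots modulo `p` -/

namespace Pool.Agent.TH101.RG

open Finset Filter

open scoped Classical

/-- at most two residue classes of zeros modulo every prime -/
def TwoRoots (F : ℕ → ℤ) : Prop := ∀ p : ℕ, p.Prime → ∃ R : Finset ℕ, R.card ≤ 2 ∧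
  ∀ m : ℕ, (p : ℤ) ∣ F m → ∃ r ∈ R, m ≡ r [MOD p]

theorem twoRoots_id : TwoRoots (fun m => (m : ℤ)) := by
  intro p _
  refine ⟨{0}, by simp, fun m hm => ⟨0, by simp, ?_⟩⟩
  have hm' : (p : ℤ) ∣ (m : ℤ) := hm
  have h1 : p ∣ m := by exact_mod_cast hm'
  exact (Nat.modEq_zero_iff_dvd).2 h1

theorem twoRoots_sq (s c : ℤ) (hs : s = 1 ∨ s = -1) : TwoRoots (fun m => c - s * (m : ℤ) ^ 2) := by
  intro p hp
  by_cases hex : ∃ m₀ : ℕ, (p : ℤ) ∣ c - s * (m₀ : ℤ) ^ 2
  · obtain ⟨m₀, hm₀⟩ := hex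
    refine ⟨{m₀, (p - m₀ % p)}, card_le_two, fun m hm => ?_⟩
    have hp' : Prime (p : ℤ) := Nat.prime_iff_prime_int.mp hp
    have h1 : (p : ℤ) ∣ s * (((m : ℤ) - m₀) * (m + m₀)) := by
      have := dvd_sub hm₀ hm
      have e : c - s * (m₀ : ℤ) ^ 2 - (c - s * (m : ℤ) ^ 2) = s * (((m : ℤ) - m₀) * (m + m₀)) := by ring
      rwa [e] at this
    have h2 : (p : ℤ) ∣ ((m : ℤ) - m₀) * (m + m₀) := by
      rcases hs with rfl | rfl
      · simpa using h1
      · have h3 := (dvd_neg.2 h1)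
        have e : -(-1 * (((m : ℤ) - m₀) * (m + m₀))) = ((m : ℤ) - m₀) * (m + m₀) := by ring
        rwa [e] at h3
    rcases hp'.dvd_or_dvd h2 with h3 | h3
    · refine ⟨m₀, by simp, ?_⟩
      exact (Nat.modEq_iff_dvd.2 (by
        have := (dvd_neg.2 h3)
        have e : -((m : ℤ) - m₀) = (m₀ : ℤ) - m := by ring
        rwa [e] at this))
    · refine ⟨p - m₀ % p, by simp, ?_⟩
      rw [Nat.modEq_iff_dvd]
      have hlt : m₀ % p < p := Nat.mod_lt _ hp.pos
      have e1 : ((p - m₀ % p : ℕ) : ℤ) = (p : ℤ) - ((m₀ % p : ℕ) : ℤ) := by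
        rw [Nat.cast_sub hlt.le]
      have e2 : ((m₀ % p : ℕ) : ℤ) = (m₀ : ℤ) - p * (m₀ / p : ℕ) := by
        have h4 : (p : ℤ) * ((m₀ / p : ℕ) : ℤ) + ((m₀ % p : ℕ) : ℤ) = m₀ := by
          exact_mod_cast Nat.div_add_mod m₀ p
        linarith
      rw [e1, e2]
      have e3 : (p : ℤ) - ((m₀ : ℤ) - p * ((m₀ / p : ℕ) : ℤ)) - m = p * (1 + ((m₀ / p : ℕ) : ℤ)) - (m + m₀) := by ring
      rw [e3]
      exact dvd_sub (dvd_mul_right _ _) h3
  · push Not at hex
    exact ⟨∅, by simp, fun m hm => absurd hm (hex m)⟩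

theorem cover_classes (F : ℕ → ℤ) (hF : TwoRoots F) (T : Finset ℕ) (hT : ∀ p ∈ T, p.Prime) :
    ∃ R : Finset ℕ, R.card ≤ 2 ^ T.card ∧
      ∀ m : ℕ, (∀ p ∈ T, (p : ℤ) ∣ F m) → ∃ r ∈ R, m ≡ r [MOD ∏ p ∈ T, p] := by
  induction T using Finset.induction_on with
  | empty => exact ⟨{0}, by simp, fun m _ => ⟨0, by simp, by simpa using Nat.modEq_one⟩⟩
  | insert q T hq ih =>
    obtain ⟨R, hR1, hR2⟩ := ih (fun p hp => hT p (mem_insert_of_mem hp))
    obtain ⟨Q, hQ1, hQ2⟩ := hF q (hT q (mem_insert_self _ _))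
    have hcop : Nat.Coprime q (∏ p ∈ T, p) := by
      rw [Nat.coprime_prod_right_iff]
      intro p hp
      exact (Nat.coprime_primes (hT q (mem_insert_self _ _)) (hT p (mem_insert_of_mem hp))).2
        (fun h => hq (h ▸ hp))
    refine ⟨(Q ×ˢ R).image (fun z => (Nat.chineseRemainder hcop z.1 z.2 : ℕ)), ?_, ?_⟩
    · refine card_image_le.trans ?_
      rw [card_product, card_insert_of_notMem hq, pow_succ, mul_comm]
      exact Nat.mul_le_mul hR1 hQ1
    · intro m hm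
      obtain ⟨r, hr, hmr⟩ := hR2 m (fun p hp => hm p (mem_insert_of_mem hp))
      obtain ⟨r', hr', hmr'⟩ := hQ2 m (hm q (mem_insert_self _ _))
      refine ⟨(Nat.chineseRemainder hcop r' r : ℕ), mem_image.2 ⟨(r', r), mem_product.2 ⟨hr', hr⟩, rfl⟩, ?_⟩
      rw [prod_insert hq]
      have h1 := (Nat.chineseRemainder hcop r' r).2
      exact (Nat.modEq_and_modEq_iff_modEq_mul hcop).1 ⟨hmr'.trans h1.1.symm, hmr.trans h1.2.symm⟩

theorem count_class (Y M r : ℕ) (hM : 0 < M) :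
    ((Icc 1 Y).filter (fun m => m ≡ r [MOD M])).card ≤ Y / M + 1 := by
  rw [← card_range (Y / M + 1)]
  apply card_le_card_of_injOn (fun m => m / M)
  · intro m hm
    have hm' := mem_filter.1 (mem_coe.1 hm)
    rw [mem_Icc] at hm'
    simp only [coe_range, Set.mem_Iio]
    exact Nat.lt_succ_of_le (Nat.div_le_div_right hm'.1.2)
  · intro m hm m' hm' heq
    have h1 := (mem_filter.1 (mem_coe.1 hm)).2
    have h2 := (mem_filter.1 (mem_coe.1 hm')).2
    have h3 : m % M = m' % M := h1.trans h2.symm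
    have h4 : m / M = m' / M := heq
    rw [← Nat.div_add_mod m M, ← Nat.div_add_mod m' M, h3, h4]

theorem count_T (F : ℕ → ℤ) (hF : TwoRoots F) (T : Finset ℕ) (hT : ∀ p ∈ T, p.Prime) (Y : ℕ)
    (hY : ∏ p ∈ T, p ≤ Y) :
    (((Icc 1 Y).filter (fun m => ∀ p ∈ T, (p : ℤ) ∣ F m)).card : ℝ) ≤ 2 * Y * ∏ p ∈ T, (2 / (p : ℝ)) := by
  obtain ⟨R, hR1, hR2⟩ := cover_classes F hF T hT
  set M : ℕ := ∏ p ∈ T, p with hM
  have hM0 : 0 < M := prod_pos fun p hp => (hT p hp).pos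
  have h1 : ((Icc 1 Y).filter (fun m => ∀ p ∈ T, (p : ℤ) ∣ F m)).card ≤ 2 ^ T.card * (Y / M + 1) := by
    calc ((Icc 1 Y).filter (fun m => ∀ p ∈ T, (p : ℤ) ∣ F m)).card
        ≤ (R.biUnion (fun r => (Icc 1 Y).filter (fun m => m ≡ r [MOD M]))).card := by
          apply card_le_card
          intro m hm
          rw [mem_filter] at hm
          obtain ⟨r, hr, hmr⟩ := hR2 m hm.2
          exact mem_biUnion.2 ⟨r, hr, mem_filter.2 ⟨hm.1, hmr⟩⟩
      _ ≤ ∑ r ∈ R, ((Icc 1 Y).filter (fun m => m ≡ r [MOD M])).card := card_biUnion_le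
      _ ≤ ∑ _r ∈ R, (Y / M + 1) := sum_le_sum fun r _ => count_class Y M r hM0
      _ = R.card * (Y / M + 1) := by rw [sum_const, smul_eq_mul]
      _ ≤ _ := Nat.mul_le_mul_right _ hR1
  have hMr : (0 : ℝ) < M := by exact_mod_cast hM0
  have h2 : ((Y / M + 1 : ℕ) : ℝ) ≤ 2 * Y / M := by
    have h3 : ((Y / M : ℕ) : ℝ) ≤ (Y : ℝ) / M := Nat.cast_div_le
    have h4 : (1 : ℝ) ≤ (Y : ℝ) / M := by
      rw [le_div_iff₀ hMr, one_mul]
      exact_mod_cast hY
    push_cast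
    calc ((Y / M : ℕ) : ℝ) + 1 ≤ (Y : ℝ) / M + (Y : ℝ) / M := add_le_add h3 h4
      _ = 2 * Y / M := by ring
  have h5 : ∏ p ∈ T, (2 / (p : ℝ)) = 2 ^ T.card / M := by
    rw [prod_div_distrib, prod_const, hM]
    push_cast
    rfl
  calc (((Icc 1 Y).filter (fun m => ∀ p ∈ T, (p : ℤ) ∣ F m)).card : ℝ)
      ≤ ((2 ^ T.card * (Y / M + 1) : ℕ) : ℝ) := by exact_mod_cast h1
    _ = 2 ^ T.card * ((Y / M + 1 : ℕ) : ℝ) := by push_cast; ring
    _ ≤ 2 ^ T.card * (2 * Y / M) := mul_le_mul_of_nonneg_left h2 (by positivity)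
    _ = 2 * Y * (2 ^ T.card / M) := by ring
    _ = _ := by rw [h5]

/-- the mean value of `(N / φ(N))^K`, `N = |F(m)|` -/
theorem sum_ratio_poly (K : ℕ) (A : ℝ) (hA : 0 ≤ A) : ∃ C : ℝ, 0 < C ∧ ∃ Y₀ : ℕ, ∀ Y : ℕ, Y₀ ≤ Y →
    ∀ F : ℕ → ℤ, TwoRoots F → (∀ m ∈ Icc 1 Y, |(F m : ℝ)| ≤ (Y : ℝ) ^ A) →
    ∑ m ∈ (Icc 1 Y).filter (fun m : ℕ => F m ≠ 0),
      (Ra (F m).natAbs) ^ K ≤ C * Y := by
  set c : ℝ := (3 : ℝ) ^ K - 1 with hc
  have hc0 : 0 ≤ c := by
    rw [hc]
    have : (1 : ℝ) ≤ 3 ^ K := one_le_pow₀ (by norm_num)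
    linarith
  refine ⟨Real.exp (4 * (5 * A) * K) * (2 * Real.exp (4 * c)), by positivity,
    ⌈Real.exp 100⌉₊, fun Y hY F hF hFA => ?_⟩
  have hYe : Real.exp 100 ≤ Y := (Nat.le_ceil _).trans (by exact_mod_cast hY)
  have hY0 : (0 : ℝ) < Y := (Real.exp_pos _).trans_le hYe
  have hlY : 100 ≤ Real.log Y := by
    rw [Real.le_log_iff_exp_le hY0]
    exact hYe
  set y := ⌊Real.log Y / 4⌋₊ with hy
  have hy4 : (y : ℝ) ≤ Real.log Y / 4 := Nat.floor_le (by positivity)
  have hy5 : Real.log Y / 5 ≤ y := by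
    have := Nat.lt_floor_add_one (Real.log Y / 4)
    rw [← hy] at this
    linarith
  have hy0 : 0 < y := by
    have : (0 : ℝ) < y := by linarith
    exact_mod_cast this
  have h4y : 4 ^ y ≤ Y := by
    have h1 : Real.log 4 ≤ 4 := by
      have := Real.log_le_sub_one_of_pos (show (0 : ℝ) < 4 by norm_num)
      linarith
    have h3 : ((4 ^ y : ℕ) : ℝ) ≤ Y := by
      push_cast
      rw [← Real.log_le_log_iff (by positivity) hY0, Real.log_pow]
      have : (0 : ℝ) ≤ y := Nat.cast_nonneg y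
      nlinarith
    exact_mod_cast h3
  set P : Finset ℕ := (Icc 1 y).filter Nat.Prime with hP
  have hPp : ∀ p ∈ P, p.Prime ∧ p ≤ y := by
    intro p hp
    rw [hP, mem_filter, mem_Icc] at hp
    exact ⟨hp.2, hp.1.2⟩
  have hTY : ∀ T ∈ P.powerset, ∏ p ∈ T, p ≤ Y := by
    intro T hT
    rw [mem_powerset] at hT
    refine le_trans ?_ h4y
    refine le_trans ?_ (primorial_le_four_pow y)
    unfold primorial
    apply Finset.prod_le_prod_of_subset_of_one_le'
    · intro p hp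
      have h1 := hPp p (hT hp)
      rw [mem_filter, mem_range]
      exact ⟨by omega, h1.1⟩
    · intro p hp _
      exact (mem_filter.1 hp).2.one_le
  set Q : Finset ℕ := Icc 1 Y with hQ
  have hpt : ∀ m ∈ Q.filter (fun m : ℕ => F m ≠ 0),
      (Ra (F m).natAbs) ^ K ≤ Real.exp (4 * (5 * A) * K) *
        ∑ T ∈ P.powerset, (if ∀ p ∈ T, (p : ℤ) ∣ F m then ∏ p ∈ T, (c / (p : ℝ)) else 0) := by
    intro m hm
    rw [mem_filter] at hm
    obtain ⟨hmQ, hmF⟩ := hm
    set n := (F m).natAbs with hn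
    have hn0 : n ≠ 0 := Int.natAbs_ne_zero.2 hmF
    have hlog : Real.log n ≤ 5 * A * y := by
      have h1 : (n : ℝ) ≤ (Y : ℝ) ^ A := by
        have h2 : (n : ℝ) = |(F m : ℝ)| := by
          rw [hn, Nat.cast_natAbs]
          push_cast
          rfl
        rw [h2]
        exact hFA m hmQ
      have h2 : Real.log n ≤ A * Real.log Y := by
        rw [← Real.log_rpow hY0]
        exact Real.log_le_log (by exact_mod_cast Nat.pos_of_ne_zero hn0) h1
      nlinarith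
    unfold Ra
    refine (ratio_pow_le K (5 * A) n hn0 y hy0 hlog).trans ?_
    apply mul_le_mul_of_nonneg_left _ (Real.exp_pos _).le
    rw [Finset.prod_one_add, ← sum_filter]
    apply le_of_eq
    apply sum_congr _ fun _ _ => rfl
    ext T
    rw [mem_powerset, mem_filter, mem_powerset]
    constructor
    · intro h
      refine ⟨fun p hp => ?_, fun p hp => ?_⟩
      · have h1 := mem_filter.1 (h hp)
        rw [hP, mem_filter, mem_Icc]
        have h2 := Nat.prime_of_mem_primeFactors h1.1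
        exact ⟨⟨h2.one_le, h1.2⟩, h2⟩
      · have h1 := mem_filter.1 (h hp)
        exact Int.natCast_dvd.2 (Nat.dvd_of_mem_primeFactors h1.1)
    · rintro ⟨h1, h2⟩ p hp
      rw [mem_filter, Nat.mem_primeFactors]
      exact ⟨⟨(hPp p (h1 hp)).1, Int.natCast_dvd.1 (h2 p hp), hn0⟩, (hPp p (h1 hp)).2⟩
  calc ∑ m ∈ Q.filter (fun m : ℕ => F m ≠ 0), (Ra (F m).natAbs) ^ K
      ≤ ∑ m ∈ Q.filter (fun m : ℕ => F m ≠ 0), Real.exp (4 * (5 * A) * K) *
        ∑ T ∈ P.powerset, (if ∀ p ∈ T, (p : ℤ) ∣ F m then ∏ p ∈ T, (c / (p : ℝ)) else 0) :=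
        sum_le_sum hpt
    _ ≤ ∑ m ∈ Q, Real.exp (4 * (5 * A) * K) *
        ∑ T ∈ P.powerset, (if ∀ p ∈ T, (p : ℤ) ∣ F m then ∏ p ∈ T, (c / (p : ℝ)) else 0) := by
        apply sum_le_sum_of_subset_of_nonneg (filter_subset _ _)
        intro m _ _
        apply mul_nonneg (Real.exp_pos _).le
        apply sum_nonneg
        intro T _
        split_ifs
        · exact prod_nonneg fun p _ => by positivity
        · exact le_rfl
    _ = Real.exp (4 * (5 * A) * K) * ∑ T ∈ P.powerset, (∏ p ∈ T, (c / (p : ℝ))) *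
        ((Q.filter (fun m : ℕ => ∀ p ∈ T, (p : ℤ) ∣ F m)).card : ℝ) := by
        rw [← mul_sum, sum_comm]
        congr 1
        apply sum_congr rfl
        intro T _
        rw [← sum_filter, sum_const, nsmul_eq_mul, mul_comm]
    _ ≤ Real.exp (4 * (5 * A) * K) * ∑ T ∈ P.powerset, (∏ p ∈ T, (c / (p : ℝ))) *
        (2 * Y * ∏ p ∈ T, (2 / (p : ℝ))) := by
        apply mul_le_mul_of_nonneg_left _ (Real.exp_pos _).le
        apply sum_le_sum
        intro T hT
        apply mul_le_mul_of_nonneg_left _ (prod_nonneg fun p _ => by positivity)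
        exact count_T F hF T (fun p hp => (hPp p ((mem_powerset.1 hT) hp)).1) Y (hTY T hT)
    _ = Real.exp (4 * (5 * A) * K) * (2 * Y *
        ∑ T ∈ P.powerset, ∏ p ∈ T, (2 * c * (1 / (p : ℝ) ^ 2))) := by
        congr 1
        rw [mul_sum]
        apply sum_congr rfl
        intro T _
        have h1 : ∏ p ∈ T, (2 * c * (1 / (p : ℝ) ^ 2)) =
            (∏ p ∈ T, (c / (p : ℝ))) * ∏ p ∈ T, (2 / (p : ℝ)) := by
          rw [← prod_mul_distrib]
          apply prod_congr rfl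
          intro p _
          field_simp
        rw [h1]
        ring
    _ ≤ Real.exp (4 * (5 * A) * K) * (2 * Y * Real.exp (4 * c)) := by
        apply mul_le_mul_of_nonneg_left _ (Real.exp_pos _).le
        apply mul_le_mul_of_nonneg_left _ (by positivity)
        rw [← Finset.prod_one_add]
        calc ∏ p ∈ P, (1 + 2 * c * (1 / (p : ℝ) ^ 2)) ≤ ∏ p ∈ P, Real.exp (2 * c * (1 / (p : ℝ) ^ 2)) := by
              apply Finset.prod_le_prod
              · intro p _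
                positivity
              · intro p _
                have := Real.add_one_le_exp (2 * c * (1 / (p : ℝ) ^ 2))
                linarith
          _ = Real.exp (∑ p ∈ P, 2 * c * (1 / (p : ℝ) ^ 2)) := by rw [Real.exp_sum]
          _ ≤ Real.exp (4 * c) := by
              apply Real.exp_le_exp.2
              rw [← mul_sum]
              have := Pool.Agent.H318R2.Cr.sum_inv_sq P
              nlinarith
    _ = Real.exp (4 * (5 * A) * K) * (2 * Real.exp (4 * c)) * Y := by ring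

end Pool.Agent.TH101.RG
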