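import Pool.Agent.TH101.RG.SQA

set_option autoImplicit false
set_option maxHeartbeats 4000000

/-! # The covering of `n + b - s r²` along a tuple: every prime covers two classes of `r` -/

namespace Pool.Agent.TH101.RG

open Finset Filter Pool.Agent.H398R2.RK
open Pool.Agent.H378R2
open Pool.Agent.H318R2.Cr (cz_bounds Pz one_sub_inv_pos)
open Pool.Agent.H312R2.RG (BVat)
open Pool.Agent.H362R2.RQ (fib)

open scoped Classical

/-- the numbers that must not be divisible by `p` if `p` is to be used for `r = m` -/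
def valsSq {K : ℕ} (s b : ℤ) (t : Fin K → ℕ) (m : ℕ) : Fin (K + 1) → ℤ :=
  Fin.cons (m : ℤ) (fun j => b - t j - s * (m : ℤ) ^ 2)

theorem greedySq {K : ℕ} (s b : ℤ) (t : Fin K → ℕ) (v : ℕ → ℕ) (P : Finset ℕ)
    (hP : ∀ p ∈ P, p.Prime ∧ p ≠ 2)
    (hv : ∀ p ∈ P, ∀ j, ¬ p ∣ v p + t j) : ∀ Z : Finset ℕ, ∃ β : ℕ → ℤ,
    (∀ p ∈ P, ∀ j, ¬ (p : ℤ) ∣ β p + t j) ∧
    ((Z.filter (fun m : ℕ => ∀ p ∈ P, ¬ (p : ℤ) ∣ β p + (b - s * (m : ℤ) ^ 2))).card : ℝ) ≤
      ∑ m ∈ Z, ∏ p ∈ P, (if ∀ i : Fin (K + 1), ¬ (p : ℤ) ∣ valsSq s b t m i then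
        1 - 2 / (p : ℝ) else 1) := by
  induction P using Finset.induction_on with
  | empty => exact fun Z => ⟨fun _ => 0, by simp, by simp⟩
  | insert q P hq ih =>
    intro Z
    have hih := ih (fun p hp => hP p (mem_insert_of_mem hp)) (fun p hp => hv p (mem_insert_of_mem hp))
    obtain ⟨hqp, hq2⟩ := hP q (mem_insert_self _ _)
    have hq3 : 3 ≤ q := by
      have := hqp.two_le
      omega
    have hodd : q % 2 = 1 := by
      rcases hqp.eq_two_or_odd with h | h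
      · exact absurd h hq2
      · exact h
    have hq0 : (0 : ℝ) < q := by exact_mod_cast hqp.pos
    set Φ : ℕ → ℝ := fun m => ∏ p ∈ P, (if ∀ i : Fin (K + 1), ¬ (p : ℤ) ∣ valsSq s b t m i then
        1 - 2 / (p : ℝ) else 1) with hΦ
    have hΦ0 : ∀ z, 0 ≤ Φ z := by
      intro z
      rw [hΦ]
      apply prod_nonneg
      intro p hp
      have hp1 : (2 : ℝ) ≤ p := by exact_mod_cast (hP p (mem_insert_of_mem hp)).1.two_le
      split_ifs
      · rw [sub_nonneg, div_le_one (by linarith)]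
        exact hp1
      · norm_num
    set G : Finset ℕ := Z.filter (fun m => ∀ i : Fin (K + 1), ¬ (q : ℤ) ∣ valsSq s b t m i)
      with hG
    have hGm : ∀ m ∈ G, ¬ q ∣ m ∧ ∀ j, ¬ (q : ℤ) ∣ b - t j - s * (m : ℤ) ^ 2 := by
      intro m hm
      rw [hG, mem_filter] at hm
      have h0 := hm.2 0
      unfold valsSq at h0
      rw [Fin.cons_zero] at h0
      refine ⟨fun h => h0 (by exact_mod_cast h), fun j => ?_⟩
      have h1 := hm.2 j.succ
      unfold valsSq at h1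
      rwa [Fin.cons_succ] at h1
    set f : ℕ → ℕ := fun m => ((s * (m : ℤ) ^ 2 - b) % (q : ℤ)).toNat with hf
    have hqz : (q : ℤ) ≠ 0 := by exact_mod_cast hqp.ne_zero
    have hfd : ∀ m m' : ℕ, f m = f m' → (q : ℤ) ∣ (s * (m' : ℤ) ^ 2 - b) - (s * (m : ℤ) ^ 2 - b) := by
      intro m m' h
      have h1 : (s * (m : ℤ) ^ 2 - b) % (q : ℤ) = (s * (m' : ℤ) ^ 2 - b) % (q : ℤ) := by
        have h2 := Int.emod_nonneg (s * (m : ℤ) ^ 2 - b) hqz
        have h3 := Int.emod_nonneg (s * (m' : ℤ) ^ 2 - b) hqz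
        have h4 : (((s * (m : ℤ) ^ 2 - b) % (q : ℤ)).toNat : ℤ) = (((s * (m' : ℤ) ^ 2 - b) % (q : ℤ)).toNat : ℤ) := by
          exact_mod_cast h
        rwa [Int.toNat_of_nonneg h2, Int.toNat_of_nonneg h3] at h4
      exact Int.ModEq.dvd h1
    have hdf : ∀ m m' : ℕ, (q : ℤ) ∣ (s * (m' : ℤ) ^ 2 - b) - (s * (m : ℤ) ^ 2 - b) → f m = f m' := by
      intro m m' h
      have h1 : (s * (m : ℤ) ^ 2 - b) % (q : ℤ) = (s * (m' : ℤ) ^ 2 - b) % (q : ℤ) :=
        (Int.modEq_iff_dvd.2 h)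
      simp only [hf]
      rw [h1]
    set tq : Finset ℕ := (Icc 1 ((q - 1) / 2)).image f with htq
    have hmaps : ∀ m ∈ G, f m ∈ tq := by
      intro m hm
      have hqm := (hGm m hm).1
      have hr0 : m % q ≠ 0 := fun h => hqm (Nat.dvd_of_mod_eq_zero h)
      have hrl : m % q < q := Nat.mod_lt _ hqp.pos
      have hmd : (q : ℤ) ∣ (m : ℤ) - ((m % q : ℕ) : ℤ) := by
        rw [← Nat.modEq_iff_dvd]
        exact Nat.mod_modEq _ _
      rw [htq, mem_image]
      rcases le_or_gt (m % q) ((q - 1) / 2) with h | h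
      · refine ⟨m % q, mem_Icc.2 ⟨by omega, h⟩, hdf _ _ ?_⟩
        have e : (s * (m : ℤ) ^ 2 - b) - (s * (((m % q : ℕ) : ℤ)) ^ 2 - b) =
            ((m : ℤ) - ((m % q : ℕ) : ℤ)) * (s * ((m : ℤ) + ((m % q : ℕ) : ℤ))) := by ring
        rw [e]
        exact hmd.mul_right _
      · refine ⟨q - m % q, mem_Icc.2 ⟨by omega, by omega⟩, hdf _ _ ?_⟩
        have e1 : ((q - m % q : ℕ) : ℤ) = (q : ℤ) - ((m % q : ℕ) : ℤ) := by
          rw [Nat.cast_sub hrl.le]
        rw [e1]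
        have e : (s * (m : ℤ) ^ 2 - b) - (s * ((q : ℤ) - ((m % q : ℕ) : ℤ)) ^ 2 - b) =
            ((m : ℤ) - ((m % q : ℕ) : ℤ)) * (s * ((m : ℤ) - (q - ((m % q : ℕ) : ℤ)))) +
              (q : ℤ) * (s * ((m : ℤ) - ((m % q : ℕ) : ℤ)) + s * ((m : ℤ) - (q - ((m % q : ℕ) : ℤ)))
                - s * ((m : ℤ) - ((m % q : ℕ) : ℤ)) ) := by ring
        rw [e]
        exact dvd_add (hmd.mul_right _) (dvd_mul_right _ _)
    have htc : (tq.card : ℝ) * (2 / (q : ℝ)) ≤ 1 := by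
      have h1 : tq.card ≤ (q - 1) / 2 := by
        rw [htq]
        refine card_image_le.trans ?_
        rw [Nat.card_Icc]
        omega
      have h2 : (tq.card : ℝ) * 2 ≤ q := by
        have h3 : tq.card * 2 ≤ q := by omega
        exact_mod_cast h3
      rw [mul_div_assoc', div_le_one hq0]
      exact h2
    have hS0 : 0 ≤ ∑ z ∈ G, Φ z := sum_nonneg fun i _ => hΦ0 i
    obtain ⟨c, hc1, hc2⟩ : ∃ c : ℤ, (∀ j, ¬ (q : ℤ) ∣ c + t j) ∧
        2 / (q : ℝ) * ∑ z ∈ G, Φ z ≤ ∑ z ∈ Z.filter (fun m : ℕ => (q : ℤ) ∣ c + (b - s * (m : ℤ) ^ 2)), Φ z := by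
      obtain ⟨r, hr, hr2⟩ := Finset.exists_le_sum_fiber_of_maps_to_of_nsmul_le_sum
        (s := G) (t := tq) (f := f) (w := Φ)
        (b := 2 / (q : ℝ) * ∑ z ∈ G, Φ z)
        hmaps
        ⟨f 1, by rw [htq, mem_image]; exact ⟨1, mem_Icc.2 ⟨le_rfl, by omega⟩, rfl⟩⟩
        (by
          rw [nsmul_eq_mul, ← mul_assoc]
          exact mul_le_of_le_one_left hS0 htc)
      by_cases hne : (G.filter (fun z : ℕ => f z = r)).Nonempty
      · obtain ⟨z₀, hz₀⟩ := hne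
        rw [mem_filter] at hz₀
        refine ⟨s * (z₀ : ℤ) ^ 2 - b, ?_, hr2.trans ?_⟩
        · intro j hqr
          apply (hGm z₀ hz₀.1).2 j
          have h2 := (dvd_neg.2 hqr)
          have h3 : -(s * (z₀ : ℤ) ^ 2 - b + t j) = b - t j - s * (z₀ : ℤ) ^ 2 := by ring
          rwa [h3] at h2
        · apply sum_le_sum_of_subset_of_nonneg
          · intro z hz
            rw [mem_filter] at hz ⊢
            refine ⟨(mem_filter.1 hz.1).1, ?_⟩
            have h1 := hfd z z₀ (hz.2.trans hz₀.2.symm)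
            have h3 : (s * (z₀ : ℤ) ^ 2 - b) - (s * (z : ℤ) ^ 2 - b) =
              s * (z₀ : ℤ) ^ 2 - b + (b - s * (z : ℤ) ^ 2) := by ring
            rwa [h3] at h1
          · intro i _ _
            exact hΦ0 i
      · rw [not_nonempty_iff_eq_empty] at hne
        rw [hne, sum_empty] at hr2
        refine ⟨v q, fun j h1 => ?_, hr2.trans (sum_nonneg fun i _ => hΦ0 i)⟩
        exact hv q (mem_insert_self _ _) j (by exact_mod_cast h1)
    obtain ⟨β, hβ1, hβ2⟩ := hih (Z.filter (fun m : ℕ => ¬ (q : ℤ) ∣ c + (b - s * (m : ℤ) ^ 2)))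
    refine ⟨fun p => if p = q then c else β p, ?_, ?_⟩
    · intro p hp j
      by_cases hpq : p = q
      · simp only [hpq, if_true]
        exact hc1 j
      · simp only [hpq, if_false]
        exact hβ1 p ((mem_insert.1 hp).resolve_left hpq) j
    · have h1 : (Z.filter (fun m : ℕ => ∀ p ∈ insert q P, ¬ (p : ℤ) ∣ (if p = q then c else β p) + (b - s * (m : ℤ) ^ 2))).card ≤
          ((Z.filter (fun m : ℕ => ¬ (q : ℤ) ∣ c + (b - s * (m : ℤ) ^ 2))).filter
            (fun m : ℕ => ∀ p ∈ P, ¬ (p : ℤ) ∣ β p + (b - s * (m : ℤ) ^ 2))).card := by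
        apply card_le_card
        intro z hz
        rw [mem_filter] at hz
        rw [mem_filter, mem_filter]
        refine ⟨⟨hz.1, ?_⟩, ?_⟩
        · have := hz.2 q (mem_insert_self _ _)
          rwa [if_pos rfl] at this
        · intro p hp
          have h2 := hz.2 p (mem_insert_of_mem hp)
          rwa [if_neg (fun h : p = q => hq (h ▸ hp))] at h2
      have h2 : ((Z.filter (fun m : ℕ => ∀ p ∈ insert q P,
          ¬ (p : ℤ) ∣ (if p = q then c else β p) + (b - s * (m : ℤ) ^ 2))).card : ℝ) ≤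
          ∑ z ∈ Z.filter (fun m : ℕ => ¬ (q : ℤ) ∣ c + (b - s * (m : ℤ) ^ 2)), Φ z := le_trans (by exact_mod_cast h1) hβ2
      refine h2.trans ?_
      have h3 : ∑ z ∈ Z.filter (fun m : ℕ => (q : ℤ) ∣ c + (b - s * (m : ℤ) ^ 2)), Φ z +
          ∑ z ∈ Z.filter (fun m : ℕ => ¬ (q : ℤ) ∣ c + (b - s * (m : ℤ) ^ 2)), Φ z =
          ∑ z ∈ Z, Φ z := sum_filter_add_sum_filter_not _ _ _
      have h4 : ∑ z ∈ Z, ∏ p ∈ insert q P, (if ∀ i : Fin (K + 1), ¬ (p : ℤ) ∣ valsSq s b t z i then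
          1 - 2 / (p : ℝ) else 1) =
          ∑ z ∈ Z, Φ z - 2 / (q : ℝ) * ∑ z ∈ G, Φ z := by
        rw [hG, mul_sum, sum_filter, ← sum_sub_distrib]
        apply sum_congr rfl
        intro z _
        rw [prod_insert hq]
        split_ifs
        · ring
        · ring
      rw [h4]
      linarith

end Pool.Agent.TH101.RG
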