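import Pool.Agent.TH101.RG.SQB

set_option autoImplicit false
set_option maxHeartbeats 4000000

/-! # The numbers `n + b - s r²` at clusters of primes -/

namespace Pool.Agent.TH101.RG

open Finset Filter Pool.Agent.H398R2.RK
open Pool.Agent.H378R2
open Pool.Agent.H318R2.Cr (cz_bounds Pz one_sub_inv_pos)
open Pool.Agent.H312R2.RG (BVat)
open Pool.Agent.H362R2.RQ (fib)

open scoped Classical

/-- the average of the weights -/
theorem sum_wSq (K : ℕ) : ∃ C : ℝ, 0 < C ∧ ∃ Y₀ : ℕ, ∀ Y : ℕ, Y₀ ≤ Y → ∀ s b : ℤ, (s = 1 ∨ s = -1) →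
    |(b : ℝ)| ≤ (Y : ℝ) ^ 2 → ∀ t : Fin K → ℕ, (∀ j, (t j : ℝ) ≤ (Y : ℝ) ^ 2) →
    ∑ m ∈ (Icc 1 Y).filter (fun m : ℕ => ∀ j, b - t j ≠ s * (m : ℤ) ^ 2),
      (∏ i, Ra (valsSq s b t m i).natAbs) ^ 2 ≤ C * Y := by
  obtain ⟨C, hC, Y₀, h⟩ := sum_ratio_poly (2 * (K + 1)) 3 (by norm_num)
  refine ⟨(K + 1) * C, by positivity, max Y₀ 3, fun Y hY s b hs hb t ht => ?_⟩
  have hY0 : Y₀ ≤ Y := (le_max_left _ _).trans hY
  have hY3 : 3 ≤ Y := (le_max_right _ _).trans hY
  have hY3r : (3 : ℝ) ≤ Y := by exact_mod_cast hY3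
  have hYY : (Y : ℝ) ^ (3 : ℝ) = Y ^ 3 := by
    rw [show (3 : ℝ) = ((3 : ℕ) : ℝ) by norm_num, Real.rpow_natCast]
  have hbd : ∀ i : Fin (K + 1), TwoRoots (fun m => valsSq s b t m i) ∧
      ∀ m ∈ Icc 1 Y, |((valsSq s b t m i : ℤ) : ℝ)| ≤ (Y : ℝ) ^ (3 : ℝ) := by
    intro i
    rw [hYY]
    refine Fin.cases ?_ (fun j => ?_) i
    · refine ⟨?_, fun m hm => ?_⟩
      · have h1 : (fun m : ℕ => valsSq s b t m 0) = (fun m : ℕ => (m : ℤ)) := by
          funext m
          unfold valsSq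
          rw [Fin.cons_zero]
        rw [h1]
        exact twoRoots_id
      · unfold valsSq
        rw [Fin.cons_zero]
        have h1 : (m : ℝ) ≤ Y := by exact_mod_cast (mem_Icc.1 hm).2
        have h2 : |((m : ℤ) : ℝ)| = m := by
          rw [Int.cast_natCast, abs_of_nonneg (Nat.cast_nonneg m)]
        rw [h2]
        nlinarith [mul_pos (show (0 : ℝ) < Y by linarith) (show (0 : ℝ) < Y by linarith)]
    · refine ⟨?_, fun m hm => ?_⟩
      · have h1 : (fun m : ℕ => valsSq s b t m j.succ) = (fun m : ℕ => (b - t j) - s * (m : ℤ) ^ 2) := by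
          funext m
          unfold valsSq
          rw [Fin.cons_succ]
        rw [h1]
        exact twoRoots_sq s _ hs
      · unfold valsSq
        rw [Fin.cons_succ]
        have h1 : (m : ℝ) ≤ Y := by exact_mod_cast (mem_Icc.1 hm).2
        have h0 : (0 : ℝ) ≤ m := Nat.cast_nonneg m
        have hm2 : (m : ℝ) ^ 2 ≤ Y ^ 2 := pow_le_pow_left₀ h0 h1 2
        have ht' := ht j
        have ht0 : (0 : ℝ) ≤ t j := Nat.cast_nonneg _
        have hb' := abs_le.1 hb
        have hm0 : 0 ≤ (m : ℝ) ^ 2 := by positivity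
        have h3 : 3 * (Y : ℝ) ^ 2 ≤ Y ^ 3 := by
          have : (Y : ℝ) ^ 3 = Y * Y ^ 2 := by ring
          rw [this]
          exact mul_le_mul_of_nonneg_right hY3r (by positivity)
        rw [abs_le]
        push_cast
        rcases hs with rfl | rfl
        · push_cast
          constructor <;> nlinarith
        · push_cast
          constructor <;> nlinarith
  calc ∑ m ∈ (Icc 1 Y).filter (fun m : ℕ => ∀ j, b - t j ≠ s * (m : ℤ) ^ 2),
        (∏ i, Ra (valsSq s b t m i).natAbs) ^ 2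
      ≤ ∑ m ∈ (Icc 1 Y).filter (fun m : ℕ => ∀ j, b - t j ≠ s * (m : ℤ) ^ 2),
        ∑ i, (Ra (valsSq s b t m i).natAbs) ^ (2 * (K + 1)) := by
        apply sum_le_sum
        intro m _
        obtain ⟨j₀, -, hj₀⟩ := exists_max_image (univ : Finset (Fin (K + 1)))
          (fun i => Ra (valsSq s b t m i).natAbs) univ_nonempty
        calc (∏ i, Ra (valsSq s b t m i).natAbs) ^ 2
            ≤ (∏ _i : Fin (K + 1), Ra (valsSq s b t m j₀).natAbs) ^ 2 := by
              apply pow_le_pow_left₀ (prod_nonneg fun i _ => Ra_nonneg _)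
              apply Finset.prod_le_prod
              · intro i _
                exact Ra_nonneg _
              · intro i _
                exact hj₀ i (mem_univ i)
          _ = (Ra (valsSq s b t m j₀).natAbs) ^ (2 * (K + 1)) := by
              rw [prod_const, card_univ, Fintype.card_fin, ← pow_mul]
              congr 1
              ring
          _ ≤ ∑ i, (Ra (valsSq s b t m i).natAbs) ^ (2 * (K + 1)) :=
              single_le_sum (f := fun i => (Ra (valsSq s b t m i).natAbs) ^ (2 * (K + 1)))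
                (fun i _ => pow_nonneg (Ra_nonneg _) _) (mem_univ j₀)
    _ = ∑ i, ∑ m ∈ (Icc 1 Y).filter (fun m : ℕ => ∀ j, b - t j ≠ s * (m : ℤ) ^ 2),
        (Ra (valsSq s b t m i).natAbs) ^ (2 * (K + 1)) := sum_comm
    _ ≤ ∑ _i : Fin (K + 1), C * Y := by
        apply sum_le_sum
        intro i _
        refine le_trans ?_ (h Y hY0 (fun m => valsSq s b t m i) (hbd i).1 (hbd i).2)
        apply sum_le_sum_of_subset_of_nonneg
        · intro m hm
          rw [mem_filter] at hm ⊢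
          refine ⟨hm.1, ?_⟩
          refine Fin.cases ?_ (fun j => ?_) i
          · unfold valsSq
            rw [Fin.cons_zero]
            have := (mem_Icc.1 hm.1).1
            exact_mod_cast (by omega : m ≠ 0)
          · unfold valsSq
            rw [Fin.cons_succ]
            exact sub_ne_zero.2 (hm.2 j)
        · intro m _ _
          exact pow_nonneg (Ra_nonneg _) _
    _ = (K + 1) * C * Y := by
        rw [sum_const, card_univ, Fintype.card_fin, nsmul_eq_mul]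
        push_cast
        ring

/-- the covering -/
theorem covSq (K : ℕ) (A0 : ℝ) (c₃ : ℝ) (hc₃ : 0 < c₃) : ∃ c : ℝ, 0 < c ∧
    ∀ᶠ X : ℝ in atTop, ∀ (ps : ℕ) (S : Finset ℕ), GoodS X S → ∀ (g : ℕ), g ≠ 0 → 2 ∣ g →
    ∑ p ∈ g.primeFactors, (1 : ℝ) / p ≤ A0 →
    ∀ (t : Fin K → ℕ), (∀ j, (t j : ℝ) ≤ (Real.log X) ^ 2) →
    ∀ v : ℕ → ℕ, (∀ p : ℕ, p.Prime → ∀ j, ¬ p ∣ v p + t j) →
    ∀ s b : ℤ, (s = 1 ∨ s = -1) → |(b : ℝ)| ≤ (Real.log X) ^ 2 →
    ∃ (β : ℕ → ℤ) (U0 : Finset ℕ), (∀ m ∈ U0, 1 ≤ m ∧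
        (m : ℝ) ≤ c * (Real.log X * (Real.log (Real.log X)) ^ 2) ∧ ∀ j, b - t j ≠ s * (m : ℤ) ^ 2) ∧
      (U0.card : ℝ) ≤ c₃ * Real.log X ∧
      (∀ p ∈ PW X S ps, ∀ j, ¬ (p : ℤ) ∣ β p + t j) ∧
      ∀ m : ℕ, 1 ≤ m → (m : ℝ) ≤ c * (Real.log X * (Real.log (Real.log X)) ^ 2) →
        (∀ j, b - t j ≠ s * (m : ℤ) ^ 2) → m ∉ U0 →
        ∃ p ∈ PW X S ps, ¬ p ∣ g ∧ (p : ℤ) ∣ β p + (b - s * (m : ℤ) ^ 2) := by
  obtain ⟨c₁, c₂, hc₁, hc₁₂, hV⟩ := cz_bounds
  have hc₂ : 0 < c₂ := hc₁.trans_le hc₁₂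
  obtain ⟨C, hC, Y₀, hsum⟩ := sum_wSq K
  set Q : ℝ := 2 * c₂ * Real.exp (2 * (A0 + 2)) with hQ
  have hQ0 : 0 < Q := by positivity
  obtain ⟨c, hc⟩ : ∃ c : ℝ, c = c₃ / (Q ^ 2 * C) := ⟨_, rfl⟩
  have hc0 : 0 < c := by rw [hc]; positivity
  refine ⟨c, hc0, ?_⟩
  have t1 := Real.tendsto_log_atTop
  have t2 : Tendsto (fun y : ℝ => Real.log (Real.log y)) atTop atTop := t1.comp t1
  filter_upwards [t2.eventually_ge_atTop 1000, t1.eventually_gt_atTop 0, t2.eventually_ge_atTop (2 / c),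
    t1.eventually_ge_atTop (Y₀ : ℝ)] with X e1 hT0 e3 e4
  intro ps S hS g hg0 h2g hgS t htl v hv s b hs hb
  set T := Real.log X with hT
  set A' := Real.log T with hA
  have hA0 : 0 < A' := by linarith
  have hTe : T = Real.exp A' := by rw [hA, Real.exp_log hT0]
  have hTA : 2 * A' ≤ T := by
    have h1 := Real.add_one_le_exp (A' / 2)
    have h2 : Real.exp A' = Real.exp (A' / 2) * Real.exp (A' / 2) := by
      rw [← Real.exp_add]; congr 1; ring
    rw [hTe, h2]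
    nlinarith [Real.exp_pos (A' / 2)]
  have hT4000 : 4000 ≤ T := by
    have h1 := Real.add_one_le_exp (A' / 2)
    have h2 : Real.exp A' = Real.exp (A' / 2) * Real.exp (A' / 2) := by
      rw [← Real.exp_add]; congr 1; ring
    rw [hTe, h2]
    nlinarith [Real.exp_pos (A' / 2)]
  set y := yy X with hy
  have hyT : (y : ℝ) ≤ T / 1000 := Nat.floor_le (by positivity)
  have hyT2 : T / 2000 ≤ y := by
    have h1 : T / 1000 < (y : ℝ) + 1 := Nat.lt_floor_add_one _
    linarith [show T / 1000 = T / 2000 + T / 2000 by ring]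
  have hy2r : (2 : ℝ) ≤ y := by linarith
  have hy2 : 2 ≤ y := by exact_mod_cast hy2r
  have hy0 : (0 : ℝ) < y := by linarith
  have hly2 : A' / 2 ≤ Real.log y := by
    have h1 : Real.log (T / 2000) ≤ Real.log y := Real.log_le_log (by positivity) hyT2
    rw [Real.log_div hT0.ne' (by norm_num)] at h1
    have h2 : Real.log 2000 ≤ 500 := by
      have := Real.log_le_sub_one_of_pos (show (0 : ℝ) < 2000 / Real.exp 7.5 by positivity)
      have h3 : Real.log (2000 / Real.exp 7.5) = Real.log 2000 - 7.5 := by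
        rw [Real.log_div (by norm_num) (Real.exp_pos _).ne', Real.log_exp]
      have h4 : 2000 / Real.exp 7.5 ≤ 2000 / 8.5 := by
        apply div_le_div_of_nonneg_left (by norm_num) (by norm_num)
        have := Real.add_one_le_exp (7.5 : ℝ)
        linarith
      norm_num at h4 ⊢
      linarith
    linarith
  have hly0 : 0 < Real.log y := by linarith
  -- the range
  obtain ⟨Y, hY⟩ : ∃ Y : ℕ, Y = ⌊c * (T * A' ^ 2)⌋₊ := ⟨_, rfl⟩
  have hYle : (Y : ℝ) ≤ c * (T * A' ^ 2) := by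
    rw [hY]
    exact Nat.floor_le (by positivity)
  have hYT : T ≤ Y := by
    have h1 : c * (T * A' ^ 2) < (Y : ℝ) + 1 := by rw [hY]; exact Nat.lt_floor_add_one _
    have h2 : 2 ≤ c * A' ^ 2 := by
      rw [div_le_iff₀ hc0] at e3
      have h3 : A' ≤ A' ^ 2 := by nlinarith
      nlinarith
    have h3 : 2 * T ≤ c * (T * A' ^ 2) := by nlinarith
    linarith
  have hYY0 : Y₀ ≤ Y := by
    have : (Y₀ : ℝ) ≤ Y := e4.trans hYT
    exact_mod_cast this
  have hTY2 : T ^ 2 ≤ (Y : ℝ) ^ 2 := pow_le_pow_left₀ hT0.le hYT 2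
  -- the primes that can be used
  set P : Finset ℕ := (PW X S ps).filter (fun p => ¬ p ∣ g) with hP
  have hPmem : ∀ p ∈ P, p ≤ y ∧ p.Prime ∧ p ∈ PW X S ps ∧ ¬ p ∣ g := by
    intro p hp
    rw [hP, mem_filter] at hp
    exact ⟨(mem_PW.1 hp.1).1, (mem_PW.1 hp.1).2.1, hp.1, hp.2⟩
  have hPz : ∀ p ∈ Pz y, p.Prime := by
    intro p hp
    unfold Pool.Agent.H318R2.Cr.Pz at hp
    exact (mem_filter.1 hp).2
  have hPS : P ⊆ Pz y := by
    intro p hp
    obtain ⟨h1, h2, h3, h4⟩ := hPmem p hp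
    unfold Pool.Agent.H318R2.Cr.Pz
    rw [mem_filter, mem_Ioc]
    exact ⟨⟨h2.pos, h1⟩, h2⟩
  have hpos : ∀ i : ℕ, 0 ≤ (1 : ℝ) / (i : ℝ) := fun i => by positivity
  set Ps : Finset ℕ := if ps.Prime then {ps} else ∅ with hPs
  have hdiff : ∑ p ∈ Pz y \ P, (1 : ℝ) / p ≤ A0 + 2 := by
    have hsub : Pz y \ P ⊆ (S ∪ Ps) ∪ g.primeFactors := by
      intro p hp
      obtain ⟨h1, h2⟩ := Finset.mem_sdiff.1 hp
      have hpp := hPz p h1
      unfold Pool.Agent.H318R2.Cr.Pz at h1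
      rw [mem_filter, mem_Ioc] at h1
      rw [mem_union, mem_union]
      by_contra hcon
      push Not at hcon
      obtain ⟨⟨k1, k2⟩, k3⟩ := hcon
      apply h2
      rw [hP, mem_filter]
      refine ⟨mem_PW.2 ⟨h1.1.2, hpp, k1, ?_⟩, ?_⟩
      · intro h
        apply k2
        rw [hPs, ← h, if_pos hpp]
        simp
      · intro h
        apply k3
        rw [Nat.mem_primeFactors]
        exact ⟨hpp, h, hg0⟩
    have h1 : ∑ q ∈ Pz y \ P, (1 : ℝ) / q ≤ (∑ q ∈ S, (1 : ℝ) / q + ∑ q ∈ Ps, (1 : ℝ) / q) +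
        ∑ q ∈ g.primeFactors, (1 : ℝ) / q := by
      refine (sum_le_sum_of_subset_of_nonneg hsub (fun i _ _ => hpos i)).trans ?_
      refine (sum_union_le' _ hpos).trans ?_
      apply add_le_add_left
      exact sum_union_le' _ hpos
    have h2 : ∑ q ∈ Ps, (1 : ℝ) / q ≤ 1 := by
      rw [hPs]
      split_ifs with h
      · rw [sum_singleton, div_le_one (by exact_mod_cast h.pos)]
        exact_mod_cast h.one_lt.le
      · simp
    have h3 : ∑ q ∈ S, (1 : ℝ) / q ≤ 1 := by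
      refine hS.2.trans ?_
      rw [div_le_one (by positivity)]
      nlinarith only [e1]
    linarith
  have hprod : ∏ p ∈ Pz y, (1 - 1 / (p : ℝ)) ≤ 2 * c₂ / A' := by
    have h1 := (hV y hy2).2
    unfold Pool.Agent.H318R2.Cr.V at h1
    rw [← le_div_iff₀ hly0] at h1
    refine h1.trans ?_
    rw [div_le_div_iff₀ hly0 hA0]
    have h3 := mul_le_mul_of_nonneg_left hly2 hc₂.le
    linarith only [h3]
  set Z : Finset ℕ := (Icc 1 Y).filter (fun m : ℕ => ∀ j, b - t j ≠ s * (m : ℤ) ^ 2) with hZ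
  obtain ⟨βg, hβ1, hβ2⟩ := greedySq s b t v P (fun p hp => ⟨(hPmem p hp).2.1, fun h => (hPmem p hp).2.2.2 (h ▸ h2g)⟩)
    (fun p hp => hv p (hPmem p hp).2.1) Z
  set U0 : Finset ℕ := Z.filter (fun m : ℕ => ∀ p ∈ P, ¬ (p : ℤ) ∣ βg p + (b - s * (m : ℤ) ^ 2)) with hU0
  have hvals : ∀ m ∈ Z, ∀ i, valsSq s b t m i ≠ 0 := by
    intro m hm i
    rw [hZ, mem_filter] at hm
    refine Fin.cases ?_ (fun j => ?_) i
    · unfold valsSq
      rw [Fin.cons_zero]
      have := (mem_Icc.1 hm.1).1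
      exact_mod_cast (by omega : m ≠ 0)
    · unfold valsSq
      rw [Fin.cons_succ]
      exact sub_ne_zero.2 (hm.2 j)
  have hUc : (U0.card : ℝ) ≤ c₃ * T := by
    have h1 : (U0.card : ℝ) ≤ ∑ m ∈ Z, (Q / A') ^ 2 * (∏ i, Ra (valsSq s b t m i).natAbs) ^ 2 := by
      refine hβ2.trans (sum_le_sum fun m hm => ?_)
      have h2 := prodZ (K + 1) (fun i => - valsSq s b t m i) P (Pz y) hPS hPz (A0 + 2) hdiff 0
        (fun i h => hvals m hm i (neg_eq_zero.1 h.symm))
      simp only [zero_sub, neg_neg] at h2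
      have h3 : ∏ p ∈ P, (if ∀ i : Fin (K + 1), ¬ (p : ℤ) ∣ valsSq s b t m i then 1 - 2 / (p : ℝ) else 1) ≤
          (∏ p ∈ P, (if ∀ i : Fin (K + 1), ¬ (p : ℤ) ∣ valsSq s b t m i then 1 - 1 / (p : ℝ) else 1)) ^ 2 := by
        rw [← prod_pow]
        apply Finset.prod_le_prod
        · intro p hp
          have hp1 : (2 : ℝ) ≤ p := by exact_mod_cast (hPmem p hp).2.1.two_le
          split_ifs
          · rw [sub_nonneg, div_le_one (by linarith)]
            exact hp1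
          · norm_num
        · intro p hp
          split_ifs
          · have : 0 ≤ (1 / (p : ℝ)) ^ 2 := by positivity
            have e : (1 - 1 / (p : ℝ)) ^ 2 = 1 - 2 / p + (1 / (p : ℝ)) ^ 2 := by ring
            rw [e]
            linarith
          · norm_num
      have h4 : 0 ≤ ∏ p ∈ P, (if ∀ i : Fin (K + 1), ¬ (p : ℤ) ∣ valsSq s b t m i then 1 - 1 / (p : ℝ) else 1) := by
        apply prod_nonneg
        intro p hp
        split_ifs
        · exact (one_sub_inv_pos (hPmem p hp).2.1).le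
        · norm_num
      have h5 : 0 ≤ ∏ i, Ra (valsSq s b t m i).natAbs := prod_nonneg fun i _ => Ra_nonneg _
      refine h3.trans ?_
      rw [← mul_pow]
      apply pow_le_pow_left₀ h4
      refine h2.trans ?_
      have h6 : (∏ p ∈ Pz y, (1 - 1 / (p : ℝ))) * Real.exp (2 * (A0 + 2)) ≤ Q / A' := by
        calc (∏ p ∈ Pz y, (1 - 1 / (p : ℝ))) * Real.exp (2 * (A0 + 2))
            ≤ (2 * c₂ / A') * Real.exp (2 * (A0 + 2)) :=
              mul_le_mul_of_nonneg_right hprod (Real.exp_pos _).le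
          _ = Q / A' := by rw [hQ]; ring
      exact mul_le_mul_of_nonneg_right h6 h5
    rw [← mul_sum] at h1
    have h7 := hsum Y hYY0 s b hs (hb.trans hTY2) t (fun j => (htl j).trans hTY2)
    calc (U0.card : ℝ) ≤ (Q / A') ^ 2 * (C * Y) :=
          h1.trans (mul_le_mul_of_nonneg_left h7 (by positivity))
      _ ≤ (Q / A') ^ 2 * (C * (c * (T * A' ^ 2))) := by gcongr
      _ = c₃ * T := by
          rw [hc]
          field_simp
  refine ⟨fun p => if p ∈ P then βg p else v p, U0, ?_, hUc, ?_, ?_⟩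
  · intro m hm
    rw [hU0, mem_filter, hZ, mem_filter, mem_Icc] at hm
    refine ⟨hm.1.1.1, ?_, hm.1.2⟩
    have : (m : ℝ) ≤ Y := by exact_mod_cast hm.1.1.2
    exact this.trans hYle
  · intro p hp j
    have hpp := (mem_PW.1 hp).2.1
    show ¬ (p : ℤ) ∣ (if p ∈ P then βg p else v p) + t j
    split_ifs with h1
    · exact hβ1 p h1 j
    · intro h1
      exact hv p hpp j (by exact_mod_cast h1)
  · intro m hm1 hmc hmt hmU
    have hmZ : m ∈ Z := by
      rw [hZ, mem_filter, mem_Icc]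
      refine ⟨⟨hm1, ?_⟩, hmt⟩
      rw [hY]
      exact Nat.le_floor hmc
    have h1 : ∃ p ∈ P, (p : ℤ) ∣ βg p + (b - s * (m : ℤ) ^ 2) := by
      by_contra hcon
      push Not at hcon
      exact hmU (mem_filter.2 ⟨hmZ, hcon⟩)
    obtain ⟨p, hp, hpd⟩ := h1
    obtain ⟨g1, g2, g3, g4⟩ := hPmem p hp
    refine ⟨p, g3, g4, ?_⟩
    show (p : ℤ) ∣ (if p ∈ P then βg p else v p) + (b - s * (m : ℤ) ^ 2)
    rw [if_pos hp]
    exact hpd

end Pool.Agent.TH101.RG
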