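import Pool.Agent.TH101.RG.SQC

set_option autoImplicit false
set_option maxHeartbeats 4000000

/-! # The numbers `n + b - s r²` at clusters of primes: end of the proof -/

namespace Pool.Agent.TH101.RG

open Finset Filter Pool.Agent.H398R2.RK
open Pool.Agent.H378R2
open Pool.Agent.H312R2.RG (BVat)
open Pool.Agent.H362R2.RQ (fib)

open scoped Classical

theorem tupSq : ∃ η : ℝ, 0 < η ∧ ∀ m : ℕ, 1 ≤ m → ∃ K : ℕ, m ≤ K ∧ ∀ (A0 : ℝ),
    ∃ c : ℝ, 0 < c ∧ ∀ d : ℕ, Squarefree d → ∀ᶠ X : ℝ in atTop,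
    ∀ (g : ℕ), g ≠ 0 → d ∣ g → 2 ∣ g → ∑ p ∈ g.primeFactors, (1 : ℝ) / p ≤ A0 →
    (g : ℝ) ≤ X →
    ∀ t : Fin K → ℕ, Function.Injective t → (∀ j, (t j : ℝ) ≤ (Real.log X) ^ 2) →
    (∀ p : ℕ, p.Prime → ∃ v : ℕ, ∀ j, ¬ p ∣ v + t j) →
    ∀ h : ℕ, (∀ j, (h + t j).Coprime d) →
    ∀ col : Fin K → Fin m, (∀ e, K ≤ 2 * m * fib col e) →
    ∀ bad : Finset ℕ, (bad.card : ℝ) ≤ X ^ (9 / 10 : ℝ) →
    ∀ s b : ℤ, (s = 1 ∨ s = -1) → |(b : ℝ)| ≤ (Real.log X) ^ 2 →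
    ∃ n : ℕ, X < n ∧ (n : ℝ) ≤ 3 * X ∧ n ∉ bad ∧ n ≡ h [MOD d] ∧
      (∃ E : Finset (Fin m), η * m ≤ E.card ∧ ∀ e ∈ E, ∃ j, col j = e ∧ (n + t j).Prime) ∧
      ∀ r : ℕ, (r : ℝ) ≤ c * (Real.log X * (Real.log (Real.log X)) ^ 2) →
        (∀ j, b - t j ≠ s * (r : ℤ) ^ 2) →
        ∃ q : ℕ, q.Prime ∧ (q : ℝ) ≤ X ^ (1 / 1000 : ℝ) ∧ ¬ q ∣ g ∧ (q : ℤ) ∣ n + (b - s * (r : ℤ) ^ 2) := by
  obtain ⟨η, hη, h0⟩ := templT
  refine ⟨η, hη, fun m hm => ?_⟩
  obtain ⟨K, hmK, h1⟩ := h0 m hm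
  refine ⟨K, hmK, fun A0 => ?_⟩
  obtain ⟨Abv, c₄, hc₄, ht⟩ := h1 2
  obtain ⟨c, hc, hcov⟩ := covSq K A0 (c₄ / 2) (by positivity)
  refine ⟨c, hc, fun d hd => ?_⟩
  obtain ⟨Z₀, hZ₀⟩ : ∃ Z : ℕ, Z = max 4 d := ⟨_, rfl⟩
  have hZ4 : 4 ≤ Z₀ := by rw [hZ₀]; exact le_max_left _ _
  have hZd : d ≤ Z₀ := by rw [hZ₀]; exact le_max_right _ _
  obtain ⟨X1, hbv⟩ := bvrel_holds Abv Z₀
  have t1 := Real.tendsto_log_atTop
  have t2 : Tendsto (fun y : ℝ => Real.log (Real.log y)) atTop atTop := t1.comp t1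
  filter_upwards [ht Z₀ hZ4, hcov, eventually_ge_atTop X1, eventually_ge_atTop 4,
    t1.eventually_ge_atTop 1, t1.eventually_ge_atTop (1000 * Z₀),
    t2.eventually_ge_atTop (Z₀ + 1), t1.eventually_ge_atTop (2 / c₄), t1.eventually_ge_atTop c,
    t1.eventually (Pool.Agent.H378R2.ev_pow_exp 6 1 1 one_pos),
    t2.eventually (Pool.Agent.H378R2.ev_pow_exp 2 1 1 one_pos)]
    with X htX hcovX hX1 hX4 hL1 hLd hL2d hLc4 hLc hp6 hpl2
  intro g hg0 hdg h2g hgS hgX t htinj htl hadm h hhd col hcol bad hbad s b hs hb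
  obtain ⟨ps, S, hps, hS, hBV⟩ := hbv X hX1
  have hX0 : 0 < X := by linarith
  have hL0 : 0 < Real.log X := by linarith
  have hX1' : 1 ≤ X := by linarith
  rw [one_mul, one_mul, Real.exp_log hX0] at hp6
  rw [one_mul, one_mul, Real.exp_log hL0] at hpl2
  have hXX : X ≤ X ^ 2 := le_self_pow₀ hX1' (by norm_num)
  choose! v hv using hadm
  set u : ℕ → ℕ := fun p => if p ∣ d then h else v p with hu
  have hup : ∀ p, p.Prime → ∀ j, ¬ p ∣ u p + t j := by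
    intro p hp j
    simp only [hu]
    split_ifs with hpd
    · intro hph
      exact hp.one_lt.ne' (Nat.dvd_one.1 ((hhd j) ▸ Nat.dvd_gcd hph hpd))
    · exact hv p hp j
  obtain ⟨cl, U0, hU0, hU0c, hcl, hcov'⟩ := hcovX ps S hS g hg0 h2g hgS t htl u hup s b hs hb
  set U : Finset ℕ := if ∀ j, b - t j ≠ 0 then insert 0 U0 else U0 with hU
  have hUc : (U.card : ℝ) ≤ c₄ * Real.log X := by
    have h1 : U.card ≤ U0.card + 1 := by
      rw [hU]
      split_ifs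
      · exact card_insert_le _ _
      · exact Nat.le_succ _
    have h2 : (U.card : ℝ) ≤ U0.card + 1 := by exact_mod_cast h1
    have h3 : 1 ≤ c₄ / 2 * Real.log X := by
      rw [div_le_iff₀ hc₄] at hLc4
      linarith
    linarith
  have hUne : ∀ r ∈ U, ∀ j, b - t j ≠ s * (r : ℤ) ^ 2 := by
    intro r hr
    rw [hU] at hr
    split_ifs at hr with h0
    · rcases mem_insert.1 hr with rfl | h1
      · intro j
        simpa using h0 j
      · exact (hU0 r h1).2.2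
    · exact (hU0 r hr).2.2
  have hUle : ∀ r ∈ U, (r : ℝ) ≤ c * (Real.log X * (Real.log (Real.log X)) ^ 2) := by
    intro r hr
    have hc0' : 0 ≤ c * (Real.log X * (Real.log (Real.log X)) ^ 2) := by positivity
    rw [hU] at hr
    split_ifs at hr with h0
    · rcases mem_insert.1 hr with rfl | h1
      · simpa using hc0'
      · exact (hU0 r h1).2.1
    · exact (hU0 r hr).2.1
  have hex : ∀ p : ℕ, ∃ ρ : ℕ, p ∈ PW X S ps → ((∀ j, ¬ p ∣ ρ + t j) ∧ (p ∣ g → ρ = u p) ∧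
      (¬ p ∣ g → (p : ℤ) ∣ (ρ : ℤ) - cl p)) := by
    intro p
    by_cases hp : p ∈ PW X S ps
    · have hpp := (mem_PW.1 hp).2.1
      by_cases hpg : p ∣ g
      · exact ⟨u p, fun _ => ⟨hup p hpp, fun _ => rfl, fun h => absurd hpg h⟩⟩
      · refine ⟨(cl p % p).toNat, fun _ => ?_⟩
        have h0 : 0 ≤ cl p % p := Int.emod_nonneg _ (by exact_mod_cast hpp.ne_zero)
        have h1 : (p : ℤ) ∣ (((cl p % p).toNat : ℕ) : ℤ) - cl p := by
          rw [Int.toNat_of_nonneg h0]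
          have h2 := Int.emod_add_mul_ediv (cl p) p
          exact ⟨-(cl p / p), by linarith⟩
        refine ⟨?_, fun h => absurd h hpg, fun _ => h1⟩
        intro j h2
        apply hcl p hp j
        have h3 : (p : ℤ) ∣ ((((cl p % p).toNat + t j : ℕ)) : ℤ) := Int.natCast_dvd_natCast.2 h2
        have h4 := dvd_sub h3 h1
        have h5 : ((((cl p % p).toNat + t j : ℕ)) : ℤ) - ((((cl p % p).toNat : ℕ) : ℤ) - cl p) = cl p + t j := by
          push_cast; ring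
        rwa [h5] at h4
    · exact ⟨0, fun h => absurd h hp⟩
  choose ρ hρ using hex
  obtain ⟨r, hr⟩ := Nat.chineseRemainderOfFinset ρ (fun p => p) (PW X S ps)
    (fun p hp => (mem_PW.1 hp).2.1.ne_zero)
    (fun p hp q hq hpq => (Nat.coprime_primes (mem_PW.1 (by simpa using hp)).2.1
      (mem_PW.1 (by simpa using hq)).2.1).2 hpq)
  have hrc : ∀ j, (r + t j).Coprime (WW X S ps) := by
    intro j
    unfold WW
    rw [Nat.coprime_prod_right_iff]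
    intro p hp
    have hpp := (mem_PW.1 hp).2.1
    rw [Nat.coprime_comm, Nat.Prime.coprime_iff_not_dvd hpp]
    intro hd
    apply (hρ p hp).1 j
    exact (Nat.modEq_zero_iff_dvd).1 (((hr p hp).add_right (t j)).symm.trans ((Nat.modEq_zero_iff_dvd).2 hd))
  have hsq : ∀ r ∈ U, (r : ℝ) ^ 2 ≤ X := by
    intro r hr
    have h1 : (r : ℝ) ≤ (Real.log X) ^ 3 := by
      refine (hUle r hr).trans ?_
      calc c * (Real.log X * (Real.log (Real.log X)) ^ 2)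
          ≤ Real.log X * (Real.log X * Real.log X) := by gcongr
        _ = (Real.log X) ^ 3 := by ring
    calc (r : ℝ) ^ 2 ≤ ((Real.log X) ^ 3) ^ 2 := pow_le_pow_left₀ (Nat.cast_nonneg r) h1 2
      _ = (Real.log X) ^ 6 := by ring
      _ ≤ X := hp6
  have hbX : |(b : ℝ)| ≤ X := by
    refine hb.trans (le_trans ?_ hp6)
    exact pow_le_pow_right₀ hL1 (by norm_num)
  obtain ⟨n, hXn, hn3, hnb, hnr, hE, hUU⟩ := htX ps S hps hS hBV t htinj htl U hUc (fun _ => 1)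
    (fun r => b - s * (r : ℤ) ^ 2)
    (fun r hr => ⟨one_ne_zero, fun j hj => hUne r hr j (by linarith)⟩)
    (fun r hr => by
      refine ⟨by push_cast; rw [abs_one]; nlinarith, ?_⟩
      have h2 := hsq r hr
      have h3 := abs_le.1 hbX
      have h4 : (0 : ℝ) ≤ (r : ℝ) ^ 2 := by positivity
      have h5 : 2 * X ≤ X ^ 2 := by nlinarith
      rw [abs_le]
      rcases hs with rfl | rfl
      · push_cast
        constructor <;> linarith
      · push_cast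
        constructor <;> linarith)
    (fun k _ l _ hkl heq => by
      apply hkl
      have h2 : s * (k : ℤ) ^ 2 = s * (l : ℤ) ^ 2 := by linarith
      have h3 : (k : ℤ) ^ 2 = (l : ℤ) ^ 2 := by
        rcases hs with rfl | rfl <;> linarith
      have h4 : k ^ 2 = l ^ 2 := by exact_mod_cast h3
      exact Nat.pow_left_injective (by norm_num : (2 : ℕ) ≠ 0) h4) g hg0
    (hgX.trans hXX) r hrc col hcol bad hbad
  have hsmall : ∀ p : ℕ, p.Prime → p ≤ Z₀ → p ∈ PW X S ps := fun p hp hpZ =>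
    small_mem_PW hLd hL2d hps le_rfl hS hp hpZ
  refine ⟨n, hXn, hn3, hnb, ?_, hE, fun z hzc hzt => ?_⟩
  · apply modEq_of_primes hd
    intro p hp
    have hpp := Nat.prime_of_mem_primeFactors hp
    have hpd := Nat.dvd_of_mem_primeFactors hp
    have hd0 : 0 < d := Nat.pos_of_ne_zero hd.ne_zero
    have hpled : p ≤ d := Nat.le_of_dvd hd0 hpd
    have hpPW := hsmall p hpp (hpled.trans hZd)
    have h1 := hr p hpPW
    have h2 : ρ p = u p := (hρ p hpPW).2.1 (hpd.trans hdg)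
    have h3 : u p = h := by simp only [hu]; rw [if_pos hpd]
    rw [h2, h3] at h1
    exact (hnr.of_dvd ((prime_dvd_WW hpp).2 hpPW)).trans h1
  · by_cases hzU : z ∈ U
    · obtain ⟨q, h1, h2, h3, h4⟩ := hUU z hzU
      refine ⟨q, h1, h2, h3, ?_⟩
      rwa [one_mul] at h4
    · have hzU0 : z ∉ U0 := by
        intro h1
        apply hzU
        rw [hU]
        split_ifs
        · exact mem_insert_of_mem h1
        · exact h1
      have hz1 : 1 ≤ z := by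
        by_contra hcon
        have hz0 : z = 0 := by omega
        subst hz0
        apply hzU
        rw [hU, if_pos (fun j => by simpa using hzt j)]
        exact mem_insert_self _ _
      obtain ⟨p, hp, hpg, hpz⟩ := hcov' z hz1 hzc hzt hzU0
      have hpp := (mem_PW.1 hp).2.1
      refine ⟨p, hpp, le_rpow_of_le_yy hX0 (by linarith) (mem_PW.1 hp).1, hpg, ?_⟩
      have h1 := (hρ p hp).2.2 hpg
      have h2 : (p : ℤ) ∣ (n : ℤ) - ρ p :=
        Nat.modEq_iff_dvd.1 (((hnr.of_dvd ((prime_dvd_WW hpp).2 hp)).trans (hr p hp)).symm)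
      have h3 : (n : ℤ) + (b - s * (z : ℤ) ^ 2) = (n - ρ p) + (ρ p - cl p) + (cl p + (b - s * (z : ℤ) ^ 2)) := by ring
      rw [h3]
      exact dvd_add (dvd_add h2 h1) hpz

/-- the numbers `n + b - s r²` at clusters -/
theorem cluster_squares : ∃ η : ℝ, 0 < η ∧ ∀ m : ℕ, 1 ≤ m → ∃ K : ℕ, m ≤ K ∧
    ∀ (J d : ℕ), Squarefree d → ∃ c : ℝ, 0 < c ∧ ∀ᶠ X : ℝ in atTop,
    ∀ t : Fin K → ℕ, Function.Injective t → (∀ j, (t j : ℝ) ≤ (Real.log X) ^ 2) →
    (∀ p : ℕ, p.Prime → ∃ v : ℕ, ∀ j, ¬ p ∣ v + t j) →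
    ∀ h : ℕ, (∀ j, (h + t j).Coprime d) →
    ∀ col : Fin K → Fin m, (∀ e, K ≤ 2 * m * fib col e) →
    ∀ s b : ℤ, (s = 1 ∨ s = -1) → |(b : ℝ)| ≤ (Real.log X) ^ 2 →
    ∀ bad : Finset ℕ, (bad.card : ℝ) ≤ X ^ (9 / 10 : ℝ) →
    ∃ n : ℕ, X < n ∧ (n : ℝ) ≤ 3 * X ∧ n ∉ bad ∧ n ≡ h [MOD d] ∧
      (∃ E : Finset (Fin m), η * m ≤ E.card ∧ ∀ e ∈ E, ∃ j, col j = e ∧ (n + t j).Prime) ∧
      ∀ r : ℕ, (r : ℝ) ≤ c * (Real.log X * (Real.log (Real.log X)) ^ 2) →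
        (∀ j, b - t j ≠ s * (r : ℤ) ^ 2) →
        ∀ i : ℤ, 1 ≤ |i| → |i| ≤ J → ∀ q : ℕ, q.Prime → i * q ≠ n + b - s * (r : ℤ) ^ 2 := by
  obtain ⟨η, hη, h0⟩ := tupSq
  refine ⟨η, hη, fun m hm => ?_⟩
  obtain ⟨K, hmK, h1⟩ := h0 m hm
  refine ⟨K, hmK, fun J d hd => ?_⟩
  obtain ⟨ℓ, hℓ⟩ : ∃ ℓ : ℕ, ℓ = J.factorial := ⟨_, rfl⟩
  have hℓ0 : 0 < ℓ := by rw [hℓ]; exact Nat.factorial_pos J
  have hd0 : d ≠ 0 := hd.ne_zero
  have h2d0 : 2 * d ≠ 0 := by omega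
  obtain ⟨c, hc, hone⟩ := h1 (ℓ + (2 * d : ℕ))
  refine ⟨c, hc, ?_⟩
  have t1 := Real.tendsto_log_atTop
  have t2 : Tendsto (fun y : ℝ => Real.log (Real.log y)) atTop atTop := t1.comp t1
  filter_upwards [hone d hd, eventually_ge_atTop ((ℓ * (2 * d) : ℕ) : ℝ), t1.eventually_ge_atTop ((J : ℝ) + 10),
    eventually_ge_atTop 4, t1.eventually_ge_atTop c,
    t1.eventually (Pool.Agent.H378R2.ev_pow_exp 6 (1 / 40) 1 (by norm_num)),
    t2.eventually (Pool.Agent.H378R2.ev_pow_exp 2 1 1 one_pos)]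
    with X hX hLd hLJ hX4 hLc hE hpl2
  intro t htinj htl hadm h hh col hcol s b hs hb bad hbad
  set L := Real.log X with hL
  have hX0 : 0 < X := by linarith
  have hJ0 : (0 : ℝ) ≤ J := Nat.cast_nonneg J
  have hL1 : 1 ≤ L := by linarith
  have hL0 : 0 < L := by linarith
  set E := Real.exp (1 / 40 * L) with hEd
  rw [one_mul] at hE
  rw [one_mul, one_mul, Real.exp_log hL0] at hpl2
  have hE0 : 0 < E := Real.exp_pos _
  have hLE : L ≤ E := by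
    have h1 : L ^ 1 ≤ L ^ 6 := pow_le_pow_right₀ hL1 (by norm_num)
    rw [pow_one] at h1
    linarith
  have hELJ : (J : ℝ) + 10 ≤ E := by linarith
  have hE1 : 1 ≤ E := by linarith
  have hpowE : ∀ k : ℕ, X ^ ((k : ℝ) / 40) = E ^ k := by
    intro k
    rw [hEd, ← Real.exp_nat_mul, Real.rpow_def_of_pos hX0, ← hL]
    congr 1
    ring
  have e1000 : X ^ (1 / 1000 : ℝ) ≤ E := by
    have h1 := hpowE 1
    rw [pow_one] at h1
    rw [← h1]
    exact Real.rpow_le_rpow_of_exponent_le (by linarith) (by norm_num)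
  have eX : X = E ^ 40 := by
    have h1 := hpowE 40
    rw [← h1]
    norm_num
  have hsum : ∑ p ∈ (ℓ * (2 * d)).primeFactors, (1 : ℝ) / p ≤ ℓ + (2 * d : ℕ) := by
    have h1 := sum_inv_mul ℓ (2 * d) hℓ0.ne' h2d0
    have h3 := sum_inv_le_self ℓ
    have h4 := sum_inv_le_self (2 * d)
    linarith
  obtain ⟨p, hXp, hp3, hpb, hpd, hEE, hmain⟩ := hX (ℓ * (2 * d))
    (mul_ne_zero hℓ0.ne' h2d0) ((dvd_mul_left d 2).trans (dvd_mul_left _ _))
    ((dvd_mul_right 2 d).trans (dvd_mul_left _ _)) hsum hLd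
    t htinj htl hadm h hh col hcol bad hbad s b hs hb
  refine ⟨p, hXp, hp3, hpb, hpd, hEE, ?_⟩
  intro r hrc hrt i hi1 hiJ q hq hiq
  obtain ⟨q', hq', hq'X, hq'g, hq'd⟩ := hmain r hrc hrt
  have h1 : (q' : ℤ) ∣ i * q := by
    rw [hiq]
    have e : (p : ℤ) + b - s * (r : ℤ) ^ 2 = p + (b - s * (r : ℤ) ^ 2) := by ring
    rw [e]
    exact hq'd
  have hqq := eq_of_multiple hℓ hi1 hiJ hq hq' (dvd_mul_right ℓ (2 * d)) hq'g h1
  have hqE : (q : ℝ) ≤ E := by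
    rw [← hqq]
    exact hq'X.trans e1000
  -- the size
  have h5 : |((i * q : ℤ) : ℝ)| ≤ J * E := by
    push_cast
    rw [abs_mul, abs_of_nonneg (Nat.cast_nonneg q : (0 : ℝ) ≤ q)]
    have h4 : |(i : ℝ)| ≤ J := by exact_mod_cast hiJ
    exact mul_le_mul h4 hqE (Nat.cast_nonneg q) hJ0
  have hr3 : (r : ℝ) ^ 2 ≤ L ^ 6 := by
    have h1 : (r : ℝ) ≤ L ^ 3 := by
      refine hrc.trans ?_
      calc c * (L * (Real.log L) ^ 2) ≤ L * (L * L) := by gcongr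
        _ = L ^ 3 := by ring
    calc (r : ℝ) ^ 2 ≤ (L ^ 3) ^ 2 := pow_le_pow_left₀ (Nat.cast_nonneg r) h1 2
      _ = L ^ 6 := by ring
  have h6 : X - L ^ 2 - L ^ 6 ≤ |((i * q : ℤ) : ℝ)| := by
    rw [hiq]
    refine le_trans ?_ (le_abs_self _)
    have h7 := (abs_le.1 hb).1
    have h8 : (0 : ℝ) ≤ (r : ℝ) ^ 2 := by positivity
    rcases hs with rfl | rfl
    · push_cast
      linarith
    · push_cast
      linarith
  have hL26 : L ^ 2 ≤ L ^ 6 := pow_le_pow_right₀ hL1 (by norm_num)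
  have h7 : (J : ℝ) * E + L ^ 2 + L ^ 6 ≤ E * E + 2 * E := by
    have := mul_le_mul_of_nonneg_right (by linarith : (J : ℝ) ≤ E) hE0.le
    linarith
  have h8 : E * E + 2 * E < E ^ 40 := by
    have h9 : E ^ 3 ≤ E ^ 40 := pow_le_pow_right₀ hE1 (by norm_num)
    have h10 : E * E + 2 * E < E ^ 3 := by
      have h11 : 10 ≤ E := by linarith
      nlinarith [mul_pos hE0 hE0, mul_pos (mul_pos hE0 hE0) hE0]
    linarith
  linarith

end Pool.Agent.TH101.RG
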