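import Pool.Agent.TH101.RG.Surv

set_option autoImplicit false
set_option maxHeartbeats 4000000

/-! # The choice of the shift -/

namespace Pool.Agent.TH101.RG

open Finset Filter Pool.Agent.H398R2.RK

open scoped Classical

theorem vfacts : ∀ᶠ y : ℝ in atTop, 100 ≤ Real.log y ∧ (Real.log y) ^ 4 ≤ Real.exp (V0 y) ∧
    V0 y ≤ Real.log y := by
  have t1 := Real.tendsto_log_atTop
  have t2 : Tendsto (fun y : ℝ => Real.log (Real.log y)) atTop atTop := t1.comp t1
  have t3 : Tendsto (fun y : ℝ => Real.log (Real.log (Real.log y))) atTop atTop := t1.comp t2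
  obtain ⟨t₀, hev⟩ := ev_surv
  filter_upwards [t1.eventually_ge_atTop 100, t2.eventually_ge_atTop t₀, t3.eventually_ge_atTop 2] with y h1 h2 h3
  obtain ⟨g1, g2, g3, g4, g5, g6⟩ := hev _ h2
  set τ := Real.log (Real.log y) with hτ
  have hly : 0 < Real.log y := by linarith
  have hLe : Real.log y = Real.exp τ := by rw [hτ, Real.exp_log hly]
  have hτ0 : 0 < τ := by linarith
  refine ⟨h1, ?_, ?_⟩
  · have h4 : 4 * τ ≤ V0 y := by
      unfold V0
      rw [← hτ, le_div_iff₀ (by positivity), hLe]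
      have : 20 * τ ^ 2 * Real.log τ ≤ Real.exp τ * Real.log τ := by gcongr
      nlinarith
    calc (Real.log y) ^ 4 = Real.exp (4 * τ) := by
          rw [hLe, ← Real.exp_nat_mul]; norm_num
      _ ≤ _ := Real.exp_le_exp.2 h4
  · unfold V0
    rw [← hτ, div_le_iff₀ (by positivity)]
    have : Real.log y * Real.log τ ≤ Real.log y * (10 * τ) := by
      apply mul_le_mul_of_nonneg_left _ hly.le
      linarith
    linarith

theorem dvd_sub_mod (p : ℕ) (hp : 0 < p) (B : ℤ) (s : ℕ) (h : (p : ℤ) ∣ B - s) :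
    s % p = (B % p).toNat % p := by
  have hp' : (p : ℤ) ≠ 0 := by exact_mod_cast hp.ne'
  have h1 : B % p = (s : ℤ) % p := by
    have := Int.emod_emod_of_dvd (B - s) (dvd_refl (p : ℤ))
    exact (Int.emod_emod_of_dvd _ (dvd_refl _)).symm.trans (by
      rw [Int.emod_emod_of_dvd _ (dvd_refl _)]
      exact (Int.emod_emod_of_dvd _ (dvd_refl (p : ℤ))).symm.trans (by
        rw [Int.emod_emod_of_dvd _ (dvd_refl _)]
        exact Int.ModEq.symm (Int.modEq_iff_dvd.2 h)))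
  have h2 : 0 ≤ B % p := Int.emod_nonneg _ hp'
  have h3 : ((B % p).toNat : ℤ) = (s : ℤ) % p := by rw [Int.toNat_of_nonneg h2, h1]
  have h4 : (B % p).toNat = s % p := by exact_mod_cast h3
  rw [h4, Nat.mod_mod]

/-- the shift -/
theorem shift_exK (K : ℕ) : ∃ y₀ : ℕ, ∀ y : ℕ, y₀ ≤ y → ∀ N : ℕ, y ≤ N → ∀ Bf : Fin K → ℤ, ∃ s : ℕ, s < N ∧
    ∀ j, ∑ p ∈ (Icc 1 y).filter (fun p : ℕ => p.Prime ∧ (p : ℤ) ∣ Bf j - s), (1 : ℝ) / p ≤ 3 * K ∧
    ∑ p ∈ (Icc 1 y).filter (fun p : ℕ => p.Prime ∧ (p : ℤ) ∣ Bf j - s ∧ V0 y < Real.log p), (1 : ℝ) / p ≤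
      3 * K / Real.log y := by
  obtain ⟨y₁, hv⟩ := eventually_atTop.1 vfacts
  refine ⟨⌈max y₁ 2⌉₊, fun y hy N hN Bf => ?_⟩
  have hy' : max y₁ 2 ≤ (y : ℝ) := (Nat.le_ceil _).trans (by exact_mod_cast hy)
  obtain ⟨h100, hV4, hVle⟩ := hv y ((le_max_left _ _).trans hy')
  have hy2 : (2 : ℝ) ≤ y := (le_max_right _ _).trans hy'
  have hly : 0 < Real.log y := by linarith
  have hN0 : 0 < N := by
    have : 2 ≤ y := by exact_mod_cast hy2
    omega
  have hNr : (0 : ℝ) < N := by exact_mod_cast hN0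
  set w : ℕ → ℝ := fun p => 1 + (if V0 y < Real.log p then Real.log y else 0) with hw
  have hw1 : ∀ p, 1 ≤ w p := by
    intro p
    simp only [hw]
    split_ifs <;> linarith
  set Q : Finset ℕ := (Icc 1 y).filter Nat.Prime with hQ
  have hQp : ∀ p ∈ Q, p.Prime ∧ p ≤ y := fun p hp => by
    rw [hQ, mem_filter, mem_Icc] at hp
    exact ⟨hp.2, hp.1.2⟩
  have hsum : ∀ B : ℤ, ∑ s ∈ range N, ∑ p ∈ Q.filter (fun p : ℕ => (p : ℤ) ∣ B - s), w p / p ≤ 3 * N := by
    intro B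
    have h1 : ∑ s ∈ range N, ∑ p ∈ Q.filter (fun p : ℕ => (p : ℤ) ∣ B - s), w p / p =
        ∑ p ∈ Q, ((range N).filter (fun s : ℕ => (p : ℤ) ∣ B - s)).card * (w p / p) := by
      simp_rw [sum_filter]
      rw [sum_comm]
      apply sum_congr rfl
      intro p _
      rw [← sum_filter, sum_const, nsmul_eq_mul]
    have h2 : ∀ p ∈ Q, (((range N).filter (fun s : ℕ => (p : ℤ) ∣ B - s)).card : ℝ) * (w p / p) ≤
        2 * N * (((p : ℝ) ^ 2)⁻¹ + Real.log y * (if V0 y < Real.log p then ((p : ℝ) ^ 2)⁻¹ else 0)) := by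
      intro p hp
      obtain ⟨hpp, hpy⟩ := hQp p hp
      have hp0 : (0 : ℝ) < p := by exact_mod_cast hpp.pos
      have h3 : ((range N).filter (fun s : ℕ => (p : ℤ) ∣ B - s)).card ≤ N / p + 1 := by
        refine le_trans (card_le_card ?_) (class_count p ((B % p).toNat) N hpp.pos)
        intro s hs
        rw [mem_filter, mem_range] at hs ⊢
        exact ⟨by omega, dvd_sub_mod p hpp.pos B s hs.2⟩
      have h4 : (((range N).filter (fun s : ℕ => (p : ℤ) ∣ B - s)).card : ℝ) ≤ ((N / p : ℕ) : ℝ) + 1 := by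
        exact_mod_cast h3
      have h5 : ((N / p : ℕ) : ℝ) ≤ (N : ℝ) / p := Nat.cast_div_le
      have h6 : (1 : ℝ) ≤ N / p := by
        rw [one_le_div hp0]
        exact_mod_cast hpy.trans hN
      have h7 : 0 ≤ w p / p := div_nonneg (by linarith [hw1 p]) hp0.le
      calc (((range N).filter (fun s : ℕ => (p : ℤ) ∣ B - s)).card : ℝ) * (w p / p)
          ≤ (2 * ((N : ℝ) / p)) * (w p / p) := mul_le_mul_of_nonneg_right (by linarith) h7
        _ = _ := by
            simp only [hw]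
            split_ifs
            · field_simp
            · field_simp
              ring
    have h3 : ∑ p ∈ Q, ((p : ℝ) ^ 2)⁻¹ ≤ 1 := by
      calc ∑ p ∈ Q, ((p : ℝ) ^ 2)⁻¹ ≤ ∑ p ∈ Ioo 1 (y + 1), ((p : ℝ) ^ 2)⁻¹ := by
            apply sum_le_sum_of_subset_of_nonneg
            · intro p hp
              obtain ⟨hpp, hpy⟩ := hQp p hp
              rw [mem_Ioo]
              exact ⟨hpp.one_lt, by omega⟩
            · intro _ _ _; positivity
        _ ≤ 2 / ((1 : ℕ) + 1) := sum_Ioo_inv_sq_le 1 (y + 1)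
        _ = 1 := by norm_num
    have h4 : ∑ p ∈ Q, (if V0 y < Real.log p then ((p : ℝ) ^ 2)⁻¹ else 0) ≤ 2 / Real.exp (V0 y) := by
      rw [← sum_filter]
      set v : ℕ := ⌊Real.exp (V0 y)⌋₊ with hv'
      calc ∑ p ∈ Q.filter (fun p : ℕ => V0 y < Real.log p), ((p : ℝ) ^ 2)⁻¹ ≤
            ∑ p ∈ Ioo v (y + 1), ((p : ℝ) ^ 2)⁻¹ := by
            apply sum_le_sum_of_subset_of_nonneg
            · intro p hp
              rw [mem_filter] at hp
              obtain ⟨hpp, hpy⟩ := hQp p hp.1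
              have hp0 : (0 : ℝ) < p := by exact_mod_cast hpp.pos
              rw [mem_Ioo]
              refine ⟨?_, by omega⟩
              rw [hv', Nat.floor_lt (Real.exp_pos _).le]
              exact (Real.lt_log_iff_exp_lt hp0).1 hp.2
            · intro _ _ _; positivity
        _ ≤ 2 / (v + 1) := sum_Ioo_inv_sq_le v (y + 1)
        _ ≤ 2 / Real.exp (V0 y) := by
            apply div_le_div_of_nonneg_left (by norm_num) (Real.exp_pos _)
            exact (Nat.lt_floor_add_one _).le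
    have h5 : Real.log y * (2 / Real.exp (V0 y)) ≤ 1 / 2 := by
      rw [mul_div_assoc', div_le_div_iff₀ (Real.exp_pos _) (by norm_num)]
      have h6 : (Real.log y) ^ 4 = Real.log y * (Real.log y) ^ 3 := by ring
      have h7 : 100 ≤ (Real.log y) ^ 3 := by nlinarith [sq_nonneg (Real.log y)]
      nlinarith
    rw [h1]
    calc ∑ p ∈ Q, (((range N).filter (fun s : ℕ => (p : ℤ) ∣ B - s)).card : ℝ) * (w p / p)
        ≤ ∑ p ∈ Q, 2 * N * (((p : ℝ) ^ 2)⁻¹ + Real.log y * (if V0 y < Real.log p then ((p : ℝ) ^ 2)⁻¹ else 0)) :=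
          sum_le_sum h2
      _ = 2 * N * (∑ p ∈ Q, ((p : ℝ) ^ 2)⁻¹ + Real.log y * ∑ p ∈ Q, (if V0 y < Real.log p then ((p : ℝ) ^ 2)⁻¹ else 0)) := by
          rw [← mul_sum, sum_add_distrib, ← mul_sum]
      _ ≤ 2 * N * (1 + 1 / 2) := by
          have h8 : Real.log y * ∑ p ∈ Q, (if V0 y < Real.log p then ((p : ℝ) ^ 2)⁻¹ else 0) ≤
            Real.log y * (2 / Real.exp (V0 y)) := mul_le_mul_of_nonneg_left h4 hly.le
          apply mul_le_mul_of_nonneg_left _ (by positivity)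
          linarith
      _ = _ := by ring
  have hsumK : ∑ s ∈ range N, ∑ j, ∑ p ∈ Q.filter (fun p : ℕ => (p : ℤ) ∣ Bf j - s), w p / p ≤ 3 * K * N := by
    rw [sum_comm]
    refine (sum_le_card_nsmul _ _ _ (fun j _ => hsum (Bf j))).trans (le_of_eq ?_)
    rw [card_univ, Fintype.card_fin, nsmul_eq_mul]
    ring
  obtain ⟨s, hs, hsle⟩ : ∃ s ∈ range N, ∑ j, ∑ p ∈ Q.filter (fun p : ℕ => (p : ℤ) ∣ Bf j - s), w p / p ≤ 3 * K := by
    apply exists_le_of_sum_le (nonempty_range_iff.2 hN0.ne')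
    rw [sum_const, card_range, nsmul_eq_mul]
    linarith
  have hnn : ∀ (j : Fin K), 0 ≤ ∑ p ∈ Q.filter (fun p : ℕ => (p : ℤ) ∣ Bf j - s), w p / p := fun j =>
    sum_nonneg fun p _ => div_nonneg (by linarith [hw1 p]) (Nat.cast_nonneg p)
  have hj : ∀ j, ∑ p ∈ Q.filter (fun p : ℕ => (p : ℤ) ∣ Bf j - s), w p / p ≤ 3 * K := fun j =>
    (single_le_sum (f := fun j => ∑ p ∈ Q.filter (fun p : ℕ => (p : ℤ) ∣ Bf j - s), w p / p)
      (fun j _ => hnn j) (mem_univ j)).trans hsle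
  refine ⟨s, mem_range.1 hs, fun j => ⟨?_, ?_⟩⟩
  · refine le_trans (le_trans (sum_le_sum (fun p _ => ?_)) (sum_le_sum_of_subset_of_nonneg
      (t := Q.filter (fun p : ℕ => (p : ℤ) ∣ Bf j - s)) ?_ ?_)) (hj j)
    · exact div_le_div_of_nonneg_right (hw1 p) (Nat.cast_nonneg p)
    · intro p hp
      rw [mem_filter] at hp
      rw [mem_filter, hQ, mem_filter]
      exact ⟨⟨hp.1, hp.2.1⟩, hp.2.2⟩
    · intro p _ _
      exact div_nonneg (by linarith [hw1 p]) (Nat.cast_nonneg p)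
  · rw [le_div_iff₀ hly, sum_mul]
    refine le_trans (le_trans (sum_le_sum (g := fun p : ℕ => w p / p) (fun p hp => ?_))
      (sum_le_sum_of_subset_of_nonneg (t := Q.filter (fun p : ℕ => (p : ℤ) ∣ Bf j - s)) ?_ ?_)) (hj j)
    · rw [mem_filter] at hp
      have h1 : Real.log y ≤ w p := by
        simp only [hw]
        rw [if_pos hp.2.2.2]
        linarith
      rw [div_mul_eq_mul_div, one_mul]
      exact div_le_div_of_nonneg_right h1 (Nat.cast_nonneg p)
    · intro p hp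
      rw [mem_filter] at hp
      rw [mem_filter, hQ, mem_filter]
      exact ⟨⟨hp.1, hp.2.1⟩, hp.2.2.1⟩
    · intro p _ _
      exact div_nonneg (by linarith [hw1 p]) (Nat.cast_nonneg p)

end Pool.Agent.TH101.RG
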