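import Mathlib
import Pool.Agent.H398R2.RK.Rec2

set_option autoImplicit false
set_option maxHeartbeats 4000000

/-! # Rankin's choice of residue classes which avoids one prescribed class modulo every prime

A variant of `Pool.Agent.H398R2.RK.rsurv` (helper398): the class to be avoided modulo `p` is an arbitrary
function `t p` of `p`, and a set `F` of primes of bounded harmonic sum is not used. -/

namespace Pool.Agent.TH101.RG

open Finset Pool.Agent.H318R2.Cr Pool.Agent.H398R2.RK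

open scoped Classical

/-- the smoothness threshold -/
noncomputable def V0 (y : ℝ) : ℝ :=
  Real.log y * Real.log (Real.log (Real.log y)) / (10 * Real.log (Real.log y))

/-- `1/m` as a homomorphism -/
noncomputable def invHom : ℕ →* ℝ where
  toFun n := ((n : ℝ))⁻¹
  map_one' := by simp
  map_mul' a b := by push_cast; rw [mul_inv]

theorem inv_prod_le (F : Finset ℕ) (hF : ∀ q ∈ F, q.Prime) (C₀ : ℝ) (h : ∑ q ∈ F, (1 : ℝ) / q ≤ C₀) :
    ∏ p ∈ F, (1 - 1 / (p : ℝ))⁻¹ ≤ Real.exp (2 * C₀) := by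
  have h1 : ∏ p ∈ F, (1 - 1 / (p : ℝ))⁻¹ ≤ ∏ p ∈ F, Real.exp (2 * (1 / (p : ℝ))) := by
    apply Finset.prod_le_prod
    · intro p hp
      exact inv_nonneg.2 (one_sub_inv_pos (hF p hp)).le
    · intro p hp
      have hp2 : (2 : ℝ) ≤ p := by exact_mod_cast (hF p hp).two_le
      have hx : 1 / (p : ℝ) ≤ 1 / 2 := one_div_le_one_div_of_le (by norm_num) hp2
      have hx0 : 0 < 1 / (p : ℝ) := by positivity
      set x := 1 / (p : ℝ) with hxd
      rw [inv_le_comm₀ (by linarith) (Real.exp_pos _), ← Real.exp_neg]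
      have h2 : Real.exp (-(2 * x)) ≤ 1 - x := by
        have h3 := Real.add_one_le_exp (2 * x)
        have h4 : 0 < 1 + 2 * x := by linarith
        have h5 : Real.exp (-(2 * x)) ≤ 1 / (1 + 2 * x) := by
          rw [Real.exp_neg, ← one_div]
          exact one_div_le_one_div_of_le h4 (by linarith)
        refine h5.trans ?_
        rw [div_le_iff₀ h4]
        nlinarith
      exact h2
  refine h1.trans ?_
  rw [← Real.exp_sum]
  apply Real.exp_le_exp.2
  rw [← mul_sum]
  linarith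

/-- the harmonic sum over the numbers composed of the primes of `F` -/
theorem harm_F (F : Finset ℕ) (hF : ∀ q ∈ F, q.Prime) (C₀ : ℝ) (h : ∑ q ∈ F, (1 : ℝ) / q ≤ C₀)
    (M : Finset ℕ) (hM : ∀ m ∈ M, m ≠ 0 ∧ ∀ p : ℕ, p.Prime → p ∣ m → p ∈ F) :
    ∑ m ∈ M, (1 : ℝ) / m ≤ Real.exp (2 * C₀) := by
  have hlt : ∀ {p : ℕ}, p.Prime → ‖invHom p‖ < 1 := by
    intro p hp
    have hp2 : (2 : ℝ) ≤ p := by exact_mod_cast hp.two_le
    show ‖((p : ℝ))⁻¹‖ < 1
    rw [norm_inv, Real.norm_natCast]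
    rw [inv_lt_one₀ (by linarith)]
    linarith
  obtain ⟨h1, h2⟩ := EulerProduct.summable_and_hasSum_factoredNumbers_prod_filter_prime_geometric hlt F
  have h3 : ∏ p ∈ F with p.Prime, (1 - invHom p)⁻¹ = ∏ p ∈ F, (1 - 1 / (p : ℝ))⁻¹ := by
    rw [Finset.filter_true_of_mem hF]
    apply Finset.prod_congr rfl
    intro p _
    show (1 - ((p : ℝ))⁻¹)⁻¹ = _
    rw [one_div]
  rw [h3] at h2
  refine le_trans ?_ (inv_prod_le F hF C₀ h)
  have h4 : ∀ m ∈ M, m ∈ Nat.factoredNumbers F := by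
    intro m hm
    obtain ⟨h5, h6⟩ := hM m hm
    rw [Nat.mem_factoredNumbers_iff_primeFactors_subset] 
    refine ⟨h5, fun p hp => h6 p (Nat.prime_of_mem_primeFactors hp) (Nat.dvd_of_mem_primeFactors hp)⟩
  have h5 : ∑ m ∈ M, (1 : ℝ) / m = ∑ m ∈ M.attach.image (fun m => (⟨m.1, h4 m.1 m.2⟩ : Nat.factoredNumbers F)),
      invHom m.1 := by
    rw [Finset.sum_image]
    · rw [← Finset.sum_attach]
      apply Finset.sum_congr rfl
      intro m _
      show _ = ((m.1 : ℝ))⁻¹
      rw [one_div]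
    · intro a _ b _ hab
      simp only [Subtype.mk.injEq] at hab
      exact Subtype.ext hab
  rw [h5]
  exact sum_le_hasSum _ (fun m _ => by
    show (0 : ℝ) ≤ ((m.1 : ℝ))⁻¹
    positivity) h2

/-- numbers `q * m` with `q > y` prime and `m` composed of primes of `F` -/
theorem primeF_count (F : Finset ℕ) (hF : ∀ q ∈ F, q.Prime) (C₀ : ℝ) (h : ∑ q ∈ F, (1 : ℝ) / q ≤ C₀)
    (y H : ℕ) (hy : 2 ≤ y) :
    (((Icc 1 H).filter (fun k => ∃ q m : ℕ, q.Prime ∧ y < q ∧ k = q * m ∧
      ∀ p : ℕ, p.Prime → p ∣ m → p ∈ F)).card : ℝ) ≤ 10 * Real.exp (2 * C₀) * H / Real.log y := by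
  set T : ℕ → Finset ℕ := fun m => ((Icc 1 (H / m)).filter (fun q => q.Prime ∧ y < q)).image (fun q => q * m) with hT
  set M : Finset ℕ := (Icc 1 H).filter (fun m => ∀ p : ℕ, p.Prime → p ∣ m → p ∈ F) with hMd
  have hly : 0 < Real.log y := Real.log_pos (by exact_mod_cast (by omega : 1 < y))
  have h1 : (Icc 1 H).filter (fun k => ∃ q m : ℕ, q.Prime ∧ y < q ∧ k = q * m ∧
      ∀ p : ℕ, p.Prime → p ∣ m → p ∈ F) ⊆ M.biUnion T := by
    intro k hk
    rw [mem_filter, mem_Icc] at hk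
    obtain ⟨⟨hk1, hkH⟩, q, m, hq, hyq, rfl, hm⟩ := hk
    have hm0 : m ≠ 0 := by rintro rfl; simp at hk1
    have hm1 : 0 < m := Nat.pos_of_ne_zero hm0
    rw [mem_biUnion]
    refine ⟨m, ?_, ?_⟩
    · rw [hMd, mem_filter, mem_Icc]
      refine ⟨⟨hm1, ?_⟩, hm⟩
      have : m ≤ q * m := Nat.le_mul_of_pos_left _ hq.pos
      omega
    · rw [hT]
      simp only [mem_image, mem_filter, mem_Icc]
      exact ⟨q, ⟨⟨hq.pos, (Nat.le_div_iff_mul_le hm1).2 hkH⟩, hq, hyq⟩, rfl⟩
  have h2 : ∀ m ∈ M, ((T m).card : ℝ) ≤ 10 * H / Real.log y * (1 / m) := by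
    intro m hm
    rw [hMd, mem_filter, mem_Icc] at hm
    have hm1 : 0 < m := hm.1.1
    have hmr : (0 : ℝ) < m := by exact_mod_cast hm1
    have h3 : ((T m).card : ℝ) ≤ (((Icc 1 (H / m)).filter (fun q => q.Prime ∧ y < q)).card : ℝ) := by
      exact_mod_cast card_image_le
    refine h3.trans ?_
    by_cases hc : y < H / m
    · have h4 : (((Icc 1 (H / m)).filter (fun q => q.Prime ∧ y < q)).card : ℝ) ≤
        (((Icc 1 (H / m)).filter Nat.Prime).card : ℝ) := by
        apply Nat.cast_le.2; apply card_le_card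
        intro q hq
        rw [mem_filter] at hq ⊢
        exact ⟨hq.1, hq.2.1⟩
      have h5 := primes_le (H / m) (by omega)
      have h6 : Real.log y ≤ Real.log ((H / m : ℕ) : ℝ) :=
        Real.log_le_log (by exact_mod_cast (by omega : 0 < y)) (by exact_mod_cast hc.le)
      have h7 : ((H / m : ℕ) : ℝ) ≤ (H : ℝ) / m := Nat.cast_div_le
      calc (((Icc 1 (H / m)).filter (fun q => q.Prime ∧ y < q)).card : ℝ)
          ≤ 10 * ((H / m : ℕ) : ℝ) / Real.log ((H / m : ℕ) : ℝ) := h4.trans h5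
        _ ≤ 10 * ((H : ℝ) / m) / Real.log y := by gcongr
        _ = _ := by ring
    · have h4 : (Icc 1 (H / m)).filter (fun q => q.Prime ∧ y < q) = ∅ := by
        apply filter_eq_empty_iff.2
        intro q hq h5
        rw [mem_Icc] at hq
        omega
      rw [h4]
      simp only [card_empty, Nat.cast_zero]
      positivity
  calc (((Icc 1 H).filter (fun k => ∃ q m : ℕ, q.Prime ∧ y < q ∧ k = q * m ∧
      ∀ p : ℕ, p.Prime → p ∣ m → p ∈ F)).card : ℝ)
      ≤ ((M.biUnion T).card : ℝ) := by exact_mod_cast card_le_card h1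
    _ ≤ ∑ m ∈ M, ((T m).card : ℝ) := by exact_mod_cast card_biUnion_le
    _ ≤ ∑ m ∈ M, 10 * H / Real.log y * (1 / (m : ℝ)) := sum_le_sum h2
    _ = 10 * H / Real.log y * ∑ m ∈ M, (1 : ℝ) / m := by rw [mul_sum]
    _ ≤ 10 * H / Real.log y * Real.exp (2 * C₀) := by
        have := harm_F F hF C₀ h M (fun m hm => by
          rw [hMd, mem_filter, mem_Icc] at hm
          exact ⟨by omega, hm.2⟩)
        gcongr
    _ = _ := by ring

/-- members of a class -/
theorem class_count (p c H : ℕ) (hp : 0 < p) :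
    ((range (H + 1)).filter (fun k => k % p = c % p)).card ≤ H / p + 1 := by
  have h1 : ((range (H + 1)).filter (fun k => k % p = c % p)).card ≤ (range (H / p + 1)).card := by
    apply card_le_card_of_injOn (fun k => k / p)
    · intro k hk
      simp only [coe_filter, mem_range, Set.mem_ofPred_eq, coe_range, Set.mem_Iio] at hk ⊢
      exact Nat.lt_succ_of_le (Nat.div_le_div_right (by omega))
    · intro a ha b hb hab
      simp only [coe_filter, mem_range, Set.mem_ofPred_eq] at ha hb hab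
      have e1 := Nat.div_add_mod a p
      have e2 := Nat.div_add_mod b p
      rw [← e1, ← e2, hab, ha.2, hb.2]
  rwa [card_range] at h1

/-- Rankin's choice of residue classes modulo the primes up to `y` outside a set `F` of bounded harmonic
sum, avoiding `K` prescribed classes modulo every prime. -/
theorem rsurvK (K : ℕ) (C₀ C₁ : ℝ) (hC₁ : 0 ≤ C₁) : ∃ C : ℝ, 0 < C ∧ ∃ y₀ : ℕ, ∀ y : ℕ, y₀ ≤ y → ∀ F : Finset ℕ,
    (∀ q ∈ F, q.Prime) → ∑ q ∈ F, (1 : ℝ) / q ≤ C₀ →
    ∑ q ∈ F.filter (fun q : ℕ => V0 y < Real.log q), (1 : ℝ) / q ≤ C₁ / Real.log y →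
    ∀ H : ℕ, y ≤ H → (H : ℝ) ≤ y * (Real.log y) ^ 2 →
    ∀ t : Fin K → ℕ → ℕ, (∀ j p, p.Prime → p ≤ y → p ∉ F →
      ((p : ℝ) ≤ (Real.log y) ^ 2 ∨ V0 y < Real.log p) → ¬ p ∣ t j p) →
    ∃ b : ℕ → ℕ, (∀ p : ℕ, p.Prime → p ≤ y → p ∉ F → b p < p ∧ ∀ j, ¬ t j p ≡ b p [MOD p]) ∧
      (((range (H + 1)).filter (fun k => ∀ p : ℕ, p.Prime → p ≤ y → p ∉ F →
        ¬ k ≡ b p [MOD p])).card : ℝ) ≤
      C * H * (Real.log (Real.log y)) ^ 2 /
        ((Real.log y) ^ 2 * Real.log (Real.log (Real.log y))) := by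
  obtain ⟨c₁, c₂, hc₁, hc₁₂, hV⟩ := cz_bounds
  obtain ⟨y₁, hsm⟩ := smooth_count
  obtain ⟨t₀, hev⟩ := ev_rec K
  have hc₂ : 0 < c₂ := hc₁.trans_le hc₁₂
  refine ⟨(C₁ + 2 + 10 * Real.exp (2 * C₀)) * 8 * (c₂ / c₁ * 40) * Real.exp (2 * C₀) + 4 * (K + 1), by positivity,
    ⌈max y₁ (Real.exp (Real.exp t₀))⌉₊, fun y hyN F hF hFsum hFtail H hyH hHy t htp => ?_⟩
  have hy : max y₁ (Real.exp (Real.exp t₀)) ≤ (y : ℝ) := (Nat.le_ceil _).trans (by exact_mod_cast hyN)
  have hyH' : (y : ℝ) ≤ H := by exact_mod_cast hyH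
  have hsm' := hsm y ((le_max_left _ _).trans hy) H hyH'
  have hy' := (le_max_right _ _).trans hy
  have hy0 : (0 : ℝ) < y := (Real.exp_pos _).trans_le hy'
  have hL1' : Real.exp t₀ ≤ Real.log y := by
    rw [← Real.log_exp (Real.exp t₀)]; exact Real.log_le_log (Real.exp_pos _) hy'
  have hly : 0 < Real.log y := (Real.exp_pos _).trans_le hL1'
  unfold V0 at hFtail htp
  set τ := Real.log (Real.log y) with hτ
  have htt : t₀ ≤ τ := by
    rw [← Real.log_exp t₀]; exact Real.log_le_log (Real.exp_pos _) hL1'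
  obtain ⟨h1, h2, h3, h4, h5, h6, h7K⟩ := hev τ htt
  have hLe : Real.log y = Real.exp τ := by rw [hτ, Real.exp_log hly]
  have hye : (y : ℝ) = Real.exp (Real.exp τ) := by rw [← hLe, Real.exp_log hy0]
  set V0 := Real.log y * Real.log τ / (10 * τ) with hV0
  have ht0 : 0 < τ := by linarith
  have hlt0 : 0 < Real.log τ := by linarith
  have hV1 : 2 * τ ≤ V0 := by
    rw [hV0, le_div_iff₀ (by positivity), hLe]
    nlinarith [Real.exp_pos τ]
  have hV1le : V0 ≤ Real.log y := by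
    rw [hV0, div_le_iff₀ (by positivity), hLe]
    nlinarith [Real.exp_pos τ]
  set v₀ : ℝ := (Real.log y) ^ 2 with hv₀
  have hv₀e : v₀ = Real.exp (2 * τ) := by
    rw [hv₀, hLe, ← Real.exp_nat_mul]; push_cast; ring_nf
  have hv₀0 : 0 < v₀ := by positivity
  have hL100 : 100 ≤ Real.log y := by rw [hLe]; exact h4
  have hv₀big : 10000 ≤ v₀ := by rw [hv₀]; nlinarith
  have hv₀y : v₀ ≤ y := by
    rw [hv₀e, hye]; apply Real.exp_le_exp.2; linarith
  set u : ℕ := ⌊v₀⌋₊ with hu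
  set v : ℕ := ⌊Real.exp V0⌋₊ with hv
  have huv : u ≤ v := by
    rw [hu, hv]; apply Nat.floor_le_floor; rw [hv₀e]; exact Real.exp_le_exp.2 hV1
  have hu2 : 2 ≤ u := by
    rw [hu, Nat.le_floor_iff hv₀0.le]; push_cast; linarith
  have hvle : (v : ℝ) ≤ Real.exp V0 := Nat.floor_le (Real.exp_pos _).le
  have hule : (u : ℝ) ≤ v₀ := Nat.floor_le hv₀0.le
  have hv0 : (0 : ℝ) < v := by exact_mod_cast (by omega : 0 < v)
  have hu0 : (0 : ℝ) < u := by exact_mod_cast (by omega : 0 < u)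
  have hlu : Real.log u ≤ 2 * τ := by
    rw [← Real.log_exp (2 * τ), ← hv₀e]; exact Real.log_le_log hu0 hule
  have hlu0 : 0 < Real.log u := Real.log_pos (by exact_mod_cast (by omega : 1 < u))
  have hlv0 : 0 < Real.log v := Real.log_pos (by exact_mod_cast (by omega : 1 < v))
  have hlv : V0 / 2 ≤ Real.log v := by
    have h7 : Real.exp V0 < v + 1 := Nat.lt_floor_add_one _
    have h8 : (2 : ℝ) ≤ v := by exact_mod_cast (by omega : 2 ≤ v)
    have h9 : Real.exp V0 ≤ (v : ℝ) ^ 2 := by nlinarith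
    have h10 := Real.log_le_log (Real.exp_pos _) h9
    rw [Real.log_exp, Real.log_pow] at h10
    push_cast at h10; linarith
  have hvy : (v : ℝ) ≤ y := hvle.trans (by
    rw [← Real.exp_log hy0]; exact Real.exp_le_exp.2 hV1le)
  have hy2 : 2 ≤ y := by
    have : (2 : ℝ) ≤ y := by linarith
    exact_mod_cast this
  have hH0 : (0 : ℝ) < H := by linarith
  -- the primes of the greedy step
  set P0 : Finset ℕ := (Icc 1 v).filter (fun p : ℕ => p.Prime ∧ v₀ < (p : ℝ)) with hP0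
  set E0 : Finset ℕ := P0.filter (fun p => p ∈ F) with hE0
  set P : Finset ℕ := P0 \ E0 with hPdef
  have hP0p : ∀ p ∈ P0, p.Prime ∧ 3 ≤ p := by
    intro p hp
    rw [hP0, mem_filter] at hp
    refine ⟨hp.2.1, ?_⟩
    have : (3 : ℝ) < p := by linarith [hp.2.2]
    have : 3 < p := by exact_mod_cast this
    omega
  have hP0v : ∀ p ∈ P0, v₀ < (p : ℝ) := fun p hp => (mem_filter.1 hp).2.2
  have hP0v' : ∀ p ∈ P0, p ≤ v := fun p hp => (mem_Icc.1 (mem_filter.1 hp).1).2
  have hPP0 : P ⊆ P0 := sdiff_subset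
  have hPmem : ∀ p : ℕ, p.Prime → (p ∈ P ↔ v₀ < (p : ℝ) ∧ Real.log p ≤ V0 ∧ p ∉ F) := by
    intro p hp
    have hp0 : (0 : ℝ) < p := by exact_mod_cast hp.pos
    have hm0 : p ∈ P0 ↔ (v₀ < (p : ℝ) ∧ Real.log p ≤ V0) := by
      rw [hP0, mem_filter, mem_Icc, Real.log_le_iff_le_exp hp0, hv,
        Nat.le_floor_iff (Real.exp_pos _).le]
      constructor
      · rintro ⟨⟨_, h⟩, _, h'⟩; exact ⟨h', h⟩
      · rintro ⟨h, h'⟩; exact ⟨⟨hp.pos, h'⟩, hp, h⟩
    have hmE : p ∈ E0 ↔ (p ∈ P0 ∧ p ∈ F) := by rw [hE0, mem_filter]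
    have hmP : p ∈ P ↔ (p ∈ P0 ∧ p ∉ E0) := by rw [hPdef, mem_sdiff]
    rw [hmP, hmE, hm0]
    by_cases c1 : v₀ < (p : ℝ) <;> by_cases c2 : Real.log p ≤ V0 <;> by_cases c3 : p ∈ F <;>
      simp [c1, c2, c3]
  have hPy : ∀ p ∈ P, p ≤ y := by
    intro p hpP
    have h7 := hP0v' p (hPP0 hpP)
    have : (p : ℝ) ≤ y := le_trans (by exact_mod_cast h7) hvy
    exact_mod_cast this
  -- allowed classes
  set A : ℕ → Finset ℕ := fun p => (range p) \ (univ.image (fun j : Fin K => t j p % p)) with hA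
  have hAne : ∀ p ∈ P, A p ⊆ range p ∧ (A p).Nonempty := by
    intro p hp
    refine ⟨sdiff_subset, ?_⟩
    rw [← card_pos]
    have h7 : (univ.image (fun j : Fin K => t j p % p)).card ≤ K :=
      card_image_le.trans (by simp)
    have h8 := le_card_sdiff (univ.image (fun j : Fin K => t j p % p)) (range p)
    rw [card_range] at h8
    have h9 : K < p := by
      have h10 := hP0v p (hPP0 hp)
      have h11 : (K : ℝ) ≤ v₀ := by
        rw [hv₀]
        have : (K : ℝ) ≤ Real.log y := by rw [hLe]; linarith [(Nat.cast_nonneg K : (0 : ℝ) ≤ K)]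
        nlinarith
      have : (K : ℝ) < p := by linarith
      exact_mod_cast this
    show 0 < (A p).card
    rw [hA]
    simp only
    omega
  -- R
  set R := (range (H + 1)).filter (fun k => ∀ p : ℕ, p.Prime → p ≤ y → p ∉ F →
    p ∉ P → ¬ p ∣ k) with hR
  obtain ⟨b, hb, hbc⟩ := greedy_gen P A hAne R
  refine ⟨fun p => if p ∈ P then b p else 0, ?_, ?_⟩
  · intro p hp hpy hpF
    by_cases hpP : p ∈ P
    · simp only [hpP, if_true]
      have h7 := hb p hpP
      rw [hA] at h7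
      simp only [mem_sdiff, mem_range, mem_image, mem_univ, true_and, not_exists] at h7
      refine ⟨h7.1, fun j hj => h7.2 j ?_⟩
      have : t j p % p = b p % p := hj
      rw [this, Nat.mod_eq_of_lt h7.1]
    · simp only [hpP, if_false]
      refine ⟨hp.pos, fun j hj => ?_⟩
      have h7 : p ∣ t j p := (Nat.modEq_zero_iff_dvd).1 hj
      refine htp j p hp hpy hpF ?_ h7
      by_contra hcon
      push Not at hcon
      exact hpP ((hPmem p hp).2 ⟨hcon.1, hcon.2, hpF⟩)
  have hsub1 : (range (H + 1)).filter (fun k => ∀ p : ℕ, p.Prime → p ≤ y → p ∉ F →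
      ¬ k ≡ (if p ∈ P then b p else 0) [MOD p]) ⊆
      R.filter (fun k => ∀ p ∈ P, ¬ k ≡ b p [MOD p]) := by
    intro k hk
    rw [mem_filter] at hk
    rw [mem_filter, hR, mem_filter]
    refine ⟨⟨hk.1, fun p hp hpy hpF hpP => ?_⟩, fun p hpP => ?_⟩
    · have := hk.2 p hp hpy hpF
      rw [if_neg hpP] at this
      intro hd
      exact this ((Nat.modEq_zero_iff_dvd).2 hd)
    · have hpp := (hP0p p (hPP0 hpP)).1
      have hpm := (hPmem p hpp).1 hpP
      have := hk.2 p hpp (hPy p hpP) hpm.2.2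
      rwa [if_pos hpP] at this
  refine (Nat.cast_le.2 (card_le_card hsub1)).trans (hbc.trans ?_)
  -- size of R
  have hRsub : R ⊆ {0} ∪ (((Icc 1 H).filter (fun k => ∃ s ∈ F.filter (fun q : ℕ => V0 < Real.log q), s ∣ k)) ∪
      (((Icc 1 H).filter (fun k => ∃ q m : ℕ, q.Prime ∧ y < q ∧ k = q * m ∧
        ∀ p : ℕ, p.Prime → p ∣ m → p ∈ F)) ∪
      (Finset.Icc 1 H).filter (fun m => ∀ p : ℕ, p.Prime → p ∣ m → Real.log p ≤ V0))) := by
    intro k hk
    rw [hR, mem_filter, mem_range] at hk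
    obtain ⟨hkH, hk2⟩ := hk
    rw [mem_union, mem_singleton]
    by_cases hk0 : k = 0
    · exact Or.inl hk0
    right
    have hk1 : 1 ≤ k := by omega
    have hkI : k ∈ Icc 1 H := by rw [mem_Icc]; omega
    rw [mem_union, mem_union]
    by_cases hA1 : ∃ s ∈ F.filter (fun q : ℕ => V0 < Real.log q), s ∣ k
    · exact Or.inl (mem_filter.2 ⟨hkI, hA1⟩)
    right
    push Not at hA1
    have hfac : ∀ q : ℕ, q.Prime → q ∣ k → (q ∈ F ∨ q ∈ P ∨ y < q) := by
      intro q hq hd
      by_contra hcon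
      push Not at hcon
      exact hk2 q hq hcon.2.2 hcon.1 hcon.2.1 hd
    by_cases hB1 : ∃ q : ℕ, q.Prime ∧ q ∣ k ∧ y < q
    · left
      rw [mem_filter]
      refine ⟨hkI, ?_⟩
      obtain ⟨q, hq, ⟨m, rfl⟩, hyq⟩ := hB1
      have hm0 : m ≠ 0 := by rintro rfl; simp at hk0
      have hmv : (m : ℝ) < v₀ := by
        have h7 : (q : ℝ) * m ≤ H := by exact_mod_cast (by omega : q * m ≤ H)
        have h8 : (0 : ℝ) < m := by exact_mod_cast Nat.pos_of_ne_zero hm0
        have h10 : (y : ℝ) < q := by exact_mod_cast hyq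
        have h9 : (y : ℝ) * m < y * v₀ := by
          calc (y : ℝ) * m < q * m := by gcongr
            _ ≤ H := h7
            _ ≤ _ := hHy
        exact lt_of_mul_lt_mul_left h9 hy0.le
      refine ⟨q, m, hq, hyq, rfl, fun r hr hrd => ?_⟩
      have hrm : (r : ℝ) ≤ m := by exact_mod_cast Nat.le_of_dvd (Nat.pos_of_ne_zero hm0) hrd
      rcases hfac r hr (hrd.mul_left q) with h | h | h
      · exact h
      · have := hP0v r (hPP0 h); linarith
      · have : (y : ℝ) < r := by exact_mod_cast h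
        linarith
    · right
      push Not at hB1
      rw [mem_filter]
      refine ⟨hkI, fun q hq hd => ?_⟩
      rcases hfac q hq hd with h | h | h
      · by_contra hcon
        push Not at hcon
        exact hA1 q (mem_filter.2 ⟨h, hcon⟩) hd
      · exact ((hPmem q hq).1 h).2.1
      · have := hB1 q hq hd; omega
  have hRcard : (R.card : ℝ) ≤ (C₁ + 2 + 10 * Real.exp (2 * C₀)) * H / Real.log y := by
    have e1 := mult_count (F.filter (fun q : ℕ => V0 < Real.log q))
      (fun q hq => (hF q (mem_filter.1 hq).1).pos) H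
    have e2 := primeF_count F hF C₀ hFsum y H hy2
    have h7 : R.card ≤ 1 + (((Icc 1 H).filter (fun k => ∃ s ∈ F.filter (fun q : ℕ => V0 < Real.log q), s ∣ k)).card +
      (((Icc 1 H).filter (fun k => ∃ q m : ℕ, q.Prime ∧ y < q ∧ k = q * m ∧
        ∀ p : ℕ, p.Prime → p ∣ m → p ∈ F)).card +
      ((Finset.Icc 1 H).filter (fun m => ∀ p : ℕ, p.Prime → p ∣ m → Real.log p ≤ V0)).card)) := by
      refine (card_le_card hRsub).trans ((card_union_le _ _).trans ?_)
      rw [card_singleton]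
      apply Nat.add_le_add_left
      refine (card_union_le _ _).trans ?_
      apply Nat.add_le_add_left
      exact card_union_le _ _
    have h8 : (R.card : ℝ) ≤ 1 + ((((Icc 1 H).filter (fun k => ∃ s ∈ F.filter (fun q : ℕ => V0 < Real.log q), s ∣ k)).card : ℝ) +
      ((((Icc 1 H).filter (fun k => ∃ q m : ℕ, q.Prime ∧ y < q ∧ k = q * m ∧
        ∀ p : ℕ, p.Prime → p ∣ m → p ∈ F)).card : ℝ) +
      (((Finset.Icc 1 H).filter (fun m => ∀ p : ℕ, p.Prime → p ∣ m → Real.log p ≤ V0)).card : ℝ))) := by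
      exact_mod_cast h7
    have h9 : (H : ℝ) * ∑ q ∈ F.filter (fun q : ℕ => V0 < Real.log q), (1 : ℝ) / q ≤ C₁ * (H / Real.log y) := by
      calc (H : ℝ) * ∑ q ∈ F.filter (fun q : ℕ => V0 < Real.log q), (1 : ℝ) / q ≤ H * (C₁ / Real.log y) := by gcongr
        _ = _ := by ring
    have h11 : (H : ℝ) / (Real.log y) ^ 3 ≤ H / Real.log y := by
      apply div_le_div_of_nonneg_left hH0.le hly
      nlinarith [sq_nonneg (Real.log y)]
    have h14 : (1 : ℝ) ≤ H / Real.log y := by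
      rw [one_le_div hly]
      have := Real.log_le_sub_one_of_pos hy0
      linarith
    have h12 : (C₁ + 2 + 10 * Real.exp (2 * C₀)) * H / Real.log y = (C₁ + 2) * (H / Real.log y) +
      10 * Real.exp (2 * C₀) * H / Real.log y := by ring
    linarith
  -- the product over P0
  have hPv : V v = V u * ∏ p ∈ P0, (1 - 1 / (p : ℝ)) := by
    have h7 : Pz v = Pz u ∪ P0 := by
      ext p
      rw [mem_union, mem_Pz, mem_Pz, hP0, mem_filter, mem_Icc, hu, Nat.le_floor_iff hv₀0.le]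
      constructor
      · rintro ⟨hp, hpv⟩
        by_cases h : (p : ℝ) ≤ v₀
        · exact Or.inl ⟨hp, h⟩
        · exact Or.inr ⟨⟨hp.pos, hpv⟩, hp, not_le.1 h⟩
      · rintro (⟨hp, hpu⟩ | ⟨⟨_, hpv⟩, hp, _⟩)
        · refine ⟨hp, ?_⟩
          have : p ≤ u := by rw [hu, Nat.le_floor_iff hv₀0.le]; exact hpu
          omega
        · exact ⟨hp, hpv⟩
    have h8 : Disjoint (Pz u) P0 := by
      rw [Finset.disjoint_left]
      intro p hp hpS
      have h9 := (mem_Pz.1 hp).2
      rw [hu, Nat.le_floor_iff hv₀0.le] at h9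
      have := hP0v p hpS
      linarith
    unfold V
    rw [h7, prod_union h8]
  have hP0prod : ∏ p ∈ P0, (1 - 1 / (p : ℝ)) ≤ c₂ / c₁ * 40 * (τ ^ 2 / (Real.log y * Real.log τ)) := by
    have h7 := (hV v (by omega)).2
    have h8 := (hV u hu2).1
    rw [hPv] at h7
    have hVu := V_pos u
    have h9 : c₁ * (∏ p ∈ P0, (1 - 1 / (p : ℝ))) * (V0 / 2) ≤ c₂ * (2 * τ) := by
      have hnn : 0 ≤ ∏ p ∈ P0, (1 - 1 / (p : ℝ)) :=
        Finset.prod_nonneg fun p hp => (one_sub_inv_pos (hP0p p hp).1).le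
      calc c₁ * (∏ p ∈ P0, (1 - 1 / (p : ℝ))) * (V0 / 2)
          ≤ (V u * Real.log u) * (∏ p ∈ P0, (1 - 1 / (p : ℝ))) * Real.log v := by
            gcongr
        _ = (V u * (∏ p ∈ P0, (1 - 1 / (p : ℝ))) * Real.log v) * Real.log u := by ring
        _ ≤ c₂ * Real.log u := by gcongr
        _ ≤ _ := by gcongr
    have hV0pos : 0 < V0 := by linarith
    have h10 : ∏ p ∈ P0, (1 - 1 / (p : ℝ)) ≤ c₂ * (2 * τ) / (c₁ * (V0 / 2)) := by
      rw [le_div_iff₀ (by positivity)]
      linarith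
    refine h10.trans (le_of_eq ?_)
    rw [hV0]
    field_simp
    ring
  have hE0sum : ∑ p ∈ E0, 1 / (p : ℝ) ≤ C₀ := by
    refine le_trans ?_ hFsum
    apply sum_le_sum_of_subset_of_nonneg
    · intro p hp
      rw [hE0, mem_filter] at hp
      exact hp.2
    · intro _ _ _; positivity
  have hexp2 : Real.exp 2 ≤ 8 := by
    have h7 := Real.exp_one_lt_d9
    have h8 : Real.exp 2 = Real.exp 1 * Real.exp 1 := by rw [← Real.exp_add]; norm_num
    rw [h8]; nlinarith [Real.exp_pos 1]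
  have hPprod : ∏ p ∈ P, (1 - 1 / (p : ℝ)) ≤ (∏ p ∈ P0, (1 - 1 / (p : ℝ))) * Real.exp (2 * C₀) :=
    prod_drop' P0 E0 hP0p (filter_subset _ _) C₀ hE0sum
  have hPnn : 0 ≤ ∏ p ∈ P, (1 - 1 / (p : ℝ)) :=
    Finset.prod_nonneg fun p hp => (one_sub_inv_pos (hP0p p (hPP0 hp)).1).le
  -- the exceptional `k`
  set Bd : Finset ℕ := R.filter (fun k => 1 < ∑ p ∈ P.filter (fun p => ¬ k % p ∈ A p), 1 / (p : ℝ)) with hBd
  have hBdcard : (Bd.card : ℝ) ≤ 4 * K * H / (Real.log y) ^ 2 := by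
    have h7 : (Bd.card : ℝ) ≤ ∑ k ∈ range (H + 1), ∑ p ∈ P.filter (fun p => ¬ k % p ∈ A p), 1 / (p : ℝ) := by
      calc (Bd.card : ℝ) = ∑ k ∈ Bd, (1 : ℝ) := by simp
        _ ≤ ∑ k ∈ Bd, ∑ p ∈ P.filter (fun p => ¬ k % p ∈ A p), 1 / (p : ℝ) :=
            sum_le_sum fun k hk => (mem_filter.1 hk).2.le
        _ ≤ _ := by
            apply sum_le_sum_of_subset_of_nonneg
            · intro k hk
              rw [hBd, hR] at hk
              exact (mem_filter.1 (mem_filter.1 hk).1).1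
            · intro _ _ _
              exact sum_nonneg fun _ _ => by positivity
    have h8 : ∑ k ∈ range (H + 1), ∑ p ∈ P.filter (fun p => ¬ k % p ∈ A p), 1 / (p : ℝ) =
        ∑ p ∈ P, ((range (H + 1)).filter (fun k => ¬ k % p ∈ A p)).card * (1 / (p : ℝ)) := by
      simp_rw [sum_filter]
      rw [sum_comm]
      apply sum_congr rfl
      intro p hp
      rw [← sum_filter, sum_const, nsmul_eq_mul]
    rw [h8] at h7
    have h9 : ∀ p ∈ P, (((range (H + 1)).filter (fun k => ¬ k % p ∈ A p)).card : ℝ) * (1 / (p : ℝ)) ≤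
        2 * K * H * ((p : ℝ) ^ 2)⁻¹ := by
      intro p hp
      have hpp := (hP0p p (hPP0 hp)).1
      have hp0 : (0 : ℝ) < p := by exact_mod_cast hpp.pos
      have h10 : ((range (H + 1)).filter (fun k => ¬ k % p ∈ A p)).card ≤ K * (H / p + 1) := by
        have h11 : (range (H + 1)).filter (fun k => ¬ k % p ∈ A p) ⊆
            univ.biUnion (fun j : Fin K => (range (H + 1)).filter (fun k => k % p = t j p % p)) := by
          intro k hk
          rw [mem_filter] at hk
          rw [mem_biUnion]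
          obtain ⟨hk1, hk2⟩ := hk
          rw [hA] at hk2
          simp only [mem_sdiff, mem_range, mem_image, mem_univ, true_and, not_and, not_not,
            Nat.mod_lt k hpp.pos, forall_true_left] at hk2
          obtain ⟨j, hj⟩ := hk2
          exact ⟨j, mem_univ _, mem_filter.2 ⟨hk1, hj.symm⟩⟩
        refine (card_le_card h11).trans (card_biUnion_le.trans ?_)
        refine (sum_le_card_nsmul _ _ _ (fun j _ => class_count p (t j p) H hpp.pos)).trans (le_of_eq ?_)
        rw [card_univ, Fintype.card_fin, smul_eq_mul]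
      have h11 : (((range (H + 1)).filter (fun k => ¬ k % p ∈ A p)).card : ℝ) ≤ K * (((H / p : ℕ) : ℝ) + 1) := by
        exact_mod_cast h10
      have h12 : ((H / p : ℕ) : ℝ) ≤ (H : ℝ) / p := Nat.cast_div_le
      have h13 : (1 : ℝ) ≤ H / p := by
        rw [one_le_div hp0]
        have : (p : ℝ) ≤ y := by exact_mod_cast hPy p hp
        linarith
      have h14 : (K : ℝ) * (((H / p : ℕ) : ℝ) + 1) ≤ K * (2 * ((H : ℝ) / p)) := by
        apply mul_le_mul_of_nonneg_left _ (Nat.cast_nonneg K)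
        linarith
      calc (((range (H + 1)).filter (fun k => ¬ k % p ∈ A p)).card : ℝ) * (1 / (p : ℝ))
          ≤ (K * (2 * ((H : ℝ) / p))) * (1 / (p : ℝ)) := by
            apply mul_le_mul_of_nonneg_right _ (by positivity)
            linarith
        _ = _ := by field_simp
    have h10 : ∑ p ∈ P, ((p : ℝ) ^ 2)⁻¹ ≤ 2 / v₀ := by
      calc ∑ p ∈ P, ((p : ℝ) ^ 2)⁻¹ ≤ ∑ p ∈ Ioo u (v + 1), ((p : ℝ) ^ 2)⁻¹ := by
            apply sum_le_sum_of_subset_of_nonneg
            · intro p hp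
              rw [mem_Ioo]
              refine ⟨?_, by have := hP0v' p (hPP0 hp); omega⟩
              have := hP0v p (hPP0 hp)
              have : (u : ℝ) < p := by linarith
              exact_mod_cast this
            · intro _ _ _; positivity
        _ ≤ 2 / (u + 1) := sum_Ioo_inv_sq_le u (v + 1)
        _ ≤ 2 / v₀ := by
            apply div_le_div_of_nonneg_left (by norm_num) hv₀0
            exact (Nat.lt_floor_add_one v₀).le
    calc (Bd.card : ℝ) ≤ ∑ p ∈ P, ((range (H + 1)).filter (fun k => ¬ k % p ∈ A p)).card * (1 / (p : ℝ)) := h7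
      _ ≤ ∑ p ∈ P, 2 * K * H * ((p : ℝ) ^ 2)⁻¹ := sum_le_sum h9
      _ = 2 * K * H * ∑ p ∈ P, ((p : ℝ) ^ 2)⁻¹ := by rw [mul_sum]
      _ ≤ 2 * K * H * (2 / v₀) := by gcongr
      _ = _ := by rw [hv₀]; ring
  -- each k
  have hfac01 : ∀ p ∈ P, 0 ≤ 1 - 1 / ((A p).card : ℝ) ∧ 1 - 1 / ((A p).card : ℝ) ≤ 1 - 1 / (p : ℝ) := by
    intro p hp
    have h9 : 1 ≤ (A p).card := card_pos.2 (hAne p hp).2
    have h10 : (1 : ℝ) ≤ (A p).card := by exact_mod_cast h9
    have h11 : (A p).card ≤ p := by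
      have := card_le_card (hAne p hp).1
      rwa [card_range] at this
    have h12 : ((A p).card : ℝ) ≤ p := by exact_mod_cast h11
    constructor
    · have : 1 / ((A p).card : ℝ) ≤ 1 := by rw [div_le_one (by linarith)]; exact h10
      linarith
    · have : 1 / (p : ℝ) ≤ 1 / ((A p).card : ℝ) := one_div_le_one_div_of_le (by linarith) h12
      linarith
  have hfib : ∀ k ∈ R, ∏ p ∈ P.filter (fun p => k % p ∈ A p), (1 - 1 / ((A p).card : ℝ)) ≤
      (∏ p ∈ P, (1 - 1 / (p : ℝ))) * 8 + (if k ∈ Bd then 1 else 0) := by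
    intro k hk
    by_cases hkB : k ∈ Bd
    · rw [if_pos hkB]
      have h7 : ∏ p ∈ P.filter (fun p => k % p ∈ A p), (1 - 1 / ((A p).card : ℝ)) ≤ 1 := by
        apply Finset.prod_le_one
        · intro p hp; exact (hfac01 p (mem_filter.1 hp).1).1
        · intro p hp
          have h8 := (hfac01 p (mem_filter.1 hp).1).2
          have : 0 ≤ 1 / (p : ℝ) := by positivity
          linarith
      have : 0 ≤ (∏ p ∈ P, (1 - 1 / (p : ℝ))) * 8 := by positivity
      linarith
    · rw [if_neg hkB, add_zero]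
      set E : Finset ℕ := P.filter (fun p => ¬ k % p ∈ A p) with hE
      have hEs : ∑ p ∈ E, 1 / (p : ℝ) ≤ 1 := by
        by_contra hcon
        push Not at hcon
        exact hkB (mem_filter.2 ⟨hk, hcon⟩)
      have h7 : P.filter (fun p => k % p ∈ A p) = P \ E := by
        ext p
        have hmE : p ∈ E ↔ (p ∈ P ∧ ¬ k % p ∈ A p) := by rw [hE, mem_filter]
        have hmPE : p ∈ P \ E ↔ (p ∈ P ∧ p ∉ E) := Finset.mem_sdiff
        rw [mem_filter, hmPE, hmE]
        by_cases c1 : p ∈ P <;> by_cases c2 : k % p ∈ A p <;> simp only [c1, c2, true_and, false_and,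
          and_true, not_true, not_false_iff, and_self, and_false]
      have h8 : ∏ p ∈ P.filter (fun p => k % p ∈ A p), (1 - 1 / ((A p).card : ℝ)) ≤
          ∏ p ∈ P.filter (fun p => k % p ∈ A p), (1 - 1 / (p : ℝ)) := by
        apply Finset.prod_le_prod
        · intro p hp; exact (hfac01 p (mem_filter.1 hp).1).1
        · intro p hp; exact (hfac01 p (mem_filter.1 hp).1).2
      refine h8.trans ?_
      rw [h7]
      have h9 := prod_drop' P E (fun p hp => hP0p p (hPP0 hp)) (filter_subset _ _) 1 hEs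
      rw [mul_one] at h9
      refine h9.trans ?_
      gcongr
  have hτ1 : 1 ≤ τ ^ 2 / Real.log τ := by
    rw [one_le_div hlt0]
    nlinarith
  calc ∑ k ∈ R, ∏ p ∈ P.filter (fun p => k % p ∈ A p), (1 - 1 / ((A p).card : ℝ))
      ≤ ∑ k ∈ R, ((∏ p ∈ P, (1 - 1 / (p : ℝ))) * 8 + (if k ∈ Bd then 1 else 0)) := sum_le_sum hfib
    _ = R.card * ((∏ p ∈ P, (1 - 1 / (p : ℝ))) * 8) + Bd.card := by
        have hRB : R.filter (fun k => k ∈ Bd) = Bd := by
          ext k
          rw [mem_filter]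
          refine ⟨fun h => h.2, fun h => ⟨?_, h⟩⟩
          rw [hBd, mem_filter] at h
          exact h.1
        rw [sum_add_distrib, sum_const, nsmul_eq_mul, ← sum_filter, sum_const, nsmul_eq_mul, mul_one, hRB]
    _ ≤ ((C₁ + 2 + 10 * Real.exp (2 * C₀)) * H / Real.log y) *
          (((c₂ / c₁ * 40 * (τ ^ 2 / (Real.log y * Real.log τ))) * Real.exp (2 * C₀)) * 8) +
        4 * (K + 1) * H / (Real.log y) ^ 2 := by
        have hBdcard' : (Bd.card : ℝ) ≤ 4 * (K + 1) * H / (Real.log y) ^ 2 := by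
          refine hBdcard.trans ?_
          gcongr
          linarith
        have h7 : ∏ p ∈ P, (1 - 1 / (p : ℝ)) ≤
            (c₂ / c₁ * 40 * (τ ^ 2 / (Real.log y * Real.log τ))) * Real.exp (2 * C₀) :=
          hPprod.trans (by gcongr)
        gcongr
    _ ≤ ((C₁ + 2 + 10 * Real.exp (2 * C₀)) * H / Real.log y) *
          (((c₂ / c₁ * 40 * (τ ^ 2 / (Real.log y * Real.log τ))) * Real.exp (2 * C₀)) * 8) +
        4 * (K + 1) * H / (Real.log y) ^ 2 * (τ ^ 2 / Real.log τ) := by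
        have h7 : 4 * (K + 1) * (H : ℝ) / (Real.log y) ^ 2 * 1 ≤
            4 * (K + 1) * H / (Real.log y) ^ 2 * (τ ^ 2 / Real.log τ) := by
          gcongr
        rw [mul_one] at h7
        gcongr
    _ = _ := by
        field_simp
        ring

end Pool.Agent.TH101.RG
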