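import Pool.Agent.TH101.RG.Tup
import Pool.Agent.TH101.RG.Templ

set_option autoImplicit false
set_option maxHeartbeats 4000000

/-! # A Maynard-Tao cluster at which few linear forms are simultaneously composite -/

namespace Pool.Agent.TH101.RG

open Finset Filter
open Pool.Agent.H378R2
open Pool.Agent.H312R2.RG (not_dvd_diff BVat)
open Pool.Agent.H362R2.RQ (fib)

open scoped Classical

/-- the number of primes dividing one of the coefficients, determinants or resultants with the tuple -/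
theorem card_BxT (K D : ℕ) (X : ℝ) (hX : 4 ≤ X) (hL : 8 * (3 + 10 * (D : ℝ)) + 100 + 8 * (K * ((D : ℝ) + 4)) ≤ Real.log X)
    (ps g : ℕ) (hg : (g : ℝ) ≤ X ^ D) (t : Fin K → ℕ) (ht : ∀ j, (t j : ℝ) ≤ (Real.log X) ^ 2)
    (U : Finset ℕ) (hU : (U.card : ℝ) ≤ Real.log X) (α β : ℕ → ℤ)
    (h : ∀ k ∈ U, |(α k : ℝ)| ≤ X ^ D ∧ |(β k : ℝ)| ≤ X ^ D) :
    2 * (((insert ps ((g.primeFactors ∪
      U.biUnion (fun k => (α k).natAbs.primeFactors ∪ (β k).natAbs.primeFactors)) ∪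
      U.biUnion (fun k => U.biUnion (fun l => (α k * β l - α l * β k).natAbs.primeFactors)))) ∪
      U.biUnion (fun k => (univ : Finset (Fin K)).biUnion (fun j => (α k * t j - β k).natAbs.primeFactors))).card : ℝ) ≤
      (Real.log X) ^ 4 := by
  set L := Real.log X with hLd
  have hD0 : (0 : ℝ) ≤ D := Nat.cast_nonneg D
  have hK0 : (0 : ℝ) ≤ K := Nat.cast_nonneg K
  have hKD : 0 ≤ (K : ℝ) * ((D : ℝ) + 4) := by positivity
  have hL1 : 1 ≤ L := by linarith
  have hX1 : 1 ≤ X := by linarith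
  have hX0 : 0 < X := by linarith
  have h1 : (g.primeFactors.card : ℝ) ≤ 2 * (D * L) := by
    have := card_pf_le hX1 D (g : ℤ) (by
      rw [Int.cast_natCast, abs_of_nonneg (Nat.cast_nonneg g)]
      exact hg)
    simpa using this
  have h2 : ((U.biUnion (fun k => (α k).natAbs.primeFactors ∪ (β k).natAbs.primeFactors)).card : ℝ) ≤
      L * (4 * (D * L)) := by
    have e1 : ((U.biUnion (fun k => (α k).natAbs.primeFactors ∪ (β k).natAbs.primeFactors)).card : ℝ) ≤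
        ∑ k ∈ U, (((α k).natAbs.primeFactors ∪ (β k).natAbs.primeFactors).card : ℝ) := by
      exact_mod_cast card_biUnion_le
    refine e1.trans ((sum_le_card_nsmul _ _ _ (fun k hk => ?_)).trans (?_ : _ • (4 * (D * L)) ≤ _))
    · have e2 : (((α k).natAbs.primeFactors ∪ (β k).natAbs.primeFactors).card : ℝ) ≤
          (α k).natAbs.primeFactors.card + (β k).natAbs.primeFactors.card := by
        exact_mod_cast card_union_le _ _
      have e3 := card_pf_le hX1 D (α k) (h k hk).1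
      have e4 := card_pf_le hX1 D (β k) (h k hk).2
      linarith
    · rw [nsmul_eq_mul]
      exact mul_le_mul_of_nonneg_right hU (by positivity)
  have h3 : ((U.biUnion (fun k => U.biUnion (fun l => (α k * β l - α l * β k).natAbs.primeFactors))).card : ℝ) ≤
      L * (L * (2 * (((2 * D + 1 : ℕ) : ℝ) * L))) := by
    have e1 : ((U.biUnion (fun k => U.biUnion (fun l => (α k * β l - α l * β k).natAbs.primeFactors))).card : ℝ) ≤
        ∑ k ∈ U, ((U.biUnion (fun l => (α k * β l - α l * β k).natAbs.primeFactors)).card : ℝ) := by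
      exact_mod_cast card_biUnion_le
    refine e1.trans ((sum_le_card_nsmul _ _ _ (fun k hk => ?_)).trans
      (?_ : _ • (L * (2 * (((2 * D + 1 : ℕ) : ℝ) * L))) ≤ _))
    · have e2 : ((U.biUnion (fun l => (α k * β l - α l * β k).natAbs.primeFactors)).card : ℝ) ≤
          ∑ l ∈ U, ((α k * β l - α l * β k).natAbs.primeFactors.card : ℝ) := by
        exact_mod_cast card_biUnion_le
      refine e2.trans ((sum_le_card_nsmul _ _ _ (fun l hl => ?_)).trans
        (?_ : _ • (2 * (((2 * D + 1 : ℕ) : ℝ) * L)) ≤ _))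
      · refine card_pf_le hX1 (2 * D + 1) _ ?_
        push_cast
        refine (abs_sub _ _).trans ?_
        rw [abs_mul, abs_mul]
        have e3 : |(α k : ℝ)| * |(β l : ℝ)| ≤ X ^ D * X ^ D :=
          mul_le_mul (h k hk).1 (h l hl).2 (abs_nonneg _) (by positivity)
        have e4 : |(α l : ℝ)| * |(β k : ℝ)| ≤ X ^ D * X ^ D :=
          mul_le_mul (h l hl).1 (h k hk).2 (abs_nonneg _) (by positivity)
        have e5 : X ^ (2 * D + 1) = (X ^ D * X ^ D) * X := by ring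
        rw [e5]
        have e6 : 0 ≤ X ^ D * X ^ D := by positivity
        nlinarith
      · rw [nsmul_eq_mul]
        exact mul_le_mul_of_nonneg_right hU (by positivity)
    · rw [nsmul_eq_mul]
      exact mul_le_mul_of_nonneg_right hU (by positivity)
  have h4 : ((U.biUnion (fun k => (univ : Finset (Fin K)).biUnion
      (fun j => (α k * t j - β k).natAbs.primeFactors))).card : ℝ) ≤
      L * (K * (2 * (((D + 2 : ℕ) : ℝ) * L))) := by
    have e1 : ((U.biUnion (fun k => (univ : Finset (Fin K)).biUnion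
      (fun j => (α k * t j - β k).natAbs.primeFactors))).card : ℝ) ≤
        ∑ k ∈ U, (((univ : Finset (Fin K)).biUnion
      (fun j => (α k * t j - β k).natAbs.primeFactors)).card : ℝ) := by
      exact_mod_cast card_biUnion_le
    refine e1.trans ((sum_le_card_nsmul _ _ _ (fun k hk => ?_)).trans
      (?_ : _ • (K * (2 * (((D + 2 : ℕ) : ℝ) * L))) ≤ _))
    · have e2 : (((univ : Finset (Fin K)).biUnion (fun j => (α k * t j - β k).natAbs.primeFactors)).card : ℝ) ≤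
          ∑ j : Fin K, ((α k * t j - β k).natAbs.primeFactors.card : ℝ) := by
        exact_mod_cast card_biUnion_le
      refine e2.trans ((sum_le_card_nsmul _ _ _ (fun j _ => ?_)).trans
        (?_ : _ • (2 * (((D + 2 : ℕ) : ℝ) * L)) ≤ _))
      · refine card_pf_le hX1 (D + 2) _ ?_
        push_cast
        refine (abs_sub _ _).trans ?_
        rw [abs_mul, abs_of_nonneg (Nat.cast_nonneg (t j) : (0 : ℝ) ≤ t j)]
        have e3 : |(α k : ℝ)| * t j ≤ X ^ D * L ^ 2 :=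
          mul_le_mul (h k hk).1 (ht j) (Nat.cast_nonneg _) (by positivity)
        have e4 : |(β k : ℝ)| ≤ X ^ D := (h k hk).2
        have e5 : X ^ (D + 2) = X ^ D * X * X := by ring
        have e6 : L ≤ X := (Real.log_le_sub_one_of_pos hX0).trans (by linarith)
        have e7 := log_small (show 100 ≤ Real.log X by linarith) hX0 D
        have e8 : 1 ≤ X ^ D := one_le_pow₀ hX1
        have e9 : L ^ 2 + 1 ≤ X * X := by
          have f1 : L ^ 4 / 24 ≤ Real.exp L := by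
            have := Real.pow_div_factorial_le_exp L (by linarith) 4
            simpa [Nat.factorial] using this
          rw [hLd, Real.exp_log hX0, ← hLd] at f1
          have f2 : L ^ 2 ≤ L ^ 4 / 24 := by
            have f3 : (24 : ℝ) ≤ L ^ 2 := by nlinarith
            have f4 : 24 * L ^ 2 ≤ L ^ 2 * L ^ 2 := mul_le_mul_of_nonneg_right f3 (by positivity)
            have f5 : L ^ 4 = L ^ 2 * L ^ 2 := by ring
            linarith
          nlinarith
        have e10 : X ^ D * (L ^ 2 + 1) ≤ X ^ D * (X * X) := mul_le_mul_of_nonneg_left e9 (by linarith)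
        rw [e5]
        nlinarith
      · rw [nsmul_eq_mul, card_univ, Fintype.card_fin]
    · rw [nsmul_eq_mul]
      exact mul_le_mul_of_nonneg_right hU (by positivity)
  have h5 := card_insert_le ps ((g.primeFactors ∪
      U.biUnion (fun k => (α k).natAbs.primeFactors ∪ (β k).natAbs.primeFactors)) ∪
      U.biUnion (fun k => U.biUnion (fun l => (α k * β l - α l * β k).natAbs.primeFactors)))
  have h6 := card_union_le (g.primeFactors ∪
      U.biUnion (fun k => (α k).natAbs.primeFactors ∪ (β k).natAbs.primeFactors))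
      (U.biUnion (fun k => U.biUnion (fun l => (α k * β l - α l * β k).natAbs.primeFactors)))
  have h7 := card_union_le g.primeFactors
      (U.biUnion (fun k => (α k).natAbs.primeFactors ∪ (β k).natAbs.primeFactors))
  have h8 := card_union_le (insert ps ((g.primeFactors ∪
      U.biUnion (fun k => (α k).natAbs.primeFactors ∪ (β k).natAbs.primeFactors)) ∪
      U.biUnion (fun k => U.biUnion (fun l => (α k * β l - α l * β k).natAbs.primeFactors))))
      (U.biUnion (fun k => (univ : Finset (Fin K)).biUnion (fun j => (α k * t j - β k).natAbs.primeFactors)))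
  have h9 : (((insert ps ((g.primeFactors ∪
      U.biUnion (fun k => (α k).natAbs.primeFactors ∪ (β k).natAbs.primeFactors)) ∪
      U.biUnion (fun k => U.biUnion (fun l => (α k * β l - α l * β k).natAbs.primeFactors)))) ∪
      U.biUnion (fun k => (univ : Finset (Fin K)).biUnion (fun j => (α k * t j - β k).natAbs.primeFactors))).card : ℝ) ≤
      (g.primeFactors.card : ℝ) +
      ((U.biUnion (fun k => (α k).natAbs.primeFactors ∪ (β k).natAbs.primeFactors)).card : ℝ) +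
      ((U.biUnion (fun k => U.biUnion (fun l => (α k * β l - α l * β k).natAbs.primeFactors))).card : ℝ) + 1 +
      ((U.biUnion (fun k => (univ : Finset (Fin K)).biUnion
      (fun j => (α k * t j - β k).natAbs.primeFactors))).card : ℝ) := by
    exact_mod_cast (by omega)
  have h10 : 2 * ((2 * (D * L)) + L * (4 * (D * L)) + L * (L * (2 * (((2 * D + 1 : ℕ) : ℝ) * L))) + 1) ≤
      L ^ 4 / 2 := by
    push_cast
    have e1 : L ≤ L ^ 3 := by
      calc L = L ^ 1 := (pow_one _).symm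
        _ ≤ L ^ 3 := pow_le_pow_right₀ hL1 (by norm_num)
    have e2 : L ^ 2 ≤ L ^ 3 := pow_le_pow_right₀ hL1 (by norm_num)
    have e3 : 1 ≤ L ^ 3 := one_le_pow₀ hL1
    have e4 : 2 * ((2 * (D * L)) + L * (4 * (D * L)) + L * (L * (2 * ((2 * (D : ℝ) + 1) * L))) + 1) ≤
        (4 * (3 + 10 * (D : ℝ))) * L ^ 3 := by
      have f1 : (D : ℝ) * L ≤ D * L ^ 3 := mul_le_mul_of_nonneg_left e1 hD0
      have f2 : (D : ℝ) * L ^ 2 ≤ D * L ^ 3 := mul_le_mul_of_nonneg_left e2 hD0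
      have f3 : 0 ≤ (D : ℝ) * L ^ 3 := by positivity
      nlinarith
    refine e4.trans ?_
    have e5 : 4 * (3 + 10 * (D : ℝ)) ≤ L / 2 := by linarith
    calc (4 * (3 + 10 * (D : ℝ))) * L ^ 3 ≤ (L / 2) * L ^ 3 := mul_le_mul_of_nonneg_right e5 (by positivity)
      _ = L ^ 4 / 2 := by ring
  have h11 : 2 * (L * (K * (2 * (((D + 2 : ℕ) : ℝ) * L)))) ≤ L ^ 4 / 2 := by
    push_cast
    have e1 : (8 : ℝ) * (K * (D + 2)) ≤ L := by nlinarith
    have e2 : L ^ 2 ≤ L ^ 3 := pow_le_pow_right₀ hL1 (by norm_num)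
    calc 2 * (L * (K * (2 * (((D : ℝ) + 2) * L)))) = (8 * (K * (D + 2))) * L ^ 2 / 2 := by ring
      _ ≤ L * L ^ 3 / 2 := by
          apply div_le_div_of_nonneg_right _ (by norm_num)
          exact mul_le_mul e1 e2 (by positivity) (by linarith)
      _ = L ^ 4 / 2 := by ring
  linarith

/-- the template for tuples, the forms indexed by natural numbers -/
theorem templT1 : ∃ η : ℝ, 0 < η ∧ ∀ m : ℕ, 1 ≤ m → ∃ K : ℕ, m ≤ K ∧ ∀ D : ℕ,
    ∃ (A : ℕ) (c₄ : ℝ), 0 < c₄ ∧ ∀ Z : ℕ, 4 ≤ Z → ∀ᶠ X : ℝ in atTop,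
    ∀ (ps : ℕ) (S : Finset ℕ), GoodP Z ps → GoodS X S → BVat A X (WW X S ps) ps →
    ∀ t : Fin K → ℕ, Function.Injective t → (∀ j, (t j : ℝ) ≤ (Real.log X) ^ 2) →
    ∀ (U : Finset ℕ), U.Nonempty → (U.card : ℝ) ≤ c₄ * Real.log X → ∀ (α β : ℕ → ℤ),
    (∀ k ∈ U, α k ≠ 0 ∧ ∀ j, β k ≠ α k * t j) → (∀ k ∈ U, |(α k : ℝ)| ≤ X ^ D ∧ |(β k : ℝ)| ≤ X ^ D) →
    (∀ k ∈ U, ∀ l ∈ U, k ≠ l → α k * β l ≠ α l * β k) → ∀ g : ℕ, g ≠ 0 → (g : ℝ) ≤ X ^ D →
    ∀ r : ℕ, (∀ j, (r + t j).Coprime (WW X S ps)) →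
    ∀ col : Fin K → Fin m, (∀ e, K ≤ 2 * m * fib col e) →
    ∀ bad : Finset ℕ, (bad.card : ℝ) ≤ X ^ (9 / 10 : ℝ) →
    ∃ n : ℕ, X < n ∧ (n : ℝ) ≤ 3 * X ∧ n ∉ bad ∧ n ≡ r [MOD WW X S ps] ∧
      (∃ E : Finset (Fin m), η * m ≤ E.card ∧ ∀ e ∈ E, ∃ j, col j = e ∧ (n + t j).Prime) ∧
      ∀ k ∈ U, ∃ q : ℕ, q.Prime ∧ (q : ℝ) ≤ X ^ (1 / 1000 : ℝ) ∧ ¬ q ∣ g ∧ (q : ℤ) ∣ α k * n + β k := by
  obtain ⟨η, hη, heng⟩ := engine
  refine ⟨η, hη, fun m hm => ?_⟩
  obtain ⟨K, hmK, hengK⟩ := heng m hm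
  refine ⟨K, hmK, fun D => ?_⟩
  obtain ⟨A, c₃, hA4, hc₃, hw⟩ := weightsT K (K + 4)
  refine ⟨A, min c₃ 1, lt_min hc₃ one_pos, fun Z hZ4 => ?_⟩
  filter_upwards [hw Z, hengK Z hZ4, eventually_ge_atTop 4,
    Real.tendsto_log_atTop.eventually_ge_atTop (8 * (3 + 10 * (D : ℝ)) + 100 + 8 * (K * ((D : ℝ) + 4)))]
    with X hwX hgX hX4 hL
  intro ps S hps hS hBV t htinj htl U hUne hUc α β hne hle hdet g hg0 hgD r hr col hcol bad hbad
  have hX0 : 0 < X := by linarith
  have hD0 : (0 : ℝ) ≤ D := Nat.cast_nonneg D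
  have hKD : 0 ≤ (K : ℝ) * ((D : ℝ) + 4) := by positivity
  have hL0 : 0 < Real.log X := by linarith
  have hUc3 : (U.card : ℝ) ≤ c₃ * Real.log X :=
    hUc.trans (mul_le_mul_of_nonneg_right (min_le_left _ _) hL0.le)
  have hUc1 : (U.card : ℝ) ≤ Real.log X := by
    have := hUc.trans (mul_le_mul_of_nonneg_right (min_le_right c₃ 1) hL0.le)
    linarith
  set Bx : Finset ℕ := (insert ps ((g.primeFactors ∪
      U.biUnion (fun k => (α k).natAbs.primeFactors ∪ (β k).natAbs.primeFactors)) ∪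
      U.biUnion (fun k => U.biUnion (fun l => (α k * β l - α l * β k).natAbs.primeFactors)))) ∪
      U.biUnion (fun k => (univ : Finset (Fin K)).biUnion (fun j => (α k * t j - β k).natAbs.primeFactors)) with hBx
  obtain ⟨PP, hPP, hres⟩ := hwX ps S hps hBV t Bx U
    (by rw [hBx]; exact mem_union_left _ (mem_insert_self _ _))
    (card_BxT K D X hX4 hL ps g hgD t htl U hUc1 α β hle) hUne hUc3
  have hPg : ∀ q ∈ PP, ¬ q ∣ g := by
    intro q hq hd
    apply (hPP q hq).2.2.2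
    rw [hBx, mem_union, mem_insert, mem_union, mem_union]
    left; right; left; left
    rw [Nat.mem_primeFactors]
    exact ⟨(hPP q hq).1, hd, hg0⟩
  have hPα : ∀ q ∈ PP, ∀ k ∈ U, ¬ (q : ℤ) ∣ α k := by
    intro q hq k hk hd
    apply (hPP q hq).2.2.2
    rw [hBx, mem_union, mem_insert, mem_union, mem_union]
    left; right; left; right
    rw [mem_biUnion]
    refine ⟨k, hk, ?_⟩
    rw [mem_union, Nat.mem_primeFactors]
    exact Or.inl ⟨(hPP q hq).1, Int.natCast_dvd.1 hd, Int.natAbs_ne_zero.2 (hne k hk).1⟩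
  have hPt : ∀ q ∈ PP, ∀ k ∈ U, ∀ j, ¬ (q : ℤ) ∣ α k * t j - β k := by
    intro q hq k hk j hd
    apply (hPP q hq).2.2.2
    rw [hBx, mem_union]
    right
    rw [mem_biUnion]
    refine ⟨k, hk, ?_⟩
    rw [mem_biUnion]
    refine ⟨j, mem_univ _, ?_⟩
    rw [Nat.mem_primeFactors]
    refine ⟨(hPP q hq).1, Int.natCast_dvd.1 hd, Int.natAbs_ne_zero.2 ?_⟩
    intro h0
    exact (hne k hk).2 j (by linarith)
  have hPd : ∀ q ∈ PP, ∀ k ∈ U, ∀ l ∈ U, k ≠ l → ¬ (q : ℤ) ∣ α k * β l - α l * β k := by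
    intro q hq k hk l hl hkl hd
    apply (hPP q hq).2.2.2
    rw [hBx, mem_union, mem_insert, mem_union]
    left; right; right
    rw [mem_biUnion]
    refine ⟨k, hk, ?_⟩
    rw [mem_biUnion]
    refine ⟨l, hl, ?_⟩
    rw [Nat.mem_primeFactors]
    exact ⟨(hPP q hq).1, Int.natCast_dvd.1 hd, Int.natAbs_ne_zero.2 (sub_ne_zero.2 (hdet k hk l hl hkl))⟩
  -- the residues
  have hex : ∀ (q : ℕ) (k : ↥U), ∃ ρ : ℤ, q ∈ PP → (q : ℤ) ∣ α k * ρ + β k := by
    intro q k
    by_cases hq : q ∈ PP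
    · obtain ⟨ρ, hρ⟩ := solve q (hPP q hq).1 (α k) (β k) (hPα q hq k k.2)
      exact ⟨ρ, fun _ => hρ⟩
    · exact ⟨0, fun h => absurd h hq⟩
  choose res hresd using hex
  obtain ⟨V, T, Z₁, M, M', M₂, e₁, e₂, e₃, w1, w2, w3, w4, w5, w6, w7, w8, w9, we, w10, w11, w12, w13, w14, w15⟩ :=
    hres res
    (by
      intro q hq k l hkl hd
      have h1 := hresd q k hq
      have h2 := hresd q l hq
      apply hPd q hq k k.2 l l.2 (fun h => hkl (Subtype.ext h))
      have h3 : α k * β l - α l * β k = α k * (α l * res q l + β l) - α l * (α k * res q k + β k) +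
          α k * α l * (res q k - res q l) := by ring
      rw [h3]
      exact dvd_add (dvd_sub (h2.mul_left _) (h1.mul_left _)) (hd.mul_left _))
    (by
      intro q hq k j hd
      have h1 := hresd q k hq
      apply hPt q hq k k.2 j
      have h2 := dvd_sub (hd.mul_left (α k)) h1
      have h3 : α k * ((t j : ℤ) + res q k) - (α k * res q k + β k) = α k * t j - β k := by ring
      rwa [h3] at h2)
  obtain ⟨n, hXn, hn3, hnb, hnr, hTn, E, hE1, hE2⟩ := hgX ps S hps hS t htinj htl r hr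
    V T Z₁ M M' M₂ e₁ e₂ e₃ w1 w2 w4 w5 w6 w7 w8 w9 we w10 w11 w12 w13 w14 w15 col hcol bad hbad
  refine ⟨n, hXn, hn3, hnb, hnr, ⟨E, hE1, hE2⟩, fun k hk => ?_⟩
  obtain ⟨q, hq, hqd⟩ := w3 n hTn ⟨k, hk⟩
  refine ⟨q, (hPP q hq).1, (hPP q hq).2.2.1, hPg q hq, ?_⟩
  have h1 := hresd q ⟨k, hk⟩ hq
  have h2 : α k * (n : ℤ) + β k = α k * ((n : ℤ) - res q ⟨k, hk⟩) + (α k * res q ⟨k, hk⟩ + β k) := by ring
  rw [h2]
  exact dvd_add (hqd.mul_left _) h1

/-- the template for tuples, the forms indexed by a set -/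
theorem templT : ∃ η : ℝ, 0 < η ∧ ∀ m : ℕ, 1 ≤ m → ∃ K : ℕ, m ≤ K ∧ ∀ D : ℕ,
    ∃ (A : ℕ) (c₄ : ℝ), 0 < c₄ ∧ ∀ Z : ℕ, 4 ≤ Z → ∀ᶠ X : ℝ in atTop,
    ∀ (ps : ℕ) (S : Finset ℕ), GoodP Z ps → GoodS X S → BVat A X (WW X S ps) ps →
    ∀ t : Fin K → ℕ, Function.Injective t → (∀ j, (t j : ℝ) ≤ (Real.log X) ^ 2) →
    ∀ {ι : Type} (U : Finset ι), (U.card : ℝ) ≤ c₄ * Real.log X → ∀ (α β : ι → ℤ),
    (∀ k ∈ U, α k ≠ 0 ∧ ∀ j, β k ≠ α k * t j) → (∀ k ∈ U, |(α k : ℝ)| ≤ X ^ D ∧ |(β k : ℝ)| ≤ X ^ D) →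
    (∀ k ∈ U, ∀ l ∈ U, k ≠ l → α k * β l ≠ α l * β k) → ∀ g : ℕ, g ≠ 0 → (g : ℝ) ≤ X ^ D →
    ∀ r : ℕ, (∀ j, (r + t j).Coprime (WW X S ps)) →
    ∀ col : Fin K → Fin m, (∀ e, K ≤ 2 * m * fib col e) →
    ∀ bad : Finset ℕ, (bad.card : ℝ) ≤ X ^ (9 / 10 : ℝ) →
    ∃ n : ℕ, X < n ∧ (n : ℝ) ≤ 3 * X ∧ n ∉ bad ∧ n ≡ r [MOD WW X S ps] ∧
      (∃ E : Finset (Fin m), η * m ≤ E.card ∧ ∀ e ∈ E, ∃ j, col j = e ∧ (n + t j).Prime) ∧
      ∀ k ∈ U, ∃ q : ℕ, q.Prime ∧ (q : ℝ) ≤ X ^ (1 / 1000 : ℝ) ∧ ¬ q ∣ g ∧ (q : ℤ) ∣ α k * n + β k := by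
  obtain ⟨η, hη, h0⟩ := templT1
  refine ⟨η, hη, fun m hm => ?_⟩
  obtain ⟨K, hmK, h1⟩ := h0 m hm
  refine ⟨K, hmK, fun D => ?_⟩
  obtain ⟨A, c₄, hc₄, h⟩ := h1 D
  refine ⟨A, c₄, hc₄, fun Z hZ4 => ?_⟩
  filter_upwards [h Z hZ4, Real.tendsto_log_atTop.eventually_ge_atTop (1 / c₄), eventually_ge_atTop 1] with X hX hL hX1
  intro ps S hps hS hBV t htinj htl ι U hUc α β hne hle hdet g hg0 hgD r hr col hcol bad hbad
  set n := U.card with hn
  set e := U.equivFin with he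
  set α' : ℕ → ℤ := fun k => if hk : k < n then α (e.symm ⟨k, hk⟩ : ↥U) else 1 with hα'
  set β' : ℕ → ℤ := fun k => if hk : k < n then β (e.symm ⟨k, hk⟩ : ↥U) else -1 with hβ'
  have hmax : ∀ k ∈ range (max n 1), n ≠ 0 → k < n := by
    intro k hk hn0
    rw [mem_range] at hk
    omega
  have hXD : 1 ≤ X ^ D := one_le_pow₀ hX1
  obtain ⟨p, hXp, hp3, hpb, hpr, hE, hall⟩ := hX ps S hps hS hBV t htinj htl (range (max n 1)) ⟨0, by simp⟩
    (by
      rw [card_range]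
      rw [div_le_iff₀ hc₄, mul_comm] at hL
      rcases le_or_gt n 1 with h1 | h1
      · rw [max_eq_right h1]
        push_cast
        exact hL
      · rw [max_eq_left h1.le]
        exact hUc) α' β'
    (by
      intro k hk
      simp only [hα', hβ']
      split_ifs with h1
      · exact hne _ (e.symm ⟨k, h1⟩).2
      · refine ⟨one_ne_zero, fun j => ?_⟩
        have : (0 : ℤ) ≤ t j := by positivity
        omega)
    (by
      intro k hk
      simp only [hα', hβ']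
      split_ifs with h1
      · exact hle _ (e.symm ⟨k, h1⟩).2
      · simpa using hXD)
    (by
      intro k hk l hl hkl
      rcases Nat.eq_zero_or_pos n with h0 | h0
      · rw [h0] at hk hl
        simp only [Nat.zero_le, sup_of_le_right, range_one, mem_singleton] at hk hl
        exact absurd (hk.trans hl.symm) hkl
      · have hk' := hmax k hk (by omega)
        have hl' := hmax l hl (by omega)
        simp only [hα', hβ', dif_pos hk', dif_pos hl']
        apply hdet _ (e.symm ⟨k, hk'⟩).2 _ (e.symm ⟨l, hl'⟩).2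
        intro h1
        have h2 := e.symm.injective (Subtype.ext h1)
        exact hkl (by simpa using h2))
    g hg0 hgD r hr col hcol bad hbad
  refine ⟨p, hXp, hp3, hpb, hpr, hE, fun k hk => ?_⟩
  have hlt : ((e ⟨k, hk⟩ : Fin n) : ℕ) < n := (e ⟨k, hk⟩).2
  have hk2 := hall (e ⟨k, hk⟩ : Fin n) (by rw [mem_range]; omega)
  simp only [hα', hβ', dif_pos hlt] at hk2
  simpa using hk2

end Pool.Agent.TH101.RG
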