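import Pool.Agent.TH101.RG.Tup
import Pool.Agent.TH101.RG.Mult

set_option autoImplicit false
set_option maxHeartbeats 4000000

/-! # Arbitrary admissible tuples and record gaps around the rational multiples of a linear form -/

namespace Pool.Agent.TH101.RG

open Finset Filter
open Pool.Agent.H378R2
open Pool.Agent.H312R2.RG (ev_ff)
open Pool.Agent.H256R2.SC (ff)
open Pool.Agent.H362R2.RQ (fib)

open scoped Classical

theorem tuple_multiples : ∃ η : ℝ, 0 < η ∧ ∀ m : ℕ, 1 ≤ m → ∃ K : ℕ, m ≤ K ∧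
    ∀ (J D : ℕ) (A₀ : ℝ) (d : ℕ), Squarefree d →
    ∃ c : ℝ, 0 < c ∧ ∀ᶠ X : ℝ in atTop,
    ∀ a b : ℤ, a ≠ 0 → |(a : ℝ)| ≤ (Real.log X) ^ D → |(a : ℝ)| ≤ A₀ * (a.natAbs.totient : ℝ) →
    |(b : ℝ)| ≤ X ^ D →
    ∀ t : Fin K → ℕ, Function.Injective t → (∀ j, (t j : ℝ) ≤ (Real.log X) ^ 2) →
    (∀ p : ℕ, p.Prime → ∃ v : ℕ, ∀ j, ¬ p ∣ v + t j) →
    ∀ h : ℕ, (∀ j, (h + t j).Coprime d) →
    ∀ col : Fin K → Fin m, (∀ e, K ≤ 2 * m * fib col e) →
    ∀ bad : Finset ℕ, (bad.card : ℝ) ≤ X ^ (7 / 8 : ℝ) →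
    ∃ n : ℕ, X < n ∧ (n : ℝ) ≤ 3 * X ∧ n ∉ bad ∧ n ≡ h [MOD d] ∧
      (∃ E : Finset (Fin m), η * m ≤ E.card ∧ ∀ e ∈ E, ∃ j, col j = e ∧ (n + t j).Prime) ∧
      ∀ i j : ℤ, 1 ≤ |i| → |i| ≤ J → 1 ≤ |j| → |j| ≤ J → ∀ q : ℕ, q.Prime →
        |((j * q - i * (a * n + b) : ℤ) : ℝ)| ≤ c * ff X → ∃ l, q = n + t l := by
  obtain ⟨η, hη, htup⟩ := tup_form
  refine ⟨η, hη, fun m hm => ?_⟩
  obtain ⟨K, hmK, htupK⟩ := htup m hm
  refine ⟨K, hmK, fun J D A₀ d hd => ?_⟩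
  obtain ⟨ℓ, hℓ⟩ : ∃ ℓ : ℕ, ℓ = J.factorial := ⟨_, rfl⟩
  have hℓ0 : 0 < ℓ := by rw [hℓ]; exact Nat.factorial_pos J
  have hℓr : (1 : ℝ) ≤ ℓ := by exact_mod_cast hℓ0
  have hd0 : d ≠ 0 := hd.ne_zero
  obtain ⟨c₁, hc₁, hone⟩ := htupK (ℓ + |A₀| + d) (by positivity) (D + 1)
  refine ⟨c₁ / ℓ, by positivity, ?_⟩
  filter_upwards [hone d J hd, ev_ff c₁ hc₁, Real.tendsto_log_atTop.eventually_ge_atTop ((ℓ : ℝ) * d),
    Real.tendsto_log_atTop.eventually_ge_atTop ((J : ℝ) + 2), eventually_ge_atTop (ℓ : ℝ), eventually_ge_atTop 4,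
    Real.tendsto_log_atTop.eventually (Pool.Agent.H378R2.ev_pow_exp (D + 3) (1 / 40) 1 (by norm_num))]
    with X hX hff hLd hLJ hXℓ hX4 hE
  intro a b ha haD haφ hb t htinj htl hadm h hh col hcol bad hbad
  set L := Real.log X with hL
  have hX0 : 0 < X := by linarith
  have hJ0 : (0 : ℝ) ≤ J := Nat.cast_nonneg J
  have hL1 : 1 ≤ L := by linarith
  have hL0 : 0 < L := by linarith
  set E := Real.exp (1 / 40 * L) with hEd
  rw [one_mul] at hE
  have hE0 : 0 < E := Real.exp_pos _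
  have hELJ : (J : ℝ) + 2 ≤ E := by
    have h1 : L ^ 1 ≤ L ^ (D + 3) := pow_le_pow_right₀ hL1 (by omega)
    rw [pow_one] at h1
    linarith
  have hpowE : ∀ k : ℕ, X ^ ((k : ℝ) / 40) = E ^ k := by
    intro k
    rw [hEd, ← Real.exp_nat_mul, Real.rpow_def_of_pos hX0, ← hL]
    congr 1
    ring
  have e10 : X ^ (1 / 10 : ℝ) = E ^ 4 := by rw [← hpowE 4]; norm_num
  have e78 : X ^ (7 / 8 : ℝ) = E ^ 35 := by rw [← hpowE 35]; norm_num
  have e910 : X ^ (9 / 10 : ℝ) = E ^ 36 := by rw [← hpowE 36]; norm_num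
  have hE1 : 1 ≤ E := by linarith
  have e1000 : X ^ (1 / 1000 : ℝ) ≤ E := by
    have h1 := hpowE 1
    rw [pow_one] at h1
    rw [← h1]
    exact Real.rpow_le_rpow_of_exponent_le (by linarith) (by norm_num)
  -- the data
  set ga : ℕ := ℓ * (a.natAbs * d) with hga
  have hana : a.natAbs ≠ 0 := Int.natAbs_ne_zero.2 ha
  have hga0 : ga ≠ 0 := by
    rw [hga]
    exact mul_ne_zero hℓ0.ne' (mul_ne_zero hana hd0)
  have hacast : ((a.natAbs : ℕ) : ℝ) = |(a : ℝ)| := by rw [Nat.cast_natAbs, Int.cast_abs]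
  have hgsum : ∑ p ∈ ga.primeFactors, (1 : ℝ) / p ≤ ℓ + |A₀| + d := by
    have h1 := sum_inv_mul ℓ (a.natAbs * d) hℓ0.ne' (mul_ne_zero hana hd0)
    have h2 := sum_inv_mul a.natAbs d hana hd0
    have h3 := sum_inv_le_self ℓ
    have h4 := sum_inv_le_self d
    have h5 := sum_inv_le_of_totient a.natAbs hana A₀ (by rw [hacast]; exact haφ)
    have h6 := le_abs_self A₀
    rw [← hga] at h1
    linarith
  have hgle : (ga : ℝ) ≤ L ^ (D + 1) := by
    rw [hga]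
    push_cast
    rw [hacast]
    calc (ℓ : ℝ) * (|(a : ℝ)| * d) = |(a : ℝ)| * (ℓ * d) := by ring
      _ ≤ L ^ D * L := mul_le_mul haD hLd (by positivity) (by positivity)
      _ = L ^ (D + 1) := (pow_succ _ _).symm
  set bad' : Finset ℕ := bad ∪ (Icc 1 ⌊3 * X⌋₊).filter (fun n : ℕ => |((a * n + b : ℤ) : ℝ)| ≤ X ^ (1 / 10 : ℝ))
    with hbad'
  have hbadc : (bad'.card : ℝ) ≤ X ^ (9 / 10 : ℝ) := by
    have h1 : (bad'.card : ℝ) ≤ bad.card +
        (((Icc 1 ⌊3 * X⌋₊).filter (fun n : ℕ => |((a * n + b : ℤ) : ℝ)| ≤ X ^ (1 / 10 : ℝ))).card : ℝ) := by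
      rw [hbad', ← Nat.cast_add]
      exact Nat.cast_le.2 (card_union_le _ _)
    have h2 := few_small a b ha ⌊3 * X⌋₊ (X ^ (1 / 10 : ℝ)) (by positivity)
    rw [e10] at h2 h1
    rw [e78] at hbad
    rw [e910]
    have h3 : E ^ 4 ≤ E ^ 35 := pow_le_pow_right₀ hE1 (by norm_num)
    have h4 : 1 ≤ E ^ 35 := one_le_pow₀ hE1
    have h5 : E ^ 36 = E * E ^ 35 := by ring
    have h6 : 4 ≤ E := by
      have h7 : L ^ 3 ≤ L ^ (D + 3) := pow_le_pow_right₀ hL1 (by omega)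
      have h8 : (2 : ℝ) ≤ L := by linarith
      have h9 : (4 : ℝ) ≤ L ^ 3 := by nlinarith [sq_nonneg L]
      linarith
    have h7 : 4 * E ^ 35 ≤ E * E ^ 35 := mul_le_mul_of_nonneg_right h6 (by positivity)
    rw [h5]
    linarith
  obtain ⟨n, hXn, hn3, hnb, hnd, hnJ, hnE, hmain⟩ := hX (ℓ * a) ga hga0
    (by
      rw [hga]
      push_cast
      have h1 : (a : ℤ) ∣ |a| := (dvd_abs a a).2 (dvd_refl a)
      exact mul_dvd_mul (dvd_refl _) (h1.mul_right _))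
    (by
      rw [hga]
      exact Dvd.dvd.mul_left (Dvd.dvd.mul_left (dvd_refl d) _) _) hgsum hgle (ℓ * b)
    (by
      push_cast
      rw [abs_mul, abs_of_nonneg (by positivity : (0 : ℝ) ≤ ℓ), pow_succ, mul_comm]
      exact mul_le_mul hb hXℓ (by positivity) (by positivity)) t htinj htl hadm h hh col hcol bad' hbadc
  rw [hbad', mem_union, not_or] at hnb
  have hn0 : 0 < n := by
    have h1 : (0 : ℝ) < n := by linarith
    exact_mod_cast h1
  have hpbig : E ^ 4 < |((a * n + b : ℤ) : ℝ)| := by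
    by_contra hcon
    push Not at hcon
    apply hnb.2
    rw [mem_filter, mem_Icc, e10]
    exact ⟨⟨hn0, Nat.le_floor hn3⟩, hcon⟩
  refine ⟨n, hXn, hn3, hnb.1, hnd, hnE, ?_⟩
  intro i j hi1 hiJ hj1 hjJ q hq hqd
  set k : ℤ := j * q - i * (a * n + b) with hk
  have hffX : 0 ≤ ff X := hff.2.1
  have hcff : c₁ / ℓ * ff X ≤ E := by
    have h1 : c₁ / ℓ * ff X ≤ c₁ * ff X := by
      apply mul_le_mul_of_nonneg_right _ hffX
      exact div_le_self hc₁.le hℓr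
    have h2 : L ^ 2 ≤ L ^ (D + 3) := pow_le_pow_right₀ hL1 (by omega)
    linarith [hff.1]
  -- a small `q` is impossible
  have hsmall : ¬ ((q : ℝ) ≤ E) := by
    intro hqE
    have h1 : |(i : ℝ)| * |((a * n + b : ℤ) : ℝ)| ≤ (J : ℝ) * E + E := by
      have h2 : (i : ℝ) * ((a * n + b : ℤ) : ℝ) = j * q - ((k : ℤ) : ℝ) := by
        rw [hk]
        push_cast
        ring
      rw [← abs_mul, h2]
      refine (abs_sub _ _).trans ?_
      rw [abs_mul, abs_of_nonneg (Nat.cast_nonneg q : (0 : ℝ) ≤ q)]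
      have h3 : |(j : ℝ)| ≤ J := by exact_mod_cast hjJ
      have h4 : |(j : ℝ)| * q ≤ J * E := mul_le_mul h3 hqE (Nat.cast_nonneg q) hJ0
      linarith
    have h2 : (1 : ℝ) ≤ |(i : ℝ)| := by exact_mod_cast hi1
    have h3 : |((a * n + b : ℤ) : ℝ)| ≤ |(i : ℝ)| * |((a * n + b : ℤ) : ℝ)| :=
      le_mul_of_one_le_left (abs_nonneg _) h2
    have h4 : (J : ℝ) * E + E ≤ E ^ 4 := by
      calc (J : ℝ) * E + E = (J + 1) * E := by ring
        _ ≤ E * E := mul_le_mul_of_nonneg_right (by linarith) hE0.le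
        _ = E ^ 2 := by ring
        _ ≤ E ^ 4 := pow_le_pow_right₀ hE1 (by norm_num)
    linarith
  have hdivℓ : ∀ x : ℤ, 1 ≤ |x| → |x| ≤ J → x ∣ (ℓ : ℤ) := by
    intro x h1 h2
    rw [Int.abs_eq_natAbs] at h1 h2
    rw [← Int.natAbs_dvd_natAbs, Int.natAbs_natCast, hℓ]
    apply Nat.dvd_factorial
    · exact_mod_cast h1
    · exact_mod_cast h2
  obtain ⟨i₁, hi₁⟩ := hdivℓ i hi1 hiJ
  have hi₁ℓ : i₁ ∣ (ℓ : ℤ) := ⟨i, by rw [hi₁]; ring⟩
  have hi₁0 : i₁ ≠ 0 := by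
    rintro rfl
    rw [mul_zero] at hi₁
    have : (0 : ℤ) < ℓ := by exact_mod_cast hℓ0
    omega
  have hi₁le : |(i₁ : ℝ)| ≤ ℓ := by
    have h1 : |i₁| ≤ (ℓ : ℤ) := by
      rw [Int.abs_eq_natAbs]
      have := Nat.le_of_dvd hℓ0 (Int.natCast_dvd_natCast.1 ((Int.natAbs_dvd).2 hi₁ℓ))
      exact_mod_cast this
    exact_mod_cast h1
  have hid : (ℓ : ℤ) * a * n + ℓ * b + i₁ * k = i₁ * j * q := by
    rw [hk, hi₁]
    ring
  by_cases hz : ∃ l, (ℓ : ℤ) * b + i₁ * k = ℓ * a * t l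
  · obtain ⟨l, hl⟩ := hz
    refine ⟨l, ?_⟩
    have h1 : (ℓ : ℤ) * a * ((n + t l : ℕ) : ℤ) = i₁ * j * q := by
      rw [← hid]
      push_cast
      linarith
    have h2 : i * a * ((n + t l : ℕ) : ℤ) = j * q := by
      apply mul_left_cancel₀ hi₁0
      rw [hi₁] at h1
      linarith
    have hndiv : ¬ (q : ℤ) ∣ i * a := by
      intro h3
      apply hsmall
      have h4 : q ∣ ga := by
        have h5 : (q : ℤ) ∣ (ga : ℤ) := by
          rw [hga]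
          push_cast
          have h6 : i * a ∣ (ℓ : ℤ) * (|a| * d) := by
            have h7 : (a : ℤ) ∣ |a| := (dvd_abs a a).2 (dvd_refl a)
            exact mul_dvd_mul ⟨i₁, hi₁⟩ (h7.mul_right _)
          exact h3.trans h6
        exact_mod_cast h5
      have h5 : (q : ℝ) ≤ ga := by exact_mod_cast Nat.le_of_dvd (Nat.pos_of_ne_zero hga0) h4
      have h6 : L ^ (D + 1) ≤ L ^ (D + 3) := pow_le_pow_right₀ hL1 (by omega)
      linarith
    have h3 : (q : ℤ) ∣ i * a * ((n + t l : ℕ) : ℤ) := by rw [h2]; exact dvd_mul_left _ _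
    have h4 : (q : ℤ) ∣ ((n + t l : ℕ) : ℤ) := ((Nat.prime_iff_prime_int.1 hq).dvd_mul.1 h3).resolve_left hndiv
    obtain ⟨s, hs⟩ := Int.natCast_dvd_natCast.1 h4
    have hs1 : s = 1 := by
      by_contra hne
      have h5 : i * a * s = j := by
        have h6 : (q : ℤ) * (i * a * s) = q * j := by
          rw [hs] at h2
          push_cast at h2
          linarith
        exact mul_left_cancel₀ (by exact_mod_cast hq.pos.ne') h6
      have h6 : s ∣ j.natAbs := by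
        have h7 : (s : ℤ) ∣ j := ⟨i * a, by rw [← h5]; ring⟩
        exact Int.natCast_dvd.1 h7
      have hj0 : 0 < j.natAbs := by
        rw [Int.abs_eq_natAbs] at hj1
        exact_mod_cast hj1
      have hjJ' : j.natAbs ≤ J := by
        rw [Int.abs_eq_natAbs] at hjJ
        exact_mod_cast hjJ
      have h7 : s ≤ J := (Nat.le_of_dvd hj0 h6).trans hjJ'
      have hs0 : 0 < s := Nat.pos_of_dvd_of_pos h6 hj0
      exact hnJ l s.minFac (Nat.minFac_prime hne) ((Nat.minFac_le hs0).trans h7)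
        ((Nat.minFac_dvd s).trans ⟨q, by rw [hs]; ring⟩)
    rw [hs, hs1, mul_one]
  · exfalso
    push Not at hz
    obtain ⟨q', hq', hq'X, hq'g, hq'd⟩ := hmain (i₁ * k) (by
      push_cast
      rw [abs_mul]
      have h1 : |(k : ℝ)| ≤ c₁ / ℓ * ff X := hqd
      calc |(i₁ : ℝ)| * |(k : ℝ)| ≤ ℓ * (c₁ / ℓ * ff X) := mul_le_mul hi₁le h1 (abs_nonneg _) (by positivity)
        _ = c₁ * ff X := by field_simp) hz
    rw [hid] at hq'd
    have hq'ℓ : ¬ (q' : ℤ) ∣ (ℓ : ℤ) := by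
      intro h1
      apply hq'g
      rw [hga]
      exact (Int.natCast_dvd_natCast.1 h1).mul_right _
    have hqq : q' = q := by
      rcases (Nat.prime_iff_prime_int.1 hq').dvd_mul.1 hq'd with h1 | h1
      · rcases (Nat.prime_iff_prime_int.1 hq').dvd_mul.1 h1 with h2 | h2
        · exact absurd (h2.trans hi₁ℓ) hq'ℓ
        · exact absurd (h2.trans (hdivℓ j hj1 hjJ)) hq'ℓ
      · exact (Nat.prime_dvd_prime_iff_eq hq' hq).1 (by exact_mod_cast h1)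
    apply hsmall
    rw [← hqq]
    exact hq'X.trans e1000

end Pool.Agent.TH101.RG
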